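import Pool.Agent.Lib.SV.SDefs

/-! Internal definitions of the project SV: calculus on a Riemann domain over `ℂ^n`, étale atlases,
sections, coverings. -/

open scoped Classical Topology ENNReal
open Set MeasureTheory Complex

set_option linter.unusedVariables false

noncomputable section

namespace Pool.Agent.Lib.SV

/-! ### Euclidean level -/

section euc

variable {n : ℕ}

/-- Square of the Euclidean norm. -/
def nsq {ι : Type} [Fintype ι] (v : ι → ℂ) : ℝ := ∑ j, normSq (v j)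

/-- Second derivative in the direction `v`. -/
def d2 (g : E n → ℝ) (z v : E n) : ℝ := fderiv ℝ (fun w => fderiv ℝ g w v) z v

/-- Four times the Levi form. -/
def levE (g : E n → ℝ) (z v : E n) : ℝ := d2 g z v + d2 g z (I • v)

end euc

/-! ### Riemann domains -/

section rd

variable {n : ℕ} {Y : Type} [TopologicalSpace Y] (p : Y → E n)

/-- `p` is a local homeomorphism on the open set `W`. -/
structure RD (W : Set Y) : Prop where
  opn : IsOpen W
  loc : IsLocalHomeomorphOn p W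

/-- `e` is a chart of the Riemann domain. -/
structure Cht (W : Set Y) (e : OpenPartialHomeomorph Y (E n)) : Prop where
  sub : e.source ⊆ W
  eq : EqOn p e e.source

/-- `C^k` at `y`. -/
def Sm {F : Type} [NormedAddCommGroup F] [NormedSpace ℝ F] (k : ℕ) (f : Y → F) (y : Y) : Prop :=
  ContDiffAt ℝ k (f ∘ lift p y) (p y)

/-- Complex differentiable at `y`. -/
def Hol (f : Y → ℂ) (y : Y) : Prop := DifferentiableAt ℂ (f ∘ lift p y) (p y)

/-- Real derivative. -/
def dd {F : Type} [NormedAddCommGroup F] [NormedSpace ℝ F] (f : Y → F) (y : Y) : E n →L[ℝ] F :=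
  fderiv ℝ (f ∘ lift p y) (p y)

/-- Four times the Levi form. -/
def lev (f : Y → ℝ) (y : Y) (v : E n) : ℝ := levE (f ∘ lift p y) (p y) v

/-- Four times the square of the modulus of the `(1,0)` derivative. -/
def grd (f : Y → ℝ) (y : Y) (v : E n) : ℝ := dd p f y v ^ 2 + dd p f y (I • v) ^ 2

/-- Twice the antilinear part of the derivative. -/
def dbar (G : Y → ℂ) (y : Y) (v : E n) : ℂ := dd p G y v + I * dd p G y (I • v)

/-- Wirtinger derivative in `z_j`. -/
def dz (j : Fin n) (G : Y → ℂ) (y : Y) : ℂ :=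
  (dd p G y (Pi.single j 1) - I * dd p G y (Pi.single j I)) / 2

/-- Wirtinger derivative in the conjugate of `z_j`. -/
def dzb (j : Fin n) (G : Y → ℂ) (y : Y) : ℂ :=
  (dd p G y (Pi.single j 1) + I * dd p G y (Pi.single j I)) / 2

/-- The weighted divergence, sum of `e^φ ∂_j (e^(-φ) α_j)`. -/
def dl (φ : Y → ℝ) (α : Fin n → Y → ℂ) (y : Y) : ℂ :=
  ∑ j, (dz p j (α j) y - dz p j (fun x => (φ x : ℂ)) y * α j y)

/-- Test function of class `C^k` with compact support in `W`. -/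
def Tst {F : Type} [NormedAddCommGroup F] [NormedSpace ℝ F] (W : Set Y) (k : ℕ) (f : Y → F) : Prop :=
  (∀ y ∈ W, Sm p k f y) ∧ ∃ K, IsCompact K ∧ K ⊆ W ∧ ∀ y ∉ K, f y = 0

/-- `C^2` at `y` with non-negative Levi form. -/
def Psh (f : Y → ℝ) (y : Y) : Prop := Sm p 2 f y ∧ ∀ v, 0 ≤ lev p f y v

/-- Near `y`, a uniform limit of `C^2` functions with non-negative Levi form. -/
def LU (u : Y → ℝ) (y : Y) : Prop :=
  ∃ V ∈ 𝓝 y, ∀ δ > 0, ∃ u' : Y → ℝ, ∀ x ∈ V, Psh p u' x ∧ |u x - u' x| ≤ δ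

/-- Strictly plurisubharmonic exhaustion. -/
structure Exh (W : Set Y) (s : Y → ℝ) : Prop where
  sm : ∀ y ∈ W, Sm p 2 s y
  pos : ∀ y ∈ W, ∀ v ≠ 0, 0 < lev p s y v
  cpt : ∀ a : ℝ, IsCompact {y | y ∈ W ∧ s y ≤ a}

variable [MeasurableSpace Y]

/-- `μ` is the pull-back of Lebesgue measure. -/
structure IsRM (W : Set Y) (μ : Measure Y) : Prop where
  off : μ Wᶜ = 0
  inj : ∀ A, MeasurableSet A → A ⊆ W → InjOn p A → μ A = volume (p '' A)

/-- The pull-back of Lebesgue measure. -/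
def rm (W : Set Y) : Measure Y := if h : ∃ μ, IsRM p W μ then h.choose else 0

end rd

/-! ### Étale atlases -/

/-- Data of a finite étale atlas: opens `U i`, étale maps `p i`, the sections `ξ i` of `A`,
`jac i` of `K + (n+1) A` and `l` of `A` (component `j` in the frame of chart `j`), and the weights
`φ`, `κ` of metrics on `A` and `K`. -/
structure Pre (n : ℕ) (X : Type) where
  r : ℕ
  o : Fin r
  U : Fin r → Set X
  p : Fin r → X → E n
  ξ : Fin r → Fin r → X → ℂ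
  jac : Fin r → Fin r → X → ℂ
  l : Fin r → X → ℂ
  φ : Fin r → X → ℝ
  κ : Fin r → X → ℝ

namespace Pre

variable {n : ℕ} {X Y : Type} [TopologicalSpace X] [TopologicalSpace Y] (P : Pre n X)

/-- The change of coordinates from chart `j` to chart `i` near `x`. -/
def tr (i j : Fin P.r) (x : X) : E n → E n := P.p i ∘ lift (P.p j) x

/-- Its complex derivative. -/
def T (i j : Fin P.r) (x : X) : E n →L[ℂ] E n := fderiv ℂ (P.tr i j x) (P.p j x)

/-- Its Jacobian determinant. -/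
def d (i j : Fin P.r) (x : X) : ℂ := (P.T i j x).det

/-- `g` is the family of coefficients of a holomorphic section of `a K + b A` over `Y`. -/
structure IsSec (π : Y → X) (a b : ℕ) (g : Fin P.r → Y → ℂ) : Prop where
  hol : ∀ i y, π y ∈ P.U i → Hol (P.p i ∘ π) (g i) y
  cmp : ∀ i j y, π y ∈ P.U i → π y ∈ P.U j →
    g j y = g i y * P.d i j (π y) ^ a * P.ξ i j (π y) ^ b
  off : ∀ i y, π y ∉ P.U i → g i y = 0

/-- The axioms of an atlas. -/
structure Good : Prop where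
  rd : ∀ i, RD (P.p i) (P.U i)
  cov : ∀ x, ∃ i, x ∈ P.U i
  ne : (P.U P.o).Nonempty
  hol : ∀ i j x, x ∈ P.U i → x ∈ P.U j → DifferentiableAt ℂ (P.tr i j x) (P.p j x)
  secξ : ∀ i, P.IsSec (fun x => x) 0 1 (P.ξ i)
  secj : ∀ i, P.IsSec (fun x => x) 1 (n + 1) (P.jac i)
  secl : P.IsSec (fun x => x) 0 1 P.l
  ξ1 : ∀ i, ∀ x ∈ P.U i, P.ξ i i x = 1
  j1 : ∀ i, ∀ x ∈ P.U i, P.jac i i x = 1
  mem : ∀ i j, ∀ x ∈ P.U j, P.ξ i j x ≠ 0 → P.jac i j x ≠ 0 → x ∈ P.U i
  ξ0 : ∀ i j x, x ∈ P.U i → x ∈ P.U j → P.ξ i j x ≠ 0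
  d0 : ∀ i j x, x ∈ P.U i → x ∈ P.U j → P.d i j x ≠ 0
  smφ : ∀ i, ∀ x ∈ P.U i, Sm (P.p i) 2 (P.φ i) x
  smκ : ∀ i, ∀ x ∈ P.U i, Sm (P.p i) 2 (P.κ i) x
  pos : ∀ i, ∀ x ∈ P.U i, ∀ v ≠ 0, 0 < lev (P.p i) (P.φ i) x v
  relφ : ∀ i j x, x ∈ P.U i → x ∈ P.U j → P.φ j x = P.φ i x + Real.log (normSq (P.ξ i j x))
  relκ : ∀ i j x, x ∈ P.U i → x ∈ P.U j → P.κ j x = P.κ i x + Real.log (normSq (P.d i j x))
  ber : ∀ x, (∃ i, x ∈ P.U i ∧ P.l i x ≠ 0) ∨
    ∃ i, x ∈ P.U i ∧ ∃ k, ∀ x' ∈ P.U i, P.l i x' = P.p i x' k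

end Pre

/-- A compact connected space with an étale atlas and a Galois covering of it. -/
structure Ctx (n : ℕ) where
  X : Type
  Y : Type
  Γ : Type
  [tX : TopologicalSpace X]
  [hX : T2Space X]
  [cX : CompactSpace X]
  [nX : ConnectedSpace X]
  [sX : SecondCountableTopology X]
  [mX : MeasurableSpace X]
  [bX : BorelSpace X]
  [tY : TopologicalSpace Y]
  [hY : T2Space Y]
  [sY : SecondCountableTopology Y]
  [lY : LocallyCompactSpace Y]
  [mY : MeasurableSpace Y]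
  [bY : BorelSpace Y]
  [gΓ : Group Γ]
  [cΓ : Countable Γ]
  [aΓ : MulAction Γ Y]
  π : Y → X
  cov : IsQuotientCoveringMap π Γ
  τ : X → Y
  πτ : ∀ x, π (τ x) = x
  pd : ∀ K L : Set Y, IsCompact K → IsCompact L → {γ : Γ | ∃ y ∈ K, γ • y ∈ L}.Finite
  fd : ∃ F : Set Y, IsCompact F ∧ ∀ y, ∃ γ : Γ, γ • y ∈ F
  P : Pre n X
  good : P.Good

attribute [instance] Ctx.tX Ctx.hX Ctx.cX Ctx.nX Ctx.sX Ctx.mX Ctx.bX Ctx.tY Ctx.hY Ctx.sY Ctx.lY
  Ctx.mY Ctx.bY Ctx.gΓ Ctx.cΓ Ctx.aΓ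

namespace Ctx

variable {n : ℕ} (C : Ctx n)

/-- The trivial covering of the base. -/
@[reducible] def base : Ctx n where
  X := C.X
  Y := C.X
  Γ := Unit
  aΓ := { smul := fun _ x => x, one_smul := fun _ => rfl, mul_smul := fun _ _ _ => rfl }
  π := fun x => x
  cov :=
    letI : MulAction Unit C.X :=
      { smul := fun _ x => x, one_smul := fun _ => rfl, mul_smul := fun _ _ _ => rfl }
    { toIsQuotientMap := Topology.IsQuotientMap.id
      continuous_const_smul := fun _ => continuous_id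
      apply_eq_iff_mem_orbit := ⟨fun h => ⟨(), h.symm⟩, fun ⟨_, h⟩ => h.symm⟩
      disjoint := fun _ => ⟨univ, Filter.univ_mem, fun _ _ => rfl⟩ }
  τ := fun x => x
  πτ := fun _ => rfl
  pd := fun _ _ _ _ => Set.toFinite _
  fd := ⟨univ, isCompact_univ, fun _ => ⟨(), mem_univ _⟩⟩
  P := C.P
  good := C.good

/-- Index type of the atlas. -/
abbrev ι : Type := Fin C.P.r

/-- The base index. -/
abbrev o : C.ι := C.P.o

/-- Étale coordinates on the covering. -/
abbrev q (i : C.ι) : C.Y → E n := C.P.p i ∘ C.π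

/-- Domain of the étale coordinates on the covering. -/
abbrev W (i : C.ι) : Set C.Y := C.π ⁻¹' C.P.U i

/-- Weight of `A` on the covering. -/
abbrev φ (i : C.ι) : C.Y → ℝ := C.P.φ i ∘ C.π

/-- Weight of `K` on the covering. -/
abbrev κ (i : C.ι) : C.Y → ℝ := C.P.κ i ∘ C.π

/-- The weight of `a K + b A`. -/
def wt (a b : ℕ) (i : C.ι) (y : C.Y) : ℝ := a * C.κ i y + b * C.φ i y

/-- The reference Kähler form. -/
def om (i : C.ι) (y : C.Y) (v : E n) : ℝ := lev (C.q i) (C.φ i) y v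

/-- Holomorphic sections of `a K + b A` over the covering. -/
def Sec (a b : ℕ) : Submodule ℂ (C.ι → C.Y → ℂ) where
  carrier := {g | C.P.IsSec C.π a b g}
  add_mem' := fun {g h} hg hh =>
    ⟨fun i y hy => (hg.hol i y hy).add (hh.hol i y hy), fun i j y hi hj => by
      simp only [Pi.add_apply, hg.cmp i j y hi hj, hh.cmp i j y hi hj, add_mul],
      fun i y hy => by simp only [Pi.add_apply, hg.off i y hy, hh.off i y hy, add_zero]⟩
  zero_mem' := ⟨fun i y hy => differentiableAt_const (0 : ℂ), fun i j y hi hj => by simp,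
    fun i y hy => rfl⟩
  smul_mem' := fun c g hg =>
    ⟨fun i y hy => (hg.hol i y hy).const_mul c, fun i j y hi hj => by
      simp only [Pi.smul_apply, smul_eq_mul, hg.cmp i j y hi hj, mul_assoc],
      fun i y hy => by simp only [Pi.smul_apply, hg.off i y hy, smul_zero]⟩

/-- Dimension of the space of sections over the base. -/
def h0 (a b : ℕ) : ℕ := Module.finrank ℂ (C.base.Sec a b)

/-- A chart that contains the image of `y`. -/
def ix (y : C.Y) : C.ι := (C.good.cov (C.π y)).choose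

/-- Square of the pointwise norm of a section of `a K + b A`. -/
def nr (a b : ℕ) (g : C.ι → C.Y → ℂ) (y : C.Y) : ℝ :=
  normSq (g (C.ix y) y) * Real.exp (-C.wt a b (C.ix y) y)

/-- Pull-back of a family of functions on the base. -/
def pb (g : C.ι → C.X → ℂ) : C.ι → C.Y → ℂ := fun i y => g i (C.π y)

/-- Translate of a family of functions. -/
def tl (γ : C.Γ) (g : C.ι → C.Y → ℂ) : C.ι → C.Y → ℂ := fun i y => g i (γ • y)

/-- Lebesgue measure in the chart `i`. -/
def leb (i : C.ι) : Measure C.Y := rm (C.q i) (C.W i)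

/-- The volume measure. -/
def V : Measure C.Y :=
  (C.leb C.o).withDensity fun y => ENNReal.ofReal (Real.exp (C.κ C.o y))

/-- The section has finite `L^e` norm. -/
def Lp (a b : ℕ) (e : ℝ) (g : C.ι → C.Y → ℂ) : Prop :=
  ∫⁻ y, ENNReal.ofReal (C.nr a b g y ^ (e / 2)) ∂C.V ≠ ∞

/-- Of class `C^2` on the covering. -/
def GSm (f : C.Y → ℝ) : Prop := ∀ i, ∀ y ∈ C.W i, Sm (C.q i) 2 f y

/-- Gradient and Levi form bounded by the Kähler form. -/
def Bd (f : C.Y → ℝ) (M : ℝ) : Prop :=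
  ∀ i, ∀ y ∈ C.W i, ∀ v, grd (C.q i) f y v ≤ M * C.om i y v ∧ |lev (C.q i) f y v| ≤ M * C.om i y v

/-- A proper function with bounded gradient and Levi form. -/
structure Rho (ρ : C.Y → ℝ) : Prop where
  sm : C.GSm ρ
  bd : ∃ M, C.Bd ρ M
  nonneg : ∀ y, 0 ≤ ρ y
  cpt : ∀ a : ℝ, IsCompact {y | ρ y ≤ a}

/-- A function with compact support whose translates sum to one. -/
structure Adm (f : C.Y → ℝ) : Prop where
  sm : C.GSm f
  cpt : HasCompactSupport f
  sum : ∀ y, ∑ᶠ γ : C.Γ, f (γ⁻¹ • y) = 1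

/-- The coefficient of the Whitney form in the chart `i`. -/
def wh (c : (Fin (n * 2 + 1) → C.Γ) → ℝ) (f : C.Y → ℝ) (i : C.ι) (y : C.Y) : ℝ :=
  whitney c f (lift (C.q i) y) (C.q i y)

/-- The integral of the Whitney form. -/
def pr (c : (Fin (n * 2 + 1) → C.Γ) → ℝ) (f : C.Y → ℝ) : ℝ :=
  ∫ x, C.wh c f C.o (C.τ x) ∂C.base.leb C.o

/-- The `ℓ¹` norm of the derivative of the translates of `f` in the base chart. -/
def N1 (f : C.Y → ℝ) (y : C.Y) (v : E n) : ℝ :=
  ∑ᶠ γ : C.Γ, |dd (C.q C.o) (fun x => f (γ⁻¹ • x)) y v|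

/-- The open subset of the base where a section does not vanish. -/
def nz (a b : ℕ) (σ : C.ι → C.X → ℂ) : Set C.X := {x | C.base.nr a b σ x ≠ 0}

end Ctx

end Pool.Agent.Lib.SV
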