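import Mathlib

/-! Holomorphic maps of several variables: Cauchy estimates, limits, smoothness, identity theorem,
Arzela-Ascoli and Montel. -/

open scoped Topology
open Set Filter Metric

noncomputable section

namespace Pool.Agent.Lib.SV.H85

variable {E F : Type*} [NormedAddCommGroup E] [NormedSpace ℂ E] [NormedAddCommGroup F]
  [NormedSpace ℂ F]

omit [NormedSpace ℂ E] [NormedSpace ℂ F] in
theorem mapsTo_of_bound {f : E → F} {c : E} {R M : ℝ} (hR : 0 < R)
    (hM : ∀ z ∈ ball c R, ‖f z‖ ≤ M) : MapsTo f (ball c R) (closedBall (f c) (2 * M)) := by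
  intro z hz
  rw [mem_closedBall, dist_eq_norm]
  have h1 := hM z hz
  have h2 := hM c (mem_ball_self hR)
  have h3 := norm_sub_le (f z) (f c)
  linarith

/-- Cauchy estimate. -/
theorem norm_fderiv_le {f : E → F} {c : E} {R M : ℝ} (hR : 0 < R)
    (hd : DifferentiableOn ℂ f (ball c R)) (hM : ∀ z ∈ ball c R, ‖f z‖ ≤ M) :
    ‖fderiv ℂ f c‖ ≤ 2 * M / R :=
  Complex.norm_fderiv_le_div_of_mapsTo_ball hd (mapsTo_of_bound hR hM) hR

/-- Lipschitz estimate at the centre. -/
theorem norm_sub_le_of_bound {f : E → F} {c z : E} {R M : ℝ}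
    (hd : DifferentiableOn ℂ f (ball c R)) (hM : ∀ z ∈ ball c R, ‖f z‖ ≤ M) (hz : z ∈ ball c R) :
    ‖f z - f c‖ ≤ 2 * M / R * ‖z - c‖ := by
  have hR : 0 < R := pos_of_mem_ball hz
  simpa only [dist_eq_norm] using
    Complex.dist_le_div_mul_dist_of_mapsTo_ball hd (mapsTo_of_bound hR hM) hz

/-- Second order remainder. -/
theorem norm_rem_le {f : E → F} {c z : E} {R M : ℝ}
    (hd : DifferentiableOn ℂ f (ball c R)) (hM : ∀ z ∈ ball c R, ‖f z‖ ≤ M) (hz : z ∈ ball c R) :
    ‖f z - f c - fderiv ℂ f c (z - c)‖ ≤ 4 * M * (‖z - c‖ / R) ^ 2 := by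
  have hR : 0 < R := pos_of_mem_ball hz
  have hc : HasFDerivAt f (fderiv ℂ f c) c :=
    (hd.differentiableAt (ball_mem_nhds c hR)).hasFDerivAt
  set g : E → F := fun w => f w - fderiv ℂ f c (w - c) with hg
  have hgd : DifferentiableOn ℂ g (ball c R) := by
    refine hd.sub ?_
    exact ((fderiv ℂ f c).differentiable.comp (differentiable_id.sub_const c)).differentiableOn
  have hgc : g c = f c := by simp [hg]
  have hM0 : 0 ≤ M := (norm_nonneg _).trans (hM c (mem_ball_self hR))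
  have hmaps : MapsTo g (ball c R) (closedBall (g c) (4 * M)) := by
    intro w hw
    rw [mem_closedBall, dist_eq_norm, hgc]
    have h1 : ‖f w - f c‖ ≤ 2 * M := by
      simpa only [mem_closedBall, dist_eq_norm] using mapsTo_of_bound hR hM hw
    have h2 : ‖fderiv ℂ f c (w - c)‖ ≤ 2 * M := by
      refine ((fderiv ℂ f c).le_opNorm _).trans ?_
      have h3 : ‖w - c‖ ≤ R := by
        have := mem_ball.1 hw
        rw [dist_eq_norm] at this
        exact this.le
      calc ‖fderiv ℂ f c‖ * ‖w - c‖ ≤ 2 * M / R * R :=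
            mul_le_mul (norm_fderiv_le hR hd hM) h3 (norm_nonneg _) (by positivity)
        _ = 2 * M := by field_simp
    have h4 : g w - f c = (f w - f c) - fderiv ℂ f c (w - c) := by simp only [hg]; abel
    rw [h4]
    have := norm_sub_le (f w - f c) (fderiv ℂ f c (w - c))
    linarith
  have ho : (g · - g c) =o[𝓝 c] (fun w => ‖w - c‖ ^ 1) := by
    have h1 := hc.isLittleO
    simp only [pow_one, Asymptotics.isLittleO_norm_right]
    refine h1.congr_left fun w => ?_
    simp only [hg, sub_self, map_zero, sub_zero]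
    abel
  have := Complex.dist_le_mul_div_pow_of_mapsTo_ball_of_isLittleO hgd hmaps ho hz
  rw [dist_eq_norm, dist_eq_norm, hgc] at this
  have h4 : g z - f c = f z - f c - fderiv ℂ f c (z - c) := by simp only [hg]; abel
  rwa [h4] at this

/-- A quadratic remainder gives the derivative. -/
theorem hasFDerivAt_of_rem {g : E → F} {A : E →L[ℂ] F} {c : E} {R C : ℝ} (hR : 0 < R)
    (h : ∀ z ∈ ball c R, ‖g z - g c - A (z - c)‖ ≤ C * (‖z - c‖ / R) ^ 2) : HasFDerivAt g A c := by
  rw [hasFDerivAt_iff_isLittleO]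
  have h1 : (fun z => g z - g c - A (z - c)) =O[𝓝 c] fun z => ‖z - c‖ ^ 2 := by
    refine Asymptotics.IsBigO.of_bound (C / R ^ 2) ?_
    filter_upwards [ball_mem_nhds c hR] with z hz
    refine (h z hz).trans_eq ?_
    rw [Real.norm_of_nonneg (by positivity)]
    field_simp
  exact h1.trans_isLittleO (Asymptotics.isLittleO_pow_sub_sub c (by norm_num))

section findim

variable [FiniteDimensional ℂ E] [CompleteSpace F]

/-- A pointwise limit of uniformly bounded holomorphic maps on a ball is differentiable at the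
centre, and the derivatives at the centre converge. -/
theorem hasFDerivAt_of_tendsto {ι : Type*} {l : Filter ι} [l.NeBot] {f : ι → E → F} {g : E → F}
    {c : E} {R M : ℝ} (hR : 0 < R)
    (hd : ∀ᶠ n in l, DifferentiableOn ℂ (f n) (ball c R) ∧ ∀ z ∈ ball c R, ‖f n z‖ ≤ M)
    (hg : ∀ z ∈ ball c R, Tendsto (fun n => f n z) l (𝓝 (g z))) :
    DifferentiableAt ℂ g c ∧ Tendsto (fun n => fderiv ℂ (f n) c) l (𝓝 (fderiv ℂ g c)) := by
  have hv : ∀ v : E, ∃ a, Tendsto (fun n => fderiv ℂ (f n) c v) l (𝓝 a) := by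
    intro v
    refine cauchy_map_iff_exists_tendsto.1 (Metric.cauchy_iff.2 ⟨map_neBot, fun ε hε => ?_⟩)
    have h1 : Tendsto (fun t : ℂ => (‖t • v‖, ‖t‖ * (4 * M * (‖v‖ / R) ^ 2))) (𝓝 0)
        (𝓝 (‖(0 : ℂ) • v‖, ‖(0 : ℂ)‖ * (4 * M * (‖v‖ / R) ^ 2))) :=
      Continuous.tendsto (by fun_prop) 0
    have h2 : ∀ᶠ t : ℂ in 𝓝[≠] 0, ‖t • v‖ < R ∧ ‖t‖ * (4 * M * (‖v‖ / R) ^ 2) < ε / 4 := by
      refine eventually_nhdsWithin_of_eventually_nhds (Eventually.and ?_ ?_)
      · exact h1.fst_nhds.eventually (gt_mem_nhds (by simpa using hR))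
      · exact h1.snd_nhds.eventually (gt_mem_nhds (by simpa using hε))
    obtain ⟨t, ⟨ht1, ht2⟩, ht0⟩ := (h2.and self_mem_nhdsWithin).exists
    have ht0' : t ≠ 0 := ht0
    have htp : 0 < ‖t‖ := norm_pos_iff.2 ht0'
    have hz : c + t • v ∈ ball c R := by simpa [mem_ball, dist_eq_norm] using ht1
    have h3 : Tendsto (fun n => t⁻¹ • (f n (c + t • v) - f n c)) l
        (𝓝 (t⁻¹ • (g (c + t • v) - g c))) :=
      ((hg _ hz).sub (hg c (mem_ball_self hR))).const_smul _
    refine ⟨ball (t⁻¹ • (g (c + t • v) - g c)) (ε / 2), ?_, fun x hx y hy => ?_⟩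
    · rw [mem_map]
      filter_upwards [hd, Metric.tendsto_nhds.1 h3 (ε / 4) (by positivity)] with n hn h4
      have h5 := norm_rem_le hn.1 hn.2 hz
      rw [add_sub_cancel_left, norm_smul, map_smul] at h5
      have h6 : dist (fderiv ℂ (f n) c v) (t⁻¹ • (f n (c + t • v) - f n c)) < ε / 4 := by
        have h7 : t⁻¹ • (f n (c + t • v) - f n c) - fderiv ℂ (f n) c v =
            t⁻¹ • (f n (c + t • v) - f n c - t • fderiv ℂ (f n) c v) := by
          rw [smul_sub t⁻¹ (f n (c + t • v) - f n c), inv_smul_smul₀ ht0']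
        rw [dist_comm, dist_eq_norm, h7, norm_smul, norm_inv]
        refine lt_of_le_of_lt ?_ ht2
        calc ‖t‖⁻¹ * ‖f n (c + t • v) - f n c - t • fderiv ℂ (f n) c v‖
            ≤ ‖t‖⁻¹ * (4 * M * (‖t‖ * ‖v‖ / R) ^ 2) := by gcongr
          _ = ‖t‖ * (4 * M * (‖v‖ / R) ^ 2) := by field_simp
      have h8 := dist_triangle (fderiv ℂ (f n) c v) (t⁻¹ • (f n (c + t • v) - f n c))
        (t⁻¹ • (g (c + t • v) - g c))
      rw [mem_preimage, mem_ball]
      linarith
    · have := dist_triangle_right x y (t⁻¹ • (g (c + t • v) - g c))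
      rw [mem_ball] at hx hy
      linarith
  choose a ha using hv
  set b := Module.finBasis ℂ E
  obtain ⟨C, hC, hCb⟩ := b.exists_opNorm_le (F := F)
  set A : E →L[ℂ] F := b.constrL fun i => a (b i) with hA
  have hA' : Tendsto (fun n => fderiv ℂ (f n) c) l (𝓝 A) := by
    rw [tendsto_iff_norm_sub_tendsto_zero]
    have h1 : Tendsto (fun n => C * ∑ i, ‖fderiv ℂ (f n) c (b i) - a (b i)‖) l
        (𝓝 (C * ∑ i : Fin (Module.finrank ℂ E), 0)) :=
      (tendsto_finsetSum _ fun i _ => tendsto_iff_norm_sub_tendsto_zero.1 (ha (b i))).const_mul C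
    rw [Finset.sum_const_zero, mul_zero] at h1
    refine squeeze_zero (fun _ => norm_nonneg _) (fun n => hCb (by positivity) fun i => ?_) h1
    rw [sub_apply, hA, b.constrL_basis]
    exact Finset.single_le_sum (f := fun i => ‖fderiv ℂ (f n) c (b i) - a (b i)‖)
      (fun _ _ => norm_nonneg _) (Finset.mem_univ i)
  have hgA : HasFDerivAt g A c := by
    refine hasFDerivAt_of_rem (C := 4 * M) hR fun z hz => ?_
    have h1 : Tendsto (fun n => ‖f n z - f n c - fderiv ℂ (f n) c (z - c)‖) l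
        (𝓝 ‖g z - g c - A (z - c)‖) := by
      refine Tendsto.norm (Tendsto.sub (Tendsto.sub (hg z hz) (hg c (mem_ball_self hR))) ?_)
      exact ((ContinuousLinearMap.apply ℂ F (z - c)).continuous.tendsto A).comp hA'
    refine le_of_tendsto h1 ?_
    filter_upwards [hd] with n hn using norm_rem_le hn.1 hn.2 hz
  exact ⟨hgA.differentiableAt, by rwa [hgA.fderiv]⟩

/-- A pointwise limit of locally uniformly bounded holomorphic maps is holomorphic. -/
theorem differentiableOn_of_tendsto {ι : Type*} {l : Filter ι} [l.NeBot] {f : ι → E → F}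
    {g : E → F} {O : Set E} (hO : IsOpen O) (hd : ∀ᶠ n in l, DifferentiableOn ℂ (f n) O)
    (hb : ∀ x ∈ O, ∃ M, ∃ V ∈ 𝓝 x, ∀ᶠ n in l, ∀ z ∈ V, ‖f n z‖ ≤ M)
    (hg : ∀ z ∈ O, Tendsto (fun n => f n z) l (𝓝 (g z))) :
    DifferentiableOn ℂ g O ∧
      ∀ x ∈ O, Tendsto (fun n => fderiv ℂ (f n) x) l (𝓝 (fderiv ℂ g x)) := by
  have key : ∀ x ∈ O, DifferentiableAt ℂ g x ∧
      Tendsto (fun n => fderiv ℂ (f n) x) l (𝓝 (fderiv ℂ g x)) := by
    intro x hx
    obtain ⟨M, V, hV, hM⟩ := hb x hx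
    obtain ⟨R, hR, hRV⟩ := Metric.mem_nhds_iff.1 (inter_mem hV (hO.mem_nhds hx))
    refine hasFDerivAt_of_tendsto (M := M) hR ?_ fun z hz => hg z (hRV hz).2
    filter_upwards [hd, hM] with n h1 h2
    exact ⟨h1.mono fun z hz => (hRV hz).2, fun z hz => h2 z (hRV hz).1⟩
  exact ⟨fun x hx => (key x hx).1.differentiableWithinAt, fun x hx => (key x hx).2⟩

/-- Weierstrass: a locally uniform limit of holomorphic maps is holomorphic. -/
theorem differentiableOn_of_tendstoLocallyUniformlyOn {ι : Type*} {l : Filter ι} [l.NeBot]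
    {f : ι → E → F} {g : E → F} {O : Set E} (hO : IsOpen O)
    (hd : ∀ᶠ n in l, DifferentiableOn ℂ (f n) O) (hg : TendstoLocallyUniformlyOn f g l O) :
    DifferentiableOn ℂ g O ∧
      ∀ x ∈ O, Tendsto (fun n => fderiv ℂ (f n) x) l (𝓝 (fderiv ℂ g x)) := by
  refine differentiableOn_of_tendsto hO hd (fun x hx => ?_) fun z hz => hg.tendsto_at hz
  have hc : ContinuousOn g O :=
    hg.continuousOn (hd.mono fun n hn => hn.continuousOn).frequently
  have h1 : ∀ᶠ z in 𝓝 x, dist (g z) (g x) < 1 :=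
    Metric.tendsto_nhds.1 (hc.continuousAt (hO.mem_nhds hx)) 1 one_pos
  obtain ⟨t, ht, h2⟩ := Metric.tendstoLocallyUniformlyOn_iff.1 hg 1 one_pos x hx
  rw [hO.nhdsWithin_eq hx] at ht
  refine ⟨‖g x‖ + 2, t ∩ {z | dist (g z) (g x) < 1}, inter_mem ht h1, ?_⟩
  filter_upwards [h2] with n hn z hz
  have h3 := hn z hz.1
  have h4 : dist (g z) (g x) < 1 := hz.2
  rw [dist_eq_norm] at h3 h4
  have h5 : f n z = g x + (g z - g x) - (g z - f n z) := by abel
  rw [h5]
  have h6 := norm_sub_le (g x + (g z - g x)) (g z - f n z)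
  have h7 := norm_add_le (g x) (g z - g x)
  linarith

/-- The directional derivative of a holomorphic map is holomorphic. -/
theorem differentiableOn_fderiv_apply {f : E → F} {O : Set E} (hO : IsOpen O)
    (hd : DifferentiableOn ℂ f O) (v : E) : DifferentiableOn ℂ (fun z => fderiv ℂ f z v) O := by
  intro x hx
  have h1 : ∀ᶠ z in 𝓝 x, dist (f z) (f x) < 1 :=
    Metric.tendsto_nhds.1 (hd.continuousOn.continuousAt (hO.mem_nhds hx)) 1 one_pos
  obtain ⟨R, hR, hRV⟩ := Metric.mem_nhds_iff.1 (inter_mem h1 (hO.mem_nhds hx))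
  set M := ‖f x‖ + 1 with hM
  have hb : ∀ z ∈ ball x R, ‖f z‖ ≤ M := by
    intro z hz
    have h2 : dist (f z) (f x) < 1 := (hRV hz).1
    rw [dist_eq_norm] at h2
    have h3 := norm_sub_norm_le (f z) (f x)
    linarith
  have hdR : DifferentiableOn ℂ f (ball x R) := hd.mono fun z hz => (hRV hz).2
  have hsub : ∀ z ∈ ball x (R / 2), ball z (R / 2) ⊆ ball x R := fun z hz =>
    ball_subset_ball' (by have := mem_ball.1 hz; linarith)
  have hsm : ∀ᶠ t : ℂ in 𝓝[≠] 0, ‖t • v‖ < R / 2 := by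
    refine eventually_nhdsWithin_of_eventually_nhds ?_
    have : Tendsto (fun t : ℂ => ‖t • v‖) (𝓝 0) (𝓝 ‖(0 : ℂ) • v‖) :=
      (Continuous.tendsto (by fun_prop) 0)
    exact this.eventually (gt_mem_nhds (by simpa using hR))
  have key := hasFDerivAt_of_tendsto (l := 𝓝[≠] (0 : ℂ))
    (f := fun t z => t⁻¹ • (f (z + t • v) - f z)) (g := fun z => fderiv ℂ f z v) (c := x)
    (R := R / 2) (M := 2 * M / (R / 2) * ‖v‖) (half_pos hR) ?_ ?_
  · exact key.1.differentiableWithinAt
  · filter_upwards [hsm, self_mem_nhdsWithin] with t ht ht0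
    have hmem : ∀ z ∈ ball x (R / 2), z + t • v ∈ ball z (R / 2) := fun z _ => by
      simpa [mem_ball, dist_eq_norm] using ht
    refine ⟨?_, fun z hz => ?_⟩
    · refine DifferentiableOn.const_smul (DifferentiableOn.sub ?_ ?_) _
      · exact hdR.comp (differentiable_id.add_const _).differentiableOn
          fun z hz => hsub z hz (hmem z hz)
      · exact hdR.mono (ball_subset_ball (half_le_self hR.le))
    · have h2 := norm_sub_le_of_bound (hdR.mono (hsub z hz)) (fun w hw => hb w (hsub z hz hw))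
        (hmem z hz)
      have ht1 : 0 < ‖t‖ := norm_pos_iff.2 ht0
      rw [add_sub_cancel_left, norm_smul] at h2
      rw [norm_smul, norm_inv]
      calc ‖t‖⁻¹ * ‖f (z + t • v) - f z‖ ≤ ‖t‖⁻¹ * (2 * M / (R / 2) * (‖t‖ * ‖v‖)) := by gcongr
        _ = 2 * M / (R / 2) * ‖v‖ := by field_simp
  · intro z hz
    have h2 : HasFDerivAt f (fderiv ℂ f z) z :=
      (hdR.differentiableAt (isOpen_ball.mem_nhds
        (ball_subset_ball (half_le_self hR.le) hz))).hasFDerivAt
    exact (h2.hasLineDerivAt v).tendsto_slope_zero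

/-- Holomorphic maps are `C^k` over `ℂ`. -/
theorem contDiffOn_nat {O : Set E} (hO : IsOpen O) (k : ℕ) :
    ∀ {f : E → F}, DifferentiableOn ℂ f O → ContDiffOn ℂ k f O := by
  induction k with
  | zero => exact fun hd => contDiffOn_zero.2 hd.continuousOn
  | succ k ih =>
    intro f hd
    rw [Nat.cast_succ, contDiffOn_succ_iff_fderiv_of_isOpen hO]
    refine ⟨hd, fun h => absurd h (by simp), ?_⟩
    rw [contDiffOn_clm_apply]
    exact fun v => ih (differentiableOn_fderiv_apply hO hd v)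

theorem contDiffOn_top {O : Set E} (hO : IsOpen O) {f : E → F} (hd : DifferentiableOn ℂ f O) :
    ContDiffOn ℂ (⊤ : ℕ∞) f O := _root_.contDiffOn_infty.2 fun k => contDiffOn_nat hO k hd

theorem contDiffAt_nat {f : E → F} {x : E} (hd : ∀ᶠ z in 𝓝 x, DifferentiableAt ℂ f z) (k : ℕ) :
    ContDiffAt ℂ k f x := by
  obtain ⟨O, h1, hO, hx⟩ := _root_.eventually_nhds_iff.1 hd
  exact (contDiffOn_nat hO k fun z hz => (h1 z hz).differentiableWithinAt).contDiffAt
    (hO.mem_nhds hx)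

theorem differentiableOn_fderiv {f : E → F} {O : Set E} (hO : IsOpen O)
    (hd : DifferentiableOn ℂ f O) : DifferentiableOn ℂ (fderiv ℂ f) O := by
  have h := contDiffOn_nat hO 2 hd
  rw [show ((2 : ℕ) : WithTop ℕ∞) = 1 + 1 from rfl, contDiffOn_succ_iff_fderiv_of_isOpen hO] at h
  exact h.2.2.differentiableOn one_ne_zero

theorem continuousOn_fderiv {f : E → F} {O : Set E} (hO : IsOpen O)
    (hd : DifferentiableOn ℂ f O) : ContinuousOn (fderiv ℂ f) O :=
  (differentiableOn_fderiv hO hd).continuousOn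

end findim

/-- Identity theorem on a convex open set. -/
theorem eq_zero_of_convex [CompleteSpace F] {f : E → F} {O : Set E} (hO : IsOpen O)
    (hc : Convex ℝ O) (hd : DifferentiableOn ℂ f O) {y : E} (hy : y ∈ O) (h0 : f =ᶠ[𝓝 y] 0)
    {z : E} (hz : z ∈ O) : f z = 0 := by
  set L : ℂ → E := fun t => y + t • (z - y) with hL
  have hLd : Differentiable ℂ L := by fun_prop
  have hU : IsOpen (L ⁻¹' O) := hO.preimage hLd.continuous
  have hUc : Convex ℝ (L ⁻¹' O) := by
    intro a ha b hb s t hs ht hst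
    have h1 := hc ha hb hs ht hst
    have h2 : L (s • a + t • b) = s • L a + t • L b := by
      simp only [hL, smul_add, add_smul, smul_assoc]
      have : y = s • y + t • y := by rw [← add_smul, hst, one_smul]
      nth_rewrite 1 [this]
      abel
    rwa [mem_preimage, h2]
  have ha : AnalyticOnNhd ℂ (f ∘ L) (L ⁻¹' O) :=
    (hd.comp hLd.differentiableOn (mapsTo_preimage L O)).analyticOnNhd hU
  have hL0 : L 0 = y := by simp [hL]
  have hL1 : L 1 = z := by simp [hL]
  have h1 : (f ∘ L) =ᶠ[𝓝 0] 0 := by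
    have : Tendsto L (𝓝 0) (𝓝 y) := hL0 ▸ hLd.continuous.tendsto 0
    exact this.eventually h0
  have := ha.eqOn_zero_of_preconnected_of_eventuallyEq_zero hUc.isPreconnected
    (show (0 : ℂ) ∈ L ⁻¹' O by rwa [mem_preimage, hL0]) h1
    (show (1 : ℂ) ∈ L ⁻¹' O by rwa [mem_preimage, hL1])
  simpa [hL1] using this

/-- If a holomorphic map vanishes on open sets arbitrarily near `x`, it vanishes near `x`. -/
theorem eventually_zero_of_frequently [CompleteSpace F] {f : E → F} {x : E}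
    (hd : ∀ᶠ z in 𝓝 x, DifferentiableAt ℂ f z) (h0 : ∃ᶠ y in 𝓝 x, f =ᶠ[𝓝 y] 0) :
    f =ᶠ[𝓝 x] 0 := by
  obtain ⟨R, hR, hb⟩ := Metric.mem_nhds_iff.1 hd
  obtain ⟨y, hy, hy'⟩ := (h0.and_eventually (ball_mem_nhds x hR)).exists
  filter_upwards [ball_mem_nhds x hR] with z hz
  exact eq_zero_of_convex isOpen_ball (convex_ball x R)
    (fun w hw => DifferentiableAt.differentiableWithinAt (hb hw)) hy' hy hz

/-- Identity theorem. -/
theorem eqOn_zero_of_preconnected [CompleteSpace F] {f : E → F} {O : Set E} (hO : IsOpen O)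
    (hc : IsPreconnected O) (hd : DifferentiableOn ℂ f O) {y : E} (hy : y ∈ O)
    (h0 : f =ᶠ[𝓝 y] 0) : EqOn f 0 O := by
  have h1 : O ⊆ {x | f =ᶠ[𝓝 x] 0} := by
    refine hc.subset_of_closure_inter_subset isOpen_setOfPred_eventually_nhds ⟨y, hy, h0⟩ ?_
    rintro x ⟨hx, hxO⟩
    refine eventually_zero_of_frequently ?_ (mem_closure_iff_frequently.1 hx)
    filter_upwards [hO.mem_nhds hxO] with z hz using hd.differentiableAt (hO.mem_nhds hz)
  exact fun x hx => (h1 hx).self_of_nhds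

section ascoli

variable {Y G : Type*} [TopologicalSpace Y] [PseudoMetricSpace G]

/-- Pointwise convergence of an equicontinuous family is locally uniform. -/
theorem tendstoLocallyUniformlyOn_of_equi {ι : Type*} {l : Filter ι} [l.NeBot] {f : ι → Y → G}
    {g : Y → G} {W : Set Y}
    (he : ∀ x ∈ W, ∀ ε > 0, ∀ᶠ y in 𝓝[W] x, ∀ n, dist (f n x) (f n y) < ε)
    (hg : ∀ y ∈ W, Tendsto (fun n => f n y) l (𝓝 (g y))) : TendstoLocallyUniformlyOn f g l W := by
  rw [Metric.tendstoLocallyUniformlyOn_iff]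
  intro ε hε x hx
  have h3 : 0 < ε / 3 := by positivity
  refine ⟨_, inter_mem (he x hx _ h3) self_mem_nhdsWithin, ?_⟩
  filter_upwards [Metric.tendsto_nhds.1 (hg x hx) _ h3] with n hn y hy
  have h1 : dist (g x) (g y) ≤ ε / 3 :=
    le_of_tendsto' ((hg x hx).dist (hg y hy.2)) fun m => (hy.1 m).le
  have h2 := hy.1 n
  have h4 := dist_triangle4 (g y) (g x) (f n x) (f n y)
  rw [dist_comm (g y) (g x), dist_comm (g x) (f n x)] at h4
  linarith

/-- Arzela-Ascoli on a subset of a second countable space. -/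
theorem ascoli [SecondCountableTopology Y] [CompleteSpace G] {f : ℕ → Y → G} {W : Set Y}
    (he : ∀ x ∈ W, ∀ ε > 0, ∀ᶠ y in 𝓝[W] x, ∀ n, dist (f n x) (f n y) < ε)
    (hb : ∀ x ∈ W, ∃ K, IsCompact K ∧ ∀ n, f n x ∈ K) :
    ∃ φ : ℕ → ℕ, StrictMono φ ∧ ∃ g : Y → G,
      TendstoLocallyUniformlyOn (fun n => f (φ n)) g atTop W := by
  classical
  obtain ⟨D, hDc, hDd⟩ := TopologicalSpace.exists_countable_dense W
  choose K hK hKf using hb
  have : Countable D := hDc.to_subtype
  have hP : IsCompact (Set.pi univ fun d : D => K d.1.1 d.1.2) :=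
    isCompact_univ_pi fun d => hK _ _
  obtain ⟨a, -, φ, hφ, ha⟩ := hP.tendsto_subseq (x := fun n (d : D) => f n d.1.1)
    fun n d _ => hKf _ _ n
  have hcau : ∀ x ∈ W, CauchySeq fun n => f (φ n) x := by
    intro x hx
    rw [Metric.cauchySeq_iff]
    intro ε hε
    have h3 : 0 < ε / 3 := by positivity
    have h1 : ∀ᶠ y : W in 𝓝 (⟨x, hx⟩ : W), ∀ n, dist (f n x) (f n y.1) < ε / 3 := by
      have := he x hx _ h3
      rw [nhdsWithin_eq_map_subtype_coe hx] at this
      exact this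
    obtain ⟨y, hy, hyD⟩ := hDd.inter_nhds_nonempty h1
    have h2 : CauchySeq fun n => f (φ n) y.1 := (tendsto_pi_nhds.1 ha ⟨y, hy⟩).cauchySeq
    obtain ⟨N, hN⟩ := Metric.cauchySeq_iff.1 h2 _ h3
    refine ⟨N, fun m hm n hn => ?_⟩
    have h4 := dist_triangle4 (f (φ m) x) (f (φ m) y.1) (f (φ n) y.1) (f (φ n) x)
    have h5 := hyD (φ m)
    have h6 := hyD (φ n)
    have h7 := hN m hm n hn
    rw [dist_comm (f (φ n) y.1)] at h4
    linarith
  have hex : ∀ x, ∃ b : G, x ∈ W → Tendsto (fun n => f (φ n) x) atTop (𝓝 b) := by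
    intro x
    by_cases hx : x ∈ W
    · obtain ⟨b, hb⟩ := cauchySeq_tendsto_of_complete (hcau x hx)
      exact ⟨b, fun _ => hb⟩
    · exact ⟨f 0 x, fun h => absurd h hx⟩
  choose g hg using hex
  refine ⟨φ, hφ, g, tendstoLocallyUniformlyOn_of_equi (fun x hx ε hε => ?_) hg⟩
  filter_upwards [he x hx ε hε] with y hy n using hy (φ n)

end ascoli

/-- Locally bounded families of holomorphic maps are equicontinuous. -/
theorem equi_of_bound {ι : Type*} {f : ι → E → F} {x : E} {V : Set E} {M : ℝ} (hV : V ∈ 𝓝 x)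
    (hd : ∀ n, DifferentiableOn ℂ (f n) V) (hM : ∀ n, ∀ z ∈ V, ‖f n z‖ ≤ M) {ε : ℝ} (hε : 0 < ε) :
    ∀ᶠ y in 𝓝 x, ∀ n, dist (f n x) (f n y) < ε := by
  obtain ⟨R, hR, hRV⟩ := Metric.mem_nhds_iff.1 hV
  have h1 : Tendsto (fun y : E => 2 * M / R * ‖y - x‖) (𝓝 x) (𝓝 (2 * M / R * ‖x - x‖)) :=
    Continuous.tendsto (by fun_prop) x
  filter_upwards [ball_mem_nhds x hR, h1.eventually (gt_mem_nhds (by simpa using hε))] with y hy h n
  rw [dist_comm, dist_eq_norm]
  exact (norm_sub_le_of_bound ((hd n).mono hRV) (fun z hz => hM n z (hRV hz)) hy).trans_lt h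

/-- Montel. -/
theorem montel [FiniteDimensional ℂ E] [FiniteDimensional ℂ F] {f : ℕ → E → F} {O : Set E}
    (hO : IsOpen O) (hd : ∀ n, DifferentiableOn ℂ (f n) O)
    (hb : ∀ x ∈ O, ∃ M, ∃ V ∈ 𝓝 x, ∀ n, ∀ z ∈ V, ‖f n z‖ ≤ M) :
    ∃ φ : ℕ → ℕ, StrictMono φ ∧ ∃ g : E → F, DifferentiableOn ℂ g O ∧
      TendstoLocallyUniformlyOn (fun n => f (φ n)) g atTop O := by
  have : ProperSpace E := FiniteDimensional.proper ℂ E
  have : ProperSpace F := FiniteDimensional.proper ℂ F
  obtain ⟨φ, hφ, g, hg⟩ := ascoli (f := f) (W := O) (fun x hx ε hε => by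
    obtain ⟨M, V, hV, hM⟩ := hb x hx
    exact eventually_nhdsWithin_of_eventually_nhds (equi_of_bound
      (inter_mem hV (hO.mem_nhds hx)) (fun n => (hd n).mono inter_subset_right)
      (fun n z hz => hM n z hz.1) hε)) (fun x hx => by
    obtain ⟨M, V, hV, hM⟩ := hb x hx
    exact ⟨closedBall 0 M, isCompact_closedBall _ _, fun n =>
      mem_closedBall_zero_iff.2 (hM n x (mem_of_mem_nhds hV))⟩)
  exact ⟨φ, hφ, g, (differentiableOn_of_tendstoLocallyUniformlyOn hO
    (Eventually.of_forall fun n => hd (φ n)) hg).1, hg⟩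

end Pool.Agent.Lib.SV.H85
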