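import Pool.Agent.Lib.SV.Blue1
import Pool.Agent.Lib.SV.Hol85

/-! Complex differentiable on an open set implies smooth. -/

namespace Pool.Agent.Lib.SV

theorem stSMO : St_SMO := fun _ _ _ _ _ _ _ hU hf k => H85.contDiffOn_nat hU k hf

end Pool.Agent.Lib.SV
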