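import Mathlib

/-! Sub-mean value inequality for powers of the modulus of a holomorphic function. -/

open scoped Topology ENNReal Real
open Set Filter Metric MeasureTheory

noncomputable section

namespace Pool.Agent.Lib.SV.H85

theorem log_le_circleAverage {f : ℂ → ℂ} {c : ℂ} {R : ℝ} (hR : 0 < R)
    (hf : AnalyticOnNhd ℂ f (closedBall c R)) (h0 : f c ≠ 0) :
    Real.log ‖f c‖ ≤ Real.circleAverage (fun z => Real.log ‖f z‖) c R := by
  have hf' : AnalyticOnNhd ℂ f (closedBall c |R|) := by rwa [abs_of_pos hR]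
  rw [hf'.circleAverage_log_norm hR.ne' h0, le_add_iff_nonneg_left]
  refine finsum_nonneg fun u => ?_
  by_cases h1 : u ∈ closedBall c |R|
  · refine mul_nonneg (mod_cast MeromorphicOn.AnalyticOnNhd.divisor_nonneg hf' u) ?_
    by_cases h2 : u = c
    · simp [h2]
    · have h3 : 0 < ‖c - u‖ := norm_pos_iff.2 (sub_ne_zero.2 (Ne.symm h2))
      refine Real.log_nonneg ?_
      rw [abs_of_pos hR, mem_closedBall, dist_comm, dist_eq_norm] at h1
      rw [← div_eq_mul_inv, le_div_iff₀ h3, one_mul]
      exact h1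
  · simp [h1]

theorem rpow_le_circleAverage {f : ℂ → ℂ} {c : ℂ} {R e : ℝ} (hR : 0 < R) (he : 0 < e)
    (hf : AnalyticOnNhd ℂ f (closedBall c R)) :
    ‖f c‖ ^ e ≤ Real.circleAverage (fun z => ‖f z‖ ^ e) c R := by
  by_cases h0 : f c = 0
  · rw [h0, norm_zero, Real.zero_rpow he.ne']
    exact Real.circleAverage_nonneg_of_nonneg fun z _ => by positivity
  have hf' : AnalyticOnNhd ℂ f (closedBall c |R|) := by rwa [abs_of_pos hR]
  have hc : 0 < ‖f c‖ := norm_pos_iff.2 h0
  set a := ‖f c‖ ^ e with ha
  have ha0 : 0 < a := Real.rpow_pos_of_pos hc e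
  set L := Real.log ‖f c‖ with hL
  have hlog : CircleIntegrable (fun z => Real.log ‖f z‖) c R :=
    (hf'.mono sphere_subset_closedBall).meromorphicOn.circleIntegrable_log_norm
  have hpow : CircleIntegrable (fun z => ‖f z‖ ^ e) c R := by
    refine ContinuousOn.circleIntegrable hR.le ?_
    exact (hf.continuousOn.mono sphere_subset_closedBall).norm.rpow_const fun _ _ => Or.inr he.le
  set g : ℂ → ℝ := fun z => a * (1 - e * L) + (a * e) • Real.log ‖f z‖ with hg
  have hgi : CircleIntegrable g c R :=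
    (circleIntegrable_const _ c R).add (hlog.const_fun_smul)
  have hga : a ≤ Real.circleAverage g c R := by
    rw [hg, Real.circleAverage_fun_add (circleIntegrable_const _ c R) hlog.const_fun_smul,
      Real.circleAverage_const, Real.circleAverage_fun_smul, smul_eq_mul]
    have h1 := log_le_circleAverage hR hf h0
    have h2 := mul_le_mul_of_nonneg_left h1 (mul_pos ha0 he).le
    nlinarith
  classical
  set g' : ℂ → ℝ := fun z => if f z = 0 then g z else ‖f z‖ ^ e with hg'
  have hne : f ⁻¹' {0}ᶜ ∈ codiscreteWithin (sphere c |R|) :=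
    codiscreteWithin_mono sphere_subset_closedBall (hf'.preimage_zero_mem_codiscreteWithin h0
      (mem_closedBall_self (abs_nonneg R)) ((convex_closedBall c |R|).isConnected
        ⟨c, mem_closedBall_self (abs_nonneg R)⟩))
  have heq : (fun z => ‖f z‖ ^ e) =ᶠ[codiscreteWithin (sphere c |R|)] g' := by
    filter_upwards [hne] with z hz
    have : f z ≠ 0 := hz
    simp [hg', this]
  rw [Real.circleAverage_congr_codiscreteWithin heq hR.ne']
  refine hga.trans (Real.circleAverage_mono hgi (hpow.congr_codiscreteWithin heq) fun z _ => ?_)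
  by_cases hz : f z = 0
  · simp [hg', hz]
  · have h1 : 0 < ‖f z‖ := norm_pos_iff.2 hz
    have h2 : ‖f z‖ ^ e = a * Real.exp (e * (Real.log ‖f z‖ - L)) := by
      rw [ha, Real.rpow_def_of_pos h1, Real.rpow_def_of_pos hc, ← Real.exp_add, ← hL]
      congr 1
      ring
    have h3 := Real.add_one_le_exp (e * (Real.log ‖f z‖ - L))
    simp only [hg', hg, if_neg hz, smul_eq_mul, h2]
    nlinarith [mul_le_mul_of_nonneg_left h3 ha0.le]

theorem rpow_le_lintegral_circle {f : ℂ → ℂ} {c : ℂ} {R e : ℝ} (hR : 0 < R) (he : 0 < e)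
    (hf : AnalyticOnNhd ℂ f (closedBall c R)) :
    ENNReal.ofReal (‖f c‖ ^ e) * ENNReal.ofReal (2 * π) ≤
      ∫⁻ θ in Ioc 0 (2 * π), ENNReal.ofReal (‖f (circleMap c R θ)‖ ^ e) := by
  have h1 := rpow_le_circleAverage hR he hf
  have hpow : CircleIntegrable (fun z => ‖f z‖ ^ e) c R := by
    refine ContinuousOn.circleIntegrable hR.le ?_
    exact (hf.continuousOn.mono sphere_subset_closedBall).norm.rpow_const fun _ _ => Or.inr he.le
  rw [Real.circleAverage_def, intervalIntegral.integral_of_le Real.two_pi_pos.le, smul_eq_mul,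
    le_inv_mul_iff₀ Real.two_pi_pos] at h1
  rw [← ofReal_integral_eq_lintegral_ofReal hpow.1 (ae_of_all _ fun θ => by positivity),
    ← ENNReal.ofReal_mul (by positivity), mul_comm]
  exact ENNReal.ofReal_le_ofReal h1

variable {E : Type*} [NormedAddCommGroup E] [NormedSpace ℂ E] [FiniteDimensional ℂ E]
  [MeasurableSpace E] [BorelSpace E] (μ : Measure E) [μ.IsAddHaarMeasure]

/-- Haar measure is invariant under unit scalars. -/
theorem measurePreserving_smul {u : ℂ} (hu : ‖u‖ = 1) :
    MeasurePreserving (fun x : E => u • x) μ μ := by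
  have : ProperSpace E := FiniteDimensional.proper ℂ E
  have hu0 : u ≠ 0 := by
    rintro rfl
    simp at hu
  have hm : Measurable fun x : E => u • x := (continuous_const_smul u).measurable
  have : (μ.map fun x : E => u • x).IsAddHaarMeasure :=
    (DistribMulAction.toAddEquiv₀ E u hu0).isAddHaarMeasure_map μ (continuous_const_smul u)
      (continuous_const_smul u⁻¹)
  have h1 := Measure.isAddLeftInvariant_eq_smul (μ.map fun x : E => u • x) μ
  set c := Measure.addHaarScalarFactor (μ.map fun x : E => u • x) μ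
  have h2 : (μ.map fun x : E => u • x) (ball 0 1) = μ (ball 0 1) := by
    rw [Measure.map_apply hm measurableSet_ball]
    congr 1
    ext x
    simp [norm_smul, hu]
  have h3 : μ (ball 0 1) ≠ 0 := (measure_ball_pos μ 0 one_pos).ne'
  have h4 : μ (ball 0 1) ≠ ∞ := measure_ball_lt_top.ne
  have h5 : (c : ℝ≥0∞) = 1 := by
    rw [h1, Measure.smul_apply, ENNReal.smul_def, smul_eq_mul] at h2
    exact (ENNReal.mul_eq_right h3 h4).1 h2
  refine ⟨hm, ?_⟩
  rw [h1, ENNReal.coe_eq_one.1 h5, one_smul]

theorem measurePreserving_rot {u : ℂ} (hu : ‖u‖ = 1) (z : E) :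
    MeasurePreserving (fun x : E => z + u • (x - z)) μ μ := by
  have : ProperSpace E := FiniteDimensional.proper ℂ E
  exact (measurePreserving_add_left μ z).comp
    ((measurePreserving_smul μ hu).comp (measurePreserving_sub_right μ z))

/-- Sub-mean value inequality. -/
theorem sub_mean {f : E → ℂ} {z : E} {r e : ℝ} (he : 0 < e)
    (hf : DifferentiableOn ℂ f (ball z r)) :
    ENNReal.ofReal (‖f z‖ ^ e) * μ (ball z r) ≤
      ∫⁻ w in ball z r, ENNReal.ofReal (‖f w‖ ^ e) ∂μ := by
  classical
  have : ProperSpace E := FiniteDimensional.proper ℂ E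
  set G : E → ℝ≥0∞ := (ball z r).indicator fun w => ENNReal.ofReal (‖f w‖ ^ e) with hG
  have hGm : Measurable G := by
    rw [hG, ← Set.piecewise_eq_indicator]
    refine ContinuousOn.measurable_piecewise ?_ continuousOn_const measurableSet_ball
    exact ENNReal.continuous_ofReal.comp_continuousOn
      (hf.continuousOn.norm.rpow_const fun _ _ => Or.inr he.le)
  set T : E → ℝ → E := fun x θ => z + circleMap 0 1 θ • (x - z) with hT
  have hTm : Measurable (Function.uncurry fun x θ => G (T x θ)) := by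
    refine hGm.comp (Continuous.measurable ?_)
    simp only [hT]
    have : Continuous fun p : E × ℝ => circleMap 0 1 p.2 :=
      (continuous_circleMap 0 1).comp continuous_snd
    fun_prop
  have h1 : ∀ x ∈ ball z r, ENNReal.ofReal (‖f z‖ ^ e) * ENNReal.ofReal (2 * π) ≤
      ∫⁻ θ in Ioc 0 (2 * π), G (T x θ) := by
    intro x hx
    set L : ℂ → E := fun t => z + t • (x - z) with hL
    have hLd : Differentiable ℂ L := by fun_prop
    have hmem : ∀ t ∈ closedBall (0 : ℂ) 1, L t ∈ ball z r := by
      intro t ht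
      rw [mem_closedBall_zero_iff] at ht
      rw [mem_ball, dist_eq_norm] at hx ⊢
      simp only [hL, add_sub_cancel_left, norm_smul]
      exact (mul_le_of_le_one_left (norm_nonneg _) ht).trans_lt hx
    have ha : AnalyticOnNhd ℂ (f ∘ L) (closedBall 0 1) :=
      ((hf.comp hLd.differentiableOn (mapsTo_preimage L _)).analyticOnNhd
        (isOpen_ball.preimage hLd.continuous)).mono hmem
    have h2 := rpow_le_lintegral_circle one_pos he ha
    have h3 : (f ∘ L) 0 = f z := by simp [hL]
    rw [h3] at h2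
    refine h2.trans_eq (lintegral_congr fun θ => ?_)
    have h4 : T x θ ∈ ball z r := hmem _ (circleMap_mem_closedBall 0 zero_le_one θ)
    rw [hG, indicator_of_mem h4]
    rfl
  have h2 : ENNReal.ofReal (‖f z‖ ^ e) * μ (ball z r) * ENNReal.ofReal (2 * π) ≤
      (∫⁻ w, G w ∂μ) * ENNReal.ofReal (2 * π) := by
    calc ENNReal.ofReal (‖f z‖ ^ e) * μ (ball z r) * ENNReal.ofReal (2 * π)
        = ∫⁻ _ in ball z r, ENNReal.ofReal (‖f z‖ ^ e) * ENNReal.ofReal (2 * π) ∂μ := by
          rw [setLIntegral_const]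
          ring
      _ ≤ ∫⁻ x in ball z r, (∫⁻ θ in Ioc 0 (2 * π), G (T x θ)) ∂μ :=
          setLIntegral_mono' measurableSet_ball h1
      _ ≤ ∫⁻ x, (∫⁻ θ in Ioc 0 (2 * π), G (T x θ)) ∂μ := setLIntegral_le_lintegral _ _
      _ = ∫⁻ θ in Ioc 0 (2 * π), ∫⁻ x, G (T x θ) ∂μ := lintegral_lintegral_swap hTm.aemeasurable
      _ = ∫⁻ _ in Ioc 0 (2 * π), ∫⁻ x, G x ∂μ := by
          refine lintegral_congr fun θ => ?_
          exact (measurePreserving_rot μ (by simp) z).lintegral_comp hGm
      _ = (∫⁻ w, G w ∂μ) * ENNReal.ofReal (2 * π) := by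
          rw [setLIntegral_const, Real.volume_Ioc, sub_zero]
  rw [hG, lintegral_indicator measurableSet_ball] at h2
  exact (ENNReal.mul_le_mul_iff_left (by simpa using Real.pi_pos) ENNReal.ofReal_ne_top).1 h2

end Pool.Agent.Lib.SV.H85
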