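import Pool.Agent.Lib.SV.Blue1
import Pool.Agent.Lib.SV.Sub85

/-! Row SUB. -/

namespace Pool.Agent.Lib.SV

theorem stSUB : St_SUB := fun _ _ _ _ _ _ μ _ _ _ _ _ _ he hf => H85.sub_mean μ he hf

end Pool.Agent.Lib.SV
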