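import Pool.Agent.Lib.SV.Blue1
import Pool.Agent.Lib.SV.Hol85

/-! The lemma of Weyl on a Riemann domain. -/

open scoped Classical Topology ENNReal ContDiff Convolution
open Set MeasureTheory Complex Filter Metric

set_option linter.unusedVariables false

noncomputable section

namespace Pool.Agent.Lib.SV

namespace WEYL

variable {n : ℕ}

/-- A real-linear map that satisfies the Cauchy-Riemann equations is complex linear. -/
theorem clin (L : E n →L[ℝ] ℂ) (h : ∀ j, L (Pi.single j 1) + I * L (Pi.single j I) = 0) :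
    ∃ L' : E n →L[ℂ] ℂ, L'.restrictScalars ℝ = L := by
  refine ⟨∑ j, (L (Pi.single j 1)) • ContinuousLinearMap.proj (R := ℂ) (φ := fun _ : Fin n => ℂ) j, ?_⟩
  ext v
  have hI : ∀ j, L (Pi.single j I) = I * L (Pi.single j 1) := fun j => by
    have := h j
    linear_combination (-I) * this + L (Pi.single j I) * I_mul_I
  have hv : v = ∑ j, ((v j).re • (Pi.single j 1 : E n) + (v j).im • (Pi.single j I : E n)) := by
    ext k
    simp only [Finset.sum_apply, Pi.add_apply, Pi.smul_apply, Pi.single_apply]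
    rw [Finset.sum_eq_single k]
    · simp
    · intro b _ hb
      simp [hb.symm]
    · simp
  conv_rhs => rw [hv]
  simp only [ContinuousLinearMap.coe_restrictScalars', sum_apply,
    smul_apply, ContinuousLinearMap.proj_apply, map_sum, map_add, map_smul, hI,
    smul_eq_mul, real_smul]
  refine Finset.sum_congr rfl fun j _ => ?_
  conv_lhs => rw [← re_add_im (v j)]
  ring

/-- Convolution of a complex function with a real kernel. -/
def cv (F : E n → ℂ) (g : E n → ℝ) : E n → ℂ :=
  F ⋆[(ContinuousLinearMap.lsmul ℝ ℝ).flip, volume] g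

theorem cv_eq (F : E n → ℂ) (g : E n → ℝ) (x : E n) : cv F g x = ∫ t, g (x - t) • F t := rfl

theorem cv_eq' (F : E n → ℂ) (g : E n → ℝ) (x : E n) : cv F g x = ∫ t, g t • F (x - t) := by
  rw [cv, convolution_eq_swap]; rfl

theorem cv_cont {F : E n → ℂ} {g : E n → ℝ} (hF : Integrable F) (hg : ContDiff ℝ ∞ g)
    (hc : HasCompactSupport g) : Continuous (cv F g) :=
  (hc.contDiff_convolution_right _ hF.locallyIntegrable hg).continuous

theorem cv_diff {F : E n → ℂ} {g : E n → ℝ} (hF : Integrable F) (hg : ContDiff ℝ ∞ g)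
    (hc : HasCompactSupport g) (x : E n)
    (h : ∀ j, ∫ t, F t * ((fderiv ℝ (fun t => g (x - t)) t (Pi.single j 1) : ℝ) +
      I * (fderiv ℝ (fun t => g (x - t)) t (Pi.single j I) : ℝ)) = 0) :
    DifferentiableAt ℂ (cv F g) x := by
  have hg1 : ContDiff ℝ 1 g := hg.of_le (by simp)
  have hD := hc.hasFDerivAt_convolution_right (ContinuousLinearMap.lsmul ℝ ℝ (E := ℂ)).flip
    hF.locallyIntegrable hg1 x
  have hap : ∀ v, (F ⋆[ContinuousLinearMap.precompR (E n)
      (ContinuousLinearMap.lsmul ℝ ℝ (E := ℂ)).flip, volume] fderiv ℝ g) x v =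
      ∫ t, fderiv ℝ g (x - t) v • F t := fun v => by
    rw [convolution_precompR_apply _ hF.locallyIntegrable (hc.fderiv ℝ)
      (hg1.continuous_fderiv one_ne_zero)]
    rfl
  have hint : ∀ v, Integrable fun t => fderiv ℝ g (x - t) v • F t := fun v => by
    have hcv : Continuous fun a => fderiv ℝ g a v :=
      (hg1.continuous_fderiv one_ne_zero).clm_apply continuous_const
    have hsv : HasCompactSupport fun a => fderiv ℝ g a v := hc.fderiv_apply ℝ v
    exact hsv.convolutionExists_right (ContinuousLinearMap.lsmul ℝ ℝ (E := ℂ)).flip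
      hF.locallyIntegrable hcv x
  have hneg : ∀ t v, fderiv ℝ (fun t => g (x - t)) t v = -fderiv ℝ g (x - t) v := fun t v => by
    have h1 : HasFDerivAt (fun t : E n => x - t) (-ContinuousLinearMap.id ℝ (E n)) t :=
      (hasFDerivAt_id t).const_sub x
    have h2 := ((hg1.differentiable one_ne_zero) (x - t)).hasFDerivAt.comp t h1
    have h3 : fderiv ℝ (fun t => g (x - t)) t = _ := h2.fderiv
    rw [h3]
    simp
  obtain ⟨L', hL'⟩ := clin ((F ⋆[ContinuousLinearMap.precompR (E n)
      (ContinuousLinearMap.lsmul ℝ ℝ (E := ℂ)).flip, volume] fderiv ℝ g) x) (fun j => by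
    rw [hap, hap, ← integral_const_mul, ← integral_add (hint _) ((hint _).const_mul _)]
    have := h j
    rw [← neg_eq_zero, ← integral_neg] at this
    rw [← this]
    refine integral_congr_ae (Eventually.of_forall fun t => ?_)
    simp only [hneg, real_smul, ofReal_neg]
    ring)
  exact (hasFDerivAt_of_restrictScalars ℝ hD hL').differentiableAt

theorem cv_l1 {F : E n → ℂ} {g : E n → ℝ} (hF : Integrable F) (hg : Integrable g)
    (h0 : ∀ t, 0 ≤ g t) (h1 : ∫ t, g t = 1) :
    ∫⁻ x, ENNReal.ofReal ‖cv F g x‖ ≤ ENNReal.ofReal (∫ t, ‖F t‖) := by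
  have hi := hg.integrable_convolution (ContinuousLinearMap.lsmul ℝ ℝ (E := ℝ)) hF.norm
  have he := integral_convolution (ContinuousLinearMap.lsmul ℝ ℝ (E := ℝ)) hg hF.norm
  rw [h1, ContinuousLinearMap.lsmul_apply, one_smul] at he
  have hle : ∀ x, ‖cv F g x‖ ≤
      (g ⋆[ContinuousLinearMap.lsmul ℝ ℝ (E := ℝ), volume] fun t => ‖F t‖) x := fun x => by
    rw [cv_eq', convolution_def]
    refine (norm_integral_le_integral_norm _).trans_eq (integral_congr_ae (.of_forall fun t => ?_))
    simp only [norm_smul, Real.norm_of_nonneg (h0 t), ContinuousLinearMap.lsmul_apply, smul_eq_mul]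
  rw [← he, ofReal_integral_eq_lintegral_ofReal hi
    (.of_forall fun x => (norm_nonneg _).trans (hle x))]
  exact lintegral_mono fun x => ENNReal.ofReal_le_ofReal (hle x)

/-- A sequence of bump functions with shrinking supports. -/
def bump (r : ℝ) (hr : 0 < r) (k : ℕ) : ContDiffBump (0 : E n) where
  rIn := r / (k + 1) / 2
  rOut := r / (k + 1)
  rIn_pos := by positivity
  rIn_lt_rOut := half_lt_self (by positivity)

/-- The lemma of Weyl on a ball. -/
theorem euclid (hSUB : St_SUB) {F : E n → ℂ} (hF : Integrable F) (c : E n) {r : ℝ} (hr : 0 < r)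
    (h : ∀ (g : E n → ℝ) (K : Set (E n)), ContDiff ℝ 2 g → IsCompact K → K ⊆ ball c (4 * r) →
      (∀ t ∉ K, g t = 0) → ∀ j, ∫ t, F t * ((fderiv ℝ g t (Pi.single j 1) : ℝ) +
        I * (fderiv ℝ g t (Pi.single j I) : ℝ)) = 0) :
    ∃ H : E n → ℂ, DifferentiableOn ℂ H (ball c r) ∧ ∀ᵐ x, x ∈ ball c r → H x = F x := by
  set g : ℕ → E n → ℝ := fun k => (bump r hr k).normed volume with hg
  have hro : ∀ k : ℕ, r / (k + 1) ≤ r := fun k =>
    div_le_self hr.le (le_add_of_nonneg_left (Nat.cast_nonneg k))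
  have hd : ∀ k, DifferentiableOn ℂ (cv F (g k)) (ball c (2 * r)) := fun k x hx => by
    refine (cv_diff hF (bump r hr k).contDiff_normed (bump r hr k).hasCompactSupport_normed x
      (h _ (closedBall x r) ?_ (isCompact_closedBall x r) ?_ ?_)).differentiableWithinAt
    · exact ((bump r hr k).contDiff_normed (n := 2)).comp (contDiff_const.sub contDiff_id)
    · intro t ht
      rw [mem_closedBall] at ht
      rw [mem_ball] at hx ⊢
      linarith [dist_triangle t x c]
    · intro t ht
      by_contra h0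
      have h1 : x - t ∈ Function.support ((bump r hr k).normed volume) := h0
      rw [ContDiffBump.support_normed_eq, mem_ball_zero_iff, ← dist_eq_norm, dist_comm] at h1
      exact ht (mem_closedBall.2 (h1.le.trans (hro k)))
  have hb0 : volume (ball (0 : E n) r) ≠ 0 := (measure_ball_pos _ _ hr).ne'
  have hb1 : volume (ball (0 : E n) r) ≠ ⊤ := measure_ball_lt_top.ne
  have hb : ∀ k, ∀ z ∈ ball c r, ‖cv F (g k) z‖ ≤
      (∫ t, ‖F t‖) / (volume (ball (0 : E n) r)).toReal := fun k z hz => by
    have h1 := hSUB (E n) volume (cv F (g k)) z r 1 hr one_pos ((hd k).mono fun w hw => by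
      rw [mem_ball] at hz hw ⊢
      linarith [dist_triangle w z c])
    simp only [Real.rpow_one] at h1
    rw [Measure.addHaar_ball_center] at h1
    have h2 := (h1.trans (setLIntegral_le_lintegral _ _)).trans
      (cv_l1 hF (bump r hr k).integrable_normed (bump r hr k).nonneg_normed
        (bump r hr k).integral_normed)
    have h3 := ENNReal.toReal_mono ENNReal.ofReal_ne_top h2
    rw [ENNReal.toReal_mul, ENNReal.toReal_ofReal (norm_nonneg _),
      ENNReal.toReal_ofReal (integral_nonneg fun _ => norm_nonneg _)] at h3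
    exact (le_div_iff₀ (ENNReal.toReal_pos hb0 hb1)).2 h3
  obtain ⟨s, hs, H, hH, hl⟩ := H85.montel (f := fun k => cv F (g k)) (O := ball c r) isOpen_ball
    (fun k => (hd k).mono (ball_subset_ball (by linarith)))
    (fun x hx => ⟨_, ball c r, isOpen_ball.mem_nhds hx, hb⟩)
  refine ⟨H, hH, ?_⟩
  have hae := ContDiffBump.ae_convolution_tendsto_right_of_locallyIntegrable (μ := volume)
    (φ := bump (n := n) r hr) (l := atTop) (K := 2) (g := F)
    (by
      have := (tendsto_one_div_add_atTop_nhds_zero_nat (𝕜 := ℝ)).const_mul r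
      simpa [bump, div_eq_mul_inv] using this)
    (.of_forall fun k => by simp only [bump]; linarith) hF.locallyIntegrable
  filter_upwards [hae] with x hx hm
  have h1 : Tendsto (fun k => cv F (g (s k)) x) atTop (𝓝 (F x)) := by
    refine (hx.comp hs.tendsto_atTop).congr fun k => ?_
    rw [cv_eq']
    rfl
  exact tendsto_nhds_unique (hl.tendsto_at hm) h1

/-- A test function in a chart gives a test function on the domain. -/
theorem tst (D : Dom n) {e : OpenPartialHomeomorph D.Y (E n)} (he : Cht D.p D.W e)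
    {g : E n → ℝ} {K : Set (E n)} (hg : ContDiff ℝ 2 g) (hK : IsCompact K) (hKs : K ⊆ e.target)
    (h0 : ∀ t ∉ K, g t = 0) : ∃ ψ : D.Y → ℂ, Tst D.p D.W 2 ψ ∧
      (∀ y ∈ D.W, y ∉ e.source → dd D.p ψ y = 0) ∧
      ∀ z ∈ e.target, ∀ v, dd D.p ψ (e.symm z) v = (fderiv ℝ g z v : ℝ) := by
  set ψ : D.Y → ℂ := e.source.indicator fun y => (g (D.p y) : ℂ) with hψ
  have hK' : IsCompact (e.symm '' K) := hK.image_of_continuousOn (e.continuousOn_symm.mono hKs)
  have hs : e.symm '' K ⊆ e.source := by
    rintro _ ⟨z, hz, rfl⟩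
    exact e.map_target (hKs hz)
  have hz : ∀ y ∉ e.symm '' K, ψ y = 0 := fun y hy => by
    by_cases h : y ∈ e.source
    · rw [hψ, indicator_of_mem h, h0 _ fun hp => hy ⟨_, hp, he.symm_p h⟩, ofReal_zero]
    · exact indicator_of_notMem h _
  have hout : ∀ y ∉ e.source, ψ =ᶠ[𝓝 y] fun _ => 0 := fun y hy => by
    filter_upwards [hK'.isClosed.isOpen_compl.mem_nhds fun h => hy (hs h)] with x hx using hz x hx
  have hin : ∀ z ∈ e.target, ψ ∘ e.symm =ᶠ[𝓝 z] ofRealCLM ∘ g := fun z hz => by
    filter_upwards [e.open_target.mem_nhds hz] with w hw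
    rw [Function.comp_apply, hψ, indicator_of_mem (e.map_target hw), he.p_symm hw]
    rfl
  refine ⟨ψ, ⟨fun y hy => ?_, _, hK', hs.trans he.sub, hz⟩, fun y hy h => ?_, fun z hz v => ?_⟩
  · by_cases h : y ∈ e.source
    · rw [he.sm_iff h]
      exact (ofRealCLM.contDiff.comp hg).contDiffAt.congr_of_eventuallyEq
        (hin _ (he.mem_target h))
    · exact (sm_const 0).congr (D.rd.locH hy) (hout y h)
  · rw [dd_congr (D.rd.locH hy) (hout y h)]
    exact fderiv_const_apply 0
  · rw [he.dd_eq (e.map_target hz), he.p_symm hz, (hin z hz).fderiv_eq,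
      (ofRealCLM.hasFDerivAt.comp z (hg.differentiable (by simp) z).hasFDerivAt).fderiv]
    rfl

/-- The local form of the lemma. -/
theorem loc (hRM : St_RM) (hSUB : St_SUB) (D : Dom n) {f : D.Y → ℂ}
    (hf : LocallyIntegrableOn f D.W D.μ)
    (h : ∀ ψ : D.Y → ℂ, Tst D.p D.W 2 ψ → ∀ j, ∫ y, f y * dzb D.p j ψ y ∂D.μ = 0)
    {y : D.Y} (hy : y ∈ D.W) : ∃ (V : Set D.Y) (H : D.Y → ℂ), IsOpen V ∧ y ∈ V ∧ V ⊆ D.W ∧
      (∀ x ∈ V, Hol D.p H x) ∧ D.μ {x | x ∈ V ∧ H x ≠ f x} = 0 := by
  obtain ⟨hrm, hmap, -, hint, -⟩ := hRM n D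
  obtain ⟨s, hs, hfs⟩ := hf y hy
  rw [D.rd.opn.nhdsWithin_eq hy] at hs
  obtain ⟨e, R, hR, he, hye, hes, het⟩ := D.rd.exists_ball hy hs
  have hmt : MeasurableSet e.target := e.open_target.measurableSet
  have h1 : IntegrableOn (f ∘ e.symm) e.target := by
    have h2 : Integrable f (D.μ.restrict e.source) := hfs.mono_set hes
    rw [hmap e he] at h2
    exact h2.comp_aemeasurable (e.continuousOn_symm.aemeasurable hmt)
  have hR4 : 4 * (R / 4) = R := by ring
  obtain ⟨H, hH, hae⟩ := euclid hSUB (h1.integrable_indicator hmt) (D.p y) (r := R / 4)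
    (by positivity) (fun g K hg hK hKs h0 j => by
      rw [hR4, ← het] at hKs
      obtain ⟨ψ, hψ, ho, hi⟩ := tst D he hg hK hKs h0
      have h2 := h ψ hψ j
      rw [← setIntegral_eq_integral_of_ae_compl_eq_zero (s := e.source), hint e he] at h2
      · have h3 := congrArg (fun a => 2 * a) h2
        simp only [mul_zero] at h3
        rw [← h3, ← integral_const_mul, ← integral_indicator hmt]
        refine integral_congr_ae (.of_forall fun z => ?_)
        by_cases hz : z ∈ e.target
        · simp only [indicator_of_mem hz, dzb, hi z hz, Function.comp_apply]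
          ring
        · simp only [indicator_of_notMem hz, zero_mul]
      · have h3 : ∀ᵐ x ∂D.μ, x ∈ D.W := hrm.off
        filter_upwards [h3] with x hx hx'
        simp [dzb, ho x hx hx'])
  have hsub : ball (D.p y) (R / 4) ⊆ e.target := by
    rw [het]
    exact ball_subset_ball (by linarith)
  refine ⟨e.source ∩ e ⁻¹' ball (D.p y) (R / 4), fun x => H (D.p x),
    e.isOpen_inter_preimage isOpen_ball, ⟨hye, ?_⟩, inter_subset_left.trans he.sub, ?_, ?_⟩
  · rw [mem_preimage, ← he.eq hye]
    exact mem_ball_self (by positivity)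
  · rintro x ⟨hx, hx'⟩
    rw [mem_preimage, ← he.eq hx] at hx'
    rw [he.hol_iff hx]
    refine (hH.differentiableAt (isOpen_ball.mem_nhds hx')).congr_of_eventuallyEq ?_
    filter_upwards [e.open_target.mem_nhds (he.mem_target hx)] with w hw
    rw [Function.comp_apply, he.p_symm hw]
  · obtain ⟨N, hN, hNm, hN0⟩ := exists_measurable_superset_of_null (ae_iff.1 hae)
    have hm : MeasurableSet (e.symm '' (N ∩ e.target)) :=
      (hNm.inter hmt).image_of_continuousOn_injOn (e.continuousOn_symm.mono inter_subset_right)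
        (e.symm.injOn.mono inter_subset_right)
    have hss : e.symm '' (N ∩ e.target) ⊆ e.source := by
      rintro _ ⟨z, hz, rfl⟩
      exact e.map_target hz.2
    have h0 : D.μ (e.symm '' (N ∩ e.target)) = 0 := by
      rw [hrm.inj _ hm (hss.trans he.sub) ((e.injOn.congr he.eq.symm).mono hss)]
      refine measure_mono_null ?_ hN0
      rintro _ ⟨_, ⟨z, hz, rfl⟩, rfl⟩
      rw [he.p_symm hz.2]
      exact hz.1
    refine measure_mono_null ?_ h0
    rintro x ⟨⟨hx, hx'⟩, hne⟩
    rw [mem_preimage, ← he.eq hx] at hx'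
    refine ⟨D.p x, ⟨hN fun hc => hne ?_, he.mem_target hx⟩, he.symm_p hx⟩
    show H (D.p x) = f x
    rw [hc hx', indicator_of_mem (he.mem_target hx), Function.comp_apply, he.symm_p hx]

end WEYL

theorem stWEYL (hRM : St_RM) (hSUB : St_SUB) (hWEI : St_WEI) (hCUT : St_CUT) (hIBP : St_IBP)
    (hMON : St_MON) : St_WEYL := by
  intro n D f hf h
  choose! V H hVo hyV hVW hH hae using fun y (hy : y ∈ D.W) => WEYL.loc hRM hSUB D hf h hy
  obtain ⟨hrm, -, -, -, -, -, -, hpos, -⟩ := hRM n D
  have hc : ∀ y ∈ D.W, ContinuousOn (H y) (V y) := fun y hy x hx =>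
    ((hH y hy x hx).continuousAt (D.rd.locH (hVW y hy hx))).continuousWithinAt
  have key : ∀ y ∈ D.W, ∀ x ∈ V y, H x x = H y x := fun y hy x hx => by
    have hx' := hVW y hy hx
    have ho : IsOpen ((V x ∩ V y) ∩ (fun z => H x z - H y z) ⁻¹' {0}ᶜ) :=
      (((hc x hx').mono inter_subset_left).sub
        ((hc y hy).mono inter_subset_right)).isOpen_inter_preimage
        ((hVo x hx').inter (hVo y hy)) isOpen_compl_singleton
    have h0 := hpos _ ho (fun z hz => hVW y hy hz.1.2) (measure_mono_null (fun z hz => by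
      by_contra hn
      simp only [mem_union, mem_ofPred_eq, not_or, not_and, not_not] at hn
      exact hz.2 (sub_eq_zero.2 ((hn.1 hz.1.1).trans (hn.2 hz.1.2).symm)))
      (measure_union_null (hae x hx') (hae y hy)))
    by_contra hn
    exact (eq_empty_iff_forall_notMem.1 h0 x) ⟨⟨hyV x hx', hx⟩, sub_ne_zero.2 hn⟩
  refine ⟨fun y => H y y, fun y hy => ?_, ?_⟩
  · refine (hH y hy y (hyV y hy)).congr (D.rd.locH hy) ?_
    filter_upwards [(hVo y hy).mem_nhds (hyV y hy)] with x hx using key y hy x hx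
  · have h1 : D.μ {y | y ∈ D.W ∧ H y y ≠ f y} = 0 := by
      refine measure_null_of_locally_null _ fun y hy => ⟨_, inter_mem_nhdsWithin _
        ((hVo y hy.1).mem_nhds (hyV y hy.1)), measure_mono_null (fun x hx => ?_) (hae y hy.1)⟩
      exact ⟨hx.2, by rw [← key y hy.1 x hx.2]; exact hx.1.2⟩
    refine measure_mono_null (fun y hy => ?_) (measure_union_null h1 hrm.off)
    by_cases hw : y ∈ D.W
    · exact Or.inl ⟨hw, hy⟩
    · exact Or.inr hw

end Pool.Agent.Lib.SV
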