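import Pool.Agent.Lib.SV.Blue2

/-! Sections with a zero of high order and no common zero where the cut-off varies. -/

open scoped Classical Topology ENNReal
open Set MeasureTheory Complex Filter Metric

set_option linter.unusedVariables false

noncomputable section

namespace Pool.Agent.Lib.SV

namespace ZBD

theorem le_nsq {n : ℕ} (v : E n) : ‖v‖ ^ 2 ≤ nsq v := by
  have h : ‖v‖ ≤ √(nsq v) := by
    refine (pi_norm_le_iff_of_nonneg (Real.sqrt_nonneg _)).2 fun j => Real.le_sqrt_of_sq_le ?_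
    rw [← normSq_eq_norm_sq]
    exact Finset.single_le_sum (f := fun j => normSq (v j)) (fun _ _ => normSq_nonneg _)
      (Finset.mem_univ j)
  calc ‖v‖ ^ 2 ≤ √(nsq v) ^ 2 := pow_le_pow_left₀ (norm_nonneg _) h 2
    _ = nsq v := Real.sq_sqrt (nsq_nonneg v)

/-- In a finite dimensional space of functions that tend to zero, bounded sets tend to zero
uniformly. -/
theorem unif {Z : Type} (R : Submodule ℂ (Z → ℂ)) [FiniteDimensional ℂ R] (l : Filter Z)
    (h0 : ∀ f ∈ R, Tendsto f l (𝓝 0)) (M : ℝ) {ε : ℝ} (hε : 0 < ε) :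
    ∀ᶠ y in l, ∀ f ∈ R, (∀ w, ‖f w‖ ≤ M) → ‖f y‖ < ε := by
  let b := Module.finBasis ℂ R
  have hc : IsCompact ((↑) ⁻¹' (univ.pi fun _ : Z => closedBall (0 : ℂ) M) : Set R) :=
    (R.closed_of_finiteDimensional.isClosedEmbedding_subtypeVal).isCompact_preimage
      (isCompact_univ_pi fun _ => isCompact_closedBall _ _)
  have hb : ∀ i, ∃ A : ℝ, ∀ f ∈ ((↑) ⁻¹' (univ.pi fun _ : Z => closedBall (0 : ℂ) M) : Set R),
      ‖b.coord i f‖ ≤ A := fun i =>
    hc.exists_bound_of_continuousOn (b.coord i).continuous_of_finiteDimensional.continuousOn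
  choose A hA using hb
  have ht : Tendsto (fun y => ∑ i, A i * ‖(b i : Z → ℂ) y‖) l (𝓝 0) := by
    have := tendsto_finsetSum (Finset.univ) fun i _ =>
      ((h0 _ (b i).2).norm.const_mul (A i))
    simpa using this
  filter_upwards [ht.eventually (gt_mem_nhds hε)] with y hy f hf hM
  refine lt_of_le_of_lt ?_ hy
  have e : f y = ∑ i, b.coord i ⟨f, hf⟩ * (b i : Z → ℂ) y := by
    have := congrFun (congrArg Subtype.val (b.sum_repr ⟨f, hf⟩)) y
    rw [Submodule.coe_sum, Finset.sum_apply] at this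
    exact this.symm
  rw [e]
  refine (norm_sum_le _ _).trans (Finset.sum_le_sum fun i _ => ?_)
  rw [norm_mul]
  exact mul_le_mul_of_nonneg_right (hA i _ fun w _ => by simpa using hM w) (norm_nonneg _)

theorem cover {S Y : Type} [TopologicalSpace Y] (f : S → Y → ℝ) (hf : ∀ s, Continuous (f s))
    {A : Set Y} (hA : IsCompact A) (h : ∀ y ∈ A, ∃ s, 0 < f s y) :
    ∃ (r : ℕ) (s : Fin r → S), ∃ c > 0, ∀ y ∈ A, ∃ j, c ≤ f (s j) y := by
  obtain ⟨t, ht⟩ := hA.elim_finite_subcover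
    (fun a : S × ℕ => {y | 1 / ((a.2 : ℝ) + 1) < f a.1 y})
    (fun a => isOpen_lt continuous_const (hf _)) (fun y hy => by
      obtain ⟨s, hs⟩ := h y hy
      obtain ⟨m, hm⟩ := exists_nat_one_div_lt hs
      exact mem_iUnion.2 ⟨(s, m), hm⟩)
  refine ⟨t.card, fun j => (t.equivFin.symm j).1.1, 1 / (((t.sup Prod.snd : ℕ) : ℝ) + 1),
    by positivity, fun y hy => ?_⟩
  obtain ⟨a, ha, hy⟩ := mem_iUnion₂.1 (ht hy)
  refine ⟨t.equivFin ⟨a, ha⟩, ?_⟩
  simp only [Equiv.symm_apply_apply]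
  refine le_trans (Nat.one_div_le_one_div (Finset.le_sup (f := Prod.snd) ha)) (le_of_lt hy)

variable {n : ℕ} (C : Ctx n) (k : ℕ)

/-- Normalized evaluation. -/
def ev : (C.ι → C.Y → ℂ) →ₗ[ℂ] C.Y → ℂ where
  toFun g y := g (C.ix y) y * (Real.exp (-C.wt 1 k (C.ix y) y / 2) : ℝ)
  map_add' g h := by
    funext y
    simp only [Pi.add_apply, add_mul]
  map_smul' c g := by
    funext y
    simp only [Pi.smul_apply, smul_eq_mul, mul_assoc, RingHom.id_apply]

theorem ev_sq (g : C.ι → C.Y → ℂ) (y : C.Y) : ‖ev C k g y‖ ^ 2 = C.nr 1 k g y := by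
  show ‖g (C.ix y) y * (Real.exp (-C.wt 1 k (C.ix y) y / 2) : ℝ)‖ ^ 2 = _
  rw [norm_mul, mul_pow, ← normSq_eq_norm_sq, norm_real, Real.norm_eq_abs, sq_abs, sq,
    ← Real.exp_add, add_halves]
  rfl

theorem ev_eq (g : C.ι → C.Y → ℂ) (y : C.Y) : ‖ev C k g y‖ = √(C.nr 1 k g y) := by
  rw [← ev_sq, Real.sqrt_sq (norm_nonneg _)]

/-- Bounded sections that tend to zero at infinity. -/
def D : Submodule ℂ (C.ι → C.Y → ℂ) where
  carrier := {g | g ∈ C.Sec 1 k ∧ (∃ M, ∀ y, ‖ev C k g y‖ ≤ M) ∧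
    Tendsto (ev C k g) (cocompact C.Y) (𝓝 0)}
  add_mem' := fun {g h} ⟨a, ⟨M, b⟩, c⟩ ⟨a', ⟨M', b'⟩, c'⟩ =>
    ⟨add_mem a a', ⟨M + M', fun y => by
      rw [map_add]
      exact (norm_add_le _ _).trans (add_le_add (b y) (b' y))⟩, by
      rw [map_add]
      have := c.add c'
      rwa [add_zero] at this⟩
  zero_mem' := ⟨zero_mem _, ⟨0, fun y => by simp⟩, by
    rw [map_zero]
    exact tendsto_const_nhds⟩
  smul_mem' := fun z g ⟨a, ⟨M, b⟩, c⟩ =>
    ⟨Submodule.smul_mem _ z a, ⟨‖z‖ * M, fun y => by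
      rw [map_smul, Pi.smul_apply, norm_smul]
      exact mul_le_mul_of_nonneg_left (b y) (norm_nonneg _)⟩, by
      rw [map_smul]
      have := c.const_smul z
      rwa [smul_zero] at this⟩

variable {C k}

theorem ev_tl {g : C.ι → C.Y → ℂ} (hg : g ∈ C.Sec 1 k) (γ : C.Γ) (y : C.Y) :
    ‖ev C k (C.tl γ g) y‖ = ‖ev C k g (γ • y)‖ := by
  rw [ev_eq, ev_eq, Ctx.nr_tl hg]

theorem tl_mem {g : C.ι → C.Y → ℂ} (hg : g ∈ D C k) (γ : C.Γ) : C.tl γ g ∈ D C k := by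
  obtain ⟨a, ⟨M, b⟩, c⟩ := hg
  refine ⟨Ctx.tl_mem a γ, ⟨M, fun y => (ev_tl a γ y).trans_le (b _)⟩, ?_⟩
  have : ContinuousConstSMul C.Γ C.Y := ⟨C.continuous_smul⟩
  rw [tendsto_zero_iff_norm_tendsto_zero] at c ⊢
  simp only [ev_tl a]
  exact c.comp (Homeomorph.smul γ).isClosedEmbedding.tendsto_cocompact

theorem cont_ev (g : D C k) : Continuous fun y => ‖ev C k g y‖ := by
  simp only [ev_eq]
  exact (Ctx.continuous_nr g.2.1).sqrt

/-- The common zeros of a subspace of finite codimension lie in a compact set. -/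
theorem zeros (hp : ∀ y, ∃ s : D C k, 0 < ‖ev C k s y‖) {W : Type} [AddCommGroup W] [Module ℂ W]
    [FiniteDimensional ℂ W] (Φ : D C k →ₗ[ℂ] W) :
    ∃ K, IsCompact K ∧ ∀ y ∉ K, ∃ s : LinearMap.ker Φ, 0 < ‖ev C k s.1 y‖ := by
  obtain ⟨F, hF, hγ⟩ := C.fd
  obtain ⟨r, s, c, hc, hs⟩ := cover (fun (s : D C k) y => ‖ev C k s y‖) cont_ev hF fun y _ => hp y
  choose M hM using fun j => (s j).2.2.1
  let Z : Set C.Y := {y | ∀ g : LinearMap.ker Φ, ev C k g.1 y = 0}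
  let T : D C k →ₗ[ℂ] Z → ℂ := (LinearMap.funLeft ℂ ℂ (↑)) ∘ₗ ev C k ∘ₗ (D C k).subtype
  have hT : ∀ g (y : Z), T g y = ev C k g y := fun _ _ => rfl
  have hk : LinearMap.ker Φ ≤ LinearMap.ker T := fun g hg => funext fun y => y.2 ⟨g, hg⟩
  have : FiniteDimensional ℂ (D C k ⧸ LinearMap.ker Φ) :=
    Φ.quotKerEquivRange.symm.finiteDimensional
  have : FiniteDimensional ℂ (LinearMap.range T) := by
    rw [← Submodule.range_liftQ _ _ hk]
    infer_instance
  have h := unif (LinearMap.range T) (comap (↑) (cocompact C.Y)) (by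
    rintro _ ⟨g, rfl⟩
    exact g.2.2.2.comp tendsto_comap) (∑ j, |M j|) hc
  rw [eventually_comap] at h
  obtain ⟨K, hK, H⟩ := mem_cocompact.1 h
  refine ⟨K, hK, fun y hy => ?_⟩
  by_contra hn
  have hy' : y ∈ Z := fun g => by
    by_contra h0
    exact hn ⟨g, norm_pos_iff.2 h0⟩
  obtain ⟨γ, hγ⟩ := hγ y
  obtain ⟨j, hj⟩ := hs _ hγ
  have := H hy ⟨y, hy'⟩ rfl (T ⟨_, tl_mem (s j).2 γ⟩) ⟨_, rfl⟩ fun w => by
    rw [hT, ev_tl (s j).2.1]
    exact (hM j _).trans ((le_abs_self _).trans (Finset.single_le_sum (f := fun j => |M j|)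
      (fun _ _ => abs_nonneg _) (Finset.mem_univ j)))
  rw [hT, ev_tl (s j).2.1] at this
  exact absurd hj (not_le.2 this)

/-- The jet map. -/
theorem jet (hJET : St_JET) {x : C.Y} (hx : x ∈ C.W C.o) (t : ℕ) :
    ∃ Φ : D C k →ₗ[ℂ] (Fin n → Fin t) → ℂ, ∀ s, Φ s = 0 → ∃ M, ∀ᶠ y in 𝓝 x,
      normSq (s.1 C.o y) ≤ M * nsq (C.q C.o y - C.q C.o x) ^ t := by
  obtain ⟨e, r, hr, he, hxe, -, ht⟩ := (C.rd C.o).exists_ball hx univ_mem
  obtain ⟨Λ, -, hl, hv⟩ := hJET n t (C.q C.o x)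
  have hd : ∀ s : D C k, ∀ w ∈ ball (C.q C.o x) r, DifferentiableAt ℂ (s.1 C.o ∘ e.symm) w := by
    intro s w hw
    rw [← ht] at hw
    have := (he.hol_iff (e.map_target hw)).1 (s.2.1.hol C.o _ (he.sub (e.map_target hw)))
    rwa [he.p_symm hw] at this
  have hd' : ∀ s : D C k, ∀ᶠ w in 𝓝 (C.q C.o x), DifferentiableAt ℂ (s.1 C.o ∘ e.symm) w :=
    fun s => mem_of_superset (ball_mem_nhds _ hr) (hd s)
  have h0 : Λ 0 = 0 := by
    have := hl 1 0 0 (Eventually.of_forall fun _ => differentiableAt_const _)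
      (Eventually.of_forall fun _ => differentiableAt_const _)
    simpa using this
  refine ⟨{ toFun := fun s => Λ (s.1 C.o ∘ e.symm), map_add' := fun s s' => ?_,
            map_smul' := fun c s => ?_ }, fun s hs => ?_⟩
  · have := hl 1 _ _ (hd' s) (hd' s')
    rw [one_smul, one_smul] at this
    exact this
  · have := hl c _ 0 (hd' s) (Eventually.of_forall fun _ => differentiableAt_const _)
    rw [add_zero, h0, add_zero] at this
    exact this
  · have hsub : closedBall (C.q C.o x) (r / 2) ⊆ ball (C.q C.o x) r :=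
      closedBall_subset_ball (half_lt_self hr)
    obtain ⟨M, hM⟩ := (isCompact_closedBall (C.q C.o x) (r / 2)).exists_bound_of_continuousOn
      (f := s.1 C.o ∘ e.symm) fun w hw => (hd s w (hsub hw)).continuousAt.continuousWithinAt
    have hb := hv _ (r / 2) M
      (fun w hw => (hd s w (hsub (ball_subset_closedBall hw))).differentiableWithinAt)
      (fun w hw => hM w (ball_subset_closedBall hw)) hs
    refine ⟨(2 * M / (r / 2) ^ t) ^ 2, ?_⟩
    filter_upwards [e.open_source.mem_nhds hxe, (Ctx.locH hx).continuousAt.tendsto.eventually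
      (ball_mem_nhds _ (half_pos hr))] with y hy hy'
    have h1 := hb _ hy'
    rw [Function.comp_apply, he.symm_p hy] at h1
    rw [normSq_eq_norm_sq]
    calc ‖s.1 C.o y‖ ^ 2 ≤ (2 * M * (‖C.q C.o y - C.q C.o x‖ / (r / 2)) ^ t) ^ 2 :=
          pow_le_pow_left₀ (norm_nonneg _) h1 2
      _ = (2 * M / (r / 2) ^ t) ^ 2 * (‖C.q C.o y - C.q C.o x‖ ^ 2) ^ t := by
          rw [div_pow]
          ring
      _ ≤ _ := mul_le_mul_of_nonneg_left (pow_le_pow_left₀ (sq_nonneg _) (le_nsq _) t) (sq_nonneg _)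

theorem cont_gsm {f : C.Y → ℝ} (hf : C.GSm f) : Continuous f :=
  continuous_iff_continuousAt.2 fun y => (hf _ y (Ctx.mem_ix y)).continuousAt (Ctx.locH (Ctx.mem_ix y))

end ZBD

open ZBD in
theorem stZBD (hPEAK : St_PEAK) (hTAIL : St_TAIL) (hJET : St_JET) (hCHI : St_CHI) (hVOL : St_VOL)
    (hSMO : St_SMO) : St_ZBD := by
  intro n C ρ hn hρ
  obtain ⟨k, hk⟩ := hPEAK n C ρ hn hρ
  refine ⟨k, fun x hx t => ?_⟩
  have hp : ∀ y, ∃ s : D C k, 0 < ‖ev C k s y‖ := fun y => by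
    obtain ⟨s, h1, h2, h3⟩ := hk y
    obtain ⟨⟨M, hM⟩, h4, -⟩ := hTAIL n C 1 k 2 s two_pos h1 h2
    refine ⟨⟨s, h1, ⟨√M, fun w => ?_⟩, ?_⟩, ?_⟩
    · rw [ev_eq]
      exact Real.sqrt_le_sqrt (hM w)
    · rw [tendsto_zero_iff_norm_tendsto_zero]
      simp only [ev_eq]
      simpa using h4.sqrt
    · rw [ev_eq]
      exact Real.sqrt_pos.2 (lt_of_le_of_ne (Ctx.nr_nonneg _ _) h3.symm)
  obtain ⟨Φ, hΦ⟩ := jet (k := k) hJET hx t
  obtain ⟨K, hK, hz⟩ := zeros hp Φ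
  have cρ := cont_gsm hρ.sm
  obtain ⟨B, hB⟩ := (hK.insert x).exists_bound_of_continuousOn cρ.continuousOn
  obtain ⟨_, hχ⟩ := hCHI n C ρ hρ
  have hB' : ∀ y ∈ insert x K, ρ y < |B| + 1 := fun y hy =>
    lt_of_le_of_lt ((le_abs_self _).trans ((hB y hy).trans (le_abs_self B))) (lt_add_one _)
  obtain ⟨χ, c1, c2, c3, c4, -⟩ := hχ (|B| + 1) (by linarith [abs_nonneg B])
  have hA : IsCompact ({y | ρ y ≤ 2 * (|B| + 1)} ∩ {y | |B| + 1 ≤ ρ y}) :=
    (hρ.cpt _).inter_right (isClosed_le continuous_const cρ)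
  obtain ⟨r, s, c, hc, hs⟩ := cover (fun (s : LinearMap.ker Φ) y => ‖ev C k s.1 y‖)
    (fun s => cont_ev s.1) hA fun y hy => hz y fun h =>
      absurd hy.2 (not_le.2 (hB' y (mem_insert_of_mem _ h)))
  have lo : ∀ y, ρ y < |B| + 1 → ∀ᶠ y' in 𝓝 y, χ y' = 1 := fun y hy =>
    ((isOpen_lt cρ continuous_const).eventually_mem hy).mono fun y' h => c3 y' (le_of_lt h)
  have hi : ∀ y, 2 * (|B| + 1) < ρ y → ∀ᶠ y' in 𝓝 y, χ y' = 0 := fun y hy =>
    ((isOpen_lt continuous_const cρ).eventually_mem hy).mono fun y' h => c4 y' (le_of_lt h)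
  refine ⟨χ, r, fun j => (s j).1.1, c1, HasCompactSupport.intro (hρ.cpt (2 * (|B| + 1)))
    fun y hy => c4 y (not_le.1 hy).le, c2, lo x (hB' x (mem_insert _ _)), fun j => (s j).1.2.1,
    ?_, ?_, c ^ 2, by positivity, fun y => ?_⟩
  · choose M hM using fun j => (s j).1.2.2.1
    refine ⟨∑ j, M j ^ 2, fun y => Finset.sum_le_sum fun j _ => ?_⟩
    rw [← ev_sq]
    exact pow_le_pow_left₀ (norm_nonneg _) (hM j y) 2
  · choose M hM using fun j => hΦ (s j).1 (s j).2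
    refine ⟨∑ j, M j, ?_⟩
    filter_upwards [eventually_all.2 hM] with y hy
    rw [Finset.sum_mul]
    exact Finset.sum_le_sum fun j _ => hy j
  · by_cases h1 : ρ y < |B| + 1
    · exact Or.inl ((lo y h1).mono fun y' h => h.trans (lo y h1).self_of_nhds.symm)
    by_cases h2 : 2 * (|B| + 1) < ρ y
    · exact Or.inl ((hi y h2).mono fun y' h => h.trans (hi y h2).self_of_nhds.symm)
    obtain ⟨j, hj⟩ := hs y ⟨not_lt.1 h2, not_lt.1 h1⟩
    refine Or.inr (le_trans ?_ (Finset.single_le_sum (f := fun j => C.nr 1 k (s j).1.1 y)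
      (fun _ _ => Ctx.nr_nonneg _ _) (Finset.mem_univ j)))
    rw [← ev_sq]
    exact pow_le_pow_left₀ hc.le hj 2

end Pool.Agent.Lib.SV
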