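import Pool.Agent.Lib.SV.Blue1

/-! The zero set of a holomorphic function is null. -/

open scoped Classical Topology ENNReal
open Set MeasureTheory Complex Filter Metric

noncomputable section

namespace Pool.Agent.Lib.SV

namespace ZER

variable {n : ℕ} {f : E n → ℂ} {z : E n} {r : ℝ}

/-- The identity theorem on a ball. -/
theorem ident (hf : DifferentiableOn ℂ f (ball z r)) {w x : E n} (hw : w ∈ ball z r)
    (hx : x ∈ ball z r) (h0 : f =ᶠ[𝓝 x] 0) : f w = 0 := by
  let L : ℂ → E n := fun t => w + t • (x - w)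
  have hL : Continuous L := by fun_prop
  have hD : IsOpen (L ⁻¹' ball z r) := isOpen_ball.preimage hL
  have hc : Convex ℝ (L ⁻¹' ball z r) := by
    intro s hs t ht a b ha hb hab
    have e : L (a • s + b • t) = a • L s + b • L t := by
      funext k
      have : (b : ℂ) = 1 - a := by
        have h : b = 1 - a := by linarith
        rw [h]
        push_cast
        ring
      simp only [L, Pi.add_apply, Pi.smul_apply, smul_eq_mul, real_smul, this]
      ring
    show L (a • s + b • t) ∈ ball z r
    rw [e]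
    exact convex_ball z r hs ht ha hb hab
  have hd : DifferentiableOn ℂ (f ∘ L) (L ⁻¹' ball z r) :=
    hf.comp (Differentiable.differentiableOn (by fun_prop)) fun _ h => h
  have L1 : L 1 = x := by simp [L]
  have L0 : L 0 = w := by simp [L]
  have h1 : (f ∘ L) =ᶠ[𝓝 1] 0 := by
    have : Tendsto L (𝓝 1) (𝓝 x) := by
      rw [← L1]
      exact hL.continuousAt
    exact this.eventually h0
  have := (hd.analyticOnNhd hD).eqOn_zero_of_preconnected_of_eventuallyEq_zero hc.isPreconnected
    (z₀ := 1) (by show L 1 ∈ ball z r; rwa [L1]) h1 (x := 0) (by show L 0 ∈ ball z r; rwa [L0])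
  simpa [L0] using this

theorem le_of_rpow {a M V V' : ℝ} (ha : 0 < a) (hM : 0 < M)
    (h : ∀ e : ℝ, 0 < e → a ^ e * V ≤ M ^ e * V') : V ≤ V' := by
  have t : ∀ b : ℝ, 0 < b → Tendsto (fun e : ℝ => b ^ e) (𝓝[>] 0) (𝓝 1) := by
    intro b hb
    have := (Real.continuousAt_const_rpow (a := b) (b := 0) hb.ne').tendsto
    rw [Real.rpow_zero] at this
    exact this.mono_left nhdsWithin_le_nhds
  have := le_of_tendsto_of_tendsto ((t a ha).mul_const V) ((t M hM).mul_const V')
    (eventually_mem_nhdsWithin.mono fun e he => h e he)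
  simpa using this

end ZER

theorem stZER (hSUB : St_SUB) : St_ZER := by
  intro n f z r hf ⟨w, hw, hw0⟩
  refine measure_null_of_locally_null _ fun x hx => ?_
  obtain ⟨ε, hε, hb⟩ := Metric.isOpen_iff.1 isOpen_ball x hx.1
  set ρ := ε / 4 with hρ
  have hρ0 : 0 < ρ := by positivity
  have hcb : closedBall x (3 * ρ) ⊆ ball z r :=
    (closedBall_subset_ball (by linarith)).trans hb
  obtain ⟨c, hc, hc0⟩ : ∃ c ∈ ball x ρ, f c ≠ 0 := by
    by_contra hn
    refine hw0 (ZER.ident hf hw hx.1 ?_)
    filter_upwards [ball_mem_nhds x hρ0] with y hy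
    by_contra h
    exact hn ⟨y, hy, h⟩
  have hB : ball c (2 * ρ) ⊆ closedBall x (3 * ρ) := by
    intro y hy
    have := dist_triangle y c x
    rw [mem_ball] at hy hc
    rw [mem_closedBall]
    linarith
  have hxB : x ∈ ball c (2 * ρ) := by
    rw [mem_ball, dist_comm]
    rw [mem_ball] at hc
    linarith
  obtain ⟨M0, hM0⟩ := (isCompact_closedBall x (3 * ρ)).exists_bound_of_continuousOn
    (hf.continuousOn.mono hcb)
  set M := max M0 1 with hM
  have hM1 : 0 < M := lt_of_lt_of_le one_pos (le_max_right _ _)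
  set N : Set (E n) := ball z r ∩ f ⁻¹' {0}ᶜ with hN
  have hNo : IsOpen N := hf.continuousOn.isOpen_inter_preimage isOpen_ball isOpen_compl_singleton
  set B := ball c (2 * ρ) with hBd
  have hfin : volume B ≠ ∞ := measure_ball_lt_top.ne
  have hfin' : volume (B ∩ N) ≠ ∞ := ne_top_of_le_ne_top hfin (measure_mono inter_subset_left)
  have key : (volume B).toReal ≤ (volume (B ∩ N)).toReal := by
    refine ZER.le_of_rpow (norm_pos_iff.2 hc0) hM1 fun e he => ?_
    have h1 := hSUB (E n) volume f c (2 * ρ) e (by positivity) he (hf.mono (hB.trans hcb))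
    have h2 : ∫⁻ y in B, ENNReal.ofReal (‖f y‖ ^ e) ≤
        ∫⁻ y in B, N.indicator (fun _ => ENNReal.ofReal (M ^ e)) y := by
      refine setLIntegral_mono' measurableSet_ball fun y hy => ?_
      by_cases h0 : f y = 0
      · simp [h0, Real.zero_rpow he.ne']
      · rw [indicator_of_mem (show y ∈ N from ⟨hcb (hB hy), h0⟩)]
        exact ENNReal.ofReal_le_ofReal (Real.rpow_le_rpow (norm_nonneg _)
          ((hM0 y (hB hy)).trans (le_max_left _ _)) he.le)
    rw [lintegral_indicator_const hNo.measurableSet, Measure.restrict_apply hNo.measurableSet,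
      inter_comm] at h2
    have h3 := ENNReal.toReal_mono (ENNReal.mul_ne_top ENNReal.ofReal_ne_top hfin') (h1.trans h2)
    rwa [ENNReal.toReal_mul, ENNReal.toReal_mul, ENNReal.toReal_ofReal (by positivity),
      ENNReal.toReal_ofReal (by positivity)] at h3
  have key2 : volume B ≤ volume (B ∩ N) := (ENNReal.toReal_le_toReal hfin hfin').1 key
  have h4 := measure_inter_add_sdiff (μ := volume) B hNo.measurableSet
  have h5 : volume (B \ N) = 0 := by
    by_contra h
    have := ENNReal.lt_add_right hfin' h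
    rw [h4] at this
    exact absurd key2 (not_le.2 this)
  refine ⟨B \ N, ?_, h5⟩
  filter_upwards [mem_nhdsWithin_of_mem_nhds (isOpen_ball.mem_nhds hxB), self_mem_nhdsWithin]
    with y hy hy'
  exact ⟨hy, fun h => h.2 hy'.2⟩

end Pool.Agent.Lib.SV
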