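import Pool.Agent.Lib.SV.Hol85
import Pool.Agent.Lib.SV.Sub85

/-! Removable singularities for square integrable holomorphic functions. -/

open scoped Topology ENNReal Real
open Set Filter Metric MeasureTheory

noncomputable section

namespace Pool.Agent.Lib.SV.H85

/-- One variable: a square integrable isolated singularity is removable. -/
theorem removable_one {φ : ℂ → ℂ} {a : ℂ} {s : Set ℂ} (hs : s ∈ 𝓝 a)
    (hd : DifferentiableOn ℂ φ (s \ {a}))
    (hi : ∫⁻ w in s \ {a}, ENNReal.ofReal (‖φ w‖ ^ 2) ≠ ∞) :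
    DifferentiableOn ℂ (Function.update φ a (limUnder (𝓝[≠] a) φ)) s := by
  refine Complex.differentiableOn_update_limUnder_of_isLittleO hs hd ?_
  have hr : Tendsto (fun z : ℂ => ‖z - a‖) (𝓝[≠] a) (𝓝 0) := by
    have : Tendsto (fun z : ℂ => ‖z - a‖) (𝓝 a) (𝓝 ‖a - a‖) := Continuous.tendsto (by fun_prop) a
    rw [sub_self, norm_zero] at this
    exact this.mono_left nhdsWithin_le_nhds
  have key : ∀ ψ : ℂ → ℂ, (∀ ε > 0, ∀ᶠ z in 𝓝[≠] a, ‖ψ z‖ * ‖z - a‖ ≤ ε) →
      ψ =o[𝓝[≠] a] fun z => (z - a)⁻¹ := by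
    intro ψ h
    rw [Asymptotics.isLittleO_iff]
    intro ε hε
    filter_upwards [h ε hε, self_mem_nhdsWithin] with z hz hza
    have h1 : 0 < ‖z - a‖ := norm_pos_iff.2 (sub_ne_zero.2 hza)
    rwa [norm_inv, ← div_eq_mul_inv, le_div_iff₀ h1]
  refine (key φ fun ε hε => ?_).sub (key (fun _ => φ a) fun ε hε => ?_)
  · obtain ⟨δ, hδ, H⟩ := exists_pos_setLIntegral_lt_of_measure_lt hi
      (ε := ENNReal.ofReal (ε ^ 2)) (by simpa using hε.ne')
    obtain ⟨R, hR, hRs⟩ := Metric.mem_nhds_iff.1 hs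
    have h1 : Tendsto (fun z : ℂ => ENNReal.ofReal ‖z - a‖ ^ 2 * (NNReal.pi : ℝ≥0∞)) (𝓝[≠] a)
        (𝓝 (ENNReal.ofReal 0 ^ 2 * (NNReal.pi : ℝ≥0∞))) := by
      refine ENNReal.Tendsto.mul_const ?_ (Or.inr ENNReal.coe_ne_top)
      exact ENNReal.Tendsto.pow (ENNReal.tendsto_ofReal hr)
    filter_upwards [h1.eventually (gt_mem_nhds (by simpa using hδ)),
      hr.eventually (gt_mem_nhds (half_pos hR)), self_mem_nhdsWithin] with z h2 h3 hza
    have hp : 0 < ‖z - a‖ := norm_pos_iff.2 (sub_ne_zero.2 hza)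
    have hsub : ball z ‖z - a‖ ⊆ s \ {a} := by
      intro w hw
      refine ⟨hRs (ball_subset_ball' ?_ hw), ?_⟩
      · rw [dist_eq_norm]
        linarith
      · rintro rfl
        rw [mem_ball, dist_comm, dist_eq_norm] at hw
        exact lt_irrefl _ hw
    have h4 := H (ball z ‖z - a‖) (by
      refine lt_of_le_of_lt (Measure.restrict_apply_le _ _) ?_
      rwa [Complex.volume_ball])
    rw [Measure.restrict_restrict measurableSet_ball, inter_eq_left.2 hsub] at h4
    have h5 := sub_mean (volume : Measure ℂ) (e := 2) two_pos (hd.mono hsub)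
    simp only [Real.rpow_two] at h5
    have h6 := h5.trans_lt h4
    rw [Complex.volume_ball, ← ENNReal.ofReal_pow (norm_nonneg _), ← ENNReal.ofReal_coe_nnreal,
      ← ENNReal.ofReal_mul (by positivity), ← ENNReal.ofReal_mul (by positivity),
      ENNReal.ofReal_lt_ofReal_iff (by positivity), NNReal.coe_real_pi] at h6
    refine le_of_sq_le_sq ?_ hε.le
    have h7 : 0 ≤ ‖φ z‖ ^ 2 * ‖z - a‖ ^ 2 := by positivity
    nlinarith [Real.pi_gt_three]
  · have h1 := hr.const_mul ‖φ a‖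
    rw [mul_zero] at h1
    exact h1.eventually (ge_mem_nhds hε)

/-- One variable: mean value property across the zeros of `h`. -/
theorem circleAverage_eq_of_sq {h φ : ℂ → ℂ} {U : Set ℂ} (hU : IsOpen U)
    (hUb : closedBall 0 1 ⊆ U) (hh : DifferentiableOn ℂ h U) (h0 : h 0 ≠ 0)
    (h1 : ∀ t ∈ sphere (0 : ℂ) 1, h t ≠ 0) (hφ : DifferentiableOn ℂ φ {t | t ∈ U ∧ h t ≠ 0})
    (hi : ∫⁻ t in {t | t ∈ U ∧ h t ≠ 0}, ENNReal.ofReal (‖φ t‖ ^ 2) ≠ ∞) :
    Real.circleAverage φ 0 1 = φ 0 := by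
  classical
  set φ' : ℂ → ℂ := fun t => if h t = 0 then limUnder (𝓝[≠] t) φ else φ t with hφ'
  have ha : AnalyticOnNhd ℂ h (closedBall 0 1) := (hh.analyticOnNhd hU).mono hUb
  have hdiff : ∀ t ∈ closedBall (0 : ℂ) 1, DifferentiableAt ℂ φ' t := by
    intro t ht
    have htU := hU.mem_nhds (hUb ht)
    by_cases hz : h t = 0
    · have hne : ∀ᶠ w in 𝓝[≠] t, h w ≠ 0 := by
        refine (ha t ht).eventually_eq_zero_or_eventually_ne_zero.resolve_left fun hev => h0 ?_
        exact ha.eqOn_zero_of_preconnected_of_eventuallyEq_zero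
          (convex_closedBall 0 1).isPreconnected ht hev (mem_closedBall_self zero_le_one)
      have hs : {w | w ∈ U ∧ (w ≠ t → h w ≠ 0)} ∈ 𝓝 t :=
        inter_mem htU (eventually_nhdsWithin_iff.1 hne)
      have hsub : {w | w ∈ U ∧ (w ≠ t → h w ≠ 0)} \ {t} ⊆ {t | t ∈ U ∧ h t ≠ 0} :=
        fun w hw => ⟨hw.1.1, hw.1.2 hw.2⟩
      have h2 := removable_one hs (hφ.mono hsub)
        (ne_top_of_le_ne_top hi (lintegral_mono_set hsub))
      refine (h2.differentiableAt hs).congr_of_eventuallyEq ?_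
      filter_upwards [hs] with w hw
      by_cases hwt : w = t
      · subst hwt
        simp [hφ', hz]
      · simp [hφ', hw.2 hwt, Function.update_of_ne hwt]
    · have hne : ∀ᶠ w in 𝓝 t, h w ≠ 0 := (ha t ht).continuousAt.eventually_ne hz
      refine (hφ.differentiableAt (inter_mem htU hne)).congr_of_eventuallyEq ?_
      filter_upwards [hne] with w hw
      simp [hφ', hw]
  have h2 : DiffContOnCl ℂ φ' (ball 0 |1|) := by
    refine DifferentiableOn.diffContOnCl ?_
    rw [abs_one, closure_ball 0 one_ne_zero]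
    exact fun t ht => (hdiff t ht).differentiableWithinAt
  have h3 := h2.circleAverage
  have h4 : φ' 0 = φ 0 := by simp [hφ', h0]
  rw [← h4, ← h3]
  refine Real.circleAverage_congr_sphere fun t ht => ?_
  rw [abs_one] at ht
  simp [hφ', h1 t ht]

variable {E : Type*} [NormedAddCommGroup E] [NormedSpace ℂ E]

/-- A disc through nearby points whose boundary avoids the zero set. -/
theorem exists_disc {j : E → ℂ} {O : Set E} (hO : IsOpen O) (hj : DifferentiableOn ℂ j O) {x : E}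
    (hx : x ∈ O) (h0 : ¬j =ᶠ[𝓝 x] 0) : ∃ w : E, ∀ᶠ y in 𝓝 x,
      (∀ t ∈ closedBall (0 : ℂ) 1, y + t • w ∈ O) ∧ ∀ t ∈ sphere (0 : ℂ) 1, j (y + t • w) ≠ 0 := by
  obtain ⟨R, hR, hRO⟩ := Metric.isOpen_iff.1 hO x hx
  obtain ⟨x', hx', hx1⟩ : ∃ x', j x' ≠ 0 ∧ x' ∈ ball x R :=
    ((not_eventually.1 h0).and_eventually (ball_mem_nhds x hR)).exists
  set L : ℂ → E := fun t => x + t • (x' - x) with hL
  have hLd : Differentiable ℂ L := by fun_prop
  have hmem : ∀ t ∈ closedBall (0 : ℂ) 1, L t ∈ O := by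
    intro t ht
    refine hRO ?_
    rw [mem_closedBall_zero_iff] at ht
    rw [mem_ball, dist_eq_norm] at hx1 ⊢
    simp only [hL, add_sub_cancel_left, norm_smul]
    exact (mul_le_of_le_one_left (norm_nonneg _) ht).trans_lt hx1
  have ha : AnalyticOnNhd ℂ (j ∘ L) (closedBall 0 1) :=
    ((hj.comp hLd.differentiableOn (mapsTo_preimage L _)).analyticOnNhd
      (hO.preimage hLd.continuous)).mono hmem
  have hne : ∀ᶠ t in 𝓝[≠] (0 : ℂ), (j ∘ L) t ≠ 0 := by
    refine (ha 0 (mem_closedBall_self zero_le_one)).eventually_eq_zero_or_eventually_ne_zero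
      |>.resolve_left fun hev => hx' ?_
    have := ha.eqOn_zero_of_preconnected_of_eventuallyEq_zero
      (convex_closedBall 0 1).isPreconnected (mem_closedBall_self zero_le_one) hev
      (show (1 : ℂ) ∈ closedBall 0 1 by simp)
    simpa [hL] using this
  obtain ⟨ρ, hρ, hρb⟩ := Metric.nhds_basis_closedBall.mem_iff.1
    (inter_mem (eventually_nhdsWithin_iff.1 hne) (closedBall_mem_nhds (0 : ℂ) one_pos))
  have hLw : ∀ t : ℂ, x + t • ((ρ : ℂ) • (x' - x)) = L (t * ρ) := fun t => by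
    simp only [hL, mul_smul]
  have htρ : ∀ t ∈ closedBall (0 : ℂ) 1, t * ρ ∈ closedBall (0 : ℂ) ρ := by
    intro t ht
    rw [mem_closedBall_zero_iff] at ht ⊢
    rw [norm_mul, Complex.norm_real, Real.norm_of_nonneg hρ.le]
    exact mul_le_of_le_one_left hρ.le ht
  refine ⟨(ρ : ℂ) • (x' - x), Eventually.and ?_ ?_⟩
  · refine (isCompact_closedBall (0 : ℂ) 1).eventually_forall_of_forall_eventually fun t ht => ?_
    have hc : Continuous fun z : E × ℂ => z.1 + z.2 • ((ρ : ℂ) • (x' - x)) := by fun_prop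
    refine (hc.tendsto (x, t)).eventually (hO.mem_nhds ?_)
    show x + t • ((ρ : ℂ) • (x' - x)) ∈ O
    rw [hLw]
    exact hmem _ (hρb (htρ t ht)).2
  · refine (isCompact_sphere (0 : ℂ) 1).eventually_forall_of_forall_eventually fun t ht => ?_
    have hc : Continuous fun z : E × ℂ => z.1 + z.2 • ((ρ : ℂ) • (x' - x)) := by fun_prop
    have ht' := sphere_subset_closedBall ht
    have h1 : x + t • ((ρ : ℂ) • (x' - x)) ∈ O := by
      rw [hLw]
      exact hmem _ (hρb (htρ t ht')).2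
    have h2 : j (x + t • ((ρ : ℂ) • (x' - x))) ≠ 0 := by
      rw [hLw]
      refine (hρb (htρ t ht')).1 (mul_ne_zero ?_ (by exact_mod_cast hρ.ne'))
      rintro rfl
      simp at ht
    exact (hc.tendsto (x, t)).eventually (p := fun z => j z ≠ 0)
      ((hj.continuousOn.continuousAt (hO.mem_nhds h1)).eventually_ne h2)

variable [FiniteDimensional ℂ E]

/-- The average over a circle depends holomorphically on the centre. -/
theorem differentiableAt_circleAverage {f : E → ℂ} {O : Set E} (hO : IsOpen O)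
    (hf : DifferentiableOn ℂ f O) {x w : E} (hx : ∀ t ∈ sphere (0 : ℂ) 1, x + t • w ∈ O) :
    DifferentiableAt ℂ (fun y => Real.circleAverage (fun t => f (y + t • w)) 0 1) x := by
  have : ProperSpace E := FiniteDimensional.proper ℂ E
  have hK : IsCompact ((fun t : ℂ => x + t • w) '' sphere 0 1) :=
    (isCompact_sphere 0 1).image (by fun_prop)
  obtain ⟨δ, hδ, hδO⟩ := hK.exists_cthickening_subset_open hO (image_subset_iff.2 hx)
  have hc := continuousOn_fderiv hO hf
  obtain ⟨C, hC⟩ := (hK.cthickening (r := δ)).exists_bound_of_continuousOn (hc.mono hδO)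
  have hmem : ∀ y ∈ ball x δ, ∀ θ : ℝ,
      y + circleMap 0 1 θ • w ∈ cthickening δ ((fun t : ℂ => x + t • w) '' sphere 0 1) := by
    intro y hy θ
    refine mem_cthickening_of_dist_le _ (x + circleMap 0 1 θ • w) _ _
      ⟨_, circleMap_mem_sphere 0 zero_le_one θ, rfl⟩ ?_
    rw [dist_add_right]
    exact (mem_ball.1 hy).le
  have hcm : ∀ y : E, Continuous fun θ : ℝ => y + circleMap 0 1 θ • w := fun y =>
    continuous_const.add ((continuous_circleMap 0 1).smul continuous_const)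
  have hF : ∀ y ∈ ball x δ, Continuous fun θ : ℝ => f (y + circleMap 0 1 θ • w) := fun y hy =>
    hf.continuousOn.comp_continuous (hcm y) fun θ => hδO (hmem y hy θ)
  have key := intervalIntegral.hasFDerivAt_integral_of_dominated_of_fderiv_le (𝕜 := ℂ)
    (μ := volume) (a := 0) (b := 2 * π) (bound := fun _ => C)
    (F := fun y θ => f (y + circleMap 0 1 θ • w))
    (F' := fun y θ => fderiv ℂ f (y + circleMap 0 1 θ • w)) (ball_mem_nhds x hδ) ?_ ?_ ?_ ?_ ?_ ?_
  · simp only [Real.circleAverage_def]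
    exact key.differentiableAt.const_smul _
  · filter_upwards [ball_mem_nhds x hδ] with y hy using (hF y hy).aestronglyMeasurable
  · exact (hF x (mem_ball_self hδ)).intervalIntegrable _ _
  · exact (hc.comp_continuous (hcm x)
      fun θ => hδO (hmem x (mem_ball_self hδ) θ)).aestronglyMeasurable
  · exact ae_of_all _ fun θ _ y hy => hC _ (hmem y hy θ)
  · exact intervalIntegrable_const
  · refine ae_of_all _ fun θ _ y hy => ?_
    have h1 := (hf.differentiableAt (hO.mem_nhds (hδO (hmem y hy θ)))).hasFDerivAt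
    exact (hasFDerivAt_comp_add_right _).2 h1

variable [MeasurableSpace E] [BorelSpace E] (μ : Measure E) [μ.IsAddHaarMeasure]

/-- Almost all slices of an integrable function are integrable. -/
theorem ae_slice {G : E → ℝ≥0∞} (hG : Measurable G) (hi : ∫⁻ y, G y ∂μ ≠ ∞) (w : E) (R : ℝ) :
    ∀ᵐ y ∂μ, ∫⁻ t in ball (0 : ℂ) R, G (y + t • w) < ∞ := by
  have : ProperSpace E := FiniteDimensional.proper ℂ E
  have hm : Measurable (Function.uncurry fun (y : E) (t : ℂ) => G (y + t • w)) :=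
    hG.comp (Continuous.measurable (by fun_prop))
  refine ae_lt_top hm.lintegral_prod_right ?_
  rw [lintegral_lintegral_swap hm.aemeasurable]
  simp only [lintegral_add_right_eq_self, setLIntegral_const]
  exact ENNReal.mul_ne_top hi measure_ball_lt_top.ne

/-- Local form of the extension theorem. -/
theorem ext_local {f j : E → ℂ} {O : Set E} (hO : IsOpen O) (hj : DifferentiableOn ℂ j O)
    (hf : DifferentiableOn ℂ f {w | w ∈ O ∧ j w ≠ 0})
    (hi : ∫⁻ w in {w | w ∈ O ∧ j w ≠ 0}, ENNReal.ofReal (‖f w‖ ^ 2) ∂μ ≠ ∞) {x : E} (hx : x ∈ O)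
    (h0 : ¬j =ᶠ[𝓝 x] 0) : ∃ G : E → ℂ, ∀ᶠ y in 𝓝 x,
      DifferentiableAt ℂ G y ∧ (j y ≠ 0 → G y = f y) := by
  classical
  have : ProperSpace E := FiniteDimensional.proper ℂ E
  set O' := {w | w ∈ O ∧ j w ≠ 0} with hO'
  have hO'o : IsOpen O' := hj.continuousOn.isOpen_inter_preimage hO isOpen_compl_singleton
  obtain ⟨w, hw⟩ := exists_disc hO hj hx h0
  obtain ⟨V, hV, hVo, hxV⟩ := _root_.eventually_nhds_iff.1 hw
  set G : E → ℂ := fun y => Real.circleAverage (fun t => f (y + t • w)) 0 1 with hG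
  have hGd : ∀ y ∈ V, DifferentiableAt ℂ G y := fun y hy =>
    differentiableAt_circleAverage hO'o hf fun t ht =>
      ⟨(hV y hy).1 t (sphere_subset_closedBall ht), (hV y hy).2 t ht⟩
  set F : E → ℝ≥0∞ := O'.indicator fun w => ENNReal.ofReal (‖f w‖ ^ 2) with hF
  have hFm : Measurable F := by
    rw [hF, ← Set.piecewise_eq_indicator]
    refine ContinuousOn.measurable_piecewise ?_ continuousOn_const hO'o.measurableSet
    exact ENNReal.continuous_ofReal.comp_continuousOn (hf.continuousOn.norm.pow 2)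
  have hFi : ∫⁻ y, F y ∂μ ≠ ∞ := by rwa [hF, lintegral_indicator hO'o.measurableSet]
  have hae : G =ᵐ[μ.restrict (V ∩ O')] f := by
    refine (ae_restrict_iff' (hVo.inter hO'o).measurableSet).2 ?_
    filter_upwards [ae_slice μ hFm hFi w 2] with y hy hyV
    set L : ℂ → E := fun t => y + t • w with hL
    have hLd : Differentiable ℂ L := by fun_prop
    have hL0 : L 0 = y := by simp [hL]
    have hU : IsOpen (ball (0 : ℂ) 2 ∩ L ⁻¹' O) := isOpen_ball.inter (hO.preimage hLd.continuous)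
    have hjL : DifferentiableOn ℂ (j ∘ L) (ball (0 : ℂ) 2 ∩ L ⁻¹' O) :=
      hj.comp hLd.differentiableOn fun t ht => ht.2
    have key := circleAverage_eq_of_sq (h := j ∘ L) (φ := f ∘ L) hU
      (fun t ht => ⟨closedBall_subset_ball one_lt_two ht, (hV y hyV.1).1 t ht⟩) hjL
      (by rw [Function.comp_apply, hL0]; exact hyV.2.2) (hV y hyV.1).2
      (hf.comp hLd.differentiableOn fun t ht => ⟨ht.1.2, ht.2⟩) ?_
    · rw [Function.comp_apply, hL0] at key
      exact key
    · have hS : IsOpen {t | t ∈ ball (0 : ℂ) 2 ∩ L ⁻¹' O ∧ (j ∘ L) t ≠ 0} :=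
        hjL.continuousOn.isOpen_inter_preimage hU isOpen_compl_singleton
      refine ne_top_of_le_ne_top hy.ne ?_
      refine le_trans (setLIntegral_mono' hS.measurableSet fun t ht => ?_)
        (lintegral_mono_set fun t ht => ht.1.1)
      have : y + t • w ∈ O' := ⟨ht.1.2, ht.2⟩
      rw [hF, indicator_of_mem this]
      rfl
  have heq : EqOn G f (V ∩ O') := Measure.eqOn_open_of_ae_eq hae (hVo.inter hO'o)
    (fun y hy => (hGd y hy.1).continuousAt.continuousWithinAt)
    (hf.continuousOn.mono inter_subset_right)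
  refine ⟨G, ?_⟩
  filter_upwards [hVo.mem_nhds hxV, hO.mem_nhds hx] with y hy hyO
  exact ⟨hGd y hy, fun h => heq ⟨hy, hyO, h⟩⟩

/-- Extension of locally square integrable holomorphic functions across a hypersurface. -/
theorem ext_sq {f j : E → ℂ} {O : Set E} (hO : IsOpen O) (hj : DifferentiableOn ℂ j O)
    (h0 : ∀ x ∈ O, ¬j =ᶠ[𝓝 x] 0) (hf : DifferentiableOn ℂ f {w | w ∈ O ∧ j w ≠ 0})
    (hi : ∀ x ∈ O, ∃ V ∈ 𝓝 x,
      ∫⁻ w in {w | w ∈ V ∧ j w ≠ 0}, ENNReal.ofReal (‖f w‖ ^ 2) ∂μ ≠ ∞) :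
    ∃ g : E → ℂ, DifferentiableOn ℂ g O ∧ ∀ w ∈ O, j w ≠ 0 → g w = f w := by
  classical
  refine ⟨fun y => if j y = 0 then limUnder (𝓝[{w | j w ≠ 0}] y) f else f y, fun x hx => ?_,
    fun w _ hw => if_neg hw⟩
  obtain ⟨V, hV, hVi⟩ := hi x hx
  obtain ⟨V', hV', hV'o, hxV'⟩ := _root_.mem_nhds_iff.1 (inter_mem hV (hO.mem_nhds hx))
  obtain ⟨G, hG⟩ := ext_local μ (f := f) hV'o (hj.mono fun y hy => (hV' hy).2)
    (hf.mono fun y hy => ⟨(hV' hy.1).2, hy.2⟩)
    (ne_top_of_le_ne_top hVi (lintegral_mono_set fun y hy => ⟨(hV' hy.1).1, hy.2⟩)) hxV' (h0 x hx)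
  refine (hG.self_of_nhds.1.congr_of_eventuallyEq ?_).differentiableWithinAt
  filter_upwards [hG.eventually_nhds, hO.mem_nhds hx] with y hy hyO
  by_cases hz : j y = 0
  · rw [if_pos hz]
    have : (𝓝[{w | j w ≠ 0}] y).NeBot :=
      mem_closure_iff_nhdsWithin_neBot.1 (mem_closure_iff_frequently.2 (not_eventually.1 (h0 y hyO)))
    refine Tendsto.limUnder_eq ?_
    refine (hy.self_of_nhds.1.continuousAt.tendsto.mono_left nhdsWithin_le_nhds).congr' ?_
    filter_upwards [eventually_nhdsWithin_of_eventually_nhds hy, self_mem_nhdsWithin] with z h1 h2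
    exact h1.2 h2
  · rw [if_neg hz]
    exact (hy.self_of_nhds.2 hz).symm

end Pool.Agent.Lib.SV.H85
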