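import Pool.Agent.Lib.SV.Blue1

/-! Levi form of the logarithm of the squared norm of a holomorphic map. -/

open scoped Classical Topology ComplexConjugate
open Set Complex Filter

noncomputable section

namespace Pool.Agent.Lib.SV

namespace FS

variable {n : ℕ} {ι : Type} [Fintype ι] {F G : E n → ι → ℂ} {z : E n}

theorem pair (hF : DifferentiableAt ℂ F z) (hG : DifferentiableAt ℂ G z) :
    DifferentiableAt ℝ (fun w => (∑ i, G w i * conj (F w i)).re) z ∧ ∀ u,
    fderiv ℝ (fun w => (∑ i, G w i * conj (F w i)).re) z u =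
      (∑ i, (fderiv ℂ G z u i * conj (F z i) + G z i * conj (fderiv ℂ F z u i))).re := by
  have a := fun i => (hasFDerivAt_pi'.1 hG.hasFDerivAt i).restrictScalars ℝ
  have b := fun i => conjCLE.toContinuousLinearMap.hasFDerivAt.comp z
    ((hasFDerivAt_pi'.1 hF.hasFDerivAt i).restrictScalars ℝ)
  have c := reCLM.hasFDerivAt.comp z
    (HasFDerivAt.fun_sum (u := Finset.univ) fun i _ => (a i).mul (b i))
  refine ⟨c.differentiableAt, fun u => ?_⟩
  have e : fderiv ℝ (fun w => (∑ i, G w i * conj (F w i)).re) z = _ := c.fderiv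
  rw [e]
  simp [add_comm, mul_comm]

theorem nsq_eq (v : ι → ℂ) : nsq v = (∑ i, v i * conj (v i)).re := by
  simp [nsq, mul_conj]

theorem d1 (hF : DifferentiableAt ℂ F z) (δ : ℝ) (u : E n) :
    fderiv ℝ (fun w => nsq (F w) + δ) z u = 2 * (∑ i, fderiv ℂ F z u i * conj (F z i)).re := by
  rw [fderiv_add_const]
  simp only [nsq_eq]
  rw [(pair hF hF).2]
  simp only [re_sum, add_re, mul_re, conj_re, conj_im, Finset.mul_sum]
  exact Finset.sum_congr rfl fun i _ => by ring

theorem dd2 (hF : ContDiffAt ℂ 2 F z) (δ : ℝ) (u : E n) :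
    d2 (fun w => nsq (F w) + δ) z u = 2 * (∑ i, fderiv ℂ (fderiv ℂ F) z u u i * conj (F z i)).re +
      2 * nsq (fderiv ℂ F z u) := by
  have e : (fun w => fderiv ℝ (fun w => nsq (F w) + δ) w u) =ᶠ[𝓝 z]
      fun w => 2 * (∑ i, fderiv ℂ F w u i * conj (F w i)).re := by
    filter_upwards [hF.eventually (by simp)] with w a using d1 (a.differentiableAt (by simp)) δ u
  have h2 : DifferentiableAt ℂ (fderiv ℂ F) z :=
    (hF.fderiv_right (m := 1) (by norm_num)).differentiableAt (by norm_num)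
  have h3 := h2.hasFDerivAt.clm_apply (hasFDerivAt_const u z)
  have h4 := pair (hF.differentiableAt (by simp)) h3.differentiableAt
  unfold d2
  rw [e.fderiv_eq, fderiv_const_mul h4.1, smul_apply, h4.2, h3.fderiv, nsq_eq,
    Finset.sum_add_distrib, add_re]
  simp [mul_add]

theorem cs (a b : ι → ℂ) : normSq (∑ i, a i * conj (b i)) ≤ nsq b * nsq a := by
  have h1 : ‖∑ i, a i * conj (b i)‖ ≤ ∑ i, ‖b i‖ * ‖a i‖ :=
    (norm_sum_le _ _).trans (le_of_eq (Finset.sum_congr rfl fun i _ => by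
      rw [norm_mul, norm_conj, mul_comm]))
  have h2 := Finset.sum_mul_sq_le_sq_mul_sq Finset.univ (fun i => ‖b i‖) fun i => ‖a i‖
  simp only [nsq, normSq_eq_norm_sq]
  exact (pow_le_pow_left₀ (norm_nonneg _) h1 2).trans h2

end FS

open FS in
theorem stFS (hSMO : St_SMO) : St_FS := by
  intro n ι _ F z δ hδ hF h0
  have h2 : ContDiffAt ℂ 2 F z := by
    obtain ⟨U, hU, ho, hz⟩ := eventually_nhds_iff.1 hF
    exact (hSMO n (ι → ℂ) U F ho (fun w hw => (hU w hw).differentiableWithinAt) 2).contDiffAt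
      (ho.mem_nhds hz)
  have hN : ContDiffAt ℝ 2 (fun w => nsq (F w) + δ) z := by
    refine ContDiffAt.add ?_ contDiffAt_const
    simp only [nsq_eq]
    have a := fun i => (contDiffAt_pi.1 h2 i).restrict_scalars ℝ
    exact reCLM.contDiff.contDiffAt.comp z (ContDiffAt.sum fun i _ =>
      (a i).mul (conjCLE.contDiff.contDiffAt.comp z (a i)))
  refine ⟨hN.log h0.ne', fun v => ?_⟩
  have h1 := hF.self_of_nhds
  have e : levE (fun w => Real.log (nsq (F w) + δ)) z v =
      4 * ((nsq (F z) + δ) * nsq (fderiv ℂ F z v) -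
        normSq (∑ i, fderiv ℂ F z v i * conj (F z i))) / (nsq (F z) + δ) ^ 2 := by
    have e2 : fderiv ℂ (fderiv ℂ F) z (I • v) (I • v) = -fderiv ℂ (fderiv ℂ F) z v v := by
      rw [map_smul, map_smul, _root_.smul_apply, smul_smul, I_mul_I, neg_one_smul]
    have e3 : nsq (fderiv ℂ F z (I • v)) = nsq (fderiv ℂ F z v) := by simp [nsq]
    have e4 : ∑ i, fderiv ℂ F z (I • v) i * conj (F z i) =
        I * ∑ i, fderiv ℂ F z v i * conj (F z i) := by
      simp [Finset.mul_sum, mul_assoc]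
    unfold levE
    rw [d2_comp hN (Real.contDiffAt_log.2 h0.ne'), d2_comp hN (Real.contDiffAt_log.2 h0.ne'),
      Real.deriv_log', deriv_inv, dd2 h2, dd2 h2, d1 h1, d1 h1, e2, e3, e4, normSq_apply]
    simp only [Pi.neg_apply, neg_mul, Finset.sum_neg_distrib, neg_re, I_mul_re]
    field_simp
    ring
  refine ⟨e, ?_⟩
  rw [e]
  have a := cs (fderiv ℂ F z v) (F z)
  have b := mul_nonneg hδ (nsq_nonneg (fderiv ℂ F z v))
  exact div_nonneg (by nlinarith) (sq_nonneg _)

end Pool.Agent.Lib.SV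

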