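import Pool.Agent.Lib.SV.Blue1

/-! Cut-off functions and finite partitions of unity on a Riemann domain. -/

open scoped Classical Topology
open Set Filter Metric

noncomputable section

namespace Pool.Agent.Lib.SV

namespace CUT

variable {n : ℕ} {Y : Type} [TopologicalSpace Y] [T2Space Y] {p : Y → E n} {W : Set Y}

/-- A bump function of every finite class. -/
theorem bump (h : RD p W) {y : Y} (hy : y ∈ W) {V : Set Y} (hV : V ∈ 𝓝 y) :
    ∃ b : Y → ℝ, (∀ k, ∀ x ∈ W, Sm p k b x) ∧ (∃ L, IsCompact L ∧ L ⊆ V ∧ ∀ x ∉ L, b x = 0) ∧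
      (∀ x, 0 ≤ b x) ∧ (∀ x, b x ≤ 1) ∧ ∀ᶠ x in 𝓝 y, b x = 1 := by
  obtain ⟨e, r, hr, he, hs, hV', ht⟩ := h.exists_ball hy hV
  let f : ContDiffBump (p y) := ⟨r / 4, r / 2, by positivity, by linarith⟩
  have hsub : closedBall (p y) (r / 2) ⊆ e.target := by
    rw [ht]
    exact closedBall_subset_ball (by linarith)
  have hL : IsCompact (e.symm '' closedBall (p y) (r / 2)) :=
    (isCompact_closedBall _ _).image_of_continuousOn (e.continuousOn_symm.mono hsub)
  have h0 : ∀ x ∉ e.symm '' closedBall (p y) (r / 2),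
      (if x ∈ e.source then f (p x) else 0) = 0 := fun x hx => by
    split_ifs with c
    · refine f.zero_of_le_dist (le_of_not_gt fun d => hx ⟨p x, ?_, he.symm_p c⟩)
      exact mem_closedBall.2 d.le
    · rfl
  have h1 : ∀ x ∈ e.source, (fun x => if x ∈ e.source then f (p x) else 0) =ᶠ[𝓝 x]
      fun x => f (p x) := fun x c => by
    filter_upwards [e.open_source.mem_nhds c] with z hz using if_pos hz
  refine ⟨fun x => if x ∈ e.source then f (p x) else 0, fun k x hx => ?_,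
    ⟨_, hL, ?_, h0⟩, fun x => ?_, fun x => ?_, ?_⟩
  · by_cases c : x ∈ e.source
    · refine Sm.congr (h.locH hx) ?_ (h1 x c)
      refine (f.contDiff (n := k)).contDiffAt.congr_of_eventuallyEq ?_
      filter_upwards [(h.locH hx).p_lift] with z hz
      rw [Function.comp_apply, hz]
    · refine Sm.congr (h.locH hx) (sm_const 0) ?_
      have : x ∉ e.symm '' closedBall (p y) (r / 2) := fun ⟨z, hz, e1⟩ =>
        c (e1 ▸ e.map_target (hsub hz))
      filter_upwards [hL.isClosed.isOpen_compl.mem_nhds this] with z hz using h0 z hz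
  · rintro _ ⟨z, hz, rfl⟩
    exact hV' (e.map_target (hsub hz))
  · beta_reduce
    split_ifs
    exacts [f.nonneg, le_rfl]
  · beta_reduce
    split_ifs
    exacts [f.le_one, zero_le_one]
  · filter_upwards [h1 y hs, (h.locH hy).continuousAt.tendsto.eventually f.eventuallyEq_one]
      with x a b
    rw [a, b]
    rfl

/-- A partition of unity of every finite class. -/
theorem part (h : RD p W) {K : Set Y} {ι : Type} [Fintype ι] {O : ι → Set Y} (hK : IsCompact K)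
    (ho : ∀ i, IsOpen (O i)) (hW : ∀ i, O i ⊆ W) (hc : K ⊆ ⋃ i, O i) :
    ∃ χ : ι → Y → ℝ, (∀ i k, ∀ x ∈ W, Sm p k (χ i) x) ∧
      (∀ i, ∃ L, IsCompact L ∧ L ⊆ O i ∧ ∀ x ∉ L, χ i x = 0) ∧ (∀ i y, 0 ≤ χ i y) ∧
      (∀ y, ∑ i, χ i y ≤ 1) ∧ ∀ᶠ y in 𝓝ˢ K, ∑ i, χ i y = 1 := by
  refine hK.induction_on (p := fun S => ∃ χ : ι → Y → ℝ, (∀ i k, ∀ x ∈ W, Sm p k (χ i) x) ∧
      (∀ i, ∃ L, IsCompact L ∧ L ⊆ O i ∧ ∀ x ∉ L, χ i x = 0) ∧ (∀ i y, 0 ≤ χ i y) ∧
      (∀ y, ∑ i, χ i y ≤ 1) ∧ ∀ᶠ y in 𝓝ˢ S, ∑ i, χ i y = 1) ?_ ?_ ?_ ?_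
  · exact ⟨fun _ _ => 0, fun _ _ _ _ => sm_const 0,
      fun _ => ⟨∅, isCompact_empty, empty_subset _, fun _ _ => rfl⟩, fun _ _ => le_rfl,
      fun _ => by simp, by simp⟩
  · rintro S T hST ⟨χ, a1, a2, a3, a4, a5⟩
    exact ⟨χ, a1, a2, a3, a4, a5.filter_mono (nhdsSet_mono hST)⟩
  · rintro S T ⟨χ, a1, a2, a3, a4, a5⟩ ⟨ψ, b1, b2, b3, b4, b5⟩
    have e : ∀ y, ∑ i, (χ i y + (1 - ∑ j, χ j y) * ψ i y) =
        ∑ j, χ j y + (1 - ∑ j, χ j y) * ∑ i, ψ i y := fun y => by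
      rw [Finset.sum_add_distrib, Finset.mul_sum]
    refine ⟨fun i y => χ i y + (1 - ∑ j, χ j y) * ψ i y, fun i k x hx => ?_, fun i => ?_,
      fun i y => add_nonneg (a3 i y) (mul_nonneg (sub_nonneg.2 (a4 y)) (b3 i y)), fun y => ?_, ?_⟩
    · exact ContDiffAt.add (a1 i k x hx) (ContDiffAt.mul (ContDiffAt.sub contDiffAt_const
        (ContDiffAt.sum fun j _ => a1 j k x hx)) (b1 i k x hx))
    · obtain ⟨L, l1, l2, l3⟩ := a2 i
      obtain ⟨M, m1, m2, m3⟩ := b2 i
      refine ⟨L ∪ M, l1.union m1, union_subset l2 m2, fun x hx => ?_⟩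
      beta_reduce
      rw [l3 x fun c => hx (.inl c), m3 x fun c => hx (.inr c), mul_zero, add_zero]
    · rw [e]
      linarith [mul_le_mul_of_nonneg_left (b4 y) (sub_nonneg.2 (a4 y))]
    · rw [nhdsSet_union, eventually_sup]
      constructor
      · filter_upwards [a5] with y hy
        rw [e, hy, sub_self, zero_mul, add_zero]
      · filter_upwards [b5] with y hy
        rw [e, hy, mul_one, add_sub_cancel]
  · intro x hx
    obtain ⟨i, hi⟩ := mem_iUnion.1 (hc hx)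
    obtain ⟨b, b1, b2, b3, b4, b5⟩ := bump h (hW i hi) ((ho i).mem_nhds hi)
    have e : ∀ y, ∑ j, (if j = i then b y else 0) = b y := fun y => by simp
    refine ⟨interior {y | b y = 1}, mem_nhdsWithin_of_mem_nhds (interior_mem_nhds.2 b5),
      fun j y => if j = i then b y else 0, fun j k x hx => ?_, fun j => ?_, fun j y => ?_,
      fun y => (e y).trans_le (b4 y), ?_⟩
    · by_cases c : j = i
      · simpa only [if_pos c] using b1 k x hx
      · simpa only [if_neg c] using sm_const 0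
    · by_cases c : j = i
      · simpa only [if_pos c, c, if_true] using b2
      · exact ⟨∅, isCompact_empty, empty_subset _, fun _ _ => if_neg c⟩
    · beta_reduce
      split_ifs
      exacts [b3 y, le_rfl]
    · rw [isOpen_interior.nhdsSet_eq, eventually_principal]
      exact fun y hy => (e y).trans (interior_subset (s := {y | b y = 1}) hy)

end CUT

theorem stCUT : St_CUT := by
  intro n D K ι _ O hK ho hW hc
  obtain ⟨χ, a1, a2, a3, a4, a5⟩ := CUT.part D.rd hK ho hW hc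
  refine ⟨χ, fun i => ⟨fun y hy => a1 i 2 y (hW i hy), a2 i⟩, fun i => ⟨a1 i 2, ?_⟩, a3, a4, a5⟩
  obtain ⟨L, l1, l2, l3⟩ := a2 i
  exact ⟨L, l1, l2.trans (hW i), l3⟩

end Pool.Agent.Lib.SV
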