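import Pool.Agent.Lib.SV.Blue1

/-! Integration by parts on a Riemann domain. -/

open scoped Classical Topology ENNReal
open Set MeasureTheory Complex Filter Metric

set_option linter.unusedVariables false

noncomputable section

namespace Pool.Agent.Lib.SV

namespace IBP

theorem euc {n : ℕ} {g : E n → ℂ} (h : ContDiff ℝ 1 g) (hc : HasCompactSupport g) (v : E n) :
    ∫ z, fderiv ℝ g z v = 0 := by
  have h1 : Integrable (fun z => fderiv ℝ g z v) :=
    ((h.continuous_fderiv one_ne_zero).clm_apply continuous_const).integrable_of_hasCompactSupport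
      (hc.fderiv_apply ℝ v)
  have := integral_mul_fderiv_eq_neg_fderiv_mul_of_integrable (μ := volume)
    (f := fun _ : E n => (1 : ℂ)) (g := g) (v := v) (by simp) (by simpa using h1)
    (by simpa using h.continuous.integrable_of_hasCompactSupport hc)
    (fun _ _ => differentiableAt_const _) fun x _ => h.differentiable one_ne_zero x
  simpa using this

variable {n : ℕ} {D : Dom n} {f : D.Y → ℂ} {K : Set D.Y}

theorem ev0 (hK : IsCompact K) (h : ∀ y ∉ K, f y = 0) {y : D.Y} (hy : y ∉ K) :
    f =ᶠ[𝓝 y] fun _ => 0 := by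
  filter_upwards [hK.isClosed.isOpen_compl.mem_nhds hy] with x hx using h x hx

theorem dd0 (hK : IsCompact K) (h : ∀ y ∉ K, f y = 0) {y : D.Y} (hy : y ∉ K) :
    dd D.p f y = 0 := by
  by_cases hl : LocH D.p y
  · rw [dd_congr hl (ev0 hK h hy)]
    exact fderiv_const_apply _
  · rw [dd, show lift D.p y = fun _ => y from dif_neg hl]
    exact fderiv_const_apply (f y)

theorem tst_dd (h : Tst D.p D.W 1 f) (v : E n) : Tst D.p D.W 0 fun y => dd D.p f y v := by
  obtain ⟨h1, K, hK, h2, h3⟩ := h
  exact ⟨fun y hy => Sm.dd_apply (k := 0) (D.rd.locH hy) (h1 y hy) v, K, hK, h2,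
    fun y hy => congrArg (· v) (dd0 hK h3 hy)⟩

theorem intg (hRM : St_RM) (h : Tst D.p D.W 0 f) : Integrable f D.μ := by
  obtain ⟨h1, K, hK, h2, h3⟩ := h
  have hc : Continuous f := continuous_iff_continuousAt.2 fun y => by
    by_cases hy : y ∈ K
    · exact (h1 y (h2 hy)).continuousAt (D.rd.locH (h2 hy))
    · exact continuousAt_const.congr (ev0 hK h3 hy).symm
  obtain ⟨M, hM⟩ := hK.exists_bound_of_continuousOn hc.continuousOn
  exact (Measure.integrableOn_of_bounded ((hRM n D).2.2.2.2.2.2.1 K hK h2) hc.aestronglyMeasurable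
    (ae_restrict_of_forall_mem hK.isClosed.measurableSet hM)).integrable_of_forall_notMem_eq_zero h3

theorem cht (hRM : St_RM) {e : OpenPartialHomeomorph D.Y (E n)} (he : Cht D.p D.W e)
    (h1 : ∀ y ∈ e.source, Sm D.p 1 f y) (hK : IsCompact K) (h2 : K ⊆ e.source)
    (h3 : ∀ y ∉ K, f y = 0) (v : E n) : ∫ y, dd D.p f y v ∂D.μ = 0 := by
  have hL : IsCompact (e '' K) := hK.image_of_continuousOn (e.continuousOn.mono h2)
  have g0 : ∀ z ∉ e '' K, e.target.indicator (f ∘ e.symm) z = 0 := fun z hz => by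
    by_cases ht : z ∈ e.target
    · rw [indicator_of_mem ht]
      exact h3 _ fun h => hz ⟨_, h, e.right_inv ht⟩
    · exact indicator_of_notMem ht _
  have g1 : ∀ z ∈ e.target, e.target.indicator (f ∘ e.symm) =ᶠ[𝓝 z] f ∘ e.symm := fun z hz => by
    filter_upwards [e.open_target.mem_nhds hz] with w hw using indicator_of_mem hw _
  have g2 : ∀ z ∉ e.target, e.target.indicator (f ∘ e.symm) =ᶠ[𝓝 z] fun _ => 0 := fun z hz => by
    filter_upwards [hL.isClosed.isOpen_compl.mem_nhds fun ⟨y, hy, a⟩ =>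
      hz (a ▸ e.map_source (h2 hy))] with w hw using g0 w hw
  have g3 : ContDiff ℝ 1 (e.target.indicator (f ∘ e.symm)) := contDiff_iff_contDiffAt.2 fun z => by
    by_cases hz : z ∈ e.target
    · have := (he.sm_iff (e.map_target hz)).1 (h1 _ (e.map_target hz))
      rw [he.p_symm hz] at this
      exact this.congr_of_eventuallyEq (g1 z hz)
    · exact contDiffAt_const.congr_of_eventuallyEq (g2 z hz)
  rw [← setIntegral_eq_integral_of_forall_compl_eq_zero (s := e.source) fun y hy => by
      rw [dd0 hK h3 fun h => hy (h2 h)]; rfl,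
    (hRM n D).2.2.2.1 e he, ← euc g3 (HasCompactSupport.intro hL g0) v]
  refine (setIntegral_congr_fun e.open_target.measurableSet fun z hz => ?_).trans
    (setIntegral_eq_integral_of_forall_compl_eq_zero (s := e.target) fun z hz => by
      rw [(g2 z hz).fderiv_eq, fderiv_const_apply]; rfl)
  simp only [he.dd_eq (e.map_target hz), he.p_symm hz, (g1 z hz).fderiv_eq]

end IBP

open IBP in
theorem stIBP (hRM : St_RM) (hCUT : St_CUT) : St_IBP := by
  intro n D f
  refine ⟨intg hRM, fun ⟨h1, K, hK, h2, h3⟩ v => ?_⟩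
  choose e he hy _ using fun y : K => D.rd.exists_cht (h2 y.2) univ_mem
  obtain ⟨t, ht⟩ := hK.elim_finite_subcover (fun y => (e y).source) (fun y => (e y).open_source)
    fun y h => mem_iUnion.2 ⟨⟨y, h⟩, hy _⟩
  obtain ⟨χ, c1, c2, -, -, c3⟩ := hCUT n D K t (fun i => (e i).source) hK
    (fun i => (e i).open_source) (fun i => (he i).sub) fun y h => by
      obtain ⟨i, hi, h⟩ := mem_iUnion₂.1 (ht h)
      exact mem_iUnion.2 ⟨⟨i, hi⟩, h⟩
  have s1 : ∀ i, ∀ y ∈ D.W, Sm D.p 1 (fun x => χ i x • f x) y := fun i y hy =>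
    (((c2 i).1 y hy).of_le one_le_two).smul (h1 y hy)
  have s2 : f = fun x => ∑ i, χ i x • f x := funext fun x => by
    by_cases hx : x ∈ K
    · rw [← Finset.sum_smul, c3.self_of_nhdsSet x hx, one_smul]
    · simp [h3 x hx]
  have s3 : (fun y => dd D.p f y v) =ᵐ[D.μ] fun y => ∑ i, dd D.p (fun x => χ i x • f x) y v := by
    filter_upwards [(hRM n D).1.off] with y hy
    have := fderiv_fun_sum (u := Finset.univ) fun i _ => Sm.differentiableAt (k := 0) (s1 i y hy)
    conv_lhs => rw [s2]
    exact (congrArg (· v) this).trans (sum_apply _ _ _)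
  rw [integral_congr_ae s3, integral_finsetSum _ fun i _ =>
    intg hRM (tst_dd ⟨s1 i, K, hK, h2, fun y hy => by rw [h3 y hy, smul_zero]⟩ v)]
  refine Finset.sum_eq_zero fun i _ => ?_
  obtain ⟨L, hL, l1, l2⟩ := (c1 i).2
  exact cht hRM (he i) (fun y hy => s1 i y ((he i).sub hy)) hL l1
    (fun y hy => by rw [l2 y hy, zero_smul]) v

end Pool.Agent.Lib.SV
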