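import Pool.Agent.Lib.SV.Blue1
import Pool.Agent.Lib.SV.Hol85

/-! The theorem of Montel on a Riemann domain. -/

open scoped Classical Topology ENNReal
open Set MeasureTheory Complex Filter Metric

set_option linter.unusedVariables false

noncomputable section

namespace Pool.Agent.Lib.SV

namespace MON

/-- Arzela-Ascoli with hypotheses that hold from some index on, depending on the point. -/
theorem ascoli {Y : Type} [TopologicalSpace Y] [SecondCountableTopology Y] {f : ℕ → Y → ℂ}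
    {W : Set Y}
    (he : ∀ x ∈ W, ∀ ε > 0, ∃ V ∈ 𝓝 x, ∀ᶠ n in atTop, ∀ y ∈ V, dist (f n x) (f n y) < ε)
    (hb : ∀ x ∈ W, ∃ M : ℝ, ∀ᶠ n in atTop, ‖f n x‖ ≤ M) :
    ∃ φ : ℕ → ℕ, StrictMono φ ∧ ∃ g : Y → ℂ,
      ∀ x ∈ W, Tendsto (fun n => f (φ n) x) atTop (𝓝 (g x)) := by
  have hb' : ∀ x ∈ W, ∃ K : Set ℂ, IsCompact K ∧ ∀ n, f n x ∈ K := by
    intro x hx
    obtain ⟨M, hM⟩ := hb x hx
    obtain ⟨N, hN⟩ := eventually_atTop.1 hM
    refine ⟨closedBall 0 M ∪ (fun n => f n x) '' Iio N,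
      (isCompact_closedBall _ _).union ((finite_Iio N).image _).isCompact, fun n => ?_⟩
    rcases lt_or_ge n N with h | h
    · exact Or.inr ⟨n, h, rfl⟩
    · exact Or.inl (mem_closedBall_zero_iff.2 (hN n h))
  obtain ⟨D, hDc, hDd⟩ := TopologicalSpace.exists_countable_dense W
  choose K hK hKf using hb'
  have : Countable D := hDc.to_subtype
  have hP : IsCompact (Set.pi univ fun d : D => K d.1.1 d.1.2) :=
    isCompact_univ_pi fun d => hK _ _
  obtain ⟨a, -, φ, hφ, ha⟩ := hP.tendsto_subseq (x := fun n (d : D) => f n d.1.1)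
    fun n d _ => hKf _ _ n
  have hcau : ∀ x ∈ W, CauchySeq fun n => f (φ n) x := by
    intro x hx
    rw [Metric.cauchySeq_iff]
    intro ε hε
    have h3 : 0 < ε / 3 := by positivity
    obtain ⟨V, hV, hV'⟩ := he x hx _ h3
    have h1 : (Subtype.val ⁻¹' V : Set W) ∈ 𝓝 (⟨x, hx⟩ : W) :=
      continuous_subtype_val.continuousAt.preimage_mem_nhds hV
    obtain ⟨y, hy, hyD⟩ := hDd.inter_nhds_nonempty h1
    have h2 : CauchySeq fun n => f (φ n) y.1 := (tendsto_pi_nhds.1 ha ⟨y, hy⟩).cauchySeq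
    obtain ⟨N, hN⟩ := Metric.cauchySeq_iff.1 h2 _ h3
    obtain ⟨N', hN'⟩ := eventually_atTop.1 (hφ.tendsto_atTop.eventually hV')
    refine ⟨max N N', fun m hm n hn => ?_⟩
    have h4 := dist_triangle4 (f (φ m) x) (f (φ m) y.1) (f (φ n) y.1) (f (φ n) x)
    have h5 := hN' m (le_of_max_le_right hm) y.1 hyD
    have h6 := hN' n (le_of_max_le_right hn) y.1 hyD
    have h7 := hN m (le_of_max_le_left hm) n (le_of_max_le_left hn)
    rw [dist_comm (f (φ n) y.1)] at h4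
    linarith
  have hex : ∀ x, ∃ b : ℂ, x ∈ W → Tendsto (fun n => f (φ n) x) atTop (𝓝 b) := by
    intro x
    by_cases hx : x ∈ W
    · obtain ⟨b, hb⟩ := cauchySeq_tendsto_of_complete (hcau x hx)
      exact ⟨b, fun _ => hb⟩
    · exact ⟨0, fun h => absurd h hx⟩
  choose g hg using hex
  exact ⟨φ, hφ, g, hg⟩

/-- A bound in the square mean gives a bound on the ball of half the radius. -/
theorem bound (hSUB : St_SUB) {n : ℕ} {r : ℝ} (hr : 0 < r) {M : ℝ≥0∞} (hM : M ≠ ∞) :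
    ∃ B : ℝ, ∀ (c : E n) (f : E n → ℂ), DifferentiableOn ℂ f (ball c (2 * r)) →
      ∫⁻ w in ball c (2 * r), ENNReal.ofReal (‖f w‖ ^ 2) ≤ M → ∀ z ∈ ball c r, ‖f z‖ ≤ B := by
  have hv : (volume : Measure (E n)) (ball 0 r) ≠ 0 := (measure_ball_pos _ _ hr).ne'
  have hv' : (volume : Measure (E n)) (ball 0 r) ≠ ∞ := measure_ball_lt_top.ne
  refine ⟨1 + (M / volume (ball (0 : E n) r)).toReal, fun c f hf hi z hz => ?_⟩
  have hs : ball z r ⊆ ball c (2 * r) := ball_subset_ball' (by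
    have := mem_ball.1 hz
    linarith)
  have h1 := hSUB (E n) volume f z r 2 hr two_pos (hf.mono hs)
  simp only [Real.rpow_two] at h1
  rw [Measure.addHaar_ball_center] at h1
  have h2 : ENNReal.ofReal (‖f z‖ ^ 2) ≤ M / volume (ball (0 : E n) r) :=
    (ENNReal.le_div_iff_mul_le (Or.inl hv) (Or.inl hv')).2
      (h1.trans ((lintegral_mono_set hs).trans hi))
  have h3 : ‖f z‖ ^ 2 ≤ (M / volume (ball (0 : E n) r)).toReal :=
    (ENNReal.ofReal_le_iff_le_toReal (ENNReal.div_ne_top hM hv)).1 h2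
  nlinarith [norm_nonneg (f z), sq_nonneg (‖f z‖ - 1)]

/-- Local uniform bounds in a chart. -/
theorem loc (hRM : St_RM) (hSUB : St_SUB) {n : ℕ} (D : Dom n) {F : ℕ → D.Y → ℂ} {y : D.Y}
    (hy : y ∈ D.W) {O : Set D.Y} (hO : O ∈ 𝓝 y) {M : ℝ≥0∞} (hM : M ≠ ∞)
    (h : ∀ᶠ k in atTop, (∀ x ∈ O, Hol D.p (F k) x) ∧
      ∫⁻ x in O, ENNReal.ofReal (‖F k x‖ ^ 2) ∂D.μ ≤ M) :
    ∃ e, ∃ r > 0, ∃ B : ℝ, Cht D.p D.W e ∧ y ∈ e.source ∧ ball (D.p y) r ⊆ e.target ∧
      ∀ᶠ k in atTop, DifferentiableOn ℂ (F k ∘ e.symm) (ball (D.p y) r) ∧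
        ∀ z ∈ ball (D.p y) r, ‖(F k ∘ e.symm) z‖ ≤ B := by
  obtain ⟨e, R, hR, he, hye, hs, ht⟩ := D.rd.exists_ball hy hO
  have hr : 0 < R / 2 := half_pos hR
  have h2 : 2 * (R / 2) = R := by ring
  obtain ⟨B, hB⟩ := bound hSUB (n := n) hr hM
  have hsub : ball (D.p y) (R / 2) ⊆ ball (D.p y) R := ball_subset_ball (by linarith)
  refine ⟨e, R / 2, hr, B, he, hye, ht ▸ hsub, ?_⟩
  filter_upwards [h] with k hk
  have hd : DifferentiableOn ℂ (F k ∘ e.symm) (ball (D.p y) R) := by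
    intro z hz
    rw [← ht] at hz
    have h1 := (he.hol_iff (e.map_target hz)).1 (hk.1 _ (hs (e.map_target hz)))
    rw [he.p_symm hz] at h1
    exact h1.differentiableWithinAt
  refine ⟨hd.mono hsub, hB (D.p y) _ (by rwa [h2]) ?_⟩
  have h3 := (hRM n D).2.2.1 e he fun x => ENNReal.ofReal (‖F k x‖ ^ 2)
  rw [h2, ← ht]
  exact h3.symm.trans_le ((lintegral_mono_set hs).trans hk.2)

end MON

/-- Theorem of Montel. -/
theorem stMON (hRM : St_RM) (hSUB : St_SUB) (hWEI : St_WEI) : St_MON := by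
  intro n D F h
  have key : ∀ y ∈ D.W, ∃ e, ∃ r > 0, ∃ B : ℝ, Cht D.p D.W e ∧ y ∈ e.source ∧
      ball (D.p y) r ⊆ e.target ∧
      ∀ᶠ k in atTop, DifferentiableOn ℂ (F k ∘ e.symm) (ball (D.p y) r) ∧
        ∀ z ∈ ball (D.p y) r, ‖(F k ∘ e.symm) z‖ ≤ B := by
    intro y hy
    obtain ⟨O, hO, M, hM, hk⟩ := h y hy
    exact MON.loc hRM hSUB D hy hO hM hk
  obtain ⟨s, hs, G, hG⟩ := MON.ascoli (f := F) (W := D.W) (fun x hx ε hε => by
    obtain ⟨e, r, hr, B, he, hxe, hb, hk⟩ := key x hx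
    have hc : ContinuousAt D.p x := (D.rd.locH hx).continuousAt
    have h1 : Tendsto (fun y => 2 * B / r * ‖D.p y - D.p x‖) (𝓝 x)
        (𝓝 (2 * B / r * ‖D.p x - D.p x‖)) :=
      ((hc.tendsto.sub tendsto_const_nhds).norm).const_mul _
    have h2 : ∀ᶠ y in 𝓝 x, y ∈ e.source ∧ D.p y ∈ ball (D.p x) r ∧
        2 * B / r * ‖D.p y - D.p x‖ < ε :=
      (e.open_source.eventually_mem hxe).and ((hc.eventually (ball_mem_nhds _ hr)).and
        (h1.eventually (gt_mem_nhds (by simpa using hε))))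
    refine ⟨_, h2, ?_⟩
    filter_upwards [hk] with k hk y hy
    have h3 := H85.norm_sub_le_of_bound hk.1 hk.2 hy.2.1
    simp only [Function.comp_apply, he.symm_p hy.1, he.symm_p hxe] at h3
    rw [dist_comm, dist_eq_norm]
    exact h3.trans_lt hy.2.2) (fun x hx => by
    obtain ⟨e, r, hr, B, he, hxe, hb, hk⟩ := key x hx
    refine ⟨B, ?_⟩
    filter_upwards [hk] with k hk
    have h3 := hk.2 _ (mem_ball_self hr)
    simpa only [Function.comp_apply, he.symm_p hxe] using h3)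
  refine ⟨G, s, hs, fun y hy => ⟨?_, hG y hy⟩⟩
  obtain ⟨e, r, hr, B, he, hye, hb, hk⟩ := key y hy
  have hk' := hs.tendsto_atTop.eventually hk
  have hd := (H85.differentiableOn_of_tendsto (l := atTop) (f := fun k => F (s k) ∘ e.symm)
    (g := G ∘ e.symm) (O := ball (D.p y) r) isOpen_ball (hk'.mono fun k hk => hk.1)
    (fun x hx => ⟨B, _, isOpen_ball.mem_nhds hx, hk'.mono fun k hk => hk.2⟩)
    (fun z hz => hG _ (he.sub (e.map_target (hb hz))))).1
  exact (he.hol_iff hye).2 (hd.differentiableAt (ball_mem_nhds _ hr))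

end Pool.Agent.Lib.SV
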