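import Pool.Agent.Lib.SV.Blue1

open scoped Classical Topology ENNReal
open Set MeasureTheory Filter

set_option linter.unusedSectionVars false

noncomputable section

namespace Pool.Agent.Lib.SV

namespace RM

variable {n : ℕ} {Y : Type} [TopologicalSpace Y] [SecondCountableTopology Y] [MeasurableSpace Y]
  [BorelSpace Y] {p : Y → E n} {W : Set Y} {e : OpenPartialHomeomorph Y (E n)} {μ ν : Measure Y}

lemma cover (h : RD p W) : ∃ S : ℕ → Set Y, (∀ k, IsOpen (S k) ∧ S k ⊆ W ∧
    MeasurableEmbedding ((S k).domRestrict p) ∧ volume (p '' S k) ≠ ∞) ∧ ⋃ k, S k = W := by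
  obtain ⟨T, h1, h2, h3⟩ := TopologicalSpace.isOpen_sUnion_countable {S | IsOpen S ∧ S ⊆ W ∧
    MeasurableEmbedding (S.domRestrict p) ∧ volume (p '' S) ≠ ∞} fun _ h => h.1
  obtain ⟨S, hS⟩ := (h1.insert ∅).exists_eq_range (insert_nonempty _ _)
  refine ⟨S, fun k => ?_, ?_⟩
  · obtain h4 | h4 : S k ∈ insert ∅ T := hS ▸ mem_range_self k
    · rw [h4]
      exact ⟨isOpen_empty, empty_subset _,
        (Topology.IsOpenEmbedding.of_isEmpty _).measurableEmbedding, by simp⟩
    · exact h2 h4
  · rw [← sUnion_range, ← hS, sUnion_insert, empty_union, h3]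
    refine (sUnion_subset fun _ h => h.2.1).antisymm fun y hy => ?_
    obtain ⟨e, r, -, he, h4, -, h5⟩ := h.exists_ball hy univ_mem
    refine ⟨e.source, ⟨e.open_source, he.sub, ?_, ?_⟩, h4⟩
    · rw [show e.source.domRestrict p = e.source.domRestrict e from funext fun x => he.eq x.2]
      exact e.isOpenEmbedding_restrict.measurableEmbedding
    · rw [he.eq.image_eq, e.image_source_eq_target, h5]
      exact measure_ball_lt_top.ne

lemma img (S A : Set Y) : S.domRestrict p '' (Subtype.val ⁻¹' A) = p '' (A ∩ S) := by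
  rw [domRestrict_eq, image_comp, Subtype.image_preimage_coe, inter_comm]

lemma injOn {S : Set Y} (h : MeasurableEmbedding (S.domRestrict p)) : InjOn p S :=
  injOn_iff_injective.2 h.injective

lemma isRM (h : RD p W) : IsRM p W (rm p W) := by
  suffices h1 : ∃ μ, IsRM p W μ by
    rw [rm, dif_pos h1]
    exact h1.choose_spec
  obtain ⟨S, h1, h2⟩ := cover h
  have h3 : ∀ k, MeasurableSet (disjointed S k) :=
    MeasurableSet.disjointed fun k => (h1 k).1.measurableSet
  have h4 : ∀ A, MeasurableSet A → (Measure.sum fun k => ((volume.comap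
      ((S k).domRestrict p)).map Subtype.val).restrict (disjointed S k)) A =
        ∑' k, volume (p '' (A ∩ disjointed S k)) := fun A hA => by
    rw [Measure.sum_apply _ hA]
    refine tsum_congr fun k => ?_
    rw [Measure.restrict_apply hA, Measure.map_apply measurable_subtype_coe (hA.inter (h3 k)),
      (h1 k).2.2.1.comap_apply, img,
      inter_eq_left.2 (inter_subset_right.trans (disjointed_subset S k))]
  refine ⟨_, by
    rw [h4 _ h.opn.measurableSet.compl]
    refine ENNReal.tsum_eq_zero.2 fun k => ?_
    rw [(disjoint_compl_left.mono_right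
      ((disjointed_subset S k).trans (h1 k).2.1)).inter_eq, image_empty, measure_empty],
    fun A hA hW hi => ?_⟩
  rw [h4 A hA, ← measure_iUnion, ← image_iUnion, ← inter_iUnion, iUnion_disjointed, h2,
    inter_eq_left.2 hW]
  · exact fun k l hkl => ((disjoint_disjointed S hkl).mono inter_subset_right
      inter_subset_right).image hi inter_subset_left inter_subset_left
  · intro k
    rw [← inter_eq_left.2 (inter_subset_right.trans (disjointed_subset S k) :
      A ∩ disjointed S k ⊆ S k), ← img]
    exact (h1 k).2.2.1.measurableSet_image.2 (measurable_subtype_coe (hA.inter (h3 k)))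

lemma uniq (h : RD p W) (h1 : IsRM p W μ) (h2 : IsRM p W ν) : μ = ν := by
  obtain ⟨S, h3, h4⟩ := cover h
  rw [← Measure.restrict_eq_self_of_ae_mem (μ := μ) (s := W) h1.off,
    ← Measure.restrict_eq_self_of_ae_mem (μ := ν) (s := W) h2.off, ← h4,
    Measure.restrict_iUnion_congr]
  intro k
  ext A hA
  have h5 := hA.inter (h3 k).1.measurableSet
  have h6 := (inter_subset_right (s := A)).trans (h3 k).2.1
  have h7 := (injOn (h3 k).2.2.1).mono (inter_subset_right (s := A))
  rw [Measure.restrict_apply hA, Measure.restrict_apply hA, h1.inj _ h5 h6 h7, h2.inj _ h5 h6 h7]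

lemma emb (e : OpenPartialHomeomorph Y (E n)) : MeasurableEmbedding (e.target.domRestrict e.symm) :=
  e.symm.isOpenEmbedding_restrict.measurableEmbedding

lemma restr (h : IsRM p W μ) (he : Cht p W e) : μ.restrict e.source =
    (volume.comap Subtype.val).map (e.target.domRestrict e.symm) := by
  ext A hA
  rw [Measure.restrict_apply hA, h.inj _ (hA.inter e.open_source.measurableSet)
    (inter_subset_right.trans he.sub) ((he.eq.injOn_iff.2 e.injOn).mono inter_subset_right),
    (emb e).map_apply, (MeasurableEmbedding.subtype_coe e.open_target.measurableSet).comap_apply,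
    (he.eq.mono inter_subset_right).image_eq, inter_comm, e.image_source_inter_eq',
    domRestrict_eq, preimage_comp, Subtype.image_preimage_coe]

end RM

open RM in
theorem stRM : St_RM := by
  intro n D
  have h := isRM D.rd
  obtain ⟨S, h1, h2⟩ := cover D.rd
  have h3 : ∀ k, D.μ (S k) ≠ ∞ := fun k => by
    rw [h.inj _ (h1 k).1.measurableSet (h1 k).2.1 (injOn (h1 k).2.2.1)]
    exact (h1 k).2.2.2
  refine ⟨h, fun e he => ?_, fun e he f => ?_, fun e he f => ?_, fun e he f => ?_,
    fun W' ho hs => uniq (D.rd.mono ho hs) (isRM (D.rd.mono ho hs)) ⟨?_, fun A hA hW hi => ?_⟩,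
    fun K hK hW => (hK.measure_lt_top_of_nhdsWithin fun y hy => ?_).ne, fun O ho hW h0 => ?_,
    ⟨⟨⟨fun k => S k ∪ D.Wᶜ, fun _ => trivial, fun k => ?_, ?_⟩⟩⟩⟩
  · have h4 := e.continuousOn_symm.aemeasurable (μ := volume) e.open_target.measurableSet
    rw [← map_comap_subtype_coe e.open_target.measurableSet] at h4 ⊢
    rw [restr h he, h4.map_map_of_aemeasurable measurable_subtype_coe.aemeasurable]
    rfl
  · rw [restr h he, (emb e).lintegral_map,
      ← lintegral_subtype_comap e.open_target.measurableSet]
    rfl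
  · rw [restr h he, (emb e).integral_map, ← integral_subtype_comap e.open_target.measurableSet]
    rfl
  · rw [restr h he, (emb e).integral_map, ← integral_subtype_comap e.open_target.measurableSet]
    rfl
  · rw [Measure.restrict_apply ho.measurableSet.compl, compl_inter_self, measure_empty]
  · rw [Measure.restrict_apply hA, inter_eq_left.2 hW, h.inj A hA (hW.trans hs) hi]
  · obtain ⟨k, hk⟩ := mem_iUnion.1 (h2.ge (hW hy))
    exact ⟨S k, mem_nhdsWithin_of_mem_nhds ((h1 k).1.mem_nhds hk), (h3 k).lt_top⟩
  · refine eq_empty_of_forall_notMem fun y hy => ?_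
    obtain ⟨e, he, h4, h5⟩ := D.rd.exists_cht (hW hy) (ho.mem_nhds hy)
    refine e.open_target.measure_ne_zero volume ⟨_, e.map_source h4⟩ ?_
    rw [← e.image_source_eq_target, ← he.eq.image_eq, ← h.inj _ e.open_source.measurableSet he.sub
      (he.eq.injOn_iff.2 e.injOn)]
    exact measure_mono_null h5 h0
  · refine (measure_union_le _ _).trans_lt ?_
    rw [h.off, add_zero]
    exact (h3 k).lt_top
  · rw [← iUnion_union, h2, union_compl_self]

end Pool.Agent.Lib.SV
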