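import Pool.Agent.Lib.SV.Blue1

/-! Theorem of Weierstrass in several complex variables. -/

open scoped Classical Topology ENNReal
open Set MeasureTheory Complex Filter Metric

noncomputable section

namespace Pool.Agent.Lib.SV

namespace WEI

theorem fderiv_le {n : ℕ} {h : E n → ℂ} {z w : E n} {r e : ℝ} (hr : 0 < r)
    (hd : DifferentiableOn ℂ h (closedBall z (2 * r))) (hb : ∀ y ∈ closedBall z (2 * r), ‖h y‖ ≤ e)
    (hw : w ∈ ball z r) : ‖fderiv ℂ h w‖ ≤ 2 * e / r := by
  have hsub : ball w r ⊆ closedBall z (2 * r) := by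
    intro y hy
    rw [mem_ball] at hy hw
    rw [mem_closedBall]
    have := dist_triangle y w z
    linarith
  refine Complex.norm_fderiv_le_div_of_mapsTo_ball (hd.mono hsub) ?_ hr
  intro y hy
  rw [mem_closedBall, dist_eq_norm]
  have h1 := hb y (hsub hy)
  have h2 := hb w (hsub (mem_ball_self hr))
  have h3 := norm_sub_le (h y) (h w)
  linarith

end WEI

theorem stWEI : St_WEI := by
  intro n ι l _ U f g hU hf hfg z hz
  obtain ⟨R, hR, hRU⟩ := Metric.isOpen_iff.mp hU z hz
  set r : ℝ := R / 3 with hrdef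
  have hr : 0 < r := by positivity
  have hK : closedBall z (2 * r) ⊆ U :=
    (closedBall_subset_ball (by rw [hrdef]; linarith)).trans hRU
  have hbK : ball z r ⊆ closedBall z (2 * r) :=
    ball_subset_closedBall.trans (closedBall_subset_closedBall (by linarith))
  have hu : TendstoUniformlyOn f g l (closedBall z (2 * r)) :=
    (tendstoLocallyUniformlyOn_iff_forall_isCompact hU).mp hfg _ hK (isCompact_closedBall _ _)
  have hc : UniformCauchySeqOn (fun i w => fderiv ℂ (f i) w) l (ball z r) := by
    intro u hu'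
    obtain ⟨e, he, hee⟩ := Metric.mem_uniformity_dist.mp hu'
    have h1 := (Metric.tendstoUniformlyOn_iff.mp hu) (e * r / 8) (by positivity)
    filter_upwards [(h1.and hf).prod_mk (h1.and hf)] with m hm w hw
    obtain ⟨⟨a1, d1⟩, ⟨a2, d2⟩⟩ := hm
    apply hee
    have hwU : w ∈ U := hK (hbK hw)
    have e1 : DifferentiableAt ℂ (f m.1) w := d1.differentiableAt (hU.mem_nhds hwU)
    have e2 : DifferentiableAt ℂ (f m.2) w := d2.differentiableAt (hU.mem_nhds hwU)
    have hb : ∀ y ∈ closedBall z (2 * r), ‖(f m.1 - f m.2) y‖ ≤ e * r / 4 := by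
      intro y hy
      have b1 := a1 y hy
      have b2 := a2 y hy
      have b3 := dist_triangle_left (f m.1 y) (f m.2 y) (g y)
      rw [Pi.sub_apply, ← dist_eq_norm]
      linarith
    have := WEI.fderiv_le hr ((d1.sub d2).mono hK) hb hw
    rw [fderiv_sub e1 e2] at this
    rw [dist_eq_norm]
    have h4 : 2 * (e * r / 4) / r = e / 2 := by field_simp; ring
    rw [h4] at this
    linarith
  have hlim : ∀ w ∈ ball z r, ∃ a, Tendsto (fun i => fderiv ℂ (f i) w) l (𝓝 a) := by
    intro w hw
    exact cauchy_map_iff_exists_tendsto.mp (hc.cauchy_map hw)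
  choose! g' hg' using hlim
  have hun : TendstoUniformlyOn (fun i w => fderiv ℂ (f i) w) g' l (ball z r) :=
    hc.tendstoUniformlyOn_of_tendsto hg'
  have hnb : ball z r ∈ 𝓝 z := ball_mem_nhds z hr
  have hD : HasFDerivAt g (g' z) z := by
    refine hasFDerivAt_of_tendstoUniformlyOnFilter (l := l) (f := f)
      (f' := fun i w => fderiv ℂ (f i) w) ?_ ?_ ?_
    · exact hun.tendstoUniformlyOnFilter.mono_right (le_principal_iff.mpr hnb)
    · filter_upwards [hf.prod_mk (hU.mem_nhds hz)] with m hm
      exact (hm.1.differentiableAt (hU.mem_nhds hm.2)).hasFDerivAt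
    · filter_upwards [hnb] with y hy
      exact hu.tendsto_at (hbK hy)
  exact hD.differentiableAt.differentiableWithinAt

end Pool.Agent.Lib.SV
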