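import Pool.Agent.Lib.SV.HKit

/-! The Bochner inequality for test forms. -/

open scoped Classical Topology ENNReal ComplexConjugate
open Set MeasureTheory Complex Filter Metric

set_option linter.unusedVariables false

noncomputable section

namespace Pool.Agent.Lib.SV

theorem BOCH4.alg {n : ℕ} (x : Fin n → Fin n → ℂ) :
    (∑ j, ∑ k, x k j * conj (x j k)).re + (1 / 2) * ∑ j, ∑ k, normSq (x j k - x k j) =
      ∑ j, ∑ k, normSq (x j k) := by
  have h : ∑ j, ∑ k, normSq (x k j) = ∑ j, ∑ k, normSq (x j k) := Finset.sum_comm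
  have h2 : ∀ j k, normSq (x j k - x k j) =
      normSq (x j k) + normSq (x k j) - 2 * (x k j * conj (x j k)).re := fun j k => by
    simp only [normSq_apply, sub_re, sub_im, mul_re, conj_re, conj_im]; ring
  simp only [h2, Finset.sum_sub_distrib, Finset.sum_add_distrib, h, re_sum, ← Finset.mul_sum]
  ring

theorem stBOCH4 (hRM : St_RM) (hIBP : St_IBP) : St_BOCH := by
  intro n D Φ α hΦ hα
  set w : D.Y → ℂ := fun y => (Real.exp (-Φ y) : ℂ) with hw
  set d : D.Y → ℂ := fun y => dv D.p α y - ∑ j, dz D.p j (fun x => (Φ x : ℂ)) y * α j y with hd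
  have sw : ∀ y ∈ D.W, Sm D.p 1 w y := fun y hy => (hΦ y hy).neg.exp.ofReal.one
  have sΦ : ∀ j, ∀ y ∈ D.W, Sm D.p 1 (dz D.p j fun x => (Φ x : ℂ)) y :=
    fun j y hy => (hΦ y hy).ofReal.dz (D.rd.locH hy) j
  have sj : ∀ y ∈ D.W, ∀ j ∈ Finset.univ,
      Sm D.p 1 (fun y => dz D.p j (fun x => (Φ x : ℂ)) y * α j y) y :=
    fun y hy j _ => (sΦ j y hy).mul ((hα j).sm y).one
  have sd : ∀ y ∈ D.W, Sm D.p 1 d y := fun y hy => ((Tst.dv D.rd hα).sm y).sub (Sm.sum (sj y hy))
  have tA : ∀ k, Tst D.p D.W 1 fun y => d y * w y * conj (α k y) := fun k =>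
    (hα k).one.cj.mul_left fun y hy => (sd y hy).mul (sw y hy)
  have tB : ∀ j k, Tst D.p D.W 1 fun y => w y * dzb D.p k (α j) y * conj (α k y) := fun j k =>
    (hα k).one.cj.mul_left fun y hy => (sw y hy).mul (((hα j).dzb D.rd k).sm y)
  have iA := fun k => ((tA k).dzb D.rd k).integrable hRM
  have iB := fun j k => ((tB j k).dz D.rd j).integrable hRM
  have i1 := integrable_finsetSum Finset.univ fun k _ => iA k
  have i2 := integrable_finsetSum Finset.univ fun j _ =>
    integrable_finsetSum Finset.univ fun k _ => iB j k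
  have h0 := integral_sub i1 i2
  rw [integral_finsetSum _ fun k _ => iA k, integral_finsetSum _ fun j _ =>
    integrable_finsetSum Finset.univ fun k _ => iB j k] at h0
  simp only [integral_finsetSum _ fun k _ => iB _ k, int_dz hRM hIBP (tB _ _),
    int_dzb hRM hIBP (tA _), Finset.sum_const_zero, sub_zero] at h0
  have i3 : Integrable (fun y => (∑ j, ∑ k, normSq (dzb D.p j (α k) y)) * Real.exp (-Φ y)) D.μ := by
    have := (Tst.sum (s := Finset.univ) fun j _ => Tst.sum (s := Finset.univ) fun k _ =>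
      ((((hα k).dzb D.rd j).zero.mul_right fun y _ =>
        (((hα k).dzb D.rd j).cj.sm y).zero).clm reCLM)).mul_right
      (g := fun y => Real.exp (-Φ y)) fun y hy => (hΦ y hy).neg.exp.zero
    simpa only [reCLM_apply, mul_conj, ofReal_re] using this.integrable hRM
  have h1 := integral_add (i1.sub i2).re i3
  have h2 := integral_re (i1.sub i2)
  simp only [Pi.sub_apply, h0, map_zero] at h1 h2
  rw [h2, zero_add] at h1
  refine (integral_nonneg (f := fun y => (∑ j, ∑ k, normSq (dzb D.p j (α k) y)) *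
    Real.exp (-Φ y)) fun y => mul_nonneg (Finset.sum_nonneg fun _ _ => Finset.sum_nonneg
      fun _ _ => normSq_nonneg _) (Real.exp_pos _).le).trans_eq (h1.symm.trans ?_)
  refine integral_congr_ae ?_
  filter_upwards [ae_mem D hRM] with y hy
  have hl := D.rd.locH hy
  have a1 := fun j => ((hα j).sm y).one
  have e1 : ∀ j, dz D.p j w y = -(w y * dz D.p j (fun x => (Φ x : ℂ)) y) := fun j => by
    rw [hw, dz_exp (hΦ y hy).neg.one]
    simp only [ofReal_neg, dz_neg (hΦ y hy).one.ofReal, mul_neg]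
  have e2 : ∀ j, dzb D.p j w y = -(w y * conj (dz D.p j (fun x => (Φ x : ℂ)) y)) := fun j => by
    rw [hw, dzb_exp (hΦ y hy).neg.one]
    simp only [ofReal_neg, dzb_neg (hΦ y hy).one.ofReal, mul_neg, dzb_ofReal (hΦ y hy).one]
  have e3 : ∀ k, dzb D.p k d y = ∑ j, (dz D.p j (dzb D.p k (α j)) y -
      (dzb D.p k (dz D.p j fun x => (Φ x : ℂ)) y * α j y +
        dz D.p j (fun x => (Φ x : ℂ)) y * dzb D.p k (α j) y)) := fun k => by
    rw [hd, dzb_sub ((Tst.dv D.rd hα).sm y) (Sm.sum (sj y hy)), dzb_sum (sj y hy),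
      Finset.sum_sub_distrib]
    congr 1
    · refine (dzb_sum fun j _ => ((hα j).dz D.rd j).sm y).trans (Finset.sum_congr rfl fun j _ => ?_)
      exact (dz_dzb_comm hl ((hα j).sm y) j k).symm
    · exact Finset.sum_congr rfl fun j _ => dzb_mul (sΦ j y hy) (a1 j)
  have e4 : conj (d y) = ∑ k, (conj (dz D.p k (α k) y) -
      conj (dz D.p k (fun x => (Φ x : ℂ)) y) * conj (α k y)) := by
    simp only [hd, dv, map_sub, map_sum, map_mul, Finset.sum_sub_distrib]
  have key : ∑ k, dzb D.p k (fun y => d y * w y * conj (α k y)) y -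
      ∑ j, ∑ k, dz D.p j (fun y => w y * dzb D.p k (α j) y * conj (α k y)) y =
      w y * (d y * conj (d y) -
        ∑ j, ∑ k, dzb D.p k (dz D.p j fun x => (Φ x : ℂ)) y * α j y * conj (α k y) -
        ∑ j, ∑ k, dzb D.p k (α j) y * conj (dzb D.p j (α k) y)) := by
    rw [e4, Finset.sum_comm (f := fun j k => dz D.p j _ y), Finset.sum_comm (f := fun j k =>
      dzb D.p k (dz D.p j _) y * _ * _), Finset.sum_comm (f := fun j k => dzb D.p k (α j) y * _),
      Finset.mul_sum, ← Finset.sum_sub_distrib, ← Finset.sum_sub_distrib,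
      ← Finset.sum_sub_distrib, Finset.mul_sum]
    refine Finset.sum_congr rfl fun k _ => ?_
    rw [dzb_mul ((sd y hy).mul (sw y hy)) (a1 k).cj, dzb_mul (sd y hy) (sw y hy), dzb_conj (a1 k),
      e2, e3]
    have : ∀ j, dz D.p j (fun y => w y * dzb D.p k (α j) y * conj (α k y)) y =
        (dz D.p j (dzb D.p k (α j)) y - (dzb D.p k (dz D.p j fun x => (Φ x : ℂ)) y * α j y +
          dz D.p j (fun x => (Φ x : ℂ)) y * dzb D.p k (α j) y)) * (w y * conj (α k y)) +
        w y * (dzb D.p k (dz D.p j fun x => (Φ x : ℂ)) y * α j y * conj (α k y)) +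
        w y * (dzb D.p k (α j) y * conj (dzb D.p j (α k) y)) := fun j => by
      have b := ((hα j).dzb D.rd k).sm y
      rw [dz_mul ((sw y hy).mul b) (a1 k).cj, dz_mul (sw y hy) b, dz_conj (a1 k), e1]
      ring
    simp only [this, Finset.sum_add_distrib, ← Finset.sum_mul, ← Finset.mul_sum]
    ring
  simp only [RCLike.re_to_complex]
  rw [key, bq, lev_eq_sum hl (hΦ y hy), ← BOCH4.alg fun j k => dzb D.p j (α k) y, hw]
  simp only [re_ofReal_mul, sub_re, mul_conj, ofReal_re, cu, hd]
  ring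

end Pool.Agent.Lib.SV
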