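import Pool.Agent.Lib.SV.H_CORE2

/-! The estimate of Hörmander in dual form, part 3: choice of the weights; the theorem for a
`C^2` weight. -/

open scoped Classical Topology ENNReal ComplexConjugate
open Set MeasureTheory Complex Filter Metric

set_option linter.unusedVariables false
set_option linter.unusedSectionVars false

noncomputable section

namespace Pool.Agent.Lib.SV

namespace CORE

theorem lev_comp' {n : ℕ} {Y : Type} [TopologicalSpace Y] {p : Y → E n} {y : Y} {f : Y → ℝ}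
    (h : LocH p y) (hf : Sm p 2 f y) {u u' : ℝ → ℝ} {c : ℝ} (hu : ContDiffAt ℝ 2 u (f y))
    (h1 : ∀ᶠ t in 𝓝 (f y), HasDerivAt u (u' t) t) (h2 : HasDerivAt u' c (f y)) (v : E n) :
    lev p (fun x => u (f x)) y v = u' (f y) * lev p f y v + c * grd p f y v := by
  have e : deriv u =ᶠ[𝓝 (f y)] u' := h1.mono fun t ht => ht.deriv
  rw [lev_comp h hf hu, e.deriv_eq, e.self_of_nhds, h2.deriv]

theorem exists_lip : ∃ L, ∀ t, |deriv Real.smoothTransition t| ≤ L := by
  have hc : Continuous (deriv Real.smoothTransition) :=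
    (Real.smoothTransition.contDiff (n := 1)).continuous_deriv le_rfl
  refine hc.bounded_above_of_compact_support (HasCompactSupport.intro (isCompact_Icc (a := 0) (b := 1))
    fun t ht => ?_)
  rcases not_and_or.1 ht with h | h
  · have : Real.smoothTransition =ᶠ[𝓝 t] fun _ => 0 := by
      filter_upwards [Iio_mem_nhds (not_le.1 h)] with x hx
      exact Real.smoothTransition.zero_of_nonpos (le_of_lt hx)
    rw [this.deriv_eq, deriv_const]
  · have : Real.smoothTransition =ᶠ[𝓝 t] fun _ => 1 := by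
      filter_upwards [Ioi_mem_nhds (not_le.1 h)] with x hx
      exact Real.smoothTransition.one_of_one_le (le_of_lt hx)
    rw [this.deriv_eq, deriv_const]

theorem inv_deriv {a t : ℝ} (h : t < a) : HasDerivAt (fun t => (a - t)⁻¹) ((a - t)⁻¹ ^ 2) t := by
  have := ((hasDerivAt_id t).const_sub a).inv (sub_pos.2 h).ne'
  simp only [id, neg_neg, one_div, ← inv_pow] at this
  exact this

variable {n : ℕ} {D : Dom n}

theorem core_s (hRM : St_RM) (hI : St_IBP) (hW : St_WAP) {s φ h : D.Y → ℝ} {G : D.Y → ℂ}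
    {α : Fin n → D.Y → ℂ} {a B : ℝ} [IsFiniteMeasure D.μ]
    (H : ∀ y ∈ D.W, s y < a ∧ Psh D.p s y ∧ Sm D.p 2 G y ∧ Psh D.p φ y ∧ 0 ≤ h y ∧
      (∀ v, ‖dbar D.p G y v‖ ^ 2 ≤ h y * lev D.p φ y v) ∧ -B ≤ φ y ∧
      ∀ i, ‖dz D.p i (fun x => (s x : ℂ)) y‖ ≤ B ∧ ‖dzb D.p i G y‖ ≤ B)
    (hc : ∀ b < a, IsCompact {y | y ∈ D.W ∧ s y ≤ b})
    (hm : Integrable (fun y => h y * Real.exp (-φ y)) D.μ) (hα : ∀ j, Tst D.p D.W 2 (α j)) :
    ‖∫ y, ∑ j, conj (dzb D.p j G y) * α j y ∂D.μ‖ ^ 2 ≤ 4 * (∫ y, h y * Real.exp (-φ y) ∂D.μ) *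
      ∫ y, ‖dv D.p α y‖ ^ 2 * Real.exp (φ y + (a - s y)⁻¹ ^ 2) ∂D.μ := by
  obtain ⟨L, hL⟩ := exists_lip
  set ψ : D.Y → ℝ := fun y => (a - s y)⁻¹ with hψ
  have p0 : ∀ y ∈ D.W, 0 < ψ y := fun y hy => inv_pos.2 (sub_pos.2 (H y hy).1)
  have ci : ∀ y ∈ D.W, ContDiffAt ℝ 2 (fun t => (a - t)⁻¹) (s y) := fun y hy =>
    (contDiffAt_const.sub contDiffAt_id).inv (sub_pos.2 (H y hy).1).ne'
  have sψ : ∀ y ∈ D.W, Sm D.p 2 ψ y := fun y hy =>
    Sm.comp' (g := fun t => (a - t)⁻¹) (ci y hy) (H y hy).2.1.1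
  have lψ : ∀ y ∈ D.W, ∀ v, 0 ≤ lev D.p ψ y v := fun y hy v => by
    rw [hψ, lev_comp' (D.rd.locH hy) (H y hy).2.1.1 (ci y hy)
      ((eventually_lt_nhds (H y hy).1).mono fun t ht => inv_deriv ht)
      ((inv_deriv (H y hy).1).pow 2)]
    have := p0 y hy
    have := (H y hy).2.1.2 v
    have := grd_nonneg (p := D.p) (f := s) (y := y) v
    positivity
  set u : D.Y → ℝ := fun y => (φ y + ψ y + ψ y * ψ y) * (1 / 2) with hu
  have su : ∀ y ∈ D.W, Sm D.p 2 u y := fun y hy =>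
    (((H y hy).2.2.2.1.1.add (sψ y hy)).add ((sψ y hy).mul (sψ y hy))).mul (sm_const _)
  have lΦ : ∀ y ∈ D.W, ∀ v, lev D.p φ y v ≤
      lev D.p (fun x => 2 * u x + ψ x) y v - 2 * grd D.p ψ y v := fun y hy v => by
    have ck : ContDiffAt ℝ 2 (fun t : ℝ => 2 * t + t ^ 2) (ψ y) := by fun_prop
    have e : (fun x => 2 * u x + ψ x) = fun x => φ x + (2 * ψ x + ψ x ^ 2) := by
      funext x; simp only [hu]; ring
    rw [e, lev_add (H y hy).2.2.2.1.1 ((sψ y hy).comp' ck), lev_comp' (D.rd.locH hy) (sψ y hy) ck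
      (u' := fun t => 2 + 2 * t) (c := 2) (Eventually.of_forall fun t => by
        simpa using ((hasDerivAt_id t).const_mul 2).fun_add (hasDerivAt_pow 2 t))
      (by simpa using ((hasDerivAt_id (ψ y)).const_mul 2).const_add 2)]
    have := mul_nonneg (show 0 ≤ 2 + 2 * ψ y by linarith [p0 y hy]) (lψ y hy v)
    linarith
  set η : ℕ → D.Y → ℝ := fun k y =>
    if y ∈ D.W then Real.smoothTransition (k + 1 - ψ y) else 0 with hη
  have eη : ∀ k, ∀ y ∈ D.W, η k =ᶠ[𝓝 y] fun x => Real.smoothTransition (k + 1 - ψ x) :=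
    fun k y hy => by
      filter_upwards [D.rd.opn.mem_nhds hy] with x hx using if_pos hx
  have sη : ∀ k : ℕ, ∀ y ∈ D.W, Sm D.p 2 (fun x => Real.smoothTransition (k + 1 - ψ x)) y :=
    fun k y hy => ((sm_const _).sub (sψ y hy)).comp' Real.smoothTransition.contDiff.contDiffAt
  have key := core_w hRM hI hW (u := u) (ψ := ψ) (h := h) (η := η) (C := 8 * (L * B)) su sψ
    (fun y hy => (H y hy).2.2.1) (fun y hy => ?_) hm (fun j => ?_) hα (fun k => ?_) (fun k y => ?_)
    (fun y hy => ?_) fun k y hy i => ?_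
  · refine key.trans_eq ?_
    congr 2
    funext y
    congr 2
    simp only [hu, hψ]; ring
  · obtain ⟨-, -, -, h1, h2, h3, -⟩ := H y hy
    refine ⟨h2, mul_le_mul_of_nonneg_left (Real.exp_le_exp.2 ?_) h2, fun v =>
      ⟨(h1.2 v).trans (lΦ y hy v), (h3 v).trans (mul_le_mul_of_nonneg_left (lΦ y hy v) h2)⟩⟩
    simp only [hu]
    nlinarith [mul_self_nonneg (ψ y)]
  · refine MemLp.of_bound (aesm_of_sm D hRM (k := 0) fun y hy =>
      (sm_ex (su y hy).neg).zero.mul ((H y hy).2.2.1.dzb (D.rd.locH hy) j).zero)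
      (Real.exp (B / 2) * B) ?_
    filter_upwards [ae_mem D hRM] with y hy
    rw [norm_mul, ex, norm_real, Real.norm_eq_abs, abs_of_pos (Real.exp_pos _)]
    refine mul_le_mul (Real.exp_le_exp.2 ?_) ((H y hy).2.2.2.2.2.2.2 j).2 (norm_nonneg _)
      (Real.exp_pos _).le
    simp only [hu]
    nlinarith [mul_self_nonneg (ψ y), p0 y hy, (H y hy).2.2.2.2.2.2.1]
  · have hk : (0 : ℝ) < k + 1 := by positivity
    refine ⟨fun y hy => (sη k y hy).congr' (eη k y hy), _,
      hc (a - ((k : ℝ) + 1)⁻¹) (sub_lt_self _ (inv_pos.2 hk)), fun y hy => hy.1, fun y hy => ?_⟩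
    simp only [hη]
    split_ifs with hy'
    · refine Real.smoothTransition.zero_of_nonpos (sub_nonpos.2 ?_)
      have h1 : a - s y ≤ (k + 1 : ℝ)⁻¹ := by
        have := not_le.1 fun h => hy ⟨hy', h⟩
        linarith
      exact le_inv_of_le_inv₀ (sub_pos.2 (H y hy').1) h1
    · rfl
  · simp only [hη]
    split_ifs
    · exact pow_le_one₀ (Real.smoothTransition.nonneg _) (Real.smoothTransition.le_one _)
    · norm_num
  · filter_upwards [tendsto_natCast_atTop_atTop.eventually_ge_atTop (ψ y + 1)] with k hk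
    filter_upwards [eη k y hy, ((sψ y hy).continuousAt (D.rd.locH hy)).eventually
      (eventually_lt_nhds (lt_add_one (ψ y)))] with x h1 h2
    rw [h1]
    exact Real.smoothTransition.one_of_one_le (by linarith)
  · have d1 : HasDerivAt (fun t => Real.smoothTransition (k + 1 - t))
        (deriv Real.smoothTransition (k + 1 - ψ y) * -1) (ψ y) :=
      ((Real.smoothTransition.contDiff (n := 1)).differentiable (by simp) _).hasDerivAt.comp _
        ((hasDerivAt_id (ψ y)).const_sub _)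
    have e1 := (dz_congr (p := D.p) (j := i) ((eη k y hy).fun_comp ofReal)).trans
      (dz_comp (sψ y hy).one d1 (sη k y hy).one)
    have e2 : dz D.p i (fun x => (ψ x : ℂ)) y = _ :=
      dz_comp (H y hy).2.1.1.one (inv_deriv (H y hy).1) (sψ y hy).one
    rw [show dz D.p i (fun x => (η k x : ℂ)) y = _ from e1, e2, norm_mul, norm_mul, norm_mul, ex,
      norm_real, norm_real, norm_real, Real.norm_eq_abs, Real.norm_eq_abs, Real.norm_eq_abs,
      abs_of_pos (Real.exp_pos _), mul_neg_one, abs_neg, abs_of_nonneg (sq_nonneg (a - s y)⁻¹)]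
    have b1 := ((H y hy).2.2.2.2.2.2.2 i).1
    have b2 : Real.exp (-ψ y / 2) * ψ y ^ 2 ≤ 8 := by
      have := Real.quadratic_le_exp_of_nonneg (x := ψ y / 2) (by linarith [p0 y hy])
      rw [neg_div, Real.exp_neg, inv_mul_le_iff₀ (Real.exp_pos _)]
      nlinarith [p0 y hy]
    calc _ = Real.exp (-ψ y / 2) * ψ y ^ 2 * (|deriv Real.smoothTransition (k + 1 - ψ y)| *
          ‖dz D.p i (fun x => (s x : ℂ)) y‖) := by simp only [hψ]; ring
      _ ≤ 8 * (L * B) := mul_le_mul b2 (mul_le_mul (hL _) b1 (norm_nonneg _)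
          ((abs_nonneg _).trans (hL 0))) (by positivity) (by norm_num)

/-- The Riemann domain given by an open subset. -/
@[reducible] def sub (D : Dom n) (O : Set D.Y) (ho : IsOpen O) (hs : O ⊆ D.W) : Dom n where
  Y := D.Y
  p := D.p
  W := O
  rd := D.rd.mono ho hs

end CORE

open CORE

theorem stHOR0_of (hRM : St_RM) (hI : St_IBP) (hW : St_WAP) (hR : St_RIE) : St_HOR0 := by
  intro n D s G φ h hs H hh hM
  refine hR n D G φ _ (ENNReal.mul_ne_top (by simp) hM)
    (fun y hy => ⟨(H y hy).1, (H y hy).2.1.1⟩) fun α hα => ?_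
  obtain ⟨K, hK, hKW, h0⟩ := Tst.common hα
  have cs := contOn_of_sm D hs.sm
  obtain ⟨b, hb⟩ := hK.exists_bound_of_continuousOn (cs.mono hKW)
  set a := b + 2 with ha
  set O := {y | y ∈ D.W ∧ s y < a} with hO
  have ho : IsOpen O := cs.isOpen_inter_preimage D.rd.opn isOpen_Iio
  have hOW : O ⊆ D.W := fun y hy => hy.1
  have hKb : ∀ y ∈ K, s y ≤ b := fun y hy => (le_abs_self _).trans (hb y hy)
  have hKO : K ⊆ O := fun y hy => ⟨hKW hy, by linarith [hKb y hy]⟩
  have hμ : (sub D O ho hOW).μ = D.μ.restrict O := (hRM n D).2.2.2.2.2.1 O ho hOW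
  have cg : ContinuousOn (fun y => ∑ i, (‖dz D.p i (fun x => (s x : ℂ)) y‖ + ‖dzb D.p i G y‖) +
      |φ y|) D.W :=
    (continuousOn_finsetSum _ fun i _ =>
      (contOn_of_sm D fun y hy => (hs.sm y hy).ofReal.dz (D.rd.locH hy) i).norm.add
      (contOn_of_sm D fun y hy => (H y hy).1.dzb (D.rd.locH hy) i).norm).add
      (contOn_of_sm D fun y hy => (H y hy).2.1.1).abs
  obtain ⟨B, hB⟩ := (hs.cpt a).exists_bound_of_continuousOn (cg.mono fun y hy => hy.1)
  have hm0 : 0 ≤ᵐ[D.μ] fun y => h y * Real.exp (-φ y) := by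
    filter_upwards [ae_mem D hRM] with y hy using mul_nonneg (H y hy).2.2.1 (Real.exp_pos _).le
  have hm : Integrable (fun y => h y * Real.exp (-φ y)) D.μ :=
    ⟨hh.aestronglyMeasurable.mul (aesm_of_sm D hRM fun y hy => (H y hy).2.1.1.neg.exp),
      (hasFiniteIntegral_iff_ofReal hm0).2 hM.lt_top⟩
  have : IsFiniteMeasure (sub D O ho hOW).μ := ⟨by
    rw [hμ, Measure.restrict_apply_univ]
    exact (measure_mono (t := {y | y ∈ D.W ∧ s y ≤ a}) fun y hy => ⟨hy.1, hy.2.le⟩).trans_lt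
      ((hRM n D).2.2.2.2.2.2.1 _ (hs.cpt a) fun y hy => hy.1).lt_top⟩
  have key := core_s (D := sub D O ho hOW) hRM hI hW (s := s) (φ := φ) (h := h) (G := G) (α := α)
    (a := a) (B := B) (fun y hy => ?_) (fun c hc => ?_) (by rw [hμ]; exact hm.restrict)
    fun j => ⟨fun y _ => (hα j).sm y, K, hK, hKO, h0 j⟩
  · have hd0 : ∀ y ∉ K, dv D.p α y = 0 := fun y hy =>
      Finset.sum_eq_zero fun j _ => dz_off hK (h0 j) hy j
    have hδ := Tst.dv D.rd hα
    have hT : Integrable (fun y => ‖dv D.p α y‖ ^ 2 * Real.exp (φ y)) D.μ := by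
      have := ((hδ.zero.mul_right fun y _ => (hδ.cj.sm y).zero).clm reCLM).mul_right
        (g := fun y => Real.exp (φ y)) fun y hy => (H y hy).2.1.1.exp.zero
      refine (this.integrable hRM).congr (Eventually.of_forall fun y => ?_)
      simp only [reCLM_apply, mul_conj, ofReal_re, normSq_eq_norm_sq]
    rw [hμ, setIntegral_eq_integral_of_forall_compl_eq_zero fun y hy =>
      Finset.sum_eq_zero fun j _ => by rw [h0 j y fun h => hy (hKO h), mul_zero]] at key
    have k1 : ∫ y in O, h y * Real.exp (-φ y) ∂D.μ ≤ ∫ y, h y * Real.exp (-φ y) ∂D.μ :=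
      setIntegral_le_integral hm hm0
    have k2 : ∫ y in O, ‖dv D.p α y‖ ^ 2 * Real.exp (φ y + (a - s y)⁻¹ ^ 2) ∂D.μ ≤
        2 * ∫ y, ‖dv D.p α y‖ ^ 2 * Real.exp (φ y) ∂D.μ := by
      rw [setIntegral_eq_integral_of_forall_compl_eq_zero fun y hy => by
        rw [hd0 y fun h => hy (hKO h)]; simp, ← integral_const_mul]
      refine integral_mono_of_nonneg (Eventually.of_forall fun y => by positivity) (hT.const_mul 2)
        (Eventually.of_forall fun y => ?_)
      by_cases hy : y ∈ K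
      · have h1 : (a - s y)⁻¹ ≤ 2⁻¹ := inv_anti₀ (by norm_num) (by linarith [hKb y hy])
        have h2 : 0 ≤ (a - s y)⁻¹ := inv_nonneg.2 (by linarith [hKb y hy])
        have h3 : Real.exp ((a - s y)⁻¹ ^ 2) ≤ 2 :=
          (Real.exp_le_exp.2 (by nlinarith)).trans
            ((Real.exp_bound_div_one_sub_of_interval' (x := 1 / 2) (by norm_num)
              (by norm_num)).le.trans (by norm_num))
        have h4 : 0 ≤ ‖dv D.p α y‖ ^ 2 * Real.exp (φ y) := by positivity
        simp only [Real.exp_add]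
        nlinarith
      · simp [hd0 y hy]
    have k3 : 0 ≤ ∫ y, h y * Real.exp (-φ y) ∂D.μ := integral_nonneg_of_ae hm0
    have k4 : 0 ≤ ∫ y, ‖dv D.p α y‖ ^ 2 * Real.exp (φ y) ∂D.μ :=
      integral_nonneg fun y => by positivity
    rw [← ofReal_integral_eq_lintegral_ofReal hm hm0, ← ofReal_integral_eq_lintegral_ofReal hT
      (Eventually.of_forall fun y => by positivity), ← ENNReal.ofReal_ofNat,
      ← ENNReal.ofReal_mul (by norm_num), ← ENNReal.ofReal_mul (by positivity)]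
    refine ENNReal.ofReal_le_ofReal (key.trans ((mul_le_mul (mul_le_mul_of_nonneg_left k1
      (by norm_num)) k2 (integral_nonneg fun y => by positivity) (by positivity)).trans ?_))
    nlinarith [mul_nonneg k3 k4]
  · have h1 := (le_abs_self _).trans (hB y ⟨hy.1, hy.2.le⟩)
    have h2 : ∀ i, ‖dz D.p i (fun x => (s x : ℂ)) y‖ + ‖dzb D.p i G y‖ ≤ _ := fun i =>
      Finset.single_le_sum (f := fun i => ‖dz D.p i (fun x => (s x : ℂ)) y‖ + ‖dzb D.p i G y‖)
        (fun _ _ => by positivity) (Finset.mem_univ i)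
    have h3 : 0 ≤ ∑ i, (‖dz D.p i (fun x => (s x : ℂ)) y‖ + ‖dzb D.p i G y‖) :=
      Finset.sum_nonneg fun _ _ => by positivity
    obtain ⟨g1, g2, g3, g4⟩ := H y hy.1
    refine ⟨hy.2, ⟨hs.sm y hy.1, fun v => ?_⟩, g1, g2, g3, g4, by linarith [neg_abs_le (φ y)],
      fun i => ⟨?_, ?_⟩⟩
    · by_cases hv : v = 0
      · rw [hv, lev_zero]
      · exact (hs.pos y hy.1 v hv).le
    · linarith [h2 i, abs_nonneg (φ y), norm_nonneg (dzb D.p i G y)]
    · linarith [h2 i, abs_nonneg (φ y), norm_nonneg (dz D.p i (fun x => (s x : ℂ)) y)]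
  · have : {y | y ∈ O ∧ s y ≤ c} = {y | y ∈ D.W ∧ s y ≤ c} :=
      Set.ext fun y => ⟨fun h => ⟨h.1.1, h.2⟩, fun h => ⟨⟨h.1, h.2.trans_lt hc⟩, h.2⟩⟩
    exact this ▸ hs.cpt c

end Pool.Agent.Lib.SV
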