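import Pool.Agent.Lib.SV.HBlue
import Pool.Agent.Lib.MP_6c3a95_mp.Moll

/-! Approximation of weak data by test forms. -/

open scoped Classical Topology ENNReal Convolution
open Set MeasureTheory Complex Filter Metric

set_option linter.unusedVariables false

noncomputable section

namespace Pool.Agent.Lib.SV

namespace MOLL

open Pool.Agent.Lib.MP_6c3a95_mp (mol rho bump mol_cv rho_test Test)

variable {n : ℕ}

/-- Functionals on real derivatives. -/
abbrev Fn (n : ℕ) : Type := (E n →L[ℝ] ℂ) →L[ℝ] ℂ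

/-- Complex homogeneity. -/
def Hom (T : Fn n) : Prop := ∀ (c : ℂ) (L : E n →L[ℝ] ℂ), T (c • L) = c * T L

section euc

variable {F : E n → ℂ} {ρ : E n → ℝ}

/-- Mollification of a complex function. -/
def mc (F : E n → ℂ) (ρ : E n → ℝ) : E n → ℂ :=
  F ⋆[(ContinuousLinearMap.lsmul ℝ ℝ).flip, volume] ρ

theorem mc_eq (z : E n) : mc F ρ z = ∫ t, (ρ (z - t) : ℂ) * F t := by
  simp [mc, convolution_def]

theorem int_mul {u : E n → ℂ} (hu : Continuous u) (hc : HasCompactSupport u)
    (hF : MemLp F 2 volume) (z : E n) : Integrable (fun t => u (z - t) * F t) :=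
  ((hu.comp (continuous_const.sub continuous_id)).memLp_of_hasCompactSupport (p := 2)
    (hc.comp_homeomorph (Homeomorph.subLeft z))).integrable_mul hF

theorem int_rho (hF : MemLp F 2 volume) (hρ : Test ρ) (z : E n) :
    Integrable (fun t => (ρ (z - t) : ℂ) * F t) :=
  int_mul (u := fun t => (ρ t : ℂ)) (continuous_ofReal.comp hρ.smooth.continuous)
    (hρ.cpt.comp_left (g := fun x : ℝ => (x : ℂ)) rfl) hF z

theorem int_T (hF : MemLp F 2 volume) (hρ : Test ρ) (T : Fn n) (z : E n) :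
    Integrable (fun t => T (ofRealCLM.comp (fderiv ℝ ρ (z - t))) * F t) :=
  int_mul (u := fun t => T (ofRealCLM.comp (fderiv ℝ ρ t)))
    (T.continuous.comp (continuous_const.clm_comp (hρ.smooth.continuous_fderiv (by simp))))
    ((hρ.cpt.fderiv ℝ).comp_left (g := fun L => T (ofRealCLM.comp L)) (by simp)) hF z

theorem mc_smooth (hF : MemLp F 2 volume) (hρ : Test ρ) : ContDiff ℝ (2 : ℕ) (mc F ρ) :=
  hρ.cpt.contDiff_convolution_right (n := (2 : ℕ)) _ (hF.locallyIntegrable (by norm_num))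
    (hρ.smooth.of_le (by norm_cast))

theorem mc_T (hF : MemLp F 2 volume) (hρ : Test ρ) {T : Fn n} (hT : Hom T) (z : E n) :
    T (fderiv ℝ (mc F ρ) z) = ∫ t, T (ofRealCLM.comp (fderiv ℝ ρ (z - t))) * F t := by
  have hl := hF.locallyIntegrable (by norm_num)
  have h1 : ContDiff ℝ 1 ρ := hρ.smooth.of_le (by norm_cast)
  have h := hρ.cpt.hasFDerivAt_convolution_right
    (ContinuousLinearMap.lsmul ℝ ℝ : ℝ →L[ℝ] ℂ →L[ℝ] ℂ).flip hl h1 z
  have hi := (hρ.cpt.fderiv ℝ).convolutionExists_right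
    ((ContinuousLinearMap.lsmul ℝ ℝ : ℝ →L[ℝ] ℂ →L[ℝ] ℂ).flip.precompR (E n)) hl
    (h1.continuous_fderiv (by simp)) z
  rw [mc, h.fderiv, convolution_def, ← T.integral_comp_comm hi]
  refine integral_congr_ae (Eventually.of_forall fun t => ?_)
  simp only
  rw [mul_comm, ← hT]
  refine congrArg T (ContinuousLinearMap.ext fun v => ?_)
  simp [mul_comm]

theorem mc_cv (hF : MemLp F 2 volume) :
    Tendsto (fun m => eLpNorm (fun z => mc F (rho volume m) z - F z) 2 volume) atTop (𝓝 0) := by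
  have h1 := mol_cv (μ := volume) hF.re
  have h2 := mol_cv (μ := volume) hF.im
  have h3 := h1.tend.add h2.tend
  rw [add_zero] at h3
  refine tendsto_of_tendsto_of_tendsto_of_le_of_le tendsto_const_nhds h3 (fun _ => zero_le)
    fun m => ?_
  have a1 := ((h1.mem m).sub h1.lim).1.norm
  have a2 := ((h2.mem m).sub h2.lim).1.norm
  refine le_trans ?_ ((eLpNorm_add_le a1 a2 one_le_two).trans_eq ?_)
  · refine eLpNorm_mono_real fun z => (norm_le_abs_re_add_abs_im _).trans_eq ?_
    have hi := int_rho hF (rho_test (μ := volume) m) z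
    have e1 := reCLM.integral_comp_comm hi
    have e2 := imCLM.integral_comp_comm hi
    simp only [reCLM_apply, imCLM_apply, re_ofReal_mul, im_ofReal_mul] at e1 e2
    rw [sub_re, sub_im, mc_eq, ← e1, ← e2]
    simp [mol, mul_comm]
  · rw [eLpNorm_norm, eLpNorm_norm]

theorem mc_zero {A : Set (E n)} (hA : ∀ t ∉ A, F t = 0) {m : ℕ} {δ : ℝ} (hm : 1 / ((m : ℝ) + 1) ≤ δ)
    {z : E n} (hz : z ∉ cthickening δ A) : mc F (rho volume m) z = 0 := by
  rw [mc_eq]
  refine integral_eq_zero_of_ae (Eventually.of_forall fun t => ?_)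
  by_cases ht : t ∈ A
  · have : z - t ∉ Function.support (rho volume m) := by
      rw [rho, ContDiffBump.support_normed_eq, mem_ball_zero_iff, ← dist_eq_norm]
      exact fun h => hz (mem_cthickening_of_dist_le z t δ A ht (h.le.trans hm))
    simp [Function.notMem_support.1 this]
  · simp [hA t ht]

end euc

theorem dd_off {Y : Type} [TopologicalSpace Y] {p : Y → E n} {f : Y → ℂ} {K : Set Y}
    (hK : IsClosed K) (hf : ∀ y ∉ K, f y = 0) {y : Y} (hy : y ∉ K) : dd p f y = 0 := by
  by_cases h : LocH p y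
  · rw [dd_congr h (g := fun _ => 0)]
    · exact fderiv_const_apply 0
    · filter_upwards [hK.isOpen_compl.mem_nhds hy] with x hx using hf x hx
  · have : lift p y = fun _ => y := dif_neg h
    rw [dd, this]
    exact fderiv_const_apply (f y)

variable {D : Dom n} {ι : Type} {T : ι → Fin n → Fn n} {K : Set D.Y} {α α' : Fin n → D.Y → ℂ}
  {G G' : ι → D.Y → ℂ}

/-- A first order operator. -/
def op (D : Dom n) (T : Fin n → Fn n) (β : Fin n → D.Y → ℂ) (y : D.Y) : ℂ :=
  ∑ j, T j (dd D.p (β j) y)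

/-- Weak solutions. -/
structure Wk (D : Dom n) (T : ι → Fin n → Fn n) (K : Set D.Y) (α : Fin n → D.Y → ℂ)
    (G : ι → D.Y → ℂ) : Prop where
  cpt : IsCompact K
  sub : K ⊆ D.W
  mα : ∀ j, MemLp (α j) 2 D.μ
  mG : ∀ i, MemLp (G i) 2 D.μ
  oα : ∀ j, ∀ y ∉ K, α j y = 0
  oG : ∀ i, ∀ y ∉ K, G i y = 0
  eq : ∀ θ : D.Y → ℂ, Tst D.p D.W 2 θ → ∀ i,
    ∫ y, (θ y * G i y + ∑ j, T i j (dd D.p θ y) * α j y) ∂D.μ = 0

/-- Convergence to zero in the mean square. -/
def Cz (D : Dom n) (f : ℕ → D.Y → ℂ) : Prop :=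
  (∀ m, AEStronglyMeasurable (f m) D.μ) ∧ Tendsto (fun m => eLpNorm (f m) 2 D.μ) atTop (𝓝 0)

theorem Cz.add {f g h : ℕ → D.Y → ℂ} (hf : Cz D f) (hg : Cz D g)
    (e : ∀ m y, h m y = f m y + g m y) : Cz D h := by
  obtain rfl : h = fun m => f m + g m := funext fun m => funext fun y => e m y
  refine ⟨fun m => (hf.1 m).add (hg.1 m), ?_⟩
  have h3 := hf.2.add hg.2
  rw [add_zero] at h3
  exact tendsto_of_tendsto_of_tendsto_of_le_of_le tendsto_const_nhds h3 (fun _ => zero_le)
    fun m => eLpNorm_add_le (hf.1 m) (hg.1 m) one_le_two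

/-- Approximation by test forms. -/
def Ap (D : Dom n) (T : ι → Fin n → Fn n) (α : Fin n → D.Y → ℂ) (G : ι → D.Y → ℂ) : Prop :=
  ∃ K', IsCompact K' ∧ K' ⊆ D.W ∧ ∃ β : ℕ → Fin n → D.Y → ℂ,
    (∀ m j, ∀ y ∈ D.W, Sm D.p 2 (β m j) y) ∧ (∀ m j, ∀ y ∉ K', β m j y = 0) ∧
    (∀ j, Cz D fun m y => β m j y - α j y) ∧ ∀ i, Cz D fun m y => op D (T i) (β m) y - G i y

theorem Ap.zero : Ap D T 0 0 := by
  have z : ∀ f : ℕ → D.Y → ℂ, (∀ m y, f m y = 0) → Cz D f := fun f hf => by
    obtain rfl : f = fun _ _ => 0 := funext fun m => funext fun y => hf m y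
    exact ⟨fun _ => aestronglyMeasurable_const, by simp⟩
  refine ⟨∅, isCompact_empty, empty_subset _, fun _ _ _ => 0, fun _ _ _ _ => sm_const _,
    fun _ _ _ _ => rfl, fun j => z _ fun _ _ => by simp, fun i => z _ fun m y => ?_⟩
  simp [op, dd_off (p := D.p) (f := fun _ => 0) isClosed_empty (fun _ _ => rfl) (notMem_empty y)]

theorem Ap.add (h : Ap D T α G) (h' : Ap D T α' G') : Ap D T (α + α') (G + G') := by
  obtain ⟨K, c, s, β, h1, h2, h3, h4⟩ := h
  obtain ⟨K', c', s', β', g1, g2, g3, g4⟩ := h'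
  have o : ∀ m j, ∀ y ∉ K ∪ K', β m j y + β' m j y = 0 := fun m j y hy => by
    rw [h2 m j y fun h => hy (Or.inl h), g2 m j y fun h => hy (Or.inr h), add_zero]
  refine ⟨K ∪ K', c.union c', union_subset s s', fun m j y => β m j y + β' m j y,
    fun m j y hy => (h1 m j y hy).add (g1 m j y hy), o,
    fun j => (h3 j).add (g3 j) fun m y => ?_, fun i => (h4 i).add (g4 i) fun m y => ?_⟩
  · simp only [Pi.add_apply]
    ring
  · have : ∀ j, dd D.p (fun y => β m j y + β' m j y) y = dd D.p (β m j) y + dd D.p (β' m j) y := by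
      intro j
      by_cases hy : y ∈ D.W
      · exact fderiv_fun_add (h1 m j y hy).differentiableAt (g1 m j y hy).differentiableAt
      · rw [dd_off (c.union c').isClosed (o m j) fun h => hy (union_subset s s' h),
          dd_off c.isClosed (h2 m j) fun h => hy (s h),
          dd_off c'.isClosed (g2 m j) fun h => hy (s' h), add_zero]
    simp only [op, this, map_add, Finset.sum_add_distrib, Pi.add_apply]
    ring

theorem tst_T {O : Set D.Y} (hO : O ⊆ D.W) {f : D.Y → ℂ} (hf : Tst D.p O 2 f) (S : Fn n) :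
    Tst D.p O 0 fun y => S (dd D.p f y) := by
  obtain ⟨h, K, c, s, o⟩ := hf
  refine ⟨fun y hy => ?_, K, c, s, fun y hy => by simp only [dd_off c.isClosed o hy, map_zero]⟩
  have := D.rd.locH (hO hy)
  exact Sm.comp this S.contDiff.contDiffAt (((h y hy).dd this).of_le zero_le_one)

theorem tst_top (hIBP : St_IBP) {f : D.Y → ℂ} (hf : Tst D.p D.W 0 f) : MemLp f ⊤ D.μ := by
  have hm := ((hIBP n D f).1 hf).1
  obtain ⟨h, K, c, s, o⟩ := hf
  obtain ⟨C, hC⟩ := c.exists_bound_of_continuousOn (f := f) fun y hy =>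
    ((h y (s hy)).continuousAt (D.rd.locH (s hy))).continuousWithinAt
  refine memLp_top_of_bound hm (max C 0) (Eventually.of_forall fun y => ?_)
  by_cases hy : y ∈ K
  · exact (hC y hy).trans (le_max_left _ _)
  · simp [o y hy]

section chart

variable {e : OpenPartialHomeomorph D.Y (E n)}

/-- Pull-back by a chart, extended by zero. -/
def pb (D : Dom n) (e : OpenPartialHomeomorph D.Y (E n)) (F : E n → ℂ) : D.Y → ℂ :=
  e.source.indicator fun y => F (D.p y)

/-- Push-forward by a chart, extended by zero. -/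
def pf (D : Dom n) (e : OpenPartialHomeomorph D.Y (E n)) (f : D.Y → ℂ) : E n → ℂ :=
  e.target.indicator fun z => f (e.symm z)

theorem pb_ev (he : Cht D.p D.W e) (F : E n → ℂ) {y : D.Y} (hy : y ∈ e.source) :
    pb D e F ∘ e.symm =ᶠ[𝓝 (D.p y)] F := by
  filter_upwards [e.open_target.mem_nhds (he.mem_target hy)] with z hz
  rw [Function.comp_apply, pb, indicator_of_mem (e.map_target hz), he.p_symm hz]

theorem dd_pb (he : Cht D.p D.W e) (F : E n → ℂ) {y : D.Y} (hy : y ∈ e.source) :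
    dd D.p (pb D e F) y = fderiv ℝ F (D.p y) := by
  rw [he.dd_eq hy, (pb_ev he F hy).fderiv_eq]

theorem pb_off (he : Cht D.p D.W e) {F : E n → ℂ} {B : Set (E n)} (hF : ∀ z ∉ B, F z = 0) :
    ∀ y ∉ e.symm '' B, pb D e F y = 0 := fun y hy =>
  indicator_apply_eq_zero.2 fun h => hF _ fun hb => hy ⟨_, hb, he.symm_p h⟩

theorem cpt_symm {B : Set (E n)} (hB : IsCompact B) (hs : B ⊆ e.target) :
    IsCompact (e.symm '' B) ∧ e.symm '' B ⊆ e.source :=
  ⟨hB.image_of_continuousOn (e.continuousOn_symm.mono hs),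
    image_subset_iff.2 fun z hz => e.map_target (hs hz)⟩

theorem pb_sm (he : Cht D.p D.W e) {F : E n → ℂ} {B : Set (E n)} (hB : IsCompact B)
    (hs : B ⊆ e.target) (hF : ∀ z ∉ B, F z = 0) (h2 : ContDiff ℝ (2 : ℕ) F) :
    ∀ y ∈ D.W, Sm D.p 2 (pb D e F) y := by
  intro y hy
  by_cases h : y ∈ e.source
  · exact (he.sm_iff h).2 (h2.contDiffAt.congr_of_eventuallyEq (pb_ev he F h))
  · refine (sm_const 0).congr (D.rd.locH hy) ?_
    filter_upwards [(cpt_symm hB hs).1.isClosed.isOpen_compl.mem_nhds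
      fun a => h ((cpt_symm hB hs).2 a)] with x hx using pb_off he hF x hx

theorem pb_norm (hRM : St_RM) (he : Cht D.p D.W e) (F : E n → ℂ) :
    eLpNorm (pb D e F) 2 D.μ ≤ eLpNorm F 2 volume := by
  rw [pb, eLpNorm_indicator_eq_eLpNorm_restrict e.open_source.measurableSet,
    eLpNorm_eq_lintegral_rpow_enorm_toReal (by norm_num) (by norm_num),
    eLpNorm_eq_lintegral_rpow_enorm_toReal (by norm_num) (by norm_num), (hRM n D).2.2.1 e he]
  refine ENNReal.rpow_le_rpow ?_ (by positivity)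
  refine le_trans (le_of_eq ?_) (setLIntegral_le_lintegral e.target _)
  exact setLIntegral_congr_fun e.open_target.measurableSet fun z hz => by
    simp only [he.p_symm hz]

theorem pf_mem (hRM : St_RM) (he : Cht D.p D.W e) {f : D.Y → ℂ} (hf : MemLp f 2 D.μ) :
    MemLp (pf D e f) 2 volume := by
  have h := hf.restrict e.source
  rw [(hRM n D).2.1 e he] at h
  exact (memLp_indicator_iff_restrict e.open_target.measurableSet).2
    (h.comp_of_map (e.continuousOn_symm.aemeasurable e.open_target.measurableSet))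

theorem pf_off (he : Cht D.p D.W e) {f : D.Y → ℂ} (hf : ∀ y ∉ K, f y = 0) :
    ∀ z ∉ e '' K, pf D e f z = 0 := fun z hz =>
  indicator_apply_eq_zero.2 fun h => hf _ fun hb => hz ⟨_, hb, e.right_inv h⟩

theorem pb_sub (he : Cht D.p D.W e) {f : D.Y → ℂ} (hf : ∀ y ∉ K, f y = 0) (hK : K ⊆ e.source)
    (F : E n → ℂ) (y : D.Y) : pb D e (fun z => F z - pf D e f z) y = pb D e F y - f y := by
  by_cases h : y ∈ e.source
  · simp only [pb, pf, indicator_of_mem h, indicator_of_mem (he.mem_target h), he.symm_p h]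
  · simp only [pb, indicator_of_notMem h, hf y fun a => h (hK a), sub_zero]

/-- The weak equation tested with a translate of the mollifier. -/
theorem mc_op (hRM : St_RM) (hT : ∀ i j, Hom (T i j)) (h : Wk D T K α G) (he : Cht D.p D.W e)
    (hK : K ⊆ e.source) (m : ℕ) {z : E n} (hz : closedBall z (1 / ((m : ℝ) + 1)) ⊆ e.target)
    (i : ι) : ∑ j, T i j (fderiv ℝ (mc (pf D e (α j)) (rho volume m)) z) =
      mc (pf D e (G i)) (rho volume m) z := by
  have hρ := rho_test (μ := (volume : Measure (E n))) m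
  have hr := hρ.refl z
  have o : ∀ t ∉ closedBall z (1 / ((m : ℝ) + 1)), (rho volume m (z - t) : ℂ) = 0 := by
    intro t ht
    have : z - t ∉ Function.support (rho volume m) := by
      rw [rho, ContDiffBump.support_normed_eq, mem_ball_zero_iff, ← dist_eq_norm]
      exact fun h => ht (mem_closedBall'.2 h.le)
    simp [Function.notMem_support.1 this]
  have c := isCompact_closedBall z (1 / ((m : ℝ) + 1))
  have w := h.eq (pb D e fun t => (rho volume m (z - t) : ℂ))
    ⟨pb_sm he c hz o (ofRealCLM.contDiff.comp (hr.smooth.of_le (by norm_cast))), _,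
      (cpt_symm c hz).1, (cpt_symm c hz).2.trans he.sub, pb_off he o⟩ i
  rw [← setIntegral_eq_integral_of_forall_compl_eq_zero (s := e.source) fun y hy => by
    simp [h.oG i y fun a => hy (hK a), fun j => h.oα j y fun a => hy (hK a)],
    (hRM n D).2.2.2.1 e he, ← integral_indicator e.open_target.measurableSet] at w
  simp only [fun j => mc_T (pf_mem hRM he (h.mα j)) hρ (hT i j)]
  rw [← integral_finsetSum _ fun j _ => int_T (pf_mem hRM he (h.mα j)) hρ _ z, mc_eq, eq_comm,
    ← sub_eq_zero, ← integral_sub (int_rho (pf_mem hRM he (h.mG i)) hρ z)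
      (integrable_finsetSum _ fun j _ => int_T (pf_mem hRM he (h.mα j)) hρ _ z), ← w]
  refine integral_congr_ae (Eventually.of_forall fun t => ?_)
  by_cases ht : t ∈ e.target
  · have d : fderiv ℝ (fun t => (rho volume m (z - t) : ℂ)) t =
        -ofRealCLM.comp (fderiv ℝ (rho volume m) (z - t)) := by
      have := (ofRealCLM.hasFDerivAt.comp t (hr.smooth.differentiable (by simp) t).hasFDerivAt).fderiv
      refine this.trans (ContinuousLinearMap.ext fun v => ?_)
      simp [hρ.dd_refl z v t, MP_6c3a95_mp.dd]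
    simp only [indicator_of_mem ht, dd_pb he _ (e.map_target ht), he.p_symm ht, d, map_neg, neg_mul,
      Finset.sum_neg_distrib, ← sub_eq_add_neg]
    simp only [pf, pb, indicator_of_mem ht, indicator_of_mem (e.map_target ht), he.p_symm ht]
  · simp [pf, indicator_of_notMem ht]

theorem one (hRM : St_RM) (hIBP : St_IBP) (hT : ∀ i j, Hom (T i j)) (h : Wk D T K α G)
    (he : Cht D.p D.W e) (hK : K ⊆ e.source) : Ap D T α G := by
  have cA : IsCompact (e '' K) := h.cpt.image_of_continuousOn (e.continuousOn.mono hK)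
  obtain ⟨δ, hδ, hs⟩ := cA.exists_cthickening_subset_open e.open_target
    (image_subset_iff.2 fun y hy => e.map_source (hK hy))
  obtain ⟨m₀, hm₀⟩ := exists_nat_one_div_lt (half_pos hδ)
  have hm : ∀ m : ℕ, 1 / (((m + m₀ : ℕ) : ℝ) + 1) ≤ δ / 2 := fun m =>
    (Nat.one_div_le_one_div (Nat.le_add_left _ _)).trans hm₀.le
  have cB : IsCompact (cthickening (δ / 2) (e '' K)) := cA.cthickening
  have sB := (cthickening_mono (half_le_self hδ.le) _).trans hs
  obtain ⟨c, s⟩ := cpt_symm cB sB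
  have z : ∀ (f : D.Y → ℂ), (∀ y ∉ K, f y = 0) → ∀ m, ∀ z ∉ cthickening (δ / 2) (e '' K),
      mc (pf D e f) (rho volume (m + m₀)) z = 0 := fun f hf m z hz => mc_zero (pf_off he hf) (hm m) hz
  have sm : ∀ (f : D.Y → ℂ), MemLp f 2 D.μ → (∀ y ∉ K, f y = 0) → ∀ m, ∀ y ∈ D.W,
      Sm D.p 2 (pb D e (mc (pf D e f) (rho volume (m + m₀)))) y := fun f h1 hf m =>
    pb_sm he cB sB (z f hf m) (mc_smooth (pf_mem hRM he h1) (rho_test _))
  have cv : ∀ (f : D.Y → ℂ), MemLp f 2 D.μ → (∀ y ∉ K, f y = 0) →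
      Cz D fun m y => pb D e (mc (pf D e f) (rho volume (m + m₀))) y - f y := fun f h1 hf => by
    refine ⟨fun m => ((hIBP n D _).1 ⟨fun y hy => (sm f h1 hf m y hy).of_le zero_le_two, _, c,
      s.trans he.sub, pb_off he (z f hf m)⟩).1.sub h1.1, ?_⟩
    simp only [← pb_sub he hf hK]
    exact tendsto_of_tendsto_of_tendsto_of_le_of_le tendsto_const_nhds
      ((mc_cv (pf_mem hRM he h1)).comp (tendsto_add_atTop_nat m₀)) (fun _ => zero_le)
      fun m => pb_norm hRM he _
  refine ⟨_, c, s.trans he.sub, fun m j => pb D e (mc (pf D e (α j)) (rho volume (m + m₀))),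
    fun m j => sm _ (h.mα j) (h.oα j) m, fun m j => pb_off he (z _ (h.oα j) m),
    fun j => cv _ (h.mα j) (h.oα j), fun i => ?_⟩
  suffices H : ∀ m y, op D (T i) (fun j => pb D e (mc (pf D e (α j)) (rho volume (m + m₀)))) y =
      pb D e (mc (pf D e (G i)) (rho volume (m + m₀))) y by
    simpa only [H] using cv _ (h.mG i) (h.oG i)
  intro m y
  by_cases hy : y ∈ e.symm '' cthickening (δ / 2) (e '' K)
  · obtain ⟨x, hx, rfl⟩ := hy
    have hy := e.map_target (sB hx)
    simp only [op, dd_pb he _ hy]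
    rw [pb, indicator_of_mem hy, he.p_symm (sB hx)]
    refine mc_op hRM hT h he hK _ (fun t ht => hs ?_) i
    have := cthickening_cthickening_subset (half_pos hδ).le (half_pos hδ).le (e '' K)
    rw [add_halves] at this
    exact this (mem_cthickening_of_dist_le t x _ _ hx ((mem_closedBall.1 ht).trans (hm m)))
  · simp only [op, fun j => dd_off (p := D.p) c.isClosed (pb_off he (z _ (h.oα j) m)) hy,
      pb_off he (z _ (h.oG i) m) y hy, map_zero, Finset.sum_const_zero]

end chart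

theorem piece (hIBP : St_IBP) (hT : ∀ i j, Hom (T i j)) (h : Wk D T K α G) {χ : D.Y → ℂ}
    (hχ : Tst D.p D.W 2 χ) {L : Set D.Y} (hL : IsCompact L) (o : ∀ y ∉ L, χ y = 0) :
    Wk D T (K ∩ L) (fun j y => χ y * α j y)
      fun i y => χ y * G i y + ∑ j, T i j (dd D.p χ y) * α j y := by
  have t0 := tst_top hIBP ⟨fun y hy => (hχ.1 y hy).of_le zero_le_two, hχ.2⟩
  refine ⟨h.cpt.inter hL, inter_subset_left.trans h.sub, fun j => (h.mα j).mul' t0,
    fun i => ((h.mG i).mul' t0).add (memLp_finsetSum _ fun j _ =>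
      (h.mα j).mul' (tst_top hIBP (tst_T subset_rfl hχ _))), fun j y hy => ?_, fun i y hy => ?_,
    fun θ hθ i => ?_⟩
  · by_cases hk : y ∈ K
    · rw [o y fun a => hy ⟨hk, a⟩, zero_mul]
    · rw [h.oα j y hk, mul_zero]
  · by_cases hk : y ∈ K
    · simp [o y fun a => hy ⟨hk, a⟩, dd_off hL.isClosed o fun a => hy ⟨hk, a⟩]
    · simp [h.oG i y hk, fun j => h.oα j y hk]
  · obtain ⟨M, c, s, z⟩ := hχ.2
    rw [← h.eq (fun y => θ y * χ y) ⟨fun y hy => (hθ.1 y hy).mul (hχ.1 y hy), M, c, s,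
      fun y hy => by simp [z y hy]⟩ i]
    refine integral_congr_ae (Eventually.of_forall fun y => ?_)
    by_cases hk : y ∈ K
    · have hy := h.sub hk
      have d : dd D.p (fun y => θ y * χ y) y = θ y • dd D.p χ y + χ y • dd D.p θ y := by
        have := fderiv_fun_mul (hθ.1 y hy).differentiableAt (hχ.1 y hy).differentiableAt
        simp only [Function.comp_apply, (D.rd.locH hy).lift_self] at this
        exact this
      simp only [d, map_add, hT i _ _ _, add_mul, mul_add, Finset.sum_add_distrib, Finset.mul_sum,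
        mul_assoc, add_assoc, mul_left_comm]
    · simp [h.oG i y hk, fun j => h.oα j y hk]

theorem all (hRM : St_RM) (hCUT : St_CUT) (hIBP : St_IBP) (hT : ∀ i j, Hom (T i j))
    (h : Wk D T K α G) : Ap D T α G := by
  obtain ⟨t, ht⟩ := h.cpt.elim_finite_subcover (fun e : {e // Cht D.p D.W e} => e.1.source)
    (fun e => e.1.open_source) fun y hy => by
      obtain ⟨e, he, hy, -⟩ := D.rd.exists_cht (h.sub hy) univ_mem
      exact mem_iUnion.2 ⟨⟨e, he⟩, hy⟩
  obtain ⟨χ, h1, h2, -, -, h3⟩ := hCUT n D K t (fun e => e.1.1.source) h.cpt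
    (fun e => e.1.1.open_source) (fun e => e.1.2.sub) fun y hy => by
      obtain ⟨a, b, c⟩ := mem_iUnion₂.1 (ht hy)
      exact mem_iUnion.2 ⟨⟨a, b⟩, c⟩
  have H : ∀ s : Finset t, Ap D T (∑ a ∈ s, fun j y => (χ a y : ℂ) * α j y)
      (∑ a ∈ s, fun i y => (χ a y : ℂ) * G i y +
        ∑ j, T i j (dd D.p (fun y => (χ a y : ℂ)) y) * α j y) := by
    intro s
    induction s using Finset.induction_on with
    | empty => exact Ap.zero
    | insert a s ha ih =>
      rw [Finset.sum_insert ha, Finset.sum_insert ha]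
      obtain ⟨L, c, s, o⟩ := (h1 a).2
      have o' : ∀ y ∉ L, (χ a y : ℂ) = 0 := fun y hy => by simp [o y hy]
      exact (one hRM hIBP hT (piece hIBP hT h ⟨fun y hy => ((h2 a).1 y hy).ofReal, L, c,
        s.trans a.1.2.sub, o'⟩ c o') a.1.2 (inter_subset_right.trans s)).add ih
  have e1 : ∀ y ∈ K, ∀ᶠ x in 𝓝 y, ∑ a, (χ a x : ℂ) = 1 := fun y hy => by
    filter_upwards [mem_nhdsSet_iff_forall.1 h3 y hy] with x hx
    exact_mod_cast hx
  have e2 : ∀ y ∈ K, ∑ a, dd D.p (fun y => (χ a y : ℂ)) y = 0 := fun y hy => by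
    have := dd_congr (D.rd.locH (h.sub hy)) (e1 y hy)
    refine Eq.trans (Eq.trans ?_ this) (fderiv_const_apply 1)
    exact (fderiv_fun_sum fun a _ => ((h2 a).1 y (h.sub hy)).ofReal.differentiableAt).symm
  have H1 := H Finset.univ
  rwa [show (∑ a, fun j y => (χ a y : ℂ) * α j y) = α from ?_, show (∑ a, fun i y =>
    (χ a y : ℂ) * G i y + ∑ j, T i j (dd D.p (fun y => (χ a y : ℂ)) y) * α j y) = G from ?_] at H1
  · funext i y
    simp only [Finset.sum_apply]
    by_cases hk : y ∈ K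
    · rw [Finset.sum_add_distrib, Finset.sum_comm]
      simp only [← Finset.sum_mul, ← map_sum, (e1 y hk).self_of_nhds, e2 y hk]
      simp
    · simp [h.oG i y hk, fun j => h.oα j y hk]
  · funext j y
    simp only [Finset.sum_apply]
    by_cases hk : y ∈ K
    · rw [← Finset.sum_mul, (e1 y hk).self_of_nhds, one_mul]
    · simp [h.oα j y hk]

/-- The Wirtinger derivatives as functionals. -/
def Z (c : ℂ) (j : Fin n) : Fn n :=
  (1 / 2 : ℂ) • (ContinuousLinearMap.apply ℝ ℂ (Pi.single j 1) +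
    c • ContinuousLinearMap.apply ℝ ℂ (Pi.single j I))

/-- The divergence and the coefficients of `∂-bar`. -/
def TT : Option (Fin n × Fin n) → Fin n → Fn n
  | none, j => Z (-I) j
  | some a, l => (if l = a.2 then Z I a.1 else 0) - if l = a.1 then Z I a.2 else 0

theorem Z_hom (c : ℂ) (j : Fin n) : Hom (Z c j) := fun a L => by
  simp [Z]
  ring

theorem TT_hom : ∀ (i : Option (Fin n × Fin n)) (j : Fin n), Hom (TT i j)
  | none, j => Z_hom _ j
  | some a, l => fun c L => by
    simp only [TT]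
    split_ifs <;> simp [Z_hom _ _ c L, mul_sub]

theorem dz_eq (j : Fin n) (f : D.Y → ℂ) (y : D.Y) : dz D.p j f y = Z (-I) j (dd D.p f y) := by
  simp [Z, dz]
  ring

theorem dzb_eq (j : Fin n) (f : D.Y → ℂ) (y : D.Y) : dzb D.p j f y = Z I j (dd D.p f y) := by
  simp [Z, dzb]
  ring

theorem TT_sum (j k : Fin n) (L : Fin n → E n →L[ℝ] ℂ) (a : Fin n → ℂ) :
    ∑ l, TT (some (j, k)) l (L l) * a l = Z I j (L k) * a k - Z I k (L j) * a j := by
  have : ∀ (S : Fn n) (i : Fin n), ∑ l, (if l = i then S else 0) (L l) * a l = S (L i) * a i :=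
    fun S i => by rw [Finset.sum_eq_single i (fun b _ hb => by simp [hb]) (by simp), if_pos rfl]
  simp only [TT, sub_apply, sub_mul, Finset.sum_sub_distrib, this]

end MOLL

open MOLL in
theorem stMOLL (hRM : St_RM) (hCUT : St_CUT) (hIBP : St_IBP) : St_MOLL := by
  intro n D K α g σ h
  obtain ⟨K', c, s, β, h1, h2, h3, h4⟩ := all hRM hCUT hIBP TT_hom
    (G := fun i => i.elim g fun a => σ a.1 a.2)
    ⟨h.cpt, h.sub, h.mα, by rintro (_ | a); exacts [h.mg, h.mσ _ _],
      fun j y hy => (h.off y hy).1 j,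
      by rintro (_ | a) y hy; exacts [(h.off y hy).2.1, (h.off y hy).2.2 _ _], by
      rintro θ hθ (_ | ⟨j, k⟩)
      · simpa only [dz_eq, Option.elim, TT] using h.div θ hθ
      · simpa only [dzb_eq, Option.elim, TT_sum j k fun _ => dd D.p θ _] using h.curl θ hθ j k⟩
  have e1 : ∀ m y, dv D.p (β m) y = op D (TT none) (β m) y := fun m y => by
    simp only [dv, dz_eq, op, TT]
  have e2 : ∀ m j k y, cu D.p (β m) j k y = op D (TT (some (j, k))) (β m) y := fun m j k y => by
    simpa only [cu, dzb_eq, op, mul_one] using (TT_sum j k (fun l => dd D.p (β m l) y) fun _ => 1).symm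
  have o : ∀ m i, ∀ y ∉ K', op D (TT i) (β m) y = 0 := fun m i y hy => by
    simp only [op, fun j => dd_off (p := D.p) c.isClosed (h2 m j) hy, map_zero, Finset.sum_const_zero]
  exact ⟨K ∪ K', h.cpt.union c, subset_union_left, union_subset h.sub s, β,
    fun m j => ⟨h1 m j, K', c, s, h2 m j⟩, fun m y hy => ⟨fun j => h2 m j y fun a => hy (Or.inr a),
      (e1 m y).trans (o m _ y fun a => hy (Or.inr a)),
      fun j k => (e2 m j k y).trans (o m _ y fun a => hy (Or.inr a))⟩,
    fun j => (h3 j).2, by simpa only [e1, Option.elim] using (h4 none).2,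
    fun j k => by simpa only [e2, Option.elim] using (h4 (some (j, k))).2⟩

end Pool.Agent.Lib.SV
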