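import Pool.Agent.Lib.SV.HBlue

/-! From the dual estimate to a holomorphic function. -/

open scoped Classical Topology ENNReal ComplexConjugate
open Set MeasureTheory Complex Filter Metric

noncomputable section

namespace Pool.Agent.Lib.SV

namespace RIE

theorem riesz {V H : Type} [AddCommGroup V] [Module ℂ V] [NormedAddCommGroup H]
    [InnerProductSpace ℂ H] [CompleteSpace H] (A : V →ₗ[ℂ] H) (l : V →ₗ[ℂ] ℂ) (c : ℝ) (hc : 0 ≤ c)
    (h : ∀ v, ‖l v‖ ≤ c * ‖A v‖) : ∃ u : H, ‖u‖ ≤ c ∧ ∀ v, l v = inner ℂ u (A v) := by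
  have hk : LinearMap.ker A ≤ LinearMap.ker l := fun v hv => by
    have := h v
    rw [LinearMap.mem_ker.1 hv, norm_zero, mul_zero] at this
    exact norm_le_zero_iff.1 this
  let f0 : LinearMap.range A →ₗ[ℂ] ℂ :=
    (LinearMap.ker A).liftQ l hk ∘ₗ (A.quotKerEquivRange.symm : _ →ₗ[ℂ] _)
  have hf0 : ∀ v, f0 ⟨A v, LinearMap.mem_range_self A v⟩ = l v := fun v => by
    simp [f0, LinearMap.quotKerEquivRange_symm_apply_image]
  have hb : ∀ x : LinearMap.range A, ‖f0 x‖ ≤ c * ‖x‖ := by
    rintro ⟨_, v, rfl⟩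
    rw [hf0]
    exact h v
  obtain ⟨g, hg, hn⟩ := exists_extension_norm_eq (LinearMap.range A) (f0.mkContinuous c hb)
  refine ⟨(InnerProductSpace.toDual ℂ H).symm g, ?_, fun v => ?_⟩
  · rw [LinearIsometryEquiv.norm_map, hn]
    exact LinearMap.mkContinuous_norm_le _ hc _
  · rw [InnerProductSpace.toDual_symm_apply, ← hf0]
    exact (hg ⟨A v, LinearMap.mem_range_self A v⟩).symm

theorem norm_sq {Y : Type} [MeasurableSpace Y] {μ : Measure Y} (t : Lp ℂ 2 μ) :
    ENNReal.ofReal (‖t‖ ^ 2) = ∫⁻ y, ENNReal.ofReal (‖t y‖ ^ 2) ∂μ := by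
  have h1 : ‖t‖ ^ 2 = ∫ y, ‖t y‖ ^ 2 ∂μ := by
    rw [← @inner_self_eq_norm_sq ℂ, L2.inner_def, ← integral_re (L2.integrable_inner t t)]
    simp only [inner_self_eq_norm_sq]
  rw [h1, ofReal_integral_eq_lintegral_ofReal
    ((memLp_two_iff_integrable_sq_norm (Lp.aestronglyMeasurable t)).1 (Lp.memLp t))
    (Eventually.of_forall fun _ => by positivity)]

section calc'

variable {n : ℕ} {Y : Type} [TopologicalSpace Y] {p : Y → E n} {W : Set Y} {y : Y} {k : ℕ}
  {f g : Y → ℂ}

theorem dd_zero (h : f =ᶠ[𝓝 y] fun _ => 0) : dd p f y = 0 := by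
  by_cases hl : LocH p y
  · rw [dd_congr hl h]
    exact fderiv_const_apply (0 : ℂ)
  · have : lift p y = fun _ => y := dif_neg hl
    rw [dd, this]
    exact fderiv_const_apply (f y)

theorem dd_add (hf : Sm p 1 f y) (hg : Sm p 1 g y) :
    dd p (fun x => f x + g x) y = dd p f y + dd p g y :=
  fderiv_add (Sm.differentiableAt (k := 0) hf) (Sm.differentiableAt (k := 0) hg)

theorem dd_smul (c : ℂ) (hf : Sm p 1 f y) : dd p (fun x => c * f x) y = c • dd p f y :=
  fderiv_const_smul (Sm.differentiableAt (k := 0) hf) c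

theorem dd_mul (h : LocH p y) (hf : Sm p 1 f y) (hg : Sm p 1 g y) (v : E n) :
    dd p (fun x => f x * g x) y v = f y * dd p g y v + dd p f y v * g y := by
  have := fderiv_mul (Sm.differentiableAt (k := 0) hf) (Sm.differentiableAt (k := 0) hg)
  have e : dd p (fun x => f x * g x) y = _ := this
  rw [e]
  simp only [Function.comp_apply, h.lift_self, _root_.add_apply,
    _root_.smul_apply, smul_eq_mul, dd]
  ring

theorem sm_conj (hf : Sm p k f y) : Sm p k (fun x => conj (f x)) y :=
  conjCLE.contDiff.contDiffAt.comp _ hf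

theorem dd_conj (hf : Sm p 1 f y) (v : E n) :
    dd p (fun x => conj (f x)) y v = conj (dd p f y v) := by
  have := (conjCLE : ℂ →L[ℝ] ℂ).hasFDerivAt.comp (p y)
    (Sm.differentiableAt (k := 0) hf).hasFDerivAt
  have e : dd p (fun x => conj (f x)) y = _ := this.fderiv
  rw [e]
  rfl

theorem tst_le {k' : ℕ} (hf : Tst p W k f) (hk : k' ≤ k) : Tst p W k' f :=
  ⟨fun y hy => (hf.1 y hy).of_le hk, hf.2⟩

theorem tst_zero : Tst p W k (fun _ => (0 : ℂ)) :=
  ⟨fun _ _ => sm_const _, ∅, isCompact_empty, empty_subset _, fun _ _ => rfl⟩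

theorem tst_add (hf : Tst p W k f) (hg : Tst p W k g) : Tst p W k fun x => f x + g x := by
  obtain ⟨h1, K, hK, hs, h0⟩ := hf
  obtain ⟨h2, L, hL, hs', h0'⟩ := hg
  refine ⟨fun y hy => (h1 y hy).add (h2 y hy), K ∪ L, hK.union hL, union_subset hs hs',
    fun y hy => ?_⟩
  simp only [h0 y fun h => hy (Or.inl h), h0' y fun h => hy (Or.inr h), add_zero]

theorem tst_mul (hg : ∀ y ∈ W, Sm p k g y) (hf : Tst p W k f) : Tst p W k fun x => g x * f x := by
  obtain ⟨h1, K, hK, hs, h0⟩ := hf
  exact ⟨fun y hy => (hg y hy).mul (h1 y hy), K, hK, hs, fun y hy => by simp only [h0 y hy, mul_zero]⟩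

theorem tst_conj (hf : Tst p W k f) : Tst p W k fun x => conj (f x) := by
  obtain ⟨h1, K, hK, hs, h0⟩ := hf
  exact ⟨fun y hy => sm_conj (h1 y hy), K, hK, hs, fun y hy => by simp only [h0 y hy, map_zero]⟩

theorem tst_sum {ι : Type} (s : Finset ι) {u : ι → Y → ℂ} (h : ∀ i, Tst p W k (u i)) :
    Tst p W k fun x => ∑ i ∈ s, u i x := by
  induction s using Finset.induction_on with
  | empty => simpa using tst_zero
  | insert a s ha ih =>
    simp only [Finset.sum_insert ha]
    exact tst_add (h a) ih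

theorem tst_dd [T2Space Y] (hW : RD p W) (hf : Tst p W (k + 1) f) (v : E n) :
    Tst p W k fun x => dd p f x v := by
  obtain ⟨h1, K, hK, hs, h0⟩ := hf
  refine ⟨fun y hy => (h1 y hy).dd_apply (hW.locH hy) v, K, hK, hs, fun y hy => ?_⟩
  show dd p f y v = 0
  rw [dd_zero (by filter_upwards [hK.isClosed.isOpen_compl.mem_nhds hy] with x hx using h0 x hx)]
  rfl

theorem dz_eq (j : Fin n) : dz p j f = fun y => (1 / 2 : ℂ) * dd p f y (Pi.single j 1) +
    (-I / 2) * dd p f y (Pi.single j I) := by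
  funext y
  unfold dz
  ring

theorem dzb_eq (j : Fin n) : dzb p j f = fun y => (1 / 2 : ℂ) * dd p f y (Pi.single j 1) +
    (I / 2) * dd p f y (Pi.single j I) := by
  funext y
  unfold dzb
  ring

theorem tst_dz [T2Space Y] (hW : RD p W) (hf : Tst p W (k + 1) f) (j : Fin n) :
    Tst p W k (dz p j f) := by
  rw [dz_eq]
  exact tst_add (tst_mul (fun _ _ => sm_const _) (tst_dd hW hf _))
    (tst_mul (fun _ _ => sm_const _) (tst_dd hW hf _))

theorem tst_dzb [T2Space Y] (hW : RD p W) (hf : Tst p W (k + 1) f) (j : Fin n) :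
    Tst p W k (dzb p j f) := by
  rw [dzb_eq]
  exact tst_add (tst_mul (fun _ _ => sm_const _) (tst_dd hW hf _))
    (tst_mul (fun _ _ => sm_const _) (tst_dd hW hf _))

theorem sm_dzb (h : LocH p y) (hf : Sm p (k + 1) f y) (j : Fin n) : Sm p k (dzb p j f) y := by
  rw [dzb_eq]
  exact ((sm_const _).mul (hf.dd_apply h _)).add ((sm_const _).mul (hf.dd_apply h _))

theorem exists_cpt (hW : RD p W) (hy : y ∈ W) : ∃ K ∈ 𝓝 y, IsCompact K ∧ K ⊆ W := by
  obtain ⟨e, r, hr, he, hy', -, ht⟩ := hW.exists_ball hy univ_mem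
  have hs : closedBall (p y) (r / 2) ⊆ e.target := by
    rw [ht]
    exact closedBall_subset_ball (half_lt_self hr)
  refine ⟨e.symm '' closedBall (p y) (r / 2), ?_,
    (isCompact_closedBall _ _).image_of_continuousOn (e.continuousOn_symm.mono hs), ?_⟩
  · have := e.symm.image_mem_nhds (he.mem_target hy') (closedBall_mem_nhds (p y) (half_pos hr))
    rwa [he.symm_p hy'] at this
  · rintro _ ⟨z, hz, rfl⟩
    exact he.sub (e.map_target (hs hz))

end calc'

/-- The space of test forms. -/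
def TF {n : ℕ} (D : Dom n) : Submodule ℂ (Fin n → D.Y → ℂ) where
  carrier := {α | ∀ j, Tst D.p D.W 2 (α j)}
  add_mem' := fun ha hb j => tst_add (ha j) (hb j)
  zero_mem' := fun _ => tst_zero
  smul_mem' := fun c _ ha j => tst_mul (fun _ _ => sm_const c) (ha j)

theorem memLp (hIBP : St_IBP) {n : ℕ} (D : Dom n) {f : D.Y → ℂ} (hf : Tst D.p D.W 0 f) :
    MemLp f 2 D.μ := by
  rw [memLp_two_iff_integrable_sq_norm ((hIBP n D f).1 hf).aestronglyMeasurable]
  have := ((hIBP n D _).1 (tst_mul hf.1 hf)).norm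
  simpa only [norm_mul, sq] using this

theorem int_dzb (hIBP : St_IBP) {n : ℕ} (D : Dom n) {f : D.Y → ℂ} (hf : Tst D.p D.W 1 f)
    (j : Fin n) : ∫ y, dzb D.p j f y ∂D.μ = 0 := by
  have hi := fun v => (hIBP n D _).1 (tst_dd (k := 0) D.rd hf v)
  rw [dzb_eq, integral_add ((hi _).const_mul _) ((hi _).const_mul _), integral_const_mul,
    integral_const_mul, (hIBP n D f).2 hf, (hIBP n D f).2 hf]
  simp

end RIE

open RIE in
theorem stRIE (hRM : St_RM) (hIBP : St_IBP) (hWEYL : St_WEYL) : St_RIE := by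
  intro n D G φ M hM hs hest
  obtain ⟨hrm, -, -, -, -, -, hfin, -⟩ := hRM n D
  have aeW : ∀ᵐ y ∂D.μ, y ∈ D.W := hrm.off
  let w : D.Y → ℂ := fun y => (Real.exp (φ y / 2) : ℝ)
  have hw : ∀ y ∈ D.W, Sm D.p 0 w y := fun y hy =>
    (Sm.comp (D.rd.locH hy) (g := fun t : ℝ => Real.exp (t / 2)) (by fun_prop)
      ((hs y hy).2.of_le (by norm_num))).ofReal
  have hw2 : ∀ y, ‖w y‖ ^ 2 = Real.exp (φ y) := fun y => by
    simp only [w, norm_real, Real.norm_eq_abs, sq_abs]
    rw [sq, ← Real.exp_add, add_halves]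
  have hT : ∀ α : TF D, Tst D.p D.W 0 fun y => w y * dv D.p α.1 y := fun α =>
    tst_mul hw (tst_sum _ fun j => tst_dz D.rd (tst_le (α.2 j) (by norm_num)) j)
  have hL : ∀ α : TF D, Integrable (fun y => ∑ j, conj (dzb D.p j G y) * α.1 j y) D.μ := fun α =>
    (hIBP n D _).1 (tst_sum _ fun j => tst_mul (fun y hy => sm_conj
      (sm_dzb (D.rd.locH hy) ((hs y hy).1.of_le (by norm_num)) j)) (tst_le (α.2 j) (by norm_num)))
  let A : TF D →ₗ[ℂ] Lp ℂ 2 D.μ :=
    { toFun := fun α => (memLp hIBP D (hT α)).toLp _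
      map_add' := fun a b => by
        rw [← MemLp.toLp_add]
        apply MemLp.toLp_congr
        filter_upwards [aeW] with y hy
        simp only [Pi.add_apply, dv, ← mul_add, ← Finset.sum_add_distrib]
        refine congrArg _ (Finset.sum_congr rfl fun j _ => ?_)
        have := dd_add (((a.2 j).1 y hy).of_le (by norm_num)) (((b.2 j).1 y hy).of_le (by norm_num))
        have e : dd D.p ((a + b).1 j) y = _ := this
        simp only [dz, e, _root_.add_apply]
        ring
      map_smul' := fun c a => by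
        rw [RingHom.id_apply, ← MemLp.toLp_const_smul]
        apply MemLp.toLp_congr
        filter_upwards [aeW] with y hy
        simp only [Pi.smul_apply, smul_eq_mul, dv, Finset.mul_sum]
        refine Finset.sum_congr rfl fun j _ => ?_
        have := dd_smul c (((a.2 j).1 y hy).of_le (k' := 1) (by norm_num))
        have e : dd D.p ((c • a).1 j) y = _ := this
        simp only [dz, e, _root_.smul_apply, smul_eq_mul]
        ring }
  have hA : ∀ α : TF D, A α =ᵐ[D.μ] fun y => w y * dv D.p α.1 y := fun α =>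
    MemLp.coeFn_toLp (memLp hIBP D (hT α))
  let l : TF D →ₗ[ℂ] ℂ :=
    { toFun := fun α => ∫ y, ∑ j, conj (dzb D.p j G y) * α.1 j y ∂D.μ
      map_add' := fun a b => by
        rw [← integral_add (hL a) (hL b)]
        simp only [Submodule.coe_add, Pi.add_apply, mul_add, Finset.sum_add_distrib]
      map_smul' := fun c a => by
        rw [RingHom.id_apply, smul_eq_mul, ← integral_const_mul]
        simp only [Submodule.coe_smul, Pi.smul_apply, smul_eq_mul, Finset.mul_sum, mul_left_comm] }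
  obtain ⟨u, hu, hlu⟩ := riesz A l (Real.sqrt M.toReal) (Real.sqrt_nonneg _) fun α => by
    have h1 := hest α.1 α.2
    have h2 : ∫⁻ y, ENNReal.ofReal (‖dv D.p α.1 y‖ ^ 2 * Real.exp (φ y)) ∂D.μ =
        ENNReal.ofReal (‖A α‖ ^ 2) := by
      rw [norm_sq]
      refine lintegral_congr_ae ?_
      filter_upwards [hA α] with y hy
      rw [hy, norm_mul, mul_pow, hw2, mul_comm]
    rw [h2, ← ENNReal.ofReal_toReal hM, ← ENNReal.ofReal_mul ENNReal.toReal_nonneg,
      ENNReal.ofReal_le_ofReal_iff (by positivity)] at h1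
    refine abs_le_of_sq_le_sq' ?_ (by positivity) |>.2
    rw [mul_pow, Real.sq_sqrt ENNReal.toReal_nonneg]
    exact h1
  obtain ⟨F, hF, hFe⟩ := hWEYL n D (fun y => G y + u y * w y) (fun y hy => by
      obtain ⟨K, hK, hc, hKW⟩ := exists_cpt D.rd hy
      refine ⟨K, mem_nhdsWithin_of_mem_nhds hK, ?_⟩
      have : IsFiniteMeasure (D.μ.restrict K) := isFiniteMeasure_restrict.2 (hfin K hc hKW)
      refine IntegrableOn.add (ContinuousOn.integrableOn_of_subset_isCompact
        (fun x hx => ((hs x (hKW hx)).1.continuousAt (D.rd.locH (hKW hx))).continuousWithinAt) hc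
        hc.measurableSet Subset.rfl (hfin K hc hKW)) (IntegrableOn.mul_continuousOn ?_
        (fun x hx => ((hw x (hKW hx)).continuousAt (D.rd.locH (hKW hx))).continuousWithinAt) hc)
      exact ((Lp.memLp u).restrict K).integrable (by norm_num)) fun ψ hψ j => by
    have hψ1 : Tst D.p D.W 1 ψ := tst_le hψ (by norm_num)
    have hd : Tst D.p D.W 0 (dzb D.p j ψ) := tst_dzb D.rd hψ1 j
    have hG0 : ∀ y ∈ D.W, Sm D.p 0 G y := fun y hy => (hs y hy).1.of_le (by norm_num)
    have hG1 : ∀ y ∈ D.W, Sm D.p 1 G y := fun y hy => (hs y hy).1.of_le (by norm_num)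
    let α : TF D := ⟨Pi.single j fun y => conj (ψ y), fun i => by
      by_cases h : i = j
      · subst h
        rw [Pi.single_eq_same]
        exact tst_conj hψ
      · rw [Pi.single_eq_of_ne h]
        exact tst_zero⟩
    have e1 : l α = conj (∫ y, dzb D.p j G y * ψ y ∂D.μ) := by
      rw [← integral_conj]
      refine integral_congr_ae (Eventually.of_forall fun y => ?_)
      simp only [α]
      rw [Finset.sum_eq_single j (fun i _ h => by simp [Pi.single_eq_of_ne h]) (by simp)]
      simp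
    have e2 : inner ℂ u (A α) = conj (∫ y, u y * (w y * dzb D.p j ψ y) ∂D.μ) := by
      rw [← integral_conj, L2.inner_def]
      refine integral_congr_ae ?_
      filter_upwards [hA α, aeW] with y hy hyW
      have e3 : dv D.p α.1 y = conj (dzb D.p j ψ y) := by
        simp only [α, dv]
        rw [Finset.sum_eq_single j (fun i _ h => by
          rw [Pi.single_eq_of_ne h, dz, dd_zero (f := 0) EventuallyEq.rfl]; simp) (by simp)]
        rw [Pi.single_eq_same, dz, dzb, dd_conj (hψ1.1 y hyW), dd_conj (hψ1.1 y hyW)]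
        simp only [map_div₀, map_add, map_mul, conj_I, map_ofNat]
        ring
      rw [hy, e3]
      simp only [RCLike.inner_apply, map_mul, w, conj_ofReal]
      ring
    have e4 : ∫ y, dzb D.p j G y * ψ y ∂D.μ = ∫ y, u y * (w y * dzb D.p j ψ y) ∂D.μ := by
      have := hlu α
      rw [e1, e2] at this
      exact star_injective this
    have i1 : Integrable (fun y => G y * dzb D.p j ψ y) D.μ := (hIBP n D _).1 (tst_mul hG0 hd)
    have i2 : Integrable (fun y => dzb D.p j G y * ψ y) D.μ := (hIBP n D _).1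
      (tst_mul (fun y hy => sm_dzb (D.rd.locH hy) (hG1 y hy) j) (tst_le hψ (by norm_num)))
    have i3 : Integrable (fun y => u y * (w y * dzb D.p j ψ y)) D.μ :=
      (Lp.memLp u).integrable_mul (memLp hIBP D (tst_mul hw hd))
    have e5 := int_dzb hIBP D (tst_mul hG1 hψ1) j
    have e6 : ∫ y, dzb D.p j (fun x => G x * ψ x) y ∂D.μ =
        ∫ y, (G y * dzb D.p j ψ y + dzb D.p j G y * ψ y) ∂D.μ := by
      refine integral_congr_ae ?_
      filter_upwards [aeW] with y hy
      simp only [dzb, dd_mul (D.rd.locH hy) (hG1 y hy) (hψ1.1 y hy)]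
      ring
    rw [e6, integral_add i1 i2, e4, ← integral_add i1 i3] at e5
    rw [← e5]
    refine integral_congr_ae (Eventually.of_forall fun y => ?_)
    ring
  refine ⟨F, hF, ?_⟩
  have e7 : ∫⁻ y, ENNReal.ofReal (‖G y - F y‖ ^ 2 * Real.exp (-φ y)) ∂D.μ =
      ENNReal.ofReal (‖u‖ ^ 2) := by
    rw [norm_sq]
    refine lintegral_congr_ae ?_
    filter_upwards [hFe] with y hy
    rw [hy, sub_add_cancel_left, norm_neg, norm_mul, mul_pow, hw2, mul_assoc, ← Real.exp_add,
      add_neg_cancel, Real.exp_zero, mul_one]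
  rw [e7, ← ENNReal.ofReal_toReal hM]
  refine ENNReal.ofReal_le_ofReal ?_
  calc ‖u‖ ^ 2 ≤ Real.sqrt M.toReal ^ 2 := by gcongr
    _ = M.toReal := Real.sq_sqrt ENNReal.toReal_nonneg

end Pool.Agent.Lib.SV
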