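import Pool.Agent.Lib.SV.HKit

/-! The Bochner inequality for weak data, by approximation with test forms. -/

open scoped Classical Topology ENNReal ComplexConjugate
open Set MeasureTheory Complex Filter Metric

set_option linter.unusedVariables false
set_option linter.unusedSectionVars false

noncomputable section

namespace Pool.Agent.Lib.SV

namespace W92

section meas

variable {Y : Type} [MeasurableSpace Y] {μ : Measure Y}

/-- Convergence in `L²`. -/
structure Cv (μ : Measure Y) (u : ℕ → Y → ℂ) (v : Y → ℂ) : Prop where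
  mu : ∀ m, MemLp (u m) 2 μ
  mv : MemLp v 2 μ
  lim : Tendsto (fun m => eLpNorm (fun y => u m y - v y) 2 μ) atTop (𝓝 0)

/-- Convergence of the integrals. -/
structure Iv (μ : Measure Y) (u : ℕ → Y → ℂ) (v : Y → ℂ) : Prop where
  iu : ∀ m, Integrable (u m) μ
  iv : Integrable v μ
  lim : Tendsto (fun m => ∫ y, u m y ∂μ) atTop (𝓝 (∫ y, v y ∂μ))

variable {u u' : ℕ → Y → ℂ} {v v' c : Y → ℂ}

theorem Cv.add (h : Cv μ u v) (h' : Cv μ u' v') :
    Cv μ (fun m y => u m y + u' m y) (fun y => v y + v' y) := by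
  refine ⟨fun m => (h.mu m).add (h'.mu m), h.mv.add h'.mv, ?_⟩
  have h0 := h.lim.add h'.lim
  rw [add_zero] at h0
  refine tendsto_of_tendsto_of_tendsto_of_le_of_le tendsto_const_nhds h0 (fun _ => zero_le)
    fun m => ?_
  have e : (fun y => u m y + u' m y - (v y + v' y)) =
      (fun y => u m y - v y) + fun y => u' m y - v' y := by
    funext y; simp only [Pi.add_apply]; ring
  exact (congrArg (fun f => eLpNorm f 2 μ) e).le.trans
    (eLpNorm_add_le ((h.mu m).sub h.mv).1 ((h'.mu m).sub h'.mv).1 (by norm_num))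

theorem Cv.mul (h : Cv μ u v) (hc : AEStronglyMeasurable c μ) {C : ℝ} (hC : ∀ y, ‖c y‖ ≤ C) :
    Cv μ (fun m y => c y * u m y) (fun y => c y * v y) := by
  have ht : MemLp c ∞ μ := memLp_top_of_bound hc C (Eventually.of_forall hC)
  refine ⟨fun m => (h.mu m).mul' ht, h.mv.mul' ht, ?_⟩
  have h0 := ENNReal.Tendsto.const_mul (a := ENNReal.ofReal C) h.lim
    (Or.inr ENNReal.ofReal_ne_top)
  rw [mul_zero] at h0
  refine tendsto_of_tendsto_of_tendsto_of_le_of_le tendsto_const_nhds h0 (fun _ => zero_le)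
    fun m => ?_
  refine eLpNorm_le_mul_eLpNorm_of_ae_le_mul (Eventually.of_forall fun y => ?_) 2
  rw [← mul_sub, norm_mul]
  exact mul_le_mul_of_nonneg_right (hC y) (norm_nonneg _)

theorem Cv.sub (h : Cv μ u v) (h' : Cv μ u' v') :
    Cv μ (fun m y => u m y - u' m y) (fun y => v y - v' y) := by
  have := h.add (h'.mul (c := fun _ => -1) aestronglyMeasurable_const (C := 1) (by simp))
  simpa only [neg_mul, one_mul, ← sub_eq_add_neg] using this

theorem Cv.sum {ι : Type} (s : Finset ι) {u : ι → ℕ → Y → ℂ} {v : ι → Y → ℂ}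
    (h : ∀ i, Cv μ (u i) (v i)) :
    Cv μ (fun m y => ∑ i ∈ s, u i m y) (fun y => ∑ i ∈ s, v i y) := by
  induction s using Finset.induction_on with
  | empty =>
    refine ⟨fun m => MemLp.zero, MemLp.zero, tendsto_const_nhds.congr fun m => ?_⟩
    exact (eLpNorm_zero (p := 2) (μ := μ) (ε := ℂ)).symm.trans
      (congrArg (fun f => eLpNorm f 2 μ) (funext fun y => (sub_self (0 : ℂ)).symm))
  | insert a s ha ih =>
    simp only [Finset.sum_insert ha]
    exact (h a).add ih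

theorem Cv.pair (h : Cv μ u v) (h' : Cv μ u' v') :
    Iv μ (fun m y => u m y * conj (u' m y)) (fun y => v y * conj (v' y)) := by
  have key : ∀ {f g : Y → ℂ} (hf : MemLp f 2 μ) (hg : MemLp g 2 μ),
      (fun y => inner ℂ (hg.toLp g y) (hf.toLp f y)) =ᵐ[μ] fun y => f y * conj (g y) := by
    intro f g hf hg
    filter_upwards [hf.coeFn_toLp, hg.coeFn_toLp] with y h1 h2
    rw [h1, h2]
    simp
  refine ⟨fun m => (L2.integrable_inner _ _).congr (key (h.mu m) (h'.mu m)),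
    (L2.integrable_inner _ _).congr (key h.mv h'.mv), ?_⟩
  have t1 := (Lp.tendsto_Lp_iff_tendsto_eLpNorm'' u h.mu v h.mv).2 h.lim
  have t2 := (Lp.tendsto_Lp_iff_tendsto_eLpNorm'' u' h'.mu v' h'.mv).2 h'.lim
  have t := t2.inner (𝕜 := ℂ) t1
  simp only [L2.inner_def] at t
  rw [integral_congr_ae (key h.mv h'.mv)] at t
  exact t.congr fun m => integral_congr_ae (key (h.mu m) (h'.mu m))

theorem Iv.add (h : Iv μ u v) (h' : Iv μ u' v') :
    Iv μ (fun m y => u m y + u' m y) (fun y => v y + v' y) := by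
  refine ⟨fun m => (h.iu m).add (h'.iu m), h.iv.add h'.iv, ?_⟩
  rw [integral_add h.iv h'.iv]
  exact (h.lim.add h'.lim).congr fun m => (integral_add (h.iu m) (h'.iu m)).symm

theorem Iv.const_mul (h : Iv μ u v) (a : ℂ) :
    Iv μ (fun m y => a * u m y) (fun y => a * v y) := by
  refine ⟨fun m => (h.iu m).const_mul a, h.iv.const_mul a, ?_⟩
  simp only [integral_const_mul]
  exact h.lim.const_mul a

theorem Iv.sum {ι : Type} (s : Finset ι) {u : ι → ℕ → Y → ℂ} {v : ι → Y → ℂ}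
    (h : ∀ i, Iv μ (u i) (v i)) :
    Iv μ (fun m y => ∑ i ∈ s, u i m y) (fun y => ∑ i ∈ s, v i y) := by
  induction s using Finset.induction_on with
  | empty =>
    refine ⟨fun m => by simp, by simp, ?_⟩
    simp
  | insert a s ha ih =>
    simp only [Finset.sum_insert ha]
    exact (h a).add ih

theorem Iv.re_nonneg (h : Iv μ u v) (h0 : ∀ m, 0 ≤ ∫ y, (u m y).re ∂μ) :
    0 ≤ ∫ y, (v y).re ∂μ := by
  have e : ∀ {f : Y → ℂ}, Integrable f μ → ∫ y, (f y).re ∂μ = (∫ y, f y ∂μ).re :=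
    fun hf => integral_re hf
  rw [e h.iv]
  refine ge_of_tendsto' ((continuous_re.tendsto _).comp h.lim) fun m => ?_
  rw [Function.comp_apply, ← e (h.iu m)]
  exact h0 m

end meas

section main

variable {n : ℕ}

/-- The Levi term, with coefficients cut off outside a compact set. -/
def LT {Y : Type} (w : Y → ℂ) (H : Fin n → Fin n → Y → ℂ) (α : Fin n → Y → ℂ) (y : Y) : ℂ :=
  ∑ j, ∑ k, (w y * (H j k y * α j y)) * conj (α k y)

/-- The whole integrand, with coefficients cut off outside a compact set. -/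
def BT {Y : Type} (w : Y → ℂ) (c : Fin n → Y → ℂ) (H : Fin n → Fin n → Y → ℂ) (α : Fin n → Y → ℂ)
    (g : Y → ℂ) (σ : Fin n → Fin n → Y → ℂ) (y : Y) : ℂ :=
  (w y * (g y - ∑ j, c j y * α j y)) * conj (g y - ∑ j, c j y * α j y) +
    ((1 / 2) * ∑ j, ∑ k, (w y * σ j k y) * conj (σ j k y) + (-1) * LT w H α y)

theorem lev_zero {Y : Type} [TopologicalSpace Y] (p : Y → E n) (f : Y → ℝ) (y : Y) :
    lev p f y 0 = 0 := by
  simp [lev, levE, d2]

variable (D : Dom n) (Φ : D.Y → ℝ) (K : Set D.Y)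

/-- The weight. -/
def ww : D.Y → ℂ := K.indicator fun y => (Real.exp (-Φ y) : ℂ)

/-- The first derivatives. -/
def cc (j : Fin n) : D.Y → ℂ := K.indicator (dz D.p j fun x => (Φ x : ℂ))

/-- The complex Hessian. -/
def HH (j k : Fin n) : D.Y → ℂ := K.indicator (dzb D.p k (dz D.p j fun x => (Φ x : ℂ)))

variable {D Φ K}

theorem lev_re (hΦ : ∀ y ∈ D.W, Sm D.p 2 Φ y) (hK : K ⊆ D.W) {α : Fin n → D.Y → ℂ}
    (h0 : ∀ y ∉ K, ∀ j, α j y = 0) (y : D.Y) :
    lev D.p Φ y (fun j => α j y) * Real.exp (-Φ y) = (4 * LT (ww D Φ K) (HH D Φ K) α y).re := by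
  by_cases hy : y ∈ K
  · rw [← ofReal_re (lev D.p Φ y (fun j => α j y) * Real.exp (-Φ y)), ofReal_mul,
      lev_eq_sum' (D.rd.locH (hK hy)) (hΦ y (hK hy))]
    congr 1
    simp only [LT, ww, HH, indicator_of_mem hy, Finset.mul_sum, Finset.sum_mul]
    exact Finset.sum_congr rfl fun j _ => Finset.sum_congr rfl fun k _ => by ring
  · have e : (fun j => α j y) = 0 := funext (h0 y hy)
    rw [e, lev_zero]
    simp [LT, h0 y hy]

theorem bq_re (hΦ : ∀ y ∈ D.W, Sm D.p 2 Φ y) (hK : K ⊆ D.W) {α : Fin n → D.Y → ℂ} {g : D.Y → ℂ}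
    {σ : Fin n → Fin n → D.Y → ℂ}
    (h0 : ∀ y ∉ K, (∀ j, α j y = 0) ∧ g y = 0 ∧ ∀ j k, σ j k y = 0) (y : D.Y) :
    bq D.p Φ α g σ y = (BT (ww D Φ K) (cc D Φ K) (HH D Φ K) α g σ y).re := by
  have hl := lev_re hΦ hK (fun y hy => (h0 y hy).1) y
  have h4 : ∀ z : ℂ, (4 * z).re = 4 * z.re := fun z => by simp
  have h1 : ∀ z : ℂ, ((-1) * z).re = -z.re := fun z => by simp
  have h2 : ∀ z : ℂ, ((1 / 2) * z).re = 1 / 2 * z.re := fun z => by simp
  rw [h4] at hl
  rw [bq, BT, add_re, add_re, h1, h2]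
  by_cases hy : y ∈ K
  · simp only [mul_assoc, mul_conj, ww, cc, indicator_of_mem hy, ← ofReal_mul, ← ofReal_sum,
      ofReal_re, ← Finset.mul_sum] at hl ⊢
    linear_combination (-1 / 4 : ℝ) * hl
  · simp only [(h0 y hy).1, (h0 y hy).2.1, (h0 y hy).2.2, mul_zero, Finset.sum_const_zero, sub_zero,
      map_zero, zero_re, zero_add, add_zero, zero_sub] at hl ⊢
    linear_combination (-1 / 4 : ℝ) * hl

theorem ind_bdd (hRM : St_RM) (hc : IsCompact K) (hK : K ⊆ D.W) {f : D.Y → ℂ}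
    (hf : ∀ y ∈ D.W, Sm D.p 0 f y) :
    AEStronglyMeasurable (K.indicator f) D.μ ∧ ∃ C, ∀ y, ‖K.indicator f y‖ ≤ C := by
  refine ⟨(aesm_of_sm D hRM hf).indicator hc.measurableSet, ?_⟩
  obtain ⟨C, hC⟩ := hc.exists_bound_of_continuousOn ((contOn_of_sm D hf).mono hK)
  refine ⟨max C 0, fun y => ?_⟩
  by_cases hy : y ∈ K
  · rw [indicator_of_mem hy]; exact (hC y hy).trans (le_max_left _ _)
  · rw [indicator_of_notMem hy, norm_zero]; exact le_max_right _ _

end main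

end W92

open W92 in
theorem stWAP (hRM : St_RM) (hIBP : St_IBP) (hB : St_BOCH) (hM : St_MOLL) : St_WAP := by
  intro n D Φ K α g σ hΦ hW
  obtain ⟨K', hc, hKK, hK, β, hβ, hβ0, tα, tg, tσ⟩ := hM n D K α g σ hW
  have h0 : ∀ y ∉ K', (∀ j, α j y = 0) ∧ g y = 0 ∧ ∀ j k, σ j k y = 0 :=
    fun y hy => hW.off y fun h => hy (hKK h)
  obtain ⟨mw, Cw, bw⟩ := ind_bdd hRM hc hK (f := fun y => (Real.exp (-Φ y) : ℂ))
    fun y hy => (hΦ y hy).neg.exp.ofReal.zero
  have hcc := fun j => ind_bdd hRM hc hK (f := dz D.p j fun x => (Φ x : ℂ))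
    fun y hy => ((hΦ y hy).ofReal.dz (D.rd.locH hy) j).zero
  have hHH := fun j k => ind_bdd hRM hc hK (f := dzb D.p k (dz D.p j fun x => (Φ x : ℂ)))
    fun y hy => ((hΦ y hy).ofReal.dz (D.rd.locH hy) j).dzb (D.rd.locH hy) k
  have cα : ∀ j, Cv D.μ (fun m => β m j) (α j) :=
    fun j => ⟨fun m => (hβ m j).memLp hRM 2, hW.mα j, tα j⟩
  have cg : Cv D.μ (fun m => dv D.p (β m)) g :=
    ⟨fun m => (Tst.dv D.rd (hβ m)).memLp hRM 2, hW.mg, tg⟩
  have cσ : ∀ j k, Cv D.μ (fun m => cu D.p (β m) j k) (σ j k) :=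
    fun j k => ⟨fun m => (Tst.cu D.rd (hβ m) j k).memLp hRM 2, hW.mσ j k, tσ j k⟩
  have iL : Iv D.μ (fun m => LT (ww D Φ K') (HH D Φ K') (β m)) (LT (ww D Φ K') (HH D Φ K') α) :=
    Iv.sum _ fun j => Iv.sum _ fun k =>
      (((cα j).mul (hHH j k).1 (hHH j k).2.choose_spec).mul mw bw).pair (cα k)
  have cA := cg.sub (Cv.sum Finset.univ fun j => (cα j).mul (hcc j).1 (hcc j).2.choose_spec)
  have iB : Iv D.μ
      (fun m => BT (ww D Φ K') (cc D Φ K') (HH D Φ K') (β m) (dv D.p (β m)) (cu D.p (β m)))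
      (BT (ww D Φ K') (cc D Φ K') (HH D Φ K') α g σ) :=
    ((cA.mul mw bw).pair cA).add
      (((Iv.sum _ fun j => Iv.sum _ fun k => ((cσ j k).mul mw bw).pair (cσ j k)).const_mul
        (1 / 2)).add (iL.const_mul (-1)))
  refine ⟨?_, ?_, ?_⟩
  · rw [funext (bq_re hΦ hK h0)]
    exact iB.iv.re
  · rw [funext (lev_re hΦ hK fun y hy => (h0 y hy).1)]
    exact (iL.const_mul 4).iv.re
  · simp only [bq_re hΦ hK h0]
    refine iB.re_nonneg fun m => ?_
    have := hB n D Φ (β m) hΦ (hβ m)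
    simpa only [bq_re hΦ hK (hβ0 m)] using this

end Pool.Agent.Lib.SV
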