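import Pool.Agent.Lib.SV.Blue1

/-! Non-integrability of the pole of order `2 n` in `ℂ^n`. -/

open scoped Classical Topology ENNReal
open Set MeasureTheory Complex Filter Metric

noncomputable section

namespace Pool.Agent.Lib.SV

namespace NINT

variable {n : ℕ}

theorem nsq_le (v : E n) : nsq v ≤ n * ‖v‖ ^ 2 := by
  have h : ∀ j ∈ (Finset.univ : Finset (Fin n)), normSq (v j) ≤ ‖v‖ ^ 2 := fun j _ => by
    rw [Complex.normSq_eq_norm_sq]
    exact pow_le_pow_left₀ (norm_nonneg _) (norm_le_pi_norm v j) 2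
  have h2 := Finset.sum_le_card_nsmul _ _ _ h
  simpa [nsq] using h2

theorem fr : Module.finrank ℝ (E n) = 2 * n := by
  rw [Module.finrank_pi_fintype]
  simp [Complex.finrank_real_complex, mul_comm]

theorem vol_ball (z : E n) {ρ : ℝ} (hρ : 0 < ρ) :
    volume (ball z ρ) = ENNReal.ofReal ((ρ ^ 2) ^ n) * volume (ball (0 : E n) 1) := by
  rw [Measure.addHaar_ball_of_pos volume z hρ, fr, pow_mul]

theorem vol_shell (hn : 0 < n) (z : E n) {ρ : ℝ} (hρ : 0 < ρ) :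
    ENNReal.ofReal ((ρ ^ 2) ^ n / 2) * volume (ball (0 : E n) 1) ≤
      volume (ball z ρ \ ball z (ρ / 2)) := by
  refine le_trans ?_ le_measure_sdiff
  refine ENNReal.le_sub_of_add_le_right measure_ball_lt_top.ne ?_
  rw [vol_ball z hρ, vol_ball z (half_pos hρ), ← add_mul,
    ← ENNReal.ofReal_add (by positivity) (by positivity)]
  refine mul_le_mul_left (ENNReal.ofReal_le_ofReal ?_) _
  have h1 : ((ρ / 2) ^ 2) ^ n = (ρ ^ 2) ^ n * (1 / 4) ^ n := by
    rw [← mul_pow]; congr 1; ring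
  have h2 : ((1 : ℝ) / 4) ^ n ≤ 1 / 4 := by
    simpa using pow_le_pow_of_le_one (a := (1 / 4 : ℝ)) (by norm_num) (by norm_num) hn
  have h3 : 0 ≤ (ρ ^ 2) ^ n := by positivity
  rw [h1]
  nlinarith

theorem shell (hn : 0 < n) {u : E n → ℂ} {z : E n} {c r ρ ε : ℝ} (hc : 0 ≤ c)
    (hu : ∀ w ∈ ball z r, c ≤ ‖u w‖) (hρ : 0 < ρ) (hr : ρ ≤ r) (h0 : 0 < ε) (hε : ε ≤ ρ ^ 2) :
    ENNReal.ofReal (c ^ 2 / (n + 1) ^ n / 2) * volume (ball (0 : E n) 1) ≤
      ∫⁻ w in ball z ρ \ ball z (ρ / 2), ENNReal.ofReal (‖u w‖ ^ 2 / (nsq (w - z) + ε) ^ n) := by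
  have key : ∀ w ∈ ball z ρ \ ball z (ρ / 2), ENNReal.ofReal (c ^ 2 / ((n + 1) * ρ ^ 2) ^ n) ≤
      ENNReal.ofReal (‖u w‖ ^ 2 / (nsq (w - z) + ε) ^ n) := by
    intro w hw
    refine ENNReal.ofReal_le_ofReal ?_
    have h1 : ‖w - z‖ ≤ ρ := by
      have := hw.1
      rw [mem_ball, dist_eq_norm] at this
      exact this.le
    have h2 : nsq (w - z) ≤ n * ρ ^ 2 :=
      (nsq_le _).trans (mul_le_mul_of_nonneg_left (pow_le_pow_left₀ (norm_nonneg _) h1 2)
        (Nat.cast_nonneg n))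
    have h3 := nsq_nonneg (w - z)
    have h4 : 0 < nsq (w - z) + ε := by linarith
    refine div_le_div₀ (by positivity)
      (pow_le_pow_left₀ hc (hu w (ball_subset_ball hr hw.1)) 2) (pow_pos h4 n) ?_
    exact pow_le_pow_left₀ h4.le (by linarith) n
  refine le_trans ?_ (setLIntegral_mono' (measurableSet_ball.diff measurableSet_ball) key)
  rw [setLIntegral_const]
  refine le_trans ?_ (mul_le_mul_right (vol_shell hn z hρ) _)
  rw [← mul_assoc, ← ENNReal.ofReal_mul (by positivity)]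
  refine le_of_eq ?_
  congr 2
  rw [mul_pow]
  field_simp

theorem shells (hn : 0 < n) {u : E n → ℂ} {z : E n} {c r ε : ℝ} (hc : 0 ≤ c)
    (hu : ∀ w ∈ ball z r, c ≤ ‖u w‖) (hr : 0 < r) (h0 : 0 < ε) (J : ℕ)
    (hε : ε ≤ (r / 2 ^ J) ^ 2) :
    J * (ENNReal.ofReal (c ^ 2 / (n + 1) ^ n / 2) * volume (ball (0 : E n) 1)) ≤
      ∫⁻ w in ball z r \ ball z (r / 2 ^ J),
        ENNReal.ofReal (‖u w‖ ^ 2 / (nsq (w - z) + ε) ^ n) := by
  induction J with
  | zero => simp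
  | succ J ih =>
    have hp : 0 < r / 2 ^ J := by positivity
    have he : r / 2 ^ (J + 1) = r / 2 ^ J / 2 := by rw [pow_succ, div_div]
    have hle : r / 2 ^ J ≤ r := div_le_self hr.le (one_le_pow₀ (by norm_num))
    have hε' : ε ≤ (r / 2 ^ J) ^ 2 := by
      refine hε.trans ?_
      rw [he]
      exact pow_le_pow_left₀ (by positivity) (half_le_self hp.le) 2
    have hs : ball z r \ ball z (r / 2 ^ (J + 1)) =
        (ball z r \ ball z (r / 2 ^ J)) ∪ (ball z (r / 2 ^ J) \ ball z (r / 2 ^ J / 2)) := by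
      rw [he]
      exact (sdiff_union_sdiff_cancel (ball_subset_ball hle)
        (ball_subset_ball (half_le_self hp.le))).symm
    rw [hs, lintegral_union (measurableSet_ball.diff measurableSet_ball)
      (disjoint_sdiff_left.mono_right sdiff_subset), Nat.cast_succ, add_mul, one_mul]
    exact add_le_add (ih hε') (shell hn hc hu hp hle h0 hε')

end NINT

theorem stNINT : St_NINT := by
  intro n u z O M hn hO hu hM h
  by_contra hz
  have hc : 0 < ‖u z‖ / 2 := half_pos (norm_pos_iff.2 hz)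
  have h1 : ∀ᶠ w in 𝓝 z, ‖u z‖ / 2 ≤ ‖u w‖ :=
    hu.norm.eventually (eventually_ge_nhds (half_lt_self (norm_pos_iff.2 hz)))
  obtain ⟨r, hr, hb⟩ := Metric.mem_nhds_iff.1 (Filter.inter_mem hO h1)
  set κ := ENNReal.ofReal ((‖u z‖ / 2) ^ 2 / (n + 1) ^ n / 2) * volume (ball (0 : E n) 1) with hκ
  have hκ0 : κ ≠ 0 :=
    mul_ne_zero (ENNReal.ofReal_pos.2 (by positivity)).ne' (measure_ball_pos _ _ one_pos).ne'
  obtain ⟨J, hJ⟩ := ENNReal.exists_nat_mul_gt hκ0 hM
  obtain ⟨k, hk⟩ := exists_nat_one_div_lt (show 0 < (r / 2 ^ J) ^ 2 by positivity)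
  have h2 := NINT.shells hn hc.le (fun w hw => (hb hw).2) hr
    (show (0 : ℝ) < 1 / (k + 1) by positivity) J hk.le
  refine absurd (h2.trans (le_trans ?_ (h k))) (not_le.2 hJ)
  exact lintegral_mono_set fun w hw => (hb hw.1).1

end Pool.Agent.Lib.SV
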