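import Pool.Agent.Lib.SV.Blue1

/-! Freezing a positive Levi form. -/

open scoped Classical Topology ENNReal ComplexOrder MatrixOrder
open Set MeasureTheory Complex Filter Metric

noncomputable section

namespace Pool.Agent.Lib.SV

namespace FRZ

variable {n : ℕ}

theorem smul_split (c : ℂ) (w : E n) : c • w = c.re • w + c.im • (I • w) := by
  funext k
  simp only [Pi.add_apply, Pi.smul_apply, smul_eq_mul, real_smul]
  conv_lhs => rw [← re_add_im c]
  ring

theorem II (w : E n) : I • I • w = (-1 : ℝ) • w := by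
  rw [smul_smul, I_mul_I]
  simp

theorem norm_sq_le (u : E n) : ‖u‖ ^ 2 ≤ nsq u := by
  have h : ‖u‖ ≤ Real.sqrt (nsq u) := by
    refine (pi_norm_le_iff_of_nonneg (Real.sqrt_nonneg _)).2 fun k => ?_
    refine Real.le_sqrt_of_sq_le ?_
    rw [← normSq_eq_norm_sq]
    exact Finset.single_le_sum (f := fun j => normSq (u j)) (fun _ _ => normSq_nonneg _)
      (Finset.mem_univ k)
  calc ‖u‖ ^ 2 ≤ Real.sqrt (nsq u) ^ 2 := pow_le_pow_left₀ (norm_nonneg _) h 2
    _ = nsq u := Real.sq_sqrt (nsq_nonneg u)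

/-- A positive real quadratic form that is invariant under `i` is the square of a norm. -/
theorem herm (B : E n → E n → ℝ) (ha : ∀ v w w', B v (w + w') = B v w + B v w')
    (hs : ∀ v (c : ℝ) w, B v (c • w) = c * B v w) (hy : ∀ v w, B v w = B w v)
    (hi : ∀ v w, B (I • v) (I • w) = B v w) (hp : ∀ v ≠ 0, 0 < B v v) :
    ∃ P : E n ≃L[ℂ] E n, ∀ v, B v v = nsq (P v) := by
  have hk : ∀ v w, B w (I • v) = -B v (I • w) := by
    intro v w
    rw [← hi w (I • v), II, hs, hy]
    ring
  let h : E n → E n →ₗ[ℂ] ℂ := fun v =>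
    { toFun := fun w => (B v w : ℂ) - I * (B v (I • w) : ℂ)
      map_add' := fun w w' => by
        rw [smul_add, ha, ha]
        push_cast
        ring
      map_smul' := fun c w => by
        have e1 : B v (c • w) = c.re * B v w + c.im * B v (I • w) := by
          rw [smul_split, ha, hs, hs]
        have e2 : B v (I • c • w) = c.re * B v (I • w) - c.im * B v w := by
          rw [smul_comm, smul_split, ha, hs, hs, II, hs]
          ring
        rw [e1, e2]
        simp only [RingHom.id_apply, smul_eq_mul]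
        conv_rhs => rw [← re_add_im c]
        push_cast
        linear_combination ((c.im : ℂ) * (B v (I • w) : ℂ)) * I_mul_I }
  have hh : ∀ v w, h v w = (B v w : ℂ) - I * (B v (I • w) : ℂ) := fun _ _ => rfl
  have hc : ∀ v w, h v w = (starRingEnd ℂ) (h w v) := by
    intro v w
    rw [hh, hh, hk v w, hy w v]
    simp [sub_eq_add_neg]
  have hd : ∀ v, h v v = (B v v : ℂ) := by
    intro v
    have : B v (I • v) = 0 := by linarith [hk v v]
    rw [hh, this]
    simp
  have hx : ∀ v w, h v w = ∑ k, w k * h v (Pi.single k 1) := by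
    intro v w
    rw [LinearMap.pi_apply_eq_sum_univ (h v) w]
    refine Finset.sum_congr rfl fun k _ => ?_
    rw [smul_eq_mul]
    congr 2
    funext j
    simp [Pi.single_apply, eq_comm]
  let H : Matrix (Fin n) (Fin n) ℂ := Matrix.of fun j k => h (Pi.single j 1) (Pi.single k 1)
  have hq : ∀ v, star v ⬝ᵥ H.mulVec v = (B v v : ℂ) := by
    intro v
    rw [← hd, hc v v, hx v v, map_sum]
    simp only [dotProduct, Matrix.mulVec, H, Matrix.of_apply, Pi.star_apply]
    refine Finset.sum_congr rfl fun j _ => ?_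
    rw [map_mul, ← hc, hx (Pi.single j 1) v]
    congr 1
    exact Finset.sum_congr rfl fun k _ => mul_comm _ _
  have hH : H.PosDef := by
    refine Matrix.PosDef.of_dotProduct_mulVec_pos ?_ fun v hv => ?_
    · ext j k
      simp only [Matrix.conjTranspose_apply, H, Matrix.of_apply]
      exact (hc _ _).symm
    · rw [hq]
      exact_mod_cast hp v hv
  obtain ⟨a, ha'⟩ := CStarAlgebra.nonneg_iff_eq_star_mul_self.mp hH.posSemidef.nonneg
  have hn : ∀ v, B v v = nsq (a.mulVec v) := by
    intro v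
    have e := hq v
    rw [ha', Matrix.star_eq_conjTranspose, ← Matrix.mulVec_mulVec, Matrix.dotProduct_mulVec,
      ← Matrix.star_mulVec] at e
    have e2 : star (a.mulVec v) ⬝ᵥ a.mulVec v = (nsq (a.mulVec v) : ℂ) := by
      simp only [dotProduct, nsq, Pi.star_apply, ofReal_sum]
      refine Finset.sum_congr rfl fun j _ => ?_
      rw [normSq_eq_conj_mul_self]
      rfl
    rw [e2] at e
    exact_mod_cast e.symm
  have hinj : Function.Injective (Matrix.mulVecLin a) := by
    refine (injective_iff_map_eq_zero _).2 fun v hv => ?_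
    by_contra h0
    have := hp v h0
    rw [hn, show a.mulVec v = 0 from hv] at this
    simp [nsq] at this
  exact ⟨(LinearEquiv.ofInjectiveEndo _ hinj).toContinuousLinearEquiv, hn⟩

end FRZ

theorem stFRZ : St_FRZ := by
  intro n g z hg hp
  set D : E n → E n →L[ℝ] E n →L[ℝ] ℝ := fderiv ℝ (fderiv ℝ g) with hD
  have hsym := hg.isSymmSndFDerivAt (by simp)
  have hl : ∀ w, ContDiffAt ℝ 2 g w → ∀ v, levE g w v = D w v v + D w (I • v) (I • v) :=
    fun w hw v => by rw [levE, d2_eq hw, d2_eq hw]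
  obtain ⟨P, hP⟩ := FRZ.herm (fun v w => (D z v w + D z (I • v) (I • w)) / 8)
    (fun v w w' => by simp only [smul_add, map_add]; ring)
    (fun v c w => by simp only [smul_comm I c w, map_smul, smul_eq_mul]; ring)
    (fun v w => by rw [hsym.eq v w, hsym.eq (I • v) (I • w)])
    (fun v w => by simp only [FRZ.II, map_smul, smul_apply, smul_eq_mul]; ring)
    (fun v hv => by have := hp v hv; rw [hl z hg] at this; positivity)
  refine ⟨P, ?_⟩
  have hc :=
    ((hg.fderiv_right (m := 1) (by norm_num)).fderiv_right (m := 0) (by norm_num)).continuousAt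
  set c : ℝ := ‖(P.symm : E n →L[ℂ] E n)‖ with hcd
  have hε : 0 < 2 / (c ^ 2 + 1) := by positivity
  have hc' := tendsto_iff_norm_sub_tendsto_zero.1 hc.tendsto
  rw [← hD] at hc'
  filter_upwards [hc'.eventually (gt_mem_nhds hε), hg.eventually (by simp)] with w h1 h2 v
  have b : ∀ u : E n, |D w u u - D z u u| ≤ 2 / (c ^ 2 + 1) * ‖u‖ ^ 2 := by
    intro u
    have e : D w u u - D z u u = (D w - D z) u u := rfl
    rw [e, ← Real.norm_eq_abs]
    refine ((D w - D z).le_opNorm₂ u u).trans ?_
    rw [mul_assoc, ← sq]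
    exact mul_le_mul_of_nonneg_right h1.le (sq_nonneg _)
  have hv : ‖v‖ ≤ c * ‖P v‖ := by
    have := (P.symm : E n →L[ℂ] E n).le_opNorm (P v)
    simpa using this
  have hv2 : 2 / (c ^ 2 + 1) * ‖v‖ ^ 2 ≤ 2 * nsq (P v) := by
    have a1 : ‖v‖ ^ 2 ≤ c ^ 2 * nsq (P v) := by
      calc ‖v‖ ^ 2 ≤ (c * ‖P v‖) ^ 2 := pow_le_pow_left₀ (norm_nonneg _) hv 2
        _ = c ^ 2 * ‖P v‖ ^ 2 := mul_pow _ _ _
        _ ≤ c ^ 2 * nsq (P v) := mul_le_mul_of_nonneg_left (FRZ.norm_sq_le _) (sq_nonneg _)
    rw [div_mul_eq_mul_div, div_le_iff₀ (by positivity)]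
    nlinarith [nsq_nonneg (P v)]
  have hI : ‖I • v‖ = ‖v‖ := by rw [norm_smul, norm_I, one_mul]
  have b1 := abs_le.1 (b v)
  have b2 := abs_le.1 (b (I • v))
  rw [hI] at b2
  have b3 := hP v
  rw [hl w h2]
  constructor <;> linarith [b1.1, b1.2, b2.1, b2.2]

end Pool.Agent.Lib.SV
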