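import Pool.Agent.Lib.SV.Blue1

/-! Jets: `t^n` linear conditions force vanishing of order `t`. -/

open scoped Classical Topology
open Set Complex Filter Metric Asymptotics

noncomputable section

namespace Pool.Agent.Lib.SV

namespace JET

variable {n : ℕ}

def cnt {k : ℕ} (r : Fin k → Fin n) (i : Fin n) : ℕ := (Finset.univ.filter fun j => r j = i).card

def G (z : E n) (f : E n → ℂ) (k : ℕ) (b : Fin n → ℕ) : ℂ :=
  ∑ r ∈ Finset.univ.filter fun r : Fin k → Fin n => cnt r = b,
    iteratedFDeriv ℂ k f z fun j => Pi.single (r j) 1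

theorem sum_cnt {k : ℕ} (r : Fin k → Fin n) : ∑ i, cnt r i = k := by
  simpa [cnt] using (Finset.card_eq_sum_card_fiberwise (f := r) (s := Finset.univ)
    (t := Finset.univ) (by simp)).symm

theorem cnt_le {k : ℕ} (r : Fin k → Fin n) (i : Fin n) : cnt r i ≤ k := by
  simpa [cnt] using Finset.card_filter_le (Finset.univ : Finset (Fin k)) fun j => r j = i

theorem diag {z : E n} {f : E n → ℂ} {k : ℕ} (h : ∀ r : Fin k → Fin n, G z f k (cnt r) = 0)
    (v : E n) : (iteratedFDeriv ℂ k f z fun _ => v) = 0 := by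
  have h1 : (fun _ : Fin k => v) = fun _ => ∑ i, v i • (Pi.single i 1 : E n) :=
    funext fun _ => pi_eq_sum_univ' v
  have h2 : ∀ r : Fin k → Fin n, ∏ j, v (r j) = ∏ i, v i ^ cnt r i := fun r => by
    rw [← Finset.prod_fiberwise' Finset.univ r v]
    simp [cnt]
  rw [h1, ContinuousMultilinearMap.map_sum]
  simp only [ContinuousMultilinearMap.map_smul_univ, h2]
  rw [← Finset.sum_fiberwise_of_maps_to (g := cnt) (t := Finset.univ.image cnt)
    fun r hr => Finset.mem_image_of_mem _ hr]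
  refine Finset.sum_eq_zero fun b hb => ?_
  obtain ⟨r, -, rfl⟩ := Finset.mem_image.1 hb
  rw [Finset.sum_congr rfl fun r' hr' => by rw [(Finset.mem_filter.1 hr').2], ← Finset.smul_sum]
  exact smul_eq_zero_of_right _ (h r)

theorem smooth (hSMO : St_SMO) {z : E n} {f : E n → ℂ} (h : ∀ᶠ w in 𝓝 z, DifferentiableAt ℂ f w)
    (k : ℕ) : ContDiffAt ℂ k f z := by
  obtain ⟨U, hU, ho, hz⟩ := _root_.mem_nhds_iff.1 h
  exact (hSMO n ℂ U f ho (fun w hw => (hU hw).differentiableWithinAt) k).contDiffAt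
    (ho.mem_nhds hz)

theorem line (hSMO : St_SMO) {z : E n} {f : E n → ℂ} {R : ℝ} (hR : 0 < R)
    (hf : DifferentiableOn ℂ f (ball z R)) (v : E n) (k : ℕ) :
    iteratedDeriv k (fun c : ℂ => f (z + c • v)) 0 = iteratedFDeriv ℂ k f z fun _ => v := by
  let L : ℂ →L[ℂ] E n := ContinuousLinearMap.toSpanSingleton ℂ v
  have h1 : DifferentiableOn ℂ (fun w => f (z + w)) (ball 0 R) :=
    hf.comp (f := fun w => z + w) (by fun_prop) fun w hw => by simpa using hw
  have ho : IsOpen (L ⁻¹' ball 0 R) := isOpen_ball.preimage L.continuous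
  have h0 : L 0 ∈ ball (0 : E n) R := by simpa using hR
  have h2 := L.iteratedFDerivWithin_comp_right (hSMO n ℂ _ _ isOpen_ball h1 k)
    isOpen_ball.uniqueDiffOn ho.uniqueDiffOn h0 le_rfl
  rw [iteratedFDerivWithin_of_isOpen k ho h0, iteratedFDerivWithin_of_isOpen k isOpen_ball h0,
    iteratedFDeriv_comp_add_left, map_zero, add_zero] at h2
  refine (congrArg (· fun _ => (1 : ℂ)) h2).trans ?_
  simp [L]

end JET

open JET in
theorem stJET (hSMO : St_SMO) : St_JET := by
  intro n t z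
  refine ⟨fun f a => G z f (∑ i, (a i : ℕ)) fun i => a i, fun f g h => ?_,
    fun c f g hf hg => ?_, fun f R M hf hM h0 w hw => ?_⟩
  · funext a
    simp only [G, (h.iteratedFDeriv ℂ _).eq_of_nhds]
  · funext a
    simp only [G, Pi.add_apply, Pi.smul_apply, Finset.smul_sum, ← Finset.sum_add_distrib]
    refine Finset.sum_congr rfl fun r _ => ?_
    rw [iteratedFDeriv_add_apply (f := c • f) ((smooth hSMO hf _).const_smul c) (smooth hSMO hg _),
      iteratedFDeriv_const_smul_apply (smooth hSMO hf _)]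
    rfl
  have hR : 0 < R := nonempty_ball.1 ⟨w, hw⟩
  have hM0 : 0 ≤ M := (norm_nonneg _).trans (hM w hw)
  have hd : ∀ k < t, ∀ v : E n, (iteratedFDeriv ℂ k f z fun _ => v) = 0 := fun k hk =>
    diag fun r => by
      have h1 := congrFun h0 fun i => ⟨cnt r i, (cnt_le r i).trans_lt hk⟩
      simp only [sum_cnt] at h1
      exact h1
  rcases t with _ | s
  · rw [pow_zero]
    linarith [hM w hw]
  have hz : f z = 0 := by simpa using hd 0 s.succ_pos 0
  obtain ⟨v, rfl⟩ : ∃ v, w = z + v := ⟨w - z, by simp⟩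
  rw [add_sub_cancel_left]
  rcases eq_or_ne v 0 with rfl | hv
  · simp [hz]
  have hv' : 0 < ‖v‖ := norm_pos_iff.2 hv
  have hm : ∀ c ∈ ball (0 : ℂ) (R / ‖v‖), z + c • v ∈ ball z R := fun c hc => by
    simpa [norm_smul, lt_div_iff₀ hv'] using hc
  have h1 : DifferentiableOn ℂ (fun c : ℂ => f (z + c • v)) (ball 0 (R / ‖v‖)) :=
    hf.comp (f := fun c : ℂ => z + c • v) (by fun_prop) hm
  have h2 : AnalyticAt ℂ (fun c : ℂ => f (z + c • v)) 0 :=
    h1.analyticAt (ball_mem_nhds _ (by positivity))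
  obtain ⟨g, hg, h3⟩ := (natCast_le_analyticOrderAt h2).1
    ((natCast_le_analyticOrderAt_iff_iteratedDeriv_eq_zero (n := s + 1) h2).2 fun k hk => by
      rw [line hSMO hR hf, hd k hk])
  have h4 : (fun c : ℂ => f (z + c • v) - f (z + (0 : ℂ) • v)) =o[𝓝 0]
      fun c => ‖c - 0‖ ^ s := by
    have h5 := (isBigO_refl (fun c : ℂ => c ^ (s + 1)) (𝓝 0)).mul
      (hg.continuousAt.tendsto.isBigO_one ℂ)
    simp only [mul_one] at h5
    have h6 := (h5.trans_isLittleO (isLittleO_pow_pow s.lt_succ_self)).norm_right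
    refine h6.congr' (h3.mono fun c hc => ?_) (Eventually.of_forall fun c => by simp)
    simp [hc, hz]
  have h5 := dist_le_mul_div_pow_of_mapsTo_ball_of_isLittleO (R₂ := M) (z := 1) h1
    (fun c hc => by simpa [hz] using hM _ (hm c hc)) h4
    (by simpa [lt_div_iff₀ hv'] using hw)
  simp only [one_smul, zero_smul, add_zero, hz, dist_zero_right, norm_one, one_div, inv_div] at h5
  exact h5.trans (mul_le_mul_of_nonneg_right (by linarith) (by positivity))

end Pool.Agent.Lib.SV
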