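import Pool.Agent.Lib.SV.Blue1

/-! The lemma of Siegel and Serre from the jet estimate. -/

open scoped Classical Topology
open Set Metric Filter

set_option linter.unusedVariables false

noncomputable section

namespace Pool.Agent.Lib.SV

theorem stSIE (hJET : St_JET) : St_SIE := by
  intro m t V J _ _ _ r z ρ D hρ hD hDt hd hb
  choose Λ h1 h2 h3 using fun j => hJET m t (z j)
  have hev : ∀ j v, ∀ᶠ w in 𝓝 (z j), DifferentiableAt ℂ (r j v) w := by
    intro j v
    have hm : ball (z j) (2 * ρ j) ∈ 𝓝 (z j) := ball_mem_nhds _ (by have := hρ j; positivity)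
    filter_upwards [hm] with w hw
    exact (hd j v).differentiableAt (isOpen_ball.mem_nhds hw)
  have hlin : ∀ j (c : ℂ) v v', Λ j (r j (c • v + v')) = c • Λ j (r j v) + Λ j (r j v') := by
    intro j c v v'
    rw [map_add, map_smul]
    exact h2 j c _ _ (hev j v) (hev j v')
  have h0 : ∀ j, Λ j (r j 0) = 0 := by
    intro j
    have h := hlin j 1 0 0
    rw [one_smul, one_smul, add_zero] at h
    exact left_eq_add.mp h
  refine ⟨{ toFun := fun v q => Λ q.1 (r q.1 v) q.2, map_add' := ?_, map_smul' := ?_ }, ?_⟩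
  · intro v v'
    funext q
    have h := hlin q.1 1 v v'
    rw [one_smul, one_smul] at h
    rw [h]
    rfl
  · intro c v
    funext q
    have h := hlin q.1 c v 0
    rw [add_zero, h0, add_zero] at h
    rw [h]
    rfl
  · intro v hv
    have hΛ : ∀ j, Λ j (r j v) = 0 := fun j => funext fun a => congrFun hv (j, a)
    have hbd : ∀ j, ∃ M : ℝ, ∀ w ∈ closedBall (z j) (ρ j), ‖r j v w‖ ≤ M := by
      intro j
      refine (isCompact_closedBall (z j) (ρ j)).exists_bound_of_continuousOn ?_
      refine (hd j v).continuousOn.mono (closedBall_subset_ball ?_)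
      have := hρ j
      linarith
    choose M hM using hbd
    have hM0 : ∀ j, 0 ≤ M j := fun j =>
      (norm_nonneg _).trans (hM j (z j) (mem_closedBall_self (hρ j).le))
    have hS : 0 ≤ ∑ j, M j := Finset.sum_nonneg fun j _ => hM0 j
    have h2t : (0 : ℝ) < 2 ^ t := by positivity
    have hq0 : 0 ≤ 2 * D / 2 ^ t := by positivity
    have hq1 : 2 * D / 2 ^ t < 1 := (div_lt_one h2t).2 hDt
    have key : ∀ k : ℕ, ∀ j, ∀ w ∈ ball (z j) (ρ j),
        ‖r j v w‖ ≤ (2 * D / 2 ^ t) ^ k * ∑ j, M j := by
      intro k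
      induction k with
      | zero =>
        intro j w hw
        rw [pow_zero, one_mul]
        exact (hM j w (ball_subset_closedBall hw)).trans
          (Finset.single_le_sum (fun i _ => hM0 i) (Finset.mem_univ j))
      | succ k ih =>
        intro j w hw
        have hN : 0 ≤ (2 * D / 2 ^ t) ^ k * ∑ j, M j := by positivity
        have hw' : w ∈ ball (z j) (2 * ρ j) := ball_subset_ball (by have := hρ j; linarith) hw
        have h := h3 j (r j v) (2 * ρ j) _ (hd j v) (hb v _ hN ih j) (hΛ j) w hw'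
        have hρ2 : 0 < 2 * ρ j := by have := hρ j; positivity
        have hh : ‖w - z j‖ / (2 * ρ j) ≤ 1 / 2 := by
          rw [div_le_iff₀ hρ2]
          have := mem_ball_iff_norm.1 hw
          linarith
        have hp : (‖w - z j‖ / (2 * ρ j)) ^ t ≤ (1 / 2) ^ t :=
          pow_le_pow_left₀ (by positivity) hh t
        refine h.trans ?_
        calc 2 * (D * ((2 * D / 2 ^ t) ^ k * ∑ j, M j)) * (‖w - z j‖ / (2 * ρ j)) ^ t
            ≤ 2 * (D * ((2 * D / 2 ^ t) ^ k * ∑ j, M j)) * (1 / 2) ^ t :=
              mul_le_mul_of_nonneg_left hp (by positivity)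
          _ = (2 * D / 2 ^ t) ^ (k + 1) * ∑ j, M j := by
              rw [one_div, inv_pow, pow_succ, div_eq_mul_inv]
              ring
    intro j w hw
    have hk : ∀ k : ℕ, ‖r j v w‖ ≤ D * ((2 * D / 2 ^ t) ^ k * ∑ j, M j) := fun k =>
      hb v _ (by positivity) (key k) j w hw
    have ht : Tendsto (fun k : ℕ => D * ((2 * D / 2 ^ t) ^ k * ∑ j, M j)) atTop
        (𝓝 (D * (0 * ∑ j, M j))) :=
      ((tendsto_pow_atTop_nhds_zero_of_lt_one hq0 hq1).mul_const _).const_mul _
    rw [zero_mul, mul_zero] at ht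
    exact norm_le_zero_iff.1 (ge_of_tendsto' ht hk)

end Pool.Agent.Lib.SV
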