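import Pool.Agent.Lib.SV.Blue2

/-! Interpolation with an `L²` bound. -/

open scoped Classical Topology ENNReal
open Set MeasureTheory Complex Filter

noncomputable section

namespace Pool.Agent.Lib.SV

namespace INT

section euc

variable {n : ℕ}

/-- Real part of a coordinate. -/
def cR (j : Fin n) : E n →L[ℝ] ℝ := reCLM.comp (ContinuousLinearMap.proj j)

/-- Imaginary part of a coordinate. -/
def cI (j : Fin n) : E n →L[ℝ] ℝ := imCLM.comp (ContinuousLinearMap.proj j)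

theorem nsq_eq : (nsq : E n → ℝ) = fun w => ∑ j, (cR j w * cR j w + cI j w * cI j w) := by
  funext w
  simp [nsq, cR, cI, normSq_apply]

theorem cd_nsq : ContDiff ℝ 2 (nsq : E n → ℝ) := by
  rw [nsq_eq]
  exact ContDiff.sum fun j _ =>
    ((cR j).contDiff.mul (cR j).contDiff).add ((cI j).contDiff.mul (cI j).contDiff)

theorem fd_nsq (w v : E n) : fderiv ℝ (nsq : E n → ℝ) w v =
    (∑ j, ((2 * cR j v) • cR j + (2 * cI j v) • cI j) : E n →L[ℝ] ℝ) w := by
  have : HasFDerivAt (nsq : E n → ℝ)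
      (∑ j, ((cR j w • cR j + cR j w • cR j) + (cI j w • cI j + cI j w • cI j))) w := by
    rw [nsq_eq]
    exact HasFDerivAt.fun_sum fun j _ => ((cR j).hasFDerivAt.mul (cR j).hasFDerivAt).add
      ((cI j).hasFDerivAt.mul (cI j).hasFDerivAt)
  rw [this.fderiv]
  simp only [sum_apply, add_apply,
    smul_apply, smul_eq_mul]
  exact Finset.sum_congr rfl fun j _ => by ring

theorem d2_nsq (z v : E n) : d2 nsq z v = 2 * nsq v := by
  unfold d2
  simp only [fd_nsq]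
  rw [ContinuousLinearMap.fderiv, nsq_eq]
  simp only [sum_apply, add_apply,
    smul_apply, smul_eq_mul, Finset.mul_sum]
  exact Finset.sum_congr rfl fun j _ => by ring

theorem nsq_smul (c : ℂ) (v : E n) : nsq (c • v) = normSq c * nsq v := by
  simp [nsq, Finset.mul_sum]

theorem levE_nsq (z v : E n) : levE nsq z v = 4 * nsq v := by
  rw [levE, d2_nsq, d2_nsq, nsq_smul, normSq_I]
  ring

theorem le_nsq (v : E n) : ‖v‖ ^ 2 ≤ nsq v := by
  have h : ‖v‖ ≤ Real.sqrt (nsq v) := by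
    refine (pi_norm_le_iff_of_nonneg (Real.sqrt_nonneg _)).2 fun j => ?_
    refine Real.le_sqrt_of_sq_le ?_
    rw [← normSq_eq_norm_sq]
    exact Finset.single_le_sum (f := fun j => normSq (v j)) (fun _ _ => normSq_nonneg _)
      (Finset.mem_univ j)
  calc ‖v‖ ^ 2 ≤ Real.sqrt (nsq v) ^ 2 := by gcongr
    _ = nsq v := Real.sq_sqrt (nsq_nonneg v)

theorem nsq_le (v : E n) : nsq v ≤ n * ‖v‖ ^ 2 := by
  have h : ∀ j ∈ (Finset.univ : Finset (Fin n)), normSq (v j) ≤ ‖v‖ ^ 2 := fun j _ => by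
    rw [Complex.normSq_eq_norm_sq]
    exact pow_le_pow_left₀ (norm_nonneg _) (norm_le_pi_norm v j) 2
  have h2 := Finset.sum_le_card_nsmul _ _ _ h
  simpa [nsq] using h2

/-- The affine map that sends the ellipsoid to the unit ball. -/
def aff (P : E n ≃L[ℂ] E n) (c : E n) (r : ℝ) (z : E n) : E n := ((r⁻¹ : ℝ) : ℂ) • P (z - c)

variable (P : E n ≃L[ℂ] E n) (c : E n) {r : ℝ}

theorem nsq_aff (z : E n) : nsq (aff P c r z) = nsq (P (z - c)) / r ^ 2 := by
  rw [aff, nsq_smul, normSq_ofReal]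
  ring

theorem hd_aff (z : E n) :
    HasFDerivAt (aff P c r) (((r⁻¹ : ℝ) : ℂ) • (P : E n →L[ℂ] E n)) z := by
  have := (((P : E n →L[ℂ] E n).hasFDerivAt (x := z - c)).comp z
    ((hasFDerivAt_id z).sub_const c)).const_smul ((r⁻¹ : ℝ) : ℂ)
  rw [ContinuousLinearMap.comp_id] at this
  exact this

theorem cd_aff : ContDiff ℝ 2 (aff P c r) :=
  (((P : E n →L[ℂ] E n).contDiff.restrict_scalars ℝ).comp
    (contDiff_id.sub contDiff_const)).const_smul ((r⁻¹ : ℝ) : ℂ)

theorem cpt_ell (hr : 0 < r) : IsCompact {z | nsq (P (z - c)) ≤ r ^ 2} := by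
  refine Metric.isCompact_of_isClosed_isBounded (isClosed_le (cd_nsq.continuous.comp
    (P.continuous.comp (continuous_id.sub continuous_const))) continuous_const) ?_
  refine (Metric.isBounded_closedBall (x := c) (r := ‖(P.symm : E n →L[ℂ] E n)‖ * r)).subset
    fun z hz => ?_
  have h1 : ‖P (z - c)‖ ≤ r := (pow_le_pow_iff_left₀ (norm_nonneg _) hr.le two_ne_zero).1
    ((le_nsq _).trans hz)
  have h2 := (P.symm : E n →L[ℂ] E n).le_opNorm (P (z - c))
  rw [ContinuousLinearEquiv.coe_coe, P.symm_apply_apply] at h2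
  rw [Metric.mem_closedBall, dist_eq_norm]
  exact h2.trans (by gcongr)

theorem aff_le : ∃ M : ℝ, 1 ≤ M ∧ ∀ z, nsq (aff P c r z) ≤ M * nsq (z - c) := by
  refine ⟨1 + n * ‖(P : E n →L[ℂ] E n)‖ ^ 2 / r ^ 2, le_add_of_nonneg_right (by positivity),
    fun z => ?_⟩
  have h1 := (P : E n →L[ℂ] E n).le_opNorm (z - c)
  rw [ContinuousLinearEquiv.coe_coe] at h1
  have h2 : nsq (P (z - c)) ≤ n * ‖(P : E n →L[ℂ] E n)‖ ^ 2 * nsq (z - c) :=
    calc nsq (P (z - c)) ≤ n * ‖P (z - c)‖ ^ 2 := nsq_le _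
      _ ≤ n * (‖(P : E n →L[ℂ] E n)‖ * ‖z - c‖) ^ 2 := by gcongr
      _ = n * ‖(P : E n →L[ℂ] E n)‖ ^ 2 * ‖z - c‖ ^ 2 := by ring
      _ ≤ _ := by gcongr; exact le_nsq _
  have h3 := nsq_nonneg (z - c)
  rw [nsq_aff, add_mul, one_mul, div_mul_eq_mul_div]
  exact le_add_of_nonneg_of_le h3 (by gcongr)

theorem psh_pole (hLEVC : St_LEVC) {ψ : E n → ℝ} {L : ℝ} (hL : 0 ≤ L) (hψ : ContDiff ℝ 2 ψ)
    (hl : ∀ z v, -(L * nsq v) ≤ levE ψ z v) (z : E n) :
    ContDiffAt ℝ 2 (fun w => L / r ^ 2 * nsq (P w) + ψ (aff P c r w)) z ∧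
      ∀ v, 0 ≤ levE (fun w => L / r ^ 2 * nsq (P w) + ψ (aff P c r w)) z v := by
  have c1 : ContDiffAt ℝ 2 (fun w => nsq (P w)) z :=
    (cd_nsq.comp ((P : E n →L[ℂ] E n).contDiff.restrict_scalars ℝ)).contDiffAt
  have c2 : ContDiffAt ℝ 2 (fun w => ψ (aff P c r w)) z := (hψ.comp (cd_aff P c)).contDiffAt
  have c3 : ContDiffAt ℝ 2 (fun w => L / r ^ 2 * nsq (P w)) z := contDiffAt_const.mul c1
  refine ⟨c3.add c2, fun v => ?_⟩
  have e1 := hLEVC n nsq P z v (Eventually.of_forall fun w => P.differentiableAt) cd_nsq.contDiffAt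
  have e2 := hLEVC n ψ (aff P c r) z v
    (Eventually.of_forall fun w => (hd_aff P c w).differentiableAt) hψ.contDiffAt
  rw [P.fderiv, levE_nsq, ContinuousLinearEquiv.coe_coe] at e1
  rw [(hd_aff P c z).fderiv, smul_apply, ContinuousLinearEquiv.coe_coe] at e2
  have e3 := hl (aff P c r z) (((r⁻¹ : ℝ) : ℂ) • P v)
  rw [← e2, nsq_smul, normSq_ofReal] at e3
  have e4 : levE (fun w => L / r ^ 2 * nsq (P w) + ψ (aff P c r w)) z v =
      L / r ^ 2 * levE (nsq ∘ P) z v + levE (ψ ∘ aff P c r) z v := by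
    unfold levE
    rw [d2_add c3 c2, d2_add c3 c2, d2_const_mul c1, d2_const_mul c1]
    simp only [Function.comp_def]
    ring
  have e5 : 0 ≤ L / r ^ 2 * nsq (P v) := mul_nonneg (by positivity) (nsq_nonneg _)
  have e6 : L * (r⁻¹ * r⁻¹ * nsq (P v)) = L / r ^ 2 * nsq (P v) := by ring
  rw [e4, e1]
  linarith

end euc

section rd

variable {n : ℕ} {Y : Type} [TopologicalSpace Y] {p : Y → E n} {W : Set Y} {x : Y}
  {e : OpenPartialHomeomorph Y (E n)} {g : E n → ℝ} {T : Set (E n)}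

theorem pull (h : LocH p x) (g : E n → ℝ) : (fun z => g (p z)) ∘ lift p x =ᶠ[𝓝 (p x)] g :=
  h.p_lift.mono fun z hz => by simp only [Function.comp_apply, hz]

theorem psh_pull (h : LocH p x) (hg : ContDiffAt ℝ 2 g (p x) ∧ ∀ v, 0 ≤ levE g (p x) v) :
    Psh p (fun z => g (p z)) x :=
  ⟨hg.1.congr_of_eventuallyEq (pull h g), fun v => (hg.2 v).trans_eq (levE_congr (pull h g) v).symm⟩

theorem cpt (he : Cht p W e) (hT : IsCompact T) (ht : T ⊆ e.target) :
    IsCompact (e.source ∩ p ⁻¹' T) := by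
  have : e.source ∩ p ⁻¹' T = e.symm '' T := by
    ext x
    constructor
    · exact fun h => ⟨p x, h.2, he.symm_p h.1⟩
    · rintro ⟨z, hz, rfl⟩
      exact ⟨e.map_target (ht hz), by rw [mem_preimage, he.p_symm (ht hz)]; exact hz⟩
  rw [this]
  exact hT.image_of_continuousOn (e.continuousOn_symm.mono ht)

variable (p) in
/-- Extension by zero from a chart. -/
def ex (e : OpenPartialHomeomorph Y (E n)) (g : E n → ℝ) : Y → ℝ :=
  e.source.indicator fun x => g (p x)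

theorem ex_mem (hx : x ∈ e.source) : ex p e g x = g (p x) := indicator_of_mem hx _

theorem ex_in (hx : x ∈ e.source) : ex p e g =ᶠ[𝓝 x] fun z => g (p z) := by
  filter_upwards [e.open_source.mem_nhds hx] with z hz using ex_mem hz

theorem ex_off (hg : ∀ z ∉ T, g z = 0) (hx : x ∉ e.source ∩ p ⁻¹' T) : ex p e g x = 0 := by
  by_cases h : x ∈ e.source
  · rw [ex_mem h]
    exact hg _ fun h' => hx ⟨h, h'⟩
  · exact indicator_of_notMem h _

theorem lowlev (hLOCB : St_LOCB) (h : RD p W) {K : Set Y} (hK : IsCompact K) (hKW : K ⊆ W)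
    {f : Y → ℝ} (hf : ∀ x ∈ W, Sm p 2 f x ∧ ∀ v ≠ 0, 0 < lev p f x v) :
    ∃ M, 0 ≤ M ∧ ∀ x ∈ K, ∀ v, nsq v ≤ M * lev p f x v := by
  have h0 : ∀ x ∈ W, ∀ v, 0 ≤ lev p f x v := fun x hx v => by
    rcases eq_or_ne v 0 with rfl | hv
    · exact lev_zero.ge
    · exact ((hf x hx).2 v hv).le
  have : ∃ M, 0 ≤ M ∧ ∀ x ∈ K, x ∈ W → ∀ v, nsq v ≤ M * lev p f x v := by
    refine hK.induction_on (p := fun s => ∃ M, 0 ≤ M ∧ ∀ x ∈ s, x ∈ W → ∀ v,
      nsq v ≤ M * lev p f x v) ⟨0, le_rfl, fun _ h => h.elim⟩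
      (fun s t hst ⟨M, h1, h2⟩ => ⟨M, h1, fun x hx => h2 x (hst hx)⟩)
      (fun s t ⟨M, h1, h2⟩ ⟨N, h3, h4⟩ => ⟨M + N, by positivity, fun x hx hW v => ?_⟩)
      fun x hx => ?_
    · have := h0 x hW v
      rcases hx with hx | hx
      · exact (h2 x hx hW v).trans (by nlinarith)
      · exact (h4 x hx hW v).trans (by nlinarith)
    · have hl := h.locH (hKW hx)
      obtain ⟨M, hM⟩ := hLOCB n _ _ _ (hf x (hKW hx)).1 (hf x (hKW hx)).1 (hf x (hKW hx)).2
      refine ⟨_, mem_nhdsWithin_of_mem_nhds ((hl.continuousAt.tendsto.eventually hM).and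
        hl.lift_near), |M|, abs_nonneg _, fun z hz hW v => ?_⟩
      have a := (hz.1 v).2.2.1
      rw [← levE_congr (hz.2.fun_comp f) v] at a
      exact a.trans (mul_le_mul_of_nonneg_right (le_abs_self M) (h0 z hW v))
  obtain ⟨M, h1, h2⟩ := this
  exact ⟨M, h1, fun x hx => h2 x hx (hKW hx)⟩

theorem dbar_le (hLOCB : St_LOCB) (h : RD p W) {K : Set Y} (hK : IsCompact K) (hKW : K ⊆ W)
    {f : Y → ℝ} (hf : ∀ x ∈ W, Sm p 2 f x ∧ ∀ v ≠ 0, 0 < lev p f x v) {G : Y → ℂ}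
    (hG : ∀ x ∈ W, Sm p 2 G x) :
    ∃ M, 0 ≤ M ∧ ∀ x ∈ K, ∀ v, ‖dbar p G x v‖ ^ 2 ≤ M * lev p f x v := by
  obtain ⟨M, h0, hM⟩ := lowlev hLOCB h hK hKW hf
  obtain ⟨A, hA⟩ := hK.exists_bound_of_continuousOn (f := dd p G) fun y hy =>
    ((Sm.dd (k := 1) (h.locH (hKW hy)) (hG y (hKW hy))).continuousAt
      (h.locH (hKW hy))).continuousWithinAt
  refine ⟨(2 * A) ^ 2 * M, by positivity, fun x hx v => ?_⟩
  have a1 := ((dd p G x).le_opNorm v).trans (mul_le_mul_of_nonneg_right (hA x hx) (norm_nonneg _))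
  have a2 := ((dd p G x).le_opNorm (I • v)).trans
    (mul_le_mul_of_nonneg_right (hA x hx) (norm_nonneg _))
  rw [norm_smul, norm_I, one_mul] at a2
  have a3 : ‖dbar p G x v‖ ≤ 2 * A * ‖v‖ := by
    refine (norm_add_le _ _).trans ?_
    rw [norm_mul, norm_I, one_mul]
    linarith
  calc ‖dbar p G x v‖ ^ 2 ≤ (2 * A * ‖v‖) ^ 2 := by gcongr
    _ = (2 * A) ^ 2 * ‖v‖ ^ 2 := by ring
    _ ≤ (2 * A) ^ 2 * (M * lev p f x v) := by gcongr; exact (le_nsq v).trans (hM x hx v)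
    _ = _ := by ring

theorem dbar_zero (h : LocH p x) {G : Y → ℂ} {c : ℂ} (e : G =ᶠ[𝓝 x] fun _ => c) (v : E n) :
    dbar p G x v = 0 := by
  have : dd p (fun _ => c) x = 0 := (hasFDerivAt_const c (p x)).fderiv
  simp [dbar, dd_congr h e, this]

end rd

end INT

open INT in
theorem stINT (hHOR : St_HOR) (hPOLE : St_POLE) (hNINT : St_NINT) (hLOCB : St_LOCB) (hRM : St_RM)
    (hLEVC : St_LEVC) (_hFS : St_FS) : St_INT := by
  intro n hn
  obtain ⟨L, hL, ψ, χ, cψ, cχ, anti, ψle, ψ0, χ0, χ1, ψge, ψlev, ψeq⟩ := hPOLE n hn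
  refine ⟨L, hL, fun D s Φ φ₀ J _ y P r B hs hP hW hB a => ?_⟩
  choose e he hy ht hBe using hP.cht
  have hr := hP.pos
  obtain ⟨hrm, -, hcht, -, -, -, hfin, -⟩ := hRM n D
  obtain ⟨A, hA⟩ : ∃ A : J → E n → E n, A = fun j => aff (P j) (D.p (y j)) (r j) := ⟨_, rfl⟩
  have nA : ∀ j z, nsq (A j z) = nsq (P j (z - D.p (y j))) / r j ^ 2 := fun j z => by
    rw [hA]; exact nsq_aff _ _ _
  have cA : ∀ j, ContDiff ℝ 2 (A j) := fun j => by rw [hA]; exact cd_aff _ _
  have cN : ∀ j, Continuous fun z => nsq (A j z) := fun j => cd_nsq.continuous.comp (cA j).continuous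
  have r2 : ∀ j, 0 < r j ^ 2 := fun j => pow_pos (hr j) 2
  have cB : ∀ j, IsCompact (B j) := fun j => by
    rw [hBe j]; exact cpt (he j) (cpt_ell _ _ (hr j)) (ht j)
  have Bs : ∀ j, B j ⊆ (e j).source := fun j => by rw [hBe j]; exact inter_subset_left
  have BW : ∀ j, B j ⊆ D.W := fun j => (Bs j).trans (he j).sub
  have loc : ∀ x ∈ D.W, LocH D.p x := fun x hx => D.rd.locH hx
  have off : ∀ g : E n → ℝ, (∀ z, 1 ≤ nsq z → g z = 0) → ∀ j x, x ∉ B j →
      ex D.p (e j) (g ∘ A j) x = 0 := fun g hg j x hx => by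
    rw [hBe j] at hx
    refine ex_off (T := {z | nsq (P j (z - D.p (y j))) ≤ r j ^ 2}) (fun z hz => hg _ ?_) hx
    rw [nA, le_div_iff₀ (r2 j), one_mul]
    exact (not_le.1 hz).le
  have evB : ∀ x, ∀ᶠ z in 𝓝 x, ∀ i, x ∉ B i → z ∉ B i := fun x => eventually_all.2 fun i => by
    by_cases h : x ∈ B i
    · exact Eventually.of_forall fun _ h' => (h' h).elim
    · filter_upwards [(cB i).isClosed.isOpen_compl.mem_nhds h] with z hz _ using hz
  have dj : ∀ j, ∀ x ∈ B j, ∀ i, i ≠ j → x ∉ B i := fun j x hx i hi h =>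
    disjoint_left.1 (hP.disj hi) h hx
  have sm : ∀ g : E n → ℝ, ContDiff ℝ 2 g → (∀ z, 1 ≤ nsq z → g z = 0) → ∀ j, ∀ x ∈ D.W,
      Sm D.p 2 (ex D.p (e j) (g ∘ A j)) x := fun g hg h0 j x hx => by
    by_cases h : x ∈ B j
    · refine Sm.congr (loc x hx) ?_ (ex_in (Bs j h))
      exact (hg.comp (cA j)).contDiffAt.congr_of_eventuallyEq (pull (loc x hx) _)
    · refine Sm.congr (loc x hx) (sm_const 0) ?_
      filter_upwards [evB x] with z hz using off g h0 j z (hz j h)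
  obtain ⟨u, hu⟩ : ∃ u : ℕ → J → D.Y → ℝ, u = fun k j => ex D.p (e j) (ψ k ∘ A j) := ⟨_, rfl⟩
  have u0 : ∀ k j x, x ∉ B j → u k j x = 0 := fun k => by rw [hu]; exact off _ (ψ0 k)
  have u1 : ∀ k j, ∀ x ∈ (e j).source, u k j x = ψ k (A j (D.p x)) := fun k j x hx => by
    rw [hu]; exact ex_mem hx
  have us : ∀ k j, ∀ x ∈ B j, ∑ i, u k i x = ψ k (A j (D.p x)) := fun k j x hx => by
    rw [← u1 k j x (Bs j hx)]
    exact Finset.sum_eq_single j (fun i _ hi => u0 k i x (dj j x hx i hi)) (by simp)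
  have un : ∀ k x, (∀ j, x ∉ B j) → ∑ i, u k i x = 0 := fun k x hx =>
    Finset.sum_eq_zero fun i _ => u0 k i x (hx i)
  obtain ⟨G, hG⟩ : ∃ G : D.Y → ℂ, G = fun x => ∑ j, a j * (ex D.p (e j) (χ ∘ A j) x : ℂ) :=
    ⟨_, rfl⟩
  have Gs : ∀ x ∈ D.W, Sm D.p 2 G x := fun x hx => by
    rw [hG]; exact Sm.sum fun j _ => (sm_const _).mul (sm χ cχ χ0 j x hx).ofReal
  have G0 : ∀ x, (∀ j, x ∉ B j) → G x = 0 := fun x hx => by
    rw [hG]; exact Finset.sum_eq_zero fun i _ => by rw [off χ χ0 i x (hx i)]; simp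
  have G1 : ∀ j, ∀ x ∈ B j, nsq (A j (D.p x)) ≤ 1 / 4 → G x = a j := fun j x hx h => by
    rw [hG]
    refine (Finset.sum_eq_single j (fun i _ hi => ?_) (by simp)).trans ?_
    · rw [off χ χ0 i x (dj j x hx i hi)]; simp
    · rw [ex_mem (Bs j hx), Function.comp_apply, χ1 _ h]; simp
  have inB : ∀ j, ∀ x ∈ (e j).source, nsq (A j (D.p x)) ≤ 1 / 4 → x ∈ B j := fun j x hx h => by
    rw [hBe j]
    refine ⟨hx, ?_⟩
    rw [nA, div_le_iff₀ (r2 j)] at h
    have := r2 j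
    exact le_trans h (by linarith)
  obtain ⟨S, hS⟩ : ∃ S : Set D.Y, S = ⋃ j, (e j).source ∩ D.p ⁻¹'
    ({z | nsq (P j (z - D.p (y j))) ≤ r j ^ 2} ∩ {z | 1 / 4 ≤ nsq (A j z)}) := ⟨_, rfl⟩
  have mS : ∀ x, x ∈ S ↔ ∃ j, x ∈ B j ∧ 1 / 4 ≤ nsq (A j (D.p x)) := fun x => by
    rw [hS, mem_iUnion]
    refine exists_congr fun j => ?_
    rw [hBe j]
    exact and_assoc.symm
  have cS : IsCompact S := by
    rw [hS]
    exact isCompact_iUnion fun j => cpt (he j) ((cpt_ell _ _ (hr j)).inter_right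
      (isClosed_le continuous_const (cN j))) (inter_subset_left.trans (ht j))
  have cK : IsCompact (⋃ j, B j) := isCompact_iUnion cB
  have KW : (⋃ j, B j) ⊆ D.W := iUnion_subset BW
  have SK : S ⊆ ⋃ j, B j := fun x hx => by
    obtain ⟨j, h, -⟩ := (mS x).1 hx
    exact mem_iUnion.2 ⟨j, h⟩
  obtain ⟨C, C0, hC⟩ := dbar_le hLOCB D.rd cS (SK.trans KW)
    (fun x hx => ⟨(hW x hx).1, (hW x hx).2.1⟩) Gs
  obtain ⟨m, hm⟩ := cK.exists_bound_of_continuousOn (f := fun x => Φ x + φ₀ x) fun x hx =>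
    (((hW x (KW hx)).2.2.continuousAt (loc x (KW hx))).add
      ((hW x (KW hx)).1.continuousAt (loc x (KW hx)))).continuousWithinAt
  obtain ⟨g, hg⟩ := cK.exists_bound_of_continuousOn (f := G) fun x hx =>
    ((Gs x (KW hx)).continuousAt (loc x (KW hx))).continuousWithinAt
  have hm' : ∀ x ∈ ⋃ j, B j, -m ≤ Φ x + φ₀ x ∧ Φ x + φ₀ x ≤ m := fun x hx => abs_le.1 (hm x hx)
  have H : ∃ (F : D.Y → ℂ) (M : ℝ≥0∞), M ≠ ∞ ∧ (∀ x ∈ D.W, Hol D.p F x) ∧ ∀ k, ∫⁻ x,
      ENNReal.ofReal (‖G x - F x‖ ^ 2 * Real.exp (-(Φ x + φ₀ x + ∑ j, u k j x))) ∂D.μ ≤ M := by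
    refine hHOR n D s G φ₀ (S.indicator fun _ => C)
      (fun k x => Φ x + φ₀ x + ∑ j, u k j x) (ENNReal.ofReal (C * Real.exp (m + L)) * D.μ S) hs
      (fun x hx => ⟨Gs x hx, ⟨(hW x hx).1, fun v => ?_⟩, indicator_nonneg (fun _ _ => C0) x,
        fun v => ?_, fun k => ?_, fun k l hkl => ?_⟩)
      (measurable_const.indicator cS.isClosed.measurableSet).aemeasurable
      (ENNReal.mul_ne_top ENNReal.ofReal_ne_top (hfin S cS (SK.trans KW))) fun k => ?_
    · rcases eq_or_ne v 0 with rfl | hv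
      · exact lev_zero.ge
      · exact ((hW x hx).2.1 v hv).le
    · by_cases h : x ∈ S
      · rw [indicator_of_mem h]
        exact hC x h v
      · have : ∃ c, G =ᶠ[𝓝 x] fun _ => c := by
          by_cases h' : ∃ j, x ∈ B j
          · obtain ⟨j, hj⟩ := h'
            have h1 : nsq (A j (D.p x)) < 1 / 4 := not_le.1 fun h2 => h ((mS x).2 ⟨j, hj, h2⟩)
            refine ⟨a j, ?_⟩
            filter_upwards [(e j).open_source.mem_nhds (Bs j hj),
              (((cN j).continuousAt.comp (loc x hx).continuousAt).eventually_lt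
                continuousAt_const h1)] with z h2 h3 using G1 j z (inB j z h2 h3.le) h3.le
          · refine ⟨0, ?_⟩
            filter_upwards [evB x] with z hz using G0 z fun j => hz j fun h2 => h' ⟨j, h2⟩
        obtain ⟨c, hc⟩ := this
        rw [indicator_of_notMem h, dbar_zero (loc x hx) hc]
        simp
    · by_cases h' : ∃ j, x ∈ B j
      · obtain ⟨j, hj⟩ := h'
        have h1 : LU D.p (fun z => L / r j ^ 2 * nsq (P j (D.p z)) + ψ k (A j (D.p z))) x := by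
          refine LU.of_psh ((loc x hx).eventually.mono fun z hz => ?_)
          rw [hA]
          exact psh_pull hz (psh_pole (P j) (D.p (y j)) hLEVC hL.le (cψ k) (ψlev k) _)
        refine ((hB j x hj).add h1).congr ?_
        filter_upwards [(e j).open_source.mem_nhds (Bs j hj), evB x] with z h2 h3
        rw [Finset.sum_eq_single j (fun i _ hi => u0 k i z (h3 i (dj j x hj i hi))) (by simp),
          u1 k j z h2]
        ring
      · refine (hW x hx).2.2.congr ?_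
        filter_upwards [evB x] with z hz
        rw [un k z fun j => hz j fun h2 => h' ⟨j, h2⟩]
        ring
    · refine add_le_add le_rfl ?_
      by_cases h' : ∃ j, x ∈ B j
      · obtain ⟨j, hj⟩ := h'
        rw [us k j x hj, us l j x hj]
        exact anti _ hkl
      · rw [un k x fun j h => h' ⟨j, h⟩, un l x fun j h => h' ⟨j, h⟩]
    · rw [← lintegral_indicator_const cS.isClosed.measurableSet]
      refine lintegral_mono fun x => ?_
      by_cases h : x ∈ S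
      · obtain ⟨j, hj, h1⟩ := (mS x).1 h
        rw [indicator_of_mem h, indicator_of_mem h, us k j x hj]
        refine ENNReal.ofReal_le_ofReal (mul_le_mul_of_nonneg_left (Real.exp_le_exp.2 ?_) C0)
        linarith [(hm' x (SK h)).1, ψge k _ h1]
      · simp [indicator_of_notMem h]
  obtain ⟨F, M, hM, hF, hI⟩ := H
  refine ⟨F, hF, fun j => ?_, ?_⟩
  · obtain ⟨N, N1, hN⟩ := aff_le (P j) (D.p (y j)) (r := r j)
    have a0 : nsq (A j (D.p (y j))) = 0 := by rw [nA]; simp [nsq]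
    have yW := (he j).sub (hy j)
    have hO : (e j).target ∩ {z | nsq (A j z) < 1 / 4} ∈ 𝓝 (D.p (y j)) :=
      inter_mem ((e j).open_target.mem_nhds ((he j).mem_target (hy j)))
        ((isOpen_lt (cN j) continuous_const).mem_nhds (by simp [a0]))
    have hc : ContinuousAt (fun w => G ((e j).symm w) - F ((e j).symm w)) (D.p (y j)) :=
      (((he j).sm_iff (hy j)).1 (Gs _ yW)).continuousAt.sub
        (((he j).hol_iff (hy j)).1 (hF _ yW)).continuousAt
    have := hNINT n _ _ _ (ENNReal.ofReal (N ^ n * Real.exp m) * M) hn hO hc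
      (ENNReal.mul_ne_top ENNReal.ofReal_ne_top hM) fun k => ?_
    · rw [(he j).symm_p (hy j), G1 j _ (inB j _ (hy j) (by simp [a0])) (by simp [a0])] at this
      exact (sub_eq_zero.1 this).symm
    · refine le_trans ?_ (mul_le_mul_right ((setLIntegral_le_lintegral (e j).source _).trans
        (hI k)) _)
      rw [hcht _ (he j), ← lintegral_const_mul' _ _ ENNReal.ofReal_ne_top]
      refine le_trans ?_ (lintegral_mono_set (inter_subset_left
        (t := {z | nsq (A j z) < 1 / 4})))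
      refine setLIntegral_mono' ((e j).open_target.inter
        (isOpen_lt (cN j) continuous_const)).measurableSet fun w hw => ?_
      have p1 := (he j).p_symm hw.1
      have h1 : nsq (A j w) ≤ 1 / 4 := le_of_lt hw.2
      have hb : (e j).symm w ∈ B j := inB j _ ((e j).map_target hw.1) (by rwa [p1])
      have h2 := (hm' _ (mem_iUnion.2 ⟨j, hb⟩)).2
      have k0 : (0 : ℝ) < 1 / (k + 1) := by positivity
      have h3 : 0 < nsq (A j w) + 1 / (k + 1) := add_pos_of_nonneg_of_pos (nsq_nonneg _) k0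
      have h4 : 0 < nsq (w - D.p (y j)) + 1 / (k + 1) := add_pos_of_nonneg_of_pos (nsq_nonneg _) k0
      have h5 : nsq (A j w) + 1 / (k + 1) ≤ N * (nsq (w - D.p (y j)) + 1 / (k + 1)) := by
        have := hN w
        rw [hA]
        nlinarith
      rw [← ENNReal.ofReal_mul (by positivity), us k j _ hb, p1, ψeq k _ h1]
      refine ENNReal.ofReal_le_ofReal ?_
      rw [neg_add, Real.exp_add, ← Real.log_pow, Real.exp_neg (Real.log _),
        Real.exp_log (pow_pos h3 n), div_le_iff₀ (pow_pos h4 n)]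
      have h6 : 1 ≤ Real.exp m * Real.exp (-(Φ ((e j).symm w) + φ₀ ((e j).symm w))) := by
        rw [← Real.exp_add]
        exact Real.one_le_exp (by linarith)
      have h7 : 1 ≤ (N * (nsq (w - D.p (y j)) + 1 / (k + 1))) ^ n *
          ((nsq (A j w) + 1 / (k + 1)) ^ n)⁻¹ := by
        rw [← div_eq_mul_inv, one_le_div (pow_pos h3 n)]
        gcongr
      have h8 := mul_le_mul_of_nonneg_left (mul_le_mul h6 h7 zero_le_one (zero_le_one.trans h6))
        (sq_nonneg ‖G ((e j).symm w) - F ((e j).symm w)‖)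
      rw [mul_pow] at h8
      exact (by ring : _ = _).trans_le (h8.trans_eq (by ring))
  · refine ne_top_of_le_ne_top (b := ENNReal.ofReal (2 * g ^ 2 * Real.exp m) * D.μ (⋃ j, B j) +
      ENNReal.ofReal (2 * Real.exp L) * M) (ENNReal.add_ne_top.2
        ⟨ENNReal.mul_ne_top ENNReal.ofReal_ne_top (hfin _ cK KW),
          ENNReal.mul_ne_top ENNReal.ofReal_ne_top hM⟩) ?_
    refine le_trans ?_ (add_le_add le_rfl (mul_le_mul_right (hI 0) _))
    rw [← lintegral_indicator_const cK.isClosed.measurableSet,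
      ← lintegral_const_mul' _ _ ENNReal.ofReal_ne_top,
      ← lintegral_add_left (measurable_const.indicator cK.isClosed.measurableSet)]
    refine lintegral_mono fun x => ?_
    have h1 : ∑ j, u 0 j x ≤ L := by
      by_cases h' : ∃ j, x ∈ B j
      · obtain ⟨j, hj⟩ := h'
        rw [us 0 j x hj]
        exact ψle _ _
      · rw [un 0 x fun j h => h' ⟨j, h⟩]
        exact hL.le
    have h2 : Real.exp (-(Φ x + φ₀ x)) ≤ Real.exp L * Real.exp (-(Φ x + φ₀ x + ∑ j, u 0 j x)) := by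
      rw [← Real.exp_add]
      exact Real.exp_le_exp.2 (by linarith)
    have h3 : ‖F x‖ ^ 2 ≤ 2 * ‖G x‖ ^ 2 + 2 * ‖G x - F x‖ ^ 2 := by
      have := norm_sub_le (G x) (G x - F x)
      rw [sub_sub_cancel] at this
      nlinarith [norm_nonneg (F x), sq_nonneg (‖G x‖ - ‖G x - F x‖)]
    have h4 : ENNReal.ofReal (2 * ‖G x‖ ^ 2 * Real.exp (-(Φ x + φ₀ x))) ≤
        (⋃ j, B j).indicator (fun _ => ENNReal.ofReal (2 * g ^ 2 * Real.exp m)) x := by
      by_cases h : x ∈ ⋃ j, B j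
      · rw [indicator_of_mem h]
        refine ENNReal.ofReal_le_ofReal ?_
        have := hg x h
        have := (hm' x h).1
        gcongr
        linarith
      · rw [G0 x fun j h' => h (mem_iUnion.2 ⟨j, h'⟩)]
        simp
    refine le_trans ?_ (add_le_add h4 le_rfl)
    rw [← ENNReal.ofReal_mul (by positivity), ← ENNReal.ofReal_add (by positivity) (by positivity)]
    refine ENNReal.ofReal_le_ofReal ?_
    calc _ ≤ (2 * ‖G x‖ ^ 2 + 2 * ‖G x - F x‖ ^ 2) * Real.exp (-(Φ x + φ₀ x)) := by gcongr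
      _ = 2 * ‖G x‖ ^ 2 * Real.exp (-(Φ x + φ₀ x)) +
        2 * ‖G x - F x‖ ^ 2 * Real.exp (-(Φ x + φ₀ x)) := by ring
      _ ≤ 2 * ‖G x‖ ^ 2 * Real.exp (-(Φ x + φ₀ x)) + 2 * ‖G x - F x‖ ^ 2 *
        (Real.exp L * Real.exp (-(Φ x + φ₀ x + ∑ j, u 0 j x))) := by gcongr
      _ = _ := by ring

end Pool.Agent.Lib.SV
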