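import Pool.Agent.Lib.SV.Defs

/-! Basic facts on local inverses and on the calculus of a Riemann domain. -/

open scoped Classical Topology ENNReal
open Set MeasureTheory Complex Filter

set_option linter.unusedVariables false
set_option linter.unusedSectionVars false

noncomputable section

namespace Pool.Agent.Lib.SV

section lift

variable {Y Z : Type} [TopologicalSpace Y] [TopologicalSpace Z] {p : Y → Z} {y : Y}

/-- `p` agrees near `y` with an open partial homeomorphism. -/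
def LocH (p : Y → Z) (y : Y) : Prop :=
  ∃ e : OpenPartialHomeomorph Y Z, y ∈ e.source ∧ EqOn p e e.source

theorem LocH.of_on {W : Set Y} (h : IsLocalHomeomorphOn p W) (hy : y ∈ W) : LocH p y := by
  obtain ⟨e, he, rfl⟩ := h y hy
  exact ⟨e, he, fun _ _ => rfl⟩

theorem LocH.spec (h : LocH p y) : ∃ e : OpenPartialHomeomorph Y Z,
    y ∈ e.source ∧ EqOn p e e.source ∧ lift p y = e.symm := by
  refine ⟨h.choose, h.choose_spec.1, h.choose_spec.2, ?_⟩
  unfold lift
  exact dif_pos h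

theorem LocH.lift_self (h : LocH p y) : lift p y (p y) = y := by
  obtain ⟨e, he, hp, hl⟩ := h.spec
  rw [hl, hp he, e.left_inv he]

theorem LocH.continuousAt_lift (h : LocH p y) : ContinuousAt (lift p y) (p y) := by
  obtain ⟨e, he, hp, hl⟩ := h.spec
  rw [hl, hp he]
  exact e.continuousAt_symm (e.map_source he)

theorem LocH.tendsto_lift (h : LocH p y) : Tendsto (lift p y) (𝓝 (p y)) (𝓝 y) := by
  have := h.continuousAt_lift.tendsto
  rwa [h.lift_self] at this

theorem LocH.continuousAt (h : LocH p y) : ContinuousAt p y := by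
  obtain ⟨e, he, hp⟩ := h
  exact (e.continuousAt he).congr (hp.eventuallyEq_of_mem (e.open_source.mem_nhds he)).symm

theorem LocH.p_lift (h : LocH p y) : ∀ᶠ z in 𝓝 (p y), p (lift p y z) = z := by
  obtain ⟨e, he, hp, hl⟩ := h.spec
  rw [hl, hp he]
  filter_upwards [e.open_target.mem_nhds (e.map_source he)] with z hz
  rw [hp (e.map_target hz), e.right_inv hz]

theorem LocH.lift_p (h : LocH p y) : ∀ᶠ x in 𝓝 y, lift p y (p x) = x := by
  obtain ⟨e, he, hp, hl⟩ := h.spec
  filter_upwards [e.open_source.mem_nhds he] with x hx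
  rw [hl, hp hx, e.left_inv hx]

theorem LocH.eventually (h : LocH p y) : ∀ᶠ x in 𝓝 y, LocH p x := by
  obtain ⟨e, he, hp⟩ := h
  filter_upwards [e.open_source.mem_nhds he] with x hx using ⟨e, hx, hp⟩

/-- Uniqueness of the germ of a continuous local section. -/
theorem LocH.lift_eq (h : LocH p y) {σ : Z → Y} (hσ : Tendsto σ (𝓝 (p y)) (𝓝 y))
    (hp : ∀ᶠ z in 𝓝 (p y), p (σ z) = z) : lift p y =ᶠ[𝓝 (p y)] σ := by
  filter_upwards [hσ.eventually h.lift_p, hp] with z h1 h2
  rw [h2] at h1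
  exact h1

/-- Local inverses are compatible with a map over the base. -/
theorem LocH.lift_map {Y' : Type} [TopologicalSpace Y'] {p' : Y' → Z} {m : Y → Y'} (h : LocH p y)
    (h' : LocH p' (m y)) (hm : ContinuousAt m y) (e : ∀ᶠ x in 𝓝 y, p' (m x) = p x) :
    lift p' (m y) =ᶠ[𝓝 (p y)] m ∘ lift p y := by
  have e0 : p' (m y) = p y := e.self_of_nhds
  rw [← e0]
  refine h'.lift_eq ?_ ?_
  · rw [e0]
    exact hm.tendsto.comp h.tendsto_lift
  · rw [e0]
    filter_upwards [h.tendsto_lift.eventually e, h.p_lift] with z h1 h2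
    rw [Function.comp_apply, h1, h2]

theorem lift_eq_symm {e : OpenPartialHomeomorph Y Z} (hp : EqOn p e e.source) (hy : y ∈ e.source) :
    lift p y =ᶠ[𝓝 (p y)] e.symm := by
  refine LocH.lift_eq ⟨e, hy, hp⟩ ?_ ?_
  · rw [hp hy]
    have := (e.continuousAt_symm (e.map_source hy)).tendsto
    rwa [e.left_inv hy] at this
  · rw [hp hy]
    filter_upwards [e.open_target.mem_nhds (e.map_source hy)] with z hz
    rw [hp (e.map_target hz), e.right_inv hz]

theorem LocH.lift_near (h : LocH p y) : ∀ᶠ x in 𝓝 y, lift p x =ᶠ[𝓝 (p x)] lift p y := by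
  obtain ⟨e, he, hp, hl⟩ := h.spec
  filter_upwards [e.open_source.mem_nhds he] with x hx
  rw [hl]
  exact lift_eq_symm hp hx

theorem LocH.map_nhds (h : LocH p y) : map p (𝓝 y) = 𝓝 (p y) := by
  refine le_antisymm h.continuousAt.tendsto fun s hs => ?_
  filter_upwards [h.tendsto_lift.eventually (mem_map.1 hs), h.p_lift] with z h1 h2
  rwa [← h2]

theorem LocH.comp_lift {β : Type} (h : LocH p y) {f g : Y → β} (e : f =ᶠ[𝓝 y] g) :
    f ∘ lift p y =ᶠ[𝓝 (p y)] g ∘ lift p y := h.tendsto_lift.eventually e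

theorem LocH.continuousAt_of {β : Type} [TopologicalSpace β] (h : LocH p y) {f : Y → β}
    (hf : ContinuousAt (f ∘ lift p y) (p y)) : ContinuousAt f y := by
  refine (hf.comp h.continuousAt).congr ?_
  filter_upwards [h.lift_p] with x hx
  simp only [Function.comp_apply, hx]

end lift

section euc

variable {n : ℕ} {g g' : E n → ℝ} {z : E n}

theorem nsq_nonneg {ι : Type} [Fintype ι] (v : ι → ℂ) : 0 ≤ nsq v :=
  Finset.sum_nonneg fun _ _ => normSq_nonneg _

theorem d2_congr (h : g =ᶠ[𝓝 z] g') (v : E n) : d2 g z v = d2 g' z v := by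
  unfold d2
  congr 1
  refine Filter.EventuallyEq.fderiv_eq ?_
  filter_upwards [h.eventually_nhds] with w hw
  rw [Filter.EventuallyEq.fderiv_eq hw]

theorem levE_congr (h : g =ᶠ[𝓝 z] g') (v : E n) : levE g z v = levE g' z v := by
  unfold levE
  rw [d2_congr h, d2_congr h]

theorem d2_eq (h : ContDiffAt ℝ 2 g z) (v : E n) : d2 g z v = fderiv ℝ (fderiv ℝ g) z v v := by
  have h1 : DifferentiableAt ℝ (fderiv ℝ g) z :=
    (h.fderiv_right (m := 1) (by norm_num)).differentiableAt (by norm_num)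
  unfold d2
  rw [fderiv_clm_apply h1 (differentiableAt_const v)]
  simp

end euc

section rd

variable {n : ℕ} {Y : Type} [TopologicalSpace Y] {p : Y → E n} {W : Set Y} {y : Y}
  {F : Type} [NormedAddCommGroup F] [NormedSpace ℝ F] {k : ℕ}

theorem RD.locH (h : RD p W) (hy : y ∈ W) : LocH p y := LocH.of_on h.loc hy

theorem RD.mono (h : RD p W) {W' : Set Y} (ho : IsOpen W') (hs : W' ⊆ W) : RD p W' :=
  ⟨ho, h.loc.mono hs⟩

theorem RD.exists_cht (h : RD p W) (hy : y ∈ W) {V : Set Y} (hV : V ∈ 𝓝 y) :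
    ∃ e, Cht p W e ∧ y ∈ e.source ∧ e.source ⊆ V := by
  obtain ⟨e, he, hp⟩ := h.locH hy
  obtain ⟨O, hO, ho, hyO⟩ := mem_nhds_iff.1 (inter_mem hV (h.opn.mem_nhds hy))
  refine ⟨e.restrOpen O ho, ⟨fun x hx => (hO hx.2).2, fun x hx => hp hx.1⟩, ⟨he, hyO⟩,
    fun x hx => (hO hx.2).1⟩

/-- A chart whose target is a ball. -/
theorem RD.exists_ball (h : RD p W) (hy : y ∈ W) {V : Set Y} (hV : V ∈ 𝓝 y) :
    ∃ e, ∃ r > 0, Cht p W e ∧ y ∈ e.source ∧ e.source ⊆ V ∧ e.target = Metric.ball (p y) r := by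
  obtain ⟨e, he, hy', hs⟩ := h.exists_cht hy hV
  obtain ⟨r, hr, hb⟩ := Metric.isOpen_iff.1 e.open_target _ (e.map_source hy')
  rw [← he.eq hy'] at hb
  refine ⟨(e.symm.restrOpen _ (Metric.isOpen_ball (x := p y) (ε := r))).symm, r, hr,
    ⟨fun x hx => he.sub hx.1, fun x hx => he.eq hx.1⟩, ⟨hy', ?_⟩, fun x hx => hs hx.1,
    inter_eq_right.2 hb⟩
  show e y ∈ Metric.ball (p y) r
  rw [← he.eq hy']
  exact Metric.mem_ball_self hr

variable {e : OpenPartialHomeomorph Y (E n)}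

theorem Cht.lift_eq (h : Cht p W e) (hy : y ∈ e.source) : lift p y =ᶠ[𝓝 (p y)] e.symm :=
  lift_eq_symm h.eq hy

theorem Cht.comp_eq {β : Type} (h : Cht p W e) (hy : y ∈ e.source) (f : Y → β) :
    f ∘ lift p y =ᶠ[𝓝 (p y)] f ∘ e.symm := (h.lift_eq hy).fun_comp f

theorem Cht.p_symm (h : Cht p W e) {z : E n} (hz : z ∈ e.target) : p (e.symm z) = z := by
  rw [h.eq (e.map_target hz), e.right_inv hz]

theorem Cht.symm_p (h : Cht p W e) (hy : y ∈ e.source) : e.symm (p y) = y := by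
  rw [h.eq hy, e.left_inv hy]

theorem Cht.mem_target (h : Cht p W e) (hy : y ∈ e.source) : p y ∈ e.target := by
  rw [h.eq hy]
  exact e.map_source hy

theorem Cht.sm_iff (h : Cht p W e) (hy : y ∈ e.source) {f : Y → F} :
    Sm p k f y ↔ ContDiffAt ℝ k (f ∘ e.symm) (p y) :=
  ⟨fun a => a.congr_of_eventuallyEq (h.comp_eq hy f).symm,
    fun a => a.congr_of_eventuallyEq (h.comp_eq hy f)⟩

theorem Cht.hol_iff (h : Cht p W e) (hy : y ∈ e.source) {f : Y → ℂ} :
    Hol p f y ↔ DifferentiableAt ℂ (f ∘ e.symm) (p y) := (h.comp_eq hy f).differentiableAt_iff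

theorem Cht.dd_eq (h : Cht p W e) (hy : y ∈ e.source) (f : Y → F) :
    dd p f y = fderiv ℝ (f ∘ e.symm) (p y) := (h.comp_eq hy f).fderiv_eq

theorem Cht.lev_eq (h : Cht p W e) (hy : y ∈ e.source) (f : Y → ℝ) (v : E n) :
    lev p f y v = levE (f ∘ e.symm) (p y) v := levE_congr (h.comp_eq hy f) v

theorem Sm.congr (h : LocH p y) {f g : Y → F} (hf : Sm p k f y) (e : g =ᶠ[𝓝 y] f) : Sm p k g y :=
  ContDiffAt.congr_of_eventuallyEq hf (h.comp_lift e)

theorem Hol.congr (h : LocH p y) {f g : Y → ℂ} (hf : Hol p f y) (e : g =ᶠ[𝓝 y] f) : Hol p g y :=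
  DifferentiableAt.congr_of_eventuallyEq hf (h.comp_lift e)

theorem dd_congr (h : LocH p y) {f g : Y → F} (e : f =ᶠ[𝓝 y] g) : dd p f y = dd p g y :=
  (h.comp_lift e).fderiv_eq

theorem lev_congr (h : LocH p y) {f g : Y → ℝ} (e : f =ᶠ[𝓝 y] g) (v : E n) :
    lev p f y v = lev p g y v := levE_congr (h.comp_lift e) v

theorem Sm.continuousAt (h : LocH p y) {f : Y → F} (hf : Sm p k f y) : ContinuousAt f y :=
  h.continuousAt_of (ContDiffAt.continuousAt hf)

theorem Hol.continuousAt (h : LocH p y) {f : Y → ℂ} (hf : Hol p f y) : ContinuousAt f y :=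
  h.continuousAt_of (DifferentiableAt.continuousAt hf)

theorem Sm.of_le {f : Y → F} {k' : ℕ} (hf : Sm p k f y) (hk : k' ≤ k) : Sm p k' f y :=
  ContDiffAt.of_le hf (by exact_mod_cast hk)

theorem Sm.eventually (h : LocH p y) {f : Y → F} (hf : Sm p k f y) : ∀ᶠ x in 𝓝 y, Sm p k f x := by
  have h1 := h.continuousAt.tendsto.eventually (ContDiffAt.eventually hf (by simp))
  filter_upwards [h1, h.lift_near] with x a b
  exact ContDiffAt.congr_of_eventuallyEq a (b.fun_comp f)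

theorem Sm.differentiableAt {f : Y → F} (hf : Sm p (k + 1) f y) :
    DifferentiableAt ℝ (f ∘ lift p y) (p y) :=
  ContDiffAt.differentiableAt hf (by simp)

/-- The derivative read in the chart at `y`. -/
theorem dd_comp_lift (h : LocH p y) (f : Y → F) :
    dd p f ∘ lift p y =ᶠ[𝓝 (p y)] fderiv ℝ (f ∘ lift p y) := by
  filter_upwards [h.tendsto_lift.eventually h.lift_near, h.p_lift] with z h1 h2
  have := (h1.fun_comp f).fderiv_eq (𝕜 := ℝ)
  rw [Function.comp_apply, dd, this, h2]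

theorem Sm.dd (h : LocH p y) {f : Y → F} (hf : Sm p (k + 1) f y) : Sm p k (dd p f) y :=
  ContDiffAt.congr_of_eventuallyEq (ContDiffAt.fderiv_right hf (by simp)) (dd_comp_lift h f)

theorem Sm.dd_apply (h : LocH p y) {f : Y → F} (hf : Sm p (k + 1) f y) (v : E n) :
    Sm p k (fun x => SV.dd p f x v) y :=
  ContDiffAt.clm_apply (hf.dd h) contDiffAt_const

theorem lev_eq_dd (h : LocH p y) (f : Y → ℝ) (v : E n) : lev p f y v =
    dd p (fun x => dd p f x v) y v + dd p (fun x => dd p f x (I • v)) y (I • v) := by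
  have : ∀ w, d2 (f ∘ lift p y) (p y) w = dd p (fun x => dd p f x w) y w := fun w => by
    unfold d2
    congr 1
    refine Filter.EventuallyEq.fderiv_eq ?_
    filter_upwards [dd_comp_lift h f] with z hz
    rw [← hz]
    rfl
  rw [lev, levE, this, this]

theorem sm_const (c : F) : Sm p k (fun _ => c) y := contDiffAt_const

theorem Sm.add {f g : Y → F} (hf : Sm p k f y) (hg : Sm p k g y) : Sm p k (fun x => f x + g x) y :=
  ContDiffAt.add hf hg

theorem Sm.sub {f g : Y → F} (hf : Sm p k f y) (hg : Sm p k g y) : Sm p k (fun x => f x - g x) y :=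
  ContDiffAt.sub hf hg

theorem Sm.neg {f : Y → F} (hf : Sm p k f y) : Sm p k (fun x => -f x) y := ContDiffAt.neg hf

theorem Sm.smul {f : Y → ℝ} {g : Y → F} (hf : Sm p k f y) (hg : Sm p k g y) :
    Sm p k (fun x => f x • g x) y := ContDiffAt.smul hf hg

theorem Sm.mul {A : Type} [NormedRing A] [NormedAlgebra ℝ A] {f g : Y → A} (hf : Sm p k f y)
    (hg : Sm p k g y) : Sm p k (fun x => f x * g x) y := ContDiffAt.mul hf hg

theorem Sm.sum {ι : Type} {s : Finset ι} {f : ι → Y → F} (hf : ∀ i ∈ s, Sm p k (f i) y) :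
    Sm p k (fun x => ∑ i ∈ s, f i x) y := ContDiffAt.sum hf

theorem Sm.comp (h : LocH p y) {F' : Type} [NormedAddCommGroup F'] [NormedSpace ℝ F'] {f : Y → F}
    {g : F → F'} (hg : ContDiffAt ℝ k g (f y)) (hf : Sm p k f y) : Sm p k (fun x => g (f x)) y := by
  refine ContDiffAt.comp (g := g) (f := f ∘ lift p y) _ ?_ hf
  rwa [Function.comp_apply, h.lift_self]

theorem Sm.ofReal {f : Y → ℝ} (hf : Sm p k f y) : Sm p k (fun x => (f x : ℂ)) y :=
  ofRealCLM.contDiff.contDiffAt.comp _ hf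

theorem sm_p (h : LocH p y) : Sm p k p y :=
  ContDiffAt.congr_of_eventuallyEq contDiffAt_id h.p_lift

theorem dd_p (h : LocH p y) : dd p p y = ContinuousLinearMap.id ℝ _ := by
  have : p ∘ lift p y =ᶠ[𝓝 (p y)] id := h.p_lift
  rw [dd, this.fderiv_eq, fderiv_id]

theorem LU.congr {u u' : Y → ℝ} (h : LU p u y) (e : u' =ᶠ[𝓝 y] u) : LU p u' y := by
  obtain ⟨V, hV, H⟩ := h
  refine ⟨V ∩ {x | u' x = u x}, inter_mem hV e, fun δ hδ => ?_⟩
  obtain ⟨w, hw⟩ := H δ hδ
  exact ⟨w, fun x hx => by rw [hx.2]; exact hw x hx.1⟩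

theorem LU.of_psh {u : Y → ℝ} (h : ∀ᶠ x in 𝓝 y, Psh p u x) : LU p u y :=
  ⟨_, h, fun δ hδ => ⟨u, fun x hx => ⟨hx, by simpa using hδ.le⟩⟩⟩

theorem LU.eventually {u : Y → ℝ} (h : LU p u y) : ∀ᶠ x in 𝓝 y, LU p u x := by
  obtain ⟨V, hV, H⟩ := h
  filter_upwards [eventually_mem_nhds_iff.2 hV] with x hx using ⟨V, hx, H⟩

end rd

end Pool.Agent.Lib.SV
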