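import Mathlib

/-! Definitions used in the statement: projective manifolds, pluricanonical forms, bounded group
cocycles and the integral of their Whitney form. -/

open scoped Classical ContDiff Topology

noncomputable section

namespace Pool.Agent.Lib.SV

/-- Coordinate space. -/
abbrev E (n : ℕ) : Type := Fin n → ℂ

/-- A continuous local inverse of `p` that sends `p y` to `y` (junk value when `p` is not a local
homeomorphism at `y`). -/
def lift {Y Z : Type} [TopologicalSpace Y] [TopologicalSpace Z] (p : Y → Z) (y : Y) : Z → Y :=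
  if h : ∃ e : OpenPartialHomeomorph Y Z, y ∈ e.source ∧ Set.EqOn p e e.source then h.choose.symm
  else fun _ => y

/-- The oriented real frame `e_1, i e_1, ..., e_n, i e_n`. -/
def fr (n : ℕ) (k : Fin (n * 2)) : E n := Pi.single k.divNat (Complex.I ^ (k.modNat : ℕ))

section manifold

variable (n : ℕ) (X : Type) [TopologicalSpace X] [ChartedSpace (E n) X]

/-- There is a holomorphic immersion into a projective space. -/
def Immersed : Prop :=
  ∃ (N : ℕ) (f : X → Projectivization ℂ (E (N + 1))), ∀ x : X, ∃ F : E n → E (N + 1),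
    (∀ᶠ z in 𝓝 (chartAt (E n) x x), DifferentiableAt ℂ F z ∧
      ∃ h : F z ≠ 0, Projectivization.mk ℂ (F z) h = f ((chartAt (E n) x).symm z)) ∧
    ∀ (t : ℂ) (v : E n), fderiv ℂ F (chartAt (E n) x x) v = t • F (chartAt (E n) x x) → v = 0

/-- Jacobian determinant, at the point with coordinate `z` in the chart at `x`, of the change to
the preferred chart of that point. -/
def jacAt (x : X) (z : E n) : ℂ :=
  (fderiv ℂ (chartAt (E n) ((chartAt (E n) x).symm z) ∘ (chartAt (E n) x).symm) z).det

/-- Holomorphic sections of the `a`-th power of the canonical bundle: `s y` is the coefficient at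
`y` in the preferred chart of `y`. -/
def Pluri (a : ℕ) : Submodule ℂ (X → ℂ) where
  carrier := {s | ∀ x : X, DifferentiableAt ℂ
    (fun z => s ((chartAt (E n) x).symm z) * jacAt n X x z ^ a) (chartAt (E n) x x)}
  add_mem' := fun hs ht x => by
    simpa only [Pi.add_apply, add_mul] using (hs x).fun_add (ht x)
  zero_mem' := fun x => by simp
  smul_mem' := fun c s hs x => by
    simpa only [Pi.smul_apply, smul_eq_mul, mul_assoc] using (hs x).const_mul c

end manifold

/-- A homogeneous real `d`-cocycle of the group with values in `[-1, 1]`. -/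
structure BddCocycle {Γ : Type} [Group Γ] (d : ℕ) (c : (Fin (d + 1) → Γ) → ℝ) : Prop where
  bdd : ∀ g, |c g| ≤ 1
  inv : ∀ h g, c (fun i => h * g i) = c g
  coc : ∀ g : Fin (d + 2) → Γ, ∑ i : Fin (d + 2), (-1) ^ (i : ℕ) * c (fun j => g (i.succAbove j)) = 0

section cover

variable {n : ℕ} {X Y Γ : Type} [TopologicalSpace Y] [Group Γ] [MulAction Γ Y]

/-- Coefficient at `z`, on the frame `fr`, of the Whitney form, the sum of
`c(g_0, ..., g_d) f_{g_0} df_{g_1} ∧ ... ∧ df_{g_d}` with `f_g y = f (g⁻¹ y)`, read in the local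
parametrization `σ`. -/
def whitney (c : (Fin (n * 2 + 1) → Γ) → ℝ) (f : Y → ℝ) (σ : E n → Y) (z : E n) : ℝ :=
  ∑ᶠ g : Fin (n * 2 + 1) → Γ, c g * f ((g 0)⁻¹ • σ z) *
    (Matrix.of fun a b : Fin (n * 2) =>
      fderiv ℝ (fun w => f ((g a.succ)⁻¹ • σ w)) z (fr n b)).det

variable [TopologicalSpace X] [ChartedSpace (E n) X]

variable (n Γ) in
/-- A smooth non-negative function with compact support whose translates sum to one. -/
structure Bump (π : Y → X) (f : Y → ℝ) : Prop where
  nonneg : ∀ y, 0 ≤ f y
  cpt : HasCompactSupport f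
  smooth : ∀ y, ContDiffAt ℝ ∞ (f ∘ lift π y ∘ (chartAt (E n) (π y)).symm)
    (chartAt (E n) (π y) (π y))
  sum : ∀ y, ∑ᶠ g : Γ, f (g⁻¹ • y) = 1

/-- A finite partition of `X` into Borel pieces `B k` of the charts at the points `x k`. -/
structure Cells {r : ℕ} (x : Fin r → X) (B : Fin r → Set (E n)) : Prop where
  meas : ∀ k, MeasurableSet (B k)
  sub : ∀ k, B k ⊆ (chartAt (E n) (x k)).target
  part : ∀ y : X, ∃! k, y ∈ (chartAt (E n) (x k)).symm '' B k

/-- The integral over `X` of the Whitney form; `τ` is a set-theoretic section of `π`. -/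
def pairing (π : Y → X) (τ : X → Y) (c : (Fin (n * 2 + 1) → Γ) → ℝ) (f : Y → ℝ) {r : ℕ}
    (x : Fin r → X) (B : Fin r → Set (E n)) : ℝ :=
  ∑ k, ∫ z in B k,
    whitney c f (lift π (τ ((chartAt (E n) (x k)).symm z)) ∘ (chartAt (E n) (x k)).symm) z

end cover

end Pool.Agent.Lib.SV
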