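import Pool.Agent.Lib.SV.Blue4
import Pool.Agent.Lib.SV.Hol85

/-! Row AT1: one tuple of linear forms. -/

open scoped Classical Topology Manifold ContDiff
open Set Filter

noncomputable section

namespace Pool.Agent.Lib.SV

namespace AT1

variable {n N : ℕ} {X : Type} [TopologicalSpace X] [ChartedSpace (E n) X]

theorem det_comp (A B : E n →L[ℂ] E n) : (A.comp B).det = A.det * B.det :=
  LinearMap.det_comp (A : E n →ₗ[ℂ] E n) (B : E n →ₗ[ℂ] E n)

theorem det_ne_of_comp {g h : E n → E n} {z : E n} (hh : DifferentiableAt ℂ h z)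
    (hg : DifferentiableAt ℂ g (h z)) (e : g ∘ h =ᶠ[𝓝 z] id) : (fderiv ℂ h z).det ≠ 0 := by
  have h1 := e.fderiv_eq (𝕜 := ℂ)
  rw [fderiv_comp z hg hh, fderiv_id] at h1
  have h2 := congrArg ContinuousLinearMap.det h1
  rw [det_comp] at h2
  have h3 : (ContinuousLinearMap.id ℂ (E n)).det = 1 := LinearMap.det_id
  rw [h3] at h2
  exact right_ne_zero_of_mul_eq_one h2

theorem tendsto_chart (x : X) : Tendsto (chartAt (E n) x) (𝓝 x) (𝓝 (chartAt (E n) x x)) :=
  (chartAt (E n) x).continuousAt (mem_chart_source _ x)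

/-- Change of chart. -/
theorem chart_change [IsManifold 𝓘(ℂ, E n) ω X] (a b : X) {x : X}
    (ha : x ∈ (chartAt (E n) a).source) (hb : x ∈ (chartAt (E n) b).source) :
    DifferentiableAt ℂ (chartAt (E n) a ∘ (chartAt (E n) b).symm) (chartAt (E n) b x) := by
  have h1 : ContMDiffAt 𝓘(ℂ, E n) 𝓘(ℂ, E n) ω (chartAt (E n) b).symm (chartAt (E n) b x) :=
    contMDiffOn_chart_symm.contMDiffAt
      ((chartAt (E n) b).open_target.mem_nhds ((chartAt (E n) b).map_source hb))
  have h2 : ContMDiffAt 𝓘(ℂ, E n) 𝓘(ℂ, E n) ω (chartAt (E n) a)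
      ((chartAt (E n) b).symm (chartAt (E n) b x)) := by
    rw [(chartAt (E n) b).left_inv hb]
    exact contMDiffOn_chart.contMDiffAt ((chartAt (E n) a).open_source.mem_nhds ha)
  exact (contMDiffAt_iff_contDiffAt.1 (h2.comp _ h1)).differentiableAt (by simp)

theorem comp_change {β : Type} (G : X → β) (a b : X) {x : X}
    (ha : x ∈ (chartAt (E n) a).source) (hb : x ∈ (chartAt (E n) b).source) :
    G ∘ (chartAt (E n) b).symm =ᶠ[𝓝 (chartAt (E n) b x)]
      (G ∘ (chartAt (E n) a).symm) ∘ (chartAt (E n) a ∘ (chartAt (E n) b).symm) := by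
  have h1 := (chartAt (E n) b).tendsto_symm hb
  filter_upwards [h1.eventually ((chartAt (E n) a).open_source.mem_nhds ha)] with z hz
  simp only [Function.comp_apply, (chartAt (E n) a).left_inv hz]

theorem det_change [IsManifold 𝓘(ℂ, E n) ω X] (a b : X) {x : X}
    (ha : x ∈ (chartAt (E n) a).source) (hb : x ∈ (chartAt (E n) b).source) :
    (fderiv ℂ (chartAt (E n) a ∘ (chartAt (E n) b).symm) (chartAt (E n) b x)).det ≠ 0 := by
  refine det_ne_of_comp (g := chartAt (E n) b ∘ (chartAt (E n) a).symm)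
    (chart_change a b ha hb) ?_ ?_
  · rw [Function.comp_apply, (chartAt (E n) b).left_inv hb]
    exact chart_change b a hb ha
  · refine (comp_change (chartAt (E n) b) a b ha hb).symm.trans ?_
    exact (chartAt (E n) b).eventually_right_inverse ((chartAt (E n) b).map_source hb)

/-- The determinant condition is open. -/
theorem det_near [IsManifold 𝓘(ℂ, E n) ω X] {p : X → E n} {x : X}
    (hd : ∀ᶠ z in 𝓝 (chartAt (E n) x x), DifferentiableAt ℂ (p ∘ (chartAt (E n) x).symm) z)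
    (h0 : (fderiv ℂ (p ∘ (chartAt (E n) x).symm) (chartAt (E n) x x)).det ≠ 0) :
    ∀ᶠ x' in 𝓝 x, (fderiv ℂ (p ∘ (chartAt (E n) x').symm) (chartAt (E n) x' x')).det ≠ 0 := by
  have h1 : ContinuousAt (fun z => (fderiv ℂ (p ∘ (chartAt (E n) x).symm) z).det)
      (chartAt (E n) x x) :=
    ContinuousLinearMap.continuous_det.continuousAt.comp
      ((H85.contDiffAt_nat hd 1).continuousAt_fderiv (by simp))
  filter_upwards [(tendsto_chart x).eventually (hd.and (h1.eventually_ne h0)),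
    chart_source_mem_nhds (E n) x] with x' h2 h3
  have h4 := mem_chart_source (E n) x'
  have h5 : (chartAt (E n) x ∘ (chartAt (E n) x').symm) (chartAt (E n) x' x') =
      chartAt (E n) x x' := by rw [Function.comp_apply, (chartAt (E n) x').left_inv h4]
  rw [(comp_change p x x' h3 h4).fderiv_eq,
    fderiv_comp _ (by rw [h5]; exact h2.1) (chart_change x x' h3 h4), det_comp, h5]
  exact mul_ne_zero h2.2 (det_change x x' h3 h4)

/-- Inverse function theorem. -/
theorem inverse {p : X → E n} {x : X}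
    (hd : ∀ᶠ z in 𝓝 (chartAt (E n) x x), DifferentiableAt ℂ (p ∘ (chartAt (E n) x).symm) z)
    (h0 : (fderiv ℂ (p ∘ (chartAt (E n) x).symm) (chartAt (E n) x x)).det ≠ 0) :
    LocH p x ∧ ∀ᶠ z in 𝓝 (p x), DifferentiableAt ℂ (chartAt (E n) x ∘ lift p x) z := by
  set c := chartAt (E n) x with hc
  have hx : x ∈ c.source := mem_chart_source _ x
  have h1 : ContDiffAt ℂ (1 : ℕ) (p ∘ c.symm) (c x) := H85.contDiffAt_nat hd 1
  have h2 : HasFDerivAt (p ∘ c.symm) (((fderiv ℂ (p ∘ c.symm) (c x)).toContinuousLinearEquivOfDetNeZero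
      h0 : E n ≃L[ℂ] E n) : E n →L[ℂ] E n) (c x) := by
    rw [ContinuousLinearMap.coe_toContinuousLinearEquivOfDetNeZero]
    exact hd.self_of_nhds.hasFDerivAt
  have hn : ((1 : ℕ) : WithTop ℕ∞) ≠ 0 := by simp
  set e := h1.toOpenPartialHomeomorph (p ∘ c.symm) h2 hn with he
  have hs : x ∈ (c.trans e).source := by
    rw [OpenPartialHomeomorph.trans_source]
    exact ⟨hx, h1.mem_toOpenPartialHomeomorph_source h2 hn⟩
  have hp : EqOn p (c.trans e) (c.trans e).source := by
    intro y hy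
    rw [OpenPartialHomeomorph.trans_source] at hy
    show p y = p (c.symm (c y))
    rw [c.left_inv hy.1]
  refine ⟨⟨_, hs, hp⟩, ?_⟩
  have hpx : (p ∘ c.symm) (c x) = p x := by rw [Function.comp_apply, c.left_inv hx]
  have h3 : ContDiffAt ℂ (1 : ℕ) e.symm (p x) := by
    rw [← hpx]
    exact h1.to_localInverse h2 hn
  have h4 : c ∘ lift p x =ᶠ[𝓝 (p x)] e.symm := by
    have h5 : (c.trans e).target ∈ 𝓝 (p x) := by
      rw [hp hs]
      exact (c.trans e).open_target.mem_nhds ((c.trans e).map_source hs)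
    filter_upwards [lift_eq_symm hp hs, h5] with z hz hz'
    rw [OpenPartialHomeomorph.trans_target] at hz'
    rw [Function.comp_apply, hz]
    exact c.right_inv hz'.2
  filter_upwards [(h3.congr_of_eventuallyEq h4).eventually (by simp)] with z hz
  exact hz.differentiableAt hn

theorem comp_lift {β : Type} (G : X → β) {p : X → E n} {x : X} (h : LocH p x) :
    G ∘ lift p x =ᶠ[𝓝 (p x)] (G ∘ (chartAt (E n) x).symm) ∘ (chartAt (E n) x ∘ lift p x) := by
  filter_upwards [h.tendsto_lift.eventually (chart_source_mem_nhds (E n) x)] with z hz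
  simp only [Function.comp_apply, (chartAt (E n) x).left_inv hz]

/-- Differentiability in the chart gives differentiability in the étale coordinates. -/
theorem diff_lift {F : Type} [NormedAddCommGroup F] [NormedSpace ℂ F] {G : X → F} {p : X → E n}
    {x : X} (h : LocH p x)
    (hψ : ∀ᶠ z in 𝓝 (p x), DifferentiableAt ℂ (chartAt (E n) x ∘ lift p x) z)
    (hG : ∀ᶠ z in 𝓝 (chartAt (E n) x x), DifferentiableAt ℂ (G ∘ (chartAt (E n) x).symm) z) :
    (∀ᶠ z in 𝓝 (p x), DifferentiableAt ℂ (G ∘ lift p x) z) ∧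
      fderiv ℂ (G ∘ lift p x) (p x) =
        (fderiv ℂ (G ∘ (chartAt (E n) x).symm) (chartAt (E n) x x)).comp
          (fderiv ℂ (chartAt (E n) x ∘ lift p x) (p x)) := by
  have h0 : (chartAt (E n) x ∘ lift p x) (p x) = chartAt (E n) x x := by
    rw [Function.comp_apply, h.lift_self]
  refine ⟨?_, ?_⟩
  · filter_upwards [hψ, ((tendsto_chart x).comp h.tendsto_lift).eventually hG,
      (comp_lift G h).eventually_nhds] with z h1 h2 h3
    exact (DifferentiableAt.comp z h2 h1).congr_of_eventuallyEq h3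
  · rw [(comp_lift G h).fderiv_eq,
      fderiv_comp _ (by rw [h0]; exact hG.self_of_nhds) hψ.self_of_nhds, h0]

variable {f : X → Projectivization ℂ (E (N + 1))}

omit [TopologicalSpace X] [ChartedSpace (E n) X] in
theorem aL_eq (L : E (N + 1) →L[ℂ] E (n + 1)) (x : X) (k : Fin n) :
    aL f L x k = L (FL f L x) k.succ := by
  simp only [aL, FL, map_smul, Pi.smul_apply, smul_eq_mul]
  rw [div_eq_inv_mul]

omit [TopologicalSpace X] [ChartedSpace (E n) X] in
theorem rep_eq (L : E (N + 1) →L[ℂ] E (n + 1)) {x : X} {v : E (N + 1)} {h : v ≠ 0}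
    (e : Projectivization.mk ℂ v h = f x) :
    (L (f x).rep 0 ≠ 0 ↔ L v 0 ≠ 0) ∧ FL f L x = (L v 0)⁻¹ • v := by
  obtain ⟨a, ha⟩ := Projectivization.exists_smul_eq_mk_rep ℂ v h
  rw [e, Units.smul_def] at ha
  rw [FL, ← ha]
  simp only [map_smul, Pi.smul_apply, smul_eq_mul, smul_smul]
  refine ⟨by simp, ?_⟩
  congr 1
  have := a.ne_zero
  rw [mul_inv, mul_comm, ← mul_assoc, mul_inv_cancel₀ this, one_mul]

theorem near (hf : Imm n f) (L : E (N + 1) →L[ℂ] E (n + 1)) {x : X} (hx : L (f x).rep 0 ≠ 0) :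
    (∀ᶠ x' in 𝓝 x, L (f x').rep 0 ≠ 0) ∧
      ∀ᶠ z in 𝓝 (chartAt (E n) x x), DifferentiableAt ℂ (FL f L ∘ (chartAt (E n) x).symm) z ∧
        DifferentiableAt ℂ (aL f L ∘ (chartAt (E n) x).symm) z := by
  obtain ⟨F, hF, -⟩ := hf x
  set c := chartAt (E n) x with hc
  have hxs : x ∈ c.source := mem_chart_source _ x
  have hL : ∀ z, DifferentiableAt ℂ F z → DifferentiableAt ℂ (fun w => L (F w) 0) z :=
    fun z hz => differentiableAt_pi.1 (L.differentiableAt.comp z hz) 0
  have h0 : L (F (c x)) 0 ≠ 0 := by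
    obtain ⟨h, e⟩ := hF.self_of_nhds.2
    rw [c.left_inv hxs] at e
    exact (rep_eq L e).1.1 hx
  have h1 : ∀ᶠ z in 𝓝 (c x), L (F z) 0 ≠ 0 :=
    (hL _ hF.self_of_nhds.1).continuousAt.eventually_ne h0
  refine ⟨?_, ?_⟩
  · filter_upwards [(tendsto_chart x).eventually (hF.and h1), chart_source_mem_nhds (E n) x]
      with x' h2 h3
    obtain ⟨h, e⟩ := h2.1.2
    rw [c.left_inv h3] at e
    exact (rep_eq L e).1.2 h2.2
  · filter_upwards [hF.eventually_nhds, h1] with z h2 h3
    have h4 : FL f L ∘ c.symm =ᶠ[𝓝 z] fun w => (L (F w) 0)⁻¹ • F w := by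
      filter_upwards [h2] with w hw
      obtain ⟨h, e⟩ := hw.2
      exact (rep_eq L e).2
    have h5 : DifferentiableAt ℂ (FL f L ∘ c.symm) z :=
      (((hL z h2.self_of_nhds.1).inv h3).smul h2.self_of_nhds.1).congr_of_eventuallyEq h4
    refine ⟨h5, differentiableAt_pi.2 fun k => ?_⟩
    simp only [Function.comp_apply, aL_eq]
    exact differentiableAt_pi.1 (L.differentiableAt.comp z h5) k.succ

end AT1

theorem stAT1 (_hSMO : St_SMO) : St_AT1 := by
  intro n N X _ _ _ f hf L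
  have hin : ∀ x ∈ UL f L, LocH (aL f L) x ∧
      ∀ᶠ z in 𝓝 (aL f L x), DifferentiableAt ℂ (chartAt (E n) x ∘ lift (aL f L) x) z :=
    fun x hx => AT1.inverse ((AT1.near hf L hx.1).2.mono fun _ h => h.2) hx.2
  refine ⟨⟨isOpen_iff_mem_nhds.2 fun x hx => ?_, IsLocalHomeomorphOn.mk _ _ fun x hx => (hin x hx).1⟩,
    fun x hx => AT1.near hf L hx, fun x hx => ?_⟩
  · exact (AT1.near hf L hx.1).1.and
      (AT1.det_near ((AT1.near hf L hx.1).2.mono fun _ h => h.2) hx.2)
  · obtain ⟨h1, h2⟩ := hin x hx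
    refine ⟨(AT1.diff_lift h1 h2 ((AT1.near hf L hx.1).2.mono fun _ h => h.1)).1, h2,
      fun L' hL' => ?_⟩
    obtain ⟨h3, h4⟩ := AT1.diff_lift h1 h2 ((AT1.near hf L' hL').2.mono fun _ h => h.2)
    refine ⟨h3, ?_⟩
    have h5 : (fderiv ℂ (chartAt (E n) x ∘ lift (aL f L) x) (aL f L x)).det ≠ 0 := by
      refine AT1.det_ne_of_comp (g := aL f L ∘ (chartAt (E n) x).symm) h2.self_of_nhds ?_ ?_
      · rw [Function.comp_apply, h1.lift_self]
        exact (AT1.near hf L hx.1).2.self_of_nhds.2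
      · exact (AT1.comp_lift (aL f L) h1).symm.trans h1.p_lift
    rw [h4, AT1.det_comp]
    exact ⟨fun h => mul_ne_zero h.2 h5, fun h => ⟨hL', left_ne_zero_of_mul h⟩⟩

end Pool.Agent.Lib.SV
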