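import Pool.Agent.Lib.SV.Blue4

/-! The sections of the hyperplane bundle in the atlas of a projective manifold. -/

open scoped Classical Topology ENNReal Manifold ContDiff
open Set MeasureTheory Complex Filter Metric

noncomputable section

namespace Pool.Agent.Lib.SV

namespace AT2

theorem nsq_pos {ι : Type} [Fintype ι] {v : ι → ℂ} (h : v ≠ 0) : 0 < nsq v := by
  obtain ⟨i, hi⟩ := Function.ne_iff.1 h
  exact Finset.sum_pos' (fun j _ => normSq_nonneg _) ⟨i, Finset.mem_univ _, normSq_pos.2 hi⟩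

theorem nsq_smul {ι : Type} [Fintype ι] (c : ℂ) (v : ι → ℂ) : nsq (c • v) = normSq c * nsq v := by
  simp only [nsq, Pi.smul_apply, smul_eq_mul, map_mul, Finset.mul_sum]

/-- The strict Cauchy-Schwarz inequality. -/
theorem cs {ι : Type} [Fintype ι] {u w : ι → ℂ} (hu : u ≠ 0) (h : ∀ t : ℂ, w ≠ t • u) :
    0 < nsq u * nsq w - normSq (∑ i, w i * (starRingEnd ℂ) (u i)) := by
  have ha := nsq_pos hu
  set s := ∑ i, w i * (starRingEnd ℂ) (u i) with hs
  have h1 := nsq_pos (sub_ne_zero.2 (h (s / (nsq u : ℂ))))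
  have h2 : ∀ t : ℂ, nsq (w - t • u) =
      nsq w + normSq t * nsq u - 2 * ((starRingEnd ℂ) t * s).re := by
    intro t
    simp only [nsq, Pi.sub_apply, Pi.smul_apply, smul_eq_mul, normSq_sub, map_mul, hs,
      Finset.mul_sum, Complex.re_sum, Finset.sum_sub_distrib, Finset.sum_add_distrib]
    congr 1
    refine Finset.sum_congr rfl fun i _ => ?_
    rw [mul_left_comm]
  rw [h2] at h1
  have h3 : ((starRingEnd ℂ) (s / (nsq u : ℂ)) * s).re = normSq s / nsq u := by
    rw [map_div₀, conj_ofReal, div_mul_eq_mul_div, ← normSq_eq_conj_mul_self, ← ofReal_div,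
      ofReal_re]
  rw [h3, map_div₀, normSq_ofReal] at h1
  have h4 : nsq u * nsq w - normSq s =
      nsq u * (nsq w + normSq s / (nsq u * nsq u) * nsq u - 2 * (normSq s / nsq u)) := by
    field_simp
    ring
  rw [h4]
  exact mul_pos ha h1

variable {n N : ℕ} {X : Type} {f : X → Projectivization ℂ (E (N + 1))}
  {L L' : E (N + 1) →L[ℂ] E (n + 1)} {x : X}

theorem FL_ne (h : L (f x).rep 0 ≠ 0) : FL f L x ≠ 0 :=
  smul_ne_zero (inv_ne_zero h) (f x).rep_nonzero

theorem L_FL (k : Fin (n + 1)) : L' (FL f L x) k = L' (f x).rep k / L (f x).rep 0 := by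
  simp only [FL, map_smul, Pi.smul_apply, smul_eq_mul]
  rw [div_eq_inv_mul]

theorem FL_eq (h : L (f x).rep 0 ≠ 0) : FL f L' x = L (FL f L' x) 0 • FL f L x := by
  rw [L_FL, FL, FL, smul_smul]
  congr 1
  field_simp

end AT2

open AT2

theorem stAT2 (hAT1 : St_AT1) (hFS : St_FS) (_hSMO : St_SMO) : St_AT2 := by
  intro n N r X _ _ _ f o L l hf P
  have A := hAT1 n N X f hf
  have hsec : ∀ l' : E (N + 1) →L[ℂ] ℂ, P.IsSec (fun x => x) 0 1
      fun j x => if x ∈ UL f (L j) then l' (FL f (L j) x) else 0 := by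
    intro l'
    refine ⟨fun j y hy => ?_, fun i j y hi hj => ?_, fun j y hy => if_neg hy⟩
    · have h1 : Hol (aL f (L j)) (fun x => l' (FL f (L j) x)) y :=
        l'.differentiableAt.comp _ ((A (L j)).2.2 y hy).1.self_of_nhds
      refine Hol.congr ((A (L j)).1.locH hy) h1 ?_
      filter_upwards [(A (L j)).1.opn.mem_nhds hy] with x hx using if_pos hx
    · have hi' : y ∈ UL f (L i) := hi
      have hj' : y ∈ UL f (L j) := hj
      have e : P.ξ i j y = L i (FL f (L j) y) 0 := if_pos hj'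
      rw [if_pos hi', if_pos hj', e, pow_zero, mul_one, pow_one]
      conv_lhs => rw [FL_eq (L := L i) hi'.1, map_smul, smul_eq_mul, mul_comm]
  have hξ : ∀ i j x, x ∈ P.U i → x ∈ P.U j → P.ξ i j x ≠ 0 := by
    intro i j x hi hj
    have e : P.ξ i j x = L i (FL f (L j) x) 0 := if_pos hj
    rw [e, L_FL]
    exact div_ne_zero hi.1 hj.1
  have hφ : ∀ i, ∀ x ∈ P.U i, Sm (P.p i) 2 (P.φ i) x ∧
      ∀ v ≠ 0, 0 < lev (P.p i) (P.φ i) x v := by
    intro i x hx
    have hl : LocH (aL f (L i)) x := (A (L i)).1.locH hx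
    have hd := ((A (L i)).2.2 x hx).1
    have e0 : (FL f (L i) ∘ lift (aL f (L i)) x) (aL f (L i) x) = FL f (L i) x := by
      rw [Function.comp_apply, hl.lift_self]
    have hne := FL_ne hx.1
    obtain ⟨h1, h2⟩ := hFS n _ (FL f (L i) ∘ lift (aL f (L i)) x) (aL f (L i) x) 0 le_rfl hd
      (by rw [e0, add_zero]; exact nsq_pos hne)
    simp only [add_zero] at h1 h2
    refine ⟨h1, fun v hv => ?_⟩
    have h3 := (h2 v).1
    rw [e0] at h3
    refine lt_of_lt_of_eq ?_ h3.symm
    refine div_pos (mul_pos (by norm_num) (cs hne fun t ht => hv ?_)) (pow_pos (nsq_pos hne) 2)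
    have hU : ∀ᶠ z in 𝓝 (aL f (L i) x), lift (aL f (L i)) x z ∈ UL f (L i) :=
      hl.tendsto_lift.eventually ((A (L i)).1.opn.mem_nhds hx)
    have hD : ∀ k : Fin (n + 1), HasFDerivAt
        (fun z => L i ((FL f (L i) ∘ lift (aL f (L i)) x) z) k)
        ((ContinuousLinearMap.proj k).comp ((L i).comp
          (fderiv ℂ (FL f (L i) ∘ lift (aL f (L i)) x) (aL f (L i) x)))) (aL f (L i) x) :=
      fun k => (ContinuousLinearMap.proj (R := ℂ) (φ := fun _ : Fin (n + 1) => ℂ) k).hasFDerivAt.comp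
        _ ((L i).hasFDerivAt.comp _ hd.self_of_nhds.hasFDerivAt)
    have k0 : (fun z => L i ((FL f (L i) ∘ lift (aL f (L i)) x) z) 0) =ᶠ[𝓝 (aL f (L i) x)]
        fun _ => 1 := by
      filter_upwards [hU] with z hz
      rw [Function.comp_apply, L_FL, div_self hz.1]
    have k1 : ∀ k : Fin n, (fun z => L i ((FL f (L i) ∘ lift (aL f (L i)) x) z) k.succ)
        =ᶠ[𝓝 (aL f (L i) x)] fun z => z k := by
      intro k
      filter_upwards [hl.p_lift] with z hz
      rw [Function.comp_apply, L_FL]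
      exact congrFun hz k
    have t0 : t = 0 := by
      have := congrArg (fun T => T v)
        (((hD 0).congr_of_eventuallyEq k0.symm).unique (hasFDerivAt_const (1 : ℂ) _))
      simp only [ContinuousLinearMap.comp_apply, ht, map_smul, ContinuousLinearMap.proj_apply,
        smul_eq_mul, L_FL, div_self hx.1, mul_one, zero_apply] at this
      exact this
    funext k
    have := congrArg (fun T => T v) (((hD k.succ).congr_of_eventuallyEq (k1 k).symm).unique
      (ContinuousLinearMap.proj (R := ℂ) (φ := fun _ : Fin n => ℂ) k).hasFDerivAt)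
    simp only [ContinuousLinearMap.comp_apply, ht, t0, zero_smul, map_zero,
      ContinuousLinearMap.proj_apply] at this
    exact this.symm
  refine ⟨fun i x hx => ⟨((A (L i)).2.1 x hx.1).2.mono fun z hz => hz.2, hx.2⟩,
    fun i j x hi hj => (((A (L j)).2.2 x hj).2.2 (L i) hi.1).1.self_of_nhds,
    fun i => hsec ((ContinuousLinearMap.proj 0).comp (L i)), hsec l, fun i x hx => ?_, hξ,
    fun i j x hi hj => (((A (L j)).2.2 x hj).2.2 (L i) hi.1).2.1 hi,
    fun i x hx => (hφ i x hx).1, fun i x hx => (hφ i x hx).2, fun i j x hi hj => ?_⟩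
  · have e : P.ξ i i x = L i (FL f (L i) x) 0 := if_pos hx
    rw [e, L_FL, div_self hx.1]
  · have e : P.ξ i j x = L i (FL f (L j) x) 0 := if_pos hj
    have h1 := normSq_pos.2 (hξ i j x hi hj)
    change Real.log (nsq (FL f (L j) x)) = Real.log (nsq (FL f (L i) x)) + _
    rw [FL_eq (L := L i) (L' := L j) hi.1, ← e, nsq_smul,
      Real.log_mul h1.ne' (nsq_pos (FL_ne hi.1)).ne', add_comm]

end Pool.Agent.Lib.SV
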