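import Pool.Agent.Lib.SV.Blue4

/-! The Jacobian sections. -/

open scoped Classical Topology Manifold ContDiff
open Set Complex Filter

set_option linter.unusedSectionVars false

noncomputable section

namespace Pool.Agent.Lib.SV

namespace AT3

variable {n N : ℕ}

def M (r : E (n + 1)) (D : E n →L[ℂ] E (n + 1)) : ℂ :=
  (Matrix.of (Fin.cons r fun k : Fin n => D (Pi.single k 1) : Fin (n + 1) → E (n + 1))).det

theorem M_mul (r : E (n + 1)) (D : E n →L[ℂ] E (n + 1)) (u : ℂ) (c : E n →L[ℂ] ℂ)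
    (T : E n →L[ℂ] E n) :
    M (u • r) (u • D.comp T + c.smulRight r) = M r D * T.det * u ^ (n + 1) := by
  let A : Matrix (Fin (n + 1)) (Fin (n + 1)) ℂ := Matrix.of (Fin.cons (Fin.cons u 0) fun k : Fin n =>
    Fin.cons (c (Pi.single k 1)) fun l => u * T (Pi.single k 1) l)
  have h1 : A.det = T.det * u ^ (n + 1) := by
    have h2 : A.submatrix Fin.succ Fin.succ =
        u • (LinearMap.toMatrix' (T : E n →ₗ[ℂ] E n)).transpose := by
      ext k l
      simp [A]
    rw [Matrix.det_succ_row_zero, Fin.sum_univ_succ, Finset.sum_eq_zero fun j _ => by simp [A],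
      Fin.succAbove_zero, h2, Matrix.det_smul, Matrix.det_transpose, LinearMap.det_toMatrix']
    simp [A, ContinuousLinearMap.det]
    ring
  rw [mul_assoc, ← h1, M, M, mul_comm, ← Matrix.det_mul]
  refine congrArg Matrix.det (Matrix.ext fun k l => ?_)
  rw [Matrix.mul_apply, Fin.sum_univ_succ]
  refine Fin.cases ?_ (fun k => ?_) k
  · simp [A]
  · have h3 : D (T (Pi.single k 1)) = ∑ j, T (Pi.single k 1) j • D (Pi.single j 1) := by
      conv_lhs => rw [pi_eq_sum_univ' (T (Pi.single k 1))]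
      simp only [map_sum, map_smul]
    simp [A, h3, Finset.mul_sum, mul_assoc, add_comm]

def W (G : E n → E (n + 1)) (z : E n) : ℂ := M (G z) (fderiv ℂ G z)

theorem W_congr {G G' : E n → E (n + 1)} {z : E n} (h : G =ᶠ[𝓝 z] G') : W G z = W G' z := by
  rw [W, W, h.fderiv_eq, h.eq_of_nhds]

theorem W_mul {G G' : E n → E (n + 1)} {u : E n → ℂ} {τ : E n → E n} {z z' : E n}
    (h : G' =ᶠ[𝓝 z] fun w => u w • G (τ w)) (hu : DifferentiableAt ℂ u z)
    (hτ : DifferentiableAt ℂ τ z) (hz : τ z = z') (hG : DifferentiableAt ℂ G z') :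
    W G' z = W G z' * (fderiv ℂ τ z).det * u z ^ (n + 1) := by
  subst hz
  rw [W_congr h, W, W, ← M_mul _ _ _ (fderiv ℂ u z)]
  exact congrArg _ (hu.hasFDerivAt.smul (hG.hasFDerivAt.comp z hτ.hasFDerivAt)).fderiv

def one (w : E n) : E (n + 1) := Fin.cons 1 w

theorem one_der (z : E n) : HasFDerivAt (one : E n → E (n + 1))
    (ContinuousLinearMap.pi (Fin.cons 0 fun k => ContinuousLinearMap.proj k :
      Fin (n + 1) → E n →L[ℂ] ℂ)) z := by
  refine hasFDerivAt_pi'' fun k => ?_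
  rw [ContinuousLinearMap.proj_pi]
  refine Fin.cases ?_ (fun k => ?_) k
  · exact hasFDerivAt_const (1 : ℂ) z
  · exact (ContinuousLinearMap.proj (R := ℂ) (φ := fun _ : Fin n => ℂ) k).hasFDerivAt

theorem W_one (z : E n) : W one z = 1 := by
  rw [W, (one_der z).fderiv, M, Matrix.det_succ_column_zero, Fin.sum_univ_succ,
    Finset.sum_eq_zero fun j _ => by simp, Fin.succAbove_zero]
  have h : ∀ A : Matrix (Fin n) (Fin n) ℂ, A = 1 → A.det = 1 := fun A h => h ▸ Matrix.det_one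
  rw [h]
  · simp [one]
  · ext k l
    simp [Matrix.one_apply, Pi.single_apply, eq_comm]

theorem smooth (hSMO : St_SMO) {F : Type} [NormedAddCommGroup F] [NormedSpace ℂ F] [CompleteSpace F]
    {z : E n} {G : E n → F} (h : ∀ᶠ w in 𝓝 z, DifferentiableAt ℂ G w) (k : ℕ) :
    ContDiffAt ℂ k G z := by
  obtain ⟨U, hU, ho, hz⟩ := mem_nhds_iff.1 h
  exact (hSMO n F U G ho (fun w hw => (hU hw).differentiableWithinAt) k).contDiffAt
    (ho.mem_nhds hz)

theorem W_diff (hSMO : St_SMO) {G : E n → E (n + 1)} {z : E n}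
    (h : ∀ᶠ w in 𝓝 z, DifferentiableAt ℂ G w) : DifferentiableAt ℂ (W G) z := by
  have h1 : DifferentiableAt ℂ (fderiv ℂ G) z :=
    ((smooth hSMO h 2).fderiv_right (m := 1) (by norm_num)).differentiableAt (by norm_num)
  unfold W M
  simp only [Matrix.det_apply']
  refine DifferentiableAt.fun_sum fun σ _ => DifferentiableAt.const_mul ?_ _
  refine (HasFDerivAt.finsetProd fun k _ => DifferentiableAt.hasFDerivAt ?_).differentiableAt
  simp only [Matrix.of_apply]
  refine Fin.cases ?_ (fun l => ?_) (σ k)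
  · exact differentiableAt_pi.1 h.self_of_nhds k
  · exact differentiableAt_pi.1 (h1.clm_apply (differentiableAt_const _)) k

theorem lift_comp {Y Z : Type} [TopologicalSpace Y] [TopologicalSpace Z] {p p' : Y → Z} {y : Y}
    (h : LocH p y) (h' : LocH p' y) : ∀ᶠ w in 𝓝 (p' y), lift p y (p (lift p' y w)) = lift p' y w :=
  h'.tendsto_lift.eventually h.lift_p

variable {X : Type} [TopologicalSpace X] [ChartedSpace (E n) X]
  {f : X → Projectivization ℂ (E (N + 1))} {L L' L'' : E (N + 1) →L[ℂ] E (n + 1)} {x : X}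

/-- The section in the chart. -/
def G (f : X → Projectivization ℂ (E (N + 1))) (L L' : E (N + 1) →L[ℂ] E (n + 1)) (x : X) :
    E n → E (n + 1) := L ∘ FL f L' ∘ lift (aL f L') x

theorem jL_eq (hx : x ∈ UL f L') (h : LocH (aL f L') x)
    (hd : DifferentiableAt ℂ (FL f L' ∘ lift (aL f L') x) (aL f L' x)) :
    jL f L L' x = W (G f L L' x) (aL f L' x) := by
  rw [jL, if_pos hx, W, G, (L.hasFDerivAt.comp _ hd.hasFDerivAt).fderiv, Function.comp_apply,
    Function.comp_apply, h.lift_self]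
  rfl

theorem FL_eq (h : L (f x).rep 0 ≠ 0) : FL f L' x = L (FL f L' x) 0 • FL f L x := by
  simp [FL, smul_smul, h]

theorem L_FL (h : L (f x).rep 0 ≠ 0) : L (FL f L x) = one (aL f L x) := by
  funext k
  refine Fin.cases ?_ (fun k => ?_) k
  · simp [FL, one, h]
  · simp [FL, one, aL, div_eq_inv_mul]

variable [IsManifold 𝓘(ℂ, E n) ω X] (hAT1 : St_AT1) (hf : Imm n f)
include hAT1 hf

theorem locH (hx : x ∈ UL f L) : LocH (aL f L) x := (hAT1 n N X f hf L).1.locH hx

theorem near (hx : x ∈ UL f L) : ∀ᶠ x' in 𝓝 x, x' ∈ UL f L :=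
  (hAT1 n N X f hf L).1.opn.mem_nhds hx

theorem FL_diff (hx : x ∈ UL f L) :
    ∀ᶠ z in 𝓝 (aL f L x), DifferentiableAt ℂ (FL f L ∘ lift (aL f L) x) z :=
  ((hAT1 n N X f hf L).2.2 x hx).1

theorem G_diff (hx : x ∈ UL f L') : ∀ᶠ z in 𝓝 (aL f L' x), DifferentiableAt ℂ (G f L L' x) z :=
  (FL_diff hAT1 hf hx).mono fun z hz => L.differentiableAt.comp z hz

theorem jL_W (hx : x ∈ UL f L') : jL f L L' x = W (G f L L' x) (aL f L' x) :=
  jL_eq hx (locH hAT1 hf hx) (FL_diff hAT1 hf hx).self_of_nhds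

theorem jL_det (hx : x ∈ UL f L') (h : L (f x).rep 0 ≠ 0) : jL f L L' x =
    (fderiv ℂ (aL f L ∘ lift (aL f L') x) (aL f L' x)).det * L (FL f L' x) 0 ^ (n + 1) := by
  have h1 := locH hAT1 hf hx
  rw [jL_W hAT1 hf hx, W_mul (G := one) (u := fun w => G f L L' x w 0)
    (τ := aL f L ∘ lift (aL f L') x) ?_
    (differentiableAt_pi.1 (G_diff hAT1 hf hx).self_of_nhds 0)
    (((hAT1 n N X f hf L').2.2 x hx).2.2 L h).1.self_of_nhds rfl (one_der _).differentiableAt,
    W_one, one_mul]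
  · simp only [G, Function.comp_apply, h1.lift_self]
  · filter_upwards [h1.tendsto_lift.eventually ((hAT1 n N X f hf L).2.1 x h).1] with w hw
    simp only [G, Function.comp_apply]
    rw [← L_FL hw, ← map_smul, ← FL_eq hw]

theorem jL_self (hx : x ∈ UL f L) : jL f L L x = 1 := by
  have h1 : aL f L ∘ lift (aL f L) x =ᶠ[𝓝 (aL f L x)] id := (locH hAT1 hf hx).p_lift
  rw [jL_det hAT1 hf hx hx.1, h1.fderiv_eq, fderiv_id, L_FL hx.1]
  simp [one, ContinuousLinearMap.det]

theorem jL_cmp (hx : x ∈ UL f L') (hx' : x ∈ UL f L'') : jL f L L'' x = jL f L L' x *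
    (fderiv ℂ (aL f L' ∘ lift (aL f L'') x) (aL f L'' x)).det * L' (FL f L'' x) 0 ^ (n + 1) := by
  have h1 := locH hAT1 hf hx
  have h2 := locH hAT1 hf hx'
  rw [jL_W hAT1 hf hx, jL_W hAT1 hf hx', W_mul (G := G f L L' x) (u := fun w => G f L' L'' x w 0)
    (τ := aL f L' ∘ lift (aL f L'') x) ?_
    (differentiableAt_pi.1 (G_diff hAT1 hf hx').self_of_nhds 0)
    (((hAT1 n N X f hf L'').2.2 x hx').2.2 L' hx.1).1.self_of_nhds
    (congrArg (aL f L') h2.lift_self) (G_diff hAT1 hf hx).self_of_nhds]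
  · simp only [G, Function.comp_apply, h2.lift_self]
  · filter_upwards [h2.tendsto_lift.eventually (near hAT1 hf hx), lift_comp h1 h2] with w hw hw'
    simp only [G, Function.comp_apply]
    rw [hw', ← map_smul, ← FL_eq hw.1]

theorem jL_near (hx : x ∈ UL f L') :
    jL f L L' ∘ lift (aL f L') x =ᶠ[𝓝 (aL f L' x)] W (G f L L' x) := by
  have h1 := locH hAT1 hf hx
  filter_upwards [h1.tendsto_lift.eventually (near hAT1 hf hx),
    h1.tendsto_lift.eventually h1.lift_near, h1.p_lift] with w h2 h3 h4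
  rw [Function.comp_apply, jL_W hAT1 hf h2]
  exact (W_congr ((h3.fun_comp _).fun_comp L)).trans (congrArg _ h4)

theorem jL_diff (hSMO : St_SMO) (hx : x ∈ UL f L') :
    ∀ᶠ z in 𝓝 (aL f L' x), DifferentiableAt ℂ (jL f L L' ∘ lift (aL f L') x) z := by
  filter_upwards [(G_diff (L := L) hAT1 hf hx).eventually_nhds,
    (jL_near (L := L) hAT1 hf hx).eventually_nhds] with z h1 h2
  exact (W_diff hSMO h1).congr_of_eventuallyEq h2

theorem sum_pos {r : ℕ} {L : Fin r → E (N + 1) →L[ℂ] E (n + 1)} {i : Fin r} (hx : x ∈ UL f (L i)) :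
    0 < ∑ j, normSq (jL f (L j) (L i) x) :=
  Finset.sum_pos' (fun _ _ => normSq_nonneg _)
    ⟨i, Finset.mem_univ _, by rw [jL_self hAT1 hf hx]; simp⟩

end AT3

open AT3 in
theorem stAT3 (hAT1 : St_AT1) (hAT2 : St_AT2) (hFS : St_FS) (hSMO : St_SMO) : St_AT3 := by
  intro n N r X _ _ _ f o L l hf P
  obtain ⟨-, -, -, -, -, hξ, hd, hφ, -, hrel⟩ := hAT2 n N r X f o L l hf
  have hc : ∀ i j k x, x ∈ P.U j → x ∈ P.U k →
      P.jac i k x = P.jac i j x * P.d j k x * P.ξ j k x ^ (n + 1) := fun i j k x hj hk =>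
    (jL_cmp hAT1 hf hj hk).trans
      (congrArg (fun t => P.jac i j x * P.d j k x * t ^ (n + 1)) (if_pos hk).symm)
  refine ⟨fun i => ⟨fun j x hx => (jL_diff hAT1 hf hSMO hx).self_of_nhds, fun j k x hj hk => ?_,
    fun j x hx => if_neg hx⟩, fun i x hx => jL_self hAT1 hf hx, fun i j x hx h1 h2 => ?_,
    fun i x hx => ?_, fun i j x hi hj => ?_⟩
  · rw [pow_one]
    exact hc i j k x hj hk
  · have h3 : L i (f x).rep 0 ≠ 0 := fun h => h1 ((if_pos hx).trans (by simp [FL, h]))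
    exact (((hAT1 n N X f hf (L j)).2.2 x hx).2.2 (L i) h3).2.2
      (left_ne_zero_of_mul ((jL_det hAT1 hf hx h3).symm.trans_ne h2))
  · have h1 := (hFS n (Fin r) (fun w j => jL f (L j) (L i) (lift (aL f (L i)) x w)) (aL f (L i) x) 0
      le_rfl ((eventually_all.2 fun j => jL_diff (L := L j) hAT1 hf hSMO hx).mono fun w hw =>
        differentiableAt_pi.2 hw) (by
        rw [add_zero, (locH hAT1 hf hx).lift_self]
        exact sum_pos hAT1 hf hx)).1
    simp only [add_zero] at h1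
    exact Sm.sub (f := fun x => Real.log (∑ j, normSq (jL f (L j) (L i) x))) h1
      ((sm_const _).mul (hφ i x hx))
  · have h1 : ∑ k, normSq (P.jac k j x) = (∑ k, normSq (P.jac k i x)) * normSq (P.d i j x) *
        normSq (P.ξ i j x) ^ (n + 1) := by
      simp only [hc _ i j x hi hj, map_mul, map_pow, Finset.sum_mul]
    have h2 : ∑ k, normSq (P.jac k i x) ≠ 0 := (sum_pos hAT1 hf hi).ne'
    have h3 := (normSq_pos.2 (hd i j x hi hj)).ne'
    have h4 := (normSq_pos.2 (hξ i j x hi hj)).ne'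
    change Real.log (∑ k, normSq (P.jac k j x)) - (n + 1) * P.φ j x =
      Real.log (∑ k, normSq (P.jac k i x)) - (n + 1) * P.φ i x + _
    rw [h1, Real.log_mul (mul_ne_zero h2 h3) (pow_ne_zero _ h4), Real.log_mul h2 h3, Real.log_pow,
      hrel i j x hi hj]
    push_cast
    ring

end Pool.Agent.Lib.SV
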