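import Pool.Agent.Lib.SV.B_AT1

/-! Row AT4: every point lies in an étale chart, with a prescribed coordinate if wanted. -/

open scoped Classical Topology Manifold ContDiff
open Set Filter

noncomputable section

namespace Pool.Agent.Lib.SV

namespace AT4

variable {n N : ℕ} {X : Type} [TopologicalSpace X] [ChartedSpace (E n) X]
  {f : X → Projectivization ℂ (E (N + 1))}

theorem det_ne {A : E n →L[ℂ] E n} (h : ∀ v, A v = 0 → v = 0) : A.det ≠ 0 := fun h0 =>
  (LinearMap.det_eq_zero_iff_ker_ne_bot.1 h0) (LinearMap.ker_eq_bot'.2 h)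

theorem left_inv (w : E (N + 1)) (D : E n →L[ℂ] E (N + 1)) (hw : w ≠ 0)
    (h : ∀ (t : ℂ) (v : E n), D v = t • w → v = 0) : ∃ L : E (N + 1) →L[ℂ] E (n + 1),
      L w 0 = 1 ∧ (∀ k : Fin n, L w k.succ = 0) ∧ ∀ v (k : Fin n), L (D v) k.succ = v k := by
  let M : E (n + 1) →ₗ[ℂ] E (N + 1) :=
    { toFun := fun u => u 0 • w + D fun k => u k.succ
      map_add' := fun u v => by
        rw [show (fun k : Fin n => (u + v) k.succ) =
          (fun k : Fin n => u k.succ) + fun k : Fin n => v k.succ from rfl, map_add, Pi.add_apply,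
          add_smul]
        abel
      map_smul' := fun c u => by
        rw [show (fun k : Fin n => (c • u) k.succ) = c • fun k : Fin n => u k.succ from rfl,
          map_smul, Pi.smul_apply, smul_add, smul_smul]
        rfl }
  have hM : LinearMap.ker M = ⊥ := LinearMap.ker_eq_bot'.2 fun u hu => by
    have h0 : u 0 • w + D (fun k => u k.succ) = 0 := hu
    have h1 := h (-u 0) _ (by rw [neg_smul]; exact eq_neg_of_add_eq_zero_right h0)
    rw [h1, map_zero, add_zero] at h0
    funext i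
    refine Fin.cases ?_ (fun k => congrFun h1 k) i
    exact (smul_eq_zero.1 h0).resolve_right hw
  obtain ⟨L, hL⟩ := LinearMap.exists_leftInverse_of_injective M hM
  have e : ∀ (t : ℂ) (v : E n), L (t • w + D v) = Fin.cons t v := fun t v =>
    LinearMap.congr_fun hL (Fin.cons t v)
  have e1 := e 1 0
  rw [one_smul, map_zero, add_zero] at e1
  refine ⟨LinearMap.toContinuousLinearMap L, congrFun e1 0, fun k => congrFun e1 k.succ,
    fun v k => ?_⟩
  have e2 := e 0 v
  rw [zero_smul, zero_add] at e2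
  exact congrFun e2 k.succ

theorem one (hf : Imm n f) (x : X) : ∃ L : E (N + 1) →L[ℂ] E (n + 1), x ∈ UL f L := by
  obtain ⟨F, hF, hi⟩ := hf x
  obtain ⟨hd, h, e⟩ := hF.self_of_nhds
  rw [(chartAt (E n) x).left_inv (mem_chart_source _ x)] at e
  obtain ⟨L, h1, h2, h3⟩ := left_inv _ _ h hi
  refine ⟨L, (AT1.rep_eq L e).1.2 (by rw [h1]; exact one_ne_zero), det_ne fun v hv => ?_⟩
  have hL : ∀ i, HasFDerivAt (fun z => L (F z) i) ((ContinuousLinearMap.proj i).comp
      (L.comp (fderiv ℂ F (chartAt (E n) x x)))) (chartAt (E n) x x) := fun i =>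
    (ContinuousLinearMap.proj (R := ℂ) (φ := fun _ => ℂ) i).hasFDerivAt.comp _
      (L.hasFDerivAt.comp _ hd.hasFDerivAt)
  have h4 : aL f L ∘ (chartAt (E n) x).symm =ᶠ[𝓝 (chartAt (E n) x x)]
      fun z k => (L (F z) 0)⁻¹ * L (F z) k.succ := by
    filter_upwards [hF] with z hz
    obtain ⟨h, e⟩ := hz.2
    funext k
    rw [Function.comp_apply, AT1.aL_eq, (AT1.rep_eq L e).2, map_smul]
    rfl
  have h5 := ((hL 0).differentiableAt.inv (by rw [h1]; exact one_ne_zero)).hasFDerivAt
  have h6 := hasFDerivAt_pi.2 fun k : Fin n => h5.mul (hL k.succ)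
  rw [h4.fderiv_eq.trans h6.fderiv] at hv
  funext k
  have := congrFun hv k
  simpa [h1, h2, h3] using this

theorem two (hAT1 : St_AT1) [IsManifold 𝓘(ℂ, E n) ω X] (hf : Imm n f) {x : X}
    (L : E (N + 1) →L[ℂ] E (n + 1)) (l : E (N + 1) →L[ℂ] ℂ) (hx : x ∈ UL f L)
    (hv : ∃ v, l (fderiv ℂ (FL f L ∘ lift (aL f L) x) (aL f L x) v) ≠ 0) :
    ∃ (L' : E (N + 1) →L[ℂ] E (n + 1)) (k : Fin n), x ∈ UL f L' ∧ ∀ w, L' w k.succ = l w := by
  obtain ⟨hr, -, H⟩ := hAT1 n N X f hf L
  obtain ⟨hd, -, H⟩ := H x hx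
  set D := l.comp (fderiv ℂ (FL f L ∘ lift (aL f L) x) (aL f L x)) with hD
  have hs : ∀ (k : Fin n) (t : ℂ), D (Pi.single k t) = t * D (Pi.single k 1) := fun k t => by
    rw [← smul_eq_mul, ← map_smul, ← Pi.single_smul, smul_eq_mul, mul_one]
  obtain ⟨k, hk⟩ : ∃ k : Fin n, D (Pi.single k 1) ≠ 0 := by
    by_contra hc
    push Not at hc
    obtain ⟨v, hv⟩ := hv
    refine hv (?_ : D v = 0)
    rw [← Finset.univ_sum_single v, map_sum]
    exact Finset.sum_eq_zero fun k _ => by rw [hs, hc, mul_zero]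
  let L' : E (N + 1) →L[ℂ] E (n + 1) := ContinuousLinearMap.pi fun i =>
    if i = k.succ then l else (ContinuousLinearMap.proj i).comp L
  have e0 : ∀ w, L' w 0 = L w 0 := fun w => by
    simp [L', (Fin.succ_ne_zero k).symm]
  have e1 : ∀ w, L' w k.succ = l w := fun w => by simp [L']
  have e2 : ∀ w (j : Fin n), j ≠ k → L' w j.succ = L w j.succ := fun w j hj => by simp [L', hj]
  have e3 : ∀ y, FL f L' y = FL f L y := fun y => by rw [FL, FL, e0]
  refine ⟨L', k, (H L' (by rw [e0]; exact hx.1)).2.2 (det_ne fun v hv => ?_), e1⟩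
  have h4 : aL f L' ∘ lift (aL f L) x =ᶠ[𝓝 (aL f L x)]
      fun z j => if j = k then l ((FL f L ∘ lift (aL f L) x) z) else z j := by
    filter_upwards [(hr.locH hx).p_lift] with z hz
    funext j
    rw [Function.comp_apply, AT1.aL_eq, e3]
    split_ifs with hj
    · rw [hj, e1]
      rfl
    · rw [e2 _ _ hj, ← AT1.aL_eq, hz]
  have h5 : HasFDerivAt (fun (z : E n) j =>
      if j = k then l ((FL f L ∘ lift (aL f L) x) z) else z j)
      (ContinuousLinearMap.pi fun j => if j = k then D else ContinuousLinearMap.proj j)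
      (aL f L x) := hasFDerivAt_pi.2 fun j => by
    split_ifs with hj
    · exact l.hasFDerivAt.comp _ hd.self_of_nhds.hasFDerivAt
    · exact (ContinuousLinearMap.proj (R := ℂ) (φ := fun _ => ℂ) j).hasFDerivAt
  rw [h4.fderiv_eq, h5.fderiv] at hv
  have h6 : v = Pi.single k (v k) := by
    funext j
    by_cases hj : j = k
    · rw [hj, Pi.single_eq_same]
    · have := congrFun hv j
      simp only [ContinuousLinearMap.pi_apply, if_neg hj] at this
      rw [Pi.single_eq_of_ne hj]
      exact this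
  have h7 := congrFun hv k
  simp only [ContinuousLinearMap.pi_apply, if_true] at h7
  rw [h6, hs] at h7
  rw [h6, (mul_eq_zero.1 h7).resolve_right hk, Pi.single_zero]

end AT4

theorem stAT4 (hAT1 : St_AT1) : St_AT4 := fun _ _ _ _ _ _ _ hf x =>
  ⟨AT4.one hf x, fun L l hx _ hv => AT4.two hAT1 hf L l hx hv⟩

end Pool.Agent.Lib.SV
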