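import Pool.Agent.Lib.SV.Blue4

/-! Existence of the étale atlas. -/

open scoped Classical Topology Manifold ContDiff
open Set Filter

noncomputable section

namespace Pool.Agent.Lib.SV

theorem ATL.fin_cover {X A : Type} [TopologicalSpace X] [CompactSpace X] (Q : A → X → Prop)
    (h : ∀ x, ∃ a, ∀ᶠ x' in 𝓝 x, Q a x') : ∃ (r : ℕ) (L : Fin r → A), ∀ x, ∃ i, Q (L i) x := by
  choose a ha using h
  obtain ⟨t, ht⟩ := CompactSpace.elim_nhds_subcover (fun x => {x' | Q (a x) x'}) ha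
  refine ⟨t.card, fun i => a (t.equivFin.symm i), fun x => ?_⟩
  obtain ⟨y, hy, hx⟩ := mem_iUnion₂.1 (ht.ge (mem_univ x))
  exact ⟨t.equivFin ⟨y, hy⟩, by simpa using hx⟩

theorem stATL (hAT1 : St_AT1) (hAT2 : St_AT2) (hAT3 : St_AT3) (hAT4 : St_AT4) (hBER : St_BER) :
    St_ATL := by
  rintro n X _ _ _ _ ⟨x₀⟩ hn ⟨N, f, hf⟩
  have hf : Imm n f := hf
  haveI : SecondCountableTopology X := ChartedSpace.secondCountable_of_sigmaCompact (E n) X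
  have op : ∀ (L : E (N + 1) →L[ℂ] E (n + 1)), ∀ x ∈ UL f L, ∀ᶠ x' in 𝓝 x, x' ∈ UL f L :=
    fun L x hx => (hAT1 n N X f hf L).1.opn.mem_nhds hx
  obtain ⟨r₀, L₀, h₀⟩ := ATL.fin_cover (fun L x => x ∈ UL f L) fun x =>
    (hAT4 n N X f hf x).1.imp fun L hx => op L x hx
  obtain ⟨l, hl⟩ := hBER n N r₀ X f L₀ hn hf
  obtain ⟨r, L, h⟩ := ATL.fin_cover (fun (L : E (N + 1) →L[ℂ] E (n + 1)) x => x ∈ UL f L ∧
      (l (f x).rep ≠ 0 ∨ ∃ k : Fin n, ∀ w, L w k.succ = l w)) fun x => by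
    obtain ⟨i, hi⟩ := h₀ x
    by_cases hx : l (f x).rep = 0
    · obtain ⟨L', k, a, b⟩ := (hAT4 n N X f hf x).2 (L₀ i) l hi hx (hl i x hi hx)
      exact ⟨L', (op L' x a).mono fun y hy => ⟨hy, Or.inr ⟨k, b⟩⟩⟩
    · exact ⟨L₀ i, (op _ x hi).and (((hAT1 n N X f hf (ContinuousLinearMap.pi fun _ => l)).2.1 x
        hx).1.mono fun y hy => Or.inl hy)⟩
  obtain ⟨o, ho, -⟩ := h x₀
  obtain ⟨a1, a2, a3, a4, a5, a6, a7, a8, a9, a10⟩ := hAT2 n N r X f o L l hf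
  obtain ⟨b1, b2, b3, b4, b5⟩ := hAT3 n N r X f o L l hf
  refine ⟨preOf f o L l, ⟨fun i => (hAT1 n N X f hf (L i)).1, fun x => (h x).imp fun i a => a.1,
    ⟨x₀, ho⟩, a2, a3, b1, a4, a5, b2, b3, a6, a7, a8, b4, a9, a10, b5, fun x => ?_⟩, a1⟩
  have e : ∀ i, ∀ y ∈ UL f (L i),
      (preOf f o L l : Pre n X).l i y = (L i (f y).rep 0)⁻¹ * l (f y).rep := fun i y hy => by
    simp only [preOf, if_pos hy, FL, map_smul, smul_eq_mul]
  obtain ⟨i, hi, hx | ⟨k, hk⟩⟩ := h x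
  · exact Or.inl ⟨i, hi, by rw [e i x hi]; exact mul_ne_zero (inv_ne_zero hi.1) hx⟩
  · refine Or.inr ⟨i, hi, k, fun y hy => ?_⟩
    rw [e i y hy, ← hk, ← div_eq_inv_mul]
    rfl

end Pool.Agent.Lib.SV
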