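import Pool.Agent.Lib.SV.Blue2

/-! Bounds by compactness. -/

open scoped Topology
open Set Complex Filter

noncomputable section

namespace Pool.Agent.Lib.SV

namespace BD

theorem cpt {Y : Type} [TopologicalSpace Y] {K : Set Y} (hK : IsCompact K) (P : ℝ → Y → Prop)
    (mono : ∀ M M' x, M ≤ M' → P M x → P M' x) (h : ∀ y ∈ K, ∃ M, ∀ᶠ x in 𝓝 y, P M x) :
    ∃ M, 0 ≤ M ∧ ∀ x ∈ K, P M x := by
  refine hK.induction_on (p := fun s => ∃ M, 0 ≤ M ∧ ∀ x ∈ s, P M x) ?_ ?_ ?_ ?_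
  · exact ⟨0, le_rfl, fun _ h => h.elim⟩
  · rintro s t hst ⟨M, h0, hM⟩
    exact ⟨M, h0, fun x hx => hM x (hst hx)⟩
  · rintro s t ⟨M, h0, hM⟩ ⟨M', h0', hM'⟩
    refine ⟨max M M', le_max_of_le_left h0, fun x hx => ?_⟩
    rcases hx with hx | hx
    · exact mono _ _ _ (le_max_left _ _) (hM x hx)
    · exact mono _ _ _ (le_max_right _ _) (hM' x hx)
  · intro y hy
    obtain ⟨M, hM⟩ := h y hy
    exact ⟨_, mem_nhdsWithin_of_mem_nhds hM, max M 0, le_max_right _ _,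
      fun x hx => mono _ _ _ (le_max_left _ _) hx⟩

theorem loc (hL : St_LOCB) {n : ℕ} (C : Ctx n) {i : C.ι} {y : C.Y} (hy : y ∈ C.W i)
    {f : C.Y → ℝ} (hf : Sm (C.q i) 2 f y) : ∃ M, ∀ᶠ x in 𝓝 y, x ∈ C.W i ∧ ∀ v,
      grd (C.q i) f x v ≤ M * C.om i x v ∧ |lev (C.q i) f x v| ≤ M * C.om i x v := by
  have hl := Ctx.locH hy
  obtain ⟨M, hM⟩ := hL n (f ∘ lift (C.q i) y) (C.φ i ∘ lift (C.q i) y) (C.q i y) hf
    (Ctx.sm_φ hy) (fun v hv => Ctx.om_pos hy hv)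
  refine ⟨M, ?_⟩
  filter_upwards [(C.rd i).opn.mem_nhds hy, hl.continuousAt.tendsto.eventually hM, hl.lift_near]
    with x hx h1 h2
  refine ⟨hx, fun v => ?_⟩
  have e1 : dd (C.q i) f x = fderiv ℝ (f ∘ lift (C.q i) y) (C.q i x) := (h2.fun_comp f).fderiv_eq
  have e2 : lev (C.q i) f x v = levE (f ∘ lift (C.q i) y) (C.q i x) v :=
    levE_congr (h2.fun_comp f) v
  have e3 : C.om i x v = levE (C.φ i ∘ lift (C.q i) y) (C.q i x) v :=
    levE_congr (h2.fun_comp _) v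
  rw [grd, e1, e2, e3]
  exact ⟨(h1 v).1, (h1 v).2.1⟩

theorem part1 (hTR : St_TR) (hL : St_LOCB) {n : ℕ} (C : Ctx n) (f : C.Y → ℝ) (hf : C.GSm f)
    (hc : HasCompactSupport f) : ∃ M, 0 ≤ M ∧ C.Bd f M := by
  obtain ⟨M, h0, hM⟩ := cpt hc (fun M x => ∀ i, x ∈ C.W i → ∀ v,
      grd (C.q i) f x v ≤ M * C.om i x v ∧ |lev (C.q i) f x v| ≤ M * C.om i x v)
    (fun M M' x hMM h i hi v =>
      ⟨(h i hi v).1.trans (mul_le_mul_of_nonneg_right hMM (Ctx.om_nonneg hi v)),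
        (h i hi v).2.trans (mul_le_mul_of_nonneg_right hMM (Ctx.om_nonneg hi v))⟩)
    (fun y _ => by
      obtain ⟨M, hM⟩ := loc hL C (Ctx.mem_ix y) (hf _ y (Ctx.mem_ix y))
      refine ⟨M, hM.mono fun x hx j hj v => ?_⟩
      obtain ⟨-, -, t3, t4, t5, -⟩ := hTR n C (C.ix y) j x hx.1 hj
      have s2 := hf _ x hx.1
      have s1 : Sm (C.q (C.ix y)) 1 f x := s2.of_le (by norm_num)
      rw [t4 f s2, t5, grd, t3 f s1, t3 f s1, map_smul]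
      exact hx.2 _)
  refine ⟨M, h0, fun i y hy v => ?_⟩
  by_cases hs : y ∈ tsupport f
  · exact hM y hs i hy v
  · have e : f =ᶠ[𝓝 y] fun _ => (0 : ℝ) := notMem_tsupport_iff_eventuallyEq.1 hs
    have hl := Ctx.locH hy
    have p := mul_nonneg h0 (Ctx.om_nonneg hy v)
    have e1 : dd (C.q i) f y = 0 := by
      rw [dd_congr hl e]
      exact fderiv_const_apply (0 : ℝ)
    rw [grd, e1, lev_congr hl e, lev_const]
    simpa using p

theorem part2 (hTR : St_TR) (hL : St_LOCB) {n : ℕ} (C : Ctx n) :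
    ∃ M, 0 ≤ M ∧ ∀ i, ∀ y ∈ C.W i, ∀ v, |lev (C.q i) (C.κ i) y v| ≤ M * C.om i y v := by
  obtain ⟨M, h0, hM⟩ := cpt (isCompact_univ (X := C.X)) (fun M x => ∀ i, x ∈ C.base.W i → ∀ v,
      |lev (C.base.q i) (C.base.κ i) x v| ≤ M * C.base.om i x v)
    (fun M M' x hMM h i hi v =>
      (h i hi v).trans (mul_le_mul_of_nonneg_right hMM (Ctx.om_nonneg (C := C.base) hi v)))
    (fun y _ => by
      have hy := Ctx.mem_ix (C := C.base) y
      obtain ⟨M, hM⟩ := loc hL C.base hy (Ctx.sm_κ hy)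
      refine ⟨M, hM.mono fun x hx j hj v => ?_⟩
      obtain ⟨-, -, -, -, t5, t6, -⟩ := hTR n C.base (C.base.ix y) j x hx.1 hj
      rw [t6, t5]
      exact (hx.2 _).2)
  refine ⟨M, h0, fun i y hy v => ?_⟩
  rw [Ctx.om_eq hy, Ctx.lev_π hy]
  exact hM (C.π y) (mem_univ _) i hy v

end BD

theorem stBD (hTR : St_TR) (hLOCB : St_LOCB) : St_BD := fun _ C =>
  ⟨BD.part1 hTR hLOCB C, BD.part2 hTR hLOCB C⟩

end Pool.Agent.Lib.SV
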