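import Pool.Agent.Lib.SV.Blue4

/-! Theorem of Bertini by a count of dimensions. -/

open scoped Classical Topology ENNReal Manifold ContDiff
open Set MeasureTheory Complex Filter Metric Module

set_option linter.unusedVariables false

noncomputable section

namespace Pool.Agent.Lib.SV

namespace BER

variable {n N : ℕ}

/-- `F` is a normalised `C^2` lift near `z`. -/
def Nor (L : E (N + 1) →L[ℂ] E (n + 1)) (F : E n → E (N + 1)) (z : E n) : Prop :=
  ContDiffAt ℂ (2 : ℕ) F z ∧ ∀ᶠ w in 𝓝 z, L (F w) 0 = 1 ∧ ∀ k, L (F w) k.succ = w k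

/-- The linear forms whose hyperplane is tangent somewhere. -/
def Bad (L : E (N + 1) →L[ℂ] E (n + 1)) (F : E n → E (N + 1)) : Set (E (N + 1) →L[ℂ] ℂ) :=
  {l | ∃ z, Nor L F z ∧ l (F z) = 0 ∧ ∀ v, l (fderiv ℂ F z v) = 0}

/-- The last coordinates. -/
def tl (n : ℕ) : E (n + 1) →L[ℂ] E n :=
  ContinuousLinearMap.pi fun k => ContinuousLinearMap.proj k.succ

/-- The first coordinate. -/
def hd (n : ℕ) : E (n + 1) →L[ℂ] ℂ := ContinuousLinearMap.proj 0

/-- The projection onto the kernel of `L` along the affine tangent space. -/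
def Q (L : E (N + 1) →L[ℂ] E (n + 1)) (F : E n → E (N + 1)) (z : E n) :
    E (N + 1) →L[ℂ] E (N + 1) :=
  ContinuousLinearMap.id ℂ _ - ((hd n).comp L).smulRight (F z) -
    (fderiv ℂ F z).comp ((tl n).comp L - ((hd n).comp L).smulRight z)

variable {L : E (N + 1) →L[ℂ] E (n + 1)} {F : E n → E (N + 1)} {z : E n}

theorem Q_apply (w : E (N + 1)) :
    Q L F z w = w - L w 0 • F z - fderiv ℂ F z ((fun k => L w k.succ) - L w 0 • z) := rfl

theorem Nor.der (h : Nor L F z) (v : E n) :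
    L (fderiv ℂ F z v) 0 = 0 ∧ ∀ k, L (fderiv ℂ F z v) k.succ = v k := by
  have hF : HasFDerivAt F (fderiv ℂ F z) z := (h.1.differentiableAt (by simp)).hasFDerivAt
  have key : ∀ j : Fin (n + 1), HasFDerivAt (fun w => L (F w) j)
      (((ContinuousLinearMap.proj j : E (n + 1) →L[ℂ] ℂ).comp L).comp (fderiv ℂ F z)) z :=
    fun j => ((ContinuousLinearMap.proj j : E (n + 1) →L[ℂ] ℂ).comp L).hasFDerivAt.comp z hF
  constructor
  · have h1 : HasFDerivAt (fun w => L (F w) 0) (0 : E n →L[ℂ] ℂ) z :=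
      (hasFDerivAt_const (1 : ℂ) z).congr_of_eventuallyEq (h.2.mono fun w hw => hw.1)
    exact congrArg (fun T : E n →L[ℂ] ℂ => T v) ((key 0).unique h1)
  · intro k
    have h1 : HasFDerivAt (fun w => L (F w) k.succ)
        (ContinuousLinearMap.proj k : E n →L[ℂ] ℂ) z :=
      (ContinuousLinearMap.proj k : E n →L[ℂ] ℂ).hasFDerivAt.congr_of_eventuallyEq
        (h.2.mono fun w hw => hw.2 k)
    exact congrArg (fun T : E n →L[ℂ] ℂ => T v) ((key k.succ).unique h1)

theorem Nor.val (h : Nor L F z) (c : ℂ) (u : E n) :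
    L (c • F z + fderiv ℂ F z (u - c • z)) = Fin.cons c u := by
  have h0 := h.2.self_of_nhds
  funext j
  rw [map_add, map_smul, Pi.add_apply, Pi.smul_apply]
  refine Fin.cases ?_ (fun k => ?_) j
  · rw [h0.1, (h.der _).1]
    simp
  · rw [h0.2, (h.der _).2]
    simp

theorem Nor.ker (h : Nor L F z) (w : E (N + 1)) : L (Q L F z w) = 0 := by
  rw [Q_apply, sub_sub, map_sub, h.val, sub_eq_zero]
  exact (Fin.cons_self_tail (L w)).symm

theorem Nor.rank (h : Nor L F z) :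
    n + finrank ℂ (LinearMap.ker (L : E (N + 1) →ₗ[ℂ] E (n + 1))) = N := by
  have h1 : LinearMap.range (L : E (N + 1) →ₗ[ℂ] E (n + 1)) = ⊤ :=
    LinearMap.range_eq_top.2 fun c => ⟨_, (h.val (c 0) (Fin.tail c)).trans (Fin.cons_self_tail c)⟩
  have h2 := (L : E (N + 1) →ₗ[ℂ] E (n + 1)).finrank_range_add_finrank_ker
  rw [h1, finrank_top, finrank_fin_fun, finrank_fin_fun] at h2
  omega

theorem Nor.smooth (h : Nor L F z) : ContDiffAt ℂ 1 (Q L F) z := by
  have h1 : ContDiffAt ℂ 1 F z := h.1.of_le (by norm_num)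
  have h2 : ContDiffAt ℂ 1 (fderiv ℂ F) z := h.1.fderiv_right (by norm_num)
  exact (contDiffAt_const.sub (contDiffAt_const.smulRight h1)).sub
    (h2.clm_comp (contDiffAt_const.sub (contDiffAt_const.smulRight contDiffAt_id)))

theorem rank_dual (K : Type) [NormedAddCommGroup K] [NormedSpace ℂ K] [FiniteDimensional ℂ K] :
    finrank ℝ (K →L[ℂ] ℂ) = 2 * finrank ℂ K := by
  rw [← Module.finrank_mul_finrank ℝ ℂ (K →L[ℂ] ℂ), Complex.finrank_real_complex,
    ← (LinearMap.toContinuousLinearMap (𝕜 := ℂ) (E := K) (F' := ℂ)).finrank_eq,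
    Module.finrank_linearMap_self]

theorem dim_bad (L : E (N + 1) →L[ℂ] E (n + 1)) (F : E n → E (N + 1)) :
    dimH (Bad L F) ≤ (2 * N : ℕ) := by
  rcases (Bad L F).eq_empty_or_nonempty with h | ⟨_, z0, h0, -⟩
  · rw [h, dimH_empty]
    exact zero_le
  let K := LinearMap.ker (L : E (N + 1) →ₗ[ℂ] E (n + 1))
  obtain ⟨π0, hπ⟩ := K.subtype.exists_leftInverse_of_injective K.ker_subtype
  let π : E (N + 1) →L[ℂ] K := LinearMap.toContinuousLinearMap π0
  let Φ : E n × (K →L[ℂ] ℂ) → (E (N + 1) →L[ℂ] ℂ) := fun p => p.2.comp (π.comp (Q L F p.1))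
  have hsub : Bad L F ⊆ Φ '' {p | Nor L F p.1} := by
    rintro l ⟨z, hz, h1, h2⟩
    refine ⟨(z, l.comp K.subtypeL), hz, ContinuousLinearMap.ext fun w => ?_⟩
    have h3 : π0 (Q L F z w) = ⟨Q L F z w, hz.ker w⟩ :=
      LinearMap.congr_fun hπ ⟨Q L F z w, hz.ker w⟩
    show l (π0 (Q L F z w) : E (N + 1)) = l w
    rw [h3]
    show l (Q L F z w) = l w
    rw [Q_apply, map_sub, map_sub, map_smul, h1, h2, smul_zero, sub_zero, sub_zero]
  have hΦ : dimH (Φ '' {p | Nor L F p.1}) ≤ dimH {p : E n × (K →L[ℂ] ℂ) | Nor L F p.1} := by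
    refine dimH_image_le_of_locally_lipschitzOn fun p hp => ?_
    have h1 : ContDiffAt ℂ 1 Φ p :=
      contDiffAt_snd.clm_comp (contDiffAt_const.clm_comp (ContDiffAt.comp p (Nor.smooth hp)
        contDiffAt_fst))
    obtain ⟨C, t, ht, hl⟩ := h1.exists_lipschitzOnWith
    exact ⟨C, t, mem_nhdsWithin_of_mem_nhds ht, hl⟩
  refine (dimH_mono hsub).trans (hΦ.trans ((dimH_mono (subset_univ _)).trans (le_of_eq ?_)))
  refine (Real.dimH_univ_eq_finrank (E n × (K →L[ℂ] ℂ))).trans ?_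
  rw [finrank_prod, rank_dual, ← Module.finrank_mul_finrank ℝ ℂ (E n),
    Complex.finrank_real_complex, finrank_fin_fun, ← mul_add, h0.rank]

end BER

theorem stBER (hAT1 : St_AT1) (hSMO : St_SMO) : St_BER := by
  intro n N r X _ _ _ _ f L hn hf
  have loc : ∀ i, ∀ x ∈ UL f (L i), ∀ᶠ x' in 𝓝 x, ∀ l : E (N + 1) →L[ℂ] ℂ, l (f x').rep = 0 →
      (∀ v, l (fderiv ℂ (FL f (L i) ∘ lift (aL f (L i)) x') (aL f (L i) x') v) = 0) →
      l ∈ BER.Bad (L i) (FL f (L i) ∘ lift (aL f (L i)) x) := by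
    intro i x hx
    obtain ⟨hR, -, h3⟩ := hAT1 n N X f hf (L i)
    have hl := hR.locH hx
    obtain ⟨O, hO, ho, hxO⟩ := _root_.mem_nhds_iff.1 ((h3 x hx).1.and
      ((hl.tendsto_lift.eventually (hR.opn.mem_nhds hx)).and hl.p_lift))
    have hs := hSMO n (E (N + 1)) O _ ho (fun z hz => (hO hz).1.differentiableWithinAt) 2
    filter_upwards [hl.continuousAt.tendsto.eventually (ho.mem_nhds hxO), hl.lift_near, hl.lift_p]
      with x' h1 h2 h4 l l1 l2
    refine ⟨aL f (L i) x', ⟨hs.contDiffAt (ho.mem_nhds h1), ?_⟩, ?_, fun v => ?_⟩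
    · filter_upwards [ho.mem_nhds h1] with w hw
      have h5 : L i (f (lift (aL f (L i)) x w)).rep 0 ≠ 0 := (hO hw).2.1.1
      have h6 : aL f (L i) (lift (aL f (L i)) x w) = w := (hO hw).2.2
      refine ⟨?_, fun k => ?_⟩
      · simp only [Function.comp_apply, FL, map_smul, Pi.smul_apply, smul_eq_mul]
        exact inv_mul_cancel₀ h5
      · simp only [Function.comp_apply, FL, map_smul, Pi.smul_apply, smul_eq_mul]
        rw [← div_eq_inv_mul]
        exact congrFun h6 k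
    · simp only [Function.comp_apply, h4, FL, map_smul, l1, smul_zero]
    · rw [← (h2.fun_comp (FL f (L i))).fderiv_eq]
      exact l2 v
  choose t ht1 ht2 ht3 using fun i => TopologicalSpace.countable_cover_nhdsWithin
    fun x hx => mem_nhdsWithin_of_mem_nhds (loc i x hx)
  have hdim : dimH (⋃ i, ⋃ x ∈ t i, BER.Bad (L i) (FL f (L i) ∘ lift (aL f (L i)) x)) <
      finrank ℝ (E (N + 1) →L[ℂ] ℂ) := by
    rw [BER.rank_dual, finrank_fin_fun, dimH_iUnion]
    refine lt_of_le_of_lt (b := ((2 * N : ℕ) : ℝ≥0∞)) (iSup_le fun i => ?_) ?_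
    · rw [dimH_bUnion (ht2 i)]
      exact iSup₂_le fun x _ => BER.dim_bad _ _
    · exact_mod_cast by omega
  obtain ⟨l, hl⟩ := (dense_compl_of_dimH_lt_finrank hdim).nonempty
  refine ⟨l, fun i x hx h0 => ?_⟩
  by_contra hc
  push Not at hc
  obtain ⟨y, hy, hxy⟩ := mem_iUnion₂.1 (ht3 i hx)
  exact hl (mem_iUnion.2 ⟨i, mem_iUnion₂.2 ⟨y, hy, hxy l h0 hc⟩⟩)

end Pool.Agent.Lib.SV
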