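import Pool.Agent.Lib.SV.Blue4

/-! The partition function of the statement is admissible. -/

open scoped Classical Topology ENNReal Manifold ContDiff
open Set MeasureTheory Complex Filter Metric

noncomputable section

namespace Pool.Agent.Lib.SV

namespace BRA

/-- A left inverse of a local biholomorphism is smooth. -/
theorem inv_smooth (hSMO : St_SMO) {n : ℕ} {G g : E n → E n} {z : E n}
    (hG : ∀ᶠ w in 𝓝 z, DifferentiableAt ℂ G w) (hd : (fderiv ℂ G z).det ≠ 0)
    (hg : ∀ᶠ w in 𝓝 z, g (G w) = w) (k : ℕ) : ContDiffAt ℂ k g (G z) := by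
  obtain ⟨U, hU, ho, hz⟩ := _root_.eventually_nhds_iff.1 hG
  have h1 : ContDiffAt ℂ (k + 1 : ℕ) G z :=
    (hSMO n (E n) U G ho (fun w hw => (hU w hw).differentiableWithinAt) (k + 1)).contDiffAt
      (ho.mem_nhds hz)
  have h2 : HasFDerivAt G ((fderiv ℂ G z).toContinuousLinearEquivOfDetNeZero hd : E n →L[ℂ] E n)
      z := by
    rw [ContinuousLinearMap.coe_toContinuousLinearEquivOfDetNeZero]
    exact (hU z hz).hasFDerivAt
  have hk : ((k + 1 : ℕ) : WithTop ℕ∞) ≠ 0 := by exact_mod_cast k.succ_ne_zero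
  refine ((h1.to_localInverse h2 hk).of_le (by exact_mod_cast k.le_succ)).congr_of_eventuallyEq ?_
  exact (h1.hasStrictFDerivAt' h2 hk).localInverse_unique hg

/-- The chart of the manifold read in étale coordinates is smooth. -/
theorem chart_smooth (hSMO : St_SMO) {n : ℕ} {X : Type} [TopologicalSpace X] [ChartedSpace (E n) X]
    {p : X → E n} {x : X} (hp : LocH p x)
    (hG : ∀ᶠ w in 𝓝 (chartAt (E n) x x), DifferentiableAt ℂ (p ∘ (chartAt (E n) x).symm) w)
    (hd : (fderiv ℂ (p ∘ (chartAt (E n) x).symm) (chartAt (E n) x x)).det ≠ 0) (k : ℕ) :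
    ContDiffAt ℂ k (chartAt (E n) x ∘ lift p x) (p x) := by
  have hx := mem_chart_source (E n) x
  have ht : Tendsto (chartAt (E n) x).symm (𝓝 (chartAt (E n) x x)) (𝓝 x) :=
    (chartAt (E n) x).tendsto_symm hx
  have := inv_smooth hSMO (g := chartAt (E n) x ∘ lift p x) hG hd (by
    filter_upwards [ht.eventually hp.lift_p,
      (chartAt (E n) x).open_target.mem_nhds (mem_chart_target (E n) x)] with w h1 h2
    simp only [Function.comp_apply]
    rw [h1, (chartAt (E n) x).right_inv h2]) k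
  rwa [Function.comp_apply, (chartAt (E n) x).left_inv hx] at this

end BRA

theorem stBRA (hSMO : St_SMO) : St_BRA := by
  intro n C _ _ f hc hf
  refine ⟨fun i y hy => ?_, hf.cpt, hf.sum⟩
  have hb := Ctx.locH_base hy
  have hq := Ctx.locH hy
  have hπ : LocH C.π y := LocH.of_on C.isLocalHomeomorph.isLocalHomeomorphOn (mem_univ y)
  have h1 := (BRA.chart_smooth hSMO hb (hc i _ hy).1 (hc i _ hy).2 2).restrict_scalars ℝ
  have h2 : ContDiffAt ℝ (2 : ℕ) (f ∘ lift C.π y ∘ (chartAt (E n) (C.π y)).symm)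
      ((chartAt (E n) (C.π y) ∘ lift (C.P.p i) (C.π y)) (C.P.p i (C.π y))) := by
    rw [Function.comp_apply, hb.lift_self]
    exact (hf.smooth y).of_le (WithTop.coe_le_coe.2 (le_top : ((2 : ℕ) : ℕ∞) ≤ ⊤))
  refine ContDiffAt.congr_of_eventuallyEq (h2.comp _ h1) ?_
  filter_upwards [Ctx.lift_π hy, hq.tendsto_lift.eventually hπ.lift_p, hb.tendsto_lift.eventually
    ((chartAt (E n) (C.π y)).open_source.mem_nhds (mem_chart_source (E n) (C.π y)))] with w a b c
  simp only [Function.comp_apply] at a ⊢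
  rw [(chartAt (E n) (C.π y)).left_inv c, a, b]

end Pool.Agent.Lib.SV
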