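import Pool.Agent.Lib.SV.Blue2

/-! The volume measure of a covering: independence of the chart, finiteness, invariance. -/

open scoped Classical Topology ENNReal
open Set MeasureTheory Complex Filter

noncomputable section

namespace Pool.Agent.Lib.SV

namespace VOL

/-- Two measures carried by a set on which they agree locally are equal. -/
theorem ext_loc {Y : Type} [TopologicalSpace Y] [SecondCountableTopology Y] [MeasurableSpace Y]
    {μ ν : Measure Y} {U : Set Y} (hμ : μ Uᶜ = 0) (hν : ν Uᶜ = 0)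
    (h : ∀ y ∈ U, ∃ O ∈ 𝓝 y, O ⊆ U ∧ μ.restrict O = ν.restrict O) : μ = ν := by
  choose! O hO hU he using h
  obtain ⟨t, ht, hc, hs⟩ := TopologicalSpace.countable_cover_nhdsWithin (s := U) (f := O)
    fun y hy => mem_nhdsWithin_of_mem_nhds (hO y hy)
  have e : (⋃ y ∈ t, O y) = U :=
    Subset.antisymm (iUnion₂_subset fun y hy => hU y (ht hy)) hs
  have := (Measure.restrict_biUnion_congr (μ := μ) (ν := ν) (t := O) hc).2
    fun y hy => he y (ht hy)
  rw [e] at this
  rw [← Measure.restrict_eq_self_of_ae_mem (μ := μ) (s := U) hμ, this,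
    Measure.restrict_eq_self_of_ae_mem (μ := ν) (s := U) hν]

theorem isRM_unique {n : ℕ} (D : Dom n) {μ ν : Measure D.Y} (hμ : IsRM D.p D.W μ)
    (hν : IsRM D.p D.W ν) : μ = ν := by
  refine ext_loc hμ.off hν.off fun y hy => ?_
  obtain ⟨e, he, hy', -⟩ := D.rd.exists_cht hy univ_mem
  refine ⟨e.source, e.open_source.mem_nhds hy', he.sub, Measure.ext fun A hA => ?_⟩
  have h1 : MeasurableSet (A ∩ e.source) := hA.inter e.open_source.measurableSet
  have h2 : A ∩ e.source ⊆ D.W := fun x hx => he.sub hx.2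
  have h3 : InjOn D.p (A ∩ e.source) := (e.injOn.congr he.eq.symm).mono inter_subset_right
  rw [Measure.restrict_apply hA, Measure.restrict_apply hA, hμ.inj _ h1 h2 h3, hν.inj _ h1 h2 h3]

variable {n : ℕ} (C : Ctx n)

/-- The chart domain as a Riemann domain. -/
abbrev dm (i : C.ι) : Dom n := C.dom i (C.W i) (C.rd i).opn Subset.rfl

/-- The density of the volume in the chart `i`. -/
abbrev den (i : C.ι) (y : C.Y) : ℝ≥0∞ := ENNReal.ofReal (Real.exp (C.κ i y))

variable {C}

/-- Change of variables in a small chart. -/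
theorem chg (hRM : St_RM) (hTR : St_TR) {i j : C.ι} {y : C.Y} (hi : y ∈ C.W i) (hj : y ∈ C.W j) :
    ∃ O, IsOpen O ∧ y ∈ O ∧ O ⊆ C.W i ∩ C.W j ∧ ∀ f : C.Y → ℝ≥0∞, ∫⁻ x in O, f x ∂C.leb i =
      ∫⁻ x in O, ENNReal.ofReal (normSq (C.P.d i j (C.π x))) * f x ∂C.leb j := by
  obtain ⟨a, ha, hya, -⟩ := (C.rd i).exists_cht hi univ_mem
  obtain ⟨b, hb, hyb, hba⟩ := (C.rd j).exists_cht hj (a.open_source.mem_nhds hya)
  refine ⟨b.source, b.open_source, hyb, fun x hx => ⟨ha.sub (hba hx), hb.sub hx⟩, fun f => ?_⟩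
  let a' := a.restrOpen b.source b.open_source
  have ha' : Cht (C.q i) (C.W i) a' := ⟨fun x hx => ha.sub hx.1, fun x hx => ha.eq hx.1⟩
  have hs : a'.source = b.source := inter_eq_right.2 hba
  have e1 := (hRM n (dm C i)).2.2.1 a' ha' f
  have e2 := (hRM n (dm C j)).2.2.1 b hb
    fun x => ENNReal.ofReal (normSq (C.P.d i j (C.π x))) * f x
  rw [hs] at e1
  refine e1.trans (Eq.trans ?_ e2.symm)
  have im : (C.q i ∘ b.symm) '' b.target = a'.target := by
    rw [image_comp, b.symm_image_target_eq_source, ← hs, ← a'.image_source_eq_target]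
    exact ha'.eq.image_eq
  have der : ∀ w ∈ b.target, HasFDerivWithinAt (C.q i ∘ b.symm)
      ((C.P.T i j (C.π (b.symm w))).restrictScalars ℝ) b.target w := fun w hw => by
    have hx := b.map_target hw
    have hxj := hb.sub hx
    have h1 := (C.good.hol i j _ (ha.sub (hba hx)) hxj).hasFDerivAt.restrictScalars ℝ
    have h2 : C.P.tr i j (C.π (b.symm w)) =ᶠ[𝓝 (C.q j (b.symm w))] C.q i ∘ b.symm := by
      filter_upwards [Ctx.lift_π hxj, hb.lift_eq hx] with z h h'
      simp only [Pre.tr, Function.comp_apply] at h ⊢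
      rw [h, h']
    have h3 := h1.congr_of_eventuallyEq h2.symm
    have h4 : C.P.p j (C.π (b.symm w)) = w := hb.p_symm hw
    rw [h4] at h3
    unfold Pre.T
    rw [h4]
    exact h3.hasFDerivWithinAt
  have inj : InjOn (C.q i ∘ b.symm) b.target :=
    ((a.injOn.congr ha.eq.symm).mono hba).comp b.symm.injOn fun _ hw => b.map_target hw
  rw [← im, lintegral_image_eq_lintegral_abs_det_fderiv_mul volume b.open_target.measurableSet
    der inj]
  refine setLIntegral_congr_fun b.open_target.measurableSet fun w hw => ?_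
  have hx := b.map_target hw
  have h5 := (hTR n C i j _ (ha.sub (hba hx)) (hb.sub hx)).2.2.2.2.2.2.2.2
  have h6 : a'.symm ((C.q i ∘ b.symm) w) = b.symm w := ha'.symm_p (hs ▸ hx)
  simp only [h5, h6, abs_of_nonneg (normSq_nonneg _)]

theorem loc_eq (hRM : St_RM) (hTR : St_TR) {i j : C.ι} {y : C.Y} (hi : y ∈ C.W i)
    (hj : y ∈ C.W j) : ∃ O ∈ 𝓝 y, O ⊆ C.W i ∩ C.W j ∧
      ((C.leb i).withDensity (den C i)).restrict O =
        ((C.leb j).withDensity (den C j)).restrict O := by
  obtain ⟨O, ho, hy, hs, h⟩ := chg hRM hTR hi hj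
  refine ⟨O, ho.mem_nhds hy, hs, Measure.ext fun A hA => ?_⟩
  rw [restrict_withDensity ho.measurableSet, restrict_withDensity ho.measurableSet,
    withDensity_apply _ hA, withDensity_apply _ hA, ← lintegral_indicator hA,
    ← lintegral_indicator hA, h]
  refine setLIntegral_congr_fun ho.measurableSet fun x hx => ?_
  by_cases hA' : x ∈ A
  · have h0 := normSq_pos.2 (C.good.d0 i j _ (hs hx).1 (hs hx).2)
    simp only [indicator_of_mem hA', den, Function.comp_apply]
    rw [C.good.relκ i j _ (hs hx).1 (hs hx).2, Real.exp_add, Real.exp_log h0,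
      ← ENNReal.ofReal_mul h0.le, mul_comm]
  · simp only [indicator_of_notMem hA', mul_zero]

theorem leb_off (hID : St_ID) (i : C.ι) {j : C.ι} (hj : (C.P.U j).Nonempty) :
    C.leb i (C.W j)ᶜ = 0 := by
  have h0 : C.P.ξ j * C.P.jac j ≠ 0 := fun h => by
    obtain ⟨x, hx⟩ := hj
    have := congrFun (congrFun h j) x
    simp only [Pi.mul_apply, C.good.ξ1 j x hx, C.good.j1 j x hx, mul_one, Pi.zero_apply,
      one_ne_zero] at this
  have := (hID n C 1 (n + 2) _ (C.σ_mem j) h0).2.1 i
  rwa [C.nz_σ] at this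

theorem vol_eq (hRM : St_RM) (hTR : St_TR) (hID : St_ID) {i : C.ι} (hi : (C.P.U i).Nonempty) :
    C.V = (C.leb i).withDensity (den C i) := by
  have h : ∀ k, (C.leb k).withDensity (den C k) (C.W C.o ∩ C.W i)ᶜ = 0 := fun k => by
    refine withDensity_absolutelyContinuous _ _ ?_
    rw [compl_inter]
    exact measure_union_null (leb_off hID k C.good.ne) (leb_off hID k hi)
  exact ext_loc (h _) (h _) fun y hy => loc_eq hRM hTR hy.1 hy.2

theorem cont_κ {i : C.ι} {y : C.Y} (hy : y ∈ C.W i) : ContinuousAt (C.κ i) y :=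
  (Ctx.sm_κ hy).continuousAt (Ctx.locH hy)

theorem den_meas (hRM : St_RM) (i : C.ι) : AEMeasurable (den C i) (C.leb i) := by
  have h : ContinuousOn (den C i) (C.W i) := fun y hy =>
    (ENNReal.continuous_ofReal.continuousAt.comp
      (Real.continuous_exp.continuousAt.comp (cont_κ hy))).continuousWithinAt
  have := h.aemeasurable (μ := C.leb i) (C.rd i).opn.measurableSet
  rwa [Measure.restrict_eq_self_of_ae_mem (μ := C.leb i) (s := C.W i)
    (hRM n (dm C i)).1.off] at this

theorem vol_fin (hRM : St_RM) (hTR : St_TR) (hID : St_ID) {K : Set C.Y} (hK : IsCompact K) :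
    C.V K ≠ ∞ := by
  refine (hK.measure_lt_top_of_nhdsWithin fun y _ => ?_).ne
  have hy := Ctx.mem_ix y
  have h1 : ∀ᶠ x in 𝓝 y, C.κ (C.ix y) x < C.κ (C.ix y) y + 1 :=
    (cont_κ hy).eventually (gt_mem_nhds (lt_add_one _))
  obtain ⟨L, hL, hs, hc⟩ := local_compact_nhds (inter_mem h1 ((C.rd _).opn.mem_nhds hy))
  refine ⟨L, mem_nhdsWithin_of_mem_nhds hL, ?_⟩
  rw [vol_eq hRM hTR hID ⟨_, hy⟩, withDensity_apply _ hc.measurableSet]
  refine setLIntegral_lt_top_of_le_nnreal
    ((hRM n (dm C _)).2.2.2.2.2.2.1 L hc fun x hx => (hs hx).2)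
    ⟨Real.toNNReal (Real.exp (C.κ (C.ix y) y + 1)), fun x hx => ?_⟩
  exact ENNReal.ofReal_le_ofReal (Real.exp_le_exp.2 (le_of_lt (hs hx).1))

/-- A deck transformation as a homeomorphism. -/
def deck (γ : C.Γ) : C.Y ≃ₜ C.Y where
  toFun y := γ • y
  invFun y := γ⁻¹ • y
  left_inv y := inv_smul_smul γ y
  right_inv y := smul_inv_smul γ y
  continuous_toFun := C.continuous_smul γ
  continuous_invFun := C.continuous_smul γ⁻¹

theorem leb_inv (hRM : St_RM) (i : C.ι) (γ : C.Γ) :
    MeasurePreserving (fun y => γ • y) (C.leb i) (C.leb i) := by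
  have hm : Measurable fun y : C.Y => γ • y := (C.continuous_smul γ).measurable
  have h := (hRM n (dm C i)).1
  refine ⟨hm, isRM_unique (dm C i) ⟨?_, fun A hA hs hi => ?_⟩ h⟩
  · rw [Measure.map_apply hm (C.rd i).opn.measurableSet.compl]
    have : (fun y : C.Y => γ • y) ⁻¹' (C.W i)ᶜ = (C.W i)ᶜ := by
      ext y
      exact not_congr (Ctx.smul_mem_W γ)
    rw [this]
    exact h.off
  · rw [Measure.map_apply hm hA]
    refine (h.inj _ (hm hA) (fun y hy => (Ctx.smul_mem_W γ).1 (hs hy)) fun x hx y hy e => ?_).trans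
      ?_
    · refine MulAction.injective γ (hi hx hy ?_)
      exact (Ctx.q_smul γ).trans (e.trans (Ctx.q_smul γ).symm)
    · refine congrArg volume (Subset.antisymm ?_ ?_)
      · rintro _ ⟨y, hy, rfl⟩
        exact ⟨γ • y, hy, Ctx.q_smul γ⟩
      · rintro _ ⟨y, hy, rfl⟩
        refine ⟨γ⁻¹ • y, ?_, Ctx.q_smul γ⁻¹⟩
        show γ • γ⁻¹ • y ∈ A
        rwa [smul_inv_smul]

theorem vol_inv (hRM : St_RM) (γ : C.Γ) : MeasurePreserving (fun y => γ • y) C.V C.V := by
  have hm : Measurable fun y : C.Y => γ • y := (C.continuous_smul γ).measurable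
  refine ⟨hm, Measure.ext fun A hA => ?_⟩
  rw [Measure.map_apply hm hA, Ctx.V, withDensity_apply _ (hm hA), withDensity_apply _ hA,
    ← (leb_inv hRM C.o γ).setLIntegral_comp_preimage_emb (deck γ).measurableEmbedding _ A]
  simp only [Function.comp_apply, C.π_smul]

end VOL

theorem stVOL (hRM : St_RM) (hTR : St_TR) (hID : St_ID) : St_VOL := fun _ _ =>
  ⟨fun _ hi => VOL.vol_eq hRM hTR hID hi, fun i hi f => by
    rw [VOL.vol_eq hRM hTR hID hi, lintegral_withDensity_eq_lintegral_mul_non_measurable₀ _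
      (VOL.den_meas hRM i) (Eventually.of_forall fun _ => ENNReal.ofReal_lt_top)]
    rfl,
    fun _ hK => VOL.vol_fin hRM hTR hID hK, VOL.vol_inv hRM⟩

end Pool.Agent.Lib.SV
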