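import Mathlib

/-! Whitney densities of cocycles: multilinear algebra and the null Lagrangian identity. -/

namespace Pool.Agent.Lib.SV.H10

open Finset MeasureTheory

/-- The homogeneous cocycle identity. -/
def Coc {G : Type*} {d : ℕ} (c : (Fin (d + 1) → G) → ℝ) : Prop :=
  ∀ g : Fin (d + 2) → G, ∑ i : Fin (d + 2), (-1 : ℝ) ^ (i : ℕ) * c (fun j => g (i.succAbove j)) = 0

/-- The Whitney density over a finite index type. -/
noncomputable def wT {T : Type*} [Fintype T] {d : ℕ} (c : (Fin (d + 1) → T) → ℝ) (μ : T → ℝ)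
    (ξ : Fin d → T → ℝ) : ℝ :=
  ∑ g : Fin (d + 1) → T, c g * μ (g 0) * (Matrix.of fun i j : Fin d => ξ i (g j.succ)).det

/-- The Whitney density over an arbitrary index type. -/
noncomputable def wh {G : Type*} {d : ℕ} (c : (Fin (d + 1) → G) → ℝ) (μ : G → ℝ)
    (ξ : Fin d → G → ℝ) : ℝ :=
  ∑ᶠ g : Fin (d + 1) → G, c g * μ (g 0) * (Matrix.of fun i j : Fin d => ξ i (g j.succ)).det

section alg
variable {T : Type*} [Fintype T] {d : ℕ}

theorem sum_indep {ι : Type*} [Fintype ι] [DecidableEq ι] (φ : (ι → T) → ℝ) (a : ι → T → ℝ)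
    (j : ι) (hφ : ∀ g g' : ι → T, (∀ k, k ≠ j → g k = g' k) → φ g = φ g')
    (ha : ∑ t, a j t = 0) : ∑ g : ι → T, φ g * ∏ k, a k (g k) = 0 := by
  classical
  rw [← (Equiv.funSplitAt j T).symm.sum_comp, Fintype.sum_prod_type_right]
  refine Finset.sum_eq_zero fun y _ => ?_
  rcases isEmpty_or_nonempty T with hT | ⟨⟨t0⟩⟩
  · exact Finset.sum_eq_zero fun x _ => hT.elim x
  have h1 : ∀ x : T, φ ((Equiv.funSplitAt j T).symm (x, y)) *
      ∏ k, a k ((Equiv.funSplitAt j T).symm (x, y) k) =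
      (φ ((Equiv.funSplitAt j T).symm (t0, y)) *
        ∏ k ∈ univ.erase j, a k ((Equiv.funSplitAt j T).symm (t0, y) k)) * a j x := by
    intro x
    have e : ∀ k, k ≠ j → (Equiv.funSplitAt j T).symm (x, y) k =
        (Equiv.funSplitAt j T).symm (t0, y) k := by
      intro k hk
      simp [Equiv.funSplitAt, Equiv.piSplitAt, hk]
    have e0 : (Equiv.funSplitAt j T).symm (x, y) j = x := by
      simp [Equiv.funSplitAt, Equiv.piSplitAt]
    rw [hφ _ _ e, ← Finset.prod_erase_mul _ _ (mem_univ j), e0, mul_assoc]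
    congr 2
    exact Finset.prod_congr rfl fun k hk => by rw [e k (Finset.ne_of_mem_erase hk)]
  simp_rw [h1]
  rw [← Finset.mul_sum, ha, mul_zero]

theorem wT_expand (c : (Fin (d + 1) → T) → ℝ) (μ : T → ℝ) (ξ : Fin d → T → ℝ) :
    wT c μ ξ = ∑ σ : Equiv.Perm (Fin d), ((Equiv.Perm.sign σ : ℤ) : ℝ) *
      ∑ g : Fin (d + 1) → T, c g * ∏ k : Fin (d + 1),
        (Fin.cons μ (fun j => ξ (σ j)) : Fin (d + 1) → T → ℝ) k (g k) := by
  unfold wT
  simp_rw [Matrix.det_apply', Finset.mul_sum]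
  rw [Finset.sum_comm]
  refine Finset.sum_congr rfl fun σ _ => Finset.sum_congr rfl fun g _ => ?_
  rw [Fin.prod_univ_succ]
  simp only [Fin.cons_zero, Fin.cons_succ, Matrix.of_apply]
  ring

theorem coc_zero {c : (Fin (d + 1) → T) → ℝ} (hc : Coc c) (a : Fin (d + 1) → T → ℝ)
    (ha : ∀ k, ∑ t, a k t = 0) : ∑ g : Fin (d + 1) → T, c g * ∏ k, a k (g k) = 0 := by
  classical
  rcases isEmpty_or_nonempty T with hT | ⟨⟨t0⟩⟩
  · exact Finset.sum_eq_zero fun g _ => hT.elim (g 0)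
  have h1 : ∀ g : Fin (d + 1) → T, c g = ∑ i : Fin (d + 1), (-1 : ℝ) ^ (i : ℕ) *
      c (fun j => (Fin.cons t0 g : Fin (d + 2) → T) (i.succ.succAbove j)) := by
    intro g
    have h := hc (Fin.cons t0 g)
    rw [Fin.sum_univ_succ] at h
    simp only [Fin.val_zero, pow_zero, one_mul, Fin.succAbove_zero, Fin.cons_succ, Fin.val_succ,
      pow_succ, mul_neg, mul_one, neg_mul, Finset.sum_neg_distrib] at h
    have e : (fun j => g j) = g := rfl
    rw [e] at h
    linarith
  rw [Finset.sum_congr rfl fun g _ => by rw [h1 g, Finset.sum_mul], Finset.sum_comm]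
  refine Finset.sum_eq_zero fun i _ => ?_
  refine sum_indep (fun g => (-1 : ℝ) ^ (i : ℕ) *
      c (fun j => (Fin.cons t0 g : Fin (d + 2) → T) (i.succ.succAbove j))) a i ?_ (ha i)
  intro g g' h
  congr 2
  funext j
  refine Fin.cases ?_ (fun j => ?_) j
  · simp
  · rw [Fin.succ_succAbove_succ, Fin.cons_succ, Fin.cons_succ]
    exact h _ (Fin.succAbove_ne i j)

theorem wT_zero {c : (Fin (d + 1) → T) → ℝ} (hc : Coc c) {ν : T → ℝ} {ξ : Fin d → T → ℝ}
    (hν : ∑ t, ν t = 0) (hξ : ∀ i, ∑ t, ξ i t = 0) : wT c ν ξ = 0 := by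
  rw [wT_expand]
  refine Finset.sum_eq_zero fun σ _ => ?_
  rw [coc_zero hc, mul_zero]
  intro k
  refine Fin.cases ?_ (fun j => ?_) k
  · simpa using hν
  · simpa using hξ (σ j)

theorem wT_sub (c : (Fin (d + 1) → T) → ℝ) (μ μ' : T → ℝ) (ξ : Fin d → T → ℝ) :
    wT c μ ξ - wT c μ' ξ = wT c (fun t => μ t - μ' t) ξ := by
  unfold wT
  rw [← Finset.sum_sub_distrib]
  exact Finset.sum_congr rfl fun g _ => by ring

/-- The density does not depend on the weights in the first slot, only on their mass. -/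
theorem wT_base {c : (Fin (d + 1) → T) → ℝ} (hc : Coc c) {μ μ' : T → ℝ} {ξ : Fin d → T → ℝ}
    (hμ : ∑ t, μ t = ∑ t, μ' t) (hξ : ∀ i, ∑ t, ξ i t = 0) : wT c μ ξ = wT c μ' ξ := by
  rw [← sub_eq_zero, wT_sub]
  exact wT_zero hc (by rw [Finset.sum_sub_distrib, hμ, sub_self]) hξ

theorem wT_abs0 {c : (Fin (d + 1) → T) → ℝ} (h1 : ∀ g, |c g| ≤ 1) (μ : T → ℝ)
    (ξ : Fin d → T → ℝ) :
    |wT c μ ξ| ≤ (d.factorial : ℝ) * ((∑ t, |μ t|) * ∏ i, ∑ t, |ξ i t|) := by
  classical
  rw [wT_expand]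
  refine (Finset.abs_sum_le_sum_abs _ _).trans ?_
  have hb : ∀ σ : Equiv.Perm (Fin d), |((Equiv.Perm.sign σ : ℤ) : ℝ) *
      ∑ g : Fin (d + 1) → T, c g * ∏ k : Fin (d + 1),
        (Fin.cons μ (fun j => ξ (σ j)) : Fin (d + 1) → T → ℝ) k (g k)| ≤
      (∑ t, |μ t|) * ∏ i, ∑ t, |ξ i t| := by
    intro σ
    have hs : |((Equiv.Perm.sign σ : ℤ) : ℝ)| = 1 := by
      rcases Int.units_eq_one_or (Equiv.Perm.sign σ) with h | h <;> simp [h]
    rw [abs_mul, hs, one_mul]
    refine (Finset.abs_sum_le_sum_abs _ _).trans ?_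
    have e : (∑ t, |μ t|) * ∏ i, ∑ t, |ξ i t| = ∏ k : Fin (d + 1), ∑ t,
        |(Fin.cons μ (fun j => ξ (σ j)) : Fin (d + 1) → T → ℝ) k t| := by
      rw [Fin.prod_univ_succ]
      simp only [Fin.cons_zero, Fin.cons_succ]
      rw [Equiv.prod_comp σ (fun i => ∑ t, |ξ i t|)]
    rw [e, Finset.prod_univ_sum, Fintype.piFinset_univ]
    refine Finset.sum_le_sum fun g _ => ?_
    rw [abs_mul, Finset.abs_prod]
    exact mul_le_of_le_one_left (Finset.prod_nonneg fun _ _ => abs_nonneg _) (h1 g)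
  refine (Finset.sum_le_sum fun σ _ => hb σ).trans ?_
  rw [Finset.sum_const, Finset.card_univ, Fintype.card_perm, Fintype.card_fin, nsmul_eq_mul]

/-- For mass one and mass zero the bound does not see the first slot. -/
theorem wT_abs {c : (Fin (d + 1) → T) → ℝ} (hc : Coc c) (h1 : ∀ g, |c g| ≤ 1) {μ : T → ℝ}
    {ξ : Fin d → T → ℝ} (hμ : ∑ t, μ t = 1) (hξ : ∀ i, ∑ t, ξ i t = 0) :
    |wT c μ ξ| ≤ (d.factorial : ℝ) * ∏ i, ∑ t, |ξ i t| := by
  classical
  rcases isEmpty_or_nonempty T with hT | ⟨⟨t0⟩⟩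
  · simp at hμ
  have e : wT c μ ξ = wT c (fun t => if t = t0 then 1 else 0) ξ :=
    wT_base hc (by simp [hμ]) hξ
  rw [e]
  refine (wT_abs0 h1 _ ξ).trans (le_of_eq ?_)
  have : ∑ t, |(if t = t0 then (1 : ℝ) else 0)| = 1 := by
    simp [apply_ite (fun x : ℝ => |x|)]
  rw [this, one_mul]

theorem wT_mul (c : (Fin (d + 1) → T) → ℝ) (μ : T → ℝ) (ξ : Fin d → T → ℝ)
    (A : Matrix (Fin d) (Fin d) ℝ) :
    wT c μ (fun i t => ∑ k, A i k * ξ k t) = A.det * wT c μ ξ := by
  unfold wT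
  rw [Finset.mul_sum]
  refine Finset.sum_congr rfl fun g _ => ?_
  have e : (Matrix.of fun i j : Fin d => ∑ k, A i k * ξ k (g j.succ)) =
      A * Matrix.of fun i j : Fin d => ξ i (g j.succ) := by
    ext i j
    simp [Matrix.mul_apply]
  rw [e, Matrix.det_mul]
  ring

variable {E : Type*} [NormedAddCommGroup E] [NormedSpace ℝ E]

theorem wT_comp (c : (Fin (d + 1) → T) → ℝ) (μ : T → ℝ) (e : Module.Basis (Fin d) ℝ E)
    (D : T → E →ₗ[ℝ] ℝ) (Q : E →ₗ[ℝ] E) :
    wT c μ (fun i t => D t (Q (e i))) = LinearMap.det Q * wT c μ (fun i t => D t (e i)) := by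
  have h := wT_mul c μ (fun i t => D t (e i)) (LinearMap.toMatrix e e Q).transpose
  rw [Matrix.det_transpose, LinearMap.det_toMatrix] at h
  rw [← h]
  congr 1
  funext i t
  have h2 : D t (Q (e i)) = D t (∑ k, e.repr (Q (e i)) k • e k) := by rw [e.sum_repr]
  rw [h2, map_sum]
  refine Finset.sum_congr rfl fun k _ => ?_
  rw [map_smul, smul_eq_mul, Matrix.transpose_apply, LinearMap.toMatrix_apply]

/-- If the derivative is dominated by `N (P v)` in `ℓ¹`, the density is at most `d! |det P|`. -/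
theorem wT_det {c : (Fin (d + 1) → T) → ℝ} (hc : Coc c) (h1 : ∀ g, |c g| ≤ 1) {μ : T → ℝ}
    (hμ : ∑ t, μ t = 1) (e : Module.Basis (Fin d) ℝ E) (N : E → ℝ) (he : ∀ i, N (e i) ≤ 1)
    (D : T → E →ₗ[ℝ] ℝ) (hD : ∀ v, ∑ t, D t v = 0) (P : E ≃ₗ[ℝ] E) {s : ℝ} (hs : 0 ≤ s)
    (hP : ∀ v, ∑ t, |D t v| ≤ s * N (P v)) :
    |wT c μ (fun i t => D t (e i))| ≤
      (d.factorial : ℝ) * s ^ d * |LinearMap.det (P : E →ₗ[ℝ] E)| := by
  have h := wT_comp c μ e (fun t => (D t).comp (P.symm : E →ₗ[ℝ] E)) (P : E →ₗ[ℝ] E)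
  simp only [LinearMap.comp_apply, LinearEquiv.coe_coe, LinearEquiv.symm_apply_apply] at h
  rw [h, abs_mul, mul_comm]
  refine mul_le_mul_of_nonneg_right ?_ (abs_nonneg _)
  refine (wT_abs hc h1 hμ fun i => hD _).trans ?_
  refine mul_le_mul_of_nonneg_left ?_ (Nat.cast_nonneg _)
  have : s ^ d = ∏ _i : Fin d, s := by simp
  rw [this]
  refine Finset.prod_le_prod (fun i _ => Finset.sum_nonneg fun _ _ => abs_nonneg _) fun i _ => ?_
  refine (hP _).trans ?_
  rw [LinearEquiv.apply_symm_apply]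
  exact mul_le_of_le_one_right hs (he i)

end alg

section fin
variable {G : Type*} {d : ℕ}

theorem wh_eq (c : (Fin (d + 1) → G) → ℝ) {μ : G → ℝ} {ξ : Fin d → G → ℝ} (F : Finset G)
    (hμ : ∀ g, g ∉ F → μ g = 0) (hξ : ∀ i g, g ∉ F → ξ i g = 0) :
    wh c μ ξ = wT (fun g : Fin (d + 1) → F => c fun i => g i) (fun t => μ t)
      (fun i t => ξ i t) := by
  classical
  unfold wh wT
  let ι : (Fin (d + 1) → F) → (Fin (d + 1) → G) := fun g i => g i
  have hι : Function.Injective ι := fun g g' h => funext fun i => Subtype.ext (congrFun h i)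
  rw [finsum_eq_sum_of_support_subset (s := univ.image ι), Finset.sum_image fun _ _ _ _ h => hι h]
  intro g hg
  have hall : ∀ i, g i ∈ F := by
    intro i
    by_contra hi
    apply hg
    revert hi
    refine Fin.cases ?_ (fun j => ?_) i
    · intro hi
      simp [hμ _ hi]
    · intro hi
      have : (Matrix.of fun i j : Fin d => ξ i (g j.succ)).det = 0 :=
        Matrix.det_eq_zero_of_column_eq_zero j fun i => hξ i _ hi
      simp [this]
  simp only [Finset.coe_image, Finset.coe_univ, Set.image_univ, Set.mem_range]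
  exact ⟨fun i => ⟨g i, hall i⟩, rfl⟩

theorem Coc.comp {c : (Fin (d + 1) → G) → ℝ} (hc : Coc c) {T : Type*} (ι : T → G) :
    Coc fun g : Fin (d + 1) → T => c fun i => ι (g i) :=
  fun g => hc fun i => ι (g i)

/-- Invariance under a bijection of the index type that preserves the cocycle. -/
theorem wh_perm (c : (Fin (d + 1) → G) → ℝ) (μ : G → ℝ) (ξ : Fin d → G → ℝ) (τ : G ≃ G)
    (hτ : ∀ g, c (fun i => τ (g i)) = c g) :
    wh c (fun g => μ (τ g)) (fun i g => ξ i (τ g)) = wh c μ ξ := by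
  unfold wh
  rw [← finsum_comp_equiv (Equiv.piCongrRight fun _ : Fin (d + 1) => τ)
    (f := fun g : Fin (d + 1) → G =>
      c g * μ (g 0) * (Matrix.of fun i j : Fin d => ξ i (g j.succ)).det)]
  refine finsum_congr fun g => ?_
  rw [← hτ g]
  rfl

end fin

section null
variable {E : Type*} [NormedAddCommGroup E] [NormedSpace ℝ E] [FiniteDimensional ℝ E]
  [MeasurableSpace E] [BorelSpace E] {μ : Measure E} [μ.IsAddHaarMeasure] {d : ℕ}

omit [NormedSpace ℝ E] [FiniteDimensional ℝ E] in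
theorem integ_of_supp {O K : Set E} (hK : IsCompact K) (hKO : K ⊆ O) {φ : E → ℝ}
    (hφ : ContinuousOn φ O) (h0 : ∀ x, x ∉ K → φ x = 0) : Integrable φ μ := by
  have h1 : IntegrableOn φ K μ := (hφ.mono hKO).integrableOn_compact hK
  refine (integrableOn_iff_integrable_of_support_subset ?_).1 h1
  intro x hx
  by_contra h
  exact hx (h0 x h)

omit [FiniteDimensional ℝ E] [MeasurableSpace E] [BorelSpace E] in
theorem cd_dir {O : Set E} (hO : IsOpen O) {h : E → ℝ} (hh : ContDiffOn ℝ 2 h O) (v : E) :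
    ContDiffOn ℝ 1 (fun x => fderiv ℝ h x v) O :=
  (hh.fderiv_of_isOpen hO (m := 1) (by norm_num)).clm_apply contDiffOn_const

omit [FiniteDimensional ℝ E] [MeasurableSpace E] [BorelSpace E] in
theorem cont_dir {O : Set E} (hO : IsOpen O) {h : E → ℝ} (hh : ContDiffOn ℝ 1 h O) (v : E) :
    ContinuousOn (fun x => fderiv ℝ h x v) O :=
  (hh.continuousOn_fderiv_of_isOpen hO le_rfl).clm_apply continuousOn_const

omit [FiniteDimensional ℝ E] [MeasurableSpace E] [BorelSpace E] in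
theorem dir_dir {h : E → ℝ} {x : E} (hh : ContDiffAt ℝ 2 h x) (v w : E) :
    fderiv ℝ (fun y => fderiv ℝ h y v) x w = fderiv ℝ (fderiv ℝ h) x w v := by
  have h1 : DifferentiableAt ℝ (fderiv ℝ h) x :=
    (hh.fderiv_right (m := 1) (by norm_num)).differentiableAt one_ne_zero
  rw [fderiv_clm_apply h1 (differentiableAt_const v)]
  simp

omit [FiniteDimensional ℝ E] [MeasurableSpace E] [BorelSpace E] in
theorem piola {h : Fin d → E → ℝ} {x : E} (hh : ∀ k, ContDiffAt ℝ 2 (h k) x) (e : Fin d → E)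
    (j : Fin d) : ∑ σ : Equiv.Perm (Fin d), ((Equiv.Perm.sign σ : ℤ) : ℝ) *
      fderiv ℝ (fun y => ∏ k ∈ univ.erase j, fderiv ℝ (h k) y (e (σ k))) x (e (σ j)) = 0 := by
  have hd : ∀ k v, DifferentiableAt ℝ (fun y => fderiv ℝ (h k) y v) x := fun k v =>
    (((hh k).fderiv_right (m := 1) (by norm_num)).differentiableAt one_ne_zero).clm_apply
      (differentiableAt_const v)
  have h1 : ∀ σ : Equiv.Perm (Fin d),
      fderiv ℝ (fun y => ∏ k ∈ univ.erase j, fderiv ℝ (h k) y (e (σ k))) x (e (σ j)) =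
      ∑ l ∈ univ.erase j, (∏ k ∈ (univ.erase j).erase l, fderiv ℝ (h k) x (e (σ k))) *
        fderiv ℝ (fderiv ℝ (h l)) x (e (σ j)) (e (σ l)) := by
    intro σ
    rw [fderiv_finsetProd (g := fun k y => fderiv ℝ (h k) y (e (σ k))) fun k _ => hd k _]
    rw [_root_.sum_apply]
    refine Finset.sum_congr rfl fun l _ => ?_
    rw [_root_.smul_apply, smul_eq_mul, dir_dir (hh l)]
  simp_rw [h1, Finset.mul_sum]
  rw [Finset.sum_comm]
  refine Finset.sum_eq_zero fun l hl => ?_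
  have hlj : l ≠ j := Finset.ne_of_mem_erase hl
  refine Finset.sum_involution (fun σ _ => σ * Equiv.swap j l) ?_ ?_ ?_ ?_
  · intro σ _
    have e1 : (σ * Equiv.swap j l) j = σ l := by simp
    have e2 : (σ * Equiv.swap j l) l = σ j := by simp
    have e3 : ∏ k ∈ (univ.erase j).erase l, fderiv ℝ (h k) x (e ((σ * Equiv.swap j l) k)) =
        ∏ k ∈ (univ.erase j).erase l, fderiv ℝ (h k) x (e (σ k)) := by
      refine Finset.prod_congr rfl fun k hk => ?_
      have a1 : k ≠ l := Finset.ne_of_mem_erase hk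
      have a2 : k ≠ j := Finset.ne_of_mem_erase (Finset.mem_of_mem_erase hk)
      rw [Equiv.Perm.mul_apply, Equiv.swap_apply_of_ne_of_ne a2 a1]
    have e4 := ((hh l).isSymmSndFDerivAt (by simp)).eq (e (σ l)) (e (σ j))
    rw [e1, e2, e3, e4, Equiv.Perm.sign_mul, Equiv.Perm.sign_swap hlj.symm]
    simp
  · intro σ _ _ h
    have := congrArg (fun τ : Equiv.Perm (Fin d) => τ j) h
    simp only [Equiv.Perm.mul_apply, Equiv.swap_apply_left] at this
    exact hlj (σ.injective this)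
  · intro σ _
    exact mem_univ _
  · intro σ _
    simp [mul_assoc]

omit [FiniteDimensional ℝ E] [MeasurableSpace E] [BorelSpace E] in
theorem fderiv_off {K : Set E} (hK : IsClosed K) {h : E → ℝ} (h0 : ∀ x, x ∉ K → h x = 0) {x : E}
    (hx : x ∉ K) : HasFDerivAt h (0 : E →L[ℝ] ℝ) x := by
  refine (hasFDerivAt_const (0 : ℝ) x).congr_of_eventuallyEq ?_
  filter_upwards [hK.isOpen_compl.mem_nhds hx] with y hy using h0 y hy

/-- A Jacobian determinant with one compactly supported component integrates to zero. -/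
theorem null0 {O K : Set E} (hO : IsOpen O) (hK : IsCompact K) (hKO : K ⊆ O)
    {h : Fin d → E → ℝ} (hh : ∀ k, ContDiffOn ℝ 2 (h k) O) (e : Fin d → E) (j : Fin d)
    (h0 : ∀ x, x ∉ K → h j x = 0) :
    Integrable (fun x => (Matrix.of fun i k : Fin d => fderiv ℝ (h k) x (e i)).det) μ ∧
      ∫ x, (Matrix.of fun i k : Fin d => fderiv ℝ (h k) x (e i)).det ∂μ = 0 := by
  set g : Equiv.Perm (Fin d) → E → ℝ :=
    fun σ y => ∏ k ∈ univ.erase j, fderiv ℝ (h k) y (e (σ k)) with hg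
  have hg1 : ∀ σ, ContDiffOn ℝ 1 (g σ) O := fun σ =>
    contDiffOn_prod fun k _ => cd_dir hO (hh k) _
  have hd0 : ∀ x, x ∉ K → fderiv ℝ (h j) x = 0 := fun x hx => (fderiv_off hK.isClosed h0 hx).fderiv
  have hj1 : ContDiffOn ℝ 1 (h j) O := (hh j).of_le (by norm_num)
  have i1 : ∀ σ : Equiv.Perm (Fin d),
      Integrable (fun x => fderiv ℝ (h j) x (e (σ j)) * g σ x) μ := fun σ =>
    integ_of_supp hK hKO ((cont_dir hO hj1 _).mul (hg1 σ).continuousOn)
      fun x hx => by simp [hd0 x hx]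
  have i2 : ∀ σ : Equiv.Perm (Fin d),
      Integrable (fun x => h j x * fderiv ℝ (g σ) x (e (σ j))) μ := fun σ =>
    integ_of_supp hK hKO (hj1.continuousOn.mul (cont_dir hO (hg1 σ) _))
      fun x hx => by simp [h0 x hx]
  have i3 : ∀ σ : Equiv.Perm (Fin d), Integrable (fun x => h j x * g σ x) μ := fun σ =>
    integ_of_supp hK hKO (hj1.continuousOn.mul (hg1 σ).continuousOn)
      fun x hx => by simp [h0 x hx]
  have hts : tsupport (h j) ⊆ K := by
    refine closure_minimal (fun x hx => ?_) hK.isClosed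
    by_contra hxK
    exact hx (h0 x hxK)
  have ibp : ∀ σ : Equiv.Perm (Fin d), ∫ x, h j x * fderiv ℝ (g σ) x (e (σ j)) ∂μ =
      -∫ x, fderiv ℝ (h j) x (e (σ j)) * g σ x ∂μ := by
    intro σ
    refine integral_mul_fderiv_eq_neg_fderiv_mul_of_integrable (i1 σ) (i2 σ) (i3 σ) ?_ ?_
    · intro x _
      by_cases hx : x ∈ K
      · exact (hj1.contDiffAt (hO.mem_nhds (hKO hx))).differentiableAt one_ne_zero
      · exact (fderiv_off hK.isClosed h0 hx).differentiableAt
    · intro x hx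
      exact ((hg1 σ).contDiffAt (hO.mem_nhds (hKO (hts hx)))).differentiableAt one_ne_zero
  have hdet : (fun x => (Matrix.of fun i k : Fin d => fderiv ℝ (h k) x (e i)).det) =
      fun x => ∑ σ : Equiv.Perm (Fin d), ((Equiv.Perm.sign σ : ℤ) : ℝ) *
        (fderiv ℝ (h j) x (e (σ j)) * g σ x) := by
    funext x
    rw [Matrix.det_apply']
    refine Finset.sum_congr rfl fun σ _ => ?_
    rw [← Finset.mul_prod_erase _ _ (mem_univ j)]
    rfl
  rw [hdet]
  refine ⟨integrable_finsetSum _ fun σ _ => (i1 σ).const_mul _, ?_⟩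
  rw [integral_finsetSum _ fun σ _ => (i1 σ).const_mul _]
  have e1 : ∀ σ : Equiv.Perm (Fin d), ∫ x, ((Equiv.Perm.sign σ : ℤ) : ℝ) *
      (fderiv ℝ (h j) x (e (σ j)) * g σ x) ∂μ = -∫ x, ((Equiv.Perm.sign σ : ℤ) : ℝ) *
      (h j x * fderiv ℝ (g σ) x (e (σ j))) ∂μ := by
    intro σ
    rw [integral_const_mul, integral_const_mul, ibp σ]
    ring
  simp_rw [e1]
  rw [Finset.sum_neg_distrib, ← integral_finsetSum _ fun σ _ => (i2 σ).const_mul _, neg_eq_zero]
  refine (integral_congr_ae (g := fun _ => (0 : ℝ)) (Filter.Eventually.of_forall fun x => ?_)).trans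
    (integral_zero _ _)
  by_cases hx : x ∈ K
  · have hp := piola (fun k => (hh k).contDiffAt (hO.mem_nhds (hKO hx))) e j
    have : ∑ σ : Equiv.Perm (Fin d), ((Equiv.Perm.sign σ : ℤ) : ℝ) *
        (h j x * fderiv ℝ (g σ) x (e (σ j))) = h j x * ∑ σ : Equiv.Perm (Fin d),
        ((Equiv.Perm.sign σ : ℤ) : ℝ) * fderiv ℝ (g σ) x (e (σ j)) := by
      rw [Finset.mul_sum]
      exact Finset.sum_congr rfl fun σ _ => by ring
    show ∑ σ : Equiv.Perm (Fin d), _ = 0
    rw [this, hg, hp, mul_zero]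
  · simp [h0 x hx]

/-- The Jacobian determinant is a null Lagrangian. -/
theorem null1 {O K : Set E} (hO : IsOpen O) (hK : IsCompact K) (hKO : K ⊆ O)
    {a a' : Fin d → E → ℝ} (ha : ∀ k, ContDiffOn ℝ 2 (a k) O) (ha' : ∀ k, ContDiffOn ℝ 2 (a' k) O)
    (heq : ∀ k x, x ∈ O → x ∉ K → a' k x = a k x) (e : Fin d → E) :
    IntegrableOn (fun x => (Matrix.of fun i k : Fin d => fderiv ℝ (a' k) x (e i)).det -
      (Matrix.of fun i k : Fin d => fderiv ℝ (a k) x (e i)).det) O μ ∧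
    ∫ x in O, ((Matrix.of fun i k : Fin d => fderiv ℝ (a' k) x (e i)).det -
      (Matrix.of fun i k : Fin d => fderiv ℝ (a k) x (e i)).det) ∂μ = 0 := by
  classical
  set b : Fin d → E → ℝ := fun k => O.indicator fun x => a' k x - a k x with hb
  have hb0 : ∀ k x, x ∉ K → b k x = 0 := by
    intro k x hx
    by_cases hxO : x ∈ O
    · simp [hb, Set.indicator_of_mem hxO, heq k x hxO hx]
    · simp [hb, Set.indicator_of_notMem hxO]
  have hb2 : ∀ k, ContDiffOn ℝ 2 (b k) O := fun k =>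
    ((ha' k).sub (ha k)).congr fun x hx => by simp [hb, Set.indicator_of_mem hx]
  set H : Finset (Fin d) → Fin d → E → ℝ := fun s k => if k ∈ s then b k else a k with hH
  have hH2 : ∀ s k, ContDiffOn ℝ 2 (H s k) O := by
    intro s k
    by_cases hk : k ∈ s
    · simpa [hH, hk] using hb2 k
    · simpa [hH, hk] using ha k
  have hN : ∀ s ∈ (univ : Finset (Finset (Fin d))).erase ∅,
      Integrable (fun x => (Matrix.of fun i k : Fin d => fderiv ℝ (H s k) x (e i)).det) μ ∧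
      (∫ x, (Matrix.of fun i k : Fin d => fderiv ℝ (H s k) x (e i)).det ∂μ = 0) ∧
      ∀ x, x ∉ O → (Matrix.of fun i k : Fin d => fderiv ℝ (H s k) x (e i)).det = 0 := by
    intro s hs
    obtain ⟨j, hj⟩ := Finset.nonempty_iff_ne_empty.2 (Finset.ne_of_mem_erase hs)
    have h0 : ∀ x, x ∉ K → H s j x = 0 := fun x hx => by simpa [hH, hj] using hb0 j x hx
    obtain ⟨n1, n2⟩ := null0 (μ := μ) hO hK hKO (hH2 s) e j h0
    refine ⟨n1, n2, fun x hx => Matrix.det_eq_zero_of_column_eq_zero j fun i => ?_⟩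
    simp [(fderiv_off hK.isClosed h0 fun h => hx (hKO h)).fderiv]
  have hpt : ∀ x ∈ O, (Matrix.of fun i k : Fin d => fderiv ℝ (a' k) x (e i)).det -
      (Matrix.of fun i k : Fin d => fderiv ℝ (a k) x (e i)).det =
      ∑ s ∈ (univ : Finset (Finset (Fin d))).erase ∅,
        (Matrix.of fun i k : Fin d => fderiv ℝ (H s k) x (e i)).det := by
    intro x hx
    have hn := hO.mem_nhds hx
    have e1 : ∀ k, fderiv ℝ (a' k) x = fderiv ℝ (b k) x + fderiv ℝ (a k) x := by
      intro k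
      have d1 := ((hb2 k).contDiffAt hn).differentiableAt (by norm_num)
      have d2 := ((ha k).contDiffAt hn).differentiableAt (by norm_num)
      rw [← fderiv_fun_add d1 d2]
      refine Filter.EventuallyEq.fderiv_eq ?_
      filter_upwards [hn] with y hy
      simp [hb, Set.indicator_of_mem hy]
    have e2 := (Matrix.detRowAlternating (n := Fin d) (R := ℝ)).map_add_univ
      (fun k i => fderiv ℝ (b k) x (e i)) (fun k i => fderiv ℝ (a k) x (e i))
    have e3 : ∀ m : Fin d → Fin d → ℝ, Matrix.detRowAlternating (n := Fin d) (R := ℝ) m =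
        (Matrix.of fun i k => m k i).det := fun m => by
      rw [← Matrix.det_transpose]
      rfl
    simp_rw [e3] at e2
    have e4 : (Matrix.of fun i k : Fin d => fderiv ℝ (a' k) x (e i)) = Matrix.of fun i k =>
        ((fun k i => fderiv ℝ (b k) x (e i)) + fun k i => fderiv ℝ (a k) x (e i)) k i := by
      ext i k
      simp [e1 k]
    have e5 : ∀ s : Finset (Fin d), (Matrix.of fun i k => s.piecewise
        (fun k i => fderiv ℝ (b k) x (e i)) (fun k i => fderiv ℝ (a k) x (e i)) k i) =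
        Matrix.of fun i k : Fin d => fderiv ℝ (H s k) x (e i) := by
      intro s
      ext i k
      by_cases hk : k ∈ s <;> simp [hH, hk, Finset.piecewise]
    simp_rw [e5] at e2
    rw [e4, e2, ← Finset.add_sum_erase _ _ (mem_univ ∅)]
    simp [hH]
  have hI := integrable_finsetSum _ fun s hs => (hN s hs).1
  refine ⟨(hI.integrableOn (s := O)).congr_fun (fun x hx => (hpt x hx).symm) hO.measurableSet, ?_⟩
  rw [setIntegral_congr_fun hO.measurableSet hpt,
    setIntegral_eq_integral_of_forall_compl_eq_zero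
      fun x hx => Finset.sum_eq_zero fun s hs => (hN s hs).2.2 x hx,
    integral_finsetSum _ fun s hs => (hN s hs).1]
  exact Finset.sum_eq_zero fun s hs => (hN s hs).2.1

omit [FiniteDimensional ℝ E] [MeasurableSpace E] [BorelSpace E] in
theorem mass_deriv {T : Type*} [Fintype T] {u : T → E → ℝ} {x : E} {s : ℝ}
    (hu : ∀ t, DifferentiableAt ℝ (u t) x) (h1 : ∀ᶠ y in nhds x, ∑ t, u t y = s) (v : E) :
    ∑ t, fderiv ℝ (u t) x v = 0 := by
  have e1 : fderiv ℝ (fun y => ∑ t, u t y) x = ∑ t, fderiv ℝ (u t) x :=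
    fderiv_fun_sum fun t _ => hu t
  have e2 : fderiv ℝ (fun y => ∑ t, u t y) x = 0 := by
    rw [Filter.EventuallyEq.fderiv_eq (f := fun _ => s) h1]
    simp
  rw [← _root_.sum_apply, ← e1, e2]
  rfl

/-- The Whitney density of a cocycle is a null Lagrangian on families of mass one. -/
theorem null2 {T : Type*} [Fintype T] {c : (Fin (d + 1) → T) → ℝ} (hc : Coc c)
    {O K : Set E} (hO : IsOpen O) (hK : IsCompact K) (hKO : K ⊆ O) {u u' : T → E → ℝ}
    (hu : ∀ t, ContDiffOn ℝ 2 (u t) O) (hu' : ∀ t, ContDiffOn ℝ 2 (u' t) O)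
    (h1 : ∀ x ∈ O, ∑ t, u t x = 1) (h1' : ∀ x ∈ O, ∑ t, u' t x = 1)
    (heq : ∀ t x, x ∈ O → x ∉ K → u' t x = u t x) (e : Fin d → E) :
    IntegrableOn (fun x => wT c (fun t => u' t x) (fun i t => fderiv ℝ (u' t) x (e i)) -
      wT c (fun t => u t x) (fun i t => fderiv ℝ (u t) x (e i))) O μ ∧
    ∫ x in O, (wT c (fun t => u' t x) (fun i t => fderiv ℝ (u' t) x (e i)) -
      wT c (fun t => u t x) (fun i t => fderiv ℝ (u t) x (e i))) ∂μ = 0 := by
  classical
  rcases O.eq_empty_or_nonempty with rfl | ⟨x0, hx0⟩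
  · simp
  set m : T → ℝ := fun t => u t x0 with hm
  have hN := fun g : Fin (d + 1) → T => null1 (μ := μ) hO hK hKO (a := fun k => u (g k.succ))
    (a' := fun k => u' (g k.succ)) (fun k => hu _) (fun k => hu' _) (fun k => heq _) e
  have hb : ∀ w : T → E → ℝ, (∀ t, ContDiffOn ℝ 2 (w t) O) → (∀ x ∈ O, ∑ t, w t x = 1) →
      ∀ x ∈ O, wT c (fun t => w t x) (fun i t => fderiv ℝ (w t) x (e i)) =
        wT c m (fun i t => fderiv ℝ (w t) x (e i)) := by
    intro w hw hw1 x hx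
    refine wT_base hc ((hw1 x hx).trans (h1 x0 hx0).symm) fun i => ?_
    refine mass_deriv (s := 1) (fun t => ((hw t).contDiffAt (hO.mem_nhds hx)).differentiableAt
      (by norm_num)) ?_ _
    filter_upwards [hO.mem_nhds hx] with y hy using hw1 y hy
  have hpt : ∀ x ∈ O, wT c (fun t => u' t x) (fun i t => fderiv ℝ (u' t) x (e i)) -
      wT c (fun t => u t x) (fun i t => fderiv ℝ (u t) x (e i)) =
      ∑ g : Fin (d + 1) → T, (c g * m (g 0)) *
        ((Matrix.of fun i k : Fin d => fderiv ℝ (u' (g k.succ)) x (e i)).det -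
          (Matrix.of fun i k : Fin d => fderiv ℝ (u (g k.succ)) x (e i)).det) := by
    intro x hx
    rw [hb u' hu' h1' x hx, hb u hu h1 x hx]
    unfold wT
    rw [← Finset.sum_sub_distrib]
    exact Finset.sum_congr rfl fun g _ => by ring
  have hI : ∀ g : Fin (d + 1) → T, Integrable (fun x => (c g * m (g 0)) *
      ((Matrix.of fun i k : Fin d => fderiv ℝ (u' (g k.succ)) x (e i)).det -
        (Matrix.of fun i k : Fin d => fderiv ℝ (u (g k.succ)) x (e i)).det)) (μ.restrict O) :=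
    fun g => (hN g).1.const_mul _
  have hS : IntegrableOn (fun x => ∑ g : Fin (d + 1) → T, (c g * m (g 0)) *
      ((Matrix.of fun i k : Fin d => fderiv ℝ (u' (g k.succ)) x (e i)).det -
        (Matrix.of fun i k : Fin d => fderiv ℝ (u (g k.succ)) x (e i)).det)) O μ :=
    integrable_finsetSum _ fun g _ => hI g
  refine ⟨hS.congr_fun (fun x hx => (hpt x hx).symm) hO.measurableSet, ?_⟩
  rw [setIntegral_congr_fun hO.measurableSet hpt, integral_finsetSum _ fun g _ => hI g]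
  refine Finset.sum_eq_zero fun g _ => ?_
  rw [integral_const_mul, (hN g).2, mul_zero]

end null

end Pool.Agent.Lib.SV.H10
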