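import Pool.Agent.Lib.SV.Blue1
import Pool.Agent.Lib.SV.Nul10

/-! The Whitney density on a covering: finite form, invariance, bound, and invariance of its
integral under a change of the function over a compact part of the base chart. -/

open scoped Classical Topology ENNReal
open Set MeasureTheory Complex Filter Metric

set_option linter.unusedSectionVars false

noncomputable section

namespace Pool.Agent.Lib.SV

namespace T10

section gen

variable {n : ℕ} {Y : Type} [TopologicalSpace Y]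

theorem tendsto_lift {Z : Type} [TopologicalSpace Z] (p : Y → Z) (y : Y) :
    Tendsto (lift p y) (𝓝 (p y)) (𝓝 y) ∧ lift p y (p y) = y := by
  by_cases h : LocH p y
  · exact ⟨h.tendsto_lift, h.lift_self⟩
  · have e : lift p y = fun _ => y := dif_neg h
    rw [e]
    exact ⟨tendsto_const_nhds, rfl⟩

theorem dd_congr' {p : Y → E n} {y : Y} {f g : Y → ℝ} (e : f =ᶠ[𝓝 y] g) : dd p f y = dd p g y :=
  Filter.EventuallyEq.fderiv_eq ((tendsto_lift p y).1.eventually e)

theorem dd_const (p : Y → E n) (y : Y) (c : ℝ) : dd p (fun _ => c) y = 0 := by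
  have : (fun _ : Y => c) ∘ lift p y = fun _ => c := rfl
  rw [dd, this]
  simp

/-- The frame `fr` as a real basis. -/
def frB (n : ℕ) : Module.Basis (Fin (n * 2)) ℝ (E n) :=
  (basisOneI.smulTower' (Pi.basisFun ℂ (Fin n))).reindex finProdFinEquiv

theorem frB_apply (k : Fin (n * 2)) : frB n k = fr n k := by
  rw [frB, Module.Basis.reindex_apply, Module.Basis.smulTower'_apply]
  have e : basisOneI (finProdFinEquiv.symm k).2 = I ^ (k.modNat : ℕ) := by
    rw [finProdFinEquiv_symm_apply]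
    generalize k.modNat = j
    fin_cases j <;> simp
  rw [e, finProdFinEquiv_symm_apply, Pi.basisFun_apply, fr, ← Pi.single_smul, smul_eq_mul, mul_one]

theorem nsq_fr (k : Fin (n * 2)) : nsq (fr n k) = 1 := by
  unfold nsq fr
  rw [Finset.sum_eq_single k.divNat]
  · simp
  · intro j _ hj
    simp [Pi.single_eq_of_ne hj]
  · simp

theorem det_real (P : E n →ₗ[ℂ] E n) :
    LinearMap.det (P.restrictScalars ℝ) = normSq (LinearMap.det P) := by
  rw [LinearMap.det_restrictScalars, Algebra.norm_complex_apply]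

variable [MeasurableSpace Y] [BorelSpace Y] {p : Y → E n} {W S : Set Y} {μ : Measure Y}

theorem map_p (hR : IsRM p W μ) (rd : RD p W) (hS : IsOpen S) (hSW : S ⊆ W) (inj : InjOn p S) :
    AEMeasurable p (μ.restrict S) ∧ (μ.restrict S).map p = volume.restrict (p '' S) := by
  have hc : ContinuousOn p S := fun y hy =>
    (rd.locH (hSW hy)).continuousAt.continuousWithinAt
  have ha : AEMeasurable p (μ.restrict S) := hc.aemeasurable hS.measurableSet
  refine ⟨ha, Measure.ext fun B hB => ?_⟩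
  have hm : Measurable (S.piecewise p 0) :=
    hc.measurable_piecewise continuousOn_const hS.measurableSet
  have e : p ⁻¹' B ∩ S = S.piecewise p 0 ⁻¹' B ∩ S := by
    ext y
    by_cases hy : y ∈ S <;> simp [hy]
  rw [Measure.map_apply_of_aemeasurable ha hB, Measure.restrict_apply' hS.measurableSet,
    Measure.restrict_apply hB, hR.inj _ (e ▸ (hm hB).inter hS.measurableSet)
      (inter_subset_right.trans hSW) (inj.mono inter_subset_right), image_preimage_inter]

theorem transfer (hR : IsRM p W μ) (rd : RD p W) (hS : IsOpen S) (hSW : S ⊆ W) (inj : InjOn p S)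
    {Ψ : E n → ℝ} (hΨ : IntegrableOn Ψ (p '' S)) {G : Y → ℝ}
    (h1 : ∀ x ∈ S, G x = Ψ (p x)) (h0 : ∀ x, x ∉ S → G x = 0) :
    Integrable G μ ∧ ∫ x, G x ∂μ = ∫ z in p '' S, Ψ z := by
  obtain ⟨ha, hm⟩ := map_p hR rd hS hSW inj
  have hΨ' : Integrable Ψ ((μ.restrict S).map p) := by
    rw [hm]
    exact hΨ
  have i1 : IntegrableOn (fun x => Ψ (p x)) S μ := hΨ'.comp_aemeasurable ha
  have i2 : IntegrableOn G S μ := i1.congr_fun (fun x hx => (h1 x hx).symm) hS.measurableSet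
  refine ⟨(integrableOn_iff_integrable_of_support_subset fun x hx => ?_).1 i2, ?_⟩
  · by_contra h
    exact hx (h0 x h)
  · rw [← setIntegral_eq_integral_of_forall_compl_eq_zero h0,
      setIntegral_congr_fun hS.measurableSet h1, ← hm, integral_map ha hΨ'.aestronglyMeasurable]

end gen

variable {n : ℕ} {C : Ctx n} {c : (Fin (n * 2 + 1) → C.Γ) → ℝ} {f f' : C.Y → ℝ} {i : C.ι} {y : C.Y}

theorem wh_H (c : (Fin (n * 2 + 1) → C.Γ) → ℝ) (f : C.Y → ℝ) (i : C.ι) (y : C.Y) :
    C.wh c f i y = H10.wh c (fun g => f (g⁻¹ • y))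
      (fun b g => dd (C.q i) (fun x => f (g⁻¹ • x)) y (fr n b)) := by
  unfold Ctx.wh whitney H10.wh
  refine finsum_congr fun g => ?_
  rw [(tendsto_lift (C.q i) y).2, ← Matrix.det_transpose]
  rfl

theorem wh_congr (h : ∀ g : C.Γ, (fun x => f' (g⁻¹ • x)) =ᶠ[𝓝 y] fun x => f (g⁻¹ • x)) :
    C.wh c f' i y = C.wh c f i y := by
  rw [wh_H, wh_H]
  congr 1
  · exact funext fun g => (h g).eq_of_nhds
  · funext b g
    rw [dd_congr' (h g)]

theorem wh_smul (hc : BddCocycle (n * 2) c) (hy : y ∈ C.W i) (γ : C.Γ) :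
    C.wh c f i (γ • y) = C.wh c f i y := by
  rw [wh_H, wh_H, ← H10.wh_perm c (fun g => f (g⁻¹ • y)) _ (Equiv.mulLeft γ⁻¹) (hc.inv γ⁻¹)]
  congr 1
  · funext g
    simp [mul_smul]
  · funext b g
    rw [← Ctx.dd_smul hy]
    simp [mul_smul]

theorem wh_τ (hc : BddCocycle (n * 2) c) (hy : y ∈ C.W i) :
    C.wh c f i (C.τ (C.π y)) = C.wh c f i y := by
  obtain ⟨γ, hγ⟩ := C.exists_smul (C.πτ (C.π y))
  rw [← hγ, wh_smul hc hy]

variable (C) in
theorem loc_fin {L V : Set C.Y} (hL : IsCompact L) (hV : IsCompact V) :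
    ∃ F : Finset C.Γ, ∀ g, g ∉ F → ∀ x ∈ V, g⁻¹ • x ∉ L := by
  refine ⟨(C.pd L V hL hV).toFinset, fun g hg x hx h => hg ?_⟩
  rw [Finite.mem_toFinset]
  exact ⟨_, h, by rwa [smul_inv_smul]⟩

theorem dd_off {g : C.Γ} (h : ∀ᶠ x in 𝓝 y, f (g⁻¹ • x) = 0) :
    dd (C.q i) (fun x => f (g⁻¹ • x)) y = 0 := by
  rw [dd_congr' (g := fun _ => 0) h, dd_const]

theorem wh_fin (F : Finset C.Γ) (h : ∀ g, g ∉ F → ∀ᶠ x in 𝓝 y, f (g⁻¹ • x) = 0) :
    C.wh c f i y = H10.wT (fun g : Fin (n * 2 + 1) → F => c fun k => g k)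
      (fun t => f ((t : C.Γ)⁻¹ • y))
      (fun b t => dd (C.q i) (fun x => f ((t : C.Γ)⁻¹ • x)) y (fr n b)) := by
  rw [wh_H, H10.wh_eq c F (fun g hg => (h g hg).self_of_nhds) fun b g hg => by
    rw [dd_off (h g hg)]
    rfl]

theorem finsum_fin {a : C.Γ → ℝ} (F : Finset C.Γ) (h : ∀ g, g ∉ F → a g = 0) :
    ∑ᶠ g, a g = ∑ t : F, a t := by
  rw [finsum_eq_sum_of_support_subset (s := F), Finset.sum_coe_sort F a]
  intro g hg
  by_contra hn
  exact hg (h g hn)

/-- Near every point only finitely many translates of a compactly supported function matter. -/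
theorem near_fin (hf : HasCompactSupport f) (y : C.Y) :
    ∃ F : Finset C.Γ, ∀ᶠ x in 𝓝 y, ∀ g, g ∉ F → f (g⁻¹ • x) = 0 := by
  obtain ⟨V, hV, hy⟩ := exists_compact_mem_nhds y
  obtain ⟨F, hF⟩ := loc_fin C hf hV
  refine ⟨F, ?_⟩
  filter_upwards [hy] with x hx g hg using image_eq_zero_of_notMem_tsupport (hF g hg x hx)

/-- The bound of the Whitney density by a determinant. -/
theorem wh_bound (hc : BddCocycle (n * 2) c) (hf : HasCompactSupport f)
    (hs : ∀ᶠ x in 𝓝 y, ∑ᶠ γ : C.Γ, f (γ⁻¹ • x) = 1)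
    (hd : ∀ γ : C.Γ, Sm (C.q C.o) 1 (fun x => f (γ⁻¹ • x)) y) (P : E n ≃L[ℂ] E n) {s : ℝ}
    (h0 : 0 ≤ s) (hP : ∀ v, C.N1 f y v ≤ s * Real.sqrt (nsq (P v))) :
    |C.wh c f C.o y| ≤ ((n * 2).factorial : ℝ) * s ^ (n * 2) *
      normSq (P : E n →L[ℂ] E n).det := by
  obtain ⟨F, hF⟩ := near_fin hf y
  have hF' : ∀ g, g ∉ F → ∀ᶠ x in 𝓝 y, f (g⁻¹ • x) = 0 := fun g hg => hF.mono fun x hx => hx g hg
  have h1 : ∀ᶠ x in 𝓝 y, ∑ t : F, f ((t : C.Γ)⁻¹ • x) = 1 := by
    filter_upwards [hs, hF] with x a b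
    rw [← finsum_fin F b, a]
  have hm : ∀ v, ∑ t : F, dd (C.q C.o) (fun x => f ((t : C.Γ)⁻¹ • x)) y v = 0 := fun v =>
    H10.mass_deriv (u := fun t : F => (fun x => f ((t : C.Γ)⁻¹ • x)) ∘ lift (C.q C.o) y) (s := 1)
      (fun t => (hd t).differentiableAt) ((tendsto_lift (C.q C.o) y).1.eventually h1) v
  have hN : ∀ v, C.N1 f y v = ∑ t : F, |dd (C.q C.o) (fun x => f ((t : C.Γ)⁻¹ • x)) y v| :=
    fun v => finsum_fin F fun g hg => by rw [dd_off (hF' g hg)]; simp
  have key := H10.wT_det (H10.Coc.comp hc.coc fun t : F => (t : C.Γ)) (fun g => hc.bdd _)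
    h1.self_of_nhds (frB n) (fun v => Real.sqrt (nsq v))
    (fun k => by rw [frB_apply, nsq_fr, Real.sqrt_one])
    (fun t : F => (dd (C.q C.o) (fun x => f ((t : C.Γ)⁻¹ • x)) y).toLinearMap) hm
    (P.toLinearEquiv.restrictScalars ℝ) h0 (fun v => (hN v).ge.trans (hP v))
  have e : LinearMap.det ((P.toLinearEquiv.restrictScalars ℝ : E n ≃ₗ[ℝ] E n) : E n →ₗ[ℝ] E n) =
      normSq (P : E n →L[ℂ] E n).det := det_real (P : E n →ₗ[ℂ] E n)
  rw [e, abs_of_nonneg (normSq_nonneg _)] at key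
  simp only [frB_apply] at key
  rw [wh_fin F hF']
  exact key

variable (C) in
/-- Admissible, with smoothness in the base chart only. -/
structure A0 (f : C.Y → ℝ) : Prop where
  sm : ∀ y ∈ C.W C.o, Sm (C.q C.o) 2 f y
  cpt : HasCompactSupport f
  sum : ∀ y, ∑ᶠ γ : C.Γ, f (γ⁻¹ • y) = 1

theorem A0.of_adm (h : C.Adm f) : A0 C f := ⟨h.sm C.o, h.cpt, h.sum⟩

theorem A0.mix (hf : A0 C f) (hf' : A0 C f') {β : C.X → ℝ}
    (hβ : ∀ y ∈ C.W C.o, Sm (C.q C.o) 2 (β ∘ C.π) y) :
    A0 C fun y => f y + β (C.π y) * (f' y - f y) := by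
  refine ⟨fun y hy => (hf.sm y hy).add ((hβ y hy).mul ((hf'.sm y hy).sub (hf.sm y hy))),
    hf.cpt.add ((hf'.cpt.sub hf.cpt).mul_left (f := fun y => β (C.π y))), fun y => ?_⟩
  obtain ⟨F, hF⟩ := loc_fin C (hf.cpt.union hf'.cpt) (isCompact_singleton (x := y))
  have a : ∀ g, g ∉ F → f (g⁻¹ • y) = 0 := fun g hg =>
    image_eq_zero_of_notMem_tsupport fun h => hF g hg y rfl (Or.inl h)
  have b : ∀ g, g ∉ F → f' (g⁻¹ • y) = 0 := fun g hg =>
    image_eq_zero_of_notMem_tsupport fun h => hF g hg y rfl (Or.inr h)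
  have a' := hf.sum y
  have b' := hf'.sum y
  rw [finsum_fin F a] at a'
  rw [finsum_fin F b] at b'
  rw [finsum_fin F fun g hg => by rw [a g hg, b g hg]; ring]
  simp only [C.π_smul]
  rw [Finset.sum_add_distrib, ← Finset.mul_sum, Finset.sum_sub_distrib, a', b']
  ring

variable (C c) in
/-- The two Whitney densities differ by an integrable function of integral zero. -/
def Z (f f' : C.Y → ℝ) : Prop :=
  Integrable (fun x => C.wh c f' C.o (C.τ x) - C.wh c f C.o (C.τ x)) (C.base.leb C.o) ∧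
    ∫ x, (C.wh c f' C.o (C.τ x) - C.wh c f C.o (C.τ x)) ∂C.base.leb C.o = 0

theorem Z.trans {f'' : C.Y → ℝ} (h : Z C c f f') (h' : Z C c f' f'') : Z C c f f'' := by
  have e : (fun x => C.wh c f'' C.o (C.τ x) - C.wh c f C.o (C.τ x)) = fun x =>
      (C.wh c f'' C.o (C.τ x) - C.wh c f' C.o (C.τ x)) +
        (C.wh c f' C.o (C.τ x) - C.wh c f C.o (C.τ x)) := funext fun x => by ring
  unfold Z
  rw [e]
  exact ⟨h'.1.add h.1, by rw [integral_add h'.1 h.1, h.2, h'.2, add_zero]⟩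

theorem top_loc (hR : IsRM (C.P.p C.o) (C.P.U C.o) (C.base.leb C.o)) (hc : BddCocycle (n * 2) c)
    {e : OpenPartialHomeomorph C.Y (E n)} (he : Cht (C.q C.o) (C.W C.o) e) {V : Set C.Y}
    (hV : IsCompact V) (heV : e.source ⊆ V) {K : Set (E n)} (hK : IsCompact K)
    (hKe : K ⊆ e.target) (hf : A0 C f) (hf' : A0 C f')
    (heq : ∀ y, C.π y ∉ C.π '' (e.symm '' K) → f' y = f y) : Z C c f f' := by
  have hS : IsOpen (C.π '' e.source) := C.isLocalHomeomorph.isOpenMap _ e.open_source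
  have hSW : C.π '' e.source ⊆ C.P.U C.o := by
    rintro _ ⟨y, hy, rfl⟩
    exact he.sub hy
  have inj : InjOn (C.P.p C.o) (C.π '' e.source) := by
    rintro _ ⟨y, hy, rfl⟩ _ ⟨y', hy', rfl⟩ h
    have : C.q C.o y = C.q C.o y' := h
    rw [he.eq hy, he.eq hy'] at this
    rw [e.injOn hy hy' this]
  have him : C.P.p C.o '' (C.π '' e.source) = e.target := by
    rw [← image_comp, ← e.image_source_eq_target]
    exact he.eq.image_eq
  obtain ⟨F, hF⟩ := loc_fin C (hf.cpt.union hf'.cpt) hV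
  have hz : ∀ w : C.Y → ℝ, (∀ g, g ∉ F → ∀ x ∈ V, g⁻¹ • x ∉ tsupport w) → ∀ y ∈ e.source,
      ∀ g, g ∉ F → ∀ᶠ x in 𝓝 y, w (g⁻¹ • x) = 0 := by
    intro w hw y hy g hg
    filter_upwards [e.open_source.mem_nhds hy] with x hx
    exact image_eq_zero_of_notMem_tsupport (hw g hg x (heV hx))
  have z1 := hz f fun g hg x hx h => hF g hg x hx (Or.inl h)
  have z2 := hz f' fun g hg x hx h => hF g hg x hx (Or.inr h)
  have hsm : ∀ w : C.Y → ℝ, A0 C w → ∀ t : F,
      ContDiffOn ℝ 2 (fun z => w ((t : C.Γ)⁻¹ • e.symm z)) e.target := by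
    intro w hw t z hz
    have hy := e.map_target hz
    have := (he.sm_iff hy).1 ((Ctx.sm_smul (he.sub hy) (t : C.Γ)⁻¹).2
      (hw.sm _ ((Ctx.smul_mem_W _).2 (he.sub hy))))
    rw [he.p_symm hz] at this
    exact this.contDiffWithinAt
  have hsum : ∀ w : C.Y → ℝ, A0 C w →
      (∀ y ∈ e.source, ∀ g, g ∉ F → ∀ᶠ x in 𝓝 y, w (g⁻¹ • x) = 0) →
      ∀ z ∈ e.target, ∑ t : F, w ((t : C.Γ)⁻¹ • e.symm z) = 1 := by
    intro w hw h z hz
    rw [← finsum_fin F (a := fun g => w (g⁻¹ • e.symm z))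
      fun g hg => (h _ (e.map_target hz) g hg).self_of_nhds]
    exact hw.sum _
  obtain ⟨n1, n2⟩ := H10.null2 (μ := volume) (H10.Coc.comp hc.coc fun t : F => (t : C.Γ))
    e.open_target hK hKe (hsm f hf) (hsm f' hf') (hsum f hf z1) (hsum f' hf' z2)
    (fun t z hz hzK => heq _ (by
      rw [C.π_smul]
      rintro ⟨_, ⟨z', hz', rfl⟩, h⟩
      have h2 : C.q C.o (e.symm z') = C.q C.o (e.symm z) := congrArg (C.P.p C.o) h
      rw [he.p_symm hz, he.p_symm (hKe hz')] at h2
      exact hzK (h2 ▸ hz'))) (fr n)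
  have hw : ∀ w : C.Y → ℝ, (∀ y ∈ e.source, ∀ g, g ∉ F → ∀ᶠ x in 𝓝 y, w (g⁻¹ • x) = 0) →
      ∀ y ∈ e.source, C.wh c w C.o (C.τ (C.π y)) =
      H10.wT (fun g : Fin (n * 2 + 1) → F => c fun k => g k)
        (fun t => w ((t : C.Γ)⁻¹ • e.symm (C.q C.o y)))
        (fun b t => fderiv ℝ (fun z => w ((t : C.Γ)⁻¹ • e.symm z)) (C.q C.o y) (fr n b)) := by
    intro w h y hy
    rw [wh_τ hc (he.sub hy), wh_fin F (h y hy), he.symm_p hy]
    congr 1
    funext b t
    rw [he.dd_eq hy]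
    rfl
  have hKc : IsCompact (C.π '' (e.symm '' K)) :=
    (hK.image_of_continuousOn (e.continuousOn_symm.mono hKe)).image C.continuous_π
  rw [← him] at n1 n2
  obtain ⟨t1, t2⟩ := transfer hR (C.good.rd C.o) hS hSW inj n1
    (G := fun x => C.wh c f' C.o (C.τ x) - C.wh c f C.o (C.τ x))
    (by
      rintro _ ⟨y, hy, rfl⟩
      rw [hw f z1 y hy, hw f' z2 y hy]
      rfl)
    (fun x hx => by
      have hx' : C.π (C.τ x) ∈ (C.π '' (e.symm '' K))ᶜ := by
        rw [C.πτ]
        rintro ⟨_, ⟨z, hz, rfl⟩, h⟩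
        exact hx ⟨_, e.map_target (hKe hz), h⟩
      rw [wh_congr (f := f) (f' := f') fun g => ?_, sub_self]
      filter_upwards [C.continuous_π.continuousAt.preimage_mem_nhds
        (hKc.isClosed.isOpen_compl.mem_nhds hx')] with y hy
      exact heq _ (by rwa [C.π_smul]))
  exact ⟨t1, t2.trans n2⟩

/-- Changing the function over a compact part of the base chart does not change the integral. -/
theorem top (hR : IsRM (C.P.p C.o) (C.P.U C.o) (C.base.leb C.o)) (hc : BddCocycle (n * 2) c)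
    {K : Set C.X} (hK : IsCompact K) (hKU : K ⊆ C.P.U C.o) (hf : A0 C f) (hf' : A0 C f')
    (heq : ∀ y, C.π y ∉ K → f' y = f y) : Z C c f f' := by
  have key : ∃ β : C.X → ℝ, (∀ y ∈ C.W C.o, Sm (C.q C.o) 2 (β ∘ C.π) y) ∧ (∀ x ∈ K, β x = 1) ∧
      ∀ f f' : C.Y → ℝ, A0 C f → A0 C f' → Z C c f fun y => f y + β (C.π y) * (f' y - f y) := by
    refine hK.induction_on (p := fun S => ∃ β : C.X → ℝ,
      (∀ y ∈ C.W C.o, Sm (C.q C.o) 2 (β ∘ C.π) y) ∧ (∀ x ∈ S, β x = 1) ∧
      ∀ f f' : C.Y → ℝ, A0 C f → A0 C f' → Z C c f fun y => f y + β (C.π y) * (f' y - f y))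
      ?_ ?_ ?_ ?_
    · refine ⟨fun _ => 0, fun y _ => sm_const (0 : ℝ), fun x hx => hx.elim, fun f f' _ _ => ?_⟩
      simp [Z]
    · rintro s t hst ⟨β, h1, h2, h3⟩
      exact ⟨β, h1, fun x hx => h2 x (hst hx), h3⟩
    · rintro s t ⟨β, h1, h2, h3⟩ ⟨β', h1', h2', h3'⟩
      refine ⟨fun x => β x + β' x * (1 - β x), fun y hy =>
        (h1 y hy).add ((h1' y hy).mul ((sm_const (1 : ℝ)).sub (h1 y hy))), ?_, fun f f' a b => ?_⟩
      · rintro x (hx | hx)
        · simp [h2 x hx]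
        · simp [h2' x hx]
      · have e : (fun y => f y + (β (C.π y) + β' (C.π y) * (1 - β (C.π y))) * (f' y - f y)) =
            fun y => (f y + β (C.π y) * (f' y - f y)) +
              β' (C.π y) * (f' y - (f y + β (C.π y) * (f' y - f y))) := funext fun y => by ring
        have := (h3 f f' a b).trans (h3' _ f' (a.mix b h1) b)
        rw [← e] at this
        exact this
    · intro x hx
      have hy : C.τ x ∈ C.W C.o := by
        show C.π (C.τ x) ∈ C.P.U C.o
        rw [C.πτ]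
        exact hKU hx
      obtain ⟨V, hV, hyV⟩ := exists_compact_mem_nhds (C.τ x)
      obtain ⟨e, r, hr, he, hye, heV, het⟩ := (C.rd C.o).exists_ball hy hyV
      let b : ContDiffBump (C.q C.o (C.τ x)) := ⟨r / 4, r / 2, by positivity, by linarith⟩
      have hS : IsOpen (C.π '' e.source) := C.isLocalHomeomorph.isOpenMap _ e.open_source
      have hKe : closedBall (C.q C.o (C.τ x)) (r / 2) ⊆ e.target := by
        rw [het]
        exact closedBall_subset_ball (by linarith)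
      have hKc : IsCompact (C.π '' (e.symm '' closedBall (C.q C.o (C.τ x)) (r / 2))) :=
        ((isCompact_closedBall _ _).image_of_continuousOn
          (e.continuousOn_symm.mono hKe)).image C.continuous_π
      let β : C.X → ℝ := (C.π '' e.source).indicator fun x' => b (C.P.p C.o x')
      have hβ0 : ∀ x', x' ∉ C.π '' (e.symm '' closedBall (C.q C.o (C.τ x)) (r / 2)) → β x' = 0 := by
        intro x' hx'
        by_cases h : x' ∈ C.π '' e.source
        · obtain ⟨y, hy', rfl⟩ := h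
          have : β (C.π y) = b (C.q C.o y) := indicator_of_mem (mem_image_of_mem _ hy') _
          rw [this]
          refine b.zero_of_le_dist ?_
          by_contra hn
          exact hx' ⟨y, ⟨C.q C.o y, mem_closedBall.2 (not_le.1 hn).le, he.symm_p hy'⟩, rfl⟩
        · exact indicator_of_notMem h _
      have hsm : ∀ y ∈ C.W C.o, Sm (C.q C.o) 2 (β ∘ C.π) y := by
        intro y hy'
        by_cases h : C.π y ∈ C.π '' e.source
        · refine Sm.congr (Ctx.locH hy') (Sm.comp (Ctx.locH hy') (g := b) b.contDiffAt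
            (sm_p (Ctx.locH hy'))) ?_
          filter_upwards [C.continuous_π.continuousAt.preimage_mem_nhds (hS.mem_nhds h)] with w hw
          exact indicator_of_mem (s := C.π '' e.source) hw fun x' => b (C.P.p C.o x')
        · have h' : C.π y ∈ (C.π '' (e.symm '' closedBall (C.q C.o (C.τ x)) (r / 2)))ᶜ := by
            rintro ⟨_, ⟨z, hz, rfl⟩, h2⟩
            exact h ⟨_, e.map_target (hKe hz), h2⟩
          refine Sm.congr (Ctx.locH hy') (sm_const (0 : ℝ)) ?_
          filter_upwards [C.continuous_π.continuousAt.preimage_mem_nhds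
            (hKc.isClosed.isOpen_compl.mem_nhds h')] with w hw
          exact hβ0 _ hw
      have hxS : x ∈ C.π '' e.source := ⟨_, hye, C.πτ x⟩
      have hp : ContinuousAt (C.P.p C.o) x := ((C.good.rd C.o).locH (hKU hx)).continuousAt
      have hq : C.q C.o (C.τ x) = C.P.p C.o x := congrArg (C.P.p C.o) (C.πτ x)
      refine ⟨C.π '' e.source ∩ C.P.p C.o ⁻¹' ball (C.q C.o (C.τ x)) (r / 4),
        mem_nhdsWithin_of_mem_nhds (inter_mem (hS.mem_nhds hxS)
          (hp.preimage_mem_nhds (by rw [hq]; exact ball_mem_nhds _ (by positivity)))),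
        β, hsm, fun x' hx' => ?_, fun f f' a a' => ?_⟩
      · have : β x' = b (C.P.p C.o x') := indicator_of_mem hx'.1 _
        rw [this]
        exact b.one_of_mem_closedBall (ball_subset_closedBall hx'.2)
      · refine top_loc hR hc he hV heV (isCompact_closedBall _ _) hKe a (a.mix a' hsm)
          fun y hy' => ?_
        rw [hβ0 _ hy', zero_mul, add_zero]
  obtain ⟨β, -, h2, h3⟩ := key
  have e : (fun y => f y + β (C.π y) * (f' y - f y)) = f' := by
    funext y
    by_cases h : C.π y ∈ K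
    · rw [h2 _ h]
      ring
    · rw [heq y h]
      ring
  have := h3 f f' hf hf'
  rwa [e] at this

end T10

end Pool.Agent.Lib.SV
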