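import Pool.Agent.Lib.SV.Blue4
import Pool.Agent.Lib.SV.Top10
import Pool.Agent.Lib.SV.B_VOL
import Pool.Agent.Lib.SV.B_AT1

/-! The integral of the statement is the integral in the base chart. -/

open scoped Topology ENNReal Manifold ContDiff
open Set MeasureTheory Complex Filter

noncomputable section

namespace Pool.Agent.Lib.SV

namespace BRI

/-- Change of variables between two étale coordinates. -/
theorem chg (hRM : St_RM) {n : ℕ} {Y : Type} [TopologicalSpace Y] [T2Space Y]
    [SecondCountableTopology Y] [MeasurableSpace Y] [BorelSpace Y] {p p' : Y → E n}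
    {W W' S : Set Y} (h : RD p W) (h' : RD p' W') (hS : IsOpen S) (hW : S ⊆ W) (hW' : S ⊆ W')
    (hd : ∀ y ∈ S, DifferentiableAt ℝ (p ∘ lift p' y) (p' y)) :
    (rm p W).restrict S =
      ((rm p' W').withDensity fun y => ENNReal.ofReal |(dd p' p y).det|).restrict S := by
  have off : ∀ μ : Measure Y, μ.restrict S Sᶜ = 0 := fun μ => by
    rw [Measure.restrict_apply hS.measurableSet.compl, compl_inter_self, measure_empty]
  refine VOL.ext_loc (off _) (off _) fun y hy => ?_
  obtain ⟨a, ha, hya, haS⟩ := h.exists_cht (hW hy) (hS.mem_nhds hy)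
  obtain ⟨b, hb, hyb, hba⟩ := h'.exists_cht (hW' hy) (a.open_source.mem_nhds hya)
  have hbS : b.source ⊆ S := hba.trans haS
  have mb := b.open_source.measurableSet
  refine ⟨b.source, b.open_source.mem_nhds hyb, hbS, ?_⟩
  rw [Measure.restrict_restrict_of_subset hbS, Measure.restrict_restrict_of_subset hbS]
  refine Measure.ext fun A hA => ?_
  rw [restrict_withDensity mb, withDensity_apply _ hA, ← lintegral_indicator hA,
    ← lintegral_indicator_one hA]
  let a' := a.restrOpen b.source b.open_source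
  have ha' : Cht p W a' := ⟨fun x hx => ha.sub hx.1, fun x hx => ha.eq hx.1⟩
  have hs : a'.source = b.source := inter_eq_right.2 hba
  have e1 := (hRM n { Y := Y, p := p, W := W, rd := h }).2.2.1 a' ha' (A.indicator 1)
  have e2 := (hRM n { Y := Y, p := p', W := W', rd := h' }).2.2.1 b hb
    (A.indicator fun y => ENNReal.ofReal |(dd p' p y).det|)
  rw [hs] at e1
  refine e1.trans (Eq.trans ?_ e2.symm)
  have im : (p ∘ b.symm) '' b.target = a'.target := by
    rw [image_comp, b.symm_image_target_eq_source, ← hs, ← a'.image_source_eq_target]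
    exact ha'.eq.image_eq
  have der : ∀ w ∈ b.target, HasFDerivWithinAt (p ∘ b.symm) (dd p' p (b.symm w)) b.target w :=
    fun w hw => by
      have hx := b.map_target hw
      have h3 := (hd _ (hbS hx)).hasFDerivAt.congr_of_eventuallyEq (hb.comp_eq hx p).symm
      have h4 : p' (b.symm w) = w := hb.p_symm hw
      unfold dd
      rw [h4] at h3 ⊢
      exact h3.hasFDerivWithinAt
  have inj : InjOn (p ∘ b.symm) b.target :=
    ((a.injOn.congr ha.eq.symm).mono hba).comp b.symm.injOn fun _ hw => b.map_target hw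
  rw [← im, lintegral_image_eq_lintegral_abs_det_fderiv_mul volume b.open_target.measurableSet
    der inj]
  refine setLIntegral_congr_fun b.open_target.measurableSet fun w hw => ?_
  have hx := b.map_target hw
  have h6 : a'.symm ((p ∘ b.symm) w) = b.symm w := ha'.symm_p (hs ▸ hx)
  simp only [h6]
  by_cases hA' : b.symm w ∈ A
  · simp only [indicator_of_mem hA', Pi.one_apply, mul_one]
  · simp only [indicator_of_notMem hA', mul_zero]

/-- Chain rule for the Whitney form. -/
theorem whitney_comp {n : ℕ} {Y Γ : Type} [TopologicalSpace Y] [Group Γ] [MulAction Γ Y]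
    (c : (Fin (n * 2 + 1) → Γ) → ℝ) (f : Y → ℝ) {s t : E n → Y} {φ : E n → E n} {z : E n}
    (e : s =ᶠ[𝓝 z] t ∘ φ) (hφ : DifferentiableAt ℝ φ z)
    (ht : ∀ g : Γ, DifferentiableAt ℝ (fun w => f (g • t w)) (φ z)) :
    whitney c f s z = (fderiv ℝ φ z).det * whitney c f t (φ z) := by
  unfold whitney
  rw [mul_finsum]
  refine finsum_congr fun g => ?_
  have e0 : s z = t (φ z) := e.eq_of_nhds
  have e1 : (Matrix.of fun a b : Fin (n * 2) =>
      fderiv ℝ (fun w => f ((g a.succ)⁻¹ • s w)) z (fr n b)) =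
      (Matrix.of fun a b : Fin (n * 2) =>
        fderiv ℝ (fun w => f ((g a.succ)⁻¹ • t w)) (φ z) (fr n b)) *
        LinearMap.toMatrix (T10.frB n) (T10.frB n) (fderiv ℝ φ z).toLinearMap := by
    ext a b
    have e2 : (fun w => f ((g a.succ)⁻¹ • s w)) =ᶠ[𝓝 z]
        (fun w => f ((g a.succ)⁻¹ • t w)) ∘ φ := e.mono fun w hw => by
      simp only [hw, Function.comp_apply]
    rw [Matrix.of_apply, e2.fderiv_eq, fderiv_comp z (ht _) hφ, Matrix.mul_apply,
      ContinuousLinearMap.comp_apply, ← (T10.frB n).sum_repr (fderiv ℝ φ z (fr n b)), map_sum]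
    refine Finset.sum_congr rfl fun k _ => ?_
    rw [map_smul, Matrix.of_apply, LinearMap.toMatrix_apply, T10.frB_apply, T10.frB_apply,
      smul_eq_mul, mul_comm]
    rfl
  rw [e0, e1, Matrix.det_mul, LinearMap.det_toMatrix]
  unfold ContinuousLinearMap.det
  ring

variable {n : ℕ} {C : Ctx n} [ChartedSpace (E n) C.X] [IsManifold 𝓘(ℂ, E n) ω C.X]

omit [IsManifold 𝓘(ℂ, E n) ω C.X] in
theorem cht (a : C.X) : Cht (chartAt (E n) a) (chartAt (E n) a).source (chartAt (E n) a) :=
  ⟨Subset.rfl, fun _ _ => rfl⟩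

omit [IsManifold 𝓘(ℂ, E n) ω C.X] in
theorem rd (a : C.X) : RD (chartAt (E n) a) (chartAt (E n) a).source :=
  ⟨(chartAt (E n) a).open_source, fun _ hx => ⟨chartAt (E n) a, hx, rfl⟩⟩

theorem diff1 (hc : Cmp C.P) {a x : C.X} {i : C.ι} (ha : x ∈ (chartAt (E n) a).source)
    (hi : x ∈ C.P.U i) :
    DifferentiableAt ℂ (C.P.p i ∘ (chartAt (E n) a).symm) (chartAt (E n) a x) := by
  have hx := mem_chart_source (E n) x
  refine DifferentiableAt.congr_of_eventuallyEq ?_ (AT1.comp_change (C.P.p i) x a hx ha)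
  refine DifferentiableAt.comp _ ?_ (AT1.chart_change x a hx ha)
  rw [Function.comp_apply, (chartAt (E n) a).left_inv ha]
  exact (hc i x hi).1.self_of_nhds

theorem diff2 (hc : Cmp C.P) {a x : C.X} {i : C.ι} (ha : x ∈ (chartAt (E n) a).source)
    (hi : x ∈ C.P.U i) :
    DifferentiableAt ℂ (chartAt (E n) a ∘ lift (C.P.p i) x) (C.P.p i x) := by
  have hx := mem_chart_source (E n) x
  obtain ⟨h1, h2⟩ := AT1.inverse (hc i x hi).1 (hc i x hi).2
  refine DifferentiableAt.congr_of_eventuallyEq ?_ (AT1.comp_lift (chartAt (E n) a) h1)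
  refine DifferentiableAt.comp _ ?_ h2.self_of_nhds
  rw [Function.comp_apply, h1.lift_self]
  exact AT1.chart_change a x ha hx

/-- The complement of the base chart is null in every chart of the manifold. -/
theorem null (hRM : St_RM) (hID : St_ID) (hc : Cmp C.P) (a : C.X) :
    ∀ᵐ x ∂rm (chartAt (E n) a) (chartAt (E n) a).source, x ∈ C.P.U C.o := by
  have h0 : ∀ᵐ x ∂rm (chartAt (E n) a) (chartAt (E n) a).source, x ∈ (chartAt (E n) a).source :=
    (hRM n { Y := C.X, p := chartAt (E n) a, W := _, rd := rd a }).1.off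
  have h1 : ∀ i : C.ι, ∀ᵐ x ∂rm (chartAt (E n) a) (chartAt (E n) a).source,
      x ∈ (chartAt (E n) a).source ∩ C.P.U i → x ∈ C.P.U C.o := fun i => by
    have ho := (chartAt (E n) a).open_source.inter (C.good.rd i).opn
    rw [← ae_restrict_iff' ho.measurableSet, chg hRM (rd a) (C.good.rd i) ho inter_subset_left
      inter_subset_right fun y hy => (diff2 hc hy.1 hy.2).restrictScalars ℝ]
    exact ae_restrict_of_ae (withDensity_absolutelyContinuous _ _
      (VOL.leb_off (C := C.base) hID i C.good.ne))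
  filter_upwards [h0, ae_all_iff.2 h1] with x hx h
  obtain ⟨i, hi⟩ := C.good.cov x
  exact h i ⟨hx, hi⟩

/-- The coefficient in a chart of the manifold. -/
theorem coef (hc : Cmp C.P) (c : (Fin (n * 2 + 1) → C.Γ) → ℝ) {f : C.Y → ℝ} (hf : C.Adm f)
    {a x : C.X} (ha : x ∈ (chartAt (E n) a).source) (ho : x ∈ C.P.U C.o) :
    whitney c f (lift C.π (C.τ x) ∘ (chartAt (E n) a).symm) (chartAt (E n) a x) =
      |(dd (chartAt (E n) a) (C.P.p C.o) x).det| * C.wh c f C.o (C.τ x) := by
  have hy : C.τ x ∈ C.W C.o := by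
    show C.π (C.τ x) ∈ C.P.U C.o
    rwa [C.πτ]
  have hq := Ctx.locH hy
  have hπ : LocH C.π (C.τ x) := LocH.of_on C.isLocalHomeomorph.isLocalHomeomorphOn (mem_univ _)
  have hd := diff1 hc ha ho
  have ht : Tendsto (chartAt (E n) a).symm (𝓝 (chartAt (E n) a x)) (𝓝 (C.π (C.τ x))) := by
    rw [C.πτ]
    exact (chartAt (E n) a).tendsto_symm ha
  have e0 : (C.P.p C.o ∘ (chartAt (E n) a).symm) (chartAt (E n) a x) = C.q C.o (C.τ x) := by
    simp only [Function.comp_apply, (chartAt (E n) a).left_inv ha, C.πτ]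
  have e : lift C.π (C.τ x) ∘ (chartAt (E n) a).symm =ᶠ[𝓝 (chartAt (E n) a x)]
      lift (C.q C.o) (C.τ x) ∘ (C.P.p C.o ∘ (chartAt (E n) a).symm) := by
    filter_upwards [(hπ.tendsto_lift.comp ht).eventually hq.lift_p, ht.eventually hπ.p_lift]
      with w h1 h2
    simp only [Function.comp_apply] at h1 h2 ⊢
    rw [h2] at h1
    exact h1.symm
  rw [whitney_comp c f e (hd.restrictScalars ℝ) fun g => ?_, e0]
  · have e1 : dd (chartAt (E n) a) (C.P.p C.o) x =
        fderiv ℝ (C.P.p C.o ∘ (chartAt (E n) a).symm) (chartAt (E n) a x) :=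
      ((cht a).comp_eq ha _).fderiv_eq
    have e2 : 0 ≤ (fderiv ℝ (C.P.p C.o ∘ (chartAt (E n) a).symm) (chartAt (E n) a x)).det := by
      rw [hd.fderiv_restrictScalars ℝ]
      exact (normSq_nonneg _).trans_eq (T10.det_real _).symm
    rw [e1, abs_of_nonneg e2]
    rfl
  · rw [e0]
    exact Sm.differentiableAt (k := 1)
      ((Ctx.sm_smul hy g).2 (hf.sm _ _ ((Ctx.smul_mem_W g).2 hy)))

/-- One cell. -/
theorem cell (hRM : St_RM) (hID : St_ID) (hc : Cmp C.P) (c : (Fin (n * 2 + 1) → C.Γ) → ℝ)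
    {f : C.Y → ℝ} (hf : C.Adm f) (a : C.X) {B : Set (E n)} (hB : B ⊆ (chartAt (E n) a).target)
    (hA : MeasurableSet ((chartAt (E n) a).symm '' B)) (hm : MeasurableSet B) :
    ∫ z in B, whitney c f (lift C.π (C.τ ((chartAt (E n) a).symm z)) ∘ (chartAt (E n) a).symm) z =
      ∫ x in (chartAt (E n) a).symm '' B, C.wh c f C.o (C.τ x) ∂C.base.leb C.o := by
  set e := chartAt (E n) a with he
  set A := e.symm '' B with hAe
  have hAs : A ⊆ e.source := by
    rintro _ ⟨z, hz, rfl⟩
    exact e.map_target (hB hz)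
  have ho := e.open_source.inter (C.good.rd C.o).opn
  have ae0 : ∀ᵐ x ∂rm (C.P.p C.o) (C.P.U C.o), x ∈ C.P.U C.o :=
    (hRM n (VOL.dm C.base C.o)).1.off
  have ae1 := null hRM hID hc a
  have key : (C.base.leb C.o).restrict A = ((rm e e.source).restrict A).withDensity
      fun y => ENNReal.ofReal |(dd e (C.P.p C.o) y).det| := by
    have h1 := chg hRM (C.good.rd C.o) (rd a) ho inter_subset_right inter_subset_left
      fun y hy => ((diff1 hc hy.1 hy.2).restrictScalars ℝ).congr_of_eventuallyEq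
        ((cht a).comp_eq hy.1 _)
    have h2 := congrArg (fun μ => Measure.restrict μ A) h1
    simp only [Measure.restrict_restrict hA] at h2
    have h3 : ∀ μ : Measure C.X, (∀ᵐ x ∂μ, x ∈ C.P.U C.o) →
        μ.restrict (A ∩ (e.source ∩ C.P.U C.o)) = μ.restrict A := fun μ hμ => by
      refine Measure.restrict_congr_set ?_
      filter_upwards [hμ] with x hx
      exact propext ⟨fun h => h.1, fun h => ⟨h, hAs h, hx⟩⟩
    rw [h3 _ ae0, h3 _ (withDensity_absolutelyContinuous _ _ ae1), restrict_withDensity hA] at h2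
    exact h2
  have mJ : AEMeasurable (fun y => ENNReal.ofReal |(dd e (C.P.p C.o) y).det|)
      ((rm e e.source).restrict A) := by
    have m1 : AEMeasurable e ((rm e e.source).restrict A) :=
      (e.continuousOn.mono hAs).aemeasurable hA
    have m2 : Measurable fun z => ENNReal.ofReal |(fderiv ℝ (C.P.p C.o ∘ e.symm) z).det| :=
      ((ContinuousLinearMap.continuous_det.measurable.comp
        (measurable_fderiv ℝ _)).abs).ennreal_ofReal
    refine (m2.comp_aemeasurable m1).congr ?_
    filter_upwards [ae_restrict_mem hA] with y hy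
    have e1 : dd e (C.P.p C.o) y = fderiv ℝ (C.P.p C.o ∘ e.symm) (e y) :=
      ((cht a).comp_eq (hAs hy) _).fderiv_eq
    rw [e1]
    rfl
  rw [key, integral_withDensity_eq_integral_toReal_smul₀ mJ
    (Eventually.of_forall fun _ => ENNReal.ofReal_lt_top)]
  have e3 := (hRM n { Y := C.X, p := e, W := _, rd := rd a }).2.2.2.2.1 e (cht a)
    (A.indicator fun x => whitney c f (lift C.π (C.τ x) ∘ e.symm) (e x))
  rw [setIntegral_indicator hA, inter_eq_right.2 hAs] at e3
  symm
  refine Eq.trans (integral_congr_ae ?_) (e3.trans ?_)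
  · filter_upwards [ae_restrict_mem hA, ae_restrict_of_ae ae1] with x hx hx'
    rw [coef hc c hf (hAs hx) hx', ENNReal.toReal_ofReal (abs_nonneg _), smul_eq_mul]
  · rw [← inter_eq_right.2 hB, ← setIntegral_indicator hm]
    refine setIntegral_congr_fun e.open_target.measurableSet fun z hz => ?_
    by_cases hz' : z ∈ B
    · have : e.symm z ∈ A := mem_image_of_mem e.symm hz'
      simp only [indicator_of_mem hz', indicator_of_mem this, e.right_inv hz]
    · have : e.symm z ∉ A := by
        rintro ⟨w, hw, hwz⟩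
        exact hz' (e.symm.injOn (hB hw) hz hwz ▸ hw)
      simp only [indicator_of_notMem hz', indicator_of_notMem this]

end BRI

theorem stBRI (hWH : St_WH) (hRM : St_RM) (hID : St_ID) (_hSMO : St_SMO) (_hTR : St_TR)
    (_hVOL : St_VOL) : St_BRI := by
  intro n C _ _ c f r x B hc hb hf hx
  have hI := ((hWH n C c f hb hf).2.2.2.2.2.1 C.o C.good.ne).1
  have hA : ∀ k, MeasurableSet ((chartAt (E n) (x k)).symm '' B k) := fun k =>
    (hx.meas k).image_of_continuousOn_injOn
      ((chartAt (E n) (x k)).continuousOn_symm.mono (hx.sub k))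
      ((chartAt (E n) (x k)).symm.injOn.mono (hx.sub k))
  have hd : Pairwise (Function.onFun Disjoint fun k => (chartAt (E n) (x k)).symm '' B k) :=
    fun k l hkl => disjoint_left.2 fun y h1 h2 => hkl ((hx.part y).unique h1 h2)
  have hu : (⋃ k, (chartAt (E n) (x k)).symm '' B k) = univ :=
    eq_univ_of_forall fun y => mem_iUnion.2 (hx.part y).exists
  unfold pairing Ctx.pr
  rw [← setIntegral_univ, ← hu, integral_iUnion_fintype hA hd fun _ => hI.integrableOn]
  exact Finset.sum_congr rfl fun k _ =>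
    BRI.cell hRM hID hc c hf (x k) (hx.sub k) (hA k) (hx.meas k)

end Pool.Agent.Lib.SV
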