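import Pool.Agent.Lib.SV.B_AT1

/-! Row BRP: sections of a multiple of the canonical bundle are the pluricanonical forms. -/

open scoped Classical Topology Manifold ContDiff
open Set Filter

noncomputable section

namespace Pool.Agent.Lib.SV

namespace BRP

variable {n : ℕ} {X : Type} [TopologicalSpace X] [ChartedSpace (E n) X]

/-- Jacobian determinant of `p` in the chart at `x`. -/
def J (p : X → E n) (x : X) (z : E n) : ℂ := (fderiv ℂ (p ∘ (chartAt (E n) x).symm) z).det

/-- Its value at the centre. -/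
def D (p : X → E n) (x : X) : ℂ := J p x (chartAt (E n) x x)

theorem diff_det {A : E n → E n →L[ℂ] E n} {z : E n} (h : DifferentiableAt ℂ A z) :
    DifferentiableAt ℂ (fun w => (A w).det) z := by
  have e : (fun w => (A w).det) = fun w => ∑ σ : Equiv.Perm (Fin n),
      ((Equiv.Perm.sign σ : ℤ) : ℂ) * ∏ i, A w (Pi.single i 1) (σ i) := by
    funext w
    rw [ContinuousLinearMap.det, ← LinearMap.det_toMatrix', Matrix.det_apply']
    simp [LinearMap.toMatrix'_apply]
  rw [e]
  refine DifferentiableAt.fun_sum fun σ _ => DifferentiableAt.const_mul ?_ _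
  have k : ∀ i : Fin n, DifferentiableAt ℂ (fun w => A w (Pi.single i 1) (σ i)) z := fun i =>
    differentiableAt_pi.1 (h.clm_apply (differentiableAt_const _)) (σ i)
  exact (HasFDerivAt.finsetProd fun i _ => (k i).hasFDerivAt).differentiableAt

theorem J_diff {p : X → E n} {x : X}
    (hd : ∀ᶠ z in 𝓝 (chartAt (E n) x x), DifferentiableAt ℂ (p ∘ (chartAt (E n) x).symm) z) :
    DifferentiableAt ℂ (J p x) (chartAt (E n) x x) :=
  diff_det (((H85.contDiffAt_nat hd 2).fderiv_right (m := 1) (by norm_num)).differentiableAt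
    (by norm_num))

theorem J_eq [IsManifold 𝓘(ℂ, E n) ω X] {p : X → E n} {x : X}
    (hd : ∀ᶠ y in 𝓝 x, DifferentiableAt ℂ (p ∘ (chartAt (E n) y).symm) (chartAt (E n) y y)) :
    ∀ᶠ z in 𝓝 (chartAt (E n) x x), J p x z = D p ((chartAt (E n) x).symm z) * jacAt n X x z := by
  filter_upwards [((chartAt (E n) x).tendsto_symm (mem_chart_source _ x)).eventually hd,
    chart_target_mem_nhds (E n) x] with z h1 h2
  obtain ⟨y, hy, rfl⟩ : ∃ y ∈ (chartAt (E n) x).source, chartAt (E n) x y = z :=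
    ⟨_, (chartAt (E n) x).map_target h2, (chartAt (E n) x).right_inv h2⟩
  have h4 := mem_chart_source (E n) y
  have h5 : (chartAt (E n) y ∘ (chartAt (E n) x).symm) (chartAt (E n) x y) =
      chartAt (E n) y y := by rw [Function.comp_apply, (chartAt (E n) x).left_inv hy]
  rw [(chartAt (E n) x).left_inv hy] at h1
  rw [J, D, J, jacAt, (chartAt (E n) x).left_inv hy, (AT1.comp_change p y x h4 hy).fderiv_eq,
    fderiv_comp _ (by rw [h5]; exact h1) (AT1.chart_change y x h4 hy), AT1.det_comp, h5]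

theorem lift_chart {β : Type} (G : X → β) {p : X → E n} {x : X} (h : LocH p x) :
    G ∘ (chartAt (E n) x).symm =ᶠ[𝓝 (chartAt (E n) x x)]
      (G ∘ lift p x) ∘ (p ∘ (chartAt (E n) x).symm) := by
  filter_upwards [((chartAt (E n) x).tendsto_symm (mem_chart_source _ x)).eventually h.lift_p]
    with z hz
  simp only [Function.comp_apply, hz]

theorem centre (p : X → E n) (x : X) : (p ∘ (chartAt (E n) x).symm) (chartAt (E n) x x) = p x := by
  rw [Function.comp_apply, (chartAt (E n) x).left_inv (mem_chart_source _ x)]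

variable {C : Ctx n} [ChartedSpace (E n) C.X] {i j : C.ι} {x : C.X} {a : ℕ}

theorem hol_iff (hc : Cmp C.P) (hi : x ∈ C.P.U i) (f : C.X → ℂ) : Hol (C.P.p i) f x ↔
    DifferentiableAt ℂ (f ∘ (chartAt (E n) x).symm) (chartAt (E n) x x) := by
  have h := (C.good.rd i).locH hi
  constructor
  · intro hf
    refine (DifferentiableAt.comp _ ?_ (hc i x hi).1.self_of_nhds).congr_of_eventuallyEq
      (lift_chart f h)
    rw [centre]
    exact hf
  · intro hf
    refine (DifferentiableAt.comp _ ?_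
      (AT1.inverse (hc i x hi).1 (hc i x hi).2).2.self_of_nhds).congr_of_eventuallyEq
      (AT1.comp_lift f h)
    rw [Function.comp_apply, h.lift_self]
    exact hf

theorem D_eq (hc : Cmp C.P) (hi : x ∈ C.P.U i) (hj : x ∈ C.P.U j) :
    D (C.P.p i) x = C.P.d i j x * D (C.P.p j) x := by
  rw [D, J, (lift_chart (C.P.p i) ((C.good.rd j).locH hj)).fderiv_eq,
    fderiv_comp _ (by rw [centre]; exact C.good.hol i j x hi hj) (hc j x hj).1.self_of_nhds,
    AT1.det_comp, centre]
  rfl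

theorem near (hi : x ∈ C.P.U i) :
    ∀ᶠ z in 𝓝 (chartAt (E n) x x), (chartAt (E n) x).symm z ∈ C.P.U i :=
  ((chartAt (E n) x).tendsto_symm (mem_chart_source _ x)).eventually
    ((C.good.rd i).opn.mem_nhds hi)

theorem J_near [IsManifold 𝓘(ℂ, E n) ω C.X] (hc : Cmp C.P) (hi : x ∈ C.P.U i) :
    ∀ᶠ z in 𝓝 (chartAt (E n) x x), J (C.P.p i) x z =
      D (C.P.p i) ((chartAt (E n) x).symm z) * jacAt n C.X x z :=
  J_eq (by
    filter_upwards [(C.good.rd i).opn.mem_nhds hi] with y hy using (hc i y hy).1.self_of_nhds)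

/-- The coefficient in the preferred chart. -/
def co (a : ℕ) (g : C.ι → C.X → ℂ) (x : C.X) : ℂ :=
  g (C.base.ix x) x * D (C.P.p (C.base.ix x)) x ^ a

theorem co_eq (hc : Cmp C.P) {g : C.ι → C.X → ℂ} (hg : g ∈ C.base.Sec a 0) (hi : x ∈ C.P.U i) :
    co a g x = g i x * D (C.P.p i) x ^ a := by
  have hj : x ∈ C.P.U (C.base.ix x) := C.base.mem_ix x
  have h := hg.cmp i (C.base.ix x) x hi hj
  rw [co, D_eq hc hi hj, h, pow_zero, mul_one, mul_pow, mul_assoc]

theorem co_mem [IsManifold 𝓘(ℂ, E n) ω C.X] (hc : Cmp C.P) {g : C.ι → C.X → ℂ}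
    (hg : g ∈ C.base.Sec a 0) : co a g ∈ Pluri n C.X a := by
  intro x
  obtain ⟨i, hi⟩ := C.good.cov x
  have h1 := (hol_iff hc hi (g i)).1 (hg.hol i x hi)
  refine (h1.mul ((J_diff (hc i x hi).1).pow a)).congr_of_eventuallyEq ?_
  filter_upwards [near hi, J_near hc hi] with z h2 h3
  simp only [Pi.mul_apply, Pi.pow_apply, Function.comp_apply]
  rw [co_eq hc hg h2, h3, mul_pow, mul_assoc]

/-- The coefficients in the étale charts. -/
def oc (a : ℕ) (s : C.X → ℂ) (i : C.ι) (x : C.X) : ℂ :=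
  if x ∈ C.P.U i then s x / D (C.P.p i) x ^ a else 0

theorem oc_mem [IsManifold 𝓘(ℂ, E n) ω C.X] (hc : Cmp C.P) {s : C.X → ℂ}
    (hs : s ∈ Pluri n C.X a) : oc a s ∈ C.base.Sec a 0 := by
  refine ⟨fun i x hi => ?_, fun i j x hi hj => ?_, fun i x hi => if_neg hi⟩
  · have hJ := J_diff (hc i x hi).1
    have h0 : J (C.P.p i) x (chartAt (E n) x x) ≠ 0 := (hc i x hi).2
    refine (hol_iff hc hi _).2
      (((hs x).mul ((hJ.pow a).inv (pow_ne_zero a h0))).congr_of_eventuallyEq ?_)
    filter_upwards [near hi, J_near hc hi, hJ.continuousAt.eventually_ne h0] with z h2 h3 h4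
    simp only [Pi.mul_apply, Pi.inv_apply, Pi.pow_apply, Function.comp_apply]
    rw [h3] at h4
    rw [oc, if_pos h2, h3, mul_pow, ← div_eq_mul_inv,
      mul_div_mul_right _ _ (pow_ne_zero a (right_ne_zero_of_mul h4))]
  · have h0 : C.P.d i j x ^ a ≠ 0 := pow_ne_zero a (C.good.d0 i j x hi hj)
    show oc a s j x = oc a s i x * C.P.d i j x ^ a * C.P.ξ i j x ^ 0
    rw [oc, oc, if_pos hi, if_pos hj, D_eq hc hi hj, pow_zero, mul_one, mul_pow,
      div_mul_eq_mul_div, mul_comm (s x), mul_div_mul_left _ _ h0]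

/-- The comparison map. -/
def cmp [IsManifold 𝓘(ℂ, E n) ω C.X] (hc : Cmp C.P) (a : ℕ) :
    C.base.Sec a 0 →ₗ[ℂ] Pluri n C.X a where
  toFun g := ⟨co a g.1, co_mem hc g.2⟩
  map_add' _ _ := Subtype.ext (funext fun _ => add_mul _ _ _)
  map_smul' _ _ := Subtype.ext (funext fun _ => mul_assoc _ _ _)

end BRP

theorem stBRP0 : St_BRP := by
  intro n C _ _ hc a
  refine (LinearEquiv.ofBijective (BRP.cmp hc a) ⟨?_, fun s => ?_⟩).finrank_eq
  · refine (injective_iff_map_eq_zero _).2 fun g hg => Subtype.ext (funext fun i => funext fun x => ?_)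
    by_cases hi : x ∈ C.P.U i
    · have h1 := (BRP.co_eq (C := C) hc g.2 hi).symm.trans (congrFun (congrArg Subtype.val hg) x)
      exact (mul_eq_zero.1 h1).resolve_right (pow_ne_zero a (hc i x hi).2)
    · exact g.2.off i x hi
  · refine ⟨⟨BRP.oc a s.1, BRP.oc_mem hc s.2⟩, Subtype.ext (funext fun x => ?_)⟩
    have hj : x ∈ C.P.U (C.base.ix x) := C.base.mem_ix x
    show BRP.co a (BRP.oc a s.1) x = s.1 x
    rw [BRP.co, BRP.oc, if_pos hj]
    exact div_mul_cancel₀ _ (pow_ne_zero a (hc _ x hj).2)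

theorem stBRP (_hSMO : St_SMO) (_hTR : St_TR) : St_BRP := stBRP0

end Pool.Agent.Lib.SV
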