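import Pool.Agent.Lib.SV.Blue2
import Pool.Agent.Lib.SV.B_FRZ
import Pool.Agent.Lib.SV.Top10

/-! Many disjoint small ellipsoids near a compact set. -/

open scoped Classical Topology ENNReal
open Set MeasureTheory Complex Filter Metric

noncomputable section

namespace Pool.Agent.Lib.SV

theorem stCELL : St_CELL := by
  intro n
  set v : ℝ := (volume (ball (0 : E n) 1)).toReal + 1 with hv
  have hv0 : 0 < v := by positivity
  have hvb : volume (ball (0 : E n) 1) ≤ ENNReal.ofReal v := by
    rw [← ENNReal.ofReal_toReal (measure_ball_lt_top (μ := volume) (x := (0 : E n)) (r := 1)).ne]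
    exact ENNReal.ofReal_le_ofReal (by linarith)
  refine ⟨1 / (25 ^ n * v), by positivity, fun P K O R hK hO hKO hR => ?_⟩
  obtain ⟨δ, hδ, hδO⟩ := hK.exists_cthickening_subset_open hO hKO
  set c : ℝ := ‖(P.symm : E n →L[ℂ] E n)‖ with hc
  have hc0 : 0 ≤ c := norm_nonneg _
  have ht : Tendsto (fun k : ℕ => c * Real.sqrt (R / k)) atTop (𝓝 0) := by
    have := ((tendsto_const_div_atTop_nhds_zero_nat R).sqrt).const_mul c
    simpa using this
  filter_upwards [ht.eventually (gt_mem_nhds hδ), eventually_gt_atTop 0] with k hk hk0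
  have hk1 : (0 : ℝ) < k := Nat.cast_pos.2 hk0
  set ρ := Real.sqrt (R / k) with hρ
  have hρ0 : 0 < ρ := Real.sqrt_pos.2 (by positivity)
  have hρ2 : ρ ^ 2 = R / k := Real.sq_sqrt (by positivity)
  have hell : ∀ y z, nsq (P (z - y)) ≤ R / k → ‖P (z - y)‖ ≤ ρ := fun y z h =>
    Real.le_sqrt_of_sq_le ((FRZ.norm_sq_le _).trans h)
  obtain ⟨u, huK, hud, hcov⟩ := Vitali.exists_disjoint_subfamily_covering_enlargement_closedBall
    K (fun y => P y) (fun _ => ρ) ρ (fun _ _ => le_rfl) 4 (by norm_num)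
  obtain ⟨S, hSu, hS, hKS⟩ := hK.elim_finite_subcover_image (b := u)
    (c := fun y => P ⁻¹' ball (P y) (5 * ρ)) (fun y _ => isOpen_ball.preimage P.continuous)
    (fun a ha => by
      obtain ⟨b, hb, h⟩ := hcov a ha
      exact mem_biUnion hb (closedBall_subset_ball (by linarith) (h (mem_closedBall_self hρ0.le))))
  refine ⟨hS.toFinset, fun y hy z hz => hδO ?_, fun y hy y' hy' hne => ?_, ?_⟩
  · rw [hS.mem_toFinset] at hy
    refine mem_cthickening_of_dist_le z y δ K (huK (hSu hy)) ?_
    have h1 := (P.symm : E n →L[ℂ] E n).le_opNorm (P (z - y))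
    simp only [ContinuousLinearEquiv.coe_coe, ContinuousLinearEquiv.symm_apply_apply] at h1
    rw [dist_eq_norm]
    exact h1.trans ((mul_le_mul_of_nonneg_left (hell y z hz) hc0).trans hk.le)
  · rw [hS.mem_toFinset] at hy hy'
    refine Set.disjoint_left.2 fun z h1 h2 => ?_
    have hd : Disjoint (closedBall (P y) ρ) (closedBall (P y') ρ) := hud (hSu hy) (hSu hy') hne
    refine Set.disjoint_left.1 hd (show P z ∈ _ from ?_) ?_
    · rw [mem_closedBall, dist_eq_norm, ← map_sub]
      exact hell y z h1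
    · rw [mem_closedBall, dist_eq_norm, ← map_sub]
      exact hell y' z h2
  · have h1 := Measure.addHaar_image_linearMap volume ((P : E n →ₗ[ℂ] E n).restrictScalars ℝ) K
    have e : LinearMap.det ((P : E n →ₗ[ℂ] E n).restrictScalars ℝ) =
        normSq (P : E n →L[ℂ] E n).det := T10.det_real _
    rw [e, abs_of_nonneg (normSq_nonneg _)] at h1
    have h2 : ((P : E n →ₗ[ℂ] E n).restrictScalars ℝ) '' K ⊆
        ⋃ y ∈ hS.toFinset, ball (P y) (5 * ρ) := by
      rintro _ ⟨a, ha, rfl⟩
      obtain ⟨y, hy, h⟩ := mem_iUnion₂.1 (hKS ha)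
      exact mem_biUnion (hS.mem_toFinset.2 hy) h
    have hfr : Module.finrank ℝ (E n) = n * 2 := by
      rw [Module.finrank_eq_card_basis (T10.frB n), Fintype.card_fin]
    have h3 : ∀ y : E n, volume (ball (P y) (5 * ρ)) ≤ ENNReal.ofReal (25 ^ n * (R / k) ^ n * v) := by
      intro y
      rw [Measure.addHaar_ball_of_pos volume _ (by positivity), hfr,
        ENNReal.ofReal_mul (by positivity), mul_comm n 2, pow_mul, mul_pow, hρ2, mul_pow]
      norm_num
      exact mul_le_mul_right hvb _
    have h4 := (measure_mono h2).trans ((measure_biUnion_finset_le _ _).trans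
      (Finset.sum_le_sum fun y _ => h3 y))
    rw [h1, Finset.sum_const, nsmul_eq_mul] at h4
    have e2 : 1 / (25 ^ n * v) * normSq (P : E n →L[ℂ] E n).det * (k / R) ^ n =
        1 / (25 ^ n * v) * (k / R) ^ n * normSq (P : E n →L[ℂ] E n).det := by ring
    rw [e2, ENNReal.ofReal_mul (by positivity), mul_assoc]
    refine (mul_le_mul_right h4 _).trans (le_of_eq ?_)
    rw [mul_left_comm, ← ENNReal.ofReal_mul (by positivity)]
    have e3 : 1 / (25 ^ n * v) * (k / R) ^ n * (25 ^ n * (R / k) ^ n * v) = 1 := by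
      rw [div_pow, div_pow]
      field_simp
    rw [e3, ENNReal.ofReal_one, mul_one]

end Pool.Agent.Lib.SV
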