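import Pool.Agent.Lib.SV.Blue2

open scoped Classical Topology ENNReal
open Set MeasureTheory Complex Filter

noncomputable section

namespace Pool.Agent.Lib.SV

namespace CHI

theorem bd : ∃ K : ℝ, ∀ t, deriv Real.smoothTransition t ^ 2 ≤ K := by
  have hc : Continuous (deriv Real.smoothTransition) :=
    (Real.smoothTransition.contDiff (n := 1)).continuous_deriv le_rfl
  obtain ⟨K, hK⟩ := (isCompact_Icc (a := (0 : ℝ)) (b := 1)).bddAbove_image
    (hc.pow 2).continuousOn
  refine ⟨K, fun t => ?_⟩
  have h0 : 0 ≤ K := (sq_nonneg _).trans (hK ⟨0, ⟨le_rfl, zero_le_one⟩, rfl⟩)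
  rcases lt_or_ge t 0 with h | h
  · have e : Real.smoothTransition =ᶠ[𝓝 t] fun _ => 0 := by
      filter_upwards [Iio_mem_nhds h] with s hs using Real.smoothTransition.zero_of_nonpos hs.le
    rw [e.deriv_eq]
    simpa using h0
  rcases lt_or_ge 1 t with h' | h'
  · have e : Real.smoothTransition =ᶠ[𝓝 t] fun _ => 1 := by
      filter_upwards [Ioi_mem_nhds h'] with s hs using Real.smoothTransition.one_of_one_le hs.le
    rw [e.deriv_eq]
    simpa using h0
  · exact hK ⟨t, ⟨h, h'⟩, rfl⟩

end CHI

theorem stCHI : St_CHI := by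
  intro n C ρ hρ
  obtain ⟨K, hK⟩ := CHI.bd
  obtain ⟨M, hM⟩ := hρ.bd
  have hK0 : 0 ≤ K := (sq_nonneg _).trans (hK 0)
  refine ⟨K * M, fun R hR => ?_⟩
  have hR0 : 0 < R := by linarith
  let u : ℝ → ℝ := fun t => Real.smoothTransition (2 - t / R)
  have hu : ContDiff ℝ 2 u :=
    Real.smoothTransition.contDiff.comp (contDiff_const.sub (contDiff_id.div_const R))
  have hd : ∀ t, deriv u t = -(deriv Real.smoothTransition (2 - t / R) / R) := fun t => by
    have h1 : HasDerivAt (fun t : ℝ => 2 - t / R) (-(1 / R)) t :=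
      ((hasDerivAt_id t).div_const R).const_sub 2
    have h2 := (((Real.smoothTransition.contDiff (n := 1)).differentiable one_ne_zero)
      (2 - t / R)).hasDerivAt.comp t h1
    rw [show u = Real.smoothTransition ∘ fun t : ℝ => 2 - t / R from rfl, h2.deriv]
    ring
  refine ⟨fun y => u (ρ y), fun i y hy => hu.contDiffAt.comp _ (hρ.sm i y hy),
    fun y => ⟨Real.smoothTransition.nonneg _, Real.smoothTransition.le_one _⟩, fun y h => ?_,
    fun y h => ?_, fun i y hy v => ?_⟩
  · refine Real.smoothTransition.one_of_one_le ?_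
    have := (div_le_one hR0).2 h
    linarith
  · refine Real.smoothTransition.zero_of_nonpos ?_
    have := (le_div_iff₀ hR0).2 h
    linarith
  · have h1 : Sm (C.q i) 1 ρ y := ContDiffAt.of_le (hρ.sm i y hy) (by norm_num)
    have h2 := fun w => dd_comp (Ctx.locH hy) h1 (u := u)
      ((hu.differentiable (by norm_num)) _) w
    have h3 : grd (C.q i) (fun y => u (ρ y)) y v =
        deriv Real.smoothTransition (2 - ρ y / R) ^ 2 / R ^ 2 * grd (C.q i) ρ y v := by
      rw [grd, grd, h2, h2, hd]
      ring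
    rw [h3, show K * M / R ^ 2 * C.om i y v = K / R ^ 2 * (M * C.om i y v) by ring]
    exact mul_le_mul (div_le_div_of_nonneg_right (hK _) (by positivity)) (hM i y hy v).1
      (grd_nonneg v) (by positivity)

end Pool.Agent.Lib.SV
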