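import Pool.Agent.Lib.SV.Blue2

/-! Row CNT: the mass of a positive weight is bounded by the number of sections. -/

open scoped Classical Topology ENNReal
open Set MeasureTheory Complex Filter Metric

noncomputable section

namespace Pool.Agent.Lib.SV

namespace CNT

theorem pieces {X : Type} [MeasurableSpace X] {m : ℕ} (Q : Fin m → Set X)
    (hQ : ∀ i, MeasurableSet (Q i)) : ∃ B : Fin m → Set X,
    (∀ i, MeasurableSet (B i) ∧ B i ⊆ Q i) ∧ (Pairwise fun i j => Disjoint (B i) (B j)) ∧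
      ∀ i, ∀ x ∈ Q i, ∃ j, x ∈ B j := by
  refine ⟨fun i => Q i \ ⋃ j, ⋃ (_ : j < i), Q j, fun i => ⟨(hQ i).diff
    (MeasurableSet.iUnion fun j => MeasurableSet.iUnion fun _ => hQ j), diff_subset⟩, ?_, ?_⟩
  · intro i j hij
    rw [Set.disjoint_left]
    rintro x ⟨hi, hi'⟩ ⟨hj, hj'⟩
    rcases lt_or_gt_of_ne hij with h | h
    · exact hj' (mem_iUnion₂.2 ⟨i, h, hi⟩)
    · exact hi' (mem_iUnion₂.2 ⟨j, h, hj⟩)
  · intro i x hx
    obtain ⟨j, hj, hm⟩ := (wellFounded_lt (α := Fin m)).has_min {j | x ∈ Q j} ⟨i, hx⟩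
    refine ⟨j, hj, fun h => ?_⟩
    obtain ⟨l, hl, hx'⟩ := mem_iUnion₂.1 h
    exact hm l hx' hl

theorem sepfam {X ι : Type} [TopologicalSpace X] [T2Space X] [Finite ι] (K : ι → Set X)
    (hK : ∀ i, IsCompact (K i)) (hd : Pairwise fun i j => Disjoint (K i) (K j)) :
    ∃ O : ι → Set X, (∀ i, IsOpen (O i) ∧ K i ⊆ O i) ∧
      Pairwise fun i j => Disjoint (O i) (O j) := by
  have H : ∀ i j, ∃ U V : Set X, IsOpen U ∧ IsOpen V ∧ K i ⊆ U ∧ K j ⊆ V ∧
      (i ≠ j → Disjoint U V) := by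
    intro i j
    by_cases h : i = j
    · exact ⟨univ, univ, isOpen_univ, isOpen_univ, subset_univ _, subset_univ _,
        fun h' => (h' h).elim⟩
    · obtain ⟨U, V, a, b, c, d, e⟩ := SeparatedNhds.of_isCompact_isCompact (hK i) (hK j) (hd h)
      exact ⟨U, V, a, b, c, d, fun _ => e⟩
  choose U V a b c d e using H
  refine ⟨fun i => ⋂ j, U i j ∩ V j i, fun i => ⟨isOpen_iInter_of_finite fun j =>
    (a i j).inter (b j i), subset_iInter fun j => subset_inter (c i j) (d j i)⟩, ?_⟩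
  intro i j hij
  exact (e i j hij).mono ((iInter_subset _ j).trans inter_subset_left)
    ((iInter_subset _ i).trans inter_subset_right)

theorem half {n : ℕ} {B : Set (E n)} (hB : MeasurableSet B) (hf : volume B ≠ ∞) :
    ∃ K, K ⊆ B ∧ IsCompact K ∧ volume B ≤ 2 * volume K := by
  by_cases h0 : volume B = 0
  · exact ⟨∅, empty_subset _, isCompact_empty, by simp [h0]⟩
  obtain ⟨K, a, b, c⟩ := hB.exists_lt_isCompact_of_ne_top hf (ENNReal.half_lt_self h0 hf)
  refine ⟨K, a, b, ?_⟩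
  rw [two_mul, ← ENNReal.add_halves (volume B)]
  exact add_le_add c.le c.le

theorem img {n : ℕ} {X : Type} [TopologicalSpace X] [MeasurableSpace X] [BorelSpace X]
    {p : X → E n} {W : Set X} {e : OpenPartialHomeomorph X (E n)} (he : Cht p W e) {A : Set X}
    (hA : MeasurableSet A) (hs : A ⊆ e.source) :
    p '' A = e.target ∩ e.symm ⁻¹' A ∧ MeasurableSet (p '' A) := by
  have h1 : p '' A = e.target ∩ e.symm ⁻¹' A := by
    ext z
    constructor
    · rintro ⟨x, hx, rfl⟩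
      exact ⟨he.mem_target (hs hx), by simpa [he.symm_p (hs hx)] using hx⟩
    · rintro ⟨hz, hz'⟩
      exact ⟨_, hz', he.p_symm hz⟩
  refine ⟨h1, ?_⟩
  have h2 : MeasurableSet ((e.target.restrict e.symm) ⁻¹' A) :=
    (continuousOn_iff_continuous_restrict.1 e.continuousOn_symm).measurable hA
  have h3 := MeasurableSet.subtype_image e.open_target.measurableSet h2
  have h4 : (Subtype.val '' ((e.target.restrict e.symm) ⁻¹' A)) = e.target ∩ e.symm ⁻¹' A := by
    ext z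
    constructor
    · rintro ⟨w, hw, rfl⟩
      exact ⟨w.2, hw⟩
    · rintro ⟨hz, hz'⟩
      exact ⟨⟨z, hz⟩, hz', rfl⟩
  rw [h1, ← h4]
  exact h3

theorem nsq_zero {n : ℕ} : nsq (0 : E n) = 0 := by simp [nsq]

end CNT

open CNT in
theorem stCNT (hCNT1 : St_CNT1) (hCELL : St_CELL) (hRM : St_RM) : St_CNT := by
  intro n hn
  obtain ⟨L0, hL0, H1⟩ := hCNT1 n hn
  obtain ⟨c0, hc0, H2⟩ := hCELL n
  refine ⟨c0 / (2 * L0 ^ n), by positivity, ?_⟩
  intro C a b a' b' σ Φ ϖ K A L hσ hσ0 hs hΦ hM hK hKs hA hAK hL hP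
  have ho := C.isOpen_nz hσ
  have hrd : RD (C.P.p C.o) (C.nz a' b' σ) := (C.good.rd C.o).mono ho hs
  have H3 : ∀ x : K, ∃ (P : E n ≃L[ℂ] E n) (e : OpenPartialHomeomorph C.X (E n)),
      Cht (C.P.p C.o) (C.nz a' b' σ) e ∧ x.1 ∈ e.source ∧ ∀ x' ∈ e.source,
        LU (C.P.p C.o) (fun z => Φ z - nsq (P (C.P.p C.o z))) x' ∧
        (x' ∈ A → |ϖ x'| ≤ L * normSq (P : E n →L[ℂ] E n).det) := by
    intro x
    obtain ⟨P, hP'⟩ := hP x.1 x.2
    obtain ⟨e, a1, a2, a3⟩ := hrd.exists_cht (hKs x.2) hP'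
    exact ⟨P, e, a1, a2, fun x' hx' => a3 hx'⟩
  choose P0 e0 a1 a2 a3 using H3
  obtain ⟨t, ht⟩ := hK.elim_nhds_subcover' (fun x hx => (e0 ⟨x, hx⟩).source)
    fun x hx => (e0 ⟨x, hx⟩).open_source.mem_nhds (a2 ⟨x, hx⟩)
  obtain ⟨m, P, e, he, hloc, hcov⟩ : ∃ (m : ℕ) (P : Fin m → E n ≃L[ℂ] E n)
      (e : Fin m → OpenPartialHomeomorph C.X (E n)),
      (∀ i, Cht (C.P.p C.o) (C.nz a' b' σ) (e i)) ∧ (∀ i, ∀ x' ∈ (e i).source,
        LU (C.P.p C.o) (fun z => Φ z - nsq (P i (C.P.p C.o z))) x' ∧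
        (x' ∈ A → |ϖ x'| ≤ L * normSq (P i : E n →L[ℂ] E n).det)) ∧
      ∀ x ∈ K, ∃ i, x ∈ (e i).source := by
    refine ⟨t.card, fun i => P0 (t.equivFin.symm i).1, fun i => e0 (t.equivFin.symm i).1,
      fun i => a1 _, fun i => a3 _, fun x hx => ?_⟩
    obtain ⟨y, hy, hx'⟩ := mem_iUnion₂.1 (ht hx)
    exact ⟨t.equivFin ⟨y, hy⟩, by simpa using hx'⟩
  obtain ⟨B, hB, hBd, hBc⟩ := pieces (fun i => (e i).source) fun i => (e i).open_source.measurableSet
  obtain ⟨hR, -, -, -, -, -, hfin, -⟩ :=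
    hRM n (C.base.dom C.o (C.base.W C.o) (C.base.rd C.o).opn subset_rfl)
  have hAm : ∀ i, MeasurableSet (A ∩ B i) := fun i => hA.inter (hB i).1
  have hAs : ∀ i, A ∩ B i ⊆ (e i).source := fun i => inter_subset_right.trans (hB i).2
  have hμ : ∀ i, C.base.leb C.o (A ∩ B i) = volume (C.P.p C.o '' (A ∩ B i)) := by
    intro i
    refine hR.inj _ (hAm i) (fun x hx => hs (hKs (hAK hx.1))) fun x hx y hy hxy => ?_
    have h1 := (he i).symm_p (hAs i hx)
    have h2 := (he i).symm_p (hAs i hy)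
    have h3 : C.P.p C.o x = C.P.p C.o y := hxy
    rw [← h1, ← h2, h3]
  have hKf : C.base.leb C.o K ≠ ∞ := hfin K hK fun x hx => hs (hKs hx)
  have H4 : ∀ i, ∃ K', K' ⊆ C.P.p C.o '' (A ∩ B i) ∧ IsCompact K' ∧
      volume (C.P.p C.o '' (A ∩ B i)) ≤ 2 * volume K' := fun i =>
    half (img (he i) (hAm i) (hAs i)).2 (by
      rw [← hμ i]
      exact ne_top_of_le_ne_top hKf (measure_mono (inter_subset_left.trans hAK)))
  choose K' k1 k2 k3 using H4
  have k4 : ∀ i, K' i ⊆ (e i).target ∩ (e i).symm ⁻¹' (A ∩ B i) := fun i => by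
    rw [← (img (he i) (hAm i) (hAs i)).1]
    exact k1 i
  obtain ⟨O, hO, hOd⟩ := sepfam (fun i => (e i).symm '' K' i)
    (fun i => (k2 i).image_of_continuousOn
      ((e i).continuousOn_symm.mono fun z hz => (k4 i hz).1))
    fun i j hij => (hBd hij).mono (by
      rintro _ ⟨z, hz, rfl⟩
      exact (k4 i hz).2.2) (by
      rintro _ ⟨z, hz, rfl⟩
      exact (k4 j hz).2.2)
  have H5 := eventually_all.2 fun i => H2 (P i) (K' i) ((e i).target ∩ (e i).symm ⁻¹' O i) L0 (k2 i)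
    ((e i).isOpen_inter_preimage_symm (hO i).1)
    (fun z hz => ⟨(k4 i hz).1, (hO i).2 ⟨z, hz, rfl⟩⟩) hL0
  filter_upwards [H5, eventually_gt_atTop 0] with k hk hk0
  choose S s1 s2 s3 using hk
  have hk' : (0 : ℝ) < k := by exact_mod_cast hk0
  have hr : Real.sqrt (L0 / k) ^ 2 = L0 / k := Real.sq_sqrt (by positivity)
  have hmem : ∀ i, ∀ z ∈ S i, z ∈ (e i).target := fun i z hz =>
    (s1 i z hz (by
      show nsq (P i (z - z)) ≤ L0 / k
      rw [sub_self, map_zero, nsq_zero]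
      positivity)).1
  have hcard : Fintype.card (Σ i, S i) ≤ C.h0 (1 + k * a) (1 + k * b) := by
    refine H1 C (k * a) (k * b) a' b' σ hσ hs (fun x => k * Φ x) (Σ i, S i)
      (fun j => (e j.1).symm j.2.1) (fun j => P j.1) (fun _ => Real.sqrt (L0 / k))
      (fun j => (e j.1).source ∩ {x | nsq (P j.1 (C.P.p C.o x - j.2.1)) ≤ L0 / k}) hσ0
      (fun x hx => (hΦ x hx).const_mul hk'.le) ?_ ⟨fun _ => by positivity, ?_, ?_⟩ ?_
    · obtain ⟨M, hM⟩ := hM
      refine ⟨k * M, fun x hx => ?_⟩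
      have h1 := mul_le_mul_of_nonneg_left (hM x hx) hk'.le
      simp only [Ctx.wt] at h1 ⊢
      push_cast
      linarith
    · rintro ⟨i, z, hz⟩
      have h1 : C.P.p C.o ((e i).symm z) = z := (he i).p_symm (hmem i z hz)
      refine ⟨e i, he i, (e i).map_target (hmem i z hz), ?_, ?_⟩
      · show {w | nsq (P i (w - C.P.p C.o ((e i).symm z))) ≤ Real.sqrt (L0 / k) ^ 2} ⊆ _
        rw [h1, hr]
        exact fun w hw => (s1 i z hz hw).1
      · show _ = (e i).source ∩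
          {x | nsq (P i (C.P.p C.o x - C.P.p C.o ((e i).symm z))) ≤ Real.sqrt (L0 / k) ^ 2}
        rw [h1, hr]
    · rintro ⟨i, z, hz⟩ ⟨j, w, hw⟩ hne
      rw [Set.disjoint_left]
      rintro x ⟨x1, x2⟩ ⟨x3, x4⟩
      by_cases hij : i = j
      · subst hij
        have hzw : z ≠ w := fun h => hne (by subst h; rfl)
        exact Set.disjoint_left.1 (s2 i z hz w hw hzw) x2 x4
      · have h1 := (s1 i z hz x2).2
        have h2 := (s1 j w hw x4).2
        rw [mem_preimage, (he i).symm_p x1] at h1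
        rw [mem_preimage, (he j).symm_p x3] at h2
        exact Set.disjoint_left.1 (hOd hij) h1 h2
    · rintro ⟨i, z, hz⟩ x hx
      have h1 := (hloc i x hx.1).1.const_mul hk'.le
      have h2 : L0 / Real.sqrt (L0 / k) ^ 2 = k := by
        rw [hr]
        field_simp
      simp only [h2]
      simpa only [mul_sub] using h1
  have hint : ∫⁻ x in A, ENNReal.ofReal |ϖ x| ∂C.base.leb C.o ≤
      ∑ i, ENNReal.ofReal (L * normSq (P i : E n →L[ℂ] E n).det) * (2 * volume (K' i)) := by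
    have h1 : A ⊆ ⋃ i, A ∩ B i := fun x hx => by
      obtain ⟨i, hi⟩ := hcov x (hAK hx)
      obtain ⟨j, hj⟩ := hBc i x hi
      exact mem_iUnion.2 ⟨j, hx, hj⟩
    refine (lintegral_mono_set h1).trans ((lintegral_iUnion_le _ _).trans ?_)
    rw [tsum_fintype]
    refine Finset.sum_le_sum fun i _ => ?_
    refine (setLIntegral_mono' (hAm i) fun x hx =>
      ENNReal.ofReal_le_ofReal ((hloc i x (hAs i hx)).2 hx.1)).trans ?_
    rw [setLIntegral_const, hμ i]
    exact mul_le_mul_right (k3 i) _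
  refine (mul_le_mul_right hint _).trans ?_
  rw [Finset.mul_sum]
  have h6 : ∀ i, ENNReal.ofReal (c0 / (2 * L0 ^ n) * k ^ n) *
      (ENNReal.ofReal (L * normSq (P i : E n →L[ℂ] E n).det) * (2 * volume (K' i))) ≤
      ENNReal.ofReal L * ((S i).card : ℝ≥0∞) := by
    intro i
    refine le_trans (le_of_eq ?_) (mul_le_mul_right (s3 i) _)
    have hn0 := normSq_nonneg (P i : E n →L[ℂ] E n).det
    rw [← mul_assoc, ← mul_assoc, ← mul_assoc, ← ENNReal.ofReal_ofNat 2,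
      ← ENNReal.ofReal_mul (by positivity), ← ENNReal.ofReal_mul (by positivity),
      ← ENNReal.ofReal_mul hL]
    congr 2
    rw [div_pow]
    field_simp
  refine (Finset.sum_le_sum fun i _ => h6 i).trans ?_
  rw [← Finset.mul_sum, ENNReal.ofReal_mul hL, ENNReal.ofReal_natCast]
  refine mul_le_mul_right ?_ _
  rw [Fintype.card_sigma] at hcard
  simp only [Fintype.card_coe] at hcard
  exact_mod_cast hcard

end Pool.Agent.Lib.SV
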