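import Pool.Agent.Lib.SV.B_FIN

/-! Number of conditions for a section to vanish on the hyperplane section. -/

open scoped Classical Topology ENNReal
open Set MeasureTheory Complex Filter Metric

noncomputable section

namespace Pool.Agent.Lib.SV

namespace DESC

open FIN

theorem ins_mem {m : ℕ} (k : Fin (m + 1)) {z : E (m + 1)} (hz : z k = 0) {w : E m} {ρ : ℝ}
    (hw : w ∈ ball (k.removeNth z) ρ) : (k.insertNth 0 w : E (m + 1)) ∈ ball z ρ := by
  have h0 : 0 < ρ := dist_nonneg.trans_lt hw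
  rw [mem_ball, dist_pi_lt_iff h0] at hw ⊢
  refine (Fin.forall_iff_succAbove k).2 ⟨?_, fun j => ?_⟩
  · simpa [hz] using h0
  · simpa [Fin.removeNth] using hw j

theorem rem_mem {m : ℕ} (k : Fin (m + 1)) {z z' : E (m + 1)} {ρ : ℝ} (hw : z' ∈ ball z ρ) :
    (k.removeNth z' : E m) ∈ ball (k.removeNth z : E m) ρ := by
  have h0 : 0 < ρ := dist_nonneg.trans_lt hw
  rw [mem_ball, dist_pi_lt_iff h0] at hw ⊢
  exact fun j => hw _

theorem diff_ins {m : ℕ} (k : Fin (m + 1)) :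
    Differentiable ℂ fun w : E m => (k.insertNth 0 w : E (m + 1)) := by
  refine differentiable_pi.2 ((Fin.forall_iff_succAbove k).2 ⟨?_, fun j => ?_⟩)
  · simp
  · simpa using differentiable_apply j

theorem restr (hSIE : St_SIE) (m : ℕ) (C : Ctx (m + 1)) : ∃ M : ℝ, 0 ≤ M ∧ ∀ a b : ℕ,
    ∃ (N : ℕ) (Φ : C.base.Sec a b →ₗ[ℂ] (Fin N → ℂ)), (N : ℝ) ≤ M * (a + b + 1) ^ m ∧
      ∀ s, Φ s = 0 → ∀ x, C.base.nr 0 1 C.P.l x = 0 → C.base.nr a b s x = 0 := by
  let H : Set C.X := {x | C.base.nr 0 1 C.P.l x = 0}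
  have hH : IsCompact H :=
    (isClosed_eq (Ctx.continuous_nr C.l_mem) continuous_const).isCompact
  have hz : ∀ {i x}, x ∈ C.P.U i → (x ∈ H ↔ C.P.l i x = 0) := fun hx =>
    Ctx.nr_eq_zero (C := C.base) C.l_mem hx
  have h0 : ∀ x : H, ∃ i, x.1 ∈ C.P.U i ∧ ∃ k, ∀ x' ∈ C.P.U i, C.P.l i x' = C.P.p i x' k :=
    fun x => (C.good.ber x).resolve_left fun ⟨i, hi, h⟩ => h ((hz hi).1 x.2)
  choose i hi k hk using h0
  choose e ρ B hρ hB he hx ht hb using fun x : H => loc C (i x) x (hi x)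
  obtain ⟨s, hs⟩ := hH.elim_nhds_subcover'
    (fun x hx => (e ⟨x, hx⟩).source ∩
      C.P.p (i ⟨x, hx⟩) ⁻¹' ball (C.P.p (i ⟨x, hx⟩) x) (ρ ⟨x, hx⟩)) fun x h =>
      inter_mem ((e _).open_source.mem_nhds (hx ⟨x, h⟩))
        (((C.good.rd _).locH (hi ⟨x, h⟩)).continuousAt.preimage_mem_nhds (ball_mem_nhds _ (hρ _)))
  have hc0 : ∀ x : H, C.P.p (i x) x (k x) = 0 := fun x => by
    rw [← hk x _ (hi x)]
    exact (hz (hi x)).1 x.2
  have hc : ∀ y ∈ H, ∃ x ∈ s, ∃ w ∈ ball ((k x).removeNth (C.P.p (i x) x) : E m) (ρ x),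
      (e x).symm ((k x).insertNth 0 w) = y := fun y hy => by
    obtain ⟨x, hxs, h⟩ := mem_iUnion₂.1 (hs hy)
    have hU := (he x).sub h.1
    have h1 : C.P.p (i x) y (k x) = 0 := by
      rw [← hk x _ hU]
      exact (hz hU).1 hy
    refine ⟨x, hxs, _, rem_mem (k x) h.2, ?_⟩
    rw [← h1, Fin.insertNth_self_removeNth]
    exact (he x).symm_p h.1
  set B₀ := ∑ x ∈ s, B x with hB₀
  have hbb : ∀ x ∈ s, ∀ w ∈ ball ((k x).removeNth (C.P.p (i x) x) : E m) (2 * ρ x),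
      |C.P.κ (i x) ((e x).symm ((k x).insertNth 0 w))| ≤ B₀ ∧
      |C.P.φ (i x) ((e x).symm ((k x).insertNth 0 w))| ≤ B₀ := fun x hxs w hw => by
    have := Finset.single_le_sum (f := B) (fun x _ => hB x) hxs
    have h := hb x _ (ins_mem (k x) (hc0 x) hw)
    exact ⟨h.1.trans this, h.2.trans this⟩
  have hT : ∀ x : H, ∀ w ∈ ball ((k x).removeNth (C.P.p (i x) x) : E m) (2 * ρ x),
      ((k x).insertNth 0 w : E (m + 1)) ∈ (e x).target := fun x w hw =>
    ht x (ins_mem (k x) (hc0 x) hw)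
  have hU : ∀ x : H, ∀ w ∈ ball ((k x).removeNth (C.P.p (i x) x) : E m) (2 * ρ x),
      (e x).symm ((k x).insertNth 0 w) ∈ C.P.U (i x) := fun x w hw =>
    (he x).sub ((e x).map_target (hT x w hw))
  have hh : ∀ x : H, ball ((k x).removeNth (C.P.p (i x) x) : E m) (ρ x) ⊆
      ball ((k x).removeNth (C.P.p (i x) x) : E m) (2 * ρ x) :=
    fun x => ball_subset_ball (by linarith [hρ x])
  obtain ⟨N, hN⟩ := pow_unbounded_of_one_lt (Real.exp B₀) (one_lt_two (α := ℝ))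
  refine ⟨s.card * (N + 2) ^ m, by positivity, fun a b => ?_⟩
  let r : s → C.base.Sec a b →ₗ[ℂ] E m → ℂ := fun x =>
    { toFun := fun v w => v.1 (i x) ((e x).symm ((k x).insertNth 0 w))
      map_add' := fun _ _ => rfl
      map_smul' := fun _ _ => rfl }
  refine (hSIE m (N * (a + b) + 2) (C.base.Sec a b) s r
    (fun x => (k x).removeNth (C.P.p (i x) x.1)) (fun x => ρ x) (Real.exp ((a + b) * B₀))
    (fun x => hρ x) (Real.exp_pos _).le ?_ ?_ ?_).elim fun Φ hΦ => ?_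
  rotate_right
  · refine ⟨_, (LinearEquiv.funCongrLeft ℂ ℂ (Fintype.equivFin _).symm).toLinearMap ∘ₗ Φ, ?_,
      fun v hv y hy => ?_⟩
    · rw [Fintype.card_prod, Fintype.card_coe, Fintype.card_fun, Fintype.card_fin,
        Fintype.card_fin]
      push_cast
      rw [mul_assoc, ← mul_pow]
      refine mul_le_mul_of_nonneg_left (pow_le_pow_left₀ (by positivity) ?_ _) (Nat.cast_nonneg _)
      have : (0 : ℝ) ≤ a + b := by positivity
      nlinarith [(Nat.cast_nonneg N : (0 : ℝ) ≤ N)]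
    · have hv' : Φ v = 0 := (LinearEquiv.map_eq_zero_iff
        (LinearEquiv.funCongrLeft ℂ ℂ (Fintype.equivFin _).symm)).1 hv
      obtain ⟨x, hx, w, hw, rfl⟩ := hc y hy
      exact (Ctx.nr_eq_zero v.2 (hU x w (hh x hw))).2 (hΦ v hv' ⟨x, hx⟩ w (hh x hw))
  · rw [← Nat.cast_add, Real.exp_nat_mul, pow_add (2 : ℝ), pow_mul]
    have h1 : Real.exp B₀ ^ (a + b) ≤ (2 ^ N) ^ (a + b) :=
      pow_le_pow_left₀ (Real.exp_pos _).le hN.le _
    have h2 : (0 : ℝ) < (2 ^ N) ^ (a + b) := by positivity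
    nlinarith
  · intro x v w hw
    have h1 := hT x w hw
    have h2 := ((he x).hol_iff ((e x).map_target h1)).1 (v.2.hol _ _ (hU x w hw))
    rw [(he x).p_symm h1] at h2
    exact (h2.comp w (diff_ins (k x) w)).differentiableWithinAt
  · intro v M hM h x w hw
    have hy0 : (e x).symm ((k x).insertNth 0 w) ∈ H := by
      rw [hz (hU x w hw), hk x _ (hU x w hw), (he x).p_symm (hT x w hw), Fin.insertNth_apply_same]
    obtain ⟨x', hx', w', hw', hy⟩ := hc _ hy0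
    have h1 := hbb x' hx' w' (hh x' hw')
    have h2 := hbb x x.2 w hw
    have h3 := hU x' w' (hh x' hw')
    have h4 := h ⟨x', hx'⟩ w' hw'
    change ‖v.1 _ ((e x').symm ((k x').insertNth 0 w'))‖ ≤ M at h4
    rw [hy] at h1 h3 h4
    exact (norm_le C v.2 h3 (hU x w hw) (abs_wt_le C h1.1 h1.2) (abs_wt_le C h2.1 h2.2)).trans
      (mul_le_mul_of_nonneg_left h4 (Real.exp_pos _).le)

end DESC

end Pool.Agent.Lib.SV
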