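import Pool.Agent.Lib.SV.Desc74
import Pool.Agent.Lib.SV.Desc95

/-! Restriction to a hyperplane section. -/

noncomputable section

namespace Pool.Agent.Lib.SV

theorem stDESC (hSIE : St_SIE) (hFIN : St_FIN) (hEXT : St_EXT) (hID : St_ID) (hVOL : St_VOL) :
    St_DESC := by
  intro m C
  obtain ⟨M, hM, h⟩ := DESC.restr hSIE m C
  refine ⟨M * 2 ^ m, fun a b => ?_⟩
  obtain ⟨N, Φ, hN, hΦ⟩ := h a (b + 1)
  have h1 := DESC.count C hFIN hEXT hID hVOL Φ hΦ
  rw [Module.finrank_fintype_fun_eq_card, Fintype.card_fin] at h1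
  have h2 : (C.h0 a (b + 1) : ℝ) ≤ C.h0 a b + N := by exact_mod_cast h1
  refine h2.trans (add_le_add le_rfl (hN.trans ?_))
  rw [mul_assoc, ← mul_pow]
  refine mul_le_mul_of_nonneg_left (pow_le_pow_left₀ (by positivity) ?_ _) hM
  have : (0 : ℝ) ≤ a + b := by positivity
  push_cast
  linarith

end Pool.Agent.Lib.SV
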