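import Pool.Agent.Lib.SV.Blue3

/-! The main estimate from its three regions. -/

open scoped Classical Topology ENNReal
open Set MeasureTheory Complex Filter Metric

noncomputable section

namespace Pool.Agent.Lib.SV

namespace EST

/-- The shells are disjoint. -/
theorem shell_eq {w M : ℝ} (hM : 0 < M) {i j : ℕ} (h1 : Real.exp (-((i + 1) * M)) ≤ w)
    (h2 : w < Real.exp (-(i * M))) (h3 : Real.exp (-((j + 1) * M)) ≤ w)
    (h4 : w < Real.exp (-(j * M))) : i = j := by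
  have a := Real.exp_lt_exp.1 (h1.trans_lt h4)
  have b := Real.exp_lt_exp.1 (h3.trans_lt h2)
  have a' : (j : ℝ) < i + 1 := lt_of_mul_lt_mul_right (by linarith) hM.le
  have b' : (i : ℝ) < j + 1 := lt_of_mul_lt_mul_right (by linarith) hM.le
  have a'' : j < i + 1 := by exact_mod_cast a'
  have b'' : i < j + 1 := by exact_mod_cast b'
  omega

/-- Three regions. -/
theorem three {X : Type} [MeasurableSpace X] (μ : Measure X) (g : X → ℝ) (A B D : Set X) {p : ℝ}
    (hp : 0 ≤ p) (hg : p = |∫ x, g x ∂μ|) (hc : ∀ x, x ∈ A ∨ x ∈ B ∨ x ∈ D)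
    (hB : ∫⁻ x in B, ENNReal.ofReal |g x| ∂μ ≤ ENNReal.ofReal (p / 4))
    (hD : ∫⁻ x in D, ENNReal.ofReal |g x| ∂μ ≤ ENNReal.ofReal (p / 4)) :
    ENNReal.ofReal (p / 2) ≤ ∫⁻ x in A, ENNReal.ofReal |g x| ∂μ := by
  have h1 : ENNReal.ofReal p ≤ ∫⁻ x, ENNReal.ofReal |g x| ∂μ := by
    have := enorm_integral_le_lintegral_enorm (μ := μ) g
    simp only [← ofReal_norm, Real.norm_eq_abs] at this
    rwa [hg]
  have h2 : (univ : Set X) = A ∪ (B ∪ D) := by
    ext x
    simpa using hc x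
  rw [← Measure.restrict_univ (μ := μ), h2] at h1
  have h3 := h1.trans ((lintegral_union_le _ _ _).trans
    (add_le_add le_rfl ((lintegral_union_le _ _ _).trans (add_le_add hB hD))))
  rw [← ENNReal.ofReal_add (by positivity) (by positivity),
    show p = p / 2 + (p / 4 + p / 4) by ring, ENNReal.ofReal_add (by positivity) (by positivity),
    show p / 2 + (p / 4 + p / 4) = p by ring] at h3
  exact (ENNReal.add_le_add_iff_right ENNReal.ofReal_ne_top).1 h3

end EST

theorem stEST (hEST1 : St_EST1) (hEST2 : St_EST2) (hEST3 : St_EST3) (hGLUE : St_GLUE)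
    (hFAM : St_FAM) (hTOP : St_TOP) (hRHO : St_RHO) (hN0 : St_N0) (hID : St_ID) (_hWH : St_WH)
    (hRM : St_RM) : St_EST := by
  intro n hn
  obtain ⟨c₁, hc₁, H1⟩ := hEST1 n hn
  refine ⟨c₁ / 2, by positivity, ?_⟩
  intro C c f m b s₀ hc hf hf0 hm hb hs₀ hs0
  rcases (abs_nonneg (C.pr c f)).eq_or_lt with hp | hp
  · refine Eventually.of_forall fun k => ?_
    rw [← hp, mul_zero, zero_mul]
    exact Nat.cast_nonneg _
  set p := |C.pr c f| with hpdef
  set σ : C.ι → C.X → ℂ := s₀ * (C.P.ξ C.o * C.P.jac C.o) with hσdef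
  have hσ : σ ∈ C.base.Sec (m + 1) (b + (n + 2)) := Ctx.mul_mem (C := C.base) hs₀ (C.σ_mem C.o)
  have hnz : ∀ x, x ∈ C.nz (m + 1) (b + (n + 2)) σ ↔ x ∈ C.P.U C.o ∧ x ∈ C.nz m b s₀ := by
    intro x
    rw [← C.nz_σ C.o]
    have := Ctx.nr_mul (C := C.base) (a := m) (b := b) (a' := 1) (b' := n + 2) s₀
      (C.P.ξ C.o * C.P.jac C.o) x
    simp only [Ctx.nz, mem_ofPred_eq]
    rw [hσdef, this, mul_ne_zero_iff, and_comm]
  have hU : C.nz (m + 1) (b + (n + 2)) σ ⊆ C.P.U C.o := fun x hx => ((hnz x).1 hx).1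
  have hτ : ∀ x ∈ C.P.U C.o, C.τ x ∈ C.W C.o := fun x hx => by
    show C.π (C.τ x) ∈ C.P.U C.o
    rwa [C.πτ]
  have hσ0 : σ ≠ 0 := by
    obtain ⟨x, hx⟩ := C.good.ne
    obtain ⟨y, hy, hy'⟩ := (hID n C m b s₀ hs₀ hs0).1.inter_open_nonempty _ (C.rd C.o).opn
      ⟨C.τ x, hτ x hx⟩
    intro h
    have h1 : C.π y ∈ C.nz (m + 1) (b + (n + 2)) σ := (hnz _).2 ⟨hy, hy'⟩
    apply h1
    rw [h]
    simp [Ctx.nr]
  set w : C.X → ℝ := C.base.nr (m + 1) (b + (n + 2)) σ with hwdef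
  have hw : Continuous w := Ctx.continuous_nr hσ
  obtain ⟨L, hL, HG⟩ := hGLUE
  obtain ⟨M₀, hM₀, HN⟩ := (hN0 n C).2 f hf
  obtain ⟨ρ, hρ⟩ := hRHO n C f hf hf0
  obtain ⟨V₁, hV₁, H2⟩ := hEST2 n C c m b _ _ σ (3 * (1 + M₀)) hn hc hm hσ hσ0 hU (by positivity)
  obtain ⟨s, H3⟩ := hEST3 n C c f _ _ σ (p / 4) hc hf hσ hσ0 (by positivity)
  obtain ⟨J, hJ⟩ := exists_nat_ge (1 + V₁.toReal / (p / 4))
  have hv0 : 0 ≤ V₁.toReal / (p / 4) := by positivity
  have hJ1 : (1 : ℝ) ≤ J := by linarith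
  have hJV : V₁ ≤ ∑ _j ∈ Finset.range J, ENNReal.ofReal (p / 4) := by
    rw [Finset.sum_const, Finset.card_range, nsmul_eq_mul, ← ENNReal.ofReal_natCast,
      ← ENNReal.ofReal_mul (Nat.cast_nonneg _), ← ENNReal.ofReal_toReal hV₁]
    refine ENNReal.ofReal_le_ofReal ?_
    exact (div_le_iff₀ (by positivity)).1 (by linarith)
  set M : ℝ := max (max 1 (L * J)) (-s) with hMdef
  have hM1 : 1 ≤ M := (le_max_left _ _).trans (le_max_left _ _)
  have hML : L * J ≤ M := (le_max_right _ _).trans (le_max_left _ _)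
  have hMs : -s ≤ M := le_max_right _ _
  have hM : 0 < M := by linarith
  set K : Set C.X := {x | Real.exp (-(J * M)) ≤ w x} with hKdef
  have hK : IsCompact K := (isClosed_le continuous_const hw).isCompact
  have hKN : K ⊆ C.nz (m + 1) (b + (n + 2)) σ := fun x hx =>
    ((Real.exp_pos _).trans_le hx).ne'
  have hm0 : (0 : ℝ) < m := by exact_mod_cast (by omega : 0 < m)
  obtain ⟨u, f₁, O, hF⟩ := hFAM n C ρ m b s₀ _ K (4 / m) hn hρ hm hb hs₀ (C.isOpen_nz hσ)
    (fun x hx => (hnz x).1 hx) hK hKN (by positivity)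
  have hsub : ∀ j ∈ Finset.range J, {x | Real.exp (-((j + 1) * M)) ≤ w x} ⊆ K := by
    intro j hj x hx
    have h1 : (j : ℝ) + 1 ≤ J := by exact_mod_cast Finset.mem_range.1 hj
    exact (Real.exp_le_exp.2 (by nlinarith)).trans hx
  have HG' := fun j (hj : j ∈ Finset.range J) => HG n C c f f₁ _ _ m b σ K O u (4 / m)
    (-((j + 1) * M)) (-(j * M)) hc hf hf0 hσ hU hF (by nlinarith) (hsub j hj)
  choose! F hFa hF1 hF0 hF2 using HG'
  set G : ℕ → Set C.X := fun j =>
    {x | Real.exp (-((j + 1) * M)) ≤ w x ∧ w x < Real.exp (-(j * M))} with hGdef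
  have hGm : ∀ j, MeasurableSet (G j) := fun j =>
    ((isClosed_le continuous_const hw).measurableSet).inter
      (isOpen_lt hw continuous_const).measurableSet
  set ϖ : C.X → ℝ := fun x => if h : ∃ j, x ∈ G j then C.wh c (F h.choose) C.o (C.τ x) else 0
    with hϖdef
  have hϖ : ∀ j, ∀ x ∈ G j, ϖ x = C.wh c (F j) C.o (C.τ x) := by
    intro j x hx
    have h : ∃ j, x ∈ G j := ⟨j, hx⟩
    have e : h.choose = j := EST.shell_eq hM h.choose_spec.1 h.choose_spec.2 hx.1 hx.2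
    simp only [hϖdef, dif_pos h, e]
  have hT : 1 ≤ (J : ℝ) * M := by nlinarith
  have h2 := H2 (J * M) K O (⋃ j ∈ Finset.range J, G j) u ϖ f₁ hT hK hF
    (Finset.measurableSet_biUnion _ fun j _ => hGm j)
    (iUnion₂_subset fun j hj x hx => hsub j hj hx.1) (by
      intro x hx
      obtain ⟨j, hj, hx⟩ := mem_iUnion₂.1 hx
      have hxK : x ∈ K := hsub j hj hx.1
      have hxU : x ∈ C.P.U C.o := hU (hKN hxK)
      have hw0 : 0 < w x := (Real.exp_pos _).trans_le hxK
      refine ⟨?_, ?_, F j, hFa j hj, hϖ j x hx, fun v => (hF2 j hj x hx.1 v).trans ?_⟩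
      · have := (Real.le_log_iff_exp_le hw0).2 hxK
        linarith
      · have := (Real.log_lt_iff_lt_exp hw0).2 hx.2
        have h0 : (0 : ℝ) ≤ j * M := by positivity
        linarith
      · have a1 := HN (C.τ x) (hτ x hxU) v
        rw [Ctx.om_eq (hτ x hxU), C.πτ] at a1
        have a2 : 0 ≤ C.base.om C.o x v := Ctx.om_nonneg (C := C.base) hxU v
        have a3 := grd_nonneg (p := C.P.p C.o) (f := fun z => Real.log (w z)) (y := x) v
        have a4 : L / (-((j : ℝ) * M) - -((j + 1) * M)) ^ 2 ≤ 1 / (J * M) := by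
          rw [show -((j : ℝ) * M) - -((j + 1) * M) = M by ring,
            div_le_div_iff₀ (by positivity) (by positivity)]
          nlinarith
        have a5 := mul_le_mul_of_nonneg_right a4 a3
        rw [one_div, mul_comm (J * M : ℝ)⁻¹, ← div_eq_mul_inv] at a5
        have a6 : 0 ≤ grd (C.P.p C.o) (fun z => Real.log (w z)) x v / (J * M) := by positivity
        have a7 := sq_nonneg (C.N1 f₁ (C.τ x) v)
        nlinarith [mul_nonneg hM₀ a6, mul_nonneg hM₀ a7])
  rw [lintegral_biUnion_finset (fun i _ j _ hij => Set.disjoint_left.2 fun x hi hj =>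
    hij (EST.shell_eq hM hi.1 hi.2 hj.1 hj.2)) fun j _ => hGm j] at h2
  obtain ⟨j, hj, hB⟩ := ENNReal.exists_le_of_sum_le
    (Finset.nonempty_range_iff.2 (by rintro rfl; norm_num at hJ1)) (h2.trans hJV)
  rw [setLIntegral_congr_fun (hGm j) (g := fun x => ENNReal.ofReal |C.wh c (F j) C.o (C.τ x)|)
    fun x hx => by simp only [hϖ j x hx]] at hB
  have hoff : C.base.leb C.o (C.P.U C.o)ᶜ = 0 :=
    (hRM n (C.base.dom C.o (C.base.W C.o) (C.base.rd C.o).opn subset_rfl)).1.off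
  have hD : ∫⁻ x in {x | w x < Real.exp (-((j + 1) * M))},
      ENNReal.ofReal |C.wh c (F j) C.o (C.τ x)| ∂C.base.leb C.o ≤ ENNReal.ofReal (p / 4) := by
    refine le_trans ?_ H3
    have h0 : (0 : ℝ) ≤ j * M := by positivity
    refine le_trans (le_of_eq ?_) (lintegral_mono_set (t := {x | w x < Real.exp s})
      (s := {x | w x < Real.exp (-((j + 1) * M))})
      fun x hx => lt_of_lt_of_le hx (Real.exp_le_exp.2 (by linarith)))
    refine lintegral_congr_ae ((ae_restrict_iff'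
      (isOpen_lt hw continuous_const).measurableSet).2 ?_)
    filter_upwards [(mem_ae_iff.2 hoff : C.P.U C.o ∈ ae (C.base.leb C.o))] with x hx hx'
    rw [hF0 j hj x hx hx']
  have hA := EST.three (C.base.leb C.o) (fun x => C.wh c (F j) C.o (C.τ x))
    {x | Real.exp (-(j * M)) ≤ w x} (G j) {x | w x < Real.exp (-((j + 1) * M))} hp.le
    (by rw [hpdef, ← hTOP n C c f (F j) hn hc hf (hFa j hj)]; rfl)
    (fun x => by
      by_cases a1 : Real.exp (-(j * M)) ≤ w x
      · exact Or.inl a1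
      · by_cases a2 : w x < Real.exp (-((j + 1) * M))
        · exact Or.inr (Or.inr a2)
        · exact Or.inr (Or.inl ⟨not_lt.1 a2, not_le.1 a1⟩)) hB hD
  have h1 := H1 C c m b _ _ σ K O {x | Real.exp (-(j * M)) ≤ w x} u f₁ (F j) hc hm hσ hσ0 hU hK hF
    (hFa j hj) (isClosed_le continuous_const hw).measurableSet
    (fun x hx => hsub j hj ((Real.exp_le_exp.2 (by linarith)).trans hx))
    (fun x hx v => hF1 j hj x hx v)
  filter_upwards [h1] with k hk
  have h3 := (mul_le_mul_right hA _).trans hk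
  rw [← ENNReal.ofReal_mul (by positivity),
    ENNReal.ofReal_le_ofReal_iff (Nat.cast_nonneg _)] at h3
  linarith

end Pool.Agent.Lib.SV
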