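import Pool.Agent.Lib.SV.B_EST2

/-! The estimate on the main region. -/

open scoped Classical Topology ENNReal
open Set MeasureTheory Complex Filter Metric

noncomputable section

namespace Pool.Agent.Lib.SV

open EST2 in
theorem stEST1 (hCNT : St_CNT) (hFRZ : St_FRZ) (hWB : St_WB) (_hFS : St_FS) : St_EST1 := by
  intro n hn
  obtain ⟨c₀, hc₀, hCNT⟩ := hCNT n hn
  have hf0 : (0 : ℝ) < (n * 2).factorial := by exact_mod_cast Nat.factorial_pos _
  refine ⟨c₀ / ((n * 2).factorial * 6400 ^ n), by positivity, ?_⟩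
  intro C c m b a' b' σ K O A u f₁ f hc hm hσ h0 hU hK hF hf hA hAK hx
  have hm' : (2 : ℝ) ≤ m := by exact_mod_cast hm
  have hm0 : (0 : ℝ) < m := by linarith
  obtain ⟨L, hL⟩ : ∃ L : ℝ, L = (n * 2).factorial * (6400 / m) ^ n := ⟨_, rfl⟩
  have hL0 : 0 < L := by rw [hL]; positivity
  have hN := C.isOpen_nz hσ
  have hKN : K ⊆ C.nz a' b' σ := hF.sub.trans hF.sub'
  have hom : ∀ x v, lev (C.P.p C.o) (C.P.φ C.o) x v = C.base.om C.o x v := fun x v => rfl
  have key := hCNT C m (b + 1) a' b' σ (fun z => m / 2 * u z + C.P.φ C.o z)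
    (fun x => C.wh c f C.o (C.τ x)) K A L hσ h0 hU
    (fun x hx => ((hF.lu x hx).const_mul (by positivity)).add (LU.of_psh (by
      filter_upwards [hN.mem_nhds hx] with z hz
      exact ⟨C.good.smφ C.o z (hU hz), fun v => Ctx.om_nonneg (C := C.base) (hU hz) v⟩)))
    (by
      obtain ⟨M₀, hM₀⟩ := hF.bd
      refine ⟨M₀, fun x hx => ?_⟩
      have h3 := hM₀ x hx
      have h4 : C.base.wt m (b + 1) C.o x = C.base.wt m b C.o x + C.P.φ C.o x := by
        simp only [Ctx.wt, Function.comp_apply, Nat.cast_add, Nat.cast_one]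
        ring
      rw [h4]
      linarith) hK hKN hA hAK hL0.le (by
      intro x hxK
      obtain ⟨u₀, hu₀⟩ := hF.loc x hxK
      have h1 : LocH (C.P.p C.o) x := (C.good.rd C.o).locH (hU (hKN hxK))
      have h2 : ∀ z ∈ C.nz a' b' σ, Psh (C.P.p C.o) u₀ z → ∀ v,
          lev (C.P.p C.o) (fun z => m / 4 * u₀ z + C.P.φ C.o z) z v =
            m / 4 * lev (C.P.p C.o) u₀ z v + C.base.om C.o z v := fun z hz h v => by
        rw [lev_add ((sm_const _).mul h.1) (C.good.smφ C.o z (hU hz)), lev_const_mul h.1, hom]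
      have h3 := hu₀.self_of_nhds.1
      obtain ⟨P, hP⟩ := freeze hFRZ h1 (Ψ := fun z => m / 4 * u₀ z + C.P.φ C.o z)
        (((sm_const _).mul h3.1).add (C.good.smφ C.o x (hU (hKN hxK)))) fun v hv => by
          rw [h2 x (hKN hxK) h3]
          exact add_pos_of_nonneg_of_pos (mul_nonneg (by positivity) (h3.2 v))
            (Ctx.om_pos (C := C.base) (hU (hKN hxK)) hv)
      refine ⟨P, ?_⟩
      filter_upwards [hP, hu₀] with z hz hu
      refine ⟨((hu.2.1.const_mul (c := m / 2) (by positivity)).add hz.1).congr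
        (Eventually.of_forall fun t => by ring), fun hzA => ?_⟩
      have hzN := hKN (hAK hzA)
      rw [hL]
      refine hWB n C c f P (6400 / m) hc hf (by positivity) (C.τ z)
        (by rw [mem_preimage, C.πτ]; exact hU hzN) fun v => ?_
      rw [hx z hzA v]
      refine (hu.2.2 v).trans ?_
      have h10 := hz.2 v
      rw [h2 z hzN hu.1] at h10
      calc 100 * (lev (C.P.p C.o) u₀ z v + 4 / m * C.base.om C.o z v)
          = 400 / m * (m / 4 * lev (C.P.p C.o) u₀ z v + C.base.om C.o z v) := by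
            field_simp
            ring
        _ ≤ 400 / m * (16 * nsq (P v)) := mul_le_mul_of_nonneg_left h10 (by positivity)
        _ = 6400 / m * nsq (P v) := by ring)
  filter_upwards [key] with k hk
  have e1 : c₀ / ((n * 2).factorial * 6400 ^ n) * ((k : ℝ) * m) ^ n = L⁻¹ * (c₀ * k ^ n) := by
    rw [hL, mul_pow, div_pow]
    field_simp
  have e2 : (C.h0 (1 + k * m) (1 + k * (b + 1)) : ℝ) =
      L⁻¹ * (L * C.h0 (1 + k * m) (1 + k * (b + 1))) := by
    field_simp
  rw [e1, e2, ENNReal.ofReal_mul (inv_nonneg.2 hL0.le), ENNReal.ofReal_mul (inv_nonneg.2 hL0.le),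
    mul_assoc]
  exact mul_le_mul_right hk _

end Pool.Agent.Lib.SV
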