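import Pool.Agent.Lib.SV.Blue3

/-! The estimate on the shells. -/

open scoped Classical Topology ENNReal
open Set MeasureTheory Complex Filter Metric

noncomputable section

namespace Pool.Agent.Lib.SV

namespace EST2

variable {n : ℕ}

theorem d2_sq (a : E n →L[ℝ] ℝ) (z v : E n) : d2 (fun w => a w * a w) z v = 2 * (a v * a v) := by
  have h : (fun w => fderiv ℝ (fun w => a w * a w) w v) = fun w => (2 * a v) * a w := by
    funext w
    have := (a.hasFDerivAt (x := w)).fun_mul (a.hasFDerivAt (x := w))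
    rw [this.fderiv]
    simp only [add_apply, smul_apply, smul_eq_mul]
    ring
  unfold d2
  rw [h, ((a.hasFDerivAt (x := z)).const_mul (2 * a v)).fderiv]
  simp only [smul_apply, smul_eq_mul]
  ring

theorem d2_sum {ι : Type} (s : Finset ι) (g : ι → E n → ℝ) (h : ∀ i, ContDiff ℝ 2 (g i))
    (z v : E n) : d2 (fun w => ∑ i ∈ s, g i w) z v = ∑ i ∈ s, d2 (g i) z v := by
  induction s using Finset.induction_on with
  | empty => simpa using d2_const (z := z) 0 v
  | insert i s hi ih =>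
    simp only [Finset.sum_insert hi]
    rw [d2_add (h i).contDiffAt (ContDiff.sum fun j _ => h j).contDiffAt, ih]

theorem quad (P : E n ≃L[ℂ] E n) : ContDiff ℝ 2 (fun w => nsq (P w)) ∧
    ∀ z v, levE (fun w => nsq (P w)) z v = 4 * nsq (P v) := by
  let A : Fin n → E n →L[ℝ] ℂ := fun j =>
    ((ContinuousLinearMap.proj j : E n →L[ℂ] ℂ).comp (P : E n →L[ℂ] E n)).restrictScalars ℝ
  let a : Fin n → E n →L[ℝ] ℝ := fun j => reCLM.comp (A j)
  let b : Fin n → E n →L[ℝ] ℝ := fun j => imCLM.comp (A j)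
  have e : ∀ w, nsq (P w) = ∑ j, (a j w * a j w + b j w * b j w) := fun w => rfl
  have hs : ∀ c : E n →L[ℝ] ℝ, ContDiff ℝ 2 fun w => c w * c w := fun c =>
    c.contDiff.mul c.contDiff
  have h2 : ∀ z v, d2 (fun w => nsq (P w)) z v = 2 * nsq (P v) := fun z v => by
    simp only [e]
    rw [d2_sum _ _ fun j => (hs (a j)).add (hs (b j)), Finset.mul_sum]
    refine Finset.sum_congr rfl fun j _ => ?_
    rw [d2_add (hs _).contDiffAt (hs _).contDiffAt, d2_sq, d2_sq, mul_add]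
  refine ⟨?_, fun z v => ?_⟩
  · simp only [e]
    exact ContDiff.sum fun j _ => (hs (a j)).add (hs (b j))
  · have h3 : nsq (P (I • v)) = nsq (P v) := by
      rw [map_smul]
      exact Finset.sum_congr rfl fun j _ => by simp
    rw [levE, h2, h2, h3]
    ring

/-- Freezing on a Riemann domain. -/
theorem freeze (hFRZ : St_FRZ) {Y : Type} [TopologicalSpace Y] {p : Y → E n} {y : Y}
    (h : LocH p y) {Ψ : Y → ℝ} (hs : Sm p 2 Ψ y) (hp : ∀ v ≠ 0, 0 < lev p Ψ y v) :
    ∃ P : E n ≃L[ℂ] E n, ∀ᶠ x in 𝓝 y, LU p (fun z => Ψ z - nsq (P (p z))) x ∧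
      ∀ v, lev p Ψ x v ≤ 16 * nsq (P v) := by
  obtain ⟨P, hP⟩ := hFRZ n _ _ hs hp
  have h1 : ∀ᶠ x in 𝓝 y, Psh p (fun z => Ψ z - nsq (P (p z))) x ∧
      ∀ v, lev p Ψ x v ≤ 16 * nsq (P v) := by
    filter_upwards [h.continuousAt.tendsto.eventually hP, h.lift_near, h.eventually,
      hs.eventually h] with x h2 h3 h4 h5
    have h6 : ∀ v, lev p Ψ x v = levE (Ψ ∘ lift p y) (p x) v := fun v =>
      levE_congr (h3.fun_comp Ψ) v
    have h7 : (fun z => nsq (P (p z))) ∘ lift p x =ᶠ[𝓝 (p x)] fun w => nsq (P w) := by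
      filter_upwards [h4.p_lift] with w hw
      rw [Function.comp_apply, hw]
    have h8 : Sm p 2 (fun z => nsq (P (p z))) x :=
      (quad P).1.contDiffAt.congr_of_eventuallyEq h7
    refine ⟨⟨h5.sub h8, fun v => ?_⟩, fun v => (h6 v).le.trans (h2 v).2⟩
    rw [lev_sub h5 h8, h6, lev, levE_congr h7, (quad P).2]
    linarith [(h2 v).1]
  refine ⟨P, ?_⟩
  filter_upwards [h1.eventually_nhds] with x hx
  exact ⟨LU.of_psh (hx.mono fun _ a => a.1), hx.self_of_nhds.2⟩

/-- The convex profile. -/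
def pf (T t : ℝ) : ℝ := T * Real.log (1 + Real.exp (t / T))

theorem pf_sm (T : ℝ) : ContDiff ℝ 2 (pf T) :=
  contDiff_const.mul ((contDiff_const.add (contDiff_id.div_const T).exp).log fun _ => by
    positivity)

theorem pf_d1 {T : ℝ} (hT : 0 < T) :
    deriv (pf T) = fun t => Real.exp (t / T) / (1 + Real.exp (t / T)) := by
  funext t
  have h := ((((hasDerivAt_id t).div_const T).exp.const_add 1).log (by positivity)).const_mul T
  refine h.deriv.trans ?_
  simp only [id]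
  field_simp

theorem pf_d2 {T : ℝ} (hT : 0 < T) (t : ℝ) :
    deriv (deriv (pf T)) t = Real.exp (t / T) / (1 + Real.exp (t / T)) ^ 2 / T := by
  have h1 := ((hasDerivAt_id t).div_const T).exp
  have h := h1.fun_div (h1.const_add 1) (by positivity)
  rw [pf_d1 hT]
  refine h.deriv.trans ?_
  simp only [id]
  field_simp
  ring

theorem pf_le {T t M : ℝ} (hT : 0 < T) (h : t ≤ M) : pf T t ≤ pf T M := by
  unfold pf
  gcongr

theorem pf_d2_ge {T t : ℝ} (hT : 0 < T) (h1 : -(2 * T) ≤ t) (h2 : t ≤ 0) :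
    1 / 36 / T ≤ deriv (deriv (pf T)) t := by
  rw [pf_d2 hT]
  have h3 : Real.exp (t / T) ≤ 1 := Real.exp_le_one_iff.2 (div_nonpos_of_nonpos_of_nonneg h2 hT.le)
  have h4 : Real.exp (-2) ≤ Real.exp (t / T) :=
    Real.exp_le_exp.2 (by rw [le_div_iff₀ hT]; linarith)
  have h5 : Real.exp 2 ≤ 9 := by
    have := Real.exp_one_lt_d9
    rw [show (2 : ℝ) = 1 + 1 by norm_num, Real.exp_add]
    nlinarith [Real.exp_pos 1]
  have h6 : 1 / 9 ≤ Real.exp (-2) := by
    rw [Real.exp_neg, one_div]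
    exact inv_anti₀ (Real.exp_pos 2) h5
  refine div_le_div_of_nonneg_right ?_ hT.le
  rw [le_div_iff₀ (by positivity)]
  nlinarith [Real.exp_pos (t / T)]

/-- The Levi form of the profile of `w`. -/
theorem lev_pf {Y : Type} [TopologicalSpace Y] {p : Y → E n} {y : Y} (h : LocH p y) {w : Y → ℝ}
    (hw : Sm p 2 w y) {T : ℝ} (hT : 0 < T) (v : E n) :
    -|lev p w y v| + deriv (deriv (pf T)) (w y) * grd p w y v ≤
      lev p (fun x => pf T (w x)) y v := by
  rw [lev_comp h hw (pf_sm T).contDiffAt, pf_d1 hT]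
  have h1 : 0 ≤ Real.exp (w y / T) / (1 + Real.exp (w y / T)) := by positivity
  have h2 : Real.exp (w y / T) / (1 + Real.exp (w y / T)) ≤ 1 :=
    (div_le_one (by positivity)).2 (by linarith)
  have h3 := neg_abs_le (lev p w y v)
  have h4 := abs_nonneg (lev p w y v)
  nlinarith

end EST2

open EST2 in
theorem stEST2 (hCNT : St_CNT) (hFRZ : St_FRZ) (hWB : St_WB) (_hFS : St_FS) (hW0 : St_W0)
    (hFIN : St_FIN) : St_EST2 := by
  intro n C c m b a' b' σ L hn hc hm hσ h0 hU hL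
  obtain ⟨c₀, hc₀, hCNT⟩ := hCNT n hn
  obtain ⟨M, hM, hM1, hM2⟩ := hW0 n C C.o a' b' σ hσ
  obtain ⟨Mf, hMf⟩ := hFIN n C
  obtain ⟨C₁, hC₁⟩ := exists_nat_ge (M + 1)
  obtain ⟨L₂, hL₂⟩ : ∃ L₂ : ℝ, L₂ = (n * 2).factorial * (L * 3216) ^ n := ⟨_, rfl⟩
  have hL₂0 : 0 ≤ L₂ := by rw [hL₂]; positivity
  refine ⟨ENNReal.ofReal (L₂ * |Mf| * (m + b + C₁ + 3) ^ n / c₀), ENNReal.ofReal_ne_top, ?_⟩
  intro T K O A u ϖ f₁ hT hK hF hA hAK hx
  have hT0 : 0 < T := by linarith
  have hm' : (2 : ℝ) ≤ m := by exact_mod_cast hm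
  obtain ⟨w, hw⟩ : ∃ w : C.X → ℝ, w = fun z => Real.log (C.base.nr a' b' σ z) := ⟨_, rfl⟩
  obtain ⟨G, hG⟩ : ∃ G : C.X → ℝ, G = fun z => pf T (w z) + C₁ * C.P.φ C.o z := ⟨_, rfl⟩
  have hN := C.isOpen_nz hσ
  have hG1 : ∀ x ∈ C.nz a' b' σ, Sm (C.P.p C.o) 2 G x ∧ ∀ v, C.base.om C.o x v +
      deriv (deriv (pf T)) (w x) * grd (C.P.p C.o) w x v ≤ lev (C.P.p C.o) G x v := by
    intro x hx
    have h1 : LocH (C.P.p C.o) x := (C.good.rd C.o).locH (hU hx)
    obtain ⟨h2, h3⟩ := hM2 x hx (hU hx)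
    rw [← hw] at h2 h3
    have h4 : Sm (C.P.p C.o) 2 (fun z => pf T (w z)) x := h2.comp h1 (pf_sm T).contDiffAt
    have h5 := C.good.smφ C.o x (hU hx)
    rw [hG]
    refine ⟨h4.add ((sm_const _).mul h5), fun v => ?_⟩
    rw [lev_add h4 ((sm_const _).mul h5), lev_const_mul h5]
    have h6 := lev_pf h1 h2 hT0 v
    have h7 : 0 ≤ C.base.om C.o x v := Ctx.om_nonneg (C := C.base) (hU hx) v
    have h8 : lev (C.P.p C.o) (C.P.φ C.o) x v = C.base.om C.o x v := rfl
    have h9 := mul_le_mul_of_nonneg_right hC₁ h7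
    rw [h8]
    linarith [h3 v]
  have hd : ∀ t, 0 ≤ deriv (deriv (pf T)) t := fun t => by rw [pf_d2 hT0]; positivity
  have hG2 : ∀ x ∈ C.nz a' b' σ, ∀ v, C.base.om C.o x v ≤ lev (C.P.p C.o) G x v := fun x hx v =>
    le_trans (le_add_of_nonneg_right (mul_nonneg (hd _) (grd_nonneg v))) ((hG1 x hx).2 v)
  have hKN : K ⊆ C.nz a' b' σ := hF.sub.trans hF.sub'
  have key := hCNT C m (b + C₁) a' b' σ (fun z => m / 2 * u z + G z) ϖ K A L₂ hσ h0 hU
    (fun x hx => ((hF.lu x hx).const_mul (by positivity)).add (LU.of_psh (by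
      filter_upwards [hN.mem_nhds hx] with z hz
      exact ⟨(hG1 z hz).1, fun v => (Ctx.om_nonneg (C := C.base) (hU hz) v).trans (hG2 z hz v)⟩)))
    (by
      obtain ⟨M₀, hM₀⟩ := hF.bd
      refine ⟨M₀ + pf T M, fun x hx => ?_⟩
      have h1 : w x ≤ M := by
        rw [hw]
        exact (Real.log_le_iff_le_exp (lt_of_le_of_ne (Ctx.nr_nonneg _ _) (Ne.symm hx))).2 (hM1 x)
      have h2 := pf_le hT0 h1
      have h3 := hM₀ x hx
      have h4 : C.base.wt m (b + C₁) C.o x = C.base.wt m b C.o x + C₁ * C.P.φ C.o x := by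
        simp only [Ctx.wt, Function.comp_apply, Nat.cast_add]
        ring
      rw [h4, hG]
      linarith) hK hKN hA hAK hL₂0 (by
      intro x hxK
      obtain ⟨u₀, hu₀⟩ := hF.loc x hxK
      have h1 : LocH (C.P.p C.o) x := (C.good.rd C.o).locH (hU (hKN hxK))
      have h2 : ∀ z ∈ C.nz a' b' σ, Psh (C.P.p C.o) u₀ z → ∀ v,
          lev (C.P.p C.o) (fun z => m / 4 * u₀ z + G z) z v =
            m / 4 * lev (C.P.p C.o) u₀ z v + lev (C.P.p C.o) G z v := fun z hz h v => by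
        rw [lev_add ((sm_const _).mul h.1) (hG1 z hz).1, lev_const_mul h.1]
      have h3 := hu₀.self_of_nhds.1
      obtain ⟨P, hP⟩ := freeze hFRZ h1 (Ψ := fun z => m / 4 * u₀ z + G z)
        (((sm_const _).mul h3.1).add (hG1 x (hKN hxK)).1) fun v hv => by
          rw [h2 x (hKN hxK) h3]
          exact add_pos_of_nonneg_of_pos (mul_nonneg (by positivity) (h3.2 v))
            ((Ctx.om_pos (C := C.base) (hU (hKN hxK)) hv).trans_le (hG2 x (hKN hxK) v))
      refine ⟨P, ?_⟩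
      filter_upwards [hP, hu₀] with z hz hu
      refine ⟨((hu.2.1.const_mul (c := m / 2) (by positivity)).add hz.1).congr
        (Eventually.of_forall fun t => by ring), fun hzA => ?_⟩
      obtain ⟨h4, h5, f, hf, h6, h7⟩ := hx z hzA
      have hzN := hKN (hAK hzA)
      rw [← hw] at h7
      have h8 := pf_d2_ge (t := w z) hT0 (by rw [hw]; exact h4) (by rw [hw]; exact h5)
      rw [h6, hL₂]
      refine hWB n C c f P (L * 3216) hc hf (by positivity) (C.τ z)
        (by rw [mem_preimage, C.πτ]; exact hU hzN) fun v => (h7 v).trans ?_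
      rw [mul_assoc]
      refine mul_le_mul_of_nonneg_left ?_ hL
      have h9 := hu.2.2 v
      have h10 := hz.2 v
      rw [h2 z hzN hu.1] at h10
      have h11 := (hG1 z hzN).2 v
      have h12 := mul_le_mul_of_nonneg_right h8 (grd_nonneg (p := C.P.p C.o) (f := w) (y := z) v)
      have h13 := hu.1.2 v
      have h14 : 0 ≤ C.base.om C.o z v := Ctx.om_nonneg (C := C.base) (hU hzN) v
      have h15 : 4 / (m : ℝ) * C.base.om C.o z v ≤ 2 * C.base.om C.o z v :=
        mul_le_mul_of_nonneg_right (by rw [div_le_iff₀ (by positivity)]; linarith) h14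
      have h16 : 1 / 2 * lev (C.P.p C.o) u₀ z v ≤ m / 4 * lev (C.P.p C.o) u₀ z v :=
        mul_le_mul_of_nonneg_right (by linarith) h13
      have h17 : 1 / 36 / T * grd (C.P.p C.o) w z v = grd (C.P.p C.o) w z v / T / 36 := by ring
      have h18 : 0 ≤ grd (C.P.p C.o) w z v / T := div_nonneg (grd_nonneg v) hT0.le
      linarith)
  obtain ⟨k, hk, hk1⟩ := (key.and (eventually_ge_atTop 1)).exists
  have hk' : (1 : ℝ) ≤ k := by exact_mod_cast hk1
  have hck : 0 < c₀ * (k : ℝ) ^ n := by positivity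
  refine (ENNReal.mul_le_mul_iff_right (ENNReal.ofReal_pos.2 hck).ne' ENNReal.ofReal_ne_top).1
    (hk.trans ?_)
  rw [← ENNReal.ofReal_mul hck.le]
  refine ENNReal.ofReal_le_ofReal ?_
  have h1 := (hMf (1 + k * m) (1 + k * (b + C₁))).2
  have h2 : ((1 + k * m : ℕ) + (1 + k * (b + C₁) : ℕ) + 1 : ℝ) ^ n ≤ (k * (m + b + C₁ + 3)) ^ n := by
    refine pow_le_pow_left₀ (by positivity) ?_ n
    push_cast
    linarith
  have h3 : (C.h0 (1 + k * m) (1 + k * (b + C₁)) : ℝ) ≤ |Mf| * (k * (m + b + C₁ + 3)) ^ n :=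
    h1.trans (mul_le_mul (le_abs_self _) h2 (by positivity) (abs_nonneg _))
  refine (mul_le_mul_of_nonneg_left h3 hL₂0).trans (le_of_eq ?_)
  rw [mul_pow]
  field_simp

end Pool.Agent.Lib.SV
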