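import Pool.Agent.Lib.SV.Blue3

/-! The neighbourhood of the divisor carries a small part of the integral. -/

open scoped Classical Topology ENNReal
open Set MeasureTheory Complex Filter

set_option linter.unusedVariables false

noncomputable section

namespace Pool.Agent.Lib.SV

theorem stEST3 (hWH : St_WH) (hVOL : St_VOL) (hID : St_ID) : St_EST3 := by
  intro n C c f a b σ η hc hf hσ h0 hη
  have hI := ((hWH n C c f hc hf).2.2.2.2.2.1 C.o C.good.ne).1
  have hN : C.base.leb C.o (C.nz a b σ)ᶜ = 0 := (hID n C.base a b σ hσ h0).2.1 C.o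
  have hcont : Continuous (C.base.nr a b σ) := Ctx.continuous_nr (C := C.base) hσ
  set g : C.X → ℝ≥0∞ := fun x => ENNReal.ofReal |C.wh c f C.o (C.τ x)| with hg
  set ν : Measure C.X := (C.base.leb C.o).withDensity g with hν
  set A : ℕ → Set C.X := fun k => {x | C.base.nr a b σ x < Real.exp (-(k : ℝ))} with hA
  have hAm : ∀ k, MeasurableSet (A k) := fun k =>
    (isOpen_lt hcont continuous_const).measurableSet
  have hfin : ν univ ≠ ∞ := by
    rw [hν, withDensity_apply _ MeasurableSet.univ, Measure.restrict_univ]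
    have h2 := (hasFiniteIntegral_iff_norm _).1 hI.2
    simpa only [Real.norm_eq_abs] using h2.ne
  have hanti : Antitone A := by
    intro k l hkl x hx
    have : Real.exp (-(l : ℝ)) ≤ Real.exp (-(k : ℝ)) :=
      Real.exp_le_exp.2 (neg_le_neg (Nat.cast_le.2 hkl))
    exact lt_of_lt_of_le hx this
  have hsub : (⋂ k, A k) ⊆ (C.nz a b σ)ᶜ := by
    intro x hx hne
    have hpos : 0 < C.base.nr a b σ x :=
      lt_of_le_of_ne (Ctx.nr_nonneg (C := C.base) σ x) (Ne.symm hne)
    have ht : Tendsto (fun k : ℕ => Real.exp (-(k : ℝ))) atTop (𝓝 0) :=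
      Real.tendsto_exp_neg_atTop_nhds_zero.comp tendsto_natCast_atTop_atTop
    obtain ⟨k, hk⟩ := (ht.eventually (gt_mem_nhds hpos)).exists
    exact lt_asymm hk (mem_iInter.1 hx k)
  have hz : ν (⋂ k, A k) = 0 :=
    withDensity_absolutelyContinuous _ _ (measure_mono_null hsub hN)
  have hT := tendsto_measure_iInter_atTop (μ := ν) (fun k => (hAm k).nullMeasurableSet) hanti
    ⟨0, ne_top_of_le_ne_top hfin (measure_mono (subset_univ _))⟩
  rw [hz] at hT
  obtain ⟨k, hk⟩ := (hT.eventually (gt_mem_nhds (ENNReal.ofReal_pos.2 hη))).exists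
  refine ⟨-(k : ℝ), ?_⟩
  have h3 : ν (A k) = ∫⁻ x in A k, g x ∂C.base.leb C.o := withDensity_apply _ (hAm k)
  exact h3 ▸ le_of_lt hk

end Pool.Agent.Lib.SV
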