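import Pool.Agent.Lib.SV.Blue2

/-! Exhaustion of the complement of a divisor. -/

open scoped Classical Topology
open Set Filter

noncomputable section

namespace Pool.Agent.Lib.SV

theorem stEXH (hW0 : St_W0) : St_EXH := by
  intro n C ρ i a b σ hρ hσ hU
  obtain ⟨M, hM0, hM, hL⟩ := hW0 n C i a b σ hσ
  obtain ⟨M1, -, hM1, -⟩ := hW0 n C i 0 1 _ (C.ξ_mem i)
  obtain ⟨M2, hM2⟩ := hρ.bd
  have hφ : ∀ x ∈ C.P.U i, -M1 ≤ C.P.φ i x := by
    intro x hx
    have h1 := hM1 x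
    rw [Ctx.nr_eq (C := C.base) (C.ξ_mem i) hx, C.good.ξ1 i x hx, map_one, one_mul,
      Real.exp_le_exp] at h1
    simp only [Ctx.wt, Nat.cast_zero, zero_mul, zero_add, Nat.cast_one, one_mul,
      Function.comp_apply] at h1
    linarith
  set L : C.X → ℝ := fun z => Real.log (C.base.nr a b σ z) with hLd
  set c : ℝ := max M2 0 + M + 1 with hc
  have hc0 : 0 ≤ c := by have := le_max_right M2 0; linarith
  have hsL : ∀ y ∈ C.π ⁻¹' C.nz a b σ, Sm (C.q i) 2 (L ∘ C.π) y := fun y hy =>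
    (Ctx.sm_π (hU hy)).2 (hL _ hy (hU hy)).1
  have hs1 : ∀ y ∈ C.π ⁻¹' C.nz a b σ, Sm (C.q i) 2 (fun x => ρ x - (L ∘ C.π) x) y := fun y hy =>
    (hρ.sm i y (hU hy)).sub (hsL y hy)
  have hs2 : ∀ y ∈ C.π ⁻¹' C.nz a b σ, Sm (C.q i) 2 (fun x => c * C.φ i x) y := fun y hy =>
    (sm_const c).mul (Ctx.sm_φ (hU hy))
  have hs : ∀ y ∈ C.π ⁻¹' C.nz a b σ,
      Sm (C.q i) 2 (fun x => ρ x - (L ∘ C.π) x + c * C.φ i x) y := fun y hy =>
    (hs1 y hy).add (hs2 y hy)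
  refine ⟨fun x => ρ x - (L ∘ C.π) x + c * C.φ i x, hs, fun y hy v hv => ?_, fun t => ?_⟩
  · have hW : y ∈ C.W i := hU hy
    rw [lev_add (hs1 y hy) (hs2 y hy), lev_sub (hρ.sm i y hW) (hsL y hy),
      lev_const_mul (Ctx.sm_φ hW), Ctx.lev_π hW]
    have h1 := (abs_le.1 (hM2 i y hW v).2).1
    have h2 := (abs_le.1 ((hL _ hy hW).2 v)).2
    have h3 := Ctx.om_pos hW hv
    rw [← Ctx.om_eq hW] at h2
    have h4 : M2 * C.om i y v ≤ max M2 0 * C.om i y v :=
      mul_le_mul_of_nonneg_right (le_max_left _ _) h3.le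
    change 0 < _ + c * C.om i y v
    rw [hc]
    linarith
  · have hn : Continuous fun y => C.base.nr a b σ (C.π y) :=
      (Ctx.continuous_nr hσ).comp C.continuous_π
    have hcl : IsClosed {y | Real.exp (-(t + c * M1)) ≤ C.base.nr a b σ (C.π y)} :=
      isClosed_le continuous_const hn
    have hK := (hρ.cpt (t + M + c * M1)).inter_right hcl
    have hKW : {y | ρ y ≤ t + M + c * M1} ∩
        {y | Real.exp (-(t + c * M1)) ≤ C.base.nr a b σ (C.π y)} ⊆ C.π ⁻¹' C.nz a b σ :=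
      fun y hy => ((Real.exp_pos _).trans_le hy.2).ne'
    have hco : ContinuousOn (fun x => ρ x - (L ∘ C.π) x + c * C.φ i x)
        ({y | ρ y ≤ t + M + c * M1} ∩
          {y | Real.exp (-(t + c * M1)) ≤ C.base.nr a b σ (C.π y)}) := fun y hy =>
      ((hs y (hKW hy)).continuousAt (Ctx.locH (hU (hKW hy)))).continuousWithinAt
    have h := hK.of_isClosed_subset
      (hco.preimage_isClosed_of_isClosed hK.isClosed (isClosed_Iic (a := t))) inter_subset_left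
    refine (congrArg IsCompact ?_).mp h
    ext y
    refine ⟨fun hy => ⟨hKW hy.1, hy.2⟩, fun hy => ⟨?_, hy.2⟩⟩
    have h0 : 0 < C.base.nr a b σ (C.π y) :=
      lt_of_le_of_ne (Ctx.nr_nonneg _ _) (Ne.symm hy.1)
    have h1 : L (C.π y) ≤ M := (Real.log_le_iff_le_exp h0).2 (hM _)
    have h2 : c * -M1 ≤ c * C.P.φ i (C.π y) := mul_le_mul_of_nonneg_left (hφ _ (hU hy.1)) hc0
    have h3 : ρ y - L (C.π y) + c * C.P.φ i (C.π y) ≤ t := hy.2
    have h4 := hρ.nonneg y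
    refine ⟨show ρ y ≤ _ by linarith, (Real.le_log_iff_exp_le h0).1 ?_⟩
    change _ ≤ L (C.π y)
    linarith

end Pool.Agent.Lib.SV
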