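import Pool.Agent.Lib.SV.Blue2

/-! Extension of locally square integrable sections across a divisor. -/

open scoped Classical Topology ENNReal
open Set MeasureTheory Complex Filter Metric

set_option linter.unusedVariables false

noncomputable section

namespace Pool.Agent.Lib.SV

namespace EXT

variable {n : ℕ}

/-- Local extension on a Riemann domain. -/
theorem loc (hREM : St_REM) (hRM : St_RM) (D : Dom n) (G J : D.Y → ℂ) (N : Set D.Y) (y : D.Y)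
    (hy : y ∈ D.W) (hN : Dense N) (hNJ : ∀ x ∈ D.W, x ∈ N ↔ J x ≠ 0)
    (hJ : ∀ x ∈ D.W, Hol D.p J x) (hG : ∀ x ∈ D.W, x ∈ N → Hol D.p G x)
    (hNo : IsOpen N) {O : Set D.Y} (hO : O ∈ 𝓝 y)
    (hL : ∫⁻ x in O ∩ N, ENNReal.ofReal (‖G x‖ ^ 2) ∂D.μ ≠ ∞) :
    ∃ O' ∈ 𝓝 y, ∃ F : D.Y → ℂ, (∀ x ∈ O', Hol D.p F x) ∧ ∀ x ∈ O', x ∈ N → F x = G x := by
  obtain ⟨e, r, hr, he, hye, hs, ht⟩ := D.rd.exists_ball hy hO
  have hd : ∀ f : D.Y → ℂ, ∀ z ∈ e.target, Hol D.p f (e.symm z) →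
      DifferentiableAt ℂ (f ∘ e.symm) z := fun f z hz h => by
    have := (he.hol_iff (e.map_target hz)).1 h
    rwa [he.p_symm hz] at this
  have hW : ∀ z ∈ e.target, e.symm z ∈ D.W := fun z hz => he.sub (e.map_target hz)
  have he' : Cht D.p D.W (e.restrOpen N hNo) :=
    ⟨fun x hx => he.sub hx.1, fun x hx => he.eq hx.1⟩
  have hint := (hRM n D).2.2.1 _ he' fun x => ENNReal.ofReal (‖G x‖ ^ 2)
  obtain ⟨g, hg, hgf⟩ := hREM n (G ∘ e.symm) (J ∘ e.symm) (D.p y) r hr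
    (fun z hz => (hd J z (ht ▸ hz) (hJ _ (hW z (ht ▸ hz)))).differentiableWithinAt)
    (by
      obtain ⟨x, hx, hxN⟩ := hN.inter_open_nonempty _ e.open_source ⟨y, hye⟩
      refine ⟨D.p x, ht ▸ he.mem_target hx, ?_⟩
      rw [Function.comp_apply, he.symm_p hx]
      exact (hNJ x (he.sub hx)).1 hxN)
    (fun z hz => (hd G z (ht ▸ hz.1) (hG _ (hW z (ht ▸ hz.1))
      ((hNJ _ (hW z (ht ▸ hz.1))).2 hz.2))).differentiableWithinAt)
    (by
      refine ne_top_of_le_ne_top hL ?_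
      calc ∫⁻ w in {w | w ∈ ball (D.p y) r ∧ (J ∘ e.symm) w ≠ 0},
            ENNReal.ofReal (‖(G ∘ e.symm) w‖ ^ 2)
          ≤ ∫⁻ z in (e.restrOpen N hNo).target, ENNReal.ofReal (‖G (e.symm z)‖ ^ 2) :=
            lintegral_mono_set fun z hz =>
              ⟨ht ▸ hz.1, (hNJ _ (hW z (ht ▸ hz.1))).2 hz.2⟩
        _ = ∫⁻ x in (e.restrOpen N hNo).source, ENNReal.ofReal (‖G x‖ ^ 2) ∂D.μ := hint.symm
        _ ≤ ∫⁻ x in O ∩ N, ENNReal.ofReal (‖G x‖ ^ 2) ∂D.μ :=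
            lintegral_mono_set fun x hx => ⟨hs hx.1, hx.2⟩)
  refine ⟨e.source, e.open_source.mem_nhds hye, g ∘ D.p, fun x hx => ?_, fun x hx hxN => ?_⟩
  · have h1 : DifferentiableAt ℂ g (D.p x) :=
      hg.differentiableAt (isOpen_ball.mem_nhds (ht ▸ he.mem_target hx))
    refine h1.congr_of_eventuallyEq ?_
    filter_upwards [(D.rd.locH (he.sub hx)).p_lift] with z hz
    simp only [Function.comp_apply, hz]
  · have h2 : (J ∘ e.symm) (D.p x) ≠ 0 := by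
      rw [Function.comp_apply, he.symm_p hx]
      exact (hNJ x (he.sub hx)).1 hxN
    rw [Function.comp_apply, hgf _ (ht ▸ he.mem_target hx) h2, Function.comp_apply, he.symm_p hx]

/-- Two functions that are continuous at a point and agree near it on a dense set agree at it. -/
theorem eq_of_dense {Y : Type} [TopologicalSpace Y] {N : Set Y} (hN : Dense N) {f g : Y → ℂ}
    {y : Y} (hf : ContinuousAt f y) (hg : ContinuousAt g y)
    (h : ∀ᶠ x in 𝓝 y, x ∈ N → f x = g x) : f y = g y := by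
  have : (𝓝[N] y).NeBot := mem_closure_iff_nhdsWithin_neBot.1 (hN y)
  exact tendsto_nhds_unique_of_eventuallyEq (l := 𝓝[N] y)
    (hf.tendsto.mono_left nhdsWithin_le_nhds) (hg.tendsto.mono_left nhdsWithin_le_nhds)
    (eventually_nhdsWithin_iff.2 h)

/-- Gluing of the local extensions. -/
theorem glue {Y : Type} [TopologicalSpace Y] {p : Y → E n} {W N : Set Y} (hW : RD p W)
    (hN : Dense N) (G : Y → ℂ)
    (h : ∀ y ∈ W, ∃ O ∈ 𝓝 y, ∃ F : Y → ℂ, (∀ x ∈ O, Hol p F x) ∧ ∀ x ∈ O, x ∈ N → F x = G x) :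
    ∃ s : Y → ℂ, (∀ y ∈ W, Hol p s y) ∧ (∀ y ∈ W, y ∈ N → s y = G y) ∧ ∀ y ∉ W, s y = 0 := by
  have key : ∀ y ∈ W, ∃ F : Y → ℂ, Hol p F y ∧ (y ∈ N → F y = G y) ∧
      (fun x => if x ∈ W then limUnder (𝓝[N] x) G else 0) =ᶠ[𝓝 y] F := fun y hy => by
    obtain ⟨O, hO, F, hF, hFG⟩ := h y hy
    refine ⟨F, hF y (mem_of_mem_nhds hO), hFG y (mem_of_mem_nhds hO), ?_⟩
    filter_upwards [eventually_mem_nhds_iff.2 hO, hW.opn.mem_nhds hy] with x hx hxW
    have : (𝓝[N] x).NeBot := mem_closure_iff_nhdsWithin_neBot.1 (hN x)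
    rw [if_pos hxW]
    refine Tendsto.limUnder_eq ?_
    refine (((hF x (mem_of_mem_nhds hx)).continuousAt (hW.locH hxW)).tendsto.mono_left
      nhdsWithin_le_nhds).congr' (eventually_nhdsWithin_iff.2 ?_)
    filter_upwards [hx] with z hz using hFG z hz
  refine ⟨fun x => if x ∈ W then limUnder (𝓝[N] x) G else 0, fun y hy => ?_, fun y hy hyN => ?_,
    fun y hy => if_neg hy⟩
  · obtain ⟨F, h1, -, h3⟩ := key y hy
    exact h1.congr (hW.locH hy) h3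
  · obtain ⟨F, -, h2, h3⟩ := key y hy
    exact h3.self_of_nhds.trans (h2 hyN)

/-- Change of frame for the weighted norm. -/
theorem wt_eq (C : Ctx n) (a b : ℕ) {i j : C.ι} {y : C.Y} (hi : y ∈ C.W i) (hj : y ∈ C.W j)
    (c : ℂ) : normSq c * Real.exp (-C.wt a b i y) =
      ‖c * C.P.d i j (C.π y) ^ a * C.P.ξ i j (C.π y) ^ b‖ ^ 2 * Real.exp (-C.wt a b j y) := by
  have h1 := normSq_pos.2 (C.good.d0 i _ _ hi hj)
  have h2 := normSq_pos.2 (C.good.ξ0 i _ _ hi hj)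
  rw [← normSq_eq_norm_sq, Ctx.wt, Ctx.wt]
  simp only [map_mul, map_pow, Function.comp_apply]
  rw [C.good.relφ i _ _ hi hj, C.good.relκ i _ _ hi hj]
  rw [show ∀ s t u w : ℝ, -(a * (s + t) + b * (u + w)) = -(a * s + b * u) - a * t - b * w from
    fun _ _ _ _ => by ring, Real.exp_sub, Real.exp_sub, Real.exp_nat_mul, Real.exp_nat_mul,
    Real.exp_log h1, Real.exp_log h2]
  field_simp

/-- Local square integrability in another chart. -/
theorem l2 (hVOL : St_VOL) (C : Ctx n) (a b : ℕ) {i j : C.ι} {N : Set C.Y} (hNo : IsOpen N)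
    (hNi : N ⊆ C.W i) (g : C.Y → ℂ) {y : C.Y} (hy : y ∈ C.W j) {O : Set C.Y} (hO : O ∈ 𝓝 y)
    (hL : ∫⁻ x in O ∩ N, ENNReal.ofReal (normSq (g x) * Real.exp (-C.wt a b i x)) ∂C.V ≠ ∞) :
    ∃ O' ∈ 𝓝 y, ∫⁻ x in O' ∩ N, ENNReal.ofReal
      (‖g x * C.P.d i j (C.π x) ^ a * C.P.ξ i j (C.π x) ^ b‖ ^ 2) ∂C.leb j ≠ ∞ := by
  have hc : ContinuousAt (fun x => Real.exp (C.κ j x) * Real.exp (-C.wt a b j x)) y :=
    (Real.continuous_exp.continuousAt.comp ((Ctx.sm_κ hy).continuousAt (Ctx.locH hy))).mul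
      (Real.continuous_exp.continuousAt.comp ((Ctx.sm_wt hy).continuousAt (Ctx.locH hy)).neg)
  obtain ⟨m, hm0, hm⟩ := exists_between
    (mul_pos (Real.exp_pos (C.κ j y)) (Real.exp_pos (-C.wt a b j y)))
  obtain ⟨O', hO', ho, hyO⟩ := mem_nhds_iff.1 (inter_mem hO (inter_mem ((C.rd j).opn.mem_nhds hy)
    (hc.tendsto.eventually (lt_mem_nhds hm))))
  refine ⟨O', ho.mem_nhds hyO, ?_⟩
  have hS : MeasurableSet (O' ∩ N) := (ho.inter hNo).measurableSet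
  have h1 : ∫⁻ x in O' ∩ N, ENNReal.ofReal (normSq (g x) * Real.exp (-C.wt a b i x)) ∂C.V ≠ ∞ :=
    ne_top_of_le_ne_top hL (lintegral_mono_set fun x hx => ⟨(hO' hx.1).1, hx.2⟩)
  rw [← lintegral_indicator hS, (hVOL n C).2.1 j ⟨_, hy⟩] at h1
  have h2 : ENNReal.ofReal m * ∫⁻ x in O' ∩ N, ENNReal.ofReal
      (‖g x * C.P.d i j (C.π x) ^ a * C.P.ξ i j (C.π x) ^ b‖ ^ 2) ∂C.leb j ≠ ∞ := by
    refine ne_top_of_le_ne_top h1 ?_
    rw [← lintegral_indicator hS, ← lintegral_const_mul' _ _ ENNReal.ofReal_ne_top]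
    refine lintegral_mono fun x => ?_
    by_cases hx : x ∈ O' ∩ N
    · rw [indicator_of_mem hx, indicator_of_mem hx, wt_eq C a b (hNi hx.2) (hO' hx.1).2.1,
        ← ENNReal.ofReal_mul hm0.le, ← ENNReal.ofReal_mul (Real.exp_pos _).le]
      refine ENNReal.ofReal_le_ofReal ?_
      have h3 : m < Real.exp (C.κ j x) * Real.exp (-C.wt a b j x) := (hO' hx.1).2.2
      calc m * ‖g x * C.P.d i j (C.π x) ^ a * C.P.ξ i j (C.π x) ^ b‖ ^ 2
          ≤ Real.exp (C.κ j x) * Real.exp (-C.wt a b j x) *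
            ‖g x * C.P.d i j (C.π x) ^ a * C.P.ξ i j (C.π x) ^ b‖ ^ 2 :=
            mul_le_mul_of_nonneg_right h3.le (sq_nonneg _)
        _ = _ := by ring
    · rw [indicator_of_notMem hx, indicator_of_notMem hx, mul_zero, mul_zero]
  exact fun h => h2 (by rw [h, ENNReal.mul_top (ENNReal.ofReal_pos.2 hm0).ne'])

theorem hol_ξ (C : Ctx n) {i j : C.ι} {y : C.Y} (hj : y ∈ C.W j) :
    Hol (C.q j) (fun x => C.P.ξ i j (C.π x)) y :=
  (Ctx.hol_π hj).2 ((C.good.secξ i).hol j _ hj)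

end EXT

theorem stEXT (hREM : St_REM) (hID : St_ID) (hTR : St_TR) (hVOL : St_VOL) (hRM : St_RM) :
    St_EXT := by
  intro n C i a b a' b' σ g hσ hσ0 hU hg hL
  have hN : Dense (C.π ⁻¹' C.nz a' b' σ) := (hID n C a' b' σ hσ hσ0).1
  have hNo : IsOpen (C.π ⁻¹' C.nz a' b' σ) := (C.isOpen_nz hσ).preimage C.continuous_π
  have hNi : C.π ⁻¹' C.nz a' b' σ ⊆ C.W i := fun x hx => hU hx
  have key : ∀ j : C.ι, ∃ s : C.Y → ℂ, (∀ y ∈ C.W j, Hol (C.q j) s y) ∧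
      (∀ y ∈ C.W j, y ∈ C.π ⁻¹' C.nz a' b' σ →
        s y = g y * C.P.d i j (C.π y) ^ a * C.P.ξ i j (C.π y) ^ b) ∧ ∀ y ∉ C.W j, s y = 0 := by
    intro j
    refine EXT.glue (C.rd j) hN _ fun y hy => ?_
    obtain ⟨O, hO, h1⟩ := hL y
    obtain ⟨O', hO', h2⟩ := EXT.l2 hVOL C a b hNo hNi g hy hO h1
    refine EXT.loc hREM hRM (C.dom j (C.W j) (C.rd j).opn subset_rfl) _ (fun x => σ j (C.π x)) _ y
      hy hN (fun x hx => ?_) (fun x hx => ?_) (fun x hx hxN => ?_) hNo hO' h2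
    · exact not_congr (Ctx.nr_eq_zero (C := C.base) hσ hx)
    · exact (Ctx.hol_π hx).2 (hσ.hol j _ hx)
    · have h3 := hTR n C i j x (hNi hxN) hx
      exact DifferentiableAt.mul (DifferentiableAt.mul (h3.2.1 g (hg x hxN))
        (DifferentiableAt.pow h3.2.2.2.2.2.2.2.1 a)) (DifferentiableAt.pow (EXT.hol_ξ C hx) b)
  choose s hs1 hs2 hs3 using key
  refine ⟨s, ⟨hs1, fun j k y hj hk => ?_, hs3⟩, fun y hy => ?_⟩
  · refine EXT.eq_of_dense (f := s k)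
      (g := fun x => s j x * C.P.d j k (C.π x) ^ a * C.P.ξ j k (C.π x) ^ b) hN
      ((hs1 k y hk).continuousAt (Ctx.locH hk))
      ((((hs1 j y hj).continuousAt (Ctx.locH hj)).mul
        (((hTR n C j k y hj hk).2.2.2.2.2.2.2.1.continuousAt (Ctx.locH hk)).pow a)).mul
        (((EXT.hol_ξ C hk).continuousAt (Ctx.locH hk)).pow b)) ?_
    filter_upwards [(C.rd j).opn.mem_nhds hj, (C.rd k).opn.mem_nhds hk] with x xj xk xN
    rw [hs2 k x xk xN, hs2 j x xj xN, (hTR n C i j x (hNi xN) xj).2.2.2.2.2.2.1 k xk,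
      (C.good.secξ i).cmp j k _ xj xk]
    ring
  · have hy' : y ∈ C.W i := hNi hy
    have h1 := (hTR n C i i y hy' hy').2.2.2.2.2.2.1 i hy'
    have h2 : C.P.d i i (C.π y) = 1 :=
      mul_left_cancel₀ (C.good.d0 i i _ hy' hy') (by rw [← h1, mul_one])
    rw [hs2 i y hy' hy, h2, C.good.ξ1 i _ hy']
    simp

end Pool.Agent.Lib.SV
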