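import Pool.Agent.Lib.SV.Blue3

/-! The package of the weight and the partition function. -/

open scoped Classical Topology ENNReal
open Set MeasureTheory Complex Filter Metric

noncomputable section

namespace Pool.Agent.Lib.SV

namespace FAM

open Ctx

variable {n : ℕ} {C : Ctx n} {i : C.ι} {y : C.Y}

theorem locπ (y : C.Y) : LocH C.π y :=
  LocH.of_on (C.isLocalHomeomorph.isLocalHomeomorphOn (s := univ)) (mem_univ y)

theorem transfer (hy : y ∈ C.W i) : ∀ᶠ x in 𝓝 (C.π y), C.π (lift C.π y x) = x ∧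
    lift C.π y x ∈ C.W i ∧ ∀ w : C.Y → ℝ,
      (Psh (C.q i) w (lift C.π y x) → Psh (C.P.p i) (w ∘ lift C.π y) x) ∧
      ∀ v, lev (C.P.p i) (w ∘ lift C.π y) x v = lev (C.q i) w (lift C.π y x) v := by
  have h := locπ y
  filter_upwards [h.p_lift, h.tendsto_lift.eventually ((C.rd i).opn.mem_nhds hy),
    h.tendsto_lift.eventually h.lift_p.eventually_nhds] with x h1 h2 h3
  refine ⟨h1, h2, fun w => ?_⟩
  have e : (w ∘ lift C.π y) ∘ C.π =ᶠ[𝓝 (lift C.π y x)] w := by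
    filter_upwards [h3] with z hz
    simp only [Function.comp_apply, hz]
  have e2 : ∀ v, lev (C.P.p i) (w ∘ lift C.π y) x v = lev (C.q i) w (lift C.π y x) v := fun v => by
    rw [← lev_congr (locH h2) e, lev_π h2, h1]
  refine ⟨fun hw => ⟨?_, fun v => by rw [e2]; exact hw.2 v⟩, e2⟩
  have := (sm_π h2).1 (hw.1.congr (locH h2) e)
  rwa [h1] at this

theorem lu_transfer (hy : y ∈ C.W i) {U : C.Y → ℝ} (hU : LU (C.q i) U y) :
    LU (C.P.p i) (U ∘ lift C.π y) (C.π y) := by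
  obtain ⟨V, hV, H⟩ := hU
  refine ⟨_, inter_mem ((locπ y).tendsto_lift.eventually hV) (transfer hy), fun δ hδ => ?_⟩
  obtain ⟨u', hu'⟩ := H δ hδ
  exact ⟨u' ∘ lift C.π y, fun x hx => ⟨(hx.2.2.2 u').1 (hu' _ hx.1).1, (hu' _ hx.1).2⟩⟩

theorem wf_nonneg (m : ℕ) {r : ℕ} (g : Fin r → C.ι → C.Y → ℂ) (y : C.Y) : 0 ≤ C.wf m g y :=
  Real.rpow_nonneg (Finset.sum_nonneg fun _ _ => normSq_nonneg _) _

theorem cont_wf {m b r : ℕ} {g : Fin r → C.ι → C.Y → ℂ} (hg : ∀ j, g j ∈ C.Sec m b)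
    (hy : y ∈ C.W C.o) : ContinuousAt (C.wf m g) y := by
  refine ContinuousAt.rpow_const ?_ (Or.inr (by positivity))
  exact tendsto_finsetSum _ fun j _ =>
    continuous_normSq.continuousAt.comp (((hg j).hol C.o y hy).continuousAt (locH hy))

theorem sheets {χ : C.Y → ℝ} (hχ : HasCompactSupport χ) (y : C.Y) : ∃ S : Finset C.Γ,
    (∀ γ ∈ S, γ • y ∈ tsupport χ) ∧ ∀ᶠ x in 𝓝 y, ∀ γ ∉ S, χ (γ • x) = 0 := by
  obtain ⟨L, hL, hyL⟩ := exists_compact_mem_nhds y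
  have hf := C.pd L _ hL hχ
  refine ⟨hf.toFinset.filter fun γ => γ • y ∈ tsupport χ, fun γ h => (Finset.mem_filter.1 h).2, ?_⟩
  have h1 : ∀ᶠ x in 𝓝 y, ∀ γ ∈ hf.toFinset, γ • y ∉ tsupport χ → γ • x ∉ tsupport χ := by
    refine (eventually_all_finset _).2 fun γ _ => ?_
    by_cases h : γ • y ∈ tsupport χ
    · exact Eventually.of_forall fun _ h' => absurd h h'
    · filter_upwards [(C.continuous_smul γ).continuousAt.eventually
        ((isClosed_tsupport χ).isOpen_compl.mem_nhds h)] with x hx _ using hx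
  filter_upwards [h1, hyL] with x a1 a2 γ hγ
  refine image_eq_zero_of_notMem_tsupport fun h => ?_
  have a3 : γ ∈ hf.toFinset := hf.mem_toFinset.2 ⟨x, a2, h⟩
  exact a1 γ a3 (fun h' => hγ (Finset.mem_filter.2 ⟨a3, h'⟩)) h

end FAM

open FAM Ctx in
theorem stFAM (hFAM1 : St_FAM1) (hFAMA : St_FAMA) (hFAMB : St_FAMB) (hN0 : St_N0) : St_FAM := by
  intro n C ρ m b s₀ N K ε hn hρ hm hb hs hN hNs hK hKN hε
  obtain ⟨K2, hK2, hKO, hK2N⟩ := exists_compact_between hK hN hKN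
  obtain ⟨r, g, χ, δ, hδ, hg, hχs, hχc, hχ01, hχg, hpos, hT⟩ :=
    hFAM1 n C ρ m b s₀ K2 ε hn hρ hm hb hs hK2 (hK2N.trans hNs) hε
  obtain ⟨hinv, hsum, ⟨M, hM⟩, hlu⟩ := hFAMA n C m b r s₀ g δ hm hs hδ hg
  have hW : ∀ y, C.π y ∈ N → y ∈ C.W C.o := fun y h => (hNs h).1
  have hs0 : ∀ x ∈ N, s₀ C.o x ≠ 0 := fun x h h0 =>
    (hNs h).2 ((nr_eq_zero (C := C.base) hs (hNs h).1).2 h0)
  have hON : interior K2 ⊆ N := interior_subset.trans hK2N
  have huπ : ∀ y, C.Tt m g δ s₀ (C.τ (C.π y)) = C.Tt m g δ s₀ y := fun y => by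
    obtain ⟨γ, hγ⟩ := C.exists_smul (C.πτ (C.π y))
    rw [← hγ, hinv]
  have loc : ∀ y, C.π y ∈ interior K2 → ∃ S : Finset C.Γ, S.Nonempty ∧ ∀ᶠ x in 𝓝 y,
      ((∀ γ ∈ S, 0 < C.wf m g (γ • x)) ∧ (∀ γ ∉ S, χ (γ • x) = 0) ∧
        ∑ γ ∈ S, C.wf m g (γ • x) ≤ 3 / 2 * ∑ γ ∈ S, χ (γ • x) * C.wf m g (γ • x)) ∧
      C.Tt m g δ s₀ x ≤ 3 / 2 * ∑ γ ∈ S, C.wf m g (γ • x) := by
    intro y hy
    obtain ⟨S, h1, h2⟩ := sheets hχc y
    have h3 : ∀ᶠ x in 𝓝 y, ∀ γ ∈ S, 0 < C.wf m g (γ • x) :=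
      (eventually_all_finset _).2 fun γ hγ =>
        ((cont_wf (fun j => (hg j).1) ((smul_mem_W γ).2 (hW y (hON hy)))).comp
          (f := fun x => γ • x) (C.continuous_smul γ).continuousAt).eventually
          (lt_mem_nhds (hpos _ (h1 γ hγ) (by rw [C.π_smul]; exact interior_subset hy)))
    have h4 : ∀ᶠ x in 𝓝 y, C.π x ∈ interior K2 :=
      C.continuous_π.continuousAt.eventually (isOpen_interior.mem_nhds hy)
    have h5 : ∀ᶠ x in 𝓝 y,
        C.Tt m g δ s₀ x ≤ 3 / 2 * ∑ γ ∈ S, χ (γ • x) * C.wf m g (γ • x) := by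
      filter_upwards [h2, h4] with x a1 a2
      have := hT x (interior_subset a2)
      rwa [finsum_eq_sum_of_support_subset (s := S) _ fun γ hγ => by
        by_contra h
        exact hγ (by simp [a1 γ h])] at this
    refine ⟨S, ?_, ?_⟩
    · rw [Finset.nonempty_iff_ne_empty]
      rintro rfl
      have a1 := h5.self_of_nhds
      have a2 : 0 ≤ ∑' γ : C.Γ, C.wf m g (γ • y) := tsum_nonneg fun γ => wf_nonneg m g _
      have a3 := mul_pos hδ (Real.rpow_pos_of_pos (normSq_pos.2 (hs0 _ (hON hy))) (2 / m : ℝ))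
      simp only [Finset.sum_empty, mul_zero, Ctx.Tt] at a1
      linarith
    · filter_upwards [h2, h3, h4, h5] with x a1 a2 a3 a4
      refine ⟨⟨a2, a1, le_trans ?_ a4⟩, a4.trans (mul_le_mul_of_nonneg_left
        (Finset.sum_le_sum fun γ _ => mul_le_of_le_one_left (wf_nonneg m g _) (hχ01 _).2)
        (by norm_num))⟩
      have b1 := (hsum x (hW x (hON a3))).sum_le_tsum S fun γ _ => wf_nonneg m g _
      have b2 := mul_nonneg hδ.le (Real.rpow_nonneg (normSq_nonneg (s₀ C.o (C.π x))) (2 / m : ℝ))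
      unfold Ctx.Tt
      linarith
  refine ⟨fun x => Real.log (C.Tt m g δ s₀ (C.τ x)), C.f1 m g χ, interior K2, isOpen_interior, hKO,
    hON, fun x hx => ?_, ⟨M, fun x hx => ?_⟩, fun y hy => ?_, ⟨tsupport χ, hχc, fun y hy => ?_⟩,
    fun x hx => ?_⟩
  · have hx' : C.π (C.τ x) ∈ N := by rwa [C.πτ]
    have h1 := lu_transfer (hW _ hx') (hlu _ (hW _ hx') (hs0 _ hx')).1
    have h2 := transfer (hW _ hx')
    rw [C.πτ] at h1 h2
    refine h1.congr ?_
    filter_upwards [h2] with z hz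
    rw [Function.comp_apply, ← huπ (lift _ _ z), hz.1]
  · have hx' : C.π (C.τ x) ∈ N := by rwa [C.πτ]
    have h1 := hM _ (hW _ hx') (hs0 _ hx')
    simpa only [Ctx.wt, Function.comp_apply, C.πτ] using h1
  · obtain ⟨S, h1, h2⟩ := loc y hy
    obtain ⟨a1, a2, -⟩ := hFAMB n C m b r g χ ε S hm (fun j => (hg j).1) hχs hχ01 hχg h1 y
      (hW y (hON hy)) (h2.mono fun _ h => h.1)
    refine ⟨by simpa only [one_smul] using a1 1, ?_, a2⟩
    exact div_nonneg (mul_nonneg (hχ01 _).1 (wf_nonneg m g _))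
      (finsum_nonneg fun γ => mul_nonneg (hχ01 _).1 (wf_nonneg m g _))
  · rw [Ctx.f1, image_eq_zero_of_notMem_tsupport hy, zero_mul, zero_div]
  · have hx' : C.π (C.τ x) ∈ interior K2 := by rw [C.πτ]; exact hKO hx
    have hy := hW _ (hON hx')
    obtain ⟨S, h1, h2⟩ := loc _ hx'
    obtain ⟨a1, a2⟩ := (hlu _ hy (hs0 _ (hON hx'))).2 S (h2.mono fun _ h => ⟨h.1.1, h.2⟩)
    have h3 := transfer hy
    have h4 := lu_transfer hy a2
    have h5 := (locπ (C.τ x)).tendsto_lift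
    rw [C.πτ] at h3 h4 h5
    have h6 : LU (C.P.p C.o) (fun z => Real.log (C.Tt m g δ s₀ (C.τ z)) -
        (C.U0 m g S ∘ lift C.π (C.τ x)) z / 2) x := by
      refine h4.congr ?_
      filter_upwards [h3] with z hz
      rw [Function.comp_apply, Function.comp_apply, ← huπ (lift _ _ z), hz.1]
    refine ⟨C.U0 m g S ∘ lift C.π (C.τ x), ?_⟩
    filter_upwards [h3, h6.eventually, h5.eventually a1, h5.eventually h2.eventually_nhds] with
      z b1 b2 b3 b4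
    refine ⟨(b1.2.2 _).1 b3, b2, fun v => ?_⟩
    obtain ⟨-, -, c1⟩ := hFAMB n C m b r g χ ε S hm (fun j => (hg j).1) hχs hχ01 hχg h1 _
      b1.2.1 (b4.mono fun _ h => h.1)
    obtain ⟨γ, hγ⟩ := C.exists_smul ((C.πτ z).trans b1.1.symm)
    rw [← hγ, (hN0 n C).1 _ γ _ b1.2.1, (b1.2.2 _).2]
    have c2 := c1 v
    rwa [om_eq b1.2.1, b1.1] at c2

end Pool.Agent.Lib.SV
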