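import Pool.Agent.Lib.SV.Blue3

/-! Choice of the family of sections, of the cut-off function and of the floor. -/

open scoped Classical Topology ENNReal
open Set MeasureTheory Complex Filter Metric

noncomputable section

namespace Pool.Agent.Lib.SV

namespace FAM1

theorem sum_rpow_le {ι : Type} (s : Finset ι) (a : ι → ℝ) (ha : ∀ i, 0 ≤ a i) {p : ℝ}
    (h0 : 0 < p) (h1 : p ≤ 1) : (∑ i ∈ s, a i) ^ p ≤ ∑ i ∈ s, a i ^ p := by
  induction s using Finset.induction_on with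
  | empty => simp [Real.zero_rpow h0.ne']
  | insert i s hi ih =>
    rw [Finset.sum_insert hi, Finset.sum_insert hi]
    exact (Real.rpow_add_le_add_rpow (ha i) (Finset.sum_nonneg fun j _ => ha j) h0.le h1).trans
      (by linarith)

variable {n : ℕ} {C : Ctx n} {m b : ℕ}

theorem lp_smul {e : ℝ} (he : 0 ≤ e) {g : C.ι → C.Y → ℂ} (hg : C.Lp m b e g) (c : ℂ) :
    C.Lp m b e (c • g) := by
  unfold Ctx.Lp at *
  have : ∀ y, ENNReal.ofReal (C.nr m b (c • g) y ^ (e / 2)) =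
      ENNReal.ofReal (normSq c ^ (e / 2)) * ENNReal.ofReal (C.nr m b g y ^ (e / 2)) := fun y => by
    rw [Ctx.nr_smul, Real.mul_rpow (normSq_nonneg _) (Ctx.nr_nonneg _ _),
      ENNReal.ofReal_mul (Real.rpow_nonneg (normSq_nonneg _) _)]
  simp only [this]
  rw [lintegral_const_mul' _ _ ENNReal.ofReal_ne_top]
  exact ENNReal.mul_ne_top ENNReal.ofReal_ne_top hg

theorem cover {e : ℝ} {L : Set C.Y} (hL : IsCompact L)
    (h : ∀ y ∈ L, ∃ s ∈ C.Sec m b, C.Lp m b e s ∧ C.nr m b s y ≠ 0) :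
    ∃ (r : ℕ) (G : Fin r → C.ι → C.Y → ℂ), (∀ j, G j ∈ C.Sec m b ∧ C.Lp m b e (G j)) ∧
      ∀ y ∈ L, 0 < ∑ j, C.nr m b (G j) y := by
  choose! s hs hl hn using h
  obtain ⟨t, ht⟩ := hL.elim_finite_subcover (fun y : L => {x | C.nr m b (s y) x ≠ 0})
    (fun y => isOpen_ne.preimage (Ctx.continuous_nr (hs y y.2)))
    (fun y hy => mem_iUnion.2 ⟨⟨y, hy⟩, hn y hy⟩)
  refine ⟨t.card, fun j => s (t.equivFin.symm j).1,
    fun j => ⟨hs _ (t.equivFin.symm j).1.2, hl _ (t.equivFin.symm j).1.2⟩, fun y hy => ?_⟩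
  obtain ⟨x, hx, hxy⟩ := mem_iUnion₂.1 (ht hy)
  refine Finset.sum_pos' (fun j _ => Ctx.nr_nonneg _ _) ⟨t.equivFin ⟨x, hx⟩, Finset.mem_univ _, ?_⟩
  simp only [Equiv.symm_apply_apply]
  exact lt_of_le_of_ne (Ctx.nr_nonneg _ _) (Ne.symm hxy)

theorem wf_eq {r : ℕ} {g : Fin r → C.ι → C.Y → ℂ} (hg : ∀ j, g j ∈ C.Sec m b) {y : C.Y}
    (hy : y ∈ C.W C.o) : C.wf m g y =
      (∑ j, C.nr m b (g j) y) ^ (2 / m : ℝ) * Real.exp (C.wt m b C.o y) ^ (2 / m : ℝ) := by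
  rw [← Real.mul_rpow (Finset.sum_nonneg fun j _ => Ctx.nr_nonneg _ _) (Real.exp_pos _).le,
    Finset.sum_mul, Ctx.wf]
  congr 1
  refine Finset.sum_congr rfl fun j _ => ?_
  rw [Ctx.nr_eq (hg j) hy, mul_assoc, ← Real.exp_add, neg_add_cancel, Real.exp_zero, mul_one]

theorem cont_of_gsm {f : C.Y → ℝ} (hf : C.GSm f) : Continuous f :=
  continuous_iff_continuousAt.2 fun y =>
    (hf _ y (Ctx.mem_ix y)).continuousAt (Ctx.locH (Ctx.mem_ix y))

/-- The abstract inequality. -/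
theorem key {Γ : Type} (A A0 A1 χ : Γ → ℝ) (s : Finset Γ) (c0 B : ℝ) (h0 : ∀ γ, 0 ≤ A0 γ)
    (hl : ∀ γ, A0 γ ≤ A γ) (hu : ∀ γ, A γ ≤ A0 γ + A1 γ) (hc : c0 ≤ ∑ γ ∈ s, A0 γ)
    (ht : ∀ t, Disjoint t s → ∑ γ ∈ t, A0 γ ≤ c0 / 8) (h1 : ∀ t : Finset Γ, ∑ γ ∈ t, A1 γ ≤ c0 / 8)
    (hB : B ≤ c0 / 8) (hχ : ∀ γ, 0 ≤ χ γ) (hs : ∀ γ ∈ s, χ γ = 1)
    (hf : (Function.support χ).Finite) (hc0 : 0 < c0) :
    ∑' γ, A γ + B ≤ 3 / 2 * ∑ᶠ γ, χ γ * A γ := by
  have hA : ∀ γ, 0 ≤ A γ := fun γ => (h0 γ).trans (hl γ)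
  have e1 : ∑' γ, A γ ≤ ∑ γ ∈ s, A0 γ + c0 / 8 + c0 / 8 := by
    refine Real.tsum_le_of_sum_le hA fun u => ?_
    have a1 : ∑ γ ∈ u, A γ ≤ ∑ γ ∈ u, A0 γ + ∑ γ ∈ u, A1 γ := by
      rw [← Finset.sum_add_distrib]
      exact Finset.sum_le_sum fun γ _ => hu γ
    have a2 : ∑ γ ∈ u, A0 γ ≤ ∑ γ ∈ u \ s, A0 γ + ∑ γ ∈ s, A0 γ := by
      rw [← Finset.sum_union Finset.sdiff_disjoint]
      exact Finset.sum_le_sum_of_subset_of_nonneg (fun γ hγ => by
        by_cases h : γ ∈ s <;> simp [h, hγ]) fun γ _ _ => h0 γ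
    have a3 := ht _ (Finset.sdiff_disjoint (s := s) (t := u))
    have a4 := h1 u
    linarith
  have e2 : ∑ γ ∈ s, A0 γ ≤ ∑ᶠ γ, χ γ * A γ := by
    rw [finsum_eq_sum_of_support_subset (s := s ∪ hf.toFinset)]
    · refine le_trans (Finset.sum_le_sum fun γ hγ => ?_)
        (Finset.sum_le_sum_of_subset_of_nonneg Finset.subset_union_left
          fun γ _ _ => mul_nonneg (hχ γ) (hA γ))
      rw [hs γ hγ, one_mul]
      exact hl γ
    · intro γ hγ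
      have : χ γ ≠ 0 := left_ne_zero_of_mul hγ
      simp [this]
  linarith

end FAM1

open FAM1 in
theorem stFAM1 (hIT : St_IT) (hTAIL : St_TAIL) (hCHI : St_CHI) (hVOL : St_VOL) : St_FAM1 := by
  intro n C ρ m b s₀ K ε hn hρ hm hb hs₀ hK hKs hε
  have hm0 : (0 : ℝ) < m := by exact_mod_cast (by omega : 0 < m)
  have hm2 : (2 : ℝ) ≤ m := by exact_mod_cast hm
  have hp0 : (0 : ℝ) < 2 / m := by positivity
  have hp1 : (2 : ℝ) / m ≤ 1 := (div_le_one hm0).2 hm2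
  have he0 : (0 : ℝ) < 4 / m := by positivity
  have hee : (4 / m : ℝ) / 2 = 2 / m := by ring
  have hKc : IsClosed (C.π ⁻¹' K) := hK.isClosed.preimage C.continuous_π
  have hW : ∀ y, C.π y ∈ K → y ∈ C.W C.o := fun y hy => (hKs hy).1
  have hcov : ∀ L : Set C.Y, IsCompact L → ∃ (r : ℕ) (G : Fin r → C.ι → C.Y → ℂ),
      (∀ j, G j ∈ C.Sec m b ∧ C.Lp m b (4 / m) (G j)) ∧
      ∀ y ∈ L ∩ C.π ⁻¹' K, 0 < ∑ j, C.nr m b (G j) y := fun L hL => by
    refine cover (hL.inter_right hKc) fun y hy => ?_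
    obtain ⟨s, h1, h2, h3⟩ := hIT n C ρ m b s₀ hn hρ (by omega) hb hs₀ y (hW y hy.2)
    refine ⟨s, h1, h3, fun h => ?_⟩
    rw [Ctx.nr_eq_zero h1 (hW y hy.2), h2] at h
    exact (hKs hy.2).2 ((Ctx.nr_eq_zero (C := C.base) hs₀ (hKs hy.2).1).2 h)
  obtain ⟨F, hF, hFc⟩ := C.fd
  have hD : IsCompact (F ∩ C.π ⁻¹' K) := hF.inter_right hKc
  obtain ⟨r0, G0, hG0, hpos0⟩ := hcov F hF
  have hc0 : Continuous fun y => (∑ j, C.nr m b (G0 j) y) ^ (2 / m : ℝ) :=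
    (continuous_finset_sum _ fun j _ => Ctx.continuous_nr (hG0 j).1).rpow_const
      fun _ => Or.inr hp0.le
  obtain ⟨c0, hc0p, hc0l⟩ := hD.exists_forall_le' (a := (0 : ℝ)) hc0.continuousOn
    fun y hy => Real.rpow_pos_of_pos (hpos0 y hy) _
  have htl := fun j => (hTAIL n C m b _ (G0 j) he0 (hG0 j).1 (hG0 j).2).2.2.2.2 _ hD
    (c0 / 8 / (r0 + 1)) (by positivity)
  choose sj hsj using htl
  set s : Finset C.Γ := insert 1 (Finset.univ.biUnion sj) with hs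
  have hρc : Continuous fun y => ∑ γ ∈ s, ρ (γ • y) :=
    continuous_finset_sum _ fun γ _ => (cont_of_gsm hρ.sm).comp (C.continuous_smul γ)
  obtain ⟨R0, hR0⟩ := hD.bddAbove_image hρc.continuousOn
  obtain ⟨M, hM⟩ := hCHI n C ρ hρ
  set R : ℝ := max (max 1 R0) (|M| / ε) with hR
  have hR1 : 1 ≤ R := (le_max_left _ _).trans (le_max_left _ _)
  have hRR0 : R0 ≤ R := (le_max_right _ _).trans (le_max_left _ _)
  have hRM : M / R ^ 2 ≤ ε := by
    have h1 : |M| ≤ R * ε := (div_le_iff₀ hε).1 (le_max_right _ _)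
    have h2 := le_abs_self M
    rw [div_le_iff₀ (by positivity)]
    nlinarith [mul_nonneg (mul_nonneg hε.le (by linarith : (0 : ℝ) ≤ R)) (by linarith : 0 ≤ R - 1)]
  obtain ⟨χ, hχ1, hχ2, hχ3, hχ4, hχ5⟩ := hM R hR1
  obtain ⟨r1, G1, hG1, hpos1⟩ := hcov _ (hρ.cpt (2 * R))
  have htb := fun j => (hTAIL n C m b _ (G1 j) he0 (hG1 j).1 (hG1 j).2).2.2.2.1
  choose Mj hMj using htb
  set η : ℝ := c0 / 8 / (∑ j, |Mj j| + 1) with hη
  have hSM : 0 ≤ ∑ j, |Mj j| := Finset.sum_nonneg fun j _ => abs_nonneg _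
  have hη0 : 0 < η := by positivity
  set t : ℝ := Real.sqrt (η ^ (m / 2 : ℝ)) with ht
  have htsq : normSq (t : ℂ) = η ^ (m / 2 : ℝ) := by
    rw [normSq_ofReal, Real.mul_self_sqrt (Real.rpow_nonneg hη0.le _)]
  have htp : normSq (t : ℂ) ^ (2 / m : ℝ) = η := by
    rw [htsq, ← Real.rpow_mul hη0.le, show (m / 2 : ℝ) * (2 / m) = 1 by field_simp, Real.rpow_one]
  have ht0 : 0 < normSq (t : ℂ) := by
    rw [htsq]
    exact Real.rpow_pos_of_pos hη0 _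
  obtain ⟨M0, hM0⟩ := (isCompact_univ (X := C.X)).bddAbove_image
    ((Ctx.continuous_nr (C := C.base) hs₀).rpow_const
      (p := (2 / m : ℝ)) fun _ => Or.inr hp0.le).continuousOn
  set g : Fin (r0 + r1) → C.ι → C.Y → ℂ := Fin.append G0 fun j => (t : ℂ) • G1 j with hg
  have hgS : ∀ j, g j ∈ C.Sec m b ∧ C.Lp m b (4 / m) (g j) := fun j => by
    refine Fin.addCases (fun i => ?_) (fun i => ?_) j
    · rw [hg, Fin.append_left]
      exact hG0 i
    · rw [hg, Fin.append_right]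
      exact ⟨Submodule.smul_mem _ _ (hG1 i).1, lp_smul he0.le (hG1 i).2 _⟩
  have hsum : ∀ y, ∑ j, C.nr m b (g j) y =
      ∑ j, C.nr m b (G0 j) y + normSq (t : ℂ) * ∑ j, C.nr m b (G1 j) y := fun y => by
    rw [Fin.sum_univ_add, Finset.mul_sum]
    simp only [hg, Fin.append_left, Fin.append_right, Ctx.nr_smul]
  have hn0 : ∀ y, 0 ≤ ∑ j, C.nr m b (G0 j) y := fun y =>
    Finset.sum_nonneg fun j _ => Ctx.nr_nonneg _ _
  have hn1 : ∀ y, 0 ≤ ∑ j, C.nr m b (G1 j) y := fun y =>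
    Finset.sum_nonneg fun j _ => Ctx.nr_nonneg _ _
  have hsupp : ∀ y, y ∉ {y | ρ y ≤ 2 * R} → χ y = 0 := fun y hy =>
    hχ4 y (le_of_lt (not_le.1 hy))
  refine ⟨r0 + r1, g, χ, c0 / 8 / (|M0| + 1), by positivity, hgS, hχ1,
    HasCompactSupport.intro (hρ.cpt (2 * R)) hsupp, hχ2, fun y hy v => (hχ5 _ y hy v).trans
      (mul_le_mul_of_nonneg_right hRM (Ctx.om_nonneg hy v)), fun y hy hyK => ?_, fun y hyK => ?_⟩
  · have h1 : y ∈ {y | ρ y ≤ 2 * R} :=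
      closure_minimal (s := Function.support χ) (fun x hx => by_contra fun h => hx (hsupp x h))
        (hρ.cpt (2 * R)).isClosed hy
    rw [wf_eq (fun j => (hgS j).1) (hW y hyK), hsum]
    have := mul_pos ht0 (hpos1 y ⟨h1, hyK⟩)
    have := hn0 y
    positivity
  · obtain ⟨γ0, hγ0⟩ := hFc y
    have hyD : γ0 • y ∈ F ∩ C.π ⁻¹' K := ⟨hγ0, by rwa [mem_preimage, C.π_smul]⟩
    have hk := key (fun γ => (∑ j, C.nr m b (g j) (γ • γ0 • y)) ^ (2 / m : ℝ))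
      (fun γ => (∑ j, C.nr m b (G0 j) (γ • γ0 • y)) ^ (2 / m : ℝ))
      (fun γ => η * ∑ j, C.nr m b (G1 j) (γ • γ0 • y) ^ (2 / m : ℝ))
      (fun γ => χ (γ • γ0 • y)) s c0
      (c0 / 8 / (|M0| + 1) * C.base.nr m b s₀ (C.π y) ^ (2 / m : ℝ))
      (fun γ => Real.rpow_nonneg (hn0 _) _)
      (fun γ => Real.rpow_le_rpow (hn0 _) (by
        rw [hsum]
        exact le_add_of_nonneg_right (mul_nonneg ht0.le (hn1 _))) hp0.le)
      (fun γ => by
        rw [hsum]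
        refine (Real.rpow_add_le_add_rpow (hn0 _) (mul_nonneg ht0.le (hn1 _)) hp0.le hp1).trans ?_
        rw [Real.mul_rpow ht0.le (hn1 _), htp]
        exact add_le_add le_rfl (mul_le_mul_of_nonneg_left
          (sum_rpow_le _ _ (fun j => Ctx.nr_nonneg _ _) hp0 hp1) hη0.le))
      (by
        refine le_trans ?_ (Finset.single_le_sum
          (f := fun γ => (∑ j, C.nr m b (G0 j) (γ • γ0 • y)) ^ (2 / m : ℝ))
          (fun γ _ => Real.rpow_nonneg (hn0 _) _) (Finset.mem_insert_self 1 _))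
        rw [one_smul]
        exact hc0l _ hyD)
      (fun u hu => by
        refine (Finset.sum_le_sum fun γ _ =>
          sum_rpow_le _ _ (fun j => Ctx.nr_nonneg _ _) hp0 hp1).trans ?_
        rw [Finset.sum_comm]
        have h1 : ∀ j ∈ (Finset.univ : Finset (Fin r0)),
            ∑ γ ∈ u, C.nr m b (G0 j) (γ • γ0 • y) ^ (2 / m : ℝ) ≤ c0 / 8 / (r0 + 1) := fun j _ => by
          have := hsj j _ hyD u (hu.mono_right fun γ hγ =>
            Finset.mem_insert_of_mem (Finset.mem_biUnion.2 ⟨j, Finset.mem_univ _, hγ⟩))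
          rwa [hee] at this
        refine (Finset.sum_le_card_nsmul _ _ _ h1).trans ?_
        rw [Finset.card_univ, Fintype.card_fin, nsmul_eq_mul, mul_div_assoc',
          div_le_iff₀ (by positivity)]
        nlinarith)
      (fun u => by
        rw [← Finset.mul_sum, Finset.sum_comm]
        have h1 : ∀ j ∈ (Finset.univ : Finset (Fin r1)),
            ∑ γ ∈ u, C.nr m b (G1 j) (γ • γ0 • y) ^ (2 / m : ℝ) ≤ |Mj j| := fun j _ => by
          have h2 := (hTAIL n C m b _ (G1 j) he0 (hG1 j).1 (hG1 j).2).2.2.1 (γ0 • y)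
          have h3 := hMj j (γ0 • y)
          rw [hee] at h2 h3
          exact (h2.sum_le_tsum u fun γ _ => Real.rpow_nonneg (Ctx.nr_nonneg _ _) _).trans
            (h3.trans (le_abs_self _))
        refine (mul_le_mul_of_nonneg_left (Finset.sum_le_sum h1) hη0.le).trans ?_
        rw [hη, div_mul_eq_mul_div, div_le_iff₀ (by positivity)]
        nlinarith)
      (by
        have h1 : C.base.nr m b s₀ (C.π y) ^ (2 / m : ℝ) ≤ |M0| + 1 :=
          (hM0 ⟨C.π y, mem_univ _, rfl⟩).trans ((le_abs_self M0).trans (by linarith))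
        refine (mul_le_mul_of_nonneg_left h1 (by positivity)).trans (le_of_eq ?_)
        field_simp)
      (fun γ => (hχ2 _).1)
      (fun γ hγ => hχ3 _ (le_trans (Finset.single_le_sum (f := fun γ => ρ (γ • γ0 • y))
        (fun γ _ => hρ.nonneg _) hγ) ((hR0 ⟨_, hyD, rfl⟩).trans hRR0)))
      ((C.pd {γ0 • y} _ isCompact_singleton (hρ.cpt (2 * R))).subset fun γ hγ =>
        ⟨_, rfl, by_contra fun h => hγ (hsupp _ h)⟩) hc0p
    have hwf : ∀ γ : C.Γ, C.wf m g (γ • y) = (∑ j, C.nr m b (g j) (γ • y)) ^ (2 / m : ℝ) *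
        Real.exp (C.wt m b C.o y) ^ (2 / m : ℝ) := fun γ => by
      rw [wf_eq (fun j => (hgS j).1) ((Ctx.smul_mem_W γ).2 (hW y hyK)), Ctx.wt_smul]
    have hs0 : normSq (s₀ C.o (C.π y)) ^ (2 / m : ℝ) = C.base.nr m b s₀ (C.π y) ^ (2 / m : ℝ) *
        Real.exp (C.wt m b C.o y) ^ (2 / m : ℝ) := by
      rw [← Real.mul_rpow (Ctx.nr_nonneg _ _) (Real.exp_pos _).le,
        Ctx.nr_eq (C := C.base) hs₀ (hKs hyK).1, mul_assoc, ← Real.exp_add]
      congr 1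
      rw [show -C.base.wt m b C.o (C.π y) + C.wt m b C.o y = 0 from neg_add_cancel _,
        Real.exp_zero, mul_one]
    simp only [smul_smul] at hk
    rw [show (∑' γ : C.Γ, (∑ j, C.nr m b (g j) ((γ * γ0) • y)) ^ (2 / m : ℝ)) =
        ∑' γ : C.Γ, (∑ j, C.nr m b (g j) (γ • y)) ^ (2 / m : ℝ) from
        (Equiv.mulRight γ0).tsum_eq fun γ => (∑ j, C.nr m b (g j) (γ • y)) ^ (2 / m : ℝ),
      show (∑ᶠ γ : C.Γ, χ ((γ * γ0) • y) * (∑ j, C.nr m b (g j) ((γ * γ0) • y)) ^ (2 / m : ℝ)) =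
        ∑ᶠ γ : C.Γ, χ (γ • y) * (∑ j, C.nr m b (g j) (γ • y)) ^ (2 / m : ℝ) from
        finsum_comp_equiv (Equiv.mulRight γ0)
          (f := fun γ => χ (γ • y) * (∑ j, C.nr m b (g j) (γ • y)) ^ (2 / m : ℝ))] at hk
    have hω : 0 ≤ Real.exp (C.wt m b C.o y) ^ (2 / m : ℝ) := by positivity
    unfold Ctx.Tt
    simp only [hwf, hs0, ← mul_assoc]
    rw [tsum_mul_right, ← finsum_mul, ← add_mul, ← mul_assoc]
    exact mul_le_mul_of_nonneg_right hk hω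

end Pool.Agent.Lib.SV
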