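import Pool.Agent.Lib.SV.Blue3

/-! The weight attached to a family of sections. -/

open scoped Classical Topology ENNReal
open Set MeasureTheory Complex Filter Metric

set_option linter.unusedVariables false

noncomputable section

namespace Pool.Agent.Lib.SV

namespace FAMA

section real

theorem sum_rpow_le {ι : Type} (s : Finset ι) {a : ι → ℝ} (ha : ∀ i, 0 ≤ a i) {θ : ℝ} (h0 : 0 < θ)
    (h1 : θ ≤ 1) : (∑ i ∈ s, a i) ^ θ ≤ ∑ i ∈ s, a i ^ θ := by
  induction s using Finset.induction_on with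
  | empty => simp [Real.zero_rpow h0.ne']
  | insert i s hi ih =>
    rw [Finset.sum_insert hi, Finset.sum_insert hi]
    exact (Real.rpow_add_le_add_rpow (ha i) (Finset.sum_nonneg fun j _ => ha j) h0.le h1).trans
      (by linarith)

theorem log_sub_le {a b c η : ℝ} (hc : 0 < c) (ha : c ≤ a) (hb : c ≤ b) (hη : 0 ≤ η)
    (h : a - b ≤ η * c) : Real.log a - Real.log b ≤ η := by
  have ha' : 0 < a := hc.trans_le ha
  have hb' : 0 < b := hc.trans_le hb
  rw [← Real.log_div ha'.ne' hb'.ne']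
  refine (Real.log_le_sub_one_of_pos (div_pos ha' hb')).trans ?_
  rw [sub_le_iff_le_add, div_le_iff₀ hb']
  nlinarith [mul_le_mul_of_nonneg_left hb hη]

theorem abs_log_sub_le {a b c η : ℝ} (hc : 0 < c) (ha : c ≤ a) (hb : c ≤ b) (hη : 0 ≤ η)
    (h : |a - b| ≤ η * c) : |Real.log a - Real.log b| ≤ η := by
  have h1 := abs_le.1 h
  have h2 := log_sub_le hc ha hb hη h1.2
  have h3 := log_sub_le hc hb ha hη (by linarith [h1.1])
  exact abs_le.2 ⟨by linarith, h2⟩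

theorem exp_mul_log {a θ : ℝ} (ha : 0 < a) : Real.exp (θ * Real.log a) = a ^ θ := by
  rw [Real.rpow_def_of_pos ha, mul_comm]

theorem th_pos {m : ℕ} (hm : 2 ≤ m) : (0 : ℝ) < 2 / m := by
  have : (2 : ℝ) ≤ m := by exact_mod_cast hm
  positivity

theorem th_le {m : ℕ} (hm : 2 ≤ m) : (2 / m : ℝ) ≤ 1 := by
  have : (2 : ℝ) ≤ m := by exact_mod_cast hm
  rw [div_le_one (by linarith)]
  exact this

end real

section rd

variable {n : ℕ} {Y : Type} [TopologicalSpace Y] {p : Y → E n} {y : Y}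

theorem psh_congr (h : LocH p y) {f g : Y → ℝ} (hf : Psh p f y) (e : g =ᶠ[𝓝 y] f) : Psh p g y :=
  ⟨hf.1.congr h e, fun v => by
    rw [lev_congr h e]
    exact hf.2 v⟩

theorem psh_const (c : ℝ) : Psh p (fun _ => c) y := ⟨sm_const c, fun v => (lev_const c v).ge⟩

theorem ev_diff (h : LocH p y) {f : Y → ℂ} (hf : ∀ᶠ x in 𝓝 y, Hol p f x) :
    ∀ᶠ w in 𝓝 (p y), DifferentiableAt ℂ (f ∘ lift p y) w := by
  filter_upwards [h.tendsto_lift.eventually hf, h.tendsto_lift.eventually h.lift_near, h.p_lift]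
    with w h1 h2 h3
  have := ((h2.fun_comp f).differentiableAt_iff (𝕜 := ℂ)).1 h1
  rwa [h3] at this

theorem psh_log (hFS : St_FS) (h : LocH p y) {ι : Type} [Fintype ι] {F : ι → Y → ℂ}
    (hF : ∀ j, ∀ᶠ x in 𝓝 y, Hol p (F j) x) {d : ℝ} (hd : 0 ≤ d)
    (h0 : 0 < ∑ j, normSq (F j y) + d) :
    Psh p (fun x => Real.log (∑ j, normSq (F j x) + d)) y := by
  have h1 := hFS n ι (fun z j => F j (lift p y z)) (p y) d hd (by
    filter_upwards [eventually_all.2 fun j => ev_diff h (hF j)] with w hw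
    exact differentiableAt_pi.2 hw) (by simpa only [nsq, h.lift_self] using h0)
  exact ⟨h1.1, fun v => (h1.2 v).2⟩

theorem lse_lev (hLSE : St_LSE) (h : LocH p y) {ι : Type} {s : Finset ι} {w : ι → Y → ℝ}
    (hs : s.Nonempty) (hw : ∀ i ∈ s, Sm p 2 (w i) y) :
    Sm p 2 (fun x => Real.log (∑ i ∈ s, Real.exp (w i x))) y ∧ ∀ v,
      (∑ i ∈ s, Real.exp (w i y) * lev p (w i) y v) / ∑ i ∈ s, Real.exp (w i y) ≤
        lev p (fun x => Real.log (∑ i ∈ s, Real.exp (w i x))) y v := by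
  have h1 := hLSE n ι s (fun i => w i ∘ lift p y) (p y) hs hw
  refine ⟨h1.1, fun v => ?_⟩
  have h2 := h1.2 v
  have h3 := h1.2 (I • v)
  have h4 : lev p (fun x => Real.log (∑ i ∈ s, Real.exp (w i x))) y v =
      d2 (fun x => Real.log (∑ i ∈ s, Real.exp ((w i ∘ lift p y) x))) (p y) v +
      d2 (fun x => Real.log (∑ i ∈ s, Real.exp ((w i ∘ lift p y) x))) (p y) (I • v) := rfl
  have h5 : ∀ i, (w i ∘ lift p y) (p y) = w i y := fun i => by
    rw [Function.comp_apply, h.lift_self]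
  rw [h4, h2, h3, ← add_div, ← Finset.sum_add_distrib]
  simp only [h5]
  refine div_le_div_of_nonneg_right (Finset.sum_le_sum fun i hi => ?_)
    (Finset.sum_nonneg fun i _ => (Real.exp_pos _).le)
  rw [← mul_add]
  refine mul_le_mul_of_nonneg_left ?_ (Real.exp_pos _).le
  exact add_le_add (le_add_of_nonneg_right (sq_nonneg _)) (le_add_of_nonneg_right (sq_nonneg _))

theorem psh_lse (hLSE : St_LSE) (h : LocH p y) {ι : Type} {s : Finset ι} {w : ι → Y → ℝ}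
    (hs : s.Nonempty) (hw : ∀ i ∈ s, Psh p (w i) y) :
    Psh p (fun x => Real.log (∑ i ∈ s, Real.exp (w i x))) y := by
  have h1 := lse_lev hLSE h hs fun i hi => (hw i hi).1
  refine ⟨h1.1, fun v => le_trans ?_ (h1.2 v)⟩
  exact div_nonneg (Finset.sum_nonneg fun i hi => mul_nonneg (Real.exp_pos _).le ((hw i hi).2 v))
    (Finset.sum_nonneg fun i _ => (Real.exp_pos _).le)

theorem psh_two (hLSE : St_LSE) (h : LocH p y) {a b : Y → ℝ} (ha : Psh p a y) (hb : Psh p b y)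
    (hab : Real.exp (b y) ≤ Real.exp (a y)) :
    Psh p (fun x => Real.log (Real.exp (a x) + Real.exp (b x)) - a x / 2) y := by
  have h1 := lse_lev hLSE h (s := (Finset.univ : Finset Bool)) (w := fun t => bif t then a else b)
    Finset.univ_nonempty (fun t _ => by
      cases t
      · exact hb.1
      · exact ha.1)
  simp only [Fintype.sum_bool, cond_true, cond_false] at h1
  have h2 : (fun x => Real.log (Real.exp (a x) + Real.exp (b x)) - a x / 2) =
      fun x => Real.log (Real.exp (a x) + Real.exp (b x)) - 1 / 2 * a x := by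
    funext x
    ring
  have h3 : Sm p 2 (fun x => 1 / 2 * a x) y := (sm_const _).mul ha.1
  rw [h2]
  refine ⟨h1.1.sub h3, fun v => ?_⟩
  rw [lev_sub h1.1 h3, lev_const_mul ha.1, sub_nonneg]
  refine le_trans ?_ (h1.2 v)
  have h4 := Real.exp_pos (a y)
  have h5 := Real.exp_pos (b y)
  rw [le_div_iff₀ (by linarith)]
  nlinarith [mul_nonneg h5.le (hb.2 v), mul_nonneg (sub_nonneg.2 hab) (ha.2 v)]

end rd

section ctx

variable {n : ℕ} {C : Ctx n} {m b r : ℕ} {s₀ : C.ι → C.X → ℂ} {g : Fin r → C.ι → C.Y → ℂ} {δ : ℝ}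
  {y : C.Y}

theorem wf_nonneg (y : C.Y) : 0 ≤ C.wf m g y :=
  Real.rpow_nonneg (Finset.sum_nonneg fun _ _ => normSq_nonneg _) _

theorem normSq_rpow {s : C.ι → C.Y → ℂ} (hs : s ∈ C.Sec m b) (hy : y ∈ C.W C.o) (θ : ℝ) :
    normSq (s C.o y) ^ θ = Real.exp (θ * C.wt m b C.o y) * C.nr m b s y ^ θ := by
  have h1 : normSq (s C.o y) = Real.exp (C.wt m b C.o y) * C.nr m b s y := by
    rw [Ctx.nr_eq hs hy, mul_left_comm, ← Real.exp_add, add_neg_cancel, Real.exp_zero, mul_one]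
  rw [h1, Real.mul_rpow (Real.exp_pos _).le (Ctx.nr_nonneg _ _), ← Real.exp_mul, mul_comm θ]

theorem wf_le (hm : 2 ≤ m) (hg : ∀ j, g j ∈ C.Sec m b) (hy : y ∈ C.W C.o) (γ : C.Γ) :
    C.wf m g (γ • y) ≤ Real.exp (2 / m * C.wt m b C.o y) *
      ∑ j, C.nr m b (g j) (γ • y) ^ ((4 / m : ℝ) / 2) := by
  have h1 : ((4 / m : ℝ) / 2) = 2 / m := by ring
  rw [h1, Finset.mul_sum]
  refine (sum_rpow_le _ (fun j => normSq_nonneg _) (th_pos hm) (th_le hm)).trans_eq ?_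
  refine Finset.sum_congr rfl fun j _ => ?_
  rw [normSq_rpow (hg j) ((Ctx.smul_mem_W γ).2 hy), Ctx.wt_smul]

theorem e_pos (hm : 2 ≤ m) : (0 : ℝ) < 4 / m := by
  have : (2 : ℝ) ≤ m := by exact_mod_cast hm
  positivity

theorem summable_wf (hTAIL : St_TAIL) (hm : 2 ≤ m)
    (hg : ∀ j, g j ∈ C.Sec m b ∧ C.Lp m b (4 / m) (g j)) (hy : y ∈ C.W C.o) :
    Summable fun γ : C.Γ => C.wf m g (γ • y) :=
  Summable.of_nonneg_of_le (fun γ => wf_nonneg _) (fun γ => wf_le hm (fun j => (hg j).1) hy γ)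
    ((summable_sum fun j _ =>
      (hTAIL n C m b _ (g j) (e_pos hm) (hg j).1 (hg j).2).2.2.1 y).mul_left _)

theorem tsum_le (hTAIL : St_TAIL) (hm : 2 ≤ m)
    (hg : ∀ j, g j ∈ C.Sec m b ∧ C.Lp m b (4 / m) (g j)) : ∃ M : ℝ, ∀ y ∈ C.W C.o,
    ∑' γ : C.Γ, C.wf m g (γ • y) ≤ Real.exp (2 / m * C.wt m b C.o y) * M := by
  have hT := fun j => hTAIL n C m b _ (g j) (e_pos hm) (hg j).1 (hg j).2
  choose M hM using fun j => (hT j).2.2.2.1
  refine ⟨∑ j, M j, fun y hy => ?_⟩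
  refine ((summable_wf hTAIL hm hg hy).tsum_le_tsum (fun γ => wf_le hm (fun j => (hg j).1) hy γ)
    ((summable_sum fun j _ => (hT j).2.2.1 y).mul_left _)).trans ?_
  rw [tsum_mul_left, Summable.tsum_finsetSum fun j _ => (hT j).2.2.1 y]
  exact mul_le_mul_of_nonneg_left (Finset.sum_le_sum fun j _ => hM j y) (Real.exp_pos _).le

theorem tail (hTAIL : St_TAIL) (hm : 2 ≤ m)
    (hg : ∀ j, g j ∈ C.Sec m b ∧ C.Lp m b (4 / m) (g j)) {K : Set C.Y} (hK : IsCompact K)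
    (hKW : K ⊆ C.W C.o) {η : ℝ} (hη : 0 < η) : ∃ s : Finset C.Γ, ∀ x ∈ K, ∀ s' : Finset C.Γ,
      s ⊆ s' → ∑' γ : C.Γ, C.wf m g (γ • x) ≤ ∑ γ ∈ s', C.wf m g (γ • x) + η := by
  have hT := fun j => hTAIL n C m b _ (g j) (e_pos hm) (hg j).1 (hg j).2
  have hc : ContinuousOn (fun x => Real.exp (2 / m * C.wt m b C.o x)) K := fun x hx =>
    (Real.continuous_exp.continuousAt.comp (continuousAt_const.mul
      ((Ctx.sm_wt (hKW hx)).continuousAt (Ctx.locH (hKW hx))))).continuousWithinAt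
  obtain ⟨B₀, hB₀⟩ := hK.exists_bound_of_continuousOn hc
  have hB : ∀ x ∈ K, Real.exp (2 / m * C.wt m b C.o x) ≤ |B₀| + 1 := fun x hx => by
    have h1 := hB₀ x hx
    rw [Real.norm_eq_abs] at h1
    linarith [le_abs_self B₀, le_abs_self (Real.exp (2 / m * C.wt m b C.o x))]
  have hB1 : 0 < |B₀| + 1 := by positivity
  have hη' : 0 < η / ((|B₀| + 1) * (r + 1)) := by positivity
  choose s hs using fun j => (hT j).2.2.2.2 K hK _ hη'
  refine ⟨Finset.univ.biUnion s, fun x hx s' hs' => ?_⟩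
  refine (summable_wf hTAIL hm hg (hKW hx)).tsum_le_of_sum_le fun t => ?_
  have h1 : ∑ γ ∈ t, C.wf m g (γ • x) ≤ ∑ γ ∈ s' ∪ t \ s', C.wf m g (γ • x) :=
    Finset.sum_le_sum_of_subset_of_nonneg (by
      rw [Finset.union_sdiff_self_eq_union]
      exact Finset.subset_union_right) fun γ _ _ => wf_nonneg _
  rw [Finset.sum_union Finset.disjoint_sdiff] at h1
  have h2 : ∑ γ ∈ t \ s', C.wf m g (γ • x) ≤ η := by
    refine (Finset.sum_le_sum fun γ _ => wf_le hm (fun j => (hg j).1) (hKW hx) γ).trans ?_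
    rw [← Finset.mul_sum, Finset.sum_comm]
    have h3 : ∑ j, ∑ γ ∈ t \ s', C.nr m b (g j) (γ • x) ^ ((4 / m : ℝ) / 2) ≤
        ∑ _j : Fin r, η / ((|B₀| + 1) * (r + 1)) :=
      Finset.sum_le_sum fun j _ => hs j x hx _ (Finset.sdiff_disjoint.mono_right
        ((Finset.subset_biUnion_of_mem s (Finset.mem_univ j)).trans hs'))
    rw [Finset.sum_const, Finset.card_univ, Fintype.card_fin, nsmul_eq_mul] at h3
    have h4 : (r : ℝ) * (η / ((|B₀| + 1) * (r + 1))) ≤ (r + 1) * (η / ((|B₀| + 1) * (r + 1))) :=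
      mul_le_mul_of_nonneg_right (by linarith) hη'.le
    calc _ ≤ (|B₀| + 1) * ((r + 1) * (η / ((|B₀| + 1) * (r + 1)))) :=
          mul_le_mul (hB x hx) (h3.trans h4) (Finset.sum_nonneg fun j _ => Finset.sum_nonneg
            fun γ _ => Real.rpow_nonneg (Ctx.nr_nonneg _ _) _) hB1.le
      _ = η := by field_simp
  linarith

theorem ev_hol {s : C.ι → C.Y → ℂ} (hs : s ∈ C.Sec m b) (hy : y ∈ C.W C.o) :
    ∀ᶠ x in 𝓝 y, Hol (C.q C.o) (s C.o) x := by
  filter_upwards [(C.rd C.o).opn.mem_nhds hy] with x hx using hs.hol _ x hx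

theorem psh_sheet (hFS : St_FS) (hm : 2 ≤ m) (hg : ∀ j, g j ∈ C.Sec m b) (hy : y ∈ C.W C.o)
    (γ : C.Γ) {d : ℝ} (hd : 0 ≤ d) (h0 : 0 < ∑ j, normSq (g j C.o (γ • y)) + d) :
    Psh (C.q C.o) (fun x => 2 / m * Real.log (∑ j, normSq (g j C.o (γ • x)) + d)) y :=
  (psh_log hFS (Ctx.locH hy) (F := fun j => C.tl γ (g j) C.o)
    (fun j => ev_hol (Ctx.tl_mem (hg j) γ) hy) hd h0).const_mul (th_pos hm).le

theorem psh_floor (hFS : St_FS) (hm : 2 ≤ m) (hs : s₀ ∈ C.base.Sec m b) (hy : y ∈ C.W C.o)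
    (h0 : s₀ C.o (C.π y) ≠ 0) :
    Psh (C.q C.o) (fun x => Real.log δ + 2 / m * Real.log (normSq (s₀ C.o (C.π x)))) y := by
  have h1 := psh_log hFS (Ctx.locH hy) (ι := Unit) (F := fun _ => C.pb s₀ C.o)
    (fun _ => ev_hol (Ctx.pb_mem hs) hy) le_rfl (by
      rw [Fintype.sum_unique, add_zero]
      exact normSq_pos.2 h0)
  simp only [Fintype.sum_unique, add_zero] at h1
  exact (psh_const _).add (h1.const_mul (th_pos hm).le)

theorem floor_le (x : C.Y) :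
    δ * normSq (s₀ C.o (C.π x)) ^ (2 / m : ℝ) ≤ C.Tt m g δ s₀ x :=
  le_add_of_nonneg_left (tsum_nonneg fun _ => wf_nonneg _)

/-- Approximation of the total mass by finitely many smoothed sheets. -/
theorem approx (hTAIL : St_TAIL) (hFS : St_FS) (hLSE : St_LSE) (hm : 2 ≤ m)
    (hs : s₀ ∈ C.base.Sec m b) (hδ : 0 < δ)
    (hg : ∀ j, g j ∈ C.Sec m b ∧ C.Lp m b (4 / m) (g j)) (hy : y ∈ C.W C.o)
    (h0 : s₀ C.o (C.π y) ≠ 0) : ∃ K ∈ 𝓝 y, ∃ c > 0, K ⊆ C.W C.o ∧ (∀ x ∈ K, c ≤ C.Tt m g δ s₀ x) ∧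
      ∀ S : Finset C.Γ, ∀ η > 0, ∃ R : C.Y → ℝ, ∀ x ∈ K, Psh (C.q C.o) R x ∧ c ≤ Real.exp (R x) ∧
        |C.Tt m g δ s₀ x - (∑ γ ∈ S, C.wf m g (γ • x) + Real.exp (R x))| ≤ η := by
  have hθ := th_pos hm
  have hc : ContinuousAt (fun x => δ * normSq (s₀ C.o (C.π x)) ^ (2 / m : ℝ)) y :=
    continuousAt_const.mul ((continuous_normSq.continuousAt.comp
      (((Ctx.pb_mem hs).hol _ y hy).continuousAt (Ctx.locH hy))).rpow_const (Or.inr hθ.le))
  have hp : 0 < δ * normSq (s₀ C.o (C.π y)) ^ (2 / m : ℝ) :=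
    mul_pos hδ (Real.rpow_pos_of_pos (normSq_pos.2 h0) _)
  obtain ⟨K, hK, hKs, hKc⟩ := local_compact_nhds (inter_mem ((C.rd C.o).opn.mem_nhds hy)
    (hc.eventually (lt_mem_nhds (half_lt_self hp))))
  set c := δ * normSq (s₀ C.o (C.π y)) ^ (2 / m : ℝ) / 2 with hcdef
  have hc0 : 0 < c := half_pos hp
  have hKW : K ⊆ C.W C.o := fun x hx => (hKs hx).1
  have hfl : ∀ x ∈ K, c < δ * normSq (s₀ C.o (C.π x)) ^ (2 / m : ℝ) := fun x hx => (hKs hx).2
  have hne : ∀ x ∈ K, s₀ C.o (C.π x) ≠ 0 := fun x hx h => by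
    have h1 := hfl x hx
    rw [h, map_zero, Real.zero_rpow hθ.ne', mul_zero] at h1
    linarith
  refine ⟨K, hK, c, hc0, hKW, fun x hx => (hfl x hx).le.trans (floor_le x), fun S η hη => ?_⟩
  obtain ⟨s, hs'⟩ := tail hTAIL hm hg hKc hKW hη
  have hε : 0 < η / ((s \ S).card + 1 : ℝ) := by positivity
  set d := (η / ((s \ S).card + 1 : ℝ)) ^ (2 / m : ℝ)⁻¹ with hd
  have hd0 : 0 < d := Real.rpow_pos_of_pos hε _
  have hd1 : d ^ (2 / m : ℝ) = η / ((s \ S).card + 1 : ℝ) := Real.rpow_inv_rpow hε.le hθ.ne'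
  have hN : ∀ x : C.Y, 0 ≤ ∑ j, normSq (g j C.o x) := fun x =>
    Finset.sum_nonneg fun _ _ => normSq_nonneg _
  let w : Option C.Γ → C.Y → ℝ := fun o => o.elim
    (fun x => Real.log δ + 2 / m * Real.log (normSq (s₀ C.o (C.π x))))
    fun γ x => 2 / m * Real.log (∑ j, normSq (g j C.o (γ • x)) + d)
  refine ⟨fun x => Real.log (∑ o ∈ Finset.insertNone (s \ S), Real.exp (w o x)), fun x hx => ?_⟩
  have hne' : (Finset.insertNone (s \ S)).Nonempty := ⟨none, Finset.none_mem_insertNone⟩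
  have h1 : Real.exp (Real.log (∑ o ∈ Finset.insertNone (s \ S), Real.exp (w o x))) =
      δ * normSq (s₀ C.o (C.π x)) ^ (2 / m : ℝ) +
        ∑ γ ∈ s \ S, (∑ j, normSq (g j C.o (γ • x)) + d) ^ (2 / m : ℝ) := by
    rw [Real.exp_log (Finset.sum_pos (fun o _ => Real.exp_pos _) hne'), Finset.sum_insertNone]
    simp only [w, Option.elim_none, Option.elim_some]
    rw [Real.exp_add, Real.exp_log hδ, exp_mul_log (normSq_pos.2 (hne x hx))]
    refine congrArg _ (Finset.sum_congr rfl fun γ _ => ?_)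
    exact exp_mul_log (add_pos_of_nonneg_of_pos (hN _) hd0)
  have h2 : ∑ γ ∈ s \ S, C.wf m g (γ • x) ≤
      ∑ γ ∈ s \ S, (∑ j, normSq (g j C.o (γ • x)) + d) ^ (2 / m : ℝ) :=
    Finset.sum_le_sum fun γ _ => Real.rpow_le_rpow (hN _) (le_add_of_nonneg_right hd0.le) hθ.le
  have h3 : ∑ γ ∈ s \ S, (∑ j, normSq (g j C.o (γ • x)) + d) ^ (2 / m : ℝ) ≤
      ∑ γ ∈ s \ S, C.wf m g (γ • x) + η := by
    refine (Finset.sum_le_sum fun γ _ =>
      Real.rpow_add_le_add_rpow (hN _) hd0.le hθ.le (th_le hm)).trans ?_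
    rw [Finset.sum_add_distrib, Finset.sum_const, nsmul_eq_mul, hd1]
    have h4 : ((s \ S).card : ℝ) * (η / ((s \ S).card + 1 : ℝ)) ≤
        ((s \ S).card + 1 : ℝ) * (η / ((s \ S).card + 1 : ℝ)) :=
      mul_le_mul_of_nonneg_right (by linarith) hε.le
    rw [mul_div_cancel₀ _ (by positivity)] at h4
    exact add_le_add le_rfl h4
  have h5 : ∑ γ ∈ S ∪ s \ S, C.wf m g (γ • x) =
      ∑ γ ∈ S, C.wf m g (γ • x) + ∑ γ ∈ s \ S, C.wf m g (γ • x) :=
    Finset.sum_union Finset.disjoint_sdiff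
  have h6 := hs' x hx (S ∪ s \ S) (by
    rw [Finset.union_sdiff_self_eq_union]
    exact Finset.subset_union_right)
  have h7 : ∑ γ ∈ S ∪ s \ S, C.wf m g (γ • x) ≤ ∑' γ : C.Γ, C.wf m g (γ • x) :=
    (summable_wf hTAIL hm hg (hKW hx)).sum_le_tsum _ fun γ _ => wf_nonneg _
  have h8 : 0 ≤ ∑ γ ∈ s \ S, C.wf m g (γ • x) := Finset.sum_nonneg fun γ _ => wf_nonneg _
  refine ⟨psh_lse hLSE (Ctx.locH (hKW hx)) hne' fun o _ => ?_, ?_, ?_⟩
  · cases o with
    | none => exact psh_floor hFS hm hs (hKW hx) (hne x hx)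
    | some γ =>
      exact psh_sheet hFS hm (fun j => (hg j).1) (hKW hx) γ hd0.le
        (add_pos_of_nonneg_of_pos (hN _) hd0)
  · rw [h1]
    linarith [hfl x hx]
  · rw [h1, Ctx.Tt]
    exact abs_le.2 ⟨by linarith, by linarith⟩

theorem psh_U0 (hFS : St_FS) (hLSE : St_LSE) (hm : 2 ≤ m) (hg : ∀ j, g j ∈ C.Sec m b)
    (hy : y ∈ C.W C.o) {S : Finset C.Γ} (hS : S.Nonempty)
    (h : ∀ᶠ x in 𝓝 y, ∀ γ ∈ S, 0 < C.wf m g (γ • x)) : Psh (C.q C.o) (C.U0 m g S) y := by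
  have hθ := th_pos hm
  have hN : ∀ x : C.Y, 0 < C.wf m g x → 0 < ∑ j, normSq (g j C.o x) + 0 := fun x hx => by
    rw [add_zero]
    refine (Finset.sum_nonneg fun _ _ => normSq_nonneg _).lt_of_ne fun h1 => ?_
    rw [Ctx.wf, ← h1, Real.zero_rpow hθ.ne'] at hx
    exact lt_irrefl _ hx
  refine psh_congr (Ctx.locH hy) (psh_lse hLSE (Ctx.locH hy) hS
    (w := fun γ x => 2 / m * Real.log (∑ j, normSq (g j C.o (γ • x)) + 0)) fun γ hγ =>
      psh_sheet hFS hm hg hy γ le_rfl (hN _ (h.self_of_nhds γ hγ))) ?_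
  filter_upwards [h] with x hx
  refine congrArg Real.log (Finset.sum_congr rfl fun γ hγ => ?_)
  rw [exp_mul_log (hN _ (hx γ hγ)), add_zero, Ctx.wf]

end ctx

end FAMA

open FAMA in
/-- The weight. -/
theorem stFAMA (hTAIL : St_TAIL) (hFS : St_FS) (hLSE : St_LSE) : St_FAMA := by
  intro n C m b r s₀ g δ hm hs hδ hg
  have hθ := th_pos hm
  refine ⟨fun γ y => ?_, fun y hy => summable_wf hTAIL hm hg hy, ?_, fun y hy h0 => ?_⟩
  · rw [Ctx.Tt, Ctx.Tt, C.π_smul, ← (Equiv.mulRight γ).tsum_eq fun γ' => C.wf m g (γ' • y)]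
    simp only [Equiv.coe_mulRight, mul_smul]
  · obtain ⟨M, hM⟩ := tsum_le hTAIL hm hg
    obtain ⟨B, hB⟩ := (isCompact_univ (X := C.X)).exists_bound_of_continuousOn
      (((Ctx.continuous_nr hs).rpow_const fun _ => Or.inr hθ.le).continuousOn)
    refine ⟨m / 2 * Real.log (M + δ * B), fun y hy h0 => ?_⟩
    have h1 : 0 < C.Tt m g δ s₀ y :=
      (mul_pos hδ (Real.rpow_pos_of_pos (normSq_pos.2 h0) _)).trans_le (floor_le y)
    have h2 : normSq (s₀ C.o (C.π y)) ^ (2 / m : ℝ) ≤ Real.exp (2 / m * C.wt m b C.o y) * B := by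
      have h3 := normSq_rpow (Ctx.pb_mem hs) hy (2 / m : ℝ)
      exact h3.trans_le (mul_le_mul_of_nonneg_left
        ((le_abs_self _).trans (hB (C.π y) (mem_univ _))) (Real.exp_pos _).le)
    have h4 : C.Tt m g δ s₀ y ≤ Real.exp (2 / m * C.wt m b C.o y) * (M + δ * B) := by
      have h5 := hM y hy
      have h6 := mul_le_mul_of_nonneg_left h2 hδ.le
      rw [Ctx.Tt]
      linarith
    have h7 : 0 < M + δ * B := (mul_pos_iff_of_pos_left (Real.exp_pos _)).1 (h1.trans_le h4)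
    have h8 := Real.log_le_log h1 h4
    rw [Real.log_mul (Real.exp_pos _).ne' h7.ne', Real.log_exp] at h8
    have h9 : (0 : ℝ) < m := by
      have : (2 : ℝ) ≤ m := by exact_mod_cast hm
      linarith
    calc _ ≤ m / 2 * (2 / m * C.wt m b C.o y + Real.log (M + δ * B)) :=
          mul_le_mul_of_nonneg_left h8 (by positivity)
      _ = _ := by field_simp
  · obtain ⟨K, hK, c, hc, hKW, hcT, hA⟩ := approx hTAIL hFS hLSE hm hs hδ hg hy h0
    refine ⟨⟨K, hK, fun η hη => ?_⟩, fun S hS => ?_⟩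
    · obtain ⟨R, hR⟩ := hA ∅ (η * c) (mul_pos hη hc)
      refine ⟨R, fun x hx => ⟨(hR x hx).1, ?_⟩⟩
      have h1 := (hR x hx).2.2
      rw [Finset.sum_empty, zero_add] at h1
      have h2 := abs_log_sub_le hc (hcT x hx) (hR x hx).2.1 hη.le h1
      rwa [Real.log_exp] at h2
    · have hne : S.Nonempty := by
        refine Finset.nonempty_iff_ne_empty.2 fun h => ?_
        have h1 := hS.self_of_nhds.2
        rw [h, Finset.sum_empty, mul_zero] at h1
        linarith [hcT y (mem_of_mem_nhds hK)]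
      have hP : ∀ᶠ x in 𝓝 y, Psh (C.q C.o) (C.U0 m g S) x := by
        filter_upwards [hK, hS.eventually_nhds] with x hx h1
        exact psh_U0 hFS hLSE hm (fun j => (hg j).1) (hKW hx) hne (h1.mono fun z hz => hz.1)
      refine ⟨hP, _, inter_mem hK (hP.and hS), fun η hη => ?_⟩
      have hη' : 0 < min η (1 / 3) := lt_min hη (by norm_num)
      obtain ⟨R, hR⟩ := hA S (min η (1 / 3) * c) (mul_pos hη' hc)
      refine ⟨fun x => Real.log (Real.exp (C.U0 m g S x) + Real.exp (R x)) - C.U0 m g S x / 2,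
        fun x hx => ?_⟩
      obtain ⟨hx, hxP, hx1, hx2⟩ := hx
      obtain ⟨hR1, hR2, hR3⟩ := hR x hx
      have h1 : Real.exp (C.U0 m g S x) = ∑ γ ∈ S, C.wf m g (γ • x) :=
        Real.exp_log (Finset.sum_pos hx1 hne)
      have h2 : min η (1 / 3) * c ≤ 1 / 3 * c :=
        mul_le_mul_of_nonneg_right (min_le_right _ _) hc.le
      have h3 := hcT x hx
      have h4 := abs_le.1 hR3
      refine ⟨psh_two hLSE (Ctx.locH (hKW hx)) hxP hR1 (by
        rw [h1]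
        linarith [h4.1]), ?_⟩
      rw [sub_sub_sub_cancel_right]
      refine (abs_log_sub_le hc h3 ?_ hη'.le (by rwa [h1])).trans (min_le_left _ _)
      linarith [Real.exp_pos (C.U0 m g S x)]

end Pool.Agent.Lib.SV
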