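import Pool.Agent.Lib.SV.Blue3

/-! The partition function attached to a family of sections and a cut-off function. -/

open scoped Classical Topology
open Set Filter Complex

noncomputable section

namespace Pool.Agent.Lib.SV

namespace FAMB

/-- The elementary inequality behind the estimate. -/
theorem alg {ι : Type} (s : Finset ι) (e c dc dw : ι → ℝ) (t G V : ℝ) (hs : s.Nonempty)
    (he : ∀ i ∈ s, 0 < e i) (hc : ∀ i ∈ s, 0 ≤ c i ∧ c i ≤ 1) (hG : ∀ i ∈ s, dc i ^ 2 ≤ G)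
    (hD : ∑ i ∈ s, e i ≤ 3 / 2 * ∑ i ∈ s, c i * e i)
    (hV : ∑ i ∈ s, e i * (dw i - t) ^ 2 ≤ V * ∑ i ∈ s, e i) :
    (∑ i ∈ s, |(c i * (e i * dw i) + e i * dc i) / (∑ j ∈ s, c j * e j) -
      c i * e i * (∑ j ∈ s, (c j * (e j * dw j) + e j * dc j)) / (∑ j ∈ s, c j * e j) ^ 2|) ^ 2 ≤
      100 * (V + G) := by
  set T := ∑ i ∈ s, e i with hT
  set D := ∑ i ∈ s, c i * e i with hDD
  have hT0 : 0 < T := Finset.sum_pos he hs
  have hD0 : 0 < D := by linarith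
  set b : ι → ℝ := fun i => c i * (e i * (dw i - t)) + e i * dc i with hb
  set B := ∑ i ∈ s, |b i| with hB
  have hB0 : 0 ≤ B := Finset.sum_nonneg fun _ _ => abs_nonneg _
  have hsum : ∑ j ∈ s, (c j * (e j * dw j) + e j * dc j) = ∑ j ∈ s, b j + t * D := by
    rw [hDD, Finset.mul_sum, ← Finset.sum_add_distrib]
    exact Finset.sum_congr rfl fun j _ => by simp only [hb]; ring
  have hb1 : |∑ j ∈ s, b j| ≤ B := Finset.abs_sum_le_sum_abs _ _
  have h1 : ∑ i ∈ s, |(c i * (e i * dw i) + e i * dc i) / D -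
      c i * e i * (∑ j ∈ s, (c j * (e j * dw j) + e j * dc j)) / D ^ 2| ≤
      ∑ i ∈ s, (|b i| / D + c i * e i * (B / D ^ 2)) := by
    refine Finset.sum_le_sum fun i hi => ?_
    have ha : 0 ≤ c i * e i := mul_nonneg (hc i hi).1 (he i hi).le
    have e1 : (c i * (e i * dw i) + e i * dc i) / D -
        c i * e i * (∑ j ∈ s, (c j * (e j * dw j) + e j * dc j)) / D ^ 2 =
        b i / D - c i * e i * ((∑ j ∈ s, b j) / D ^ 2) := by
      rw [hsum]
      simp only [hb]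
      field_simp
      ring
    rw [e1]
    refine (abs_sub _ _).trans ?_
    rw [abs_div, abs_of_pos hD0, abs_mul, abs_of_nonneg ha, abs_div, abs_of_pos (pow_pos hD0 2)]
    gcongr
  have h2 : ∑ i ∈ s, (|b i| / D + c i * e i * (B / D ^ 2)) = 2 * B / D := by
    rw [Finset.sum_add_distrib, ← Finset.sum_div, ← Finset.sum_mul, ← hB, ← hDD]
    field_simp
    ring
  have h3 : B ^ 2 ≤ T * ∑ i ∈ s, e i * (2 * G + 2 * (dw i - t) ^ 2) := by
    refine Finset.sum_sq_le_sum_mul_sum_of_sq_le_mul s (fun i hi => (he i hi).le)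
      (fun i hi => mul_nonneg (he i hi).le ?_) fun i hi => ?_
    · nlinarith [hG i hi, sq_nonneg (dc i), sq_nonneg (dw i - t)]
    · have k1 : (c i * (dw i - t)) ^ 2 ≤ (dw i - t) ^ 2 := by
        rw [mul_pow]
        exact mul_le_of_le_one_left (sq_nonneg _) (pow_le_one₀ (hc i hi).1 (hc i hi).2)
      have k2 : (c i * (dw i - t) + dc i) ^ 2 ≤ 2 * G + 2 * (dw i - t) ^ 2 := by
        nlinarith [hG i hi, sq_nonneg (c i * (dw i - t) - dc i)]
      rw [sq_abs, show b i = e i * (c i * (dw i - t) + dc i) by simp only [hb]; ring, mul_pow,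
        ← mul_assoc, ← sq]
      exact mul_le_mul_of_nonneg_left k2 (sq_nonneg _)
  have h4 : ∑ i ∈ s, e i * (2 * G + 2 * (dw i - t) ^ 2) ≤ 2 * (V + G) * T := by
    have : ∑ i ∈ s, e i * (2 * G + 2 * (dw i - t) ^ 2) =
        2 * G * T + 2 * ∑ i ∈ s, e i * (dw i - t) ^ 2 := by
      rw [hT, Finset.mul_sum, Finset.mul_sum, ← Finset.sum_add_distrib]
      exact Finset.sum_congr rfl fun j _ => by ring
    rw [this]
    linarith
  have hG0 : 0 ≤ G := by
    obtain ⟨i, hi⟩ := hs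
    exact (sq_nonneg _).trans (hG i hi)
  have hV0 : 0 ≤ V := by
    have : 0 ≤ V * T :=
      (Finset.sum_nonneg fun i hi => mul_nonneg (he i hi).le (sq_nonneg _)).trans hV
    exact nonneg_of_mul_nonneg_left this hT0
  have h5 : B ^ 2 ≤ 2 * (V + G) * (3 / 2 * D) ^ 2 := by
    calc B ^ 2 ≤ T * (2 * (V + G) * T) := h3.trans (mul_le_mul_of_nonneg_left h4 hT0.le)
      _ = 2 * (V + G) * T ^ 2 := by ring
      _ ≤ _ := by gcongr
  calc _ ≤ (2 * B / D) ^ 2 :=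
        pow_le_pow_left₀ (Finset.sum_nonneg fun _ _ => abs_nonneg _) (h1.trans h2.le) 2
    _ = 4 * B ^ 2 / D ^ 2 := by ring
    _ ≤ 4 * (2 * (V + G) * (3 / 2 * D) ^ 2) / D ^ 2 := by gcongr
    _ = 18 * (V + G) := by field_simp; ring
    _ ≤ _ := by linarith

variable {n : ℕ}

/-- The estimate in a chart. -/
theorem euc (hLSE : St_LSE) {ι : Type} (s : Finset ι) (c w : ι → E n → ℝ) (z v : E n) (G : ℝ)
    (hs : s.Nonempty) (hw : ∀ i ∈ s, ContDiffAt ℝ 2 (w i) z) (hl : ∀ i ∈ s, 0 ≤ levE (w i) z v)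
    (hc : ∀ i ∈ s, DifferentiableAt ℝ (c i) z) (h01 : ∀ i ∈ s, 0 ≤ c i z ∧ c i z ≤ 1)
    (hG : ∀ i ∈ s, fderiv ℝ (c i) z v ^ 2 ≤ G)
    (hD : ∑ i ∈ s, Real.exp (w i z) ≤ 3 / 2 * ∑ i ∈ s, c i z * Real.exp (w i z)) :
    (∑ i ∈ s, |fderiv ℝ (fun x => c i x * Real.exp (w i x) /
      ∑ j ∈ s, c j x * Real.exp (w j x)) z v|) ^ 2 ≤
      100 * (levE (fun x => Real.log (∑ i ∈ s, Real.exp (w i x))) z v + G) := by
  have hT0 : 0 < ∑ i ∈ s, Real.exp (w i z) := Finset.sum_pos (fun i _ => Real.exp_pos _) hs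
  have hD0 : 0 < ∑ i ∈ s, c i z * Real.exp (w i z) := by linarith
  have d1 : ∀ i ∈ s, HasFDerivAt (fun x => c i x * Real.exp (w i x))
      (c i z • (Real.exp (w i z) • fderiv ℝ (w i) z) + Real.exp (w i z) • fderiv ℝ (c i) z) z :=
    fun i hi => (hc i hi).hasFDerivAt.fun_mul
      ((hw i hi).differentiableAt (by simp)).hasFDerivAt.exp
  have d2' := (hasDerivAt_inv hD0.ne').comp_hasFDerivAt z (HasFDerivAt.fun_sum d1)
  have d3 : ∀ i ∈ s, fderiv ℝ (fun x => c i x * Real.exp (w i x) /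
      ∑ j ∈ s, c j x * Real.exp (w j x)) z v =
      (c i z * (Real.exp (w i z) * fderiv ℝ (w i) z v) + Real.exp (w i z) * fderiv ℝ (c i) z v) /
        (∑ j ∈ s, c j z * Real.exp (w j z)) - c i z * Real.exp (w i z) *
        (∑ j ∈ s, (c j z * (Real.exp (w j z) * fderiv ℝ (w j) z v) +
          Real.exp (w j z) * fderiv ℝ (c j) z v)) / (∑ j ∈ s, c j z * Real.exp (w j z)) ^ 2 := by
    intro i hi
    have := ((d1 i hi).fun_mul d2').fderiv
    simp only [Function.comp_def, ← div_eq_mul_inv] at this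
    rw [this]
    simp only [add_apply, smul_apply, smul_eq_mul, sum_apply]
    ring
  rw [Finset.sum_congr rfl fun i hi => by rw [d3 i hi]]
  refine alg s (fun i => Real.exp (w i z)) (fun i => c i z) (fun i => fderiv ℝ (c i) z v)
    (fun i => fderiv ℝ (w i) z v)
    (fderiv ℝ (fun x => Real.log (∑ i ∈ s, Real.exp (w i x))) z v) G _ hs
    (fun i _ => Real.exp_pos _) h01 hG hD ?_
  obtain ⟨-, H⟩ := hLSE n ι s w z hs hw
  rw [levE, H, H, ← add_div, div_mul_cancel₀ _ hT0.ne', ← Finset.sum_add_distrib]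
  refine Finset.sum_le_sum fun i hi => ?_
  have h1 := hl i hi
  rw [levE] at h1
  rw [← mul_add]
  refine mul_le_mul_of_nonneg_left ?_ (Real.exp_pos _).le
  nlinarith [sq_nonneg (fderiv ℝ (w i) z (I • v) -
    fderiv ℝ (fun x => Real.log (∑ i ∈ s, Real.exp (w i x))) z (I • v))]

variable {C : Ctx n} {m b r : ℕ} {g : Fin r → C.ι → C.Y → ℂ} {y : C.Y}

/-- The logarithm of the density of a family of sections is plurisubharmonic. -/
theorem psh_log (hFS : St_FS) (hg : ∀ j, g j ∈ C.Sec m b) (hy : y ∈ C.W C.o)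
    (h0 : 0 < C.wf m g y) (hm : 2 ≤ m) : Psh (C.q C.o) (fun x => Real.log (C.wf m g x)) y := by
  have hl := Ctx.locH hy
  have hm0 : (0 : ℝ) < 2 / m := div_pos two_pos (by exact_mod_cast (by omega : 0 < m))
  have hF : ∀ᶠ w in 𝓝 (C.q C.o y), DifferentiableAt ℂ
      (fun w j => g j C.o (lift (C.q C.o) y w)) w := by
    filter_upwards [hl.tendsto_lift.eventually ((C.rd C.o).opn.mem_nhds hy),
      hl.tendsto_lift.eventually hl.lift_near, hl.p_lift] with w h1 h2 h3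
    refine differentiableAt_pi.2 fun j => ?_
    have : DifferentiableAt ℂ (g j C.o ∘ lift (C.q C.o) y) (C.q C.o (lift (C.q C.o) y w)) :=
      ((hg j).hol C.o _ h1).congr_of_eventuallyEq (h2.fun_comp (g j C.o)).symm
    rwa [h3] at this
  have h1 : 0 < nsq (fun j => g j C.o (lift (C.q C.o) y (C.q C.o y))) + 0 := by
    rw [hl.lift_self, add_zero]
    refine lt_of_le_of_ne (nsq_nonneg _) fun h => ?_
    rw [Ctx.wf, show ∑ j, normSq (g j C.o y) = 0 from h.symm, Real.zero_rpow hm0.ne'] at h0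
    exact lt_irrefl _ h0
  obtain ⟨k1, k2⟩ := hFS n (Fin r) _ _ 0 le_rfl hF h1
  have k3 : Psh (C.q C.o) (fun x => Real.log (nsq (fun j => g j C.o x) + 0)) y :=
    ⟨k1, fun v => (k2 v).2⟩
  have e : (fun x => Real.log (C.wf m g x)) =
      fun x => 2 / m * Real.log (nsq (fun j => g j C.o x) + 0) := by
    funext x
    rw [add_zero, Ctx.wf]
    rcases (nsq_nonneg fun j => g j C.o x).eq_or_lt with h | h
    · rw [← h, show ∑ j, normSq (g j C.o x) = 0 from h.symm, Real.zero_rpow hm0.ne', Real.log_zero,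
        mul_zero]
    · exact Real.log_rpow h _
  rw [e]
  exact k3.const_mul hm0.le

theorem den_smul (χ : C.Y → ℝ) (γ : C.Γ) (x : C.Y) :
    ∑ᶠ δ : C.Γ, χ (δ • γ • x) * C.wf m g (δ • γ • x) =
      ∑ᶠ δ : C.Γ, χ (δ • x) * C.wf m g (δ • x) := by
  rw [← finsum_comp_equiv (Equiv.mulRight γ) (f := fun δ : C.Γ => χ (δ • x) * C.wf m g (δ • x))]
  exact finsum_congr fun δ => by rw [Equiv.coe_mulRight, mul_smul]

theorem f1_smul {χ : C.Y → ℝ} {S : Finset C.Γ} {x : C.Y} (h : ∀ γ ∉ S, χ (γ • x) = 0) (γ : C.Γ) :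
    C.f1 m g χ (γ • x) =
      χ (γ • x) * C.wf m g (γ • x) / ∑ δ ∈ S, χ (δ • x) * C.wf m g (δ • x) := by
  rw [Ctx.f1, den_smul, finsum_eq_sum_of_support_subset (s := S)]
  intro δ hδ
  by_contra h'
  exact hδ (by simp only [h δ h', zero_mul])

end FAMB

theorem stFAMB (hFS : St_FS) (hLSE : St_LSE) : St_FAMB := by
  intro n C m b r g χ ε S hm hg hχ h01 hG hS y hy hev
  have hl := Ctx.locH hy
  obtain ⟨hpos, hzero, hD⟩ := hev.self_of_nhds
  have hyγ : ∀ γ : C.Γ, γ • y ∈ C.W C.o := fun γ => (Ctx.smul_mem_W γ).2 hy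
  have hw : ∀ γ ∈ S, Psh (C.q C.o) (fun x => Real.log (C.wf m g (γ • x))) y := fun γ hγ => by
    have := FAMB.psh_log hFS hg (hyγ γ) (hpos γ hγ) hm
    exact ⟨(Ctx.sm_smul hy γ (f := fun x => Real.log (C.wf m g x))).2 this.1, fun v => by
      rw [Ctx.lev_smul hy γ (fun x => Real.log (C.wf m g x))]
      exact this.2 v⟩
  have hc : ∀ γ : C.Γ, Sm (C.q C.o) 2 (fun x => χ (γ • x)) y := fun γ =>
    (Ctx.sm_smul hy γ).2 (hχ C.o _ (hyγ γ))
  have hT0 : 0 < ∑ γ ∈ S, C.wf m g (γ • y) := Finset.sum_pos hpos hS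
  have hD0 : 0 < ∑ γ ∈ S, χ (γ • y) * C.wf m g (γ • y) := by linarith
  have e1 : ∀ γ ∈ S, (fun x => C.f1 m g χ (γ • x)) =ᶠ[𝓝 y] fun x =>
      χ (γ • x) * Real.exp (Real.log (C.wf m g (γ • x))) /
        ∑ δ ∈ S, χ (δ • x) * Real.exp (Real.log (C.wf m g (δ • x))) := fun γ hγ => by
    filter_upwards [hev] with x hx
    rw [FAMB.f1_smul hx.2.1, Real.exp_log (hx.1 γ hγ)]
    exact congrArg _ (Finset.sum_congr rfl fun δ hδ => by rw [Real.exp_log (hx.1 δ hδ)])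
  have e2 : ∀ γ ∉ S, (fun x => C.f1 m g χ (γ • x)) =ᶠ[𝓝 y] fun _ => 0 := fun γ hγ => by
    filter_upwards [hev] with x hx
    rw [FAMB.f1_smul hx.2.1, hx.2.1 γ hγ, zero_mul, zero_div]
  have e3 : C.U0 m g S =ᶠ[𝓝 y] fun x =>
      Real.log (∑ δ ∈ S, Real.exp (Real.log (C.wf m g (δ • x)))) := by
    filter_upwards [hev] with x hx
    exact congrArg _ (Finset.sum_congr rfl fun δ hδ => (Real.exp_log (hx.1 δ hδ)).symm)
  have s1 : ∀ γ ∈ S, Sm (C.q C.o) 2
      (fun x => χ (γ • x) * Real.exp (Real.log (C.wf m g (γ • x)))) y := fun γ hγ =>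
    (hc γ).mul (Sm.comp hl Real.contDiff_exp.contDiffAt (hw γ hγ).1)
  have hD1 : ∑ δ ∈ S, χ (δ • y) * Real.exp (Real.log (C.wf m g (δ • y))) =
      ∑ γ ∈ S, χ (γ • y) * C.wf m g (γ • y) :=
    Finset.sum_congr rfl fun δ hδ => by rw [Real.exp_log (hpos δ hδ)]
  refine ⟨fun γ => (Ctx.sm_smul hy γ).1 ?_, ?_, fun v => ?_⟩
  · by_cases hγ : γ ∈ S
    · refine Sm.congr hl ?_ (e1 γ hγ)
      simp only [div_eq_mul_inv]
      refine (s1 γ hγ).mul (Sm.comp hl (g := fun t : ℝ => t⁻¹) ?_ (Sm.sum s1))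
      rw [hD1]
      exact contDiffAt_inv ℝ hD0.ne'
    · exact Sm.congr hl (sm_const 0) (e2 γ hγ)
  · rw [show ∑ᶠ γ : C.Γ, C.f1 m g χ (γ⁻¹ • y) = ∑ᶠ γ : C.Γ, C.f1 m g χ (γ • y) from
      finsum_comp_equiv (Equiv.inv C.Γ) (f := fun γ : C.Γ => C.f1 m g χ (γ • y)),
      finsum_eq_sum_of_support_subset (s := S)]
    · simp only [FAMB.f1_smul hzero]
      rw [← Finset.sum_div, div_self hD0.ne']
    · intro γ hγ
      by_contra h'
      exact hγ (e2 γ h').self_of_nhds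
  · rw [Ctx.N1, show ∑ᶠ γ : C.Γ, |dd (C.q C.o) (fun x => C.f1 m g χ (γ⁻¹ • x)) y v| =
      ∑ᶠ γ : C.Γ, |dd (C.q C.o) (fun x => C.f1 m g χ (γ • x)) y v| from
      finsum_comp_equiv (Equiv.inv C.Γ)
        (f := fun γ : C.Γ => |dd (C.q C.o) (fun x => C.f1 m g χ (γ • x)) y v|),
      finsum_eq_sum_of_support_subset (s := S)]
    · rw [Finset.sum_congr rfl fun γ hγ => by rw [dd_congr hl (e1 γ hγ)], lev_congr hl e3]
      refine FAMB.euc hLSE S (fun γ => (fun x => χ (γ • x)) ∘ lift (C.q C.o) y)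
        (fun γ => (fun x => Real.log (C.wf m g (γ • x))) ∘ lift (C.q C.o) y) (C.q C.o y) v _ hS
        (fun γ hγ => (hw γ hγ).1) (fun γ hγ => (hw γ hγ).2 v)
        (fun γ _ => (hc γ).differentiableAt) (fun γ _ => h01 _) (fun γ _ => ?_) ?_
      · have h1 := hG _ (hyγ γ) v
        rw [Ctx.om_smul hy, grd, ← Ctx.dd_smul hy γ] at h1
        exact (le_add_of_nonneg_right (sq_nonneg _)).trans h1
      · change ∑ δ ∈ S, Real.exp (Real.log (C.wf m g (δ • lift (C.q C.o) y (C.q C.o y)))) ≤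
          3 / 2 * ∑ δ ∈ S, χ (δ • lift (C.q C.o) y (C.q C.o y)) *
            Real.exp (Real.log (C.wf m g (δ • lift (C.q C.o) y (C.q C.o y))))
        rw [hl.lift_self, hD1, Finset.sum_congr rfl fun δ hδ => Real.exp_log (hpos δ hδ)]
        exact hD
    · intro γ hγ
      by_contra h'
      refine hγ ?_
      have : (fun _ : C.Y => (0 : ℝ)) ∘ lift (C.q C.o) y = fun _ => 0 := rfl
      simp only [dd_congr hl (e2 γ h')]
      simp [dd, this]

end Pool.Agent.Lib.SV
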