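import Pool.Agent.Lib.SV.Blue2

/-! Upper bound for the dimension of the space of sections. -/

open scoped Classical Topology ENNReal
open Set MeasureTheory Complex Filter Metric

noncomputable section

namespace Pool.Agent.Lib.SV

namespace FIN

variable {n : ℕ} (C : Ctx n)

/-- One ball chart around a point, with bounded weights. -/
theorem loc (i : C.ι) (x : C.X) (hx : x ∈ C.P.U i) :
    ∃ (e : OpenPartialHomeomorph C.X (E n)) (ρ B : ℝ), 0 < ρ ∧ 0 ≤ B ∧
      Cht (C.P.p i) (C.P.U i) e ∧ x ∈ e.source ∧ ball (C.P.p i x) (2 * ρ) ⊆ e.target ∧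
      ∀ w ∈ ball (C.P.p i x) (2 * ρ), |C.P.κ i (e.symm w)| ≤ B ∧ |C.P.φ i (e.symm w)| ≤ B := by
  obtain ⟨e, r, hr, he, hxe, -, ht⟩ := (C.good.rd i).exists_ball hx univ_mem
  have hsub : closedBall (C.P.p i x) (2 * (r / 3)) ⊆ e.target := by
    rw [ht]
    exact closedBall_subset_ball (by linarith)
  have hc : ∀ f : C.X → ℝ, (∀ y ∈ C.P.U i, Sm (C.P.p i) 2 f y) →
      ∃ B, ∀ w ∈ closedBall (C.P.p i x) (2 * (r / 3)), ‖f (e.symm w)‖ ≤ B := fun f hf => by
    refine (isCompact_closedBall _ _).exists_bound_of_continuousOn fun w hw => ?_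
    have h1 : e.symm w ∈ C.P.U i := he.sub (e.map_target (hsub hw))
    exact (((hf _ h1).continuousAt ((C.good.rd i).locH h1)).comp
      (e.continuousAt_symm (hsub hw))).continuousWithinAt
  obtain ⟨B1, h1⟩ := hc _ (C.good.smκ i)
  obtain ⟨B2, h2⟩ := hc _ (C.good.smφ i)
  refine ⟨e, r / 3, |B1| + |B2|, by positivity, by positivity, he, hxe,
    ball_subset_closedBall.trans hsub, fun w hw => ⟨?_, ?_⟩⟩
  · have := h1 w (ball_subset_closedBall hw)
    rw [Real.norm_eq_abs] at this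
    linarith [le_abs_self B1, abs_nonneg B2]
  · have := h2 w (ball_subset_closedBall hw)
    rw [Real.norm_eq_abs] at this
    linarith [le_abs_self B2, abs_nonneg B1]

/-- Finitely many ball charts whose halves cover the base; the chart index at each point may be
prescribed. -/
theorem cover (ι₀ : C.X → C.ι) (h₀ : ∀ x, x ∈ C.P.U (ι₀ x)) :
    ∃ (s : Finset C.X) (e : C.X → OpenPartialHomeomorph C.X (E n)) (ρ : C.X → ℝ) (B : ℝ), 0 ≤ B ∧
      (∀ x, 0 < ρ x ∧ Cht (C.P.p (ι₀ x)) (C.P.U (ι₀ x)) (e x) ∧ x ∈ (e x).source ∧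
        ball (C.P.p (ι₀ x) x) (2 * ρ x) ⊆ (e x).target) ∧
      (∀ x ∈ s, ∀ w ∈ ball (C.P.p (ι₀ x) x) (2 * ρ x),
        |C.P.κ (ι₀ x) ((e x).symm w)| ≤ B ∧ |C.P.φ (ι₀ x) ((e x).symm w)| ≤ B) ∧
      ∀ y, ∃ x ∈ s, ∃ w ∈ ball (C.P.p (ι₀ x) x) (ρ x), (e x).symm w = y := by
  choose e ρ B hρ hB he hx ht hb using fun x => loc C (ι₀ x) x (h₀ x)
  obtain ⟨s, -, hs⟩ := isCompact_univ.elim_nhds_subcover
    (fun x => (e x).source ∩ C.P.p (ι₀ x) ⁻¹' ball (C.P.p (ι₀ x) x) (ρ x)) fun x _ =>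
      inter_mem ((e x).open_source.mem_nhds (hx x))
        (((C.good.rd _).locH (h₀ x)).continuousAt.preimage_mem_nhds (ball_mem_nhds _ (hρ x)))
  refine ⟨s, e, ρ, ∑ x ∈ s, B x, Finset.sum_nonneg fun x _ => hB x,
    fun x => ⟨hρ x, he x, hx x, ht x⟩, fun x hxs w hw => ?_, fun y => ?_⟩
  · have := Finset.single_le_sum (f := B) (fun x _ => hB x) hxs
    exact ⟨(hb x w hw).1.trans this, (hb x w hw).2.trans this⟩
  · obtain ⟨x, hxs, hy⟩ := mem_iUnion₂.1 (hs (mem_univ y))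
    exact ⟨x, hxs, _, hy.2, (he x).symm_p hy.1⟩

theorem abs_wt_le {a b : ℕ} {i : C.ι} {y : C.X} {B : ℝ} (h1 : |C.P.κ i y| ≤ B)
    (h2 : |C.P.φ i y| ≤ B) : |C.base.wt a b i y| ≤ (a + b) * B := by
  have e : C.base.wt a b i y = a * C.P.κ i y + b * C.P.φ i y := rfl
  rw [e, add_mul]
  refine (abs_add_le _ _).trans (add_le_add ?_ ?_)
  · rw [abs_mul, Nat.abs_cast]
    exact mul_le_mul_of_nonneg_left h1 (Nat.cast_nonneg _)
  · rw [abs_mul, Nat.abs_cast]
    exact mul_le_mul_of_nonneg_left h2 (Nat.cast_nonneg _)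

/-- Comparison of the coefficients of a section at the same point in two charts. -/
theorem norm_le {a b : ℕ} {g : C.ι → C.X → ℂ} (hg : g ∈ C.base.Sec a b) {i j : C.ι} {y : C.X}
    (hi : y ∈ C.P.U i) (hj : y ∈ C.P.U j) {L : ℝ} (h1 : |C.base.wt a b i y| ≤ L)
    (h2 : |C.base.wt a b j y| ≤ L) : ‖g j y‖ ≤ Real.exp L * ‖g i y‖ := by
  have e := (Ctx.nr_eq hg (C := C.base) hi).symm.trans (Ctx.nr_eq hg (C := C.base) hj)
  have e2 : normSq (g j y) =
      normSq (g i y) * Real.exp (C.base.wt a b j y - C.base.wt a b i y) := by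
    rw [sub_eq_neg_add, Real.exp_add, ← mul_assoc, e, mul_assoc, ← Real.exp_add, neg_add_cancel,
      Real.exp_zero, mul_one]
  refine abs_le_of_sq_le_sq' ?_ (by positivity) |>.2
  rw [mul_pow, ← normSq_eq_norm_sq, ← normSq_eq_norm_sq, e2, mul_comm, sq, ← Real.exp_add]
  refine mul_le_mul_of_nonneg_right (Real.exp_le_exp.2 ?_) (normSq_nonneg _)
  linarith [(abs_le.1 h1).1, (abs_le.1 h2).2]

end FIN

open FIN in
theorem stFIN (hSIE : St_SIE) : St_FIN := by
  intro n C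
  obtain ⟨s, e, ρ, B, hB, he, hb, hc⟩ := cover C C.base.ix fun x => Ctx.mem_ix (C := C.base) x
  obtain ⟨N, hN⟩ := pow_unbounded_of_one_lt (Real.exp B) (one_lt_two (α := ℝ))
  refine ⟨s.card * (N + 2) ^ n, fun a b => ?_⟩
  have hU : ∀ x, ∀ w ∈ ball (C.P.p (C.base.ix x) x) (2 * ρ x),
      (e x).symm w ∈ C.P.U (C.base.ix x) := fun x w hw =>
    (he x).2.1.sub ((e x).map_target ((he x).2.2.2 hw))
  have hh : ∀ x, ball (C.P.p (C.base.ix x) x) (ρ x) ⊆ ball (C.P.p (C.base.ix x) x) (2 * ρ x) :=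
    fun x => ball_subset_ball (by linarith [(he x).1])
  let r : s → C.base.Sec a b →ₗ[ℂ] E n → ℂ := fun x =>
    { toFun := fun v w => v.1 (C.base.ix x) ((e x).symm w)
      map_add' := fun _ _ => rfl
      map_smul' := fun _ _ => rfl }
  refine (hSIE n (N * (a + b) + 2) (C.base.Sec a b) s r
    (fun x => C.P.p (C.base.ix x) x) (fun x => ρ x) (Real.exp ((a + b) * B)) (fun x => (he x).1)
    (Real.exp_pos _).le ?_ ?_ ?_).elim fun Φ hΦ => ?_
  rotate_right
  · have inj : Function.Injective Φ := by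
      refine (injective_iff_map_eq_zero Φ).2 fun v hv => Subtype.ext ?_
      refine Ctx.eq_zero_of_nr v.2 fun y => ?_
      obtain ⟨x, hx, w, hw, rfl⟩ := hc y
      exact (Ctx.nr_eq_zero v.2 (hU x w (hh x hw))).2 (hΦ v hv ⟨x, hx⟩ w (hh x hw))
    refine ⟨Module.Finite.of_injective Φ inj, ?_⟩
    have h1 := LinearMap.finrank_le_finrank_of_injective inj
    rw [Module.finrank_fintype_fun_eq_card, Fintype.card_prod, Fintype.card_coe, Fintype.card_fun,
      Fintype.card_fin, Fintype.card_fin] at h1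
    have h2 : (C.h0 a b : ℝ) ≤ s.card * (N * (a + b) + 2) ^ n := by exact_mod_cast h1
    refine h2.trans ?_
    rw [mul_assoc, ← mul_pow]
    refine mul_le_mul_of_nonneg_left (pow_le_pow_left₀ (by positivity) ?_ _) (Nat.cast_nonneg _)
    have : (0 : ℝ) ≤ a + b := by positivity
    nlinarith [(Nat.cast_nonneg N : (0 : ℝ) ≤ N)]
  · rw [← Nat.cast_add, Real.exp_nat_mul, pow_add (2 : ℝ), pow_mul]
    have h1 : Real.exp B ^ (a + b) ≤ (2 ^ N) ^ (a + b) :=
      pow_le_pow_left₀ (Real.exp_pos _).le hN.le _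
    have h2 : (0 : ℝ) < (2 ^ N) ^ (a + b) := by positivity
    nlinarith
  · intro x v w hw
    have h1 := (he x).2.2.2 hw
    have h2 := ((he x).2.1.hol_iff ((e x).map_target h1)).1 (v.2.hol _ _ (hU x w hw))
    rw [(he x).2.1.p_symm h1] at h2
    exact h2.differentiableWithinAt
  · intro v M hM h x w hw
    obtain ⟨x', hx', w', hw', hy⟩ := hc ((e x).symm w)
    have h1 := hb x' hx' w' (hh x' hw')
    have h2 := hb x x.2 w hw
    have h3 := hU x' w' (hh x' hw')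
    have h4 := h ⟨x', hx'⟩ w' hw'
    change ‖v.1 _ ((e x').symm w')‖ ≤ M at h4
    rw [hy] at h1 h3 h4
    exact (norm_le C v.2 h3 (hU x w hw) (abs_wt_le C h1.1 h1.2) (abs_wt_le C h2.1 h2.2)).trans
      (mul_le_mul_of_nonneg_left h4 (Real.exp_pos _).le)

end Pool.Agent.Lib.SV
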