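import Pool.Agent.Lib.SV.Blue3

/-! Gluing two partition functions across a shell. -/

open scoped Classical Topology ENNReal
open Set MeasureTheory Complex Filter Metric

noncomputable section

namespace Pool.Agent.Lib.SV

namespace GLUE

theorem deriv_bd : ∃ L : ℝ, 0 < L ∧ ∀ x, |deriv Real.smoothTransition x| ≤ L := by
  have hc : Continuous (deriv Real.smoothTransition) :=
    (Real.smoothTransition.contDiff (n := 1)).continuous_deriv le_rfl
  obtain ⟨M, hM⟩ := (isCompact_Icc (a := (0 : ℝ)) (b := 1)).exists_bound_of_continuousOn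
    hc.continuousOn
  refine ⟨|M| + 1, by positivity, fun x => ?_⟩
  by_cases hx : x ∈ Icc (0 : ℝ) 1
  · exact (hM x hx).trans (by linarith [le_abs_self M])
  · have : deriv Real.smoothTransition x = 0 := by
      rcases not_and_or.1 hx with h | h
      · have e : Real.smoothTransition =ᶠ[𝓝 x] fun _ => 0 := by
          filter_upwards [Iio_mem_nhds (not_le.1 h)] with z hz
          exact Real.smoothTransition.zero_of_nonpos (le_of_lt hz)
        rw [e.deriv_eq, deriv_const]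
      · have e : Real.smoothTransition =ᶠ[𝓝 x] fun _ => 1 := by
          filter_upwards [Ioi_mem_nhds (not_le.1 h)] with z hz
          exact Real.smoothTransition.one_of_one_le (le_of_lt hz)
        rw [e.deriv_eq, deriv_const]
    rw [this, abs_zero]
    positivity

theorem dd_mix {n : ℕ} {Y : Type} [TopologicalSpace Y] {p : Y → E n} {y : Y} (h : LocH p y)
    {l f g : Y → ℝ} (hl : Sm p 2 l y) (hf : Sm p 2 f y) (hg : Sm p 2 g y) (v : E n) :
    dd p (fun x => (1 - l x) * f x + l x * g x) y v =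
      (1 - l y) * dd p f y v + l y * dd p g y v + dd p l y v * (g y - f y) := by
  have a := (Sm.differentiableAt (k := 1) hl).hasFDerivAt
  have b := (Sm.differentiableAt (k := 1) hf).hasFDerivAt
  have c := (Sm.differentiableAt (k := 1) hg).hasFDerivAt
  have d := (((a.const_sub 1).mul b).add (a.mul c)).fderiv
  have e : dd p (fun x => (1 - l x) * f x + l x * g x) y = _ := d
  rw [e]
  simp only [add_apply, smul_apply, neg_apply, smul_eq_mul, Function.comp_apply, h.lift_self, dd]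
  ring

variable {n : ℕ} (C : Ctx n)

theorem fin_inv {L : Set C.Y} (hL : IsCompact L) (y : C.Y) : {γ : C.Γ | γ⁻¹ • y ∈ L}.Finite :=
  (C.pd L {y} hL isCompact_singleton).subset fun γ hγ => ⟨γ⁻¹ • y, hγ, by simp⟩

/-- The interpolating function. -/
def lam (w : C.X → ℝ) (s t : ℝ) (x : C.X) : ℝ :=
  if w x = 0 then 1 else Real.smoothTransition (3 * (t - Real.log (w x)) / (t - s) - 1)

variable {C} {w : C.X → ℝ} {s t : ℝ} {x : C.X}

theorem lam_mem (x : C.X) : 0 ≤ lam C w s t x ∧ lam C w s t x ≤ 1 := by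
  unfold lam
  split_ifs
  · exact ⟨zero_le_one, le_rfl⟩
  · exact ⟨Real.smoothTransition.nonneg _, Real.smoothTransition.le_one _⟩

theorem lam_one (hw : Continuous w) (h0 : ∀ x, 0 ≤ w x) (hst : s < t) (hx : w x < Real.exp s) :
    ∀ᶠ z in 𝓝 x, lam C w s t z = 1 := by
  filter_upwards [hw.continuousAt.eventually (Iio_mem_nhds hx)] with z hz
  unfold lam
  split_ifs with h
  · rfl
  · have a : Real.log (w z) < s := (Real.log_lt_iff_lt_exp ((h0 z).lt_of_ne' h)).2 hz
    refine Real.smoothTransition.one_of_one_le ?_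
    rw [le_sub_iff_add_le, le_div_iff₀ (sub_pos.2 hst)]
    linarith

theorem lam_zero (hw : Continuous w) (hst : s < t) (hx : Real.exp t ≤ w x) :
    ∀ᶠ z in 𝓝 x, lam C w s t z = 0 := by
  have : Real.exp (t - (t - s) / 3) < w x := (Real.exp_lt_exp.2 (by linarith)).trans_le hx
  filter_upwards [hw.continuousAt.eventually (Ioi_mem_nhds this)] with z hz
  have hz0 : 0 < w z := (Real.exp_pos _).trans hz
  have a : t - (t - s) / 3 < Real.log (w z) := (Real.lt_log_iff_exp_lt hz0).2 hz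
  rw [lam, if_neg hz0.ne']
  refine Real.smoothTransition.zero_of_nonpos ?_
  rw [sub_nonpos, div_le_iff₀ (sub_pos.2 hst)]
  linarith

theorem lam_sm (hw : Continuous w) {i : C.ι} (hx : x ∈ C.P.U i) (h0 : w x ≠ 0)
    (hs : Sm (C.P.p i) 2 (fun z => Real.log (w z)) x) {L : ℝ}
    (hL : ∀ x, |deriv Real.smoothTransition x| ≤ L) :
    Sm (C.P.p i) 2 (lam C w s t) x ∧ ∀ v, dd (C.P.p i) (lam C w s t) x v ^ 2 ≤
      9 * L ^ 2 / (t - s) ^ 2 * grd (C.P.p i) (fun z => Real.log (w z)) x v := by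
  have hl : LocH (C.P.p i) x := (C.good.rd i).locH hx
  have e : lam C w s t =ᶠ[𝓝 x] fun z =>
      (fun r => Real.smoothTransition (3 * (t - r) / (t - s) - 1)) (Real.log (w z)) := by
    filter_upwards [hw.continuousAt.eventually_ne h0] with z hz
    rw [lam, if_neg hz]
  have hu : ContDiff ℝ 2 fun r => Real.smoothTransition (3 * (t - r) / (t - s) - 1) :=
    Real.smoothTransition.contDiff.comp (by fun_prop)
  refine ⟨(Sm.comp hl hu.contDiffAt hs).congr hl e, fun v => ?_⟩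
  have h1 : HasDerivAt (fun r => 3 * (t - r) / (t - s) - 1) (3 * -1 / (t - s)) (Real.log (w x)) :=
    ((((hasDerivAt_id' _).const_sub t).const_mul 3).div_const _).sub_const 1
  have h2 := ((Real.smoothTransition.contDiff (n := 1)).differentiable one_ne_zero _).hasDerivAt.comp
    (Real.log (w x)) h1
  have h3 : deriv (fun r => Real.smoothTransition (3 * (t - r) / (t - s) - 1)) (Real.log (w x)) =
    _ := h2.deriv
  rw [dd_congr hl e, dd_comp hl (hs.of_le (by norm_num))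
    (hu.differentiable (by norm_num) _), h3, mul_pow, mul_pow]
  have a := hL (3 * (t - Real.log (w x)) / (t - s) - 1)
  have b : deriv Real.smoothTransition (3 * (t - Real.log (w x)) / (t - s) - 1) ^ 2 ≤ L ^ 2 := by
    rw [← sq_abs]
    gcongr
  have c : dd (C.P.p i) (fun z => Real.log (w z)) x v ^ 2 ≤
      grd (C.P.p i) (fun z => Real.log (w z)) x v := le_add_of_nonneg_right (sq_nonneg _)
  calc _ ≤ L ^ 2 * (3 * -1 / (t - s)) ^ 2 * grd (C.P.p i) (fun z => Real.log (w z)) x v := by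
        gcongr
    _ = _ := by rw [div_pow]; ring

end GLUE

open GLUE in
theorem stGLUE (hTR : St_TR) (hW0 : St_W0) (hWH : St_WH) : St_GLUE := by
  obtain ⟨L, hL0, hL⟩ := deriv_bd
  refine ⟨36 * L ^ 2, by positivity, ?_⟩
  intro n C c f₀ f₁ a b m b' σ K O u ε s t hc hf₀ h0 hσ hU hF hst hK
  set w := C.base.nr a b σ with hwdef
  have hw : Continuous w := Ctx.continuous_nr hσ
  have hw0 : ∀ x, 0 ≤ w x := Ctx.nr_nonneg (C := C.base) σ
  obtain ⟨M₀, -, -, hW⟩ := hW0 n C C.o a b σ hσ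
  obtain ⟨S, hS, hS0⟩ := hF.cpt
  set l : C.Y → ℝ := lam C w s t ∘ C.π with hl
  set f : C.Y → ℝ := fun y => (1 - l y) * f₁ y + l y * f₀ y with hf
  have hlγ : ∀ (γ : C.Γ) y, l (γ • y) = l y := fun γ y => by
    simp only [hl, Function.comp_apply, C.π_smul]
  have big : ∀ y, Real.exp s ≤ w (C.π y) → C.π y ∈ O ∧ y ∈ C.W C.o ∧ Sm (C.q C.o) 2 l y ∧ ∀ v,
      dd (C.q C.o) l y v ^ 2 ≤
        9 * L ^ 2 / (t - s) ^ 2 * grd (C.P.p C.o) (fun z => Real.log (w z)) (C.π y) v := by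
    intro y hy
    have h1 := hF.sub (hK hy)
    have h2 := hF.sub' h1
    have h3 : y ∈ C.W C.o := hU h2
    have h4 := lam_sm (s := s) (t := t) hw h3 h2 (hW _ h2 h3).1 hL
    refine ⟨h1, h3, (Ctx.sm_π h3).2 h4.1, fun v => ?_⟩
    rw [hl, Ctx.dd_π h3]
    exact h4.2 v
  have small : ∀ y, w (C.π y) < Real.exp s → f =ᶠ[𝓝 y] f₀ := fun y hy => by
    filter_upwards [C.continuous_π.continuousAt.eventually (lam_one hw hw0 hst hy)] with z hz
    simp only [hf, hl, Function.comp_apply, hz, sub_self, zero_mul, one_mul, zero_add]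
  have hT : IsCompact (S ∪ tsupport f₀) := hS.union hf₀.cpt.isCompact
  have z1 : ∀ y ∉ S ∪ tsupport f₀, f₁ y = 0 := fun y hy => hS0 y fun h => hy (Or.inl h)
  have z0 : ∀ y ∉ S ∪ tsupport f₀, f₀ y = 0 := fun y hy =>
    image_eq_zero_of_notMem_tsupport fun h => hy (Or.inr h)
  have z : ∀ y ∉ S ∪ tsupport f₀, f y = 0 := fun y hy => by
    simp only [hf, z1 y hy, z0 y hy, mul_zero, add_zero]
  have fs : ∀ {g : C.Y → ℝ}, (∀ y ∉ S ∪ tsupport f₀, g y = 0) → ∀ y,
      ∑ᶠ γ : C.Γ, g (γ⁻¹ • y) = ∑ γ ∈ (fin_inv C hT y).toFinset, g (γ⁻¹ • y) := fun hg y =>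
    finsum_eq_sum_of_support_subset _ fun γ hγ => by
      rw [Finite.coe_toFinset]
      by_contra h
      exact hγ (hg _ h)
  have fN : ∀ {g : C.Y → ℝ}, (∀ y ∉ S ∪ tsupport f₀, g y = 0) → ∀ y ∈ C.W C.o, ∀ v,
      C.N1 g y v = ∑ γ ∈ (fin_inv C hT y).toFinset, |dd (C.q C.o) g (γ⁻¹ • y) v| := by
    intro g hg y hy v
    unfold Ctx.N1
    simp only [Ctx.dd_smul hy]
    refine finsum_eq_sum_of_support_subset _ fun γ hγ => ?_
    rw [Finite.coe_toFinset]
    by_contra h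
    have e : g =ᶠ[𝓝 (γ⁻¹ • y)] fun _ => 0 := by
      filter_upwards [hT.isClosed.isOpen_compl.mem_nhds h] with x hx using hg x hx
    refine hγ ?_
    have : dd (C.q C.o) (fun _ => (0 : ℝ)) (γ⁻¹ • y) = 0 := (hasFDerivAt_const _ _).fderiv
    simp only [dd_congr (Ctx.locH ((Ctx.smul_mem_W _).2 hy)) e, this, zero_apply, abs_zero]
  refine ⟨f, ⟨fun i y hy => ?_, HasCompactSupport.intro hT z, fun y => ?_⟩, fun x hx v => ?_,
    fun x hx hs => ?_, fun x hx v => ?_⟩
  · rcases lt_or_ge (w (C.π y)) (Real.exp s) with h | h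
    · exact (hf₀.sm i y hy).congr (Ctx.locH hy) (small y h)
    · obtain ⟨h1, h2, h3, -⟩ := big y h
      exact (hTR n C C.o i y h2 hy).1 ℝ 2 f
        ((((sm_const 1).sub h3).mul (hF.sm y h1).1).add (h3.mul (hf₀.sm _ y h2)))
  · rcases lt_or_ge (w (C.π y)) (Real.exp s) with h | h
    · rw [← hf₀.sum y]
      exact finsum_congr fun γ => (small _ (by rwa [C.π_smul])).self_of_nhds
    · have a1 := (hF.sm y (big y h).1).2.2
      have a0 := hf₀.sum y
      rw [fs z1] at a1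
      rw [fs z0] at a0
      rw [fs z]
      simp only [hf, hlγ]
      rw [Finset.sum_add_distrib, ← Finset.mul_sum, ← Finset.mul_sum, a0, a1]
      ring
  · have hy := (big (C.τ x) (by
      rw [C.πτ]; exact (Real.exp_le_exp.2 hst.le).trans hx)).2.1
    rw [fN z _ hy, fN z1 _ hy]
    refine Finset.sum_congr rfl fun γ _ => ?_
    have e : f =ᶠ[𝓝 (γ⁻¹ • C.τ x)] f₁ := by
      filter_upwards [C.continuous_π.continuousAt.eventually
        (lam_zero (x := C.π (γ⁻¹ • C.τ x)) hw hst (by rwa [C.π_smul, C.πτ]))] with z hz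
      simp only [hf, hl, Function.comp_apply, hz, sub_zero, zero_mul, one_mul, add_zero]
    rw [dd_congr (Ctx.locH ((Ctx.smul_mem_W _).2 hy)) e]
  · refine (hWH n C c f₀ hc hf₀).2.2.2.2.2.2 f C.o (C.τ x) (by rwa [mem_preimage, C.πτ])
      fun γ => small _ ?_
    rwa [C.π_smul, C.πτ]
  · have hx' : Real.exp s ≤ w (C.π (C.τ x)) := by rwa [C.πτ]
    obtain ⟨h1, hy, h3, h4⟩ := big _ hx'
    have h5 := h4 v
    rw [C.πτ] at h5
    have a1 := (hF.sm _ h1).2.2
    have a0 := hf₀.sum (C.τ x)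
    rw [fs z1] at a1
    rw [fs z0] at a0
    have key : C.N1 f (C.τ x) v ≤
        C.N1 f₁ (C.τ x) v + C.N1 f₀ (C.τ x) v + |dd (C.q C.o) l (C.τ x) v| * (1 + 1) := by
      rw [fN z _ hy, fN z1 _ hy, fN z0 _ hy]
      nth_rewrite 1 [← a0]
      nth_rewrite 1 [← a1]
      rw [← Finset.sum_add_distrib, ← Finset.sum_add_distrib, Finset.mul_sum,
        ← Finset.sum_add_distrib]
      refine Finset.sum_le_sum fun γ _ => ?_
      have hγ : γ⁻¹ • C.τ x ∈ C.W C.o := (Ctx.smul_mem_W _).2 hy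
      obtain ⟨k1, -, k3, -⟩ := big (γ⁻¹ • C.τ x) (by rwa [C.π_smul])
      have k4 : dd (C.q C.o) l (γ⁻¹ • C.τ x) = dd (C.q C.o) l (C.τ x) := by
        rw [← Ctx.dd_smul hy]
        simp only [hlγ]
      rw [hf, dd_mix (Ctx.locH hγ) k3 (hF.sm _ k1).1 (hf₀.sm _ _ hγ), k4]
      have m := lam_mem (w := w) (s := s) (t := t) (C.π (γ⁻¹ • C.τ x))
      have m0 : 0 ≤ l (γ⁻¹ • C.τ x) := m.1
      have m1 : l (γ⁻¹ • C.τ x) ≤ 1 := m.2
      have p0 := h0 (γ⁻¹ • C.τ x)
      have p1 := (hF.sm _ k1).2.1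
      refine (abs_add_three _ _ _).trans (add_le_add (add_le_add ?_ ?_) ?_)
      · rw [abs_mul, abs_of_nonneg (sub_nonneg.2 m1)]
        exact mul_le_of_le_one_left (abs_nonneg _) (by linarith)
      · rw [abs_mul, abs_of_nonneg m0]
        exact mul_le_of_le_one_left (abs_nonneg _) m1
      · rw [abs_mul]
        exact mul_le_mul_of_nonneg_left (abs_le.2 ⟨by linarith, by linarith⟩) (abs_nonneg _)
    have n0 : 0 ≤ C.N1 f (C.τ x) v := finsum_nonneg fun _ => abs_nonneg _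
    have h6 : (|dd (C.q C.o) l (C.τ x) v| * (1 + 1)) ^ 2 ≤
        36 * L ^ 2 / (t - s) ^ 2 * grd (C.P.p C.o) (fun z => Real.log (w z)) x v := by
      rw [mul_pow, sq_abs]
      calc _ ≤ 9 * L ^ 2 / (t - s) ^ 2 * grd (C.P.p C.o) (fun z => Real.log (w z)) x v *
            (1 + 1) ^ 2 := by gcongr
        _ = _ := by ring
    generalize |dd (C.q C.o) l (C.τ x) v| * (1 + 1) = D at *
    calc C.N1 f (C.τ x) v ^ 2 ≤ (C.N1 f₁ (C.τ x) v + C.N1 f₀ (C.τ x) v + D) ^ 2 := by gcongr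
      _ ≤ 3 * (C.N1 f₁ (C.τ x) v ^ 2 + C.N1 f₀ (C.τ x) v ^ 2 + D ^ 2) := by
          nlinarith [sq_nonneg (C.N1 f₁ (C.τ x) v - C.N1 f₀ (C.τ x) v),
            sq_nonneg (C.N1 f₁ (C.τ x) v - D), sq_nonneg (C.N1 f₀ (C.τ x) v - D)]
      _ ≤ _ := by linarith

end Pool.Agent.Lib.SV
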