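import Pool.Agent.Lib.SV.Blue1

/-! The theorem of Hörmander for a decreasing sequence of LU weights. -/

open scoped Classical Topology ENNReal
open Set MeasureTheory Complex Filter Metric

noncomputable section

namespace Pool.Agent.Lib.SV

namespace HOR

variable {n : ℕ} {Y : Type} [TopologicalSpace Y] {p : Y → E n} {W : Set Y} {s : Y → ℝ}

theorem lev_nonneg (hs : Exh p W s) {y : Y} (hy : y ∈ W) (v : E n) : 0 ≤ lev p s y v := by
  by_cases hv : v = 0
  · rw [hv, lev_zero]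
  · exact (hs.pos y hy v hv).le

/-- Uniform positivity of the Levi form on a compact set. -/
theorem cb (hL : St_LOCB) (hW : RD p W) (hs : Exh p W s) {K : Set Y} (hK : IsCompact K)
    (hKW : K ⊆ W) : ∃ A > 0, ∀ y ∈ K, y ∈ W → ∀ v, nsq v ≤ A * lev p s y v := by
  refine hK.induction_on (p := fun S => ∃ A > 0, ∀ y ∈ S, y ∈ W → ∀ v, nsq v ≤ A * lev p s y v)
    ⟨1, one_pos, fun y hy => hy.elim⟩ ?_ ?_ ?_
  · rintro S T hST ⟨A, hA, H⟩
    exact ⟨A, hA, fun y hy => H y (hST hy)⟩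
  · rintro S T ⟨A, hA, H⟩ ⟨B, hB, H'⟩
    refine ⟨A + B, add_pos hA hB, fun y hy hw v => ?_⟩
    have h0 := lev_nonneg hs hw v
    rcases hy with hy | hy
    · exact (H y hy hw v).trans (mul_le_mul_of_nonneg_right (by linarith) h0)
    · exact (H' y hy hw v).trans (mul_le_mul_of_nonneg_right (by linarith) h0)
  · intro y hy
    have hl := hW.locH (hKW hy)
    obtain ⟨M, hM⟩ := hL n (s ∘ lift p y) (s ∘ lift p y) (p y) (hs.sm y (hKW hy))
      (hs.sm y (hKW hy)) (hs.pos y (hKW hy))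
    have h1 : ∀ᶠ x in 𝓝 y, x ∈ W → ∀ v, nsq v ≤ max M 1 * lev p s x v := by
      filter_upwards [hl.continuousAt.tendsto.eventually hM, hl.lift_near] with x a b hx v
      have e : lev p s x v = levE (s ∘ lift p y) (p x) v := levE_congr (b.fun_comp s) v
      have h2 := (a v).2.2.1
      rw [← e] at h2
      exact h2.trans (mul_le_mul_of_nonneg_right (le_max_left _ _) (lev_nonneg hs hx v))
    exact ⟨_, mem_nhdsWithin_of_mem_nhds h1, max M 1, lt_max_of_lt_right one_pos,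
      fun x hx => hx⟩

theorem contOn (hW : RD p W) (hs : Exh p W s) : ContinuousOn s W :=
  fun y hy => ((hs.sm y hy).continuousAt (hW.locH hy)).continuousWithinAt

theorem opn (hW : RD p W) (hs : Exh p W s) (a : ℝ) : IsOpen {y | y ∈ W ∧ s y < a} :=
  (contOn hW hs).isOpen_inter_preimage hW.opn isOpen_Iio

/-- The sublevel sets of an exhaustion have an exhaustion. -/
theorem exh (hW : RD p W) (hs : Exh p W s) (a : ℝ) :
    Exh p {y | y ∈ W ∧ s y < a} fun y => -Real.log (a - s y) := by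
  have hc : ∀ t < a, ContDiffAt ℝ 2 (fun t => -Real.log (a - t)) t := fun t ht =>
    ((contDiffAt_const.sub contDiffAt_id).log (sub_pos.2 ht).ne').neg
  have hd : ∀ t < a, HasDerivAt (fun t => -Real.log (a - t)) (a - t)⁻¹ t := fun t ht => by
    have := (((hasDerivAt_id' t).const_sub a).log (sub_pos.2 ht).ne').neg
    exact this.congr_deriv (by rw [neg_div, neg_neg, one_div])
  have hdd : ∀ t < a, deriv (deriv fun t => -Real.log (a - t)) t = ((a - t) ^ 2)⁻¹ := fun t ht => by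
    have e : (deriv fun t => -Real.log (a - t)) =ᶠ[𝓝 t] fun t => (a - t)⁻¹ := by
      filter_upwards [Iio_mem_nhds ht] with x hx using (hd x hx).deriv
    rw [e.deriv_eq]
    have := (((hasDerivAt_id' t).const_sub a).fun_inv (sub_pos.2 ht).ne').deriv
    rw [this]
    simp
  refine ⟨fun y hy => Sm.comp (hW.locH hy.1) (g := fun t => -Real.log (a - t)) (hc _ hy.2)
    (hs.sm y hy.1), fun y hy v hv => ?_, fun b => ?_⟩
  · rw [lev_comp (hW.locH hy.1) (hs.sm y hy.1) (hc _ hy.2), (hd _ hy.2).deriv, hdd _ hy.2]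
    have h1 := hs.pos y hy.1 v hv
    have h2 : 0 ≤ grd p s y v := grd_nonneg v
    have h3 : 0 < a - s y := sub_pos.2 hy.2
    positivity
  · convert hs.cpt (a - Real.exp (-b)) using 1
    ext y
    simp only [mem_ofPred_eq]
    constructor
    · rintro ⟨⟨h1, h2⟩, h3⟩
      refine ⟨h1, ?_⟩
      have := (Real.le_log_iff_exp_le (sub_pos.2 h2)).1 (neg_le.1 h3)
      linarith
    · rintro ⟨h1, h2⟩
      have h0 := Real.exp_pos (-b)
      have h3 : s y < a := by linarith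
      exact ⟨⟨h1, h3⟩, neg_le.1 ((Real.le_log_iff_exp_le (sub_pos.2 h3)).2 (by linarith))⟩

theorem wt_le {x a b : ℝ} (hx : 0 ≤ x) (h : b ≤ a + 2) :
    ENNReal.ofReal (x * Real.exp (-a)) ≤
      ENNReal.ofReal (Real.exp 2) * ENNReal.ofReal (x * Real.exp (-b)) := by
  rw [← ENNReal.ofReal_mul (Real.exp_pos _).le]
  refine ENNReal.ofReal_le_ofReal ?_
  rw [mul_left_comm, ← Real.exp_add]
  exact mul_le_mul_of_nonneg_left (Real.exp_le_exp.2 (by linarith)) hx

/-- The solution on a sublevel set. -/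
theorem step (hHOR0 : St_HOR0) (hRICH : St_RICH) (hRM : St_RM) (hL : St_LOCB) (D : Dom n)
    {s : D.Y → ℝ} {G : D.Y → ℂ} {φ₀ h φ : D.Y → ℝ} (hs : Exh D.p D.W s)
    (H : ∀ y ∈ D.W, Sm D.p 2 G y ∧ Psh D.p φ₀ y ∧ 0 ≤ h y ∧
      (∀ v, ‖dbar D.p G y v‖ ^ 2 ≤ h y * lev D.p φ₀ y v) ∧ LU D.p (fun x => φ x - φ₀ x) y)
    (hh : AEMeasurable h D.μ) {M : ℝ≥0∞} (hM : M ≠ ∞)
    (hI : ∫⁻ y, ENNReal.ofReal (h y * Real.exp (-φ y)) ∂D.μ ≤ M) (a : ℝ) :
    ∃ F : D.Y → ℂ, (∀ y ∈ D.W, s y < a → Hol D.p F y) ∧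
      ∫⁻ y in {y | y ∈ D.W ∧ s y < a}, ENNReal.ofReal (‖G y - F y‖ ^ 2 * Real.exp (-φ y)) ∂D.μ ≤
        ENNReal.ofReal (Real.exp 2) * (10 * (ENNReal.ofReal (Real.exp 2) * M)) := by
  have hK := hs.cpt a
  have hKW : {y | y ∈ D.W ∧ s y ≤ a} ⊆ D.W := fun y hy => hy.1
  obtain ⟨A, hA, HA⟩ := cb hL D.rd hs hK hKW
  obtain ⟨B, hB⟩ := hK.exists_bound_of_continuousOn ((contOn D.rd hs).mono hKW)
  set η : ℝ := (max B 1)⁻¹ with hη
  have hB0 : 0 < max B 1 := lt_max_of_lt_right one_pos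
  have hη0 : 0 < η := inv_pos.2 hB0
  obtain ⟨u, hu⟩ := hRICH n D (fun x => φ x - φ₀ x) _ hK hKW (fun y hy => (H y hy.1).2.2.2.2)
    (η / A) (div_pos hη0 hA)
  have ho := opn D.rd hs a
  have hsub : {y | y ∈ D.W ∧ s y < a} ⊆ D.W := fun y hy => hy.1
  have hmem : ∀ y ∈ {y | y ∈ D.W ∧ s y < a}, y ∈ {y | y ∈ D.W ∧ s y ≤ a} :=
    fun y hy => ⟨hy.1, hy.2.le⟩
  let D' : Dom n := { Y := D.Y, p := D.p, W := {y | y ∈ D.W ∧ s y < a}, rd := D.rd.mono ho hsub }
  have hμ : D'.μ = D.μ.restrict {y | y ∈ D.W ∧ s y < a} := (hRM n D).2.2.2.2.2.1 _ ho hsub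
  set ψ : D.Y → ℝ := fun x => φ₀ x + (u x + η * s x) with hψ
  have hcl : ∀ y ∈ {y | y ∈ D.W ∧ s y < a}, φ y ≤ ψ y + 2 ∧ ψ y ≤ φ y + 2 := fun y hy => by
    have h1 := abs_le.1 (hu y (hmem y hy)).2.1
    have h2 : |η * s y| ≤ 1 := by
      rw [abs_mul, abs_of_pos hη0, hη, inv_mul_le_iff₀ hB0, mul_one]
      exact (hB y (hmem y hy)).trans (le_max_left _ _)
    have h3 := abs_le.1 h2
    simp only [hψ]
    constructor <;> linarith [h1.1, h1.2, h3.1, h3.2]
  have hfin : ∫⁻ y, ENNReal.ofReal (h y * Real.exp (-ψ y)) ∂D'.μ ≤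
      ENNReal.ofReal (Real.exp 2) * M := by
    rw [hμ]
    refine (setLIntegral_mono' ho.measurableSet fun y hy =>
      wt_le (H y hy.1).2.2.1 (hcl y hy).1).trans ?_
    rw [lintegral_const_mul' _ _ ENNReal.ofReal_ne_top]
    exact mul_le_mul_right ((setLIntegral_le_lintegral _ _).trans hI) _
  obtain ⟨F, hF, HF⟩ := hHOR0 n D' (fun y => -Real.log (a - s y)) G ψ h (exh D.rd hs a)
    (fun y hy => by
      obtain ⟨h1, h2, h3, h4, -⟩ := H y hy.1
      obtain ⟨u1, -, u3⟩ := hu y (hmem y hy)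
      have s1 := hs.sm y hy.1
      have s2 : Sm D.p 2 (fun x => η * s x) y := (sm_const η).mul s1
      have hge : ∀ v, lev D.p φ₀ y v ≤ lev D.p ψ y v := fun v => by
        rw [hψ, lev_add h2.1 (u1.add s2), lev_add u1 s2, lev_const_mul s1]
        have e1 := u3 v
        have e2 : η / A * nsq v ≤ η * lev D.p s y v := by
          rw [div_mul_eq_mul_div, div_le_iff₀ hA, mul_assoc, mul_comm _ A]
          exact mul_le_mul_of_nonneg_left (HA y (hmem y hy) hy.1 v) hη0.le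
        linarith
      exact ⟨h1, ⟨h2.1.add (u1.add s2), fun v => (h2.2 v).trans (hge v)⟩, h3,
        fun v => (h4 v).trans (mul_le_mul_of_nonneg_left (hge v) h3)⟩)
    (by rw [hμ]; exact hh.restrict)
    (ne_top_of_le_ne_top (ENNReal.mul_ne_top ENNReal.ofReal_ne_top hM) hfin)
  refine ⟨F, fun y hy hy' => hF y ⟨hy, hy'⟩, ?_⟩
  refine (setLIntegral_mono' ho.measurableSet fun y hy =>
    wt_le (sq_nonneg _) (hcl y hy).2).trans ?_
  rw [lintegral_const_mul' _ _ ENNReal.ofReal_ne_top, ← hμ]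
  exact mul_le_mul_right (HF.trans (mul_le_mul_right hfin _)) _

theorem sq_le {g f : ℂ} {C B a : ℝ} (hg : ‖g‖ ≤ C) (ha : a ≤ B) :
    ENNReal.ofReal (‖f‖ ^ 2) ≤ ENNReal.ofReal (2 * Real.exp B) *
      ENNReal.ofReal (‖g - f‖ ^ 2 * Real.exp (-a)) + ENNReal.ofReal (2 * C ^ 2) := by
  rw [← ENNReal.ofReal_mul (by positivity), ← ENNReal.ofReal_add (by positivity) (by positivity)]
  refine ENNReal.ofReal_le_ofReal ?_
  have h1 : ‖f‖ ≤ ‖g - f‖ + C := by
    calc ‖f‖ = ‖g - (g - f)‖ := by rw [sub_sub_cancel]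
      _ ≤ ‖g‖ + ‖g - f‖ := norm_sub_le _ _
      _ ≤ _ := by linarith
  have h2 : 1 ≤ Real.exp B * Real.exp (-a) := by
    rw [← Real.exp_add]
    exact Real.one_le_exp (by linarith)
  have h3 : ‖f‖ ^ 2 ≤ (‖g - f‖ + C) ^ 2 := pow_le_pow_left₀ (norm_nonneg _) h1 2
  have h4 : ‖g - f‖ ^ 2 * 1 ≤ ‖g - f‖ ^ 2 * (Real.exp B * Real.exp (-a)) :=
    mul_le_mul_of_nonneg_left h2 (sq_nonneg _)
  nlinarith [sq_nonneg (‖g - f‖ - C)]

end HOR

open HOR in
theorem stHOR (hHOR0 : St_HOR0) (hRICH : St_RICH) (hMON : St_MON) (hRM : St_RM)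
    (hLOCB : St_LOCB) : St_HOR := by
  intro n D s G φ₀ h φ M hs H hh hM hI
  choose F hF HF using fun k : ℕ => step hHOR0 hRICH hRM hLOCB D (φ := φ k) hs
    (fun y hy => ⟨(H y hy).1, (H y hy).2.1, (H y hy).2.2.1, (H y hy).2.2.2.1,
      (H y hy).2.2.2.2.1 k⟩) hh hM (hI k) k
  set M' := ENNReal.ofReal (Real.exp 2) * (10 * (ENNReal.ofReal (Real.exp 2) * M)) with hM'
  have hM'' : M' ≠ ∞ := ENNReal.mul_ne_top ENNReal.ofReal_ne_top
    (ENNReal.mul_ne_top (by simp) (ENNReal.mul_ne_top ENNReal.ofReal_ne_top hM))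
  have cG : ContinuousOn G D.W :=
    fun y hy => ((H y hy).1.continuousAt (D.rd.locH hy)).continuousWithinAt
  have cφ : ∀ k, ContinuousOn (φ k) D.W := fun k y hy => by
    have := (((H y hy).2.2.2.2.1 k).continuousAt (D.rd.locH hy)).add
      ((H y hy).2.1.1.continuousAt (D.rd.locH hy))
    refine (this.congr (Eventually.of_forall fun x => ?_)).continuousWithinAt
    simp
  obtain ⟨F₀, σ, hσ, H₀⟩ := hMON n D F fun y hy => by
    have hK := hs.cpt (s y + 1)
    have hKW : {x | x ∈ D.W ∧ s x ≤ s y + 1} ⊆ D.W := fun x hx => hx.1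
    obtain ⟨C, hC⟩ := hK.exists_bound_of_continuousOn (cG.mono hKW)
    obtain ⟨B, hB⟩ := hK.exists_bound_of_continuousOn ((cφ 0).mono hKW)
    refine ⟨{x | x ∈ D.W ∧ s x ≤ s y + 1}, ?_, ENNReal.ofReal (2 * Real.exp B) * M' +
      ENNReal.ofReal (2 * C ^ 2) * D.μ {x | x ∈ D.W ∧ s x ≤ s y + 1}, ?_, ?_⟩
    · exact mem_of_superset ((opn D.rd hs (s y + 1)).mem_nhds ⟨hy, by linarith⟩)
        fun x hx => ⟨hx.1, hx.2.le⟩
    · exact ENNReal.add_ne_top.2 ⟨ENNReal.mul_ne_top ENNReal.ofReal_ne_top hM'',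
        ENNReal.mul_ne_top ENNReal.ofReal_ne_top ((hRM n D).2.2.2.2.2.2.1 _ hK hKW)⟩
    · filter_upwards [tendsto_natCast_atTop_atTop.eventually (eventually_gt_atTop (s y + 1))]
        with k hk
      refine ⟨fun x hx => hF k x hx.1 (hx.2.trans_lt hk), ?_⟩
      refine (setLIntegral_mono' hK.measurableSet fun x hx => sq_le (f := F k x) (hC x hx)
        (((H x hx.1).2.2.2.2.2 (Nat.zero_le k)).trans ((le_abs_self _).trans (hB x hx)))).trans ?_
      rw [lintegral_add_right _ measurable_const, lintegral_const_mul' _ _ ENNReal.ofReal_ne_top,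
        setLIntegral_const]
      refine add_le_add (mul_le_mul_right ((lintegral_mono_set ?_).trans (HF k)) _) le_rfl
      exact fun x hx => ⟨hx.1, hx.2.trans_lt hk⟩
  refine ⟨F₀, M', hM'', fun y hy => (H₀ y hy).1, fun j => ?_⟩
  set f : ℕ → D.Y → ℝ≥0∞ := fun k => indicator {y | y ∈ D.W ∧ s y < (σ k : ℕ)}
    fun y => ENNReal.ofReal (‖G y - F (σ k) y‖ ^ 2 * Real.exp (-φ j y)) with hf
  have hm : ∀ k, AEMeasurable (f k) D.μ := fun k => by
    have ho := opn D.rd hs (σ k : ℕ)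
    have hsub : {y | y ∈ D.W ∧ s y < (σ k : ℕ)} ⊆ D.W := fun y hy => hy.1
    refine (aemeasurable_indicator_iff ho.measurableSet).2
      (ContinuousOn.aemeasurable ?_ ho.measurableSet)
    have cF : ContinuousOn (F (σ k)) {y | y ∈ D.W ∧ s y < (σ k : ℕ)} := fun y hy =>
      ((hF _ y hy.1 hy.2).continuousAt (D.rd.locH hy.1)).continuousWithinAt
    exact ENNReal.continuous_ofReal.comp_continuousOn ((((cG.mono hsub).sub cF).norm.pow 2).mul
      (Real.continuous_exp.comp_continuousOn ((cφ j).mono hsub).neg))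
  have hae : ∀ᵐ y ∂D.μ, y ∈ D.W := (hRM n D).1.off
  calc ∫⁻ y, ENNReal.ofReal (‖G y - F₀ y‖ ^ 2 * Real.exp (-φ j y)) ∂D.μ
      = ∫⁻ y, liminf (fun k => f k y) atTop ∂D.μ := by
        refine lintegral_congr_ae ?_
        filter_upwards [hae] with y hy
        refine (Tendsto.liminf_eq ?_).symm
        have h1 := ENNReal.tendsto_ofReal
          ((((H₀ y hy).2.const_sub (G y)).norm.pow 2).mul_const (Real.exp (-φ j y)))
        refine h1.congr' ?_
        filter_upwards [(tendsto_natCast_atTop_atTop.comp hσ.tendsto_atTop).eventually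
          (eventually_gt_atTop (s y))] with k hk
        have hy' : y ∈ {y | y ∈ D.W ∧ s y < (σ k : ℕ)} := ⟨hy, hk⟩
        simp only [hf, indicator_of_mem hy']
    _ ≤ liminf (fun k => ∫⁻ y, f k y ∂D.μ) atTop := lintegral_liminf_le' hm
    _ ≤ M' := by
        refine liminf_le_of_frequently_le' (Eventually.frequently ?_)
        filter_upwards [eventually_ge_atTop j] with k hk
        have ho := opn D.rd hs (σ k : ℕ)
        rw [hf, lintegral_indicator ho.measurableSet]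
        refine (setLIntegral_mono' ho.measurableSet fun y hy => ?_).trans (HF (σ k))
        exact ENNReal.ofReal_le_ofReal (mul_le_mul_of_nonneg_left (Real.exp_le_exp.2
          (neg_le_neg ((H y hy.1).2.2.2.2.2 (hk.trans (hσ.id_le k))))) (sq_nonneg _))

end Pool.Agent.Lib.SV
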