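import Pool.Agent.Lib.SV.Blue2

/-! The identity theorem for sections. -/

open scoped Classical Topology ENNReal
open Set MeasureTheory Complex Filter Metric

noncomputable section

namespace Pool.Agent.Lib.SV

namespace ID

variable {n : ℕ} {C : Ctx n} {a b : ℕ} {g : C.ι → C.Y → ℂ} {i : C.ι}

/-- In a ball chart the zero set of a section that is not identically zero is null. -/
theorem null_img (hZER : St_ZER) (hg : g ∈ C.Sec a b) {e : OpenPartialHomeomorph C.Y (E n)}
    (he : Cht (C.q i) (C.W i) e) {z : E n} {r : ℝ} (ht : e.target = ball z r)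
    (h : ∃ x ∈ e.source, C.nr a b g x ≠ 0) :
    volume (C.q i '' ({x | C.nr a b g x = 0} ∩ e.source)) = 0 := by
  have hd : DifferentiableOn ℂ (g i ∘ e.symm) (ball z r) := by
    intro w hw
    rw [← ht] at hw
    have h1 := e.map_target hw
    have h2 := (he.hol_iff h1).1 (hg.hol i _ (he.sub h1))
    rw [he.p_symm hw] at h2
    exact h2.differentiableWithinAt
  obtain ⟨x, hx, hx0⟩ := h
  refine measure_mono_null ?_ (hZER n _ z r hd ⟨C.q i x, ht ▸ he.mem_target hx, ?_⟩)
  · rintro _ ⟨y, ⟨hy0, hy⟩, rfl⟩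
    refine ⟨ht ▸ he.mem_target hy, ?_⟩
    rw [Function.comp_apply, he.symm_p hy]
    exact (Ctx.nr_eq_zero hg (he.sub hy)).1 hy0
  · rw [Function.comp_apply, he.symm_p hx]
    exact mt (Ctx.nr_eq_zero hg (he.sub hx)).2 hx0

theorem dense [PreconnectedSpace C.Y] (hZER : St_ZER) (hg : g ∈ C.Sec a b) (h0 : g ≠ 0) :
    Dense {x | C.nr a b g x ≠ 0} := by
  let Z : Set C.Y := interior {x | C.nr a b g x = 0}
  have hc : IsClosed Z := by
    refine isClosed_of_closure_subset fun y hy => ?_
    obtain ⟨e, r, -, he, hy', -, ht⟩ := (C.rd (C.ix y)).exists_ball (Ctx.mem_ix y) univ_mem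
    by_cases h : ∃ x ∈ e.source, C.nr a b g x ≠ 0
    · exfalso
      have h1 := null_img hZER hg he ht h
      obtain ⟨x, hx1, hx2⟩ := mem_closure_iff.1 hy _ e.open_source hy'
      have ho : IsOpen (e '' (Z ∩ e.source)) :=
        e.isOpen_image_of_subset_source (isOpen_interior.inter e.open_source) inter_subset_right
      refine (ho.measure_pos volume ⟨e x, x, ⟨hx2, hx1⟩, rfl⟩).ne' (measure_mono_null ?_ h1)
      rintro _ ⟨u, hu, rfl⟩
      exact ⟨u, ⟨interior_subset hu.1, hu.2⟩, he.eq hu.2⟩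
    · push Not at h
      exact mem_interior.2 ⟨e.source, h, e.open_source, hy'⟩
  rcases isClopen_iff.1 ⟨hc, isOpen_interior⟩ with h | h
  · rw [interior_eq_empty_iff_dense_compl] at h
    exact h
  · refine absurd (Ctx.eq_zero_of_nr hg fun y => ?_) h0
    have : y ∈ Z := h ▸ mem_univ y
    exact interior_subset (s := {x | C.nr a b g x = 0}) this

theorem null (hZER : St_ZER) (hRM : St_RM) (hg : g ∈ C.Sec a b)
    (hd : Dense {x | C.nr a b g x ≠ 0}) (i : C.ι) : C.leb i {x | C.nr a b g x = 0} = 0 := by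
  have hR : IsRM (C.q i) (C.W i) (C.leb i) := (hRM n (C.dom i (C.W i) (C.rd i).opn Subset.rfl)).1
  have hm : MeasurableSet {x | C.nr a b g x = 0} :=
    (isClosed_eq (Ctx.continuous_nr hg) continuous_const).measurableSet
  have h1 : C.leb i ({x | C.nr a b g x = 0} ∩ C.W i) = 0 := by
    refine measure_null_of_locally_null _ fun y hy => ?_
    obtain ⟨e, r, -, he, hy', -, ht⟩ := (C.rd i).exists_ball hy.2 univ_mem
    refine ⟨{x | C.nr a b g x = 0} ∩ e.source, ?_, ?_⟩
    · filter_upwards [self_mem_nhdsWithin, mem_nhdsWithin_of_mem_nhds (e.open_source.mem_nhds hy')]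
        with x h1 h2 using ⟨h1.1, h2⟩
    · rw [hR.inj _ (hm.inter e.open_source.measurableSet) (fun x hx => he.sub hx.2)
        (fun u hu v hv huv => e.injOn hu.2 hv.2 (by rw [← he.eq hu.2, ← he.eq hv.2, huv]))]
      obtain ⟨x, hx1, hx2⟩ := hd.inter_open_nonempty _ e.open_source ⟨y, hy'⟩
      exact null_img hZER hg he ht ⟨x, hx1, hx2⟩
  refine measure_mono_null (fun x hx => ?_) (measure_union_null h1 hR.off)
  by_cases h : x ∈ C.W i
  · exact Or.inl ⟨hx, h⟩
  · exact Or.inr h

end ID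

theorem stID (hZER : St_ZER) (hRM : St_RM) (_hTR : St_TR) : St_ID := by
  intro n C a b σ hσ h0
  have h1 : Dense (C.π ⁻¹' C.nz a b σ) :=
    (ID.dense (C := C.base) hZER hσ h0).preimage C.isLocalHomeomorph.isOpenMap
  have h2 : ∀ i, C.leb i (C.π ⁻¹' C.nz a b σ)ᶜ = 0 := fun i => by
    have := ID.null hZER hRM (Ctx.pb_mem hσ) h1 i
    refine measure_mono_null (fun x hx => ?_) this
    exact not_not.1 hx
  exact ⟨h1, h2, withDensity_absolutelyContinuous _ _ (h2 _)⟩

end Pool.Agent.Lib.SV
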