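import Pool.Agent.Lib.SV.Blue2

/-! The iteration: finitely many steps lower the exponent of integrability. -/

open scoped Classical Topology ENNReal
open Set MeasureTheory Complex Filter Metric

noncomputable section

namespace Pool.Agent.Lib.SV

namespace IT

theorem young {N N' θ u : ℝ} (hN : 0 < N) (hN' : 0 ≤ N') (hθ : 0 ≤ θ) (hu : 0 < u) :
    N' ^ (1 / (1 + θ * u)) ≤ N' / N ^ θ + N ^ (1 / u) := by
  have h1 : 0 < 1 + θ * u := by positivity
  have hA : 0 ≤ N' / N ^ θ := by positivity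
  have hB : 0 ≤ N ^ (1 / u) := by positivity
  have hw : 1 / (1 + θ * u) + θ * u / (1 + θ * u) = 1 := by field_simp
  have hw1 : 0 ≤ 1 / (1 + θ * u) := by positivity
  have hw2 : 0 ≤ θ * u / (1 + θ * u) := by positivity
  have key := Real.geom_mean_le_arith_mean2_weighted hw1 hw2 hA hB hw
  have e : (N' / N ^ θ) ^ (1 / (1 + θ * u)) * (N ^ (1 / u)) ^ (θ * u / (1 + θ * u)) =
      N' ^ (1 / (1 + θ * u)) := by
    rw [Real.div_rpow hN' (by positivity), ← Real.rpow_mul hN.le, ← Real.rpow_mul hN.le,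
      show 1 / u * (θ * u / (1 + θ * u)) = θ * (1 / (1 + θ * u)) by field_simp]
    exact div_mul_cancel₀ _ (Real.rpow_pos_of_pos hN _).ne'
  rw [e] at key
  refine key.trans (add_le_add ?_ ?_)
  · exact mul_le_of_le_one_left hA (by linarith)
  · exact mul_le_of_le_one_left hB (by linarith)

theorem young_sup {N N' θ u : ℝ} (hN : 0 ≤ N) (hN' : 0 ≤ N') (hθ : 0 ≤ θ) (hu : 0 < u) :
    ENNReal.ofReal (N' ^ (1 / (1 + θ * u))) ≤
      (⨆ k : ℕ, ENNReal.ofReal (N' / (N + 1 / (k + 1)) ^ θ)) + ENNReal.ofReal (N ^ (1 / u)) := by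
  have t1 : Tendsto (fun k : ℕ => N + 1 / ((k : ℝ) + 1)) atTop (𝓝 N) := by
    simpa using (tendsto_one_div_add_atTop_nhds_zero_nat (𝕜 := ℝ)).const_add N
  have t2 : Tendsto (fun k : ℕ => ENNReal.ofReal ((N + 1 / ((k : ℝ) + 1)) ^ (1 / u))) atTop
      (𝓝 (ENNReal.ofReal (N ^ (1 / u)))) :=
    ENNReal.tendsto_ofReal (t1.rpow_const (Or.inr (by positivity)))
  refine ge_of_tendsto' (tendsto_const_nhds.add t2) fun k => ?_
  have hk : 0 < N + 1 / ((k : ℝ) + 1) := by positivity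
  refine (ENNReal.ofReal_le_ofReal (young hk hN' hθ hu)).trans (ENNReal.ofReal_add_le.trans ?_)
  exact add_le_add (le_iSup (fun k : ℕ => ENNReal.ofReal (N' / (N + 1 / (k + 1)) ^ θ)) k) le_rfl

end IT

theorem stIT (hIT1 : St_IT1) (hTAIL : St_TAIL) : St_IT := by
  intro n C ρ m b s₀ hn hρ hm hb hs₀ x hx
  have hm' : (1 : ℝ) ≤ m := by exact_mod_cast hm
  have hm0 : (0 : ℝ) < m := by linarith
  set θ : ℝ := ((m : ℝ) - 1) / m with hθ
  have θ0 : 0 ≤ θ := div_nonneg (by linarith) hm0.le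
  have θ1 : θ < 1 := (div_lt_one hm0).2 (by linarith)
  have mθ : (m : ℝ) * θ = m - 1 := by rw [hθ]; field_simp
  have upos : ∀ j : ℕ, 0 < (m : ℝ) * (1 - θ ^ (j + 1)) := fun j =>
    mul_pos hm0 (sub_pos.2 (pow_lt_one₀ θ0 θ1 j.succ_ne_zero))
  have main : ∀ j : ℕ, ∃ s ∈ C.Sec m b, s C.o x = s₀ C.o (C.π x) ∧
      ∫⁻ y, ENNReal.ofReal (C.nr m b s y ^ (1 / ((m : ℝ) * (1 - θ ^ (j + 1))))) ∂C.V ≠ ∞ := by
    intro j
    induction j with
    | zero =>
      obtain ⟨s, hs, e, fin⟩ := hIT1 n C ρ m b (C.pb s₀) hn hρ hm hb (Ctx.pb_mem hs₀) x hx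
      obtain ⟨M, hM⟩ := (isCompact_range (Ctx.continuous_nr (C := C.base) hs₀)).bddAbove
      refine ⟨s, hs, e, ?_⟩
      have e1 : 1 / ((m : ℝ) * (1 - θ ^ (0 + 1))) = 1 := by
        rw [zero_add, pow_one, mul_sub, mθ]; ring
      rw [e1]
      refine ne_top_of_le_ne_top (ENNReal.mul_ne_top (a := ENNReal.ofReal ((M + 1) ^ θ))
        ENNReal.ofReal_ne_top fin) ?_
      rw [← lintegral_const_mul' _ _ ENNReal.ofReal_ne_top]
      refine lintegral_mono fun y => ?_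
      have h0 := Ctx.nr_nonneg (a := m) (b := b) (C.pb s₀) y
      have h1 : C.nr m b (C.pb s₀) y ≤ M := hM ⟨C.π y, rfl⟩
      have h2 := Ctx.nr_nonneg (a := m) (b := b) s y
      refine le_trans ?_ (mul_le_mul_right (le_iSup (fun k : ℕ => ENNReal.ofReal
        (C.nr m b s y / (C.nr m b (C.pb s₀) y + 1 / (k + 1)) ^ θ)) 0) _)
      rw [← ENNReal.ofReal_mul (Real.rpow_nonneg (by linarith) _), Real.rpow_one]
      refine ENNReal.ofReal_le_ofReal ?_
      rw [Nat.cast_zero, zero_add, div_one, ← mul_div_assoc,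
        le_div_iff₀ (Real.rpow_pos_of_pos (by linarith) _), mul_comm]
      exact mul_le_mul_of_nonneg_right (Real.rpow_le_rpow (by linarith) (by linarith) θ0) h2
    | succ j ih =>
      obtain ⟨s, hs, e, fin⟩ := ih
      obtain ⟨s', hs', e', fin'⟩ := hIT1 n C ρ m b s hn hρ hm hb hs x hx
      refine ⟨s', hs', e'.trans e, ?_⟩
      have e1 : (m : ℝ) * (1 - θ ^ (j + 1 + 1)) = 1 + θ * (m * (1 - θ ^ (j + 1))) := by
        rw [pow_succ θ (j + 1)]; linear_combination -mθ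
      rw [e1]
      refine ne_top_of_le_ne_top (ENNReal.add_ne_top.2 ⟨fin', fin⟩) ?_
      rw [← lintegral_add_right _
        ((Ctx.continuous_nr hs).measurable.pow_const _).ennreal_ofReal]
      exact lintegral_mono fun y =>
        IT.young_sup (Ctx.nr_nonneg s y) (Ctx.nr_nonneg s' y) θ0 (upos j)
  obtain ⟨j, hj⟩ := exists_pow_lt_of_lt_one (show (0 : ℝ) < 1 / 2 by norm_num) θ1
  have hj' : θ ^ (j + 1) ≤ 1 / 2 :=
    (pow_le_pow_of_le_one θ0 θ1.le j.le_succ).trans hj.le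
  obtain ⟨s, hs, e, fin⟩ := main j
  set u : ℝ := (m : ℝ) * (1 - θ ^ (j + 1)) with hu
  have u0 : 0 < u := upos j
  have hle : 1 / u ≤ 4 / (m : ℝ) / 2 := by
    rw [div_div, div_le_div_iff₀ u0 (by positivity), hu]
    nlinarith
  obtain ⟨⟨M, hM⟩, -⟩ := hTAIL n C m b (2 / u) s (by positivity) hs (by
    unfold Ctx.Lp
    rwa [show 2 / u / 2 = 1 / u by ring])
  refine ⟨s, hs, e, ?_⟩
  refine ne_top_of_le_ne_top (ENNReal.mul_ne_top
    (a := ENNReal.ofReal (M ^ (4 / (m : ℝ) / 2 - 1 / u))) ENNReal.ofReal_ne_top fin) ?_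
  rw [← lintegral_const_mul' _ _ ENNReal.ofReal_ne_top]
  refine lintegral_mono fun y => ?_
  have h0 := Ctx.nr_nonneg (a := m) (b := b) s y
  rw [← ENNReal.ofReal_mul (Real.rpow_nonneg (h0.trans (hM y)) _)]
  refine ENNReal.ofReal_le_ofReal ?_
  rw [show 4 / (m : ℝ) / 2 = (4 / (m : ℝ) / 2 - 1 / u) + 1 / u by ring,
    Real.rpow_add_of_nonneg h0 (by linarith) (by positivity), add_sub_cancel_right]
  exact mul_le_mul_of_nonneg_right (Real.rpow_le_rpow h0 (hM y) (by linarith))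
    (Real.rpow_nonneg h0 _)

end Pool.Agent.Lib.SV
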