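import Pool.Agent.Lib.SV.Blue2
import Pool.Agent.Lib.SV.Hol85

/-! One step of the iteration. -/

open scoped Classical Topology ENNReal
open Set MeasureTheory Complex Filter Metric

set_option linter.unusedVariables false

noncomputable section

namespace Pool.Agent.Lib.SV

namespace IT1

section rd

variable {n : ℕ} {Y : Type} [TopologicalSpace Y] {p : Y → E n} {W : Set Y} {y : Y}

theorem hol_ev (h : RD p W) (hy : y ∈ W) {g : Y → ℂ} (hg : ∀ x ∈ W, Hol p g x) :
    ∀ᶠ w in 𝓝 (p y), DifferentiableAt ℂ (g ∘ lift p y) w := by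
  have l := h.locH hy
  filter_upwards [l.tendsto_lift.eventually (h.opn.mem_nhds hy),
    l.tendsto_lift.eventually l.lift_near, l.p_lift] with z h1 h2 h3
  have := (hg _ h1).congr_of_eventuallyEq (h2.fun_comp g).symm
  rwa [h3] at this

theorem sm_hol (h : RD p W) (hy : y ∈ W) {g : Y → ℂ} (hg : ∀ x ∈ W, Hol p g x) : Sm p 2 g y :=
  (H85.contDiffAt_nat (hol_ev h hy hg) 2).restrict_scalars ℝ

theorem psh_log (hFS : St_FS) (h : RD p W) (hy : y ∈ W) {ι : Type} [Fintype ι] {g : ι → Y → ℂ}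
    (hg : ∀ j, ∀ x ∈ W, Hol p (g j) x) {δ : ℝ} (hδ : 0 < δ) :
    Psh p (fun x => Real.log (∑ j, normSq (g j x) + δ)) y := by
  have e : ∀ᶠ w in 𝓝 (p y), DifferentiableAt ℂ (fun w j => g j (lift p y w)) w := by
    filter_upwards [eventually_all.2 fun j => hol_ev h hy (hg j)] with w hw
    exact differentiableAt_pi.2 hw
  have := hFS n ι (fun w j => g j (lift p y w)) (p y) δ hδ.le e
    (add_pos_of_nonneg_of_pos (nsq_nonneg _) hδ)
  exact ⟨this.1, fun v => (this.2 v).2⟩

theorem dbar_mul (h : LocH p y) {χ : Y → ℝ} {g : Y → ℂ} (hχ : Sm p 2 χ y) (hg : Hol p g y)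
    (v : E n) : ‖dbar p (fun x => (χ x : ℂ) * g x) y v‖ ^ 2 = normSq (g y) * grd p χ y v := by
  have h1 : HasFDerivAt (fun w => ((χ (lift p y w) : ℝ) : ℂ))
      (ofRealCLM.comp (dd p χ y)) (p y) :=
    ofRealCLM.hasFDerivAt.comp _ (Sm.differentiableAt hχ).hasFDerivAt
  have h2 := hg.hasFDerivAt.restrictScalars ℝ
  have h3 : dd p (fun x => (χ x : ℂ) * g x) y = _ := (h1.mul h2).fderiv
  have h4 : dbar p (fun x => (χ x : ℂ) * g x) y v =
      g y * ((dd p χ y v : ℝ) + (dd p χ y (I • v) : ℝ) * I) := by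
    rw [dbar, h3]
    simp only [add_apply, smul_apply,
      ContinuousLinearMap.coe_restrictScalars', ContinuousLinearMap.comp_apply, ofRealCLM_apply,
      smul_eq_mul, Function.comp_apply, h.lift_self, map_smul]
    linear_combination ((χ y : ℂ) * fderiv ℂ (g ∘ lift p y) (p y) v) * I_mul_I
  rw [h4, ← normSq_eq_norm_sq, map_mul, normSq_add_mul_I, grd]

theorem grd_const (h : LocH p y) {χ : Y → ℝ} {c : ℝ} (hχ : ∀ᶠ x in 𝓝 y, χ x = c) (v : E n) :
    grd p χ y v = 0 := by
  have : dd p χ y = 0 := by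
    rw [dd_congr h (g := fun _ => c) hχ]
    exact fderiv_const_apply c
  simp [grd, this]

end rd

theorem up {m κ β N B δ ψ L : ℝ} (hm : 1 ≤ m) (hN : 0 ≤ N) (hNB : N ≤ B) (hB : 1 ≤ B)
    (hδ : 0 < δ) (hψ : L ≤ ψ) :
    N * Real.exp (m * κ + β) *
      Real.exp (-((m - 1) / m * Real.log (N * Real.exp (m * κ + β) + δ) + β / m + ψ)) ≤
      Real.exp (Real.log B - L) * Real.exp κ := by
  rcases hN.eq_or_lt with rfl | hN
  · simp only [zero_mul]
    positivity
  have hm0 : 0 < m := by linarith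
  have θ0 : 0 ≤ (m - 1) / m := div_nonneg (by linarith) hm0.le
  have h1 : Real.log N + (m * κ + β) ≤ Real.log (N * Real.exp (m * κ + β) + δ) := by
    rw [← Real.log_exp (m * κ + β), ← Real.log_mul hN.ne' (Real.exp_pos _).ne', Real.log_exp]
    exact Real.log_le_log (by positivity) (by linarith)
  have h2 := mul_le_mul_of_nonneg_left h1 θ0
  have h3 : Real.log N / m ≤ Real.log B := by
    rw [div_le_iff₀ hm0]
    have a := Real.log_le_log hN hNB
    have b := Real.log_nonneg hB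
    nlinarith
  have h4 : (m - 1) / m * (Real.log N + (m * κ + β)) =
      Real.log N + (m * κ + β) - Real.log N / m - κ - β / m := by field_simp; ring
  calc _ = Real.exp (Real.log N + (m * κ + β) +
        -((m - 1) / m * Real.log (N * Real.exp (m * κ + β) + δ) + β / m + ψ)) := by
        rw [Real.exp_add (Real.log N + _), Real.exp_add (Real.log N), Real.exp_log hN]
    _ ≤ Real.exp (Real.log B - L + κ) := Real.exp_le_exp.2 (by linarith)
    _ = _ := Real.exp_add _ _

theorem low {m κ β a P δ ψ L : ℝ} (hm : 1 ≤ m) (ha : 0 ≤ a) (hδ : 0 < δ) (hP : 0 < P)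
    (h : a + δ ≤ P * Real.exp (m * κ + β)) (hψ : ψ ≤ L) :
    Real.exp κ * (Real.exp (-(m * κ + β)) / P ^ ((m - 1) / m)) ≤
      Real.exp L * Real.exp (-((m - 1) / m * Real.log (a + δ) + β / m + ψ)) := by
  have hm0 : 0 < m := by linarith
  have θ0 : 0 ≤ (m - 1) / m := div_nonneg (by linarith) hm0.le
  have h1 : Real.log (a + δ) ≤ Real.log P + (m * κ + β) := by
    rw [← Real.log_exp (m * κ + β), ← Real.log_mul hP.ne' (Real.exp_pos _).ne']
    exact Real.log_le_log (by positivity) h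
  have h2 := mul_le_mul_of_nonneg_left h1 θ0
  have h4 : (m - 1) / m * (Real.log P + (m * κ + β)) =
      Real.log P * ((m - 1) / m) + (m * κ + β) - κ - β / m := by field_simp; ring
  rw [Real.rpow_def_of_pos hP, ← Real.exp_sub, ← Real.exp_add, ← Real.exp_add]
  exact Real.exp_le_exp.2 (by linarith)

theorem mid {N B δ θ : ℝ} (hN : 0 ≤ N) (hNB : N ≤ B) (hB : 1 ≤ B) (hδ : 0 < δ) (θ0 : 0 ≤ θ)
    (θ1 : θ ≤ 1) : N / (N + δ) ^ θ ≤ B := by
  have hp : 0 < N + δ := by linarith
  rw [div_le_iff₀ (Real.rpow_pos_of_pos hp _)]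
  rcases le_total 1 (N + δ) with h | h
  · have := Real.one_le_rpow h θ0
    nlinarith
  · have := Real.rpow_le_rpow_of_exponent_ge hp h θ1
    rw [Real.rpow_one] at this
    nlinarith

theorem pole {S M r δ : ℝ} {t : ℕ} (ht : t ≠ 0) (hS : 0 ≤ S) (hr : 0 ≤ r) (hδ : 0 < δ)
    (h : S ≤ M * r ^ t) :
    Real.log (S + δ ^ t) ≤ Real.log (max M 1) + t * Real.log (r + δ) := by
  have h1 : (1 : ℝ) ≤ max M 1 := le_max_right _ _
  have h2 := pow_add_pow_le hr hδ.le ht
  have h3 : M * r ^ t ≤ max M 1 * r ^ t := mul_le_mul_of_nonneg_right (le_max_left _ _) (by positivity)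
  have h4 : 0 < δ ^ t := by positivity
  rw [← Real.log_pow, ← Real.log_mul (by linarith) (by positivity)]
  refine Real.log_le_log (by linarith) ?_
  nlinarith

theorem sq_le (G F : ℂ) : normSq F ≤ 2 * normSq G + 2 * ‖G - F‖ ^ 2 := by
  rw [normSq_eq_norm_sq, normSq_eq_norm_sq]
  have h : ‖F‖ ≤ ‖G‖ + ‖G - F‖ := by simpa using norm_sub_le G (G - F)
  nlinarith [norm_nonneg F, norm_nonneg G, norm_nonneg (G - F), sq_nonneg (‖G‖ - ‖G - F‖)]

end IT1

open IT1 in
theorem stIT1 (hHOR : St_HOR) (hZBD : St_ZBD) (hEXH : St_EXH) (hEXT : St_EXT) (hVOL : St_VOL)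
    (hBD : St_BD) (hFS : St_FS) (hNINT : St_NINT) (hRM : St_RM) (hLOCB : St_LOCB) (hW0 : St_W0) :
    St_IT1 := by
  intro n C ρ m b s hn hρ hm hb hs x hx
  obtain ⟨k0, hk0⟩ := hZBD n C ρ hn hρ
  obtain ⟨hBD1, Mκ, Mκ0, hMκ⟩ := hBD n C
  obtain ⟨-, hV, hVK, -⟩ := hVOL n C
  replace hV := hV C.o C.good.ne
  have hm' : (1 : ℝ) ≤ m := by exact_mod_cast hm
  have hb' : (1 : ℝ) ≤ b := by exact_mod_cast hb
  have hm0 : (0 : ℝ) < m := by linarith
  have hb0 : (0 : ℝ) < b := by linarith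
  have θ0 : 0 ≤ ((m : ℝ) - 1) / m := div_nonneg (by linarith) hm0.le
  have θ1 : ((m : ℝ) - 1) / m ≤ 1 := (div_le_one hm0).2 (by linarith)
  obtain ⟨t, ht0, ht⟩ : ∃ t : ℕ, t ≠ 0 ∧ (n : ℝ) / t * (Mκ + k0) ≤ b / (2 * m) := by
    obtain ⟨t, ht⟩ := exists_nat_ge (n * (Mκ + k0) * (2 * m) / b)
    refine ⟨t + 1, t.succ_ne_zero, ?_⟩
    rw [div_le_iff₀ hb0] at ht
    rw [div_mul_eq_mul_div, div_le_div_iff₀ (by positivity) (by positivity)]
    push_cast
    nlinarith
  have t0 : (0 : ℝ) < t := by exact_mod_cast Nat.pos_of_ne_zero ht0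
  have τ0 : 0 ≤ (n : ℝ) / t := by positivity
  obtain ⟨χ, r, σ, hχ, hχK, hχ01, hχx, hσ, ⟨M1, hM1⟩, ⟨M2, hM2⟩, c, c0, hc⟩ := hk0 x hx t
  obtain ⟨Mχ, Mχ0, hMχ⟩ := hBD1 χ hχ hχK
  have hRD := C.rd C.o
  have hW : C.π ⁻¹' C.nz 1 (n + 2) (C.P.ξ C.o * C.P.jac C.o) = C.W C.o := by rw [C.nz_σ]
  obtain ⟨ex, hex⟩ := hEXH n C ρ C.o 1 (n + 2) _ hρ (C.σ_mem C.o) (C.nz_σ C.o).subset
  rw [hW] at hex
  let D : Dom n := C.dom C.o (C.W C.o) hRD.opn Subset.rfl
  obtain ⟨hrm, -, hch, -⟩ := hRM n D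
  have hoff : ∀ᵐ y ∂C.leb C.o, y ∈ C.W C.o := hrm.off
  have hres : (C.leb C.o).restrict (C.W C.o) = C.leb C.o := Measure.restrict_eq_self_of_ae_mem hoff
  have hmeas : ∀ f : C.Y → ℝ, (∀ y ∈ C.W C.o, ContinuousAt f y) → AEMeasurable f (C.leb C.o) :=
    fun f hf => hres ▸ ContinuousOn.aemeasurable (fun y hy => (hf y hy).continuousWithinAt)
      hRD.opn.measurableSet
  set g : C.Y → ℂ := s C.o with hgd
  have hg : ∀ y ∈ C.W C.o, Hol (C.q C.o) g y := hs.hol C.o
  set N : C.Y → ℝ := C.nr m b s with hNd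
  have hNc : Continuous N := Ctx.continuous_nr hs
  have hN0 : ∀ y, 0 ≤ N y := Ctx.nr_nonneg s
  have hgN : ∀ y ∈ C.W C.o, normSq (g y) = N y * Real.exp (m * C.κ C.o y + b * C.φ C.o y) := by
    intro y hy
    rw [hNd, Ctx.nr_eq hs hy, mul_assoc, ← Real.exp_add, Ctx.wt, neg_add_cancel, Real.exp_zero,
      mul_one]
  set S : C.Y → ℝ := fun y => ∑ j, normSq (σ j C.o y) with hSd
  have hS0 : ∀ y, 0 ≤ S y := fun y => Finset.sum_nonneg fun _ _ => normSq_nonneg _
  have hSN : ∀ y ∈ C.W C.o, S y = (∑ j, C.nr 1 k0 (σ j) y) * Real.exp (C.wt 1 k0 C.o y) := by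
    intro y hy
    rw [Finset.sum_mul]
    refine Finset.sum_congr rfl fun j _ => ?_
    rw [Ctx.nr_eq (hσ j) hy, mul_assoc, ← Real.exp_add, neg_add_cancel, Real.exp_zero, mul_one]
  set δ : ℕ → ℝ := fun k => 1 / (k + 1) with hδd
  have δ0 : ∀ k, 0 < δ k := fun k => by positivity
  have δ1 : ∀ k, δ k ≤ 1 := fun k => by
    rw [hδd, div_le_one (by positivity)]
    exact le_add_of_nonneg_left k.cast_nonneg
  have δa : Antitone δ := fun k l h => Nat.one_div_le_one_div h
  have δt : Tendsto δ atTop (𝓝 0) := tendsto_one_div_add_atTop_nhds_zero_nat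
  set ψ : ℕ → C.Y → ℝ := fun k y =>
    (n : ℝ) / t * (Real.log (S y + δ k ^ t) - C.wt 1 k0 C.o y) with hψd
  set φ : ℕ → C.Y → ℝ := fun k y => ((m : ℝ) - 1) / m * Real.log (normSq (g y) + δ k) +
    b * C.φ C.o y / m + ψ k y with hφd
  have P1 : ∀ k, ∀ y ∈ C.W C.o, Psh (C.q C.o) (fun x => Real.log (normSq (g x) + δ k)) y :=
    fun k y hy => by
      simpa using psh_log hFS hRD hy (ι := Unit) (g := fun _ => g) (fun _ => hg) (δ0 k)
  have P2 : ∀ k, ∀ y ∈ C.W C.o, Psh (C.q C.o) (fun x => Real.log (S x + δ k ^ t)) y :=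
    fun k y hy => psh_log hFS hRD hy (fun j => (hσ j).hol C.o) (pow_pos (δ0 k) t)
  have P3 : ∀ y ∈ C.W C.o, Psh (C.q C.o)
      (fun x => b / (2 * m) * C.φ C.o x - n / t * C.wt 1 k0 C.o x) y := by
    intro y hy
    have a1 : Sm (C.q C.o) 2 (fun x => (b : ℝ) / (2 * m) * C.φ C.o x) y :=
      (sm_const _).mul (Ctx.sm_φ hy)
    have a2 : Sm (C.q C.o) 2 (fun x => (n : ℝ) / t * C.wt 1 k0 C.o x) y :=
      (sm_const _).mul (Ctx.sm_wt hy)
    refine ⟨a1.sub a2, fun v => ?_⟩
    have a3 : lev (C.q C.o) (C.wt 1 k0 C.o) y v =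
        lev (C.q C.o) (C.κ C.o) y v + k0 * C.om C.o y v := by
      rw [show C.wt 1 k0 C.o = fun x => ((1 : ℕ) : ℝ) * C.κ C.o x + k0 * C.φ C.o x from rfl,
        lev_add ((sm_const _).mul (Ctx.sm_κ hy)) ((sm_const _).mul (Ctx.sm_φ hy)),
        lev_const_mul (Ctx.sm_κ hy), lev_const_mul (Ctx.sm_φ hy), Nat.cast_one, one_mul]
      rfl
    rw [lev_sub a1 a2, lev_const_mul (Ctx.sm_φ hy), lev_const_mul (Ctx.sm_wt hy), a3]
    have a4 := mul_le_mul_of_nonneg_left (abs_le.1 (hMκ C.o y hy v)).2 τ0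
    have a5 := mul_le_mul_of_nonneg_right ht (Ctx.om_nonneg hy v)
    change 0 ≤ _ * C.om C.o y v - _
    linarith
  have P0 : ∀ y ∈ C.W C.o, Psh (C.q C.o) (fun x => (b : ℝ) / (2 * m) * C.φ C.o x) y :=
    fun y hy => Psh.const_mul ⟨Ctx.sm_φ hy, Ctx.om_nonneg hy⟩ (by positivity)
  have P4 : ∀ k, ∀ y ∈ C.W C.o,
      Psh (C.q C.o) (fun x => φ k x - (b : ℝ) / (2 * m) * C.φ C.o x) y := by
    intro k y hy
    have e : (fun x => φ k x - (b : ℝ) / (2 * m) * C.φ C.o x) = fun x =>
        ((m : ℝ) - 1) / m * Real.log (normSq (g x) + δ k) + n / t * Real.log (S x + δ k ^ t) +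
        (b / (2 * m) * C.φ C.o x - n / t * C.wt 1 k0 C.o x) := by
      funext x
      simp only [hφd, hψd]
      ring
    rw [e]
    exact (((P1 k y hy).const_mul θ0).add ((P2 k y hy).const_mul τ0)).add (P3 y hy)
  have φc : ∀ k, ∀ y ∈ C.W C.o, ContinuousAt (φ k) y := fun k y hy => by
    have := ((P4 k y hy).1.add (P0 y hy).1).continuousAt (Ctx.locH hy)
    simpa using this
  have φa : ∀ y, Antitone fun k => φ k y := by
    intro y k l h
    have a1 := Real.log_le_log (add_pos_of_nonneg_of_pos (normSq_nonneg (g y)) (δ0 l))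
      (add_le_add_right (δa h) _)
    have a2 := Real.log_le_log (add_pos_of_nonneg_of_pos (hS0 y) (pow_pos (δ0 l) t))
      (add_le_add_right (pow_le_pow_left₀ (δ0 l).le (δa h) t) _)
    have a3 := mul_le_mul_of_nonneg_left a1 θ0
    have a4 := mul_le_mul_of_nonneg_left a2 τ0
    simp only [hφd, hψd]
    linarith
  have hK : IsCompact (tsupport χ) := hχK
  obtain ⟨B, hB1, hB⟩ : ∃ B : ℝ, 1 ≤ B ∧ ∀ y ∈ tsupport χ, N y ≤ B := by
    obtain ⟨B, hB⟩ := hK.bddAbove_image hNc.continuousOn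
    exact ⟨max B 1, le_max_right _ _, fun y hy => (hB (mem_image_of_mem _ hy)).trans (le_max_left _ _)⟩
  have hKV : ∀ a : ℝ, ∫⁻ y, ENNReal.ofReal (Real.exp (C.κ C.o y)) *
      (tsupport χ).indicator (fun _ => ENNReal.ofReal a) y ∂C.leb C.o ≠ ∞ := fun a => by
    rw [← hV, lintegral_indicator_const hK.measurableSet]
    exact ENNReal.mul_ne_top ENNReal.ofReal_ne_top (hVK _ hK)
  set A : Set C.Y := tsupport χ ∩ {y | c ≤ ∑ j, C.nr 1 k0 (σ j) y} with hAd
  have hAm : MeasurableSet A := hK.measurableSet.inter (isClosed_le continuous_const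
    (continuous_finsetSum _ fun j _ => Ctx.continuous_nr (hσ j))).measurableSet
  set G : C.Y → ℂ := fun y => (χ y : ℂ) * g y with hGd
  have hG : ∀ y ∈ C.W C.o, Sm (C.q C.o) 2 G y := fun y hy =>
    (hχ C.o y hy).ofReal.mul (sm_hol hRD hy hg)
  have a0 : 0 ≤ 2 * m / b * Mχ := by positivity
  obtain ⟨F, M', hM', hF, hFM⟩ := hHOR n D ex G (fun x => (b : ℝ) / (2 * m) * C.φ C.o x)
    (A.indicator fun y => 2 * m / b * Mχ * normSq (g y)) φ _ hex
    (fun y hy => ⟨hG y hy, P0 y hy,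
      indicator_nonneg (fun y _ => mul_nonneg a0 (normSq_nonneg _)) y, fun v => by
        change ‖dbar (C.q C.o) G y v‖ ^ 2 ≤ _ * lev (C.q C.o) _ y v
        rw [hGd, dbar_mul (Ctx.locH hy) (hχ C.o y hy) (hg y hy), lev_const_mul (Ctx.sm_φ hy)]
        by_cases hA : y ∈ A
        · rw [indicator_of_mem hA]
          calc _ ≤ normSq (g y) * (Mχ * C.om C.o y v) :=
                mul_le_mul_of_nonneg_left (hMχ C.o y hy v).1 (normSq_nonneg _)
            _ = _ := by
              change _ = _ * (_ * C.om C.o y v)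
              field_simp
        · rw [indicator_of_notMem hA, zero_mul]
          by_cases h1 : y ∈ tsupport χ
          · rw [grd_const (Ctx.locH hy) ((hc y).resolve_right fun h => hA ⟨h1, h⟩), mul_zero]
          · rw [grd_const (Ctx.locH hy) (notMem_tsupport_iff_eventuallyEq.1 h1), mul_zero],
      fun k => LU.of_psh (by
        filter_upwards [hRD.opn.mem_nhds hy] with z hz using P4 k z hz), φa y⟩)
    ((hmeas _ fun y hy => continuousAt_const.mul
      (continuous_normSq.continuousAt.comp ((hg y hy).continuousAt (Ctx.locH hy)))).indicator hAm)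
    (hKV (2 * m / b * Mχ * Real.exp (Real.log B - n / t * Real.log c)))
    (fun k => lintegral_mono_ae (by
      filter_upwards [hoff] with y hy
      by_cases hA : y ∈ A
      · rw [indicator_of_mem hA, indicator_of_mem hA.1, ← ENNReal.ofReal_mul (Real.exp_pos _).le]
        refine ENNReal.ofReal_le_ofReal ?_
        have a1 : (n : ℝ) / t * Real.log c ≤ ψ k y := by
          refine mul_le_mul_of_nonneg_left ?_ τ0
          rw [le_sub_iff_add_le, ← Real.log_exp (C.wt 1 k0 C.o y),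
            ← Real.log_mul c0.ne' (Real.exp_pos _).ne']
          refine Real.log_le_log (by positivity) ?_
          have := mul_le_mul_of_nonneg_right hA.2 (Real.exp_pos (C.wt 1 k0 C.o y)).le
          rw [← hSN y hy] at this
          linarith [pow_pos (δ0 k) t]
        have a2 := mul_le_mul_of_nonneg_left (up (κ := C.κ C.o y) (β := b * C.φ C.o y) hm' (hN0 y)
          (hB y hA.1) hB1 (δ0 k) a1) a0
        rw [← hgN y hy] at a2
        simp only [hφd]
        linarith
      · simp [indicator_of_notMem hA]))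
  change ∀ k, ∫⁻ y, ENNReal.ofReal (‖G y - F y‖ ^ 2 * Real.exp (-φ k y)) ∂C.leb C.o ≤ M' at hFM
  change ∀ y ∈ C.W C.o, Hol (C.q C.o) F y at hF
  have hu : ∀ y ∈ C.W C.o, ContinuousAt (fun y => G y - F y) y := fun y hy =>
    ((hG y hy).continuousAt (Ctx.locH hy)).sub ((hF y hy).continuousAt (Ctx.locH hy))
  -- the value at the pole
  have hFx : F x = g x := by
    set β : C.Y → ℝ := fun y => ((m : ℝ) - 1) / m * Real.log (normSq (g y) + δ 0) +
      b * C.φ C.o y / m + n / t * (Real.log (max M2 1) - C.wt 1 k0 C.o y) with hβd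
    have hβ : ContinuousAt β x :=
      ((continuousAt_const.mul ((P1 0 x hx).1.continuousAt (Ctx.locH hx))).add
        ((continuousAt_const.mul ((Ctx.sm_φ hx).continuousAt (Ctx.locH hx))).div_const _)).add
        (continuousAt_const.mul (continuousAt_const.sub
          ((Ctx.sm_wt hx).continuousAt (Ctx.locH hx))))
    obtain ⟨e, he, hxe, hes⟩ := hRD.exists_cht hx
      (inter_mem hM2 (hβ.eventually (gt_mem_nhds (lt_add_one (β x)))))
    have hz : e.target ∈ 𝓝 (C.q C.o x) := e.open_target.mem_nhds (he.mem_target hxe)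
    have hcs : ContinuousAt e.symm (C.q C.o x) := e.continuousAt_symm (he.mem_target hxe)
    have h0 := hNINT n (fun w => G (e.symm w) - F (e.symm w)) (C.q C.o x) e.target
      (ENNReal.ofReal (Real.exp (β x + 1)) * M') hn hz
      (ContinuousAt.comp_of_eq (hu x hx) hcs (he.symm_p hxe))
      (ENNReal.mul_ne_top ENNReal.ofReal_ne_top hM') fun k => by
        calc _ = ∫⁻ w in e.target, ENNReal.ofReal (‖G (e.symm w) - F (e.symm w)‖ ^ 2 /
              (nsq (C.q C.o (e.symm w) - C.q C.o x) + δ k) ^ n) :=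
              setLIntegral_congr_fun e.open_target.measurableSet fun w hw => by rw [he.p_symm hw]
          _ = ∫⁻ y in e.source, ENNReal.ofReal (‖G y - F y‖ ^ 2 /
              (nsq (C.q C.o y - C.q C.o x) + δ k) ^ n) ∂C.leb C.o :=
              (hch e he fun y => ENNReal.ofReal (‖G y - F y‖ ^ 2 /
                (nsq (C.q C.o y - C.q C.o x) + δ k) ^ n)).symm
          _ ≤ ∫⁻ y in e.source, ENNReal.ofReal (Real.exp (β x + 1)) *
              ENNReal.ofReal (‖G y - F y‖ ^ 2 * Real.exp (-φ k y)) ∂C.leb C.o := by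
            refine setLIntegral_mono' e.open_source.measurableSet fun y hy => ?_
            rw [← ENNReal.ofReal_mul (Real.exp_pos _).le]
            refine ENNReal.ofReal_le_ofReal ?_
            have r0 := nsq_nonneg (C.q C.o y - C.q C.o x)
            have r1 : 0 < nsq (C.q C.o y - C.q C.o x) + δ k := by linarith [δ0 k]
            have a1 := mul_le_mul_of_nonneg_left (pole ht0 (hS0 y) r0 (δ0 k) (hes hy).1) τ0
            have a2 := mul_le_mul_of_nonneg_left (Real.log_le_log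
              (add_pos_of_nonneg_of_pos (normSq_nonneg (g y)) (δ0 k))
              (add_le_add_right (δa k.zero_le) _)) θ0
            have a3 : β y < β x + 1 := (hes hy).2
            have a4 : (n : ℝ) / t * (t * Real.log (nsq (C.q C.o y - C.q C.o x) + δ k)) =
                n * Real.log (nsq (C.q C.o y - C.q C.o x) + δ k) := by field_simp
            have a5 : -(n * Real.log (nsq (C.q C.o y - C.q C.o x) + δ k)) ≤ β x + 1 + -φ k y := by
              have : φ k y ≤ β y + n * Real.log (nsq (C.q C.o y - C.q C.o x) + δ k) := by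
                simp only [hφd, hψd, hβd]
                linarith
              linarith
            have a6 := Real.exp_le_exp.2 a5
            rw [Real.exp_neg, Real.exp_nat_mul, Real.exp_log r1, Real.exp_add] at a6
            rw [div_eq_mul_inv, mul_left_comm]
            exact mul_le_mul_of_nonneg_left a6 (sq_nonneg _)
          _ ≤ _ := by
            rw [lintegral_const_mul' _ _ ENNReal.ofReal_ne_top]
            exact mul_le_mul_right ((setLIntegral_le_lintegral _ _).trans (hFM k)) _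
    simp only [he.symm_p hxe, hGd, hχx.self_of_nhds, ofReal_one, one_mul] at h0
    exact (sub_eq_zero.1 h0).symm
  -- the estimate
  set Φ : C.Y → ℝ≥0∞ := fun y => ⨆ k : ℕ, ENNReal.ofReal
    (normSq (F y) * Real.exp (-C.wt m b C.o y) / (N y + δ k) ^ (((m : ℝ) - 1) / m)) with hΦd
  have hΦ : ∫⁻ y, Φ y ∂C.V ≠ ∞ := by
    set L : ℝ := n / t * Real.log (max M1 0 + 1) with hLd
    have hsup : ∫⁻ y, ⨆ k, ENNReal.ofReal (‖G y - F y‖ ^ 2 * Real.exp (-φ k y)) ∂C.leb C.o ≤ M' := by
      rw [lintegral_iSup' (fun k => (hmeas (fun y => ‖G y - F y‖ ^ 2 * Real.exp (-φ k y))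
        fun y hy => ((hu y hy).norm.pow 2).mul (Real.continuous_exp.continuousAt.comp (φc k y hy).neg)).ennreal_ofReal)
        (Eventually.of_forall fun y k l h => ENNReal.ofReal_le_ofReal
          (mul_le_mul_of_nonneg_left (Real.exp_le_exp.2 (neg_le_neg (φa y h))) (sq_nonneg _)))]
      exact iSup_le hFM
    have hle : ∀ y ∈ C.W C.o, ENNReal.ofReal (Real.exp (C.κ C.o y)) * Φ y ≤
        ENNReal.ofReal (Real.exp (C.κ C.o y)) *
          (tsupport χ).indicator (fun _ => ENNReal.ofReal (2 * B)) y +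
        ENNReal.ofReal (2 * Real.exp L) *
          ⨆ k, ENNReal.ofReal (‖G y - F y‖ ^ 2 * Real.exp (-φ k y)) := by
      intro y hy
      rw [hΦd, ENNReal.mul_iSup]
      refine iSup_le fun k' => ?_
      have hP : 0 < N y + δ k' := by linarith [hN0 y, δ0 k']
      obtain ⟨k, h1, h2⟩ := ((δt.eventually (ge_mem_nhds (mul_pos (δ0 k')
        (Real.exp_pos (m * C.κ C.o y + b * C.φ C.o y))))).and
        (δt.eventually (ge_mem_nhds (Real.exp_pos (C.wt 1 k0 C.o y))))).exists
      have a1 : ψ k y ≤ L := by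
        refine mul_le_mul_of_nonneg_left ?_ τ0
        have := le_max_right M1 0
        rw [sub_le_iff_le_add, ← Real.log_exp (C.wt 1 k0 C.o y),
          ← Real.log_mul (by linarith) (Real.exp_pos _).ne']
        refine Real.log_le_log (add_pos_of_nonneg_of_pos (hS0 y) (pow_pos (δ0 k) t)) ?_
        have a := mul_le_mul_of_nonneg_right ((hM1 y).trans (le_max_left M1 0))
          (Real.exp_pos (C.wt 1 k0 C.o y)).le
        rw [← hSN y hy] at a
        have := pow_le_of_le_one (δ0 k).le (δ1 k) ht0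
        linarith
      have a2 := low hm' (normSq_nonneg (g y)) (δ0 k) hP (by rw [hgN y hy]; linarith) a1
      have a3 : normSq (G y) * (Real.exp (-C.wt m b C.o y) / (N y + δ k') ^ (((m : ℝ) - 1) / m)) ≤
          (tsupport χ).indicator (fun _ => B) y := by
        by_cases h : y ∈ tsupport χ
        · rw [indicator_of_mem h, hGd, map_mul, normSq_ofReal, mul_assoc, ← mul_div_assoc,
            ← Ctx.nr_eq hs hy]
          have a := mid (hN0 y) (hB y h) hB1 (δ0 k') θ0 θ1
          have a' : 0 ≤ N y / (N y + δ k') ^ (((m : ℝ) - 1) / m) :=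
            div_nonneg (hN0 y) (Real.rpow_pos_of_pos hP _).le
          exact (mul_le_of_le_one_left a' (mul_le_one₀ (hχ01 y).2 (hχ01 y).1 (hχ01 y).2)).trans a
        · simp [indicator_of_notMem h, hGd, image_eq_zero_of_notMem_tsupport h]
      have a4 : (tsupport χ).indicator (fun _ => ENNReal.ofReal (2 * B)) y =
          ENNReal.ofReal (2 * (tsupport χ).indicator (fun _ => B) y) := by
        by_cases h : y ∈ tsupport χ <;> simp [h]
      refine le_trans ?_ (add_le_add le_rfl (mul_le_mul_right (le_iSup _ k) _))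
      rw [a4, ← ENNReal.ofReal_mul (Real.exp_pos _).le, ← ENNReal.ofReal_mul (Real.exp_pos _).le,
        ← ENNReal.ofReal_mul (by positivity)]
      refine (ENNReal.ofReal_le_ofReal ?_).trans ENNReal.ofReal_add_le
      have e0 := (Real.exp_pos (C.κ C.o y)).le
      have q0 : 0 ≤ Real.exp (-C.wt m b C.o y) / (N y + δ k') ^ (((m : ℝ) - 1) / m) :=
        div_nonneg (Real.exp_pos _).le (Real.rpow_pos_of_pos hP _).le
      have a5 := mul_le_mul_of_nonneg_left (mul_le_mul_of_nonneg_right (sq_le (G y) (F y)) q0) e0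
      have a6 := mul_le_mul_of_nonneg_left a3 e0
      have a7 := mul_le_mul_of_nonneg_left a2 (sq_nonneg ‖G y - F y‖)
      rw [mul_div_assoc]
      simp only [hφd]
      simp only [Ctx.wt] at a5 a6 ⊢
      linarith
    rw [hV]
    refine ne_top_of_le_ne_top ?_ (lintegral_mono_ae (hoff.mono hle))
    have hme : AEMeasurable (fun y => ENNReal.ofReal (Real.exp (C.κ C.o y)) *
        (tsupport χ).indicator (fun _ => ENNReal.ofReal (2 * B)) y) (C.leb C.o) :=
      ((hmeas _ fun y hy => Real.continuous_exp.continuousAt.comp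
        ((Ctx.sm_κ hy).continuousAt (Ctx.locH hy))).ennreal_ofReal).mul
        (aemeasurable_const.indicator hK.measurableSet)
    rw [lintegral_add_left' hme, lintegral_const_mul' _ _ ENNReal.ofReal_ne_top]
    exact ENNReal.add_ne_top.2 ⟨hKV _, ENNReal.mul_ne_top ENNReal.ofReal_ne_top
      (ne_top_of_le_ne_top hM' hsup)⟩
  obtain ⟨s', hs', hs'F⟩ := hEXT n C C.o m b 1 (n + 2) _ F (C.σ_mem C.o)
    (fun h => by
      obtain ⟨z, hz⟩ := C.good.ne
      rw [← C.nz_σ, h] at hz
      exact hz (by simp [Ctx.nr]))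
    (C.nz_σ C.o).subset (fun y hy => hF y (hW.subset hy)) fun y => by
      have ho : IsOpen {z | N z < N y + 1} := isOpen_lt hNc continuous_const
      refine ⟨_, ho.mem_nhds (lt_add_one (N y)), ?_⟩
      rw [hW]
      refine ne_top_of_le_ne_top (ENNReal.mul_ne_top (ENNReal.ofReal_ne_top
        (r := (N y + 2) ^ (((m : ℝ) - 1) / m))) hΦ) ?_
      rw [← lintegral_const_mul' _ _ ENNReal.ofReal_ne_top]
      refine le_trans (setLIntegral_mono' (ho.inter hRD.opn).measurableSet fun z hz => ?_)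
        (setLIntegral_le_lintegral _ _)
      have hP : 0 < N z + δ 0 := by linarith [hN0 z, δ0 0]
      have hQ := Real.rpow_pos_of_pos hP (((m : ℝ) - 1) / m)
      have hz1 : N z < N y + 1 := hz.1
      have a := Real.rpow_le_rpow hP.le (by linarith [δ1 0] : N z + δ 0 ≤ N y + 2) θ0
      refine le_trans ?_ (mul_le_mul_right (le_iSup _ 0) _)
      rw [← ENNReal.ofReal_mul (hQ.le.trans a)]
      refine ENNReal.ofReal_le_ofReal ?_
      rw [← mul_div_assoc, le_div_iff₀ hQ, mul_comm]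
      exact mul_le_mul_of_nonneg_right a (mul_nonneg (normSq_nonneg _) (Real.exp_pos _).le)
  refine ⟨s', hs', (hs'F x (hW.symm.subset hx)).trans hFx, ?_⟩
  rw [hV] at hΦ ⊢
  refine ne_of_eq_of_ne (lintegral_congr_ae ?_) hΦ
  filter_upwards [hoff] with y hy
  rw [Ctx.nr_eq hs' hy, hs'F y (hW.symm.subset hy)]

end Pool.Agent.Lib.SV
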