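import Pool.Agent.Lib.SV.Blue1

/-! The Levi form of a `C^2` function under a holomorphic map. -/

open scoped Topology
open Set Complex Filter

noncomputable section

namespace Pool.Agent.Lib.SV

namespace LEVC

variable {n : ℕ}

theorem smooth (hSMO : St_SMO) {τ : E n → E n} {z : E n}
    (h : ∀ᶠ w in 𝓝 z, DifferentiableAt ℂ τ w) : ContDiffAt ℂ 2 τ z := by
  obtain ⟨U, hU, ho, hz⟩ := eventually_nhds_iff.1 h
  have := hSMO n (E n) U τ ho (fun w hw => (hU w hw).differentiableWithinAt) 2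
  exact this.contDiffAt (ho.mem_nhds hz)

theorem d2_comp_hol {g : E n → ℝ} {τ : E n → E n} {z : E n} (hτ : ContDiffAt ℂ 2 τ z)
    (hg : ContDiffAt ℝ 2 g (τ z)) (u : E n) :
    d2 (g ∘ τ) z u = fderiv ℝ (fderiv ℝ g) (τ z) (fderiv ℂ τ z u) (fderiv ℂ τ z u) +
      fderiv ℝ g (τ z) (fderiv ℂ (fderiv ℂ τ) z u u) := by
  have hτ1 : DifferentiableAt ℂ τ z := hτ.differentiableAt (by simp)
  have e : (fun w => fderiv ℝ (g ∘ τ) w u) =ᶠ[𝓝 z]
      fun w => fderiv ℝ g (τ w) (fderiv ℂ τ w u) := by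
    filter_upwards [hτ.eventually (by simp),
      hτ1.continuousAt.tendsto.eventually (hg.eventually (by simp))] with w a b
    have a1 := (a.differentiableAt (by simp)).hasFDerivAt.restrictScalars ℝ
    have b1 := (b.differentiableAt (by simp)).hasFDerivAt
    rw [(b1.comp w a1).fderiv]
    rfl
  have h1 : HasFDerivAt (fun w => fderiv ℝ g (τ w))
      ((fderiv ℝ (fderiv ℝ g) (τ z)).comp ((fderiv ℂ τ z).restrictScalars ℝ)) z :=
    ((hg.fderiv_right (m := 1) (by norm_num)).differentiableAt (by norm_num)).hasFDerivAt.comp z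
      (hτ1.hasFDerivAt.restrictScalars ℝ)
  have h2 : DifferentiableAt ℂ (fderiv ℂ τ) z :=
    (hτ.fderiv_right (m := 1) (by norm_num)).differentiableAt (by norm_num)
  have h3 := (h2.hasFDerivAt.clm_apply (hasFDerivAt_const u z)).restrictScalars ℝ
  have h4 := h1.clm_apply h3
  unfold d2
  rw [e.fderiv_eq, h4.fderiv]
  simp [add_comm]

end LEVC

theorem stLEVC (hSMO : St_SMO) : St_LEVC := by
  intro n g τ z v hτ hg
  have h2 := LEVC.smooth hSMO hτ
  unfold levE
  rw [LEVC.d2_comp_hol h2 hg, LEVC.d2_comp_hol h2 hg, d2_eq hg, d2_eq hg]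
  have e1 : fderiv ℂ τ z (I • v) = I • fderiv ℂ τ z v := map_smul _ _ _
  have e2 : fderiv ℂ (fderiv ℂ τ) z (I • v) (I • v) = -fderiv ℂ (fderiv ℂ τ) z v v := by
    rw [map_smul, map_smul, _root_.smul_apply, smul_smul, I_mul_I, neg_one_smul]
  rw [e1, e2, map_neg]
  ring

end Pool.Agent.Lib.SV
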