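import Pool.Agent.Lib.SV.Blue1

/-! Local bounds for first and second derivatives. -/

open scoped Classical Topology ENNReal
open Set MeasureTheory Complex Filter Metric

noncomputable section

namespace Pool.Agent.Lib.SV

namespace LOCB

variable {n : ℕ}

def Q (B : E n →L[ℝ] E n →L[ℝ] ℝ) (v : E n) : ℝ := B v v + B (I • v) (I • v)

theorem norm_I_smul (v : E n) : ‖I • v‖ = ‖v‖ := by rw [norm_smul, norm_I, one_mul]

theorem Q_le (B : E n →L[ℝ] E n →L[ℝ] ℝ) (v : E n) : |Q B v| ≤ 2 * ‖B‖ * ‖v‖ ^ 2 := by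
  have h1 := B.le_opNorm₂ v v
  have h2 := B.le_opNorm₂ (I • v) (I • v)
  rw [norm_I_smul, Real.norm_eq_abs] at h2
  rw [Real.norm_eq_abs] at h1
  have := abs_add_le (B v v) (B (I • v) (I • v))
  unfold Q
  nlinarith

theorem Q_sub (B B' : E n →L[ℝ] E n →L[ℝ] ℝ) (v : E n) : Q (B - B') v = Q B v - Q B' v := by
  simp only [Q, ContinuousLinearMap.sub_apply]; ring

theorem Q_smul (B : E n →L[ℝ] E n →L[ℝ] ℝ) (r : ℝ) (v : E n) : Q B (r • v) = r ^ 2 * Q B v := by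
  have e : I • r • v = r • I • v := smul_comm _ _ _
  simp only [Q, e, map_smul, ContinuousLinearMap.smul_apply, smul_eq_mul]; ring

theorem Q_pos (B : E n →L[ℝ] E n →L[ℝ] ℝ) (h : ∀ v ≠ 0, 0 < Q B v) :
    ∃ c > 0, ∀ v, c * ‖v‖ ^ 2 ≤ Q B v := by
  have hc : Continuous (Q B) := by unfold Q; fun_prop
  obtain ⟨c, hc0, hc1⟩ : ∃ c > 0, ∀ v ∈ sphere (0 : E n) 1, c ≤ Q B v := by
    rcases (sphere (0 : E n) 1).eq_empty_or_nonempty with he | hne
    · exact ⟨1, one_pos, by simp [he]⟩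
    · obtain ⟨v, hv, hmin⟩ := (isCompact_sphere (0 : E n) 1).exists_isMinOn hne hc.continuousOn
      refine ⟨Q B v, h v ?_, fun w hw => hmin hw⟩
      rintro rfl
      simp at hv
  refine ⟨c, hc0, fun v => ?_⟩
  rcases eq_or_ne v 0 with rfl | hv
  · simp [Q]
  · have h0 : 0 < ‖v‖ := norm_pos_iff.2 hv
    have h1 := hc1 (‖v‖⁻¹ • v) (by
      rw [mem_sphere_zero_iff_norm, norm_smul, norm_inv, norm_norm, inv_mul_cancel₀ h0.ne'])
    rw [Q_smul, inv_pow, ← div_eq_inv_mul, le_div_iff₀ (by positivity)] at h1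
    exact h1

theorem nsq_le (v : E n) : nsq v ≤ n * ‖v‖ ^ 2 := by
  have : ∀ j ∈ Finset.univ, normSq (v j) ≤ ‖v‖ ^ 2 := fun j _ => by
    rw [normSq_eq_norm_sq]
    exact pow_le_pow_left₀ (norm_nonneg _) (norm_le_pi_norm v j) 2
  simpa [nsq] using Finset.sum_le_card_nsmul _ _ _ this

theorem le_nsq (v : E n) : ‖v‖ ^ 2 ≤ nsq v := by
  have h : ‖v‖ ≤ √(nsq v) := by
    refine (pi_norm_le_iff_of_nonneg (Real.sqrt_nonneg _)).2 fun j => Real.le_sqrt_of_sq_le ?_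
    rw [← normSq_eq_norm_sq]
    exact Finset.single_le_sum (f := fun j => normSq (v j)) (fun _ _ => normSq_nonneg _)
      (Finset.mem_univ j)
  have := pow_le_pow_left₀ (norm_nonneg _) h 2
  rwa [Real.sq_sqrt (nsq_nonneg v)] at this

theorem levE_eq {g : E n → ℝ} {z : E n} (h : ContDiffAt ℝ 2 g z) (v : E n) :
    levE g z v = Q (fderiv ℝ (fderiv ℝ g) z) v := by
  rw [levE, d2_eq h, d2_eq h, Q]

theorem cont2 {g : E n → ℝ} {z : E n} (h : ContDiffAt ℝ 2 g z) :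
    ContinuousAt (fderiv ℝ (fderiv ℝ g)) z :=
  ((h.fderiv_right (m := 1) (by norm_num)).fderiv_right (m := 0) (by norm_num)).continuousAt

theorem ev_lt {F : Type} [NormedAddCommGroup F] {f : E n → F} {z : E n} (h : ContinuousAt f z) :
    ∀ᶠ w in 𝓝 z, ‖f w‖ < ‖f z‖ + 1 := h.norm.eventually (gt_mem_nhds (lt_add_one _))

theorem ev_sub {F : Type} [NormedAddCommGroup F] {f : E n → F} {z : E n} (h : ContinuousAt f z)
    {c : ℝ} (hc : 0 < c) : ∀ᶠ w in 𝓝 z, ‖f w - f z‖ < c :=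
  (h.sub (continuousAt_const (y := f z))).norm.eventually (gt_mem_nhds (by simpa using hc))

end LOCB

open LOCB in
theorem stLOCB : St_LOCB := by
  intro n g h z hg hh hpos
  obtain ⟨c, hc, hQ⟩ := Q_pos (fderiv ℝ (fderiv ℝ h) z) fun v hv => by
    rw [← levE_eq hh]; exact hpos v hv
  set A := ‖fderiv ℝ g z‖ + 1 with hA
  set B := ‖fderiv ℝ (fderiv ℝ g) z‖ + 1 with hB
  set C := ‖fderiv ℝ (fderiv ℝ h) z‖ + 1 with hC
  have e1 : ∀ᶠ w in 𝓝 z, ‖fderiv ℝ g w‖ < A :=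
    (hg.fderiv_right (m := 1) (by norm_num)).continuousAt.norm.eventually
      (gt_mem_nhds (lt_add_one _))
  have e2 : ∀ᶠ w in 𝓝 z, ‖fderiv ℝ (fderiv ℝ g) w‖ < B :=
    ev_lt (F := E n →L[ℝ] E n →L[ℝ] ℝ) (cont2 hg)
  have e3 : ∀ᶠ w in 𝓝 z, ‖fderiv ℝ (fderiv ℝ h) w‖ < C :=
    ev_lt (F := E n →L[ℝ] E n →L[ℝ] ℝ) (cont2 hh)
  have e4 : ∀ᶠ w in 𝓝 z, ‖fderiv ℝ (fderiv ℝ h) w - fderiv ℝ (fderiv ℝ h) z‖ < c / 4 :=
    ev_sub (F := E n →L[ℝ] E n →L[ℝ] ℝ) (cont2 hh) (by positivity)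
  have hA0 : 0 ≤ A := by positivity
  have hB0 : 0 ≤ B := by positivity
  have hC0 : 0 ≤ C := by positivity
  set K := 2 * A ^ 2 + 2 * B + n with hK
  refine ⟨K * (2 / c) + 2 * C, ?_⟩
  filter_upwards [e1, e2, e3, e4, hg.eventually (by simp), hh.eventually (by simp)] with
    w a1 a2 a3 a4 a5 a6 v
  rw [levE_eq a5, levE_eq a6]
  have hv : 0 ≤ ‖v‖ ^ 2 := sq_nonneg _
  have b1 : c / 2 * ‖v‖ ^ 2 ≤ Q (fderiv ℝ (fderiv ℝ h) w) v := by
    have c1 := Q_le (fderiv ℝ (fderiv ℝ h) w - fderiv ℝ (fderiv ℝ h) z) v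
    rw [Q_sub] at c1
    have c2 := (abs_le.1 c1).1
    have c3 := hQ v
    have c4 := mul_le_mul_of_nonneg_right (le_of_lt a4) hv
    nlinarith
  set q := Q (fderiv ℝ (fderiv ℝ h) w) v with hq
  have hq0 : 0 ≤ q := le_trans (by positivity) b1
  have b2 : ‖v‖ ^ 2 ≤ 2 / c * q := by
    rw [div_mul_eq_mul_div, le_div_iff₀ hc]; linarith
  have key : ∀ x k : ℝ, 0 ≤ k → k ≤ K → x ≤ k * ‖v‖ ^ 2 → x ≤ (K * (2 / c) + 2 * C) * q := by
    intro x k h0 h1 h2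
    have c1 := mul_le_mul h1 b2 hv (h0.trans h1)
    nlinarith [mul_nonneg hC0 hq0]
  have hn : (0 : ℝ) ≤ n := Nat.cast_nonneg n
  refine ⟨key _ (2 * A ^ 2) (by positivity) (by rw [hK]; linarith) ?_,
    key _ (2 * B) (by positivity) (by rw [hK]; nlinarith) ?_,
    key _ n hn (by rw [hK]; nlinarith) (nsq_le v), ?_⟩
  · have c1 : ∀ u : E n, ‖u‖ = ‖v‖ → fderiv ℝ g w u ^ 2 ≤ A ^ 2 * ‖v‖ ^ 2 := fun u hu => by
      rw [← sq_abs, ← mul_pow]
      refine pow_le_pow_left₀ (abs_nonneg _) (((fderiv ℝ g w).le_opNorm u).trans ?_) 2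
      rw [hu]
      exact mul_le_mul_of_nonneg_right a1.le (norm_nonneg _)
    linarith [c1 v rfl, c1 _ (norm_I_smul v)]
  · refine (Q_le _ v).trans ?_
    nlinarith [mul_le_mul_of_nonneg_right a2.le hv]
  · have c1 := (le_abs_self _).trans (Q_le (fderiv ℝ (fderiv ℝ h) w) v)
    have c2 := mul_le_mul a3.le (le_nsq v) hv hC0
    have c3 : 0 ≤ K * (2 / c) * nsq v := mul_nonneg (by positivity) (nsq_nonneg v)
    nlinarith

end Pool.Agent.Lib.SV
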