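import Pool.Agent.Lib.SV.Blue1

/-! Second derivative of the logarithm of a sum of exponentials. -/

open scoped Classical Topology
open Set Filter

noncomputable section

namespace Pool.Agent.Lib.SV

namespace LSE

variable {n : ℕ} {z : E n}

theorem d2_sum {ι : Type} (s : Finset ι) (g : ι → E n → ℝ) (h : ∀ i ∈ s, ContDiffAt ℝ 2 (g i) z)
    (v : E n) : d2 (fun x => ∑ i ∈ s, g i x) z v = ∑ i ∈ s, d2 (g i) z v := by
  induction s using Finset.induction_on with
  | empty => simpa using d2_const (z := z) 0 v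
  | insert a s ha ih =>
    have hs : ∀ i ∈ s, ContDiffAt ℝ 2 (g i) z := fun i hi => h i (Finset.mem_insert_of_mem hi)
    simp only [Finset.sum_insert ha]
    rw [d2_add (h a (Finset.mem_insert_self a s)) (ContDiffAt.sum hs), ih hs]

theorem d2_exp {g : E n → ℝ} (h : ContDiffAt ℝ 2 g z) (v : E n) :
    d2 (fun x => Real.exp (g x)) z v = Real.exp (g z) * (d2 g z v + fderiv ℝ g z v ^ 2) := by
  rw [d2_comp h (u := Real.exp) Real.contDiff_exp.contDiffAt, Real.deriv_exp, Real.deriv_exp]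
  ring

theorem d2_log {g : E n → ℝ} (h : ContDiffAt ℝ 2 g z) (h0 : g z ≠ 0) (v : E n) :
    d2 (fun x => Real.log (g x)) z v = d2 g z v / g z - (fderiv ℝ g z v / g z) ^ 2 := by
  rw [d2_comp h (u := Real.log) (Real.contDiffAt_log.2 h0), Real.deriv_log', deriv_inv]
  field_simp
  ring

end LSE

theorem stLSE : St_LSE := by
  intro n ι s w z hs hw
  have he : ∀ i ∈ s, ContDiffAt ℝ 2 (fun x => Real.exp (w i x)) z := fun i hi => (hw i hi).exp
  have hS : ContDiffAt ℝ 2 (fun x => ∑ i ∈ s, Real.exp (w i x)) z := ContDiffAt.sum he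
  have h0 : 0 < ∑ i ∈ s, Real.exp (w i z) := Finset.sum_pos (fun i _ => Real.exp_pos _) hs
  refine ⟨hS.log h0.ne', fun v => ?_⟩
  have d1 : HasFDerivAt (fun x => ∑ i ∈ s, Real.exp (w i x))
      (∑ i ∈ s, Real.exp (w i z) • fderiv ℝ (w i) z) z :=
    HasFDerivAt.fun_sum fun i hi => ((hw i hi).differentiableAt (by simp)).hasFDerivAt.exp
  have e1 : fderiv ℝ (fun x => ∑ i ∈ s, Real.exp (w i x)) z v =
      ∑ i ∈ s, Real.exp (w i z) * fderiv ℝ (w i) z v := by
    rw [d1.fderiv, ContinuousLinearMap.sum_apply]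
    rfl
  have e2 : fderiv ℝ (fun x => Real.log (∑ i ∈ s, Real.exp (w i x))) z v =
      (∑ i ∈ s, Real.exp (w i z) * fderiv ℝ (w i) z v) / ∑ i ∈ s, Real.exp (w i z) := by
    rw [(d1.log h0.ne').fderiv, ← e1, d1.fderiv, ContinuousLinearMap.smul_apply, smul_eq_mul]
    ring
  rw [LSE.d2_log hS h0.ne', LSE.d2_sum s _ he, e1, e2,
    Finset.sum_congr rfl fun i hi => LSE.d2_exp (hw i hi) v]
  set A := ∑ i ∈ s, Real.exp (w i z) * fderiv ℝ (w i) z v with hA
  set S := ∑ i ∈ s, Real.exp (w i z) with hS'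
  have e3 : ∑ i ∈ s, Real.exp (w i z) * (d2 (w i) z v + (fderiv ℝ (w i) z v - A / S) ^ 2) =
      ∑ i ∈ s, Real.exp (w i z) * (d2 (w i) z v + fderiv ℝ (w i) z v ^ 2) -
        2 * (A / S) * A + (A / S) ^ 2 * S := by
    conv_rhs => rw [hA, hS', Finset.mul_sum, Finset.mul_sum, ← hA, ← hS']
    rw [← Finset.sum_sub_distrib, ← Finset.sum_add_distrib]
    exact Finset.sum_congr rfl fun i _ => by ring
  rw [e3]
  field_simp
  ring

end Pool.Agent.Lib.SV
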