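import Pool.Agent.Lib.SV.Blue2

/-! Square integrable sections of a uniform degree that do not vanish at a given point. -/

open scoped Classical Topology ENNReal
open Set MeasureTheory Complex Filter Metric

set_option linter.unusedVariables false

noncomputable section

namespace Pool.Agent.Lib.SV

namespace PEAK

variable {n : ℕ}

/-- The property at degree `k`. -/
def Q (C : Ctx n) (k : ℕ) (y : C.Y) : Prop :=
  ∃ s ∈ C.Sec 1 k, C.Lp 1 k 2 s ∧ C.nr 1 k s y ≠ 0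

theorem step (C : Ctx n) {k : ℕ} {y : C.Y} (h : Q C k y) : Q C (k + 1) y := by
  obtain ⟨s, hs, hL, hy⟩ := h
  have hξ : C.P.ξ (C.ix y) ∈ C.base.Sec 0 1 := C.ξ_mem (C.ix y)
  have hp : C.pb (C.P.ξ (C.ix y)) ∈ C.Sec 0 1 := Ctx.pb_mem hξ
  obtain ⟨M, hM⟩ : ∃ M : ℝ, ∀ x, C.nr 0 1 (C.pb (C.P.ξ (C.ix y))) x ≤ M := by
    obtain ⟨M, hM⟩ := (isCompact_range (Ctx.continuous_nr (C := C.base) hξ)).bddAbove
    exact ⟨M, fun x => hM ⟨C.π x, rfl⟩⟩
  have hmul : ∀ x, C.nr 1 (k + 1) (s * C.pb (C.P.ξ (C.ix y))) x =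
      C.nr 1 k s x * C.nr 0 1 (C.pb (C.P.ξ (C.ix y))) x := fun x =>
    Ctx.nr_mul (a := 1) (b := k) (a' := 0) (b' := 1) s _ x
  refine ⟨s * C.pb (C.P.ξ (C.ix y)), Ctx.mul_mem hs hp, ?_, ?_⟩
  · unfold Ctx.Lp at hL ⊢
    refine ne_top_of_le_ne_top (ENNReal.mul_ne_top (ENNReal.ofReal_ne_top (r := M)) hL) ?_
    rw [← lintegral_const_mul' _ _ ENNReal.ofReal_ne_top]
    refine lintegral_mono fun x => ?_
    have hM0 : 0 ≤ M := (Ctx.nr_nonneg _ x).trans (hM x)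
    simp only [show (2 : ℝ) / 2 = 1 by norm_num, Real.rpow_one]
    rw [← ENNReal.ofReal_mul hM0, hmul x, mul_comm M]
    exact ENNReal.ofReal_le_ofReal (mul_le_mul_of_nonneg_left (hM x) (Ctx.nr_nonneg _ x))
  · rw [hmul y]
    refine mul_ne_zero hy ?_
    rw [Ne, Ctx.nr_eq_zero hp (Ctx.mem_ix y)]
    show ¬ C.P.ξ (C.ix y) (C.ix y) (C.π y) = 0
    rw [C.good.ξ1 _ _ (Ctx.mem_ix y)]
    exact one_ne_zero

theorem mono (C : Ctx n) {k k' : ℕ} {y : C.Y} (h : Q C k y) (hk : k ≤ k') : Q C k' y := by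
  induction hk with
  | refl => exact h
  | step _ ih => exact step C ih

theorem transl (hVOL : St_VOL) (C : Ctx n) {k : ℕ} {y : C.Y} (γ : C.Γ) (h : Q C k (γ • y)) :
    Q C k y := by
  obtain ⟨s, hs, hL, hy⟩ := h
  refine ⟨C.tl γ s, Ctx.tl_mem hs γ, ?_, by rwa [Ctx.nr_tl hs]⟩
  unfold Ctx.Lp at hL ⊢
  have hm : Measurable fun x => ENNReal.ofReal (C.nr 1 k s x ^ ((2 : ℝ) / 2)) := by
    simp only [show (2 : ℝ) / 2 = 1 by norm_num, Real.rpow_one]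
    exact (Ctx.continuous_nr hs).measurable.ennreal_ofReal
  have := ((hVOL n C).2.2.2 γ).lintegral_comp hm
  simp only [Ctx.nr_tl hs]
  rwa [this]

end PEAK

theorem stPEAK (hPEAK0 : St_PEAK0) (hVOL : St_VOL) : St_PEAK := by
  intro n C ρ hn hρ
  obtain ⟨F, hF, hfd⟩ := C.fd
  choose k s hs hL hy using hPEAK0 n C ρ hn hρ
  obtain ⟨t, ht⟩ := hF.elim_finite_subcover (fun y => {x | C.nr 1 (k y) (s y) x ≠ 0})
    (fun y => isOpen_ne_fun (Ctx.continuous_nr (hs y)) continuous_const)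
    (fun y _ => mem_iUnion.2 ⟨y, hy y⟩)
  refine ⟨t.sup k, fun y => ?_⟩
  obtain ⟨γ, hγ⟩ := hfd y
  obtain ⟨y', hy', h⟩ := mem_iUnion₂.1 (ht hγ)
  exact PEAK.transl hVOL C γ (PEAK.mono C ⟨s y', hs y', hL y', h⟩ (Finset.le_sup hy'))

end Pool.Agent.Lib.SV
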