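import Pool.Agent.Lib.SV.Blue2

/-! A square integrable section that does not vanish at a given point. -/

open scoped Classical Topology ENNReal
open Set MeasureTheory Complex Filter Metric

noncomputable section

namespace Pool.Agent.Lib.SV

namespace PEAK0

theorem contDiff_nsq {n : ℕ} : ContDiff ℝ 2 (fun v : E n => nsq v) := by
  have : (fun v : E n => nsq v) =
      fun v => ∑ j, (reCLM (v j) * reCLM (v j) + imCLM (v j) * imCLM (v j)) := by
    funext v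
    simp [nsq, normSq_apply]
  rw [this]
  refine ContDiff.sum fun j _ => ?_
  have h : ContDiff ℝ 2 (fun v : E n => v j) := contDiff_apply ℝ ℂ j
  exact ((reCLM.contDiff.comp h).mul (reCLM.contDiff.comp h)).add
    ((imCLM.contDiff.comp h).mul (imCLM.contDiff.comp h))

theorem norm_le {n : ℕ} {v : E n} {r : ℝ} (hr : 0 ≤ r) (h : nsq v ≤ r ^ 2) : ‖v‖ ≤ r := by
  refine (pi_norm_le_iff_of_nonneg hr).2 fun j => ?_
  have h1 : normSq (v j) ≤ nsq v :=
    Finset.single_le_sum (f := fun j => normSq (v j)) (fun _ _ => normSq_nonneg _)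
      (Finset.mem_univ j)
  rw [normSq_eq_norm_sq] at h1
  exact (pow_le_pow_iff_left₀ (norm_nonneg _) hr two_ne_zero).1 (h1.trans h)

theorem locb (hL : St_LOCB) {n : ℕ} {Y : Type} [TopologicalSpace Y] {p : Y → E n} {y : Y}
    {f g : Y → ℝ} (h : LocH p y) (hf : Sm p 2 f y) (hg : Sm p 2 g y)
    (pos : ∀ v ≠ 0, 0 < lev p g y v) :
    ∃ M, ∀ᶠ x in 𝓝 y, ∀ v, lev p f x v ≤ M * lev p g x v := by
  obtain ⟨M, hM⟩ := hL n _ _ _ hf hg pos
  refine ⟨M, ?_⟩
  filter_upwards [h.continuousAt.tendsto.eventually hM, h.lift_near] with x a b v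
  unfold lev
  rw [levE_congr (b.fun_comp f), levE_congr (b.fun_comp g)]
  exact (le_abs_self _).trans (a v).2.1

end PEAK0

open PEAK0 in
theorem stPEAK0 (hINT : St_INT) (hEXH : St_EXH) (hEXT : St_EXT) (hVOL : St_VOL) (hLOCB : St_LOCB)
    (hRM : St_RM) : St_PEAK0 := by
  intro n C ρ hn hρ y
  obtain ⟨L, hL, H⟩ := hINT n hn
  have hy := Ctx.mem_ix y
  set i := C.ix y with hi
  have hσ := C.σ_mem i
  have hnz := C.nz_σ i
  obtain ⟨s, hs⟩ := hEXH n C ρ i 1 (n + 2) _ hρ hσ hnz.subset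
  rw [hnz] at hs
  let D : Dom n := C.dom i (C.W i) (C.rd i).opn Subset.rfl
  have smq : ∀ x ∈ C.W i, Sm (C.q i) 2 (fun z => nsq (C.q i z)) x := fun x hx =>
    Sm.comp (Ctx.locH hx) contDiff_nsq.contDiffAt (sm_p (Ctx.locH hx))
  obtain ⟨M, hM⟩ := locb hLOCB (Ctx.locH hy) (smq y hy) (Ctx.sm_φ hy) fun v hv => Ctx.om_pos hy hv
  obtain ⟨e, R, hR, he, hye, hsub, htg⟩ := (C.rd i).exists_ball hy hM
  obtain ⟨k, hk⟩ := exists_nat_ge (L / (R / 2) ^ 2 * M)
  have psh : ∀ x ∈ C.W i, Psh (C.q i) (fun z => (k : ℝ) * C.φ i z) x := fun x hx =>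
    Psh.const_mul ⟨Ctx.sm_φ hx, fun v => Ctx.om_nonneg hx v⟩ (Nat.cast_nonneg k)
  obtain ⟨F, hF, hFy, hI⟩ := H D s (fun z => (k : ℝ) * C.φ i z) (C.φ i) Unit (fun _ => y)
    (fun _ => ContinuousLinearEquiv.refl ℂ _) (fun _ => R / 2)
    (fun _ => e.source ∩ {x | nsq (C.q i x - C.q i y) ≤ (R / 2) ^ 2}) hs
    ⟨fun _ => half_pos hR, fun _ => ⟨e, he, hye, fun z hz => by
      rw [htg, mem_ball, dist_eq_norm]
      exact (norm_le (half_pos hR).le hz).trans_lt (half_lt_self hR), rfl⟩,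
      fun a b hab => (hab rfl).elim⟩
    (fun x hx => ⟨Ctx.sm_φ hx, fun v hv => Ctx.om_pos hx hv, LU.of_psh <| by
      filter_upwards [(C.rd i).opn.mem_nhds hx] with z hz using psh z hz⟩)
    (fun _ x hx => LU.of_psh <| by
      filter_upwards [e.open_source.mem_nhds hx.1] with z hz
      have hzW := he.sub hz
      have h1 : Sm (C.q i) 2 (fun z => L / (R / 2) ^ 2 * nsq (C.q i z)) z :=
        (sm_const _).mul (smq z hzW)
      refine ⟨(psh z hzW).1.sub h1, fun v => ?_⟩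
      show 0 ≤ lev (C.q i) (fun z => (k : ℝ) * C.φ i z - L / (R / 2) ^ 2 * nsq (C.q i z)) z v
      rw [lev_sub (psh z hzW).1 h1, lev_const_mul (Ctx.sm_φ hzW), lev_const_mul (smq z hzW)]
      have h2 : lev (C.q i) (fun z => nsq (C.q i z)) z v ≤ M * lev (C.q i) (C.φ i) z v := hsub hz v
      have h3 : 0 ≤ lev (C.q i) (C.φ i) z v := Ctx.om_nonneg hzW v
      have h4 : 0 ≤ L / (R / 2) ^ 2 := by positivity
      nlinarith [mul_le_mul_of_nonneg_left h2 h4, mul_le_mul_of_nonneg_right hk h3])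
    (fun _ => 1)
  have hne : (C.P.U i).Nonempty := ⟨_, hy⟩
  have key : ∀ x, ENNReal.ofReal (Real.exp (C.κ i x)) *
      ENNReal.ofReal (normSq (F x) * Real.exp (-C.wt 1 (k + 1) i x)) =
      ENNReal.ofReal (‖F x‖ ^ 2 * Real.exp (-((k : ℝ) * C.φ i x + C.φ i x))) := fun x => by
    rw [← ENNReal.ofReal_mul (Real.exp_pos _).le, normSq_eq_norm_sq, mul_left_comm, ← Real.exp_add]
    congr 3
    simp only [Ctx.wt, Nat.cast_one, Nat.cast_add]
    ring
  have fin : ∫⁻ x, ENNReal.ofReal (normSq (F x) * Real.exp (-C.wt 1 (k + 1) i x)) ∂C.V ≠ ∞ := by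
    rw [(hVOL n C).2.1 i hne]
    simp only [key]
    exact hI
  have hσ0 : C.P.ξ i * C.P.jac i ≠ 0 := fun h => by
    have : C.π y ∈ C.nz 1 (n + 2) (C.P.ξ i * C.P.jac i) := by rw [hnz]; exact hy
    rw [h] at this
    exact this (by simp [Ctx.nr])
  obtain ⟨g, hg, hgF⟩ := hEXT n C i 1 (k + 1) 1 (n + 2) _ F hσ hσ0 hnz.subset
    (fun x hx => hF x (by rw [hnz] at hx; exact hx))
    (fun x => ⟨univ, univ_mem, ne_top_of_le_ne_top fin (setLIntegral_le_lintegral _ _)⟩)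
  rw [hnz] at hgF
  refine ⟨k + 1, g, hg, ?_, fun h => ?_⟩
  · unfold Ctx.Lp
    rw [(hVOL n C).2.1 i hne] at fin ⊢
    refine fun h => fin ?_
    rw [← h]
    refine lintegral_congr_ae ?_
    have : ∀ᵐ x ∂C.leb i, x ∈ C.W i := (hRM n D).1.off
    filter_upwards [this] with x hx
    rw [Ctx.nr_eq hg hx, hgF x hx, div_self two_ne_zero, Real.rpow_one]
  · have := (Ctx.nr_eq_zero hg hy).1 h
    rw [hgF y hy, hFy ()] at this
    exact one_ne_zero this

end Pool.Agent.Lib.SV
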