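import Pool.Agent.Lib.SV.Blue1

/-! Logarithmic poles. -/

open scoped Topology
open Set Complex Filter

noncomputable section

namespace Pool.Agent.Lib.SV

namespace POLE

variable {n : ℕ}

/-- Real part of a coordinate. -/
def rc (j : Fin n) : E n →L[ℝ] ℝ := reCLM.comp (ContinuousLinearMap.proj (R := ℝ) j)

/-- Imaginary part of a coordinate. -/
def ic (j : Fin n) : E n →L[ℝ] ℝ := imCLM.comp (ContinuousLinearMap.proj (R := ℝ) j)

theorem nsq_eq : (nsq : E n → ℝ) = fun z => ∑ j, (rc j z * rc j z + ic j z * ic j z) := by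
  funext z
  simp [nsq, rc, ic, normSq_apply]

theorem nsq_smooth : ContDiff ℝ 2 (nsq : E n → ℝ) := by
  rw [nsq_eq]
  exact ContDiff.sum fun j _ => ((rc j).contDiff.mul (rc j).contDiff).add
    ((ic j).contDiff.mul (ic j).contDiff)

theorem fderiv_nsq (z v : E n) : fderiv ℝ (nsq : E n → ℝ) z v =
    ∑ j, (2 * rc j v * rc j z + 2 * ic j v * ic j z) := by
  have := HasFDerivAt.fun_sum (u := Finset.univ) fun (j : Fin n) _ =>
    (((rc j).hasFDerivAt (x := z)).fun_mul ((rc j).hasFDerivAt (x := z))).fun_add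
      (((ic j).hasFDerivAt (x := z)).fun_mul ((ic j).hasFDerivAt (x := z)))
  rw [nsq_eq, this.fderiv]
  simp only [_root_.sum_apply, add_apply, smul_apply, smul_eq_mul]
  exact Finset.sum_congr rfl fun j _ => by ring

theorem d2_nsq (z v : E n) : d2 (nsq : E n → ℝ) z v = 2 * nsq v := by
  have := HasFDerivAt.fun_sum (u := Finset.univ) fun (j : Fin n) _ =>
    (((rc j).hasFDerivAt (x := z)).const_mul (2 * rc j v)).fun_add
      (((ic j).hasFDerivAt (x := z)).const_mul (2 * ic j v))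
  unfold d2
  simp only [fderiv_nsq]
  rw [this.fderiv, nsq_eq, Finset.mul_sum]
  simp only [_root_.sum_apply, add_apply, smul_apply, smul_eq_mul]
  exact Finset.sum_congr rfl fun j _ => by ring

theorem nsq_I (v : E n) : nsq (I • v) = nsq v := by simp [nsq]

theorem grad_le (z v : E n) : fderiv ℝ (nsq : E n → ℝ) z v ^ 2 +
    fderiv ℝ (nsq : E n → ℝ) z (I • v) ^ 2 ≤ 4 * (nsq z * nsq v) := by
  set S : ℂ := ∑ j, z j * (starRingEnd ℂ) (v j) with hS
  have h1 : fderiv ℝ (nsq : E n → ℝ) z v = 2 * S.re := by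
    rw [fderiv_nsq, hS, re_sum, Finset.mul_sum]
    exact Finset.sum_congr rfl fun j _ => by simp [rc, ic]; ring
  have h2 : fderiv ℝ (nsq : E n → ℝ) z (I • v) = 2 * S.im := by
    rw [fderiv_nsq, hS, im_sum, Finset.mul_sum]
    exact Finset.sum_congr rfl fun j _ => by simp [rc, ic]; ring
  have h3 : ‖S‖ ≤ ∑ j, ‖z j‖ * ‖v j‖ :=
    (norm_sum_le _ _).trans (le_of_eq (Finset.sum_congr rfl fun j _ => by simp))
  have h4 := Finset.sum_mul_sq_le_sq_mul_sq Finset.univ (fun j => ‖z j‖) (fun j => ‖v j‖)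
  have h5 : ‖S‖ ^ 2 ≤ nsq z * nsq v := by
    simp only [nsq, normSq_eq_norm_sq]
    exact (pow_le_pow_left₀ (norm_nonneg _) h3 2).trans h4
  rw [← normSq_eq_norm_sq, normSq_apply] at h5
  rw [h1, h2]
  nlinarith

/-- The cut-off function. -/
def c (t : ℝ) : ℝ := Real.smoothTransition (2 - 2 * t)

theorem c_smooth (k : ℕ) : ContDiff ℝ k c :=
  Real.smoothTransition.contDiff.comp (contDiff_const.sub (contDiff_const.mul contDiff_id))

theorem c_one {t : ℝ} (h : t ≤ 1 / 2) : c t = 1 :=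
  Real.smoothTransition.one_of_one_le (by linarith)

theorem c_zero {t : ℝ} (h : 1 ≤ t) : c t = 0 :=
  Real.smoothTransition.zero_of_nonpos (by linarith)

theorem c_nonneg (t : ℝ) : 0 ≤ c t := Real.smoothTransition.nonneg _

theorem c_le (t : ℝ) : c t ≤ 1 := Real.smoothTransition.le_one _

theorem c_flat {t a : ℝ} (h : c =ᶠ[𝓝 t] fun _ => a) : deriv c t = 0 ∧ deriv (deriv c) t = 0 := by
  have h1 : deriv c =ᶠ[𝓝 t] fun _ => 0 := by simpa using h.deriv
  exact ⟨h1.self_of_nhds, by simpa using h1.deriv_eq⟩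

theorem c1_smooth : ContDiff ℝ 1 (deriv c) := by
  have := (c_smooth 2).iterate_deriv' 1 1
  simpa using this

/-- The radial profile. -/
def u (δ t : ℝ) : ℝ := c t * Real.log (t + δ)

theorem u_smooth {δ t : ℝ} (h : 0 < t + δ) : ContDiffAt ℝ 2 (u δ) t :=
  (c_smooth 2).contDiffAt.mul ((contDiffAt_id.add contDiffAt_const).log h.ne')

theorem u_deriv {δ t : ℝ} (h : 0 < t + δ) :
    deriv (u δ) t = deriv c t * Real.log (t + δ) + c t * (t + δ)⁻¹ := by
  have h1 := ((c_smooth 1).differentiable (by simp) t).hasDerivAt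
  have h2 := ((hasDerivAt_id t).add_const δ).log h.ne'
  have := (h1.fun_mul h2).deriv
  rw [show u δ = fun s => c s * Real.log (s + δ) from rfl]
  simpa using this

theorem u_deriv2 {δ t : ℝ} (h : 0 < t + δ) : deriv (deriv (u δ)) t =
    deriv (deriv c) t * Real.log (t + δ) + 2 * deriv c t * (t + δ)⁻¹ - c t * (t + δ)⁻¹ ^ 2 := by
  have e : deriv (u δ) =ᶠ[𝓝 t] fun s => deriv c s * Real.log (s + δ) + c s * (s + δ)⁻¹ := by
    have : ∀ᶠ s in 𝓝 t, 0 < s + δ :=
      (continuous_id.add continuous_const).continuousAt.eventually (lt_mem_nhds h)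
    filter_upwards [this] with s hs using u_deriv hs
  have h1 := ((c_smooth 1).differentiable (by simp) t).hasDerivAt
  have h1' := (c1_smooth.differentiable (by simp) t).hasDerivAt
  have h2 := ((hasDerivAt_id t).add_const δ).log h.ne'
  have h3 := ((hasDerivAt_id t).add_const δ).fun_inv h.ne'
  have := ((h1'.fun_mul h2).fun_add (h1.fun_mul h3)).deriv
  simp only [id] at this
  rw [e.deriv_eq, this]
  field_simp
  ring

theorem exists_bound : ∃ M, 0 ≤ M ∧ ∀ t ∈ Icc (1 / 2 : ℝ) 1,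
    |deriv c t| ≤ M ∧ |deriv (deriv c) t| ≤ M := by
  obtain ⟨A, hA⟩ := (isCompact_Icc (a := (1 / 2 : ℝ)) (b := 1)).exists_bound_of_continuousOn
    c1_smooth.continuous.continuousOn
  obtain ⟨B, hB⟩ := (isCompact_Icc (a := (1 / 2 : ℝ)) (b := 1)).exists_bound_of_continuousOn
    (c1_smooth.continuous_deriv le_rfl).continuousOn
  exact ⟨max 0 (max A B), le_max_left _ _, fun t ht =>
    ⟨(hA t ht).trans (le_max_of_le_right (le_max_left _ _)),
      (hB t ht).trans (le_max_of_le_right (le_max_right _ _))⟩⟩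

theorem log_abs {s : ℝ} (h1 : 1 / 4 ≤ s) (h2 : s ≤ 2) : |Real.log s| ≤ 3 := by
  have h0 : 0 < s := by linarith
  have a := Real.log_le_sub_one_of_pos h0
  have b := Real.one_sub_inv_le_log_of_pos h0
  have : s⁻¹ ≤ 4 := by rw [inv_le_comm₀ h0 (by norm_num)]; linarith
  exact abs_le.2 ⟨by linarith, by linarith⟩

/-- The lower bound for the Levi form of the profile. -/
theorem lev_bound : ∃ K, 0 ≤ K ∧ ∀ δ t N G : ℝ, 0 < δ → δ ≤ 1 → 0 ≤ t → 0 ≤ N → 0 ≤ G →
    G ≤ 4 * (t * N) → -(K * N) ≤ deriv (u δ) t * (4 * N) + deriv (deriv (u δ)) t * G := by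
  obtain ⟨M, hM, H⟩ := exists_bound
  refine ⟨40 * M + 16, by positivity, fun δ t N G hδ hδ1 ht hN hG hGN => ?_⟩
  have h : 0 < t + δ := by linarith
  have hK : 0 ≤ (40 * M + 16) * N := by positivity
  rw [u_deriv h, u_deriv2 h]
  have hi : 0 < (t + δ)⁻¹ := inv_pos.2 h
  rcases lt_or_ge t (1 / 2) with h1 | h1
  · obtain ⟨a, b⟩ := c_flat (t := t) (a := 1)
      (by filter_upwards [gt_mem_nhds h1] with s hs using c_one hs.le)
    rw [a, b, c_one h1.le]
    have e : (t + δ)⁻¹ * t ≤ 1 := by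
      rw [inv_mul_le_iff₀ h]; linarith
    have : (t + δ)⁻¹ ^ 2 * G ≤ (t + δ)⁻¹ * (4 * N) := by
      calc (t + δ)⁻¹ ^ 2 * G ≤ (t + δ)⁻¹ ^ 2 * (4 * (t * N)) := by gcongr
        _ = ((t + δ)⁻¹ * t) * ((t + δ)⁻¹ * (4 * N)) := by ring
        _ ≤ 1 * ((t + δ)⁻¹ * (4 * N)) := by gcongr
        _ = _ := one_mul _
    nlinarith
  rcases lt_or_ge 1 t with h2 | h2
  · obtain ⟨a, b⟩ := c_flat (t := t) (a := 0)
      (by filter_upwards [lt_mem_nhds h2] with s hs using c_zero hs.le)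
    rw [a, b, c_zero h2.le]
    linarith
  obtain ⟨a, b⟩ := H t ⟨h1, h2⟩
  have hl := log_abs (s := t + δ) (by linarith) (by linarith)
  have hi2 : (t + δ)⁻¹ ≤ 2 := by rw [inv_le_comm₀ h (by norm_num)]; linarith
  have hG4 : G ≤ 4 * N := by nlinarith
  have p1 : -(M * 3) ≤ deriv c t * Real.log (t + δ) := by
    refine neg_le_of_abs_le ?_
    rw [abs_mul]
    gcongr
  have p2 : 0 ≤ c t * (t + δ)⁻¹ := mul_nonneg (c_nonneg t) hi.le
  have p3 : -(M * 3) ≤ deriv (deriv c) t * Real.log (t + δ) := by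
    refine neg_le_of_abs_le ?_
    rw [abs_mul]
    gcongr
  have p4 : -(M * 2) ≤ deriv c t * (t + δ)⁻¹ := by
    refine neg_le_of_abs_le ?_
    rw [abs_mul, abs_of_pos hi]
    gcongr
  have p5 : c t * (t + δ)⁻¹ ^ 2 ≤ 1 * 2 ^ 2 := by
    have := c_le t
    gcongr
  have q1 : -(M * 3) * (4 * N) ≤
      (deriv c t * Real.log (t + δ) + c t * (t + δ)⁻¹) * (4 * N) := by
    gcongr
    linarith
  have q2 : -(7 * M + 4) * G ≤ (deriv (deriv c) t * Real.log (t + δ) +
      2 * deriv c t * (t + δ)⁻¹ - c t * (t + δ)⁻¹ ^ 2) * G := by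
    gcongr
    linarith
  have q3 : (7 * M + 4) * G ≤ (7 * M + 4) * (4 * N) := by gcongr
  nlinarith

end POLE

open POLE in
theorem stPOLE : St_POLE := by
  intro n hn
  obtain ⟨K, hK, H⟩ := lev_bound
  have hn' : (0 : ℝ) < n := by exact_mod_cast hn
  have hd : ∀ k : ℕ, (0 : ℝ) < 1 / (k + 1) := fun k => by positivity
  have hd1 : ∀ k : ℕ, (1 : ℝ) / (k + 1) ≤ 1 := fun k => by
    rw [div_le_one (by positivity)]
    linarith [Nat.cast_nonneg (α := ℝ) k]
  have hp : ∀ (k : ℕ) (z : E n), 0 < nsq z + 1 / (k + 1) := fun k z =>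
    add_pos_of_nonneg_of_pos (nsq_nonneg z) (hd k)
  have hs : ∀ (k : ℕ) (z : E n), ContDiffAt ℝ 2 (fun w : E n => u (1 / (k + 1)) (nsq w)) z :=
    fun k z => (u_smooth (hp k z)).comp z nsq_smooth.contDiffAt
  have hb : ∀ (k : ℕ) (z : E n), 1 / 4 ≤ nsq z → |u (1 / (k + 1)) (nsq z)| ≤ 3 := fun k z hz => by
    rcases le_total 1 (nsq z) with h | h
    · simp [u, c_zero h]
    · have := log_abs (s := nsq z + 1 / (k + 1)) (by linarith [hd k]) (by linarith [hd1 k])
      rw [u, abs_mul, abs_of_nonneg (c_nonneg _)]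
      nlinarith [c_le (nsq z), c_nonneg (nsq z), abs_nonneg (Real.log (nsq z + 1 / (k + 1)))]
  refine ⟨n * (K + 3), by positivity, fun k z => n * u (1 / (k + 1)) (nsq z),
    fun z => c (nsq z), fun k => contDiff_iff_contDiffAt.2 fun z => contDiffAt_const.mul (hs k z),
    (c_smooth 2).comp nsq_smooth, fun z a b hab => ?_, fun k z => ?_, fun k z hz => ?_,
    fun z hz => c_zero hz, fun z hz => c_one (by linarith), fun k z hz => ?_, fun k z v => ?_,
    fun k z hz => ?_⟩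
  · have hab' : (a : ℝ) ≤ b := by exact_mod_cast hab
    have := c_nonneg (nsq z)
    have h1 := hp b z
    simp only [u]
    gcongr
  · refine mul_le_mul_of_nonneg_left ?_ hn'.le
    rcases le_total (1 / 4) (nsq z) with h | h
    · linarith [le_of_abs_le (hb k z h)]
    · have := Real.log_le_sub_one_of_pos (hp k z)
      rw [u, c_one (by linarith)]
      linarith [hd1 k]
  · simp [u, c_zero hz]
  · have := neg_le_of_abs_le (hb k z hz)
    nlinarith
  · have e := fun w => d2_const_mul (hs k z) n w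
    have e2 := fun w => d2_comp (nsq_smooth.contDiffAt (x := z)) (u_smooth (hp k z)) w
    have := H _ _ _ _ (hd k) (hd1 k) (nsq_nonneg z) (nsq_nonneg v) (by positivity) (grad_le z v)
    unfold levE
    rw [e, e, e2, e2, d2_nsq, d2_nsq, nsq_I]
    nlinarith [mul_le_mul_of_nonneg_left this hn'.le, mul_nonneg hn'.le (nsq_nonneg v)]
  · simp only [u, c_one (show nsq z ≤ 1 / 2 by linarith), one_mul]

end Pool.Agent.Lib.SV
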