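import Pool.Agent.Lib.SV.Blue2

/-! Partitions of unity on the base. -/

open scoped Classical Topology ENNReal
open Set MeasureTheory Complex Filter Metric

noncomputable section

namespace Pool.Agent.Lib.SV

namespace POU

/-- A bump function on the covering, equal to one near a point. -/
theorem bump (hTR : St_TR) (hCUT : St_CUT) {n : ℕ} (C : Ctx n) (x : C.Y) {O : Set C.Y}
    (hO : O ∈ 𝓝 x) : ∃ χ : C.Y → ℝ, C.GSm χ ∧ tsupport χ ⊆ O ∧ (∀ z, 0 ≤ χ z) ∧
      {z | χ z = 1} ∈ 𝓝 x := by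
  have hW : C.W (C.ix x) ∈ 𝓝 x := (C.rd _).opn.mem_nhds (C.mem_ix x)
  obtain ⟨V, hVs, hVo, hxV⟩ := mem_nhds_iff.1 (inter_mem hO hW)
  have hVW : V ⊆ C.W (C.ix x) := fun z hz => (hVs hz).2
  obtain ⟨χ, h1, -, h0, -, h2⟩ := hCUT n (C.dom (C.ix x) V hVo hVW) {x} Unit (fun _ => V)
    isCompact_singleton (fun _ => hVo) (fun _ => Subset.rfl)
    (fun z hz => mem_iUnion.2 ⟨(), by rw [mem_singleton_iff.1 hz]; exact hxV⟩)
  obtain ⟨hsm, K, hK, hKV, hoff⟩ := h1 ()
  refine ⟨χ (), fun j z hz => ?_, ?_, h0 (), ?_⟩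
  · by_cases hzV : z ∈ V
    · exact (hTR n C (C.ix x) j z (hVW hzV) hz).1 ℝ 2 _ (hsm z hzV)
    · refine Sm.congr (C.locH hz) (sm_const (0 : ℝ)) ?_
      filter_upwards [hK.isClosed.isOpen_compl.mem_nhds fun h => hzV (hKV h)] with w hw
      exact hoff w hw
  · refine (closure_minimal (fun z hz => ?_) hK.isClosed).trans fun z hz => (hVs (hKV hz)).1
    by_contra h
    exact hz (hoff z h)
  · rw [nhdsSet_singleton] at h2
    filter_upwards [h2] with z hz
    simpa using hz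

end POU

theorem stPOU (hTR : St_TR) (hCUT : St_CUT) : St_POU := by
  intro n C O hO
  choose χ hsm hsup h0 h1 using fun x : C.X => POU.bump hTR hCUT C.base x (hO x)
  obtain ⟨t, ht⟩ := CompactSpace.elim_nhds_subcover (fun x : C.X => {z | χ x z = 1}) h1
  set x : Fin t.card → C.X := fun k => (t.equivFin.symm k : C.X) with hx
  have hpos : ∀ z, 0 < ∑ k, χ (x k) z := by
    intro z
    have hz : z ∈ ⋃ y ∈ t, {z | χ y z = 1} := by rw [ht]; exact mem_univ _
    obtain ⟨y, hy, hz⟩ := mem_iUnion₂.1 hz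
    refine Finset.sum_pos' (fun k _ => h0 _ _) ⟨t.equivFin ⟨y, hy⟩, Finset.mem_univ _, ?_⟩
    have : χ y z = 1 := hz
    simp [hx, this]
  refine ⟨t.card, x, fun k z => χ (x k) z * (∑ l, χ (x l) z)⁻¹, fun k => ⟨fun i z hz => ?_, ?_,
    fun z => mul_nonneg (h0 _ _) (inv_nonneg.2 (hpos z).le)⟩, fun z => ?_⟩
  · exact Sm.mul (hsm _ i z hz) (Sm.comp (C.base.locH hz) (g := fun s : ℝ => s⁻¹)
      (contDiffAt_inv ℝ (hpos z).ne') (Sm.sum fun l _ => hsm _ i z hz))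
  · exact (tsupport_mul_subset_left (f := χ (x k))).trans (hsup _)
  · rw [← Finset.sum_mul, mul_inv_cancel₀ (hpos z).ne']

end Pool.Agent.Lib.SV
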