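import Pool.Agent.Lib.SV.Blue1
import Pool.Agent.Lib.SV.Ext85

/-! Row REM. -/

open Set Metric MeasureTheory

namespace Pool.Agent.Lib.SV

theorem stREM : St_REM := by
  rintro n f j z r - hj ⟨w, hw, hw0⟩ hf hi
  exact H85.ext_sq volume isOpen_ball hj
    (fun x hx h => hw0 (H85.eq_zero_of_convex isOpen_ball (convex_ball z r) hj hx h hw)) hf
    fun x hx => ⟨ball z r, isOpen_ball.mem_nhds hx, hi⟩

end Pool.Agent.Lib.SV
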