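import Pool.Agent.Lib.SV.Blue2

/-! The proper function with bounded gradient and Levi form on the covering. -/

open scoped Classical Topology ENNReal Pointwise
open Set MeasureTheory Complex Filter

set_option linter.unusedVariables false
set_option linter.unusedSectionVars false

noncomputable section

namespace Pool.Agent.Lib.SV

namespace RHO

/-- An exhaustion of a group by finite sets. -/
def ball {Γ : Type} [Group Γ] (e : ℕ → Γ) (S : Set Γ) : ℕ → Set Γ
  | 0 => ∅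
  | k + 1 => insert (e k) (ball e S k * S)

theorem exists_len {Γ : Type} [Group Γ] [Countable Γ] {S : Set Γ} (hS : S.Finite) :
    ∃ len : Γ → ℕ, (∀ a : ℕ, {g | len g ≤ a}.Finite) ∧
      ∀ g, ∀ s ∈ S, |(len (g * s) : ℝ) - len g| ≤ 1 := by
  obtain ⟨e, he⟩ := exists_surjective_nat Γ
  let S' : Set Γ := insert 1 (S ∪ S⁻¹)
  have hS' : S'.Finite := (hS.union hS.inv).insert 1
  have hfin : ∀ k, (ball e S' k).Finite := by
    intro k
    induction k with
    | zero => exact finite_empty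
    | succ k ih => exact (ih.mul hS').insert _
  have hst : ∀ k g, g ∈ ball e S' k → ∀ s ∈ S', g * s ∈ ball e S' (k + 1) :=
    fun k g hg s hs => mem_insert_of_mem _ (mul_mem_mul hg hs)
  have hmono : Monotone (ball e S') := monotone_nat_of_le_succ fun k g hg => by
    simpa using hst k g hg 1 (mem_insert _ _)
  have hex : ∀ g, ∃ k, g ∈ ball e S' k := fun g => by
    obtain ⟨k, rfl⟩ := he g
    exact ⟨k + 1, mem_insert _ _⟩
  have hle : ∀ g, ∀ s ∈ S', Nat.find (hex (g * s)) ≤ Nat.find (hex g) + 1 := fun g s hs =>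
    Nat.find_min' _ (hst _ g (Nat.find_spec (hex g)) s hs)
  refine ⟨fun g => Nat.find (hex g), fun a => (hfin a).subset fun g hg =>
    hmono hg (Nat.find_spec (hex g)), fun g s hs => ?_⟩
  have h1 := hle g s (mem_insert_of_mem _ (Or.inl hs))
  have h2 := hle (g * s) s⁻¹ (mem_insert_of_mem _ (Or.inr (inv_mem_inv.2 hs)))
  simp only [mul_inv_cancel_right] at h2
  have h1' : (Nat.find (hex (g * s)) : ℝ) ≤ Nat.find (hex g) + 1 := by exact_mod_cast h1
  have h2' : (Nat.find (hex g) : ℝ) ≤ Nat.find (hex (g * s)) + 1 := by exact_mod_cast h2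
  exact abs_le.2 ⟨by linarith, by linarith⟩

theorem comb {n : ℕ} {Y ι : Type} [TopologicalSpace Y] {p : Y → E n} {y : Y} (s : Finset ι)
    (c : ι → ℝ) (F : ι → Y → ℝ) (c0 : ℝ) (hF : ∀ i ∈ s, Sm p 2 (F i) y) :
    Sm p 2 (fun x => c0 + ∑ i ∈ s, c i * F i x) y ∧
      (∀ w, dd p (fun x => c0 + ∑ i ∈ s, c i * F i x) y w = ∑ i ∈ s, c i * dd p (F i) y w) ∧
      ∀ w, lev p (fun x => c0 + ∑ i ∈ s, c i * F i x) y w = ∑ i ∈ s, c i * lev p (F i) y w := by
  have hs : ∀ t : Finset ι, t ⊆ s → Sm p 2 (fun x => ∑ i ∈ t, c i * F i x) y := fun t ht =>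
    Sm.sum fun i hi => (sm_const _).mul (hF i (ht hi))
  refine ⟨(sm_const _).add (hs s subset_rfl), fun w => ?_, fun w => ?_⟩
  · have h : HasFDerivAt (fun z => c0 + ∑ i ∈ s, c i * (F i ∘ lift p y) z)
        (∑ i ∈ s, c i • dd p (F i) y) (p y) :=
      (HasFDerivAt.fun_sum fun i hi =>
        (Sm.differentiableAt (hF i hi)).hasFDerivAt.const_mul (c i)).const_add c0
    have e : dd p (fun x => c0 + ∑ i ∈ s, c i * F i x) y = ∑ i ∈ s, c i • dd p (F i) y := h.fderiv
    rw [e]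
    simp
  · rw [lev_add (sm_const _) (hs s subset_rfl), lev_const, zero_add]
    have : ∀ t : Finset ι, t ⊆ s → lev p (fun x => ∑ i ∈ t, c i * F i x) y w =
        ∑ i ∈ t, c i * lev p (F i) y w := by
      intro t
      induction t using Finset.induction_on with
      | empty => intro _; simpa using lev_const (p := p) (y := y) 0 w
      | insert a t ha ih =>
        intro ht
        have ht' : t ⊆ s := (Finset.subset_insert a t).trans ht
        have ha' := hF a (ht (Finset.mem_insert_self a t))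
        simp only [Finset.sum_insert ha]
        rw [lev_add ((sm_const _).mul ha') (hs t ht'), lev_const_mul ha', ih ht']
    exact this s subset_rfl

theorem abs_sum_le {ι : Type} (s : Finset ι) (c a : ι → ℝ) {r m : ℝ} (hr : 0 ≤ r)
    (hm : (s.card : ℝ) ≤ m) (hc : ∀ i ∈ s, |c i| ≤ 1) (ha : ∀ i ∈ s, |a i| ≤ r) :
    |∑ i ∈ s, c i * a i| ≤ m * r := by
  refine (Finset.abs_sum_le_sum_abs _ _).trans ((Finset.sum_le_card_nsmul _ _ r fun i hi => ?_).trans
    (by rw [nsmul_eq_mul]; exact mul_le_mul_of_nonneg_right hm hr))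
  rw [abs_mul]
  exact (mul_le_mul_of_nonneg_right (hc i hi) (abs_nonneg _)).trans (by rw [one_mul]; exact ha i hi)

variable {n : ℕ} (C : Ctx n)

theorem fin_inv {N K : Set C.Y} (hN : IsCompact N) (hK : IsCompact K) :
    {g : C.Γ | ∃ x ∈ N, g⁻¹ • x ∈ K}.Finite :=
  (C.pd N K hN hK).inv

theorem near {K : Set C.Y} (hK : IsCompact K) (y : C.Y) :
    ∀ᶠ x in 𝓝 y, ∀ g : C.Γ, g⁻¹ • y ∉ K → g⁻¹ • x ∉ K := by
  obtain ⟨N, hN, hy⟩ := exists_compact_mem_nhds y
  have h1 : ∀ᶠ x in 𝓝 y, ∀ g ∈ {g : C.Γ | ∃ x ∈ N, g⁻¹ • x ∈ K}, g⁻¹ • y ∉ K → g⁻¹ • x ∉ K := by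
    refine (eventually_all_finite (fin_inv C hN hK)).2 fun g _ => ?_
    by_cases h : g⁻¹ • y ∈ K
    · exact Eventually.of_forall fun _ h' => (h' h).elim
    · filter_upwards [(C.continuous_smul g⁻¹).continuousAt.preimage_mem_nhds
        (hK.isClosed.isOpen_compl.mem_nhds h)] with x hx _ using hx
  filter_upwards [h1, hy] with x h1 hx g hg h
  exact h1 g ⟨x, hx, h⟩ hg h

end RHO

open RHO in
theorem stRHO (hBD : St_BD) : St_RHO := by
  intro n C f hf h0
  obtain ⟨M, hM, hB⟩ := (hBD n C).1 f hf.sm hf.cpt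
  have hK : IsCompact (tsupport f) := hf.cpt
  have hS := C.pd _ _ hK hK
  obtain ⟨len, hfin, hlen⟩ := exists_len hS
  let ρ : C.Y → ℝ := fun y => ∑ᶠ g : C.Γ, (len g : ℝ) * f (g⁻¹ • y)
  have key : ∀ y, ∃ (T : Finset C.Γ) (g0 : C.Γ) (c : C.Γ → ℝ), g0⁻¹ • y ∈ tsupport f ∧
      (T.card : ℝ) ≤ hS.toFinset.card ∧ (∀ g ∈ T, |c g| ≤ 1) ∧ ∑ g ∈ T, f (g⁻¹ • y) = 1 ∧
      ρ =ᶠ[𝓝 y] fun x => len g0 + ∑ g ∈ T, c g * f (g⁻¹ • x) := by
    intro y
    have hT : {g : C.Γ | g⁻¹ • y ∈ tsupport f}.Finite := by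
      simpa using fin_inv C (isCompact_singleton (x := y)) hK
    have hn : ∀ᶠ x in 𝓝 y, ∑ g ∈ hT.toFinset, f (g⁻¹ • x) = 1 ∧
        ρ x = ∑ g ∈ hT.toFinset, (len g : ℝ) * f (g⁻¹ • x) := by
      filter_upwards [near C hK y] with x hx
      have hz : ∀ g : C.Γ, f (g⁻¹ • x) ≠ 0 → g ∈ hT.toFinset := fun g hg => by
        rw [hT.mem_toFinset]
        by_contra h
        exact hx g h (subset_tsupport f hg)
      exact ⟨(finsum_eq_sum_of_support_subset _ fun g hg => hz g hg).symm.trans (hf.sum x),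
        finsum_eq_sum_of_support_subset _ fun g hg => hz g (right_ne_zero_of_mul hg)⟩
    have h1 := hn.self_of_nhds.1
    obtain ⟨g0, hg0⟩ : hT.toFinset.Nonempty := by
      by_contra h
      rw [Finset.not_nonempty_iff_eq_empty] at h
      simp [h] at h1
    rw [hT.mem_toFinset] at hg0
    have hs : ∀ g ∈ hT.toFinset, g0⁻¹ * g ∈ hS.toFinset := fun g hg => by
      rw [hT.mem_toFinset] at hg
      rw [hS.mem_toFinset]
      exact ⟨g⁻¹ • y, hg, by rwa [mul_smul, smul_inv_smul]⟩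
    refine ⟨hT.toFinset, g0, fun g => len g - len g0, hg0, ?_, fun g hg => ?_, h1, ?_⟩
    · exact_mod_cast Finset.card_le_card_of_injOn (fun g => g0⁻¹ * g) hs
        fun a _ b _ h => mul_left_cancel h
    · simpa using hlen g0 _ (hS.mem_toFinset.1 (hs g hg))
    · filter_upwards [hn] with x hx
      simp only [sub_mul, Finset.sum_sub_distrib, ← Finset.mul_sum, hx.1, hx.2]
      ring
  have hsm : ∀ i, ∀ y ∈ C.W i, ∀ g : C.Γ, Sm (C.q i) 2 (fun x => f (g⁻¹ • x)) y :=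
    fun i y hy g => (Ctx.sm_smul hy _).2 (hf.sm i _ ((Ctx.smul_mem_W _).2 hy))
  have hρ : C.GSm ρ := fun i y hy => by
    obtain ⟨T, g0, c, -, -, -, -, e⟩ := key y
    exact (comb T c _ _ fun g _ => hsm i y hy g).1.congr (Ctx.locH hy) e
  refine ⟨ρ, hρ, ⟨(2 * hS.toFinset.card ^ 2 + hS.toFinset.card) * M, fun i y hy v => ?_⟩,
    fun y => finsum_nonneg fun g => mul_nonneg (Nat.cast_nonneg _) (h0 _), fun a => ?_⟩
  · obtain ⟨T, g0, c, -, hc, hc1, -, e⟩ := key y
    obtain ⟨-, e1, e2⟩ := comb T c _ (len g0) fun g _ => hsm i y hy g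
    have ho : 0 ≤ M * C.om i y v := mul_nonneg hM (Ctx.om_nonneg hy v)
    have hb : ∀ g : C.Γ, grd (C.q i) (fun x => f (g⁻¹ • x)) y v ≤ M * C.om i y v ∧
        |lev (C.q i) (fun x => f (g⁻¹ • x)) y v| ≤ M * C.om i y v := fun g => by
      have := hB i _ ((Ctx.smul_mem_W g⁻¹).2 hy) v
      rw [Ctx.om_smul hy] at this
      unfold grd at this ⊢
      rwa [Ctx.dd_smul hy, Ctx.lev_smul hy]
    have b1 := abs_sum_le T c (fun g => dd (C.q i) (fun x => f (g⁻¹ • x)) y v)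
      (Real.sqrt_nonneg (M * C.om i y v)) hc hc1 fun g _ => Real.abs_le_sqrt
        (le_trans (le_add_of_nonneg_right (sq_nonneg _)) (hb g).1)
    have b2 := abs_sum_le T c (fun g => dd (C.q i) (fun x => f (g⁻¹ • x)) y (I • v))
      (Real.sqrt_nonneg (M * C.om i y v)) hc hc1 fun g _ => Real.abs_le_sqrt
        (le_trans (le_add_of_nonneg_left (sq_nonneg _)) (hb g).1)
    have b3 := abs_sum_le T c (fun g => lev (C.q i) (fun x => f (g⁻¹ • x)) y v) ho hc hc1
      fun g _ => (hb g).2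
    have b1' := sq_le_sq' (abs_le.1 b1).1 (abs_le.1 b1).2
    have b2' := sq_le_sq' (abs_le.1 b2).1 (abs_le.1 b2).2
    rw [mul_pow, Real.sq_sqrt ho] at b1' b2'
    have hm : (0 : ℝ) ≤ hS.toFinset.card := Nat.cast_nonneg _
    unfold grd
    rw [dd_congr (Ctx.locH hy) e, lev_congr (Ctx.locH hy) e, e1, e1, e2]
    constructor
    · nlinarith [mul_nonneg hm ho]
    · nlinarith [mul_nonneg (sq_nonneg (hS.toFinset.card : ℝ)) ho]
  · have hc : Continuous ρ := continuous_iff_continuousAt.2 fun y =>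
      (hρ _ y (Ctx.mem_ix y)).continuousAt (Ctx.locH (Ctx.mem_ix y))
    refine ((hfin ⌈a + 1⌉₊).isCompact_biUnion fun g _ =>
      hK.image (C.continuous_smul g)).of_isClosed_subset (isClosed_le hc continuous_const)
      fun y hy => ?_
    obtain ⟨T, g0, c, h1, -, hc1, h2, e⟩ := key y
    have e' : ρ y = len g0 + ∑ g ∈ T, c g * f (g⁻¹ • y) := e.self_of_nhds
    have h3 : -1 ≤ ∑ g ∈ T, c g * f (g⁻¹ • y) := by
      rw [← h2, ← Finset.sum_neg_distrib]
      refine Finset.sum_le_sum fun g hg => ?_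
      nlinarith [(abs_le.1 (hc1 g hg)).1, h0 (g⁻¹ • y)]
    have hy' : ρ y ≤ a := hy
    refine mem_biUnion (x := g0) ?_ ⟨_, h1, smul_inv_smul g0 y⟩
    have : (len g0 : ℝ) ≤ ⌈a + 1⌉₊ := le_trans (by linarith) (Nat.le_ceil _)
    exact_mod_cast this

end Pool.Agent.Lib.SV
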