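import Pool.Agent.Lib.SV.Blue1

/-! Smoothing of an LU function near a compact set. -/

open scoped Classical Topology ENNReal
open Set MeasureTheory Complex Filter Metric

noncomputable section

namespace Pool.Agent.Lib.SV

namespace RICH

section euc

variable {n : ℕ} {f g : E n → ℝ} {z : E n}

theorem d2_mul (hf : ContDiffAt ℝ 2 f z) (hg : ContDiffAt ℝ 2 g z) (v : E n) :
    d2 (fun w => f w * g w) z v =
      f z * d2 g z v + 2 * fderiv ℝ f z v * fderiv ℝ g z v + g z * d2 f z v := by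
  have e : (fun w => fderiv ℝ (fun w => f w * g w) w v) =ᶠ[𝓝 z]
      fun w => f w * fderiv ℝ g w v + g w * fderiv ℝ f w v := by
    filter_upwards [hf.eventually (by simp), hg.eventually (by simp)] with w a b
    rw [fderiv_fun_mul (a.differentiableAt (by simp)) (b.differentiableAt (by simp))]
    rfl
  have d : ∀ {f : E n → ℝ}, ContDiffAt ℝ 2 f z → DifferentiableAt ℝ (fun w => fderiv ℝ f w v) z :=
    fun hf => ((hf.fderiv_right (m := 1) (by norm_num)).differentiableAt (by norm_num)).clm_apply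
      (differentiableAt_const v)
  have hf1 := hf.differentiableAt (by simp)
  have hg1 := hg.differentiableAt (by simp)
  unfold d2
  rw [e.fderiv_eq, fderiv_fun_add (hf1.fun_mul (d hg)) (hg1.fun_mul (d hf)),
    fderiv_fun_mul hf1 (d hg), fderiv_fun_mul hg1 (d hf)]
  simp only [add_apply, smul_apply, smul_eq_mul]
  ring

theorem d2_sum {ι : Type} (s : Finset ι) {a : ι → E n → ℝ} (ha : ∀ i ∈ s, ContDiffAt ℝ 2 (a i) z)
    (v : E n) : d2 (fun w => ∑ i ∈ s, a i w) z v = ∑ i ∈ s, d2 (a i) z v := by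
  induction s using Finset.induction_on with
  | empty => simpa using d2_const (z := z) 0 v
  | insert i s hi ih =>
    simp only [Finset.sum_insert hi]
    rw [d2_add (ha i (by simp)) (ContDiffAt.sum fun j hj => ha j (by simp [hj])),
      ih fun j hj => ha j (by simp [hj])]

theorem term (hf : ContDiffAt ℝ 2 f z) (hg : ContDiffAt ℝ 2 g z) (v : E n) :
    ContDiffAt ℝ 2 (fun w => f w ^ 2 * Real.exp (g w)) z ∧
    fderiv ℝ (fun w => f w ^ 2 * Real.exp (g w)) z v =
      Real.exp (g z) * f z * (f z * fderiv ℝ g z v + 2 * fderiv ℝ f z v) ∧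
    d2 (fun w => f w ^ 2 * Real.exp (g w)) z v =
      Real.exp (g z) * (f z * fderiv ℝ g z v + 2 * fderiv ℝ f z v) ^ 2 +
      Real.exp (g z) * (f z ^ 2 * d2 g z v + 2 * f z * d2 f z v - 2 * fderiv ℝ f z v ^ 2) := by
  have hf1 := (hf.differentiableAt (by simp)).hasFDerivAt
  have hg1 := (hg.differentiableAt (by simp)).hasFDerivAt
  have h2 : fderiv ℝ (fun w => f w ^ 2) z v = 2 * f z * fderiv ℝ f z v := by
    simp only [sq (f _)]
    rw [fderiv_fun_mul hf1.differentiableAt hf1.differentiableAt]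
    simp only [add_apply, smul_apply, smul_eq_mul]
    ring
  have he : fderiv ℝ (fun w => Real.exp (g w)) z v = Real.exp (g z) * fderiv ℝ g z v := by
    rw [hg1.exp.fderiv]
    simp
  refine ⟨(hf.pow 2).mul hg.exp, ?_, ?_⟩
  · rw [fderiv_fun_mul ((hf.pow 2).differentiableAt (by simp)) hg1.exp.differentiableAt]
    simp only [add_apply, smul_apply, smul_eq_mul, h2, he]
    ring
  · have a : d2 (fun w => f w ^ 2) z v = 2 * f z * d2 f z v + 2 * fderiv ℝ f z v ^ 2 := by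
      simp only [sq (f _)]
      rw [d2_mul hf hf]
      ring
    have b : d2 (fun w => Real.exp (g w)) z v =
        Real.exp (g z) * d2 g z v + Real.exp (g z) * fderiv ℝ g z v ^ 2 := by
      rw [d2_comp hg Real.contDiff_exp.contDiffAt, Real.deriv_exp, Real.deriv_exp]
    rw [d2_mul (hf.pow 2) hg.exp, a, b, h2, he]
    ring

theorem keyE {ι : Type} (s : Finset ι) {χ w : ι → E n → ℝ} (hχ : ∀ i ∈ s, ContDiffAt ℝ 2 (χ i) z)
    (hw : ∀ i ∈ s, ContDiffAt ℝ 2 (w i) z) (hS : 0 < ∑ i ∈ s, χ i z ^ 2 * Real.exp (w i z))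
    (v : E n) :
    (∑ i ∈ s, Real.exp (w i z) * (χ i z ^ 2 * d2 (w i) z v + 2 * χ i z * d2 (χ i) z v -
      2 * fderiv ℝ (χ i) z v ^ 2)) / (∑ i ∈ s, χ i z ^ 2 * Real.exp (w i z)) ≤
    d2 (fun x => Real.log (∑ i ∈ s, χ i x ^ 2 * Real.exp (w i x))) z v := by
  have T := fun i hi => term (hχ i hi) (hw i hi) v
  have hc : ContDiffAt ℝ 2 (fun x => ∑ i ∈ s, χ i x ^ 2 * Real.exp (w i x)) z :=
    ContDiffAt.sum fun i hi => (T i hi).1
  rw [d2_comp hc (Real.contDiffAt_log.2 hS.ne'), Real.deriv_log', deriv_inv,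
    d2_sum s fun i hi => (T i hi).1,
    fderiv_fun_sum fun i hi => (T i hi).1.differentiableAt (by simp), sum_apply,
    Finset.sum_congr rfl fun i hi => (T i hi).2.1, Finset.sum_congr rfl fun i hi => (T i hi).2.2,
    Finset.sum_add_distrib]
  have cs := Finset.sum_sq_le_sum_mul_sum_of_sq_le_mul s
    (r := fun i => Real.exp (w i z) * χ i z *
      (χ i z * fderiv ℝ (w i) z v + 2 * fderiv ℝ (χ i) z v))
    (f := fun i => χ i z ^ 2 * Real.exp (w i z))
    (g := fun i => Real.exp (w i z) * (χ i z * fderiv ℝ (w i) z v + 2 * fderiv ℝ (χ i) z v) ^ 2)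
    (fun i _ => by positivity) (fun i _ => by positivity) (fun i _ => le_of_eq (by ring))
  generalize ∑ i ∈ s, χ i z ^ 2 * Real.exp (w i z) = S at *
  generalize ∑ i ∈ s, Real.exp (w i z) * χ i z *
    (χ i z * fderiv ℝ (w i) z v + 2 * fderiv ℝ (χ i) z v) = R at *
  generalize ∑ i ∈ s, Real.exp (w i z) *
    (χ i z * fderiv ℝ (w i) z v + 2 * fderiv ℝ (χ i) z v) ^ 2 = Q at *
  generalize ∑ i ∈ s, Real.exp (w i z) * (χ i z ^ 2 * d2 (w i) z v + 2 * χ i z * d2 (χ i) z v -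
      2 * fderiv ℝ (χ i) z v ^ 2) = A at *
  have : S⁻¹ * (Q + A) + -(S ^ 2)⁻¹ * R ^ 2 - A / S = (S * Q - R ^ 2) / S ^ 2 := by
    field_simp
    ring
  have h0 : 0 ≤ (S * Q - R ^ 2) / S ^ 2 := div_nonneg (by linarith) (by positivity)
  linarith

theorem norm_sq_le (v : E n) : ‖v‖ ^ 2 ≤ nsq v := by
  have h : ‖v‖ ≤ Real.sqrt (nsq v) := by
    refine (pi_norm_le_iff_of_nonneg (Real.sqrt_nonneg _)).2 fun j => ?_
    refine Real.le_sqrt_of_sq_le ?_
    rw [← normSq_eq_norm_sq]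
    exact Finset.single_le_sum (f := fun j => normSq (v j)) (fun _ _ => normSq_nonneg _)
      (Finset.mem_univ j)
  calc ‖v‖ ^ 2 ≤ Real.sqrt (nsq v) ^ 2 := by gcongr
    _ = nsq v := Real.sq_sqrt (nsq_nonneg v)

end euc

section rd

variable {n : ℕ} {Y : Type} [TopologicalSpace Y] {p : Y → E n} {W : Set Y} {y : Y}

theorem key (h : LocH p y) {ι : Type} (s : Finset ι) {χ w : ι → Y → ℝ}
    (hχ : ∀ i ∈ s, Sm p 2 (χ i) y) (hw : ∀ i ∈ s, Sm p 2 (w i) y)
    (hS : 0 < ∑ i ∈ s, χ i y ^ 2 * Real.exp (w i y)) :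
    Sm p 2 (fun x => Real.log (∑ i ∈ s, χ i x ^ 2 * Real.exp (w i x))) y ∧ ∀ v,
    (∑ i ∈ s, Real.exp (w i y) * (χ i y ^ 2 * lev p (w i) y v + 2 * χ i y * lev p (χ i) y v -
      2 * grd p (χ i) y v)) / (∑ i ∈ s, χ i y ^ 2 * Real.exp (w i y)) ≤
    lev p (fun x => Real.log (∑ i ∈ s, χ i x ^ 2 * Real.exp (w i x))) y v := by
  have hS' : 0 < ∑ i ∈ s, (χ i ∘ lift p y) (p y) ^ 2 * Real.exp ((w i ∘ lift p y) (p y)) := by
    simpa only [Function.comp_apply, h.lift_self] using hS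
  refine ⟨ContDiffAt.log (ContDiffAt.sum fun i hi => (term (hχ i hi) (hw i hi) 0).1) hS'.ne',
    fun v => ?_⟩
  have a := keyE s hχ hw hS' v
  have b := keyE s hχ hw hS' (I • v)
  refine le_trans (le_of_eq ?_) (add_le_add a b)
  simp only [Function.comp_apply, h.lift_self]
  rw [← add_div, ← Finset.sum_add_distrib]
  congr 1
  refine Finset.sum_congr rfl fun i _ => ?_
  unfold lev levE grd dd
  ring

theorem bnd (h : RD p W) {K : Set Y} (hK : IsCompact K) (hKW : K ⊆ W) {f : Y → ℝ}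
    (hf : ∀ y ∈ W, Sm p 2 f y) : ∃ M, 0 ≤ M ∧ ∀ y ∈ K, ∀ v,
      |lev p f y v| ≤ M * nsq v ∧ grd p f y v ≤ M * nsq v := by
  have h1 : ∀ y ∈ W, Sm p 1 (dd p f) y := fun y hy => Sm.dd (k := 1) (h.locH hy) (hf y hy)
  have h2 : ∀ y ∈ W, Sm p 0 (dd p (dd p f)) y := fun y hy => Sm.dd (k := 0) (h.locH hy) (h1 y hy)
  obtain ⟨A, hA⟩ := hK.exists_bound_of_continuousOn (f := dd p f) fun y hy =>
    ((h1 y (hKW hy)).continuousAt (h.locH (hKW hy))).continuousWithinAt
  obtain ⟨B, hB⟩ := hK.exists_bound_of_continuousOn (f := dd p (dd p f)) fun y hy =>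
    ((h2 y (hKW hy)).continuousAt (h.locH (hKW hy))).continuousWithinAt
  refine ⟨2 * A ^ 2 + 2 * |B|, by positivity, fun y hy v => ?_⟩
  have hI : ‖I • v‖ = ‖v‖ := by rw [norm_smul, norm_I, one_mul]
  have hv := norm_sq_le v
  have e : dd p (dd p f) y = fderiv ℝ (fderiv ℝ (f ∘ lift p y)) (p y) :=
    (dd_comp_lift (h.locH (hKW hy)) f).fderiv_eq
  have a : ∀ u, |d2 (f ∘ lift p y) (p y) u| ≤ |B| * ‖u‖ ^ 2 := fun u => by
    rw [d2_eq (hf y (hKW hy)), ← e]
    calc |dd p (dd p f) y u u| ≤ ‖dd p (dd p f) y‖ * ‖u‖ * ‖u‖ :=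
          (dd p (dd p f) y).le_opNorm₂ u u
      _ ≤ |B| * ‖u‖ * ‖u‖ := by
          gcongr
          exact (hB y hy).trans (le_abs_self B)
      _ = _ := by ring
  have b : ∀ u, dd p f y u ^ 2 ≤ A ^ 2 * ‖u‖ ^ 2 := fun u => by
    rw [← sq_abs, ← mul_pow]
    have : |dd p f y u| ≤ A * ‖u‖ :=
      ((dd p f y).le_opNorm u).trans (mul_le_mul_of_nonneg_right (hA y hy) (norm_nonneg _))
    gcongr
  have a1 := a v
  have a2 := a (I • v)
  have b1 := b v
  have b2 := b (I • v)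
  rw [hI] at a2 b2
  have c1 : |B| * ‖v‖ ^ 2 ≤ |B| * nsq v := by gcongr
  have c2 : A ^ 2 * ‖v‖ ^ 2 ≤ A ^ 2 * nsq v := by gcongr
  have c3 : 0 ≤ |B| * nsq v := mul_nonneg (abs_nonneg _) (nsq_nonneg v)
  have c4 : 0 ≤ A ^ 2 * nsq v := mul_nonneg (sq_nonneg _) (nsq_nonneg v)
  constructor
  · unfold lev levE
    refine (abs_add_le _ _).trans ?_
    linarith
  · unfold grd
    linarith

end rd

end RICH

open RICH in
theorem stRICH' (hCUT : St_CUT) : St_RICH := by
  intro n D u K hK hKW hu ε hε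
  choose! V hV H using hu
  obtain ⟨T, hTK, hT⟩ := hK.elim_nhds_subcover (fun y => interior (V y) ∩ D.W) fun y hy =>
    inter_mem (interior_mem_nhds.2 (hV y hy)) (D.rd.opn.mem_nhds (hKW hy))
  obtain ⟨χ, hO, hW, h0, h1, hs⟩ := hCUT n D K T (fun i => interior (V i) ∩ D.W) hK
    (fun i => isOpen_interior.inter D.rd.opn) (fun i => inter_subset_right)
    (fun y hy => by
      obtain ⟨i, hi, hyi⟩ := mem_iUnion₂.1 (hT hy)
      exact mem_iUnion.2 ⟨⟨i, hi⟩, hyi⟩)
  choose M hM0 hM using fun i : T => bnd D.rd hK hKW (hW i).1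
  set N : ℝ := (Fintype.card T : ℝ) with hN
  have hN0 : 0 ≤ N := Nat.cast_nonneg _
  have hM1 : 0 ≤ ∑ i, M i := Finset.sum_nonneg fun i _ => hM0 i
  set t : ℝ := 1 + N + 4 * N * Real.exp 2 * (∑ i, M i) / ε with ht
  have hq : 0 ≤ 4 * N * Real.exp 2 * (∑ i, M i) / ε := by positivity
  have ht0 : 0 < t := by linarith
  choose w hw using fun i : T => H i (hTK i i.2) t⁻¹ (inv_pos.2 ht0)
  refine ⟨fun x => t⁻¹ * Real.log (∑ i, χ i x ^ 2 * Real.exp (t * w i x)), fun y hy => ?_⟩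
  have hL := D.rd.locH (hKW hy)
  set s : Finset T := Finset.univ.filter fun i => y ∈ interior (V i) ∩ D.W with hsdef
  have hs1 : ∀ i ∈ s, y ∈ V i := fun i hi => interior_subset (Finset.mem_filter.1 hi).2.1
  have hz : ∀ i ∉ s, ∀ᶠ x in 𝓝 y, χ i x = 0 := fun i hi => by
    obtain ⟨L, hL1, hL2, hL3⟩ := (hO i).2
    have : y ∉ L := fun h => hi (Finset.mem_filter.2 ⟨Finset.mem_univ _, hL2 h⟩)
    filter_upwards [hL1.isClosed.isOpen_compl.mem_nhds this] with x hx using hL3 x hx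
  have hev : ∀ᶠ x in 𝓝 y, ∑ i, χ i x ^ 2 * Real.exp (t * w i x) =
      ∑ i ∈ s, χ i x ^ 2 * Real.exp (t * w i x) := by
    have : ∀ᶠ x in 𝓝 y, ∀ i, i ∉ s → χ i x = 0 := eventually_all.2 fun i => by
      by_cases hi : i ∈ s
      · simp [hi]
      · exact (hz i hi).mono fun x hx _ => hx
    filter_upwards [this] with x hx
    refine (Finset.sum_subset (Finset.subset_univ s) fun i _ hi => ?_).symm
    simp [hx i hi]
  have hsum : ∑ i ∈ s, χ i y = 1 := by
    rw [← hs.self_of_nhdsSet y hy]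
    exact Finset.sum_subset (Finset.subset_univ s) fun i _ hi => (hz i hi).self_of_nhds
  have hle : ∀ i, χ i y ≤ 1 := fun i =>
    (Finset.single_le_sum (f := fun i => χ i y) (fun i _ => h0 i y) (Finset.mem_univ i)).trans (h1 y)
  have hsq1 : ∑ i ∈ s, χ i y ^ 2 ≤ 1 := by
    rw [← hsum]
    exact Finset.sum_le_sum fun i _ => by nlinarith [h0 i y, hle i]
  have hsq2 : 1 ≤ N * ∑ i ∈ s, χ i y ^ 2 := by
    have a := sq_sum_le_card_mul_sum_sq (s := s) (f := fun i => χ i y)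
    rw [hsum, one_pow] at a
    refine a.trans (mul_le_mul_of_nonneg_right ?_ (Finset.sum_nonneg fun i _ => sq_nonneg _))
    exact Nat.cast_le.2 (Finset.card_le_univ s)
  have hNpos : 0 < N := by
    rcases hN0.eq_or_lt with h | h
    · rw [← h] at hsq2
      linarith
    · exact h
  have hwu : ∀ i ∈ s, t * u y - 1 ≤ t * w i y ∧ t * w i y ≤ t * u y + 1 := fun i hi => by
    have a := abs_le.1 (hw i y (hs1 i hi)).2
    have b : t * t⁻¹ = 1 := mul_inv_cancel₀ ht0.ne'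
    constructor <;> nlinarith [a.1, a.2]
  set S := ∑ i ∈ s, χ i y ^ 2 * Real.exp (t * w i y) with hS
  have hS1 : S ≤ Real.exp (t * u y + 1) := by
    calc S ≤ ∑ i ∈ s, χ i y ^ 2 * Real.exp (t * u y + 1) := Finset.sum_le_sum fun i hi =>
          mul_le_mul_of_nonneg_left (Real.exp_le_exp.2 (hwu i hi).2) (sq_nonneg _)
      _ = (∑ i ∈ s, χ i y ^ 2) * Real.exp (t * u y + 1) := (Finset.sum_mul _ _ _).symm
      _ ≤ _ := mul_le_of_le_one_left (Real.exp_pos _).le hsq1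
  have hS2 : Real.exp (t * u y - 1) ≤ N * S := by
    calc Real.exp (t * u y - 1) ≤ (N * ∑ i ∈ s, χ i y ^ 2) * Real.exp (t * u y - 1) :=
          le_mul_of_one_le_left (Real.exp_pos _).le hsq2
      _ = N * ∑ i ∈ s, χ i y ^ 2 * Real.exp (t * u y - 1) := by rw [mul_assoc, Finset.sum_mul]
      _ ≤ N * S := mul_le_mul_of_nonneg_left (Finset.sum_le_sum fun i hi =>
          mul_le_mul_of_nonneg_left (Real.exp_le_exp.2 (hwu i hi).1) (sq_nonneg _)) hN0
  have hS0 : 0 < S := (pos_iff_pos_of_mul_pos ((Real.exp_pos _).trans_le hS2)).1 hNpos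
  obtain ⟨k1, k2⟩ := key hL s (χ := χ) (w := fun i x => t * w i x)
    (fun i _ => (hW i).1 y (hKW hy))
    (fun i hi => (sm_const t).mul (hw i y (hs1 i hi)).1.1) hS0
  have hev' : (fun x => t⁻¹ * Real.log (∑ i, χ i x ^ 2 * Real.exp (t * w i x))) =ᶠ[𝓝 y]
      fun x => t⁻¹ * Real.log (∑ i ∈ s, χ i x ^ 2 * Real.exp (t * w i x)) :=
    hev.mono fun x hx => by simp only [hx]
  refine ⟨((sm_const t⁻¹).mul k1).congr hL hev', ?_, fun v => ?_⟩
  · rw [hev'.self_of_nhds]
    simp only [← hS]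
    have a : Real.log S ≤ t * u y + 1 := (Real.log_le_iff_le_exp hS0).2 hS1
    have b : t * u y - 1 ≤ Real.log N + Real.log S := by
      rw [← Real.log_mul hNpos.ne' hS0.ne']
      exact (Real.le_log_iff_exp_le (by positivity)).2 hS2
    have c : Real.log N ≤ N - 1 := Real.log_le_sub_one_of_pos hNpos
    have e : u y - t⁻¹ * Real.log S = t⁻¹ * (t * u y - Real.log S) := by field_simp
    rw [e, abs_mul, abs_of_pos (inv_pos.2 ht0), inv_mul_le_iff₀ ht0, abs_le]
    constructor <;> linarith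
  · rw [lev_congr hL hev', lev_const_mul k1, le_inv_mul_iff₀ ht0]
    refine le_trans ?_ (k2 v)
    rw [← hS, le_div_iff₀ hS0]
    have hv := nsq_nonneg v
    have a : ∀ i ∈ s, -(Real.exp (t * u y + 1) * (4 * M i * nsq v)) ≤ Real.exp (t * w i y) *
        (χ i y ^ 2 * lev D.p (fun x => t * w i x) y v + 2 * χ i y * lev D.p (χ i) y v -
          2 * grd D.p (χ i) y v) := fun i hi => by
      have b := hM i y hy v
      have c : 0 ≤ χ i y ^ 2 * lev D.p (fun x => t * w i x) y v :=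
        mul_nonneg (sq_nonneg _) (((hw i y (hs1 i hi)).1.const_mul ht0.le).2 v)
      have m : 0 ≤ M i * nsq v := mul_nonneg (hM0 i) hv
      have d : -(M i * nsq v) ≤ χ i y * lev D.p (χ i) y v := by
        nlinarith [(abs_le.1 b.1).1, h0 i y, hle i]
      calc -(Real.exp (t * u y + 1) * (4 * M i * nsq v))
          ≤ Real.exp (t * w i y) * -(4 * M i * nsq v) := by
            have := Real.exp_le_exp.2 (hwu i hi).2
            nlinarith
        _ ≤ _ := mul_le_mul_of_nonneg_left (by linarith [b.2]) (Real.exp_pos _).le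
    refine le_trans ?_ (Finset.sum_le_sum a)
    rw [Finset.sum_neg_distrib, ← Finset.mul_sum, ← Finset.sum_mul, ← Finset.mul_sum]
    have b : ∑ i ∈ s, M i ≤ ∑ i, M i :=
      Finset.sum_le_sum_of_subset_of_nonneg (Finset.subset_univ s) fun i _ _ => hM0 i
    have c : Real.exp (t * u y + 1) ≤ Real.exp 2 * (N * S) := by
      rw [show t * u y + 1 = 2 + (t * u y - 1) by ring, Real.exp_add]
      exact mul_le_mul_of_nonneg_left hS2 (Real.exp_pos _).le
    have d : 4 * N * Real.exp 2 * ∑ i, M i ≤ t * ε := by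
      rw [← div_le_iff₀ hε]
      linarith
    calc t * -(ε * nsq v) * S = -(t * ε * (nsq v * S)) := by ring
      _ ≤ -((4 * N * Real.exp 2 * ∑ i, M i) * (nsq v * S)) :=
          neg_le_neg (mul_le_mul_of_nonneg_right d (by positivity))
      _ = -(Real.exp 2 * (N * S) * ((4 * ∑ i, M i) * nsq v)) := by ring
      _ ≤ _ := by
          have : 0 ≤ ∑ i ∈ s, M i := Finset.sum_nonneg fun i _ => hM0 i
          gcongr

theorem stRICH (hCUT : St_CUT) (_hLOCB : St_LOCB) : St_RICH := stRICH' hCUT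

end Pool.Agent.Lib.SV
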