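import Pool.Agent.Lib.SV.Blue2

/-! Sub-mean value inequality for sections. -/

open scoped Classical Topology ENNReal
open Set MeasureTheory Complex Filter Metric

noncomputable section

namespace Pool.Agent.Lib.SV

namespace SUBM

theorem nr_pow {n : ℕ} {C : Ctx n} {a b : ℕ} {g : C.ι → C.Y → ℂ} (hg : g ∈ C.Sec a b) {i : C.ι}
    {y : C.Y} (hy : y ∈ C.W i) (e : ℝ) :
    C.nr a b g y ^ (e / 2) = Real.exp (-C.wt a b i y * (e / 2)) * ‖g i y‖ ^ e := by
  rw [Ctx.nr_eq hg hy, Real.mul_rpow (normSq_nonneg _) (Real.exp_pos _).le, ← Real.exp_mul,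
    normSq_eq_norm_sq, ← Real.rpow_natCast, ← Real.rpow_mul (norm_nonneg _), mul_comm]
  congr 2
  push_cast
  ring

theorem loc (hSUB : St_SUB) (hRM : St_RM) (hVOL : St_VOL) {n : ℕ} (C : Ctx n) (a b : ℕ) {e : ℝ}
    (he : 0 < e) (y0 : C.Y) : ∃ O ∈ 𝓝 y0, ∃ (K' : Set C.Y) (L : ℝ≥0∞), IsCompact K' ∧ L ≠ ∞ ∧
      ∀ g ∈ C.Sec a b, ∀ y ∈ O, ENNReal.ofReal (C.nr a b g y ^ (e / 2)) ≤
        L * ∫⁻ x in K', ENNReal.ofReal (C.nr a b g x ^ (e / 2)) ∂C.V := by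
  have h0 := Ctx.mem_ix y0
  generalize C.ix y0 = i at h0
  obtain ⟨K', hK, hK0⟩ := exists_compact_mem_nhds y0
  have c1 := (Metric.continuousAt_iff'.1
    ((Ctx.sm_wt (a := a) (b := b) h0).continuousAt (Ctx.locH h0))) 1 one_pos
  have c2 := (Metric.continuousAt_iff'.1 ((Ctx.sm_κ h0).continuousAt (Ctx.locH h0))) 1 one_pos
  obtain ⟨φ, r, hr, hφ, hy0, hs, ht⟩ := (C.rd i).exists_ball h0 (inter_mem hK0 (c1.and c2))
  have hβ0 : volume (ball (0 : E n) (r / 2)) ≠ 0 := (measure_ball_pos _ _ (by positivity)).ne'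
  have hβ1 : volume (ball (0 : E n) (r / 2)) ≠ ∞ := measure_ball_lt_top.ne
  refine ⟨φ.source ∩ C.q i ⁻¹' ball (C.q i y0) (r / 2), inter_mem (φ.open_source.mem_nhds hy0)
    ((Ctx.locH h0).continuousAt.preimage_mem_nhds (ball_mem_nhds _ (by positivity))), K',
    ENNReal.ofReal (Real.exp (e + 1 - C.κ i y0)) * (volume (ball (0 : E n) (r / 2)))⁻¹, hK,
    ENNReal.mul_ne_top ENNReal.ofReal_ne_top (ENNReal.inv_ne_top.2 hβ0), fun g hg y hy => ?_⟩
  have hb : ball (C.q i y) (r / 2) ⊆ φ.target := by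
    rw [ht]
    refine ball_subset_ball' ?_
    have := mem_ball.1 hy.2
    linarith
  have hd : DifferentiableOn ℂ (g i ∘ φ.symm) (ball (C.q i y) (r / 2)) := fun z hz => by
    have h1 := φ.map_target (hb hz)
    have h2 := (hφ.hol_iff h1).1 (hg.hol i _ (hφ.sub h1))
    rw [hφ.p_symm (hb hz)] at h2
    exact h2.differentiableWithinAt
  have h1 := hSUB (E n) volume (g i ∘ φ.symm) (C.q i y) (r / 2) e (by positivity) he hd
  rw [Measure.addHaar_ball_center, Function.comp_apply, hφ.symm_p hy.1] at h1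
  have h2 := (hRM n (C.dom i (C.W i) (C.rd i).opn Subset.rfl)).2.2.1 φ hφ
    fun x => ENNReal.ofReal (‖g i x‖ ^ e)
  have h3 : ENNReal.ofReal (‖g i y‖ ^ e) * volume (ball (0 : E n) (r / 2)) ≤
      ∫⁻ x in φ.source, ENNReal.ofReal (‖g i x‖ ^ e) ∂C.leb i :=
    h1.trans ((lintegral_mono_set hb).trans h2.ge)
  have h4 : ∫⁻ x in φ.source, ENNReal.ofReal (Real.exp (C.κ i x)) *
      ENNReal.ofReal (C.nr a b g x ^ (e / 2)) ∂C.leb i ≤
      ∫⁻ x in K', ENNReal.ofReal (C.nr a b g x ^ (e / 2)) ∂C.V := by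
    rw [← lintegral_indicator hK.measurableSet, (hVOL n C).2.1 i ⟨_, h0⟩,
      ← lintegral_indicator φ.open_source.measurableSet]
    refine lintegral_mono fun x => ?_
    by_cases hx : x ∈ φ.source
    · rw [indicator_of_mem hx, indicator_of_mem (hs hx).1]
    · rw [indicator_of_notMem hx]
      exact zero_le
  have h5 : ∀ x ∈ φ.source, ENNReal.ofReal (Real.exp (-C.wt a b i y * (e / 2))) *
      ENNReal.ofReal (‖g i x‖ ^ e) ≤ ENNReal.ofReal (Real.exp (e + 1 - C.κ i y0)) *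
        (ENNReal.ofReal (Real.exp (C.κ i x)) * ENNReal.ofReal (C.nr a b g x ^ (e / 2))) := by
    intro x hx
    rw [← ENNReal.ofReal_mul (Real.exp_pos _).le, ← ENNReal.ofReal_mul (Real.exp_pos _).le,
      ← ENNReal.ofReal_mul (Real.exp_pos _).le, nr_pow hg (hφ.sub hx), ← mul_assoc, ← mul_assoc,
      ← Real.exp_add, ← Real.exp_add]
    refine ENNReal.ofReal_le_ofReal (mul_le_mul_of_nonneg_right (Real.exp_le_exp.2 ?_)
      (by positivity))
    have k1 := abs_lt.1 ((Real.dist_eq _ _).symm.trans_lt (hs hx).2.1)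
    have k2 := abs_lt.1 ((Real.dist_eq _ _).symm.trans_lt (hs hx).2.2)
    have k3 := abs_lt.1 ((Real.dist_eq _ _).symm.trans_lt (hs hy.1).2.1)
    nlinarith [k1.2, k2.1, k3.1]
  rw [mul_right_comm, ← div_eq_mul_inv, ENNReal.le_div_iff_mul_le (Or.inl hβ0) (Or.inl hβ1),
    nr_pow hg (hφ.sub hy.1), ENNReal.ofReal_mul (Real.exp_pos _).le, mul_assoc]
  refine (mul_le_mul_right h3 _).trans ?_
  rw [← lintegral_const_mul' _ _ ENNReal.ofReal_ne_top]
  refine (setLIntegral_mono' φ.open_source.measurableSet h5).trans ?_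
  rw [lintegral_const_mul' _ _ ENNReal.ofReal_ne_top]
  exact mul_le_mul_right h4 _

end SUBM

theorem stSUBM (hSUB : St_SUB) (hRM : St_RM) (hVOL : St_VOL) : St_SUBM := by
  intro n C a b e K he hK
  refine hK.induction_on (p := fun S => ∃ (K' : Set C.Y) (L : ℝ≥0∞), IsCompact K' ∧ L ≠ ∞ ∧
    ∀ g ∈ C.Sec a b, ∀ y ∈ S, ENNReal.ofReal (C.nr a b g y ^ (e / 2)) ≤
      L * ∫⁻ x in K', ENNReal.ofReal (C.nr a b g x ^ (e / 2)) ∂C.V) ?_ ?_ ?_ ?_
  · exact ⟨∅, 0, isCompact_empty, ENNReal.zero_ne_top, fun _ _ _ h => h.elim⟩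
  · rintro s t hst ⟨K', L, h1, h2, h3⟩
    exact ⟨K', L, h1, h2, fun g hg y hy => h3 g hg y (hst hy)⟩
  · rintro s t ⟨K1, L1, h1, h2, h3⟩ ⟨K2, L2, k1, k2, k3⟩
    refine ⟨K1 ∪ K2, L1 + L2, h1.union k1, ENNReal.add_ne_top.2 ⟨h2, k2⟩, fun g hg y hy => ?_⟩
    rcases hy with hy | hy
    · exact (h3 g hg y hy).trans (mul_le_mul' le_self_add (lintegral_mono_set subset_union_left))
    · exact (k3 g hg y hy).trans (mul_le_mul' le_add_self (lintegral_mono_set subset_union_right))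
  · intro y _
    obtain ⟨O, hO, h⟩ := SUBM.loc hSUB hRM hVOL C a b he y
    exact ⟨O, mem_nhdsWithin_of_mem_nhds hO, h⟩

end Pool.Agent.Lib.SV
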