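import Pool.Agent.Lib.SV.Blue2

/-! Decay and summability of a section with finite `L^e` norm. -/

open scoped Classical Topology ENNReal
open Set MeasureTheory Complex Filter Metric

noncomputable section

namespace Pool.Agent.Lib.SV

namespace TAIL

variable {n : ℕ} {C : Ctx n}

theorem mult {K : Set C.Y} (hK : IsCompact K) : ∃ m : ℕ, ∀ (x : C.Y) (t : ℝ≥0∞),
    ∑' γ : C.Γ, (if γ⁻¹ • x ∈ K then t else 0) ≤ m * t := by
  have hS := C.pd K K hK hK
  refine ⟨hS.toFinset.card, fun x t => ?_⟩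
  by_cases h : ∃ γ : C.Γ, γ⁻¹ • x ∈ K
  · obtain ⟨γ0, h0⟩ := h
    rw [← (Equiv.mulLeft γ0).tsum_eq, tsum_eq_sum (s := hS.toFinset)]
    · refine (Finset.sum_le_card_nsmul _ _ t fun δ _ => ?_).trans (nsmul_eq_mul _ _).le
      split_ifs
      exacts [le_rfl, zero_le]
    · intro δ hδ
      refine if_neg fun h1 => hδ (hS.mem_toFinset.2 ⟨_, h1, ?_⟩)
      rw [smul_smul]
      simpa using h0
  · simp only [not_exists] at h
    simp [h]

theorem key (hSUBM : St_SUBM) (hVOL : St_VOL) {a b : ℕ} {e : ℝ} {g : C.ι → C.Y → ℂ} (he : 0 < e)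
    (hg : g ∈ C.Sec a b) (hL : C.Lp a b e g) {K : Set C.Y} (hK : IsCompact K) :
    ∃ c : C.Γ → ℝ, Summable c ∧ (∀ γ, 0 ≤ c γ) ∧
      ∀ γ, ∀ y ∈ K, C.nr a b g (γ • y) ^ (e / 2) ≤ c γ := by
  obtain ⟨K', L, hK', hL', h⟩ := hSUBM n C a b e K he hK
  obtain ⟨m, hm⟩ := mult hK'
  have hF : Measurable fun x => ENNReal.ofReal (C.nr a b g x ^ (e / 2)) :=
    ((Ctx.continuous_nr hg).rpow_const fun _ => Or.inr (by positivity)).measurable.ennreal_ofReal
  have hG : ∀ γ : C.Γ, Measurable fun x =>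
      if γ⁻¹ • x ∈ K' then ENNReal.ofReal (C.nr a b g x ^ (e / 2)) else 0 := fun γ =>
    Measurable.ite ((C.continuous_smul γ⁻¹).measurable hK'.measurableSet) hF measurable_const
  have hI : ∀ γ : C.Γ, ∫⁻ x in K', ENNReal.ofReal (C.nr a b (C.tl γ g) x ^ (e / 2)) ∂C.V =
      ∫⁻ x, (if γ⁻¹ • x ∈ K' then ENNReal.ofReal (C.nr a b g x ^ (e / 2)) else 0) ∂C.V := by
    intro γ
    rw [← ((hVOL n C).2.2.2 γ).lintegral_comp (hG γ), ← lintegral_indicator hK'.measurableSet]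
    refine lintegral_congr fun x => ?_
    rw [inv_smul_smul, indicator_apply, Ctx.nr_tl hg]
  have hT : ∑' γ : C.Γ,
      L * ∫⁻ x in K', ENNReal.ofReal (C.nr a b (C.tl γ g) x ^ (e / 2)) ∂C.V ≠ ∞ := by
    rw [ENNReal.tsum_mul_left]
    refine ENNReal.mul_ne_top hL' ?_
    simp only [hI]
    rw [← lintegral_tsum fun γ => (hG γ).aemeasurable]
    refine ne_top_of_le_ne_top ?_ (lintegral_mono fun x => hm x _)
    rw [lintegral_const_mul _ hF]
    exact ENNReal.mul_ne_top (ENNReal.natCast_ne_top m) hL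
  refine ⟨_, ENNReal.summable_toReal hT, fun _ => ENNReal.toReal_nonneg, fun γ y hy => ?_⟩
  rw [← ENNReal.ofReal_le_iff_le_toReal (ENNReal.ne_top_of_tsum_ne_top hT γ), ← Ctx.nr_tl hg]
  exact h _ (Ctx.tl_mem hg γ) y hy

end TAIL

theorem stTAIL (hSUBM : St_SUBM) (hVOL : St_VOL) : St_TAIL := by
  intro n C a b e g he hg hL
  have h0 : ∀ y, 0 ≤ C.nr a b g y ^ (e / 2) := fun y => Real.rpow_nonneg (Ctx.nr_nonneg g y) _
  have hs : ∀ y, Summable fun γ : C.Γ => C.nr a b g (γ • y) ^ (e / 2) := fun y => by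
    obtain ⟨c, hc, -, h⟩ := TAIL.key hSUBM hVOL he hg hL (isCompact_singleton (x := y))
    exact hc.of_nonneg_of_le (fun _ => h0 _) fun γ => h γ y rfl
  obtain ⟨F, hF, hF'⟩ := C.fd
  obtain ⟨c, hc, hc0, h⟩ := TAIL.key hSUBM hVOL he hg hL hF
  refine ⟨⟨(∑' γ, c γ) ^ (e / 2)⁻¹, fun y => ?_⟩, ?_, hs, ⟨∑' γ, c γ, fun y => ?_⟩,
    fun K hK η hη => ?_⟩
  · obtain ⟨δ, hδ⟩ := hF' y
    have h1 := h δ⁻¹ _ hδ
    rw [inv_smul_smul] at h1
    rw [Real.le_rpow_inv_iff_of_pos (Ctx.nr_nonneg g y) (tsum_nonneg hc0) (by positivity)]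
    exact h1.trans (hc.le_tsum _ fun γ _ => hc0 γ)
  · refine Metric.tendsto_nhds.2 fun ε hε => ?_
    have h1 := eventually_cofinite.1
      (hc.tendsto_cofinite_zero.eventually (gt_mem_nhds (Real.rpow_pos_of_pos hε (e / 2))))
    refine mem_cocompact.2 ⟨_, h1.isCompact_biUnion fun γ _ => hF.image (C.continuous_smul γ),
      fun y hy => ?_⟩
    obtain ⟨δ, hδ⟩ := hF' y
    have h2 := h δ⁻¹ _ hδ
    rw [inv_smul_smul] at h2
    have h3 : c δ⁻¹ < ε ^ (e / 2) := by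
      by_contra h3
      exact hy (mem_biUnion (x := δ⁻¹) h3 ⟨_, hδ, inv_smul_smul _ _⟩)
    show dist (C.nr a b g y) 0 < ε
    rw [Real.dist_eq, sub_zero, abs_of_nonneg (Ctx.nr_nonneg g y)]
    exact (Real.rpow_lt_rpow_iff (Ctx.nr_nonneg g y) hε.le (by positivity)).1 (h2.trans_lt h3)
  · obtain ⟨δ, hδ⟩ := hF' y
    rw [← (Equiv.mulRight δ).tsum_eq]
    simp only [Equiv.coe_mulRight, mul_smul]
    exact (hs _).tsum_le_tsum (fun γ => h γ _ hδ) hc
  · obtain ⟨c', hc', -, h'⟩ := TAIL.key hSUBM hVOL he hg hL hK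
    obtain ⟨s, hs'⟩ := summable_iff_vanishing_norm.1 hc' η hη
    exact ⟨s, fun y hy t ht => (Finset.sum_le_sum fun γ _ => h' γ y hy).trans
      ((le_abs_self _).trans (hs' t ht).le)⟩

end Pool.Agent.Lib.SV
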