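import Pool.Agent.Lib.SV.Blue3
import Pool.Agent.Lib.SV.Top10

/-! A local change of the partition function does not change the integral. -/

open scoped Classical Topology ENNReal
open Set MeasureTheory Complex Filter Metric

noncomputable section

namespace Pool.Agent.Lib.SV

namespace TOP1

/-- The same covering with another base chart. -/
@[reducible] def re {n : ℕ} (C : Ctx n) (i : C.ι) (h : (C.P.U i).Nonempty) : Ctx n where
  X := C.X
  Y := C.Y
  Γ := C.Γ
  π := C.π
  cov := C.cov
  τ := C.τ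
  πτ := C.πτ
  pd := C.pd
  fd := C.fd
  P := { C.P with o := i }
  good :=
    { rd := C.good.rd
      cov := C.good.cov
      ne := h
      hol := C.good.hol
      secξ := fun j => ⟨(C.good.secξ j).hol, (C.good.secξ j).cmp, (C.good.secξ j).off⟩
      secj := fun j => ⟨(C.good.secj j).hol, (C.good.secj j).cmp, (C.good.secj j).off⟩
      secl := ⟨C.good.secl.hol, C.good.secl.cmp, C.good.secl.off⟩
      ξ1 := C.good.ξ1
      j1 := C.good.j1
      mem := C.good.mem
      ξ0 := C.good.ξ0
      d0 := C.good.d0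
      smφ := C.good.smφ
      smκ := C.good.smκ
      pos := C.good.pos
      relφ := C.good.relφ
      relκ := C.good.relκ
      ber := C.good.ber }

end TOP1

theorem stTOP1 (hWH : St_WH) (hRM : St_RM) (_hVOL : St_VOL) : St_TOP1 := by
  intro n C c i y _ hc hy
  have hne : (C.P.U i).Nonempty := ⟨_, hy⟩
  refine ⟨C.P.U i, (C.good.rd i).opn.mem_nhds hy, fun f f' hf hf' K hK hKU heq => ?_⟩
  have hR : IsRM (C.P.p i) (C.P.U i) (C.base.leb i) :=
    (hRM n (C.base.dom i (C.base.W i) (C.base.rd i).opn subset_rfl)).1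
  have key := T10.top (C := TOP1.re C i hne) (c := c) (f := f) (f' := f') hR hc hK hKU
    ⟨hf.sm i, hf.cpt, hf.sum⟩ ⟨hf'.sm i, hf'.cpt, hf'.sum⟩ heq
  obtain ⟨a1, a2⟩ := (hWH n C c f hc hf).2.2.2.2.2.1 i hne
  obtain ⟨b1, b2⟩ := (hWH n C c f' hc hf').2.2.2.2.2.1 i hne
  have k2 : ∫ x, (C.wh c f' i (C.τ x) - C.wh c f i (C.τ x)) ∂C.base.leb i = 0 := key.2
  rw [integral_sub b1 a1, sub_eq_zero] at k2
  rw [a2, b2, k2]

end Pool.Agent.Lib.SV
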