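import Pool.Agent.Lib.SV.Blue4

/-! Topology of a Galois covering of a compact manifold. -/

open scoped Classical Topology
open Set Filter

noncomputable section

namespace Pool.Agent.Lib.SV

namespace TOPO

variable {X Y Γ : Type} [TopologicalSpace X] [TopologicalSpace Y] [Group Γ] [MulAction Γ Y]
  {π : Y → X}

/-- A local homeomorphism gives charts with values in the target. -/
@[reducible] def cs (h : IsLocalHomeomorph π) : ChartedSpace X Y where
  atlas := univ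
  chartAt y := (h y).choose
  mem_chart_source y := (h y).choose_spec.1
  chart_mem_atlas _ := mem_univ _

theorem t2 [T2Space X] (h : IsCoveringMap π) : T2Space Y := by
  refine ⟨fun a b hab => ?_⟩
  by_cases e : π a = π b
  · exact h.isSeparatedMap a b e hab
  · exact separated_by_continuous h.continuous e

theorem loc [T2Space X] (h : IsQuotientCoveringMap π Γ) (p : Y × Y) :
    ∃ S ∈ 𝓝 p, {γ : Γ | ∃ q ∈ S, γ • q.1 = q.2}.Finite := by
  have hπ : ∀ (γ : Γ) y, π (γ • y) = π y := fun γ y => h.map_smul γ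
  by_cases e : π p.2 = π p.1
  · obtain ⟨g, hg⟩ := h.apply_eq_iff_mem_orbit.1 e
    obtain ⟨U, hU, hd⟩ := h.disjoint p.1
    have h1 : (fun y => g⁻¹ • y) ⁻¹' U ∈ 𝓝 p.2 :=
      (h.continuous_const_smul g⁻¹).continuousAt.preimage_mem_nhds
        (by rw [← hg]; simpa using hU)
    refine ⟨U ×ˢ _, prod_mem_nhds hU h1, (finite_singleton g).subset ?_⟩
    rintro γ ⟨q, ⟨h2, h3⟩, h4⟩
    have := hd (g⁻¹ * γ) ⟨_, ⟨q.1, h2, rfl⟩, by
      show (g⁻¹ * γ) • q.1 ∈ U
      rw [mul_smul, h4]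
      exact h3⟩
    exact (inv_mul_eq_one.1 this).symm
  · obtain ⟨A, B, hA, hB, a, b, hd⟩ := t2_separation e
    refine ⟨(π ⁻¹' B) ×ˢ (π ⁻¹' A), prod_mem_nhds ((hB.preimage h.continuous).mem_nhds b)
      ((hA.preimage h.continuous).mem_nhds a), finite_empty.subset ?_⟩
    rintro γ ⟨q, ⟨h2, h3⟩, h4⟩
    rw [← h4, mem_preimage, hπ] at h3
    exact disjoint_left.1 hd h3 h2

theorem pd [T2Space X] (h : IsQuotientCoveringMap π Γ) {K L : Set Y} (hK : IsCompact K)
    (hL : IsCompact L) : {γ : Γ | ∃ y ∈ K, γ • y ∈ L}.Finite := by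
  have key : {γ : Γ | ∃ q ∈ K ×ˢ L, γ • q.1 = q.2}.Finite := by
    refine (hK.prod hL).induction_on
      (p := fun S => {γ : Γ | ∃ q ∈ S, γ • q.1 = q.2}.Finite) (by simp) ?_ ?_ ?_
    · exact fun s t hst ht => ht.subset fun γ ⟨q, hq, e⟩ => ⟨q, hst hq, e⟩
    · refine fun s t hs ht => (hs.union ht).subset ?_
      rintro γ ⟨q, hq | hq, e⟩
      exacts [Or.inl ⟨q, hq, e⟩, Or.inr ⟨q, hq, e⟩]
    · intro p _
      obtain ⟨S, hS, hf⟩ := loc h p
      exact ⟨S, mem_nhdsWithin_of_mem_nhds hS, hf⟩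
  exact key.subset fun γ ⟨y, hy, h1⟩ => ⟨(y, γ • y), ⟨hy, h1⟩, rfl⟩

theorem fd [CompactSpace X] [LocallyCompactSpace Y] (h : IsQuotientCoveringMap π Γ) :
    ∃ F : Set Y, IsCompact F ∧ ∀ y : Y, ∃ γ : Γ, γ • y ∈ F := by
  choose τ hτ using h.surjective
  choose K hK hK' using fun y : Y => exists_compact_mem_nhds y
  obtain ⟨t, ht⟩ := CompactSpace.elim_nhds_subcover (fun x => π '' K (τ x)) fun x => by
    have := h.isCoveringMap.isLocalHomeomorph.isOpenMap.image_mem_nhds (hK' (τ x))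
    rwa [hτ] at this
  refine ⟨⋃ x ∈ t, K (τ x), t.isCompact_biUnion fun x _ => hK _, fun y => ?_⟩
  obtain ⟨x, hx, y', hy', e⟩ := mem_iUnion₂.1 (ht.ge (mem_univ (π y)))
  obtain ⟨γ, hγ⟩ := h.apply_eq_iff_mem_orbit.1 e
  exact ⟨γ, mem_iUnion₂.2 ⟨x, hx, (show γ • y = y' from hγ) ▸ hy'⟩⟩

end TOPO

theorem stTOPO : St_TOPO := by
  intro n X Y Γ _ _ _ _ _ _ _ _ π h
  have h1 : SecondCountableTopology X := ChartedSpace.secondCountable_of_sigmaCompact (E n) X
  let _ := TOPO.cs h.isCoveringMap.isLocalHomeomorph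
  have h2 : LocallyCompactSpace Y := ChartedSpace.locallyCompactSpace X Y
  obtain ⟨F, hF, hF'⟩ := TOPO.fd h
  have h3 : SigmaCompactSpace Y := SigmaCompactSpace.of_countable
    (range fun γ : Γ => (fun y => γ • y) '' F) (countable_range _)
    (by rintro _ ⟨γ, rfl⟩; exact hF.image (h.continuous_const_smul γ))
    (eq_univ_of_forall fun y => by
      obtain ⟨γ, hγ⟩ := hF' y
      exact ⟨_, ⟨γ⁻¹, rfl⟩, _, hγ, inv_smul_smul _ _⟩)
  exact ⟨h1, TOPO.t2 h.isCoveringMap, ChartedSpace.secondCountable_of_sigmaCompact X Y, h2,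
    fun K L hK hL => TOPO.pd h hK hL, F, hF, hF'⟩

end Pool.Agent.Lib.SV
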