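import Pool.Agent.Lib.SV.Blue2

/-! Change of chart. -/

open scoped Classical Topology
open Set Complex Filter

noncomputable section

namespace Pool.Agent.Lib.SV

namespace TR

variable {n : ℕ} {C : Ctx n} {i j : C.ι} {y : C.Y}

theorem tr_self (hj : y ∈ C.W j) : C.P.tr i j (C.π y) (C.q j y) = C.q i y :=
  congrArg (C.P.p i) (Ctx.locH_base hj).lift_self

theorem comp_tr (hi : y ∈ C.W i) (hj : y ∈ C.W j) {β : Type} (f : C.Y → β) :
    f ∘ lift (C.q j) y =ᶠ[𝓝 (C.q j y)] (f ∘ lift (C.q i) y) ∘ C.P.tr i j (C.π y) := by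
  filter_upwards [(Ctx.locH hj).tendsto_lift.eventually (Ctx.locH hi).lift_p, Ctx.lift_π hj]
    with w h1 h2
  simp only [Function.comp_apply, Pre.tr, h2] at h1 ⊢
  rw [h1]

theorem near (hi : y ∈ C.W i) (hj : y ∈ C.W j) : ∀ᶠ x in 𝓝 y, x ∈ C.W i ∧ x ∈ C.W j :=
  Eventually.and ((C.rd i).opn.mem_nhds hi) ((C.rd j).opn.mem_nhds hj)

theorem tr_diff (hi : y ∈ C.W i) (hj : y ∈ C.W j) :
    ∀ᶠ w in 𝓝 (C.q j y), DifferentiableAt ℂ (C.P.tr i j (C.π y)) w := by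
  have h := Ctx.locH_base hj
  filter_upwards [h.tendsto_lift.eventually ((C.good.rd i).opn.mem_nhds hi),
    h.tendsto_lift.eventually ((C.good.rd j).opn.mem_nhds hj),
    h.tendsto_lift.eventually h.lift_near, h.p_lift] with w h1 h2 h3 h4
  have h5 := (C.good.hol i j _ h1 h2).congr_of_eventuallyEq (h3.fun_comp (C.P.p i)).symm
  rwa [h4] at h5

theorem tr_smooth (hSMO : St_SMO) (hi : y ∈ C.W i) (hj : y ∈ C.W j) (k : ℕ) :
    ContDiffAt ℝ k (C.P.tr i j (C.π y)) (C.q j y) := by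
  obtain ⟨U, hU, ho, hz⟩ := mem_nhds_iff.1 (tr_diff hi hj)
  exact ((hSMO n (E n) U _ ho (fun w hw => (hU hw).differentiableWithinAt) k).contDiffAt
    (ho.mem_nhds hz)).restrict_scalars ℝ

theorem sm (hSMO : St_SMO) (hi : y ∈ C.W i) (hj : y ∈ C.W j) {F : Type} [NormedAddCommGroup F]
    [NormedSpace ℝ F] {k : ℕ} {f : C.Y → F} (hf : Sm (C.q i) k f y) : Sm (C.q j) k f y :=
  (ContDiffAt.comp _ (by rwa [tr_self hj]) (tr_smooth hSMO hi hj k)).congr_of_eventuallyEq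
    (comp_tr hi hj f)

theorem lev_eq (hLEVC : St_LEVC) (hi : y ∈ C.W i) (hj : y ∈ C.W j) {f : C.Y → ℝ}
    (hf : Sm (C.q i) 2 f y) (v : E n) :
    lev (C.q j) f y v = lev (C.q i) f y (C.P.T i j (C.π y) v) := by
  rw [lev, levE_congr (comp_tr hi hj f), hLEVC n _ _ _ v (tr_diff hi hj) (by rwa [tr_self hj]),
    tr_self hj]
  rfl

theorem lev_log (hFS : St_FS) {Y : Type} [TopologicalSpace Y] {p : Y → E n} {y : Y} (h : LocH p y)
    {u : Y → ℂ} (hu : ∀ᶠ x in 𝓝 y, Hol p u x) (h0 : u y ≠ 0) :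
    Sm p 2 (fun x => Real.log (normSq (u x))) y ∧
      ∀ v, lev p (fun x => Real.log (normSq (u x))) y v = 0 := by
  have h1 := hFS n Unit (fun w _ => u (lift p y w)) (p y) 0 le_rfl (by
    filter_upwards [h.tendsto_lift.eventually hu, h.tendsto_lift.eventually h.lift_near, h.p_lift]
      with w h1 h2 h3
    have h4 := DifferentiableAt.congr_of_eventuallyEq h1 (h2.fun_comp u).symm
    rw [h3] at h4
    exact differentiableAt_pi.2 fun _ => h4) (by simpa [nsq, h.lift_self] using h0)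
  simp only [nsq, Finset.univ_unique, Finset.sum_singleton, add_zero, map_mul, normSq_conj] at h1
  refine ⟨h1.1, fun v => (h1.2 v).1.trans ?_⟩
  rw [mul_comm (normSq _), sub_self, mul_zero, zero_div]

theorem lev_rel (hSMO : St_SMO) (hLEVC : St_LEVC) (hFS : St_FS) (hi : y ∈ C.W i) (hj : y ∈ C.W j)
    {f g : C.Y → ℝ} {u : C.Y → ℂ} (hf : Sm (C.q i) 2 f y)
    (hu : ∀ x, x ∈ C.W i → x ∈ C.W j → Hol (C.q j) u x ∧ g x = f x + Real.log (normSq (u x)))
    (h0 : u y ≠ 0) (v : E n) : lev (C.q j) g y v = lev (C.q i) f y (C.P.T i j (C.π y) v) := by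
  obtain ⟨h1, h2⟩ := lev_log hFS (Ctx.locH hj) ((near hi hj).mono fun x hx => (hu x hx.1 hx.2).1) h0
  rw [lev_congr (Ctx.locH hj) ((near hi hj).mono fun x hx => (hu x hx.1 hx.2).2),
    lev_add (sm hSMO hi hj hf) h1, h2, add_zero, lev_eq hLEVC hi hj hf]

theorem jac_eq {x : C.X} (hi : x ∈ C.P.U i) (hj : x ∈ C.P.U j) :
    C.P.jac i j x = C.P.d i j x * C.P.ξ i j x ^ (n + 1) := by
  rw [(C.good.secj i).cmp i j x hi hj, C.good.j1 i x hi, one_mul, pow_one]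

theorem hol_ξ (hj : y ∈ C.W j) : Hol (C.q j) (fun x => C.P.ξ i j (C.π x)) y :=
  (Ctx.hol_π hj).2 ((C.good.secξ i).hol j _ hj)

theorem hol_d (hi : y ∈ C.W i) (hj : y ∈ C.W j) : Hol (C.q j) (fun x => C.P.d i j (C.π x)) y := by
  have h1 : Hol (C.q j) (fun x => C.P.jac i j (C.π x)) y :=
    (Ctx.hol_π hj).2 ((C.good.secj i).hol j _ hj)
  have h2 : Hol (C.q j) (fun x => C.P.jac i j (C.π x) * (C.P.ξ i j (C.π x) ^ (n + 1))⁻¹) y :=
    DifferentiableAt.mul h1 (DifferentiableAt.inv (DifferentiableAt.pow (hol_ξ hj) (n + 1)) (by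
      change C.P.ξ i j (C.π (lift (C.q j) y (C.q j y))) ^ (n + 1) ≠ 0
      rw [(Ctx.locH hj).lift_self]
      exact pow_ne_zero (n + 1) (C.good.ξ0 i j _ hi hj)))
  refine h2.congr (Ctx.locH hj) ((near hi hj).mono fun x hx => ?_)
  exact (eq_mul_inv_iff_mul_eq₀ (pow_ne_zero _ (C.good.ξ0 i j _ hx.1 hx.2))).2 (jac_eq hx.1 hx.2).symm

theorem d_mul {k : C.ι} {x : C.X} (hi : x ∈ C.P.U i) (hj : x ∈ C.P.U j) (hk : x ∈ C.P.U k) :
    C.P.d i k x = C.P.d i j x * C.P.d j k x := by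
  have h1 := (C.good.secj i).cmp j k x hj hk
  have h2 := (C.good.secξ i).cmp j k x hj hk
  refine mul_right_cancel₀ (pow_ne_zero (n + 1) (C.good.ξ0 i k x hi hk)) ?_
  rw [← jac_eq hi hk, h1, h2, jac_eq hi hj]
  ring

end TR

open TR in
theorem stTR (hSMO : St_SMO) (hLEVC : St_LEVC) (hFS : St_FS) : St_TR := by
  intro n C i j y hi hj
  have hd := (tr_diff hi hj).self_of_nhds
  refine ⟨fun F _ _ k f hf => sm hSMO hi hj hf, fun f hf => ?_, fun f hf v => ?_,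
    fun f hf v => lev_eq hLEVC hi hj hf v, fun v => ?_, fun v => ?_, fun k hk => d_mul hi hj hk,
    hol_d hi hj, ?_⟩
  · exact (DifferentiableAt.comp _ (by rwa [tr_self hj]) hd).congr_of_eventuallyEq (comp_tr hi hj f)
  · have h1 := (Sm.differentiableAt hf).hasFDerivAt
    rw [← tr_self hj] at h1
    rw [dd, (comp_tr hi hj f).fderiv_eq, (h1.comp _ (hd.hasFDerivAt.restrictScalars ℝ)).fderiv,
      tr_self hj]
    rfl
  · exact lev_rel hSMO hLEVC hFS hi hj (Ctx.sm_φ hi)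
      (fun x h1 h2 => ⟨hol_ξ h2, C.good.relφ i j _ h1 h2⟩) (C.good.ξ0 i j _ hi hj) v
  · exact lev_rel hSMO hLEVC hFS hi hj (Ctx.sm_κ hi)
      (fun x h1 h2 => ⟨hol_d h1 h2, C.good.relκ i j _ h1 h2⟩) (C.good.d0 i j _ hi hj) v
  · exact (LinearMap.det_restrictScalars (R := ℝ) (S := ℂ)
      (f := (C.P.T i j (C.π y) : E n →ₗ[ℂ] E n))).trans (Algebra.norm_complex_apply _)

end Pool.Agent.Lib.SV
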