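import Pool.Agent.Lib.SV.Blue2

/-! The logarithm of the norm of a section. -/

open scoped Classical Topology
open Set Complex Filter

namespace Pool.Agent.Lib.SV

namespace W0

variable {n : ℕ} {Y : Type} [TopologicalSpace Y] {p : Y → E n} {y : Y}

theorem hol_ev {g : Y → ℂ} (h : LocH p y) (hg : ∀ᶠ x in 𝓝 y, Hol p g x) :
    ∀ᶠ w in 𝓝 (p y), DifferentiableAt ℂ (g ∘ lift p y) w := by
  filter_upwards [h.tendsto_lift.eventually hg, h.tendsto_lift.eventually h.lift_near, h.p_lift]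
    with w h1 h2 h3
  have h4 := (h2.fun_comp g).differentiableAt_iff (𝕜 := ℂ) |>.1 h1
  rwa [h3] at h4

theorem log_hol (hFS : St_FS) {g : Y → ℂ} (h : LocH p y) (hg : ∀ᶠ x in 𝓝 y, Hol p g x)
    (h0 : g y ≠ 0) : Sm p 2 (fun x => Real.log (normSq (g x))) y ∧
      ∀ v, lev p (fun x => Real.log (normSq (g x))) y v = 0 := by
  have hd : ∀ᶠ w in 𝓝 (p y), DifferentiableAt ℂ (fun w (_ : Unit) => (g ∘ lift p y) w) w := by
    filter_upwards [hol_ev h hg] with w hw using differentiableAt_pi.2 fun _ => hw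
  have hp : 0 < nsq ((fun w (_ : Unit) => (g ∘ lift p y) w) (p y)) + 0 := by
    simp only [nsq, Finset.univ_unique, Finset.sum_singleton, Function.comp_apply, h.lift_self,
      add_zero]
    exact normSq_pos.2 h0
  obtain ⟨h1, h2⟩ := hFS n Unit _ (p y) 0 le_rfl hd hp
  have e : (fun w => Real.log (nsq ((fun w (_ : Unit) => (g ∘ lift p y) w) w) + 0)) =
      (fun x => Real.log (normSq (g x))) ∘ lift p y := by
    funext w
    simp [nsq]
  rw [e] at h1
  refine ⟨h1, fun v => ?_⟩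
  have h3 := (h2 v).1
  rw [e] at h3
  rw [lev, h3]
  simp only [nsq, Finset.univ_unique, Finset.sum_singleton, add_zero, map_mul, normSq_conj]
  rw [mul_comm (normSq _) (normSq _), sub_self, mul_zero, zero_div]

end W0

theorem stW0 (hBD : St_BD) (hFS : St_FS) : St_W0 := by
  intro n C i a b σ hσ
  obtain ⟨M, hM, hκ⟩ := (hBD n C.base).2
  obtain ⟨B, hB⟩ := (isCompact_range (Ctx.continuous_nr hσ)).bddAbove
  have hM' : 0 ≤ (a : ℝ) * M + b := by positivity
  refine ⟨|B| + (a * M + b), by positivity, fun x => ?_, fun x hx hi => ?_⟩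
  · have h1 : C.base.nr a b σ x ≤ B := hB (mem_range_self x)
    have h2 := Real.add_one_le_exp (|B| + (a * M + b))
    linarith [le_abs_self B]
  · have hi' : x ∈ C.base.W i := hi
    have hl : LocH (C.P.p i) x := Ctx.locH (C := C.base) hi'
    have hU : ∀ᶠ z in 𝓝 x, z ∈ C.base.W i := (C.base.rd i).opn.mem_nhds hi'
    obtain ⟨s1, l1⟩ := W0.log_hol hFS (g := σ i) hl
      (hU.mono fun z hz => (Ctx.mem_Sec.1 hσ).hol i z hz)
      (mt (Ctx.nr_eq_zero hσ hi').2 hx)
    have e : (fun z => Real.log (C.base.nr a b σ z)) =ᶠ[𝓝 x]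
        fun z => Real.log (normSq (σ i z)) - C.base.wt a b i z := by
      filter_upwards [hU, (C.isOpen_nz hσ).mem_nhds hx] with z hz hz'
      have h0 : σ i z ≠ 0 := mt (Ctx.nr_eq_zero hσ hz).2 hz'
      rw [Ctx.nr_eq hσ hz, Real.log_mul (normSq_pos.2 h0).ne' (Real.exp_pos _).ne', Real.log_exp]
      ring
    have s2 : Sm (C.P.p i) 2 (C.base.wt a b i) x := Ctx.sm_wt (C := C.base) hi'
    refine ⟨(s1.sub s2).congr hl e, fun v => ?_⟩
    have sκ : Sm (C.P.p i) 2 (C.base.κ i) x := Ctx.sm_κ (C := C.base) hi'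
    have sφ : Sm (C.P.p i) 2 (C.base.φ i) x := Ctx.sm_φ (C := C.base) hi'
    have e2 : lev (C.P.p i) (C.base.wt a b i) x v =
        a * lev (C.P.p i) (C.base.κ i) x v + b * C.base.om i x v := by
      have := lev_add ((sm_const (a : ℝ)).mul sκ) ((sm_const (b : ℝ)).mul sφ) v
      rw [lev_const_mul sκ, lev_const_mul sφ] at this
      exact this
    have ho : 0 ≤ C.base.om i x v := Ctx.om_nonneg (C := C.base) hi' v
    have hk : |lev (C.P.p i) (C.base.κ i) x v| ≤ M * C.base.om i x v := hκ i x hi' v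
    rw [lev_congr hl e, lev_sub s1 s2, l1, zero_sub, abs_neg, e2]
    have ha : (0 : ℝ) ≤ a := Nat.cast_nonneg a
    have hb : (0 : ℝ) ≤ b := Nat.cast_nonneg b
    calc |a * lev (C.P.p i) (C.base.κ i) x v + b * C.base.om i x v|
        ≤ |a * lev (C.P.p i) (C.base.κ i) x v| + |b * C.base.om i x v| := abs_add_le _ _
      _ = a * |lev (C.P.p i) (C.base.κ i) x v| + b * C.base.om i x v := by
        rw [abs_mul, abs_of_nonneg ha, abs_of_nonneg (mul_nonneg hb ho)]
      _ ≤ a * (M * C.base.om i x v) + b * C.base.om i x v := by gcongr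
      _ ≤ (|B| + (a * M + b)) * C.base.om i x v := by
        nlinarith [mul_nonneg (abs_nonneg B) ho]

end Pool.Agent.Lib.SV
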