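import Pool.Agent.Lib.SV.Blue3
import Pool.Agent.Lib.SV.Top10

/-! Pointwise bound for the Whitney form. -/

open scoped Classical Topology ENNReal
open Set MeasureTheory Complex Filter Metric

noncomputable section

namespace Pool.Agent.Lib.SV

theorem stWB : St_WB := by
  intro n C c f P L hc hf hL y hy h
  have key := T10.wh_bound hc hf.cpt (Eventually.of_forall hf.sum)
    (fun γ => (Ctx.sm_smul hy γ⁻¹).2
      ((hf.sm C.o _ ((Ctx.smul_mem_W γ⁻¹).2 hy)).of_le (by norm_num))) P (Real.sqrt_nonneg L)
    fun v => by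
      rw [← Real.sqrt_mul hL]
      exact Real.le_sqrt_of_sq_le (h v)
  rwa [mul_comm n 2, pow_mul, Real.sq_sqrt hL, mul_comm 2 n] at key

end Pool.Agent.Lib.SV
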