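import Pool.Agent.Lib.SV.Blue3
import Pool.Agent.Lib.SV.Top10

/-! Invariance, change of chart, continuity, bound and locality of the Whitney form. -/

open scoped Classical Topology ENNReal
open Set MeasureTheory Complex Filter Metric

noncomputable section

namespace Pool.Agent.Lib.SV

namespace WH

variable {n : ℕ} {C : Ctx n} {c : (Fin (n * 2 + 1) → C.Γ) → ℝ} {f : C.Y → ℝ} {i j : C.ι} {y : C.Y}

theorem sm_tl (hf : C.Adm f) (hy : y ∈ C.W i) (g : C.Γ) : Sm (C.q i) 2 (fun x => f (g • x)) y :=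
  (Ctx.sm_smul hy g).2 (hf.sm i _ ((Ctx.smul_mem_W g).2 hy))

theorem chart (hTR : St_TR) (hf : C.Adm f) (hi : y ∈ C.W i) (hj : y ∈ C.W j) :
    C.wh c f j y = C.wh c f i y * normSq (C.P.d i j (C.π y)) := by
  obtain ⟨F, hF⟩ := T10.near_fin hf.cpt y
  have hF' : ∀ g, g ∉ F → ∀ᶠ x in 𝓝 y, f (g⁻¹ • x) = 0 := fun g hg => hF.mono fun x hx => hx g hg
  obtain ⟨-, -, h3, -, -, -, -, -, h9⟩ := hTR n C i j y hi hj
  have key := H10.wT_comp (fun g : Fin (n * 2 + 1) → F => c fun k => g k)
    (fun t => f ((t : C.Γ)⁻¹ • y)) (T10.frB n)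
    (fun t : F => (dd (C.q i) (fun x => f ((t : C.Γ)⁻¹ • x)) y).toLinearMap)
    ((C.P.T i j (C.π y)).restrictScalars ℝ).toLinearMap
  have h9' : LinearMap.det ((C.P.T i j (C.π y)).restrictScalars ℝ).toLinearMap =
      normSq (C.P.d i j (C.π y)) := h9
  rw [h9'] at key
  simp only [T10.frB_apply] at key
  rw [T10.wh_fin F hF', T10.wh_fin F hF']
  refine Eq.trans ?_ (key.trans (mul_comm _ _))
  congr 1
  funext b t
  exact h3 _ ((sm_tl hf hi _).of_le (by norm_num)) _

theorem cont (hf : C.Adm f) (hy : y ∈ C.W i) : ContinuousAt (C.wh c f i) y := by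
  obtain ⟨F, hF⟩ := T10.near_fin hf.cpt y
  refine ContinuousAt.congr (f := fun x => H10.wT (fun g : Fin (n * 2 + 1) → F => c fun k => g k)
      (fun t => f ((t : C.Γ)⁻¹ • x))
      (fun b t => dd (C.q i) (fun z => f ((t : C.Γ)⁻¹ • z)) x (fr n b))) ?_ ?_
  · unfold H10.wT
    refine tendsto_finsetSum _ fun g _ => ?_
    refine (continuousAt_const.mul ((sm_tl hf hy _).continuousAt (Ctx.locH hy))).mul ?_
    refine (continuous_id.matrix_det.continuousAt).comp (f := fun x => Matrix.of fun a b =>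
      dd (C.q i) (fun z => f ((g (Fin.succ b) : C.Γ)⁻¹ • z)) x (fr n a)) ?_
    exact continuousAt_pi.2 fun a => continuousAt_pi.2 fun b =>
      (Sm.dd_apply (k := 1) (Ctx.locH hy) (sm_tl hf hy _) _).continuousAt (Ctx.locH hy)
  · filter_upwards [hF.eventually_nhds] with x hx
    exact (T10.wh_fin F fun g hg => hx.mono fun z hz => hz g hg).symm

theorem τ_mem {x : C.X} (hx : x ∈ C.P.U i) : C.τ x ∈ C.W i := by
  show C.π (C.τ x) ∈ C.P.U i
  rwa [C.πτ]

theorem cont_τ (hc : BddCocycle (n * 2) c) (hf : C.Adm f) {x : C.X} (hx : x ∈ C.P.U i) :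
    ContinuousAt (fun x => C.wh c f i (C.τ x)) x := by
  have h1 := C.isLocalHomeomorph.map_nhds_eq (C.τ x)
  rw [C.πτ] at h1
  unfold ContinuousAt
  rw [← h1, tendsto_map'_iff]
  refine (cont hf (τ_mem hx)).tendsto.congr' ?_
  filter_upwards [(C.rd i).opn.mem_nhds (τ_mem hx)] with z hz
  exact (T10.wh_τ hc hz).symm

theorem dens (hTR : St_TR) (hc : BddCocycle (n * 2) c) (hf : C.Adm f) :
    ∃ h : C.X → ℝ, Continuous h ∧
      ∀ i, ∀ x ∈ C.P.U i, C.wh c f i (C.τ x) = Real.exp (C.P.κ i x) * h x := by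
  let h : C.X → ℝ := fun x =>
    C.wh c f (C.base.ix x) (C.τ x) * Real.exp (-C.P.κ (C.base.ix x) x)
  have hh : ∀ i, ∀ x ∈ C.P.U i, h x = C.wh c f i (C.τ x) * Real.exp (-C.P.κ i x) := by
    intro i x hx
    have hx' : x ∈ C.P.U (C.base.ix x) := Ctx.mem_ix (C := C.base) x
    have h1 := normSq_pos.2 (C.good.d0 i _ _ hx hx')
    simp only [h]
    rw [chart hTR hf (τ_mem hx) (τ_mem hx'), C.πτ, C.good.relκ i _ x hx hx', neg_add, Real.exp_add,
      Real.exp_neg (Real.log _), Real.exp_log h1]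
    field_simp
  refine ⟨h, continuous_iff_continuousAt.2 fun x => ?_, fun i x hx => ?_⟩
  · obtain ⟨i, hx⟩ := C.good.cov x
    refine ContinuousAt.congr (f := fun x => C.wh c f i (C.τ x) * Real.exp (-C.P.κ i x)) ?_ ?_
    · exact (cont_τ hc hf hx).mul (Real.continuous_exp.continuousAt.comp
        ((C.good.smκ i x hx).continuousAt ((C.good.rd i).locH hx)).neg)
    · filter_upwards [(C.good.rd i).opn.mem_nhds hx] with z hz using (hh i z hz).symm
  · rw [hh i x hx, Real.exp_neg]
    field_simp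

end WH

open WH in
theorem stWH (hTR : St_TR) (hVOL : St_VOL) (hRM : St_RM) : St_WH := by
  intro n C c f hc hf
  obtain ⟨h, hh, he⟩ := dens hTR hc hf
  obtain ⟨M, hM⟩ := isCompact_univ.exists_bound_of_continuousOn hh.continuousOn
  have key : ∀ i, (C.P.U i).Nonempty → Integrable (fun x => C.wh c f i (C.τ x)) (C.base.leb i) ∧
      ∫ x, h x ∂C.base.V = ∫ x, C.wh c f i (C.τ x) ∂C.base.leb i := by
    intro i hi
    obtain ⟨h1, -, h3, -⟩ := hVOL n C.base
    have : IsFiniteMeasure C.base.V := ⟨(h3 univ isCompact_univ).lt_top⟩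
    have hI : Integrable h C.base.V :=
      Integrable.of_bound hh.aestronglyMeasurable M (Eventually.of_forall fun x => hM x trivial)
    have ae : ∀ᵐ x ∂C.base.leb i, x ∈ C.P.U i :=
      (hRM n (C.base.dom i (C.base.W i) (C.base.rd i).opn Subset.rfl)).1.off
    have hm : AEMeasurable (fun x => ENNReal.ofReal (Real.exp (C.base.κ i x))) (C.base.leb i) := by
      rw [← Measure.restrict_eq_self_of_ae_mem ae]
      refine ContinuousOn.aemeasurable (fun x hx => ?_) (C.good.rd i).opn.measurableSet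
      exact (ENNReal.continuous_ofReal.continuousAt.comp (Real.continuous_exp.continuousAt.comp
        ((C.good.smκ i x hx).continuousAt ((C.good.rd i).locH hx)))).continuousWithinAt
    have ht : ∀ᵐ x ∂C.base.leb i, ENNReal.ofReal (Real.exp (C.base.κ i x)) < ∞ :=
      Eventually.of_forall fun _ => ENNReal.ofReal_lt_top
    have e : (fun x => (ENNReal.ofReal (Real.exp (C.base.κ i x))).toReal • h x) =ᵐ[C.base.leb i]
        fun x => C.wh c f i (C.τ x) := by
      filter_upwards [ae] with x hx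
      rw [he i x hx, ENNReal.toReal_ofReal (Real.exp_pos _).le]
      rfl
    rw [h1 i hi] at hI ⊢
    exact ⟨((integrable_withDensity_iff_integrable_smul₀' hm ht).1 hI).congr e,
      (integral_withDensity_eq_integral_toReal_smul₀ hm ht h).trans (integral_congr_ae e)⟩
  refine ⟨fun i γ y hy => T10.wh_smul hc hy γ, fun i j y hi hj => chart hTR hf hi hj,
    fun i y hy => (cont hf hy).continuousWithinAt,
    fun i x hx => (cont_τ hc hf hx).continuousWithinAt, ⟨M, fun i y hy => ?_⟩,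
    fun i hi => ⟨(key i hi).1, (key C.o C.good.ne).2.symm.trans (key i hi).2⟩,
    fun f' i y _ H => T10.wh_congr fun g =>
      (H g⁻¹).comp_tendsto (C.continuous_smul g⁻¹).continuousAt⟩
  rw [← T10.wh_τ hc hy, he i _ hy, abs_mul, abs_of_pos (Real.exp_pos _), mul_comm]
  exact mul_le_mul_of_nonneg_right (hM _ trivial) (Real.exp_pos _).le

end Pool.Agent.Lib.SV
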