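import Pool.Agent.Lib.SV.Blue3

/-! Blueprint, part 4: from a projective manifold to an étale atlas. -/

open scoped Classical Topology ENNReal Manifold ContDiff
open Set MeasureTheory Complex Filter Metric

noncomputable section

namespace Pool.Agent.Lib.SV

section atlas

variable {n N : ℕ} {X : Type} [TopologicalSpace X] [ChartedSpace (E n) X]
  (f : X → Projectivization ℂ (E (N + 1)))

variable (n) in
/-- `f` is a holomorphic immersion. -/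
def Imm : Prop := ∀ x : X, ∃ F : E n → E (N + 1),
  (∀ᶠ z in 𝓝 (chartAt (E n) x x), DifferentiableAt ℂ F z ∧
    ∃ h : F z ≠ 0, Projectivization.mk ℂ (F z) h = f ((chartAt (E n) x).symm z)) ∧
  ∀ (t : ℂ) (v : E n), fderiv ℂ F (chartAt (E n) x x) v = t • F (chartAt (E n) x x) → v = 0

/-- The affine coordinates given by `n + 1` linear forms. -/
def aL (L : E (N + 1) →L[ℂ] E (n + 1)) (x : X) : E n :=
  fun k => L (f x).rep k.succ / L (f x).rep 0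

/-- The open set where they are étale. -/
def UL (L : E (N + 1) →L[ℂ] E (n + 1)) : Set X :=
  {x | L (f x).rep 0 ≠ 0 ∧
    (fderiv ℂ (aL f L ∘ (chartAt (E n) x).symm) (chartAt (E n) x x)).det ≠ 0}

/-- The normalised lift. -/
def FL (L : E (N + 1) →L[ℂ] E (n + 1)) (x : X) : E (N + 1) := (L (f x).rep 0)⁻¹ • (f x).rep

/-- The coefficient, in the chart `L'`, of the Jacobian section of `L`. -/
def jL (L L' : E (N + 1) →L[ℂ] E (n + 1)) (x : X) : ℂ :=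
  if x ∈ UL f L' then (Matrix.of (Fin.cons (L (FL f L' x)) fun k : Fin n =>
    L (fderiv ℂ (FL f L' ∘ lift (aL f L') x) (aL f L' x) (Pi.single k 1)) :
      Fin (n + 1) → E (n + 1))).det else 0

/-- The atlas given by a finite family of tuples of linear forms. -/
def preOf {r : ℕ} (o : Fin r) (L : Fin r → E (N + 1) →L[ℂ] E (n + 1)) (l : E (N + 1) →L[ℂ] ℂ) :
    Pre n X where
  r := r
  o := o
  U i := UL f (L i)
  p i := aL f (L i)
  ξ i j x := if x ∈ UL f (L j) then L i (FL f (L j) x) 0 else 0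
  jac i j := jL f (L i) (L j)
  l j x := if x ∈ UL f (L j) then l (FL f (L j) x) else 0
  φ i x := Real.log (nsq (FL f (L i) x))
  κ i x := Real.log (∑ j, normSq (jL f (L j) (L i) x)) - (n + 1) * Real.log (nsq (FL f (L i) x))

/-- The étale coordinates are holomorphic with invertible derivative in the charts of `X`. -/
def Cmp (P : Pre n X) : Prop := ∀ i, ∀ x ∈ P.U i,
  (∀ᶠ z in 𝓝 (chartAt (E n) x x), DifferentiableAt ℂ (P.p i ∘ (chartAt (E n) x).symm) z) ∧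
  (fderiv ℂ (P.p i ∘ (chartAt (E n) x).symm) (chartAt (E n) x x)).det ≠ 0

end atlas

/-- One tuple of linear forms. -/
def St_AT1 : Prop := ∀ (n N : ℕ) (X : Type) [TopologicalSpace X] [ChartedSpace (E n) X]
  [IsManifold 𝓘(ℂ, E n) ω X] (f : X → Projectivization ℂ (E (N + 1))), Imm n f →
  ∀ L : E (N + 1) →L[ℂ] E (n + 1), RD (aL f L) (UL f L) ∧
    (∀ x, L (f x).rep 0 ≠ 0 → (∀ᶠ x' in 𝓝 x, L (f x').rep 0 ≠ 0) ∧
      ∀ᶠ z in 𝓝 (chartAt (E n) x x), DifferentiableAt ℂ (FL f L ∘ (chartAt (E n) x).symm) z ∧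
        DifferentiableAt ℂ (aL f L ∘ (chartAt (E n) x).symm) z) ∧
    ∀ x ∈ UL f L, (∀ᶠ z in 𝓝 (aL f L x), DifferentiableAt ℂ (FL f L ∘ lift (aL f L) x) z) ∧
      (∀ᶠ z in 𝓝 (aL f L x), DifferentiableAt ℂ (chartAt (E n) x ∘ lift (aL f L) x) z) ∧
      ∀ L' : E (N + 1) →L[ℂ] E (n + 1), L' (f x).rep 0 ≠ 0 →
        (∀ᶠ z in 𝓝 (aL f L x), DifferentiableAt ℂ (aL f L' ∘ lift (aL f L) x) z) ∧
        (x ∈ UL f L' ↔ (fderiv ℂ (aL f L' ∘ lift (aL f L) x) (aL f L x)).det ≠ 0)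

/-- The sections of `A`. -/
def St_AT2 : Prop := ∀ (n N r : ℕ) (X : Type) [TopologicalSpace X] [ChartedSpace (E n) X]
  [IsManifold 𝓘(ℂ, E n) ω X] (f : X → Projectivization ℂ (E (N + 1))) (o : Fin r)
  (L : Fin r → E (N + 1) →L[ℂ] E (n + 1)) (l : E (N + 1) →L[ℂ] ℂ), Imm n f →
  let P := preOf f o L l
  Cmp P ∧ (∀ i j x, x ∈ P.U i → x ∈ P.U j → DifferentiableAt ℂ (P.tr i j x) (P.p j x)) ∧
  (∀ i, P.IsSec (fun x => x) 0 1 (P.ξ i)) ∧ P.IsSec (fun x => x) 0 1 P.l ∧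
  (∀ i, ∀ x ∈ P.U i, P.ξ i i x = 1) ∧ (∀ i j x, x ∈ P.U i → x ∈ P.U j → P.ξ i j x ≠ 0) ∧
  (∀ i j x, x ∈ P.U i → x ∈ P.U j → P.d i j x ≠ 0) ∧
  (∀ i, ∀ x ∈ P.U i, Sm (P.p i) 2 (P.φ i) x) ∧
  (∀ i, ∀ x ∈ P.U i, ∀ v ≠ 0, 0 < lev (P.p i) (P.φ i) x v) ∧
  ∀ i j x, x ∈ P.U i → x ∈ P.U j → P.φ j x = P.φ i x + Real.log (normSq (P.ξ i j x))

/-- The Jacobian sections. -/
def St_AT3 : Prop := ∀ (n N r : ℕ) (X : Type) [TopologicalSpace X] [ChartedSpace (E n) X]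
  [IsManifold 𝓘(ℂ, E n) ω X] (f : X → Projectivization ℂ (E (N + 1))) (o : Fin r)
  (L : Fin r → E (N + 1) →L[ℂ] E (n + 1)) (l : E (N + 1) →L[ℂ] ℂ), Imm n f →
  let P := preOf f o L l
  (∀ i, P.IsSec (fun x => x) 1 (n + 1) (P.jac i)) ∧ (∀ i, ∀ x ∈ P.U i, P.jac i i x = 1) ∧
  (∀ i j, ∀ x ∈ P.U j, P.ξ i j x ≠ 0 → P.jac i j x ≠ 0 → x ∈ P.U i) ∧
  (∀ i, ∀ x ∈ P.U i, Sm (P.p i) 2 (P.κ i) x) ∧
  ∀ i j x, x ∈ P.U i → x ∈ P.U j → P.κ j x = P.κ i x + Real.log (normSq (P.d i j x))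

/-- Every point lies in an étale chart, with a prescribed coordinate if wanted. -/
def St_AT4 : Prop := ∀ (n N : ℕ) (X : Type) [TopologicalSpace X] [ChartedSpace (E n) X]
  [IsManifold 𝓘(ℂ, E n) ω X] (f : X → Projectivization ℂ (E (N + 1))), Imm n f → ∀ x : X,
  (∃ L : E (N + 1) →L[ℂ] E (n + 1), x ∈ UL f L) ∧
  ∀ (L : E (N + 1) →L[ℂ] E (n + 1)) (l : E (N + 1) →L[ℂ] ℂ), x ∈ UL f L → l (f x).rep = 0 →
    (∃ v, l (fderiv ℂ (FL f L ∘ lift (aL f L) x) (aL f L x) v) ≠ 0) →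
    ∃ (L' : E (N + 1) →L[ℂ] E (n + 1)) (k : Fin n), x ∈ UL f L' ∧ ∀ w, L' w k.succ = l w

/-- Theorem of Bertini. -/
def St_BER : Prop := ∀ (n N r : ℕ) (X : Type) [TopologicalSpace X] [ChartedSpace (E n) X]
  [IsManifold 𝓘(ℂ, E n) ω X] [SecondCountableTopology X] (f : X → Projectivization ℂ (E (N + 1)))
  (L : Fin r → E (N + 1) →L[ℂ] E (n + 1)), 0 < n → Imm n f → ∃ l : E (N + 1) →L[ℂ] ℂ,
    ∀ i, ∀ x ∈ UL f (L i), l (f x).rep = 0 →
      ∃ v, l (fderiv ℂ (FL f (L i) ∘ lift (aL f (L i)) x) (aL f (L i) x) v) ≠ 0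

/-- Existence of the atlas. -/
def St_ATL : Prop := ∀ (n : ℕ) (X : Type) [TopologicalSpace X] [ChartedSpace (E n) X]
  [IsManifold 𝓘(ℂ, E n) ω X] [CompactSpace X] [Nonempty X], 0 < n → Immersed n X →
  ∃ P : Pre n X, P.Good ∧ Cmp P

/-- Topology of the covering. -/
def St_TOPO : Prop := ∀ (n : ℕ) (X Y Γ : Type) [TopologicalSpace X] [ChartedSpace (E n) X]
  [CompactSpace X] [T2Space X] [TopologicalSpace Y] [Group Γ] [Countable Γ] [MulAction Γ Y]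
  (π : Y → X), IsQuotientCoveringMap π Γ →
  SecondCountableTopology X ∧ T2Space Y ∧ SecondCountableTopology Y ∧ LocallyCompactSpace Y ∧
  (∀ K L : Set Y, IsCompact K → IsCompact L → {γ : Γ | ∃ y ∈ K, γ • y ∈ L}.Finite) ∧
  ∃ F : Set Y, IsCompact F ∧ ∀ y : Y, ∃ γ : Γ, γ • y ∈ F

/-- Pluricanonical forms. -/
def St_BRP : Prop := ∀ (n : ℕ) (C : Ctx n) [ChartedSpace (E n) C.X] [IsManifold 𝓘(ℂ, E n) ω C.X],
  Cmp C.P → ∀ a, C.h0 a 0 = Module.finrank ℂ (Pluri n C.X a)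

/-- The partition function. -/
def St_BRA : Prop := ∀ (n : ℕ) (C : Ctx n) [ChartedSpace (E n) C.X] [IsManifold 𝓘(ℂ, E n) ω C.X]
  (f : C.Y → ℝ), Cmp C.P → Bump n C.Γ C.π f → C.Adm f

/-- The integral. -/
def St_BRI : Prop := ∀ (n : ℕ) (C : Ctx n) [ChartedSpace (E n) C.X] [IsManifold 𝓘(ℂ, E n) ω C.X]
  (c : (Fin (n * 2 + 1) → C.Γ) → ℝ) (f : C.Y → ℝ) (r : ℕ) (x : Fin r → C.X)
  (B : Fin r → Set (E n)), Cmp C.P → BddCocycle (n * 2) c → C.Adm f → Cells x B →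
  pairing C.π C.τ c f x B = C.pr c f

/-- The theorem. -/
def St_MAIN : Prop := ∀ n : ℕ, 0 < n → ∃ κ : ℝ, 0 < κ ∧
  ∀ (X Y Γ : Type) [TopologicalSpace X] [ChartedSpace (E n) X] [IsManifold 𝓘(ℂ, E n) ω X]
    [CompactSpace X] [T2Space X] [ConnectedSpace X] [TopologicalSpace Y] [Group Γ] [Countable Γ]
    [MulAction Γ Y] (π : Y → X) (τ : X → Y) (c : (Fin (n * 2 + 1) → Γ) → ℝ) (f : Y → ℝ) (r : ℕ)
    (x : Fin r → X) (B : Fin r → Set (E n)), Immersed n X → IsQuotientCoveringMap π Γ →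
    (∀ z, π (τ z) = z) → BddCocycle (n * 2) c → Bump n Γ π f → Cells x B →
    ∃ᶠ a : ℕ in atTop, κ * |pairing π τ c f x B| * a ^ n ≤ Module.finrank ℂ (Pluri n X a)

theorem stMAIN (hF : St_FINAL) (hA : St_ATL) (hT : St_TOPO) (hP : St_BRP) (hB : St_BRA)
    (hI : St_BRI) : St_MAIN := by
  intro n hn
  obtain ⟨κ, hκ, H⟩ := hF n hn
  refine ⟨κ, hκ, ?_⟩
  intro X Y Γ _ _ _ _ _ _ _ _ _ _ π τ c f r x B him hπ hτ hc hf hx
  obtain ⟨P, hg, hcm⟩ := hA n X hn him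
  obtain ⟨h1, h2, h3, h4, h5, h6⟩ := hT n X Y Γ π hπ
  letI : MeasurableSpace X := borel X
  haveI : BorelSpace X := ⟨rfl⟩
  letI : MeasurableSpace Y := borel Y
  haveI : BorelSpace Y := ⟨rfl⟩
  let C : Ctx n :=
    { X := X, Y := Y, Γ := Γ, π := π, cov := hπ, τ := τ, πτ := hτ, pd := h5, fd := h6, P := P,
      good := hg }
  have ha : C.Adm f := hB n C f hcm hf
  have e : pairing π τ c f x B = C.pr c f := hI n C c f r x B hcm hc ha hx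
  refine (H C c f hc ha hf.nonneg).mono fun a h => ?_
  have e' : C.h0 a 0 = Module.finrank ℂ (Pluri n X a) := hP n C hcm a
  rw [e, ← e']
  exact h

end Pool.Agent.Lib.SV
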