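import Pool.Agent.Lib.SV.B_ARI
import Pool.Agent.Lib.SV.B_AT1
import Pool.Agent.Lib.SV.B_AT2
import Pool.Agent.Lib.SV.B_AT3
import Pool.Agent.Lib.SV.B_AT4
import Pool.Agent.Lib.SV.B_ATL
import Pool.Agent.Lib.SV.B_BD
import Pool.Agent.Lib.SV.B_BER
import Pool.Agent.Lib.SV.B_BRA
import Pool.Agent.Lib.SV.B_BRI
import Pool.Agent.Lib.SV.B_BRP
import Pool.Agent.Lib.SV.B_CELL
import Pool.Agent.Lib.SV.B_CHI
import Pool.Agent.Lib.SV.B_CNT
import Pool.Agent.Lib.SV.B_CNT1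
import Pool.Agent.Lib.SV.B_CUT
import Pool.Agent.Lib.SV.B_DESC
import Pool.Agent.Lib.SV.B_EST
import Pool.Agent.Lib.SV.B_EST1
import Pool.Agent.Lib.SV.B_EST2
import Pool.Agent.Lib.SV.B_EST3
import Pool.Agent.Lib.SV.B_EXH
import Pool.Agent.Lib.SV.B_EXT
import Pool.Agent.Lib.SV.B_FAM
import Pool.Agent.Lib.SV.B_FAM1
import Pool.Agent.Lib.SV.B_FAMA
import Pool.Agent.Lib.SV.B_FAMB
import Pool.Agent.Lib.SV.B_FIN
import Pool.Agent.Lib.SV.B_FINAL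
import Pool.Agent.Lib.SV.B_FRZ
import Pool.Agent.Lib.SV.B_FS
import Pool.Agent.Lib.SV.B_GLUE
import Pool.Agent.Lib.SV.B_HOR
import Pool.Agent.Lib.SV.B_IBP
import Pool.Agent.Lib.SV.B_ID
import Pool.Agent.Lib.SV.B_INT
import Pool.Agent.Lib.SV.B_IT
import Pool.Agent.Lib.SV.B_IT1
import Pool.Agent.Lib.SV.B_JET
import Pool.Agent.Lib.SV.B_LEVC
import Pool.Agent.Lib.SV.B_LOCB
import Pool.Agent.Lib.SV.B_LSE
import Pool.Agent.Lib.SV.B_MON
import Pool.Agent.Lib.SV.B_N0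
import Pool.Agent.Lib.SV.B_NINT
import Pool.Agent.Lib.SV.B_PEAK
import Pool.Agent.Lib.SV.B_PEAK0
import Pool.Agent.Lib.SV.B_POLE
import Pool.Agent.Lib.SV.B_POU
import Pool.Agent.Lib.SV.B_REM
import Pool.Agent.Lib.SV.B_RHO
import Pool.Agent.Lib.SV.B_RICH
import Pool.Agent.Lib.SV.B_RM
import Pool.Agent.Lib.SV.B_SIE
import Pool.Agent.Lib.SV.B_SMO
import Pool.Agent.Lib.SV.B_SUB
import Pool.Agent.Lib.SV.B_SUBM
import Pool.Agent.Lib.SV.B_TAIL
import Pool.Agent.Lib.SV.B_TOP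
import Pool.Agent.Lib.SV.B_TOP1
import Pool.Agent.Lib.SV.B_TOPO
import Pool.Agent.Lib.SV.B_TR
import Pool.Agent.Lib.SV.B_VOL
import Pool.Agent.Lib.SV.B_W0
import Pool.Agent.Lib.SV.B_WB
import Pool.Agent.Lib.SV.B_WEI
import Pool.Agent.Lib.SV.B_WEYL
import Pool.Agent.Lib.SV.B_WH
import Pool.Agent.Lib.SV.B_ZBD
import Pool.Agent.Lib.SV.B_ZER
import Pool.Agent.Lib.SV.Blue4
import Pool.Agent.Lib.SV.H_BOCH4
import Pool.Agent.Lib.SV.H_CORE
import Pool.Agent.Lib.SV.H_MOLL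
import Pool.Agent.Lib.SV.H_RIE
import Pool.Agent.Lib.SV.H_WAP

/-! Assembly of the project SV. -/

namespace Pool.Agent.Lib.SV

theorem main : St_MAIN :=
  have kRM : St_RM := stRM
  have kCUT : St_CUT := stCUT
  have kIBP : St_IBP := stIBP kRM kCUT
  have kBOCH : St_BOCH := stBOCH4 kRM kIBP
  have kMOLL : St_MOLL := stMOLL kRM kCUT kIBP
  have kWAP : St_WAP := stWAP kRM kIBP kBOCH kMOLL
  have kSUB : St_SUB := stSUB
  have kWEI : St_WEI := stWEI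
  have kMON : St_MON := stMON kRM kSUB kWEI
  have kWEYL : St_WEYL := stWEYL kRM kSUB kWEI kCUT kIBP kMON
  have kRIE : St_RIE := stRIE kRM kIBP kWEYL
  have kHOR0 : St_HOR0 := stHOR0_of kRM kIBP kWAP kRIE
  have kLOCB : St_LOCB := stLOCB
  have kRICH : St_RICH := stRICH kCUT kLOCB
  have kHOR : St_HOR := stHOR kHOR0 kRICH kMON kRM kLOCB
  have kPOLE : St_POLE := stPOLE
  have kNINT : St_NINT := stNINT
  have kSMO : St_SMO := stSMO
  have kLEVC : St_LEVC := stLEVC kSMO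
  have kFS : St_FS := stFS kSMO
  have kINT : St_INT := stINT kHOR kPOLE kNINT kLOCB kRM kLEVC kFS
  have kTR : St_TR := stTR kSMO kLEVC kFS
  have kBD : St_BD := stBD kTR kLOCB
  have kW0 : St_W0 := stW0 kBD kFS
  have kEXH : St_EXH := stEXH kW0
  have kREM : St_REM := stREM
  have kZER : St_ZER := stZER kSUB
  have kID : St_ID := stID kZER kRM kTR
  have kVOL : St_VOL := stVOL kRM kTR kID
  have kEXT : St_EXT := stEXT kREM kID kTR kVOL kRM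
  have kJET : St_JET := stJET kSMO
  have kSIE : St_SIE := stSIE kJET
  have kFIN : St_FIN := stFIN kSIE
  have kCNT1 : St_CNT1 := stCNT1 kINT kEXH kEXT kVOL kFIN kRM
  have kCELL : St_CELL := stCELL
  have kCNT : St_CNT := stCNT kCNT1 kCELL kRM
  have kFRZ : St_FRZ := stFRZ
  have kWB : St_WB := stWB
  have kEST1 : St_EST1 := stEST1 kCNT kFRZ kWB kFS
  have kEST2 : St_EST2 := stEST2 kCNT kFRZ kWB kFS kW0 kFIN
  have kWH : St_WH := stWH kTR kVOL kRM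
  have kEST3 : St_EST3 := stEST3 kWH kVOL kID
  have kGLUE : St_GLUE := stGLUE kTR kW0 kWH
  have kPEAK0 : St_PEAK0 := stPEAK0 kINT kEXH kEXT kVOL kLOCB kRM
  have kPEAK : St_PEAK := stPEAK kPEAK0 kVOL
  have kSUBM : St_SUBM := stSUBM kSUB kRM kVOL
  have kTAIL : St_TAIL := stTAIL kSUBM kVOL
  have kCHI : St_CHI := stCHI
  have kZBD : St_ZBD := stZBD kPEAK kTAIL kJET kCHI kVOL kSMO
  have kIT1 : St_IT1 := stIT1 kHOR kZBD kEXH kEXT kVOL kBD kFS kNINT kRM kLOCB kW0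
  have kIT : St_IT := stIT kIT1 kTAIL
  have kFAM1 : St_FAM1 := stFAM1 kIT kTAIL kCHI kVOL
  have kLSE : St_LSE := stLSE
  have kFAMA : St_FAMA := stFAMA kTAIL kFS kLSE
  have kFAMB : St_FAMB := stFAMB kFS kLSE
  have kN0 : St_N0 := stN0 kBD
  have kFAM : St_FAM := stFAM kFAM1 kFAMA kFAMB kN0
  have kTOP1 : St_TOP1 := stTOP1 kWH kRM kVOL
  have kPOU : St_POU := stPOU kTR kCUT
  have kTOP : St_TOP := stTOP kTOP1 kPOU
  have kRHO : St_RHO := stRHO kBD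
  have kEST : St_EST := stEST kEST1 kEST2 kEST3 kGLUE kFAM kTOP kRHO kN0 kID kWH kRM
  have kDESC : St_DESC := stDESC kSIE kFIN kEXT kID kVOL
  have kARI : St_ARI := stARI
  have kFINAL : St_FINAL := stFINAL kEST kDESC kARI kFIN
  have kAT1 : St_AT1 := stAT1 kSMO
  have kAT2 : St_AT2 := stAT2 kAT1 kFS kSMO
  have kAT3 : St_AT3 := stAT3 kAT1 kAT2 kFS kSMO
  have kAT4 : St_AT4 := stAT4 kAT1
  have kBER : St_BER := stBER kAT1 kSMO
  have kATL : St_ATL := stATL kAT1 kAT2 kAT3 kAT4 kBER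
  have kTOPO : St_TOPO := stTOPO
  have kBRP : St_BRP := stBRP kSMO kTR
  have kBRA : St_BRA := stBRA kSMO
  have kBRI : St_BRI := stBRI kWH kRM kID kSMO kTR kVOL
  stMAIN kFINAL kATL kTOPO kBRP kBRA kBRI

end Pool.Agent.Lib.SV
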