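import Pool.Agent.Lib.SV.Blue3

/-! The arithmetic of the descent. -/

open Filter

noncomputable section

namespace Pool.Agent.Lib.SV

namespace ARI

theorem down {n : ℕ} {h : ℕ → ℕ → ℕ} {M : ℝ} (hM : 0 ≤ M)
    (hs : ∀ a b, (h a (b + 1) : ℝ) ≤ h a b + M * (a + b + 1) ^ n) (a b r : ℕ) :
    (h a (b + r) : ℝ) ≤ h a b + r * M * (a + b + r) ^ n := by
  induction r with
  | zero => simp
  | succ r ih =>
    have h1 := hs a (b + r)
    have h2 : ((a : ℝ) + b + r) ^ n ≤ ((a : ℝ) + b + r + 1) ^ n :=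
      pow_le_pow_left₀ (by positivity) (by linarith) n
    have h3 : (r : ℝ) * M * (a + b + r) ^ n ≤ r * M * (a + b + r + 1) ^ n :=
      mul_le_mul_of_nonneg_left h2 (by positivity)
    rw [← add_assoc]
    push_cast at h1 ⊢
    have e1 : (a : ℝ) + (b + r) + 1 = a + b + r + 1 := by ring
    have e2 : (a : ℝ) + b + (r + 1) = a + b + r + 1 := by ring
    rw [e1] at h1
    rw [e2]
    nlinarith

theorem key {n q : ℕ} {h : ℕ → ℕ → ℕ} {c M : ℝ} (hM : 0 < M)
    (hs : ∀ a b, (h a (b + 1) : ℝ) ≤ h a b + M * (a + b + 1) ^ n) {m b k b' r : ℕ}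
    (hm : 1 ≤ m) (hk : 1 ≤ k) (hb : (b : ℝ) ≤ (q + 1) * m)
    (hr : (r : ℝ) ≤ c / (2 * M * (q + 5) ^ n) * (k * m)) (hbr : b' + r = 1 + k * (b + 1))
    (hc : c * (k * m) ^ (n + 1) ≤ h (1 + k * m) (1 + k * (b + 1))) :
    c / 2 * (k * m) ^ (n + 1) ≤ h (1 + k * m) b' := by
  have h1 := down hM.le hs (1 + k * m) b' r
  rw [hbr] at h1
  have hm' : (1 : ℝ) ≤ m := by exact_mod_cast hm
  have hk' : (1 : ℝ) ≤ k := by exact_mod_cast hk
  have hbr' : (b' : ℝ) + r = 1 + k * (b + 1) := by exact_mod_cast hbr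
  have hkm : (k : ℝ) ≤ k * m := by nlinarith
  have hkb : (k : ℝ) * b ≤ k * ((q + 1) * m) := mul_le_mul_of_nonneg_left hb (by positivity)
  have h2 : ((1 + k * m : ℕ) : ℝ) + b' + r ≤ (q + 5) * (k * m) := by
    push_cast
    nlinarith
  have h3 : (((1 + k * m : ℕ) : ℝ) + b' + r) ^ n ≤ ((q + 5) * (k * m)) ^ n :=
    pow_le_pow_left₀ (by positivity) h2 n
  have h4 : (r : ℝ) * M * (((1 + k * m : ℕ) : ℝ) + b' + r) ^ n ≤
      c / (2 * M * (q + 5) ^ n) * (k * m) * M * ((q + 5) * (k * m)) ^ n := by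
    refine mul_le_mul (mul_le_mul_of_nonneg_right hr hM.le) h3 (by positivity) ?_
    exact mul_nonneg ((Nat.cast_nonneg r).trans hr) hM.le
  have h5 : c / (2 * M * (q + 5) ^ n) * (k * m) * M * ((q + 5) * (k * m)) ^ n =
      c / 2 * ((k : ℝ) * m) ^ (n + 1) := by
    rw [mul_pow ((q : ℝ) + 5), pow_succ ((k : ℝ) * m)]
    field_simp
  rw [h5] at h4
  linarith

theorem main {n q : ℕ} {h : ℕ → ℕ → ℕ} {c M : ℝ} (hc : 0 < c) (hM : 0 < M)
    (hs : ∀ a b, (h a (b + 1) : ℝ) ≤ h a b + M * (a + b + 1) ^ n)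
    (h0 : ∀ j, 0 < j → 0 < h j (j * (q + 1)))
    (hg : ∀ m b, 2 ≤ m → 1 ≤ b → 0 < h m b →
      ∀ᶠ k : ℕ in atTop, c * (k * m) ^ (n + 1) ≤ h (1 + k * m) (1 + k * (b + 1))) :
    ∃ᶠ a : ℕ in atTop, c / 2 ^ (n + 2) * a ^ (n + 1) ≤ h a 0 := by
  by_contra hno
  set e : ℝ := c / (2 * M * (q + 5) ^ n) with he
  have he0 : 0 < e := by positivity
  have hP : ∀ j : ℕ, ∃ m b : ℕ, 2 ≤ m ∧ 4 ≤ e * m ∧ 1 ≤ b ∧
      (b : ℝ) ≤ ((q + 1) - j * e / 2) * m ∧ 0 < h m b := by
    intro j
    induction j with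
    | zero =>
      obtain ⟨m, hm⟩ := exists_nat_ge (4 / e + 2)
      have h4 : 0 < 4 / e := by positivity
      have hm2 : 2 ≤ m := by
        have : (2 : ℝ) ≤ m := by linarith
        exact_mod_cast this
      refine ⟨m, m * (q + 1), hm2, ?_, Nat.mul_pos (by omega) (by omega), ?_, h0 m (by omega)⟩
      · have : 4 / e ≤ m := by linarith
        rw [div_le_iff₀ he0] at this
        linarith
      · push_cast
        simp [mul_comm]
    | succ j ih =>
      obtain ⟨m, b, hm2, hem, hb1, hb, hpos⟩ := ih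
      have hm' : (2 : ℝ) ≤ m := by exact_mod_cast hm2
      have hb' : (1 : ℝ) ≤ b := by exact_mod_cast hb1
      have hje : 0 ≤ (j : ℝ) * e / 2 := by positivity
      have hbq : (b : ℝ) ≤ (q + 1) * m := by nlinarith
      have hev := hg m b hm2 hb1 hpos
      by_cases hcase : (b : ℝ) + 1 < e * m
      · exfalso
        apply hno
        rw [frequently_atTop]
        intro a0
        obtain ⟨K, hK⟩ := exists_nat_ge (1 / (e * m - (b + 1)))
        obtain ⟨k, hk, hkK⟩ := (hev.and (eventually_ge_atTop (a0 + K + 1))).exists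
        have hd : 0 < e * m - (b + 1) := by linarith
        have hkK' : (K : ℝ) ≤ k := by exact_mod_cast (by omega : K ≤ k)
        have h1 : 1 ≤ (k : ℝ) * (e * m - (b + 1)) := by
          have := hK.trans hkK'
          rwa [div_le_iff₀ hd] at this
        have h2 := key (b' := 0) (r := 1 + k * (b + 1)) hM hs (by omega : 1 ≤ m) (by omega : 1 ≤ k)
          hbq (by rw [← he]; push_cast; nlinarith) (by simp) hk
        have hkm : k ≤ k * m := Nat.le_mul_of_pos_right k (by omega)
        refine ⟨1 + k * m, by omega, le_trans ?_ h2⟩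
        have hkm1 : (1 : ℝ) ≤ k * m := by exact_mod_cast (by omega : 1 ≤ k * m)
        have h3 : ((1 + k * m : ℕ) : ℝ) ^ (n + 1) ≤ (2 * (k * m)) ^ (n + 1) :=
          pow_le_pow_left₀ (by positivity) (by push_cast; linarith) _
        have h4 : c / 2 ^ (n + 2) * (2 * ((k : ℝ) * m)) ^ (n + 1) = c / 2 * (k * m) ^ (n + 1) := by
          rw [mul_pow (2 : ℝ), pow_succ (2 : ℝ) (n + 1)]
          field_simp
        rw [← h4]
        exact mul_le_mul_of_nonneg_left h3 (by positivity)
      · push Not at hcase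
        obtain ⟨k, hk, hk3⟩ := (hev.and (eventually_ge_atTop 3)).exists
        have hk' : (3 : ℝ) ≤ k := by exact_mod_cast hk3
        set r : ℕ := ⌊e * (k * m)⌋₊ with hr
        have hr1 : (r : ℝ) ≤ e * (k * m) := Nat.floor_le (by positivity)
        have hr2 : e * (k * m) < r + 1 := Nat.lt_floor_add_one _
        have hr3 : r ≤ k * (b + 1) := by
          have : (r : ℝ) ≤ k * (b + 1) := by nlinarith
          exact_mod_cast this
        obtain ⟨b', hbr⟩ : ∃ b', b' + r = 1 + k * (b + 1) := ⟨1 + k * (b + 1) - r, by omega⟩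
        have hbr' : (b' : ℝ) + r = 1 + k * (b + 1) := by exact_mod_cast hbr
        have h2 := key hM hs (by omega : 1 ≤ m) (by omega : 1 ≤ k) hbq (by rw [← he]; exact hr1) hbr hk
        have hkm : m ≤ k * m := Nat.le_mul_of_pos_left m (by omega)
        have hkm' : (m : ℝ) ≤ k * m := by exact_mod_cast hkm
        refine ⟨1 + k * m, b', by omega, ?_, by omega, ?_, ?_⟩
        · push_cast
          nlinarith
        · set p : ℝ := (q + 1) - j * e / 2 with hp
          have hp0 : 0 < p := by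
            by_contra hneg
            push Not at hneg
            nlinarith
          have h5 : e ≤ p + 1 / 2 := by
            by_contra hneg
            push Not at hneg
            nlinarith
          have h6 : (k : ℝ) * b ≤ k * (p * m) := mul_le_mul_of_nonneg_left hb (by positivity)
          have h7 : (k : ℝ) * 4 ≤ k * (e * m) := mul_le_mul_of_nonneg_left hem (by positivity)
          have h8 : ((q : ℝ) + 1 - ((j + 1 : ℕ) : ℝ) * e / 2) = p - e / 2 := by
            push_cast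
            rw [hp]
            ring
          rw [h8]
          push_cast
          nlinarith
        · have h9 : (0 : ℝ) < c / 2 * (k * m) ^ (n + 1) := by positivity
          exact_mod_cast h9.trans_le h2
  obtain ⟨j, hj⟩ := exists_nat_ge (2 * (q + 1) / e)
  obtain ⟨m, b, hm2, -, hb1, hb, -⟩ := hP j
  rw [div_le_iff₀ he0] at hj
  have hb' : (1 : ℝ) ≤ b := by exact_mod_cast hb1
  have hm' : (0 : ℝ) ≤ m := by positivity
  nlinarith

end ARI

theorem stARI : St_ARI := by
  intro n q h c M hc hs h0 hg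
  refine ARI.main (M := max M 1) hc (lt_of_lt_of_le one_pos (le_max_right _ _)) ?_ h0 hg
  intro a b
  refine (hs a b).trans ?_
  have : M * ((a : ℝ) + b + 1) ^ n ≤ max M 1 * ((a : ℝ) + b + 1) ^ n :=
    mul_le_mul_of_nonneg_right (le_max_left _ _) (by positivity)
  linarith

end Pool.Agent.Lib.SV
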