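import Pool.Agent.Lib.SV.Blue2

/-! Interpolation gives sections. -/

open scoped Classical Topology ENNReal
open Set MeasureTheory Complex Filter Metric

noncomputable section

namespace Pool.Agent.Lib.SV

namespace CNT1

theorem rho_zero {n : ℕ} (C : Ctx n) : C.base.Rho fun _ => 0 := by
  refine ⟨fun i y _ => sm_const _, ⟨0, fun i y _ v => ?_⟩, fun _ => le_rfl, fun a => ?_⟩
  · have h1 : ((fun _ => (0 : ℝ)) ∘ lift (C.base.q i) y) = fun _ => 0 := rfl
    simp only [grd, dd, lev, levE, d2, h1, fderiv_fun_const, Pi.zero_apply,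
      zero_apply]
    norm_num
  · exact (isClosed_le continuous_const continuous_const).isCompact

end CNT1

theorem stCNT1 (hINT : St_INT) (hEXH : St_EXH) (hEXT : St_EXT) (hVOL : St_VOL) (hFIN : St_FIN)
    (hRM : St_RM) : St_CNT1 := by
  intro n hn
  obtain ⟨L, hL, H⟩ := hINT n hn
  refine ⟨L, hL, fun C a b a' b' σ hσ hs Φ J _ y P r B h0 hΦ ⟨M, hM⟩ hP hB => ?_⟩
  obtain ⟨s, hE⟩ := hEXH n C.base _ C.o a' b' σ (CNT1.rho_zero C) hσ hs
  have ho := C.isOpen_nz hσ
  have H1 := H (C.base.dom C.o (C.nz a' b' σ) ho hs) s Φ (C.base.φ C.o) J y P r B hE hP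
    (fun x hx => ⟨Ctx.sm_φ (C := C.base) (hs hx), fun v hv => Ctx.om_pos (C := C.base) (hs hx) hv,
      hΦ x hx⟩) hB
  obtain ⟨_, hF⟩ := hFIN n C
  have := (hF (1 + a) (1 + b)).1
  let ev : C.base.Sec (1 + a) (1 + b) →ₗ[ℂ] (J → ℂ) :=
    { toFun := fun g j => g.1 C.o (y j)
      map_add' := fun _ _ => rfl
      map_smul' := fun _ _ => rfl }
  have hsurj : Function.Surjective ev := fun c => by
    obtain ⟨F, h1, h2, h3⟩ := H1 c
    obtain ⟨g, hg, h4⟩ := hEXT n C.base C.o (1 + a) (1 + b) a' b' σ F hσ h0 hs h1 fun x =>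
      ⟨univ, univ_mem, by
        have h5 : rm (C.base.q C.o) (C.nz a' b' σ) = (C.base.leb C.o).restrict (C.nz a' b' σ) :=
          (hRM n (C.base.dom C.o (C.base.W C.o) (C.base.rd C.o).opn Subset.rfl)).2.2.2.2.2.1 _ ho hs
        have h6 : ∫⁻ x, ENNReal.ofReal (‖F x‖ ^ 2 * Real.exp (-(Φ x + C.base.φ C.o x)))
            ∂(C.base.leb C.o).restrict (C.nz a' b' σ) ≠ ∞ := by
          rw [← h5]; exact h3
        rw [univ_inter]
        change ∫⁻ x in C.nz a' b' σ, _ ∂C.base.V ≠ ∞
        rw [← lintegral_indicator ho.measurableSet] at h6 ⊢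
        rw [(hVOL n C.base).2.1 C.o C.good.ne]
        refine ne_top_of_le_ne_top (ENNReal.mul_ne_top
          (ENNReal.ofReal_ne_top (r := Real.exp M)) h6) ?_
        rw [← lintegral_const_mul' _ _ ENNReal.ofReal_ne_top]
        refine lintegral_mono fun x => ?_
        by_cases hx : x ∈ C.nz a' b' σ
        · rw [indicator_of_mem hx, indicator_of_mem hx,
            ← ENNReal.ofReal_mul (Real.exp_pos _).le, ← ENNReal.ofReal_mul (Real.exp_pos _).le,
            mul_left_comm, mul_left_comm (Real.exp M), ← Real.exp_add, ← Real.exp_add,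
            normSq_eq_norm_sq]
          refine ENNReal.ofReal_le_ofReal (mul_le_mul_of_nonneg_left (Real.exp_le_exp.2 ?_)
            (sq_nonneg _))
          have := hM x hx
          simp only [Ctx.wt, Nat.cast_add, Nat.cast_one] at this ⊢
          linarith
        · rw [indicator_of_notMem hx, indicator_of_notMem hx, mul_zero, mul_zero]⟩
    refine ⟨⟨g, hg⟩, funext fun j => ?_⟩
    obtain ⟨e, he, hy, -⟩ := hP.cht j
    exact (h4 (y j) (he.sub hy)).trans (h2 j)
  have := LinearMap.finrank_le_finrank_of_surjective hsurj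
  rwa [Module.finrank_pi] at this

end Pool.Agent.Lib.SV
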