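import Pool.Agent.Lib.SV.Blue3

/-! The theorem for an atlas, from the main estimate and the descent. -/

open scoped Classical Topology ENNReal
open Set MeasureTheory Complex Filter Metric

noncomputable section

namespace Pool.Agent.Lib.SV

namespace FINAL

theorem pow_sec {n : ℕ} (C : Ctx n) (j : ℕ) (hj : 0 < j) :
    (fun i x => C.P.jac C.o i x ^ j) ∈ C.base.Sec j (j * (n + 1)) := by
  have h := C.good.secj C.o
  refine ⟨fun i y hy => (h.hol i y hy).pow j, fun i k y hi hk => ?_, fun i y hy => ?_⟩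
  · have := h.cmp i k y hi hk
    show C.P.jac C.o k y ^ j = C.P.jac C.o i y ^ j * C.P.d i k y ^ j * C.P.ξ i k y ^ (j * (n + 1))
    rw [this]
    ring
  · show C.P.jac C.o i y ^ j = 0
    rw [h.off i y hy, zero_pow hj.ne']

theorem pow_ne {n : ℕ} (C : Ctx n) (j : ℕ) : (fun i x => C.P.jac C.o i x ^ j) ≠ 0 := by
  obtain ⟨x, hx⟩ := C.good.ne
  intro h
  have := congrFun (congrFun h C.o) x
  rw [C.good.j1 _ x hx] at this
  simp at this

theorem pos_iff {n : ℕ} (hFIN : St_FIN) (C : Ctx n) (a b : ℕ) :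
    0 < C.h0 a b ↔ ∃ s ∈ C.base.Sec a b, s ≠ 0 := by
  obtain ⟨M, hM⟩ := hFIN n C
  have := (hM a b).1
  rw [Ctx.h0, Module.finrank_pos_iff_exists_ne_zero]
  constructor
  · rintro ⟨s, hs⟩
    exact ⟨s.1, s.2, fun h => hs (Subtype.ext h)⟩
  · rintro ⟨s, hs, h⟩
    exact ⟨⟨s, hs⟩, fun e => h (congrArg Subtype.val e)⟩

end FINAL

theorem stFINAL (hEST : St_EST) (hDESC : St_DESC) (hARI : St_ARI) (hFIN : St_FIN) : St_FINAL := by
  intro n hn
  obtain ⟨m, rfl⟩ : ∃ m, n = m + 1 := ⟨n - 1, by omega⟩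
  obtain ⟨c₀, hc₀, H⟩ := hEST (m + 1) hn
  refine ⟨c₀ / 2 ^ (m + 2), by positivity, fun C c f hc hf h0 => ?_⟩
  by_cases hp : C.pr c f = 0
  · refine Eventually.frequently (Eventually.of_forall fun a => ?_)
    rw [hp, abs_zero, mul_zero, zero_mul]
    exact Nat.cast_nonneg _
  obtain ⟨M, hM⟩ := hDESC m C
  have := hARI m (m + 1) C.h0 (c₀ * |C.pr c f|) M (mul_pos hc₀ (abs_pos.2 hp)) hM
    (fun j hj => (FINAL.pos_iff hFIN C _ _).2 ⟨_, FINAL.pow_sec C j hj, FINAL.pow_ne C j⟩)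
    (fun a b ha hb h => by
      obtain ⟨s, hs, hs0⟩ := (FINAL.pos_iff hFIN C _ _).1 h
      exact H C c f a b s hc hf h0 ha hb hs hs0)
  refine this.mono fun a ha => ?_
  rwa [div_mul_eq_mul_div]

end Pool.Agent.Lib.SV
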