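import Pool.Agent.Lib.SV.H_CORE
import Pool.Agent.Lib.SV.H_BOCH4
import Pool.Agent.Lib.SV.H_MOLL
import Pool.Agent.Lib.SV.H_WAP
import Pool.Agent.Lib.SV.H_RIE

/-! The theorem of Hörmander for a `C^2` weight. -/

namespace Pool.Agent.Lib.SV

theorem stHOR0' (hRM : St_RM) (hCUT : St_CUT) (hIBP : St_IBP) (hWEYL : St_WEYL) : St_HOR0 :=
  stHOR0_of hRM hIBP (stWAP hRM hIBP (stBOCH4 hRM hIBP) (stMOLL hRM hCUT hIBP))
    (stRIE hRM hIBP hWEYL)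

theorem stHOR0 (hRM : St_RM) (hCUT : St_CUT) (hIBP : St_IBP) (_hSUB : St_SUB) (_hMON : St_MON)
    (hWEYL : St_WEYL) (_hLOCB : St_LOCB) (_hSMO : St_SMO) : St_HOR0 :=
  stHOR0' hRM hCUT hIBP hWEYL

end Pool.Agent.Lib.SV
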