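import Pool.Agent.Lib.SV.Blue3

/-! The `ℓ¹` derivative of an admissible function is invariant and bounded. -/

open scoped Classical Topology
open Set

namespace Pool.Agent.Lib.SV

namespace N0

variable {n : ℕ} {C : Ctx n}

theorem N1_eq (f : C.Y → ℝ) {y : C.Y} (hy : y ∈ C.W C.o) (v : E n) :
    C.N1 f y v = ∑ᶠ γ : C.Γ, |dd (C.q C.o) f (γ⁻¹ • y) v| := by
  unfold Ctx.N1
  exact finsum_congr fun γ => by rw [Ctx.dd_smul hy]

theorem N1_smul (f : C.Y → ℝ) (γ : C.Γ) {y : C.Y} (hy : y ∈ C.W C.o) (v : E n) :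
    C.N1 f (γ • y) v = C.N1 f y v := by
  rw [N1_eq f hy, N1_eq f ((Ctx.smul_mem_W γ).2 hy),
    ← finsum_comp_equiv (Equiv.mulLeft γ) (f := fun δ : C.Γ => |dd (C.q C.o) f (δ⁻¹ • γ • y) v|)]
  refine finsum_congr fun δ => ?_
  rw [Equiv.coe_mulLeft, mul_inv_rev, mul_smul, inv_smul_smul]

theorem dd_zero {f : C.Y → ℝ} {y : C.Y} (hy : y ∈ C.W C.o) (h : y ∉ tsupport f) (v : E n) :
    dd (C.q C.o) f y v = 0 := by
  rw [dd_congr (Ctx.locH hy) (notMem_tsupport_iff_eventuallyEq.1 h)]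
  have : (0 : C.Y → ℝ) ∘ lift (C.q C.o) y = fun _ => 0 := rfl
  simp [dd, this]

end N0

theorem stN0 (hBD : St_BD) : St_N0 := by
  intro n C
  refine ⟨fun f γ y hy v => N0.N1_smul f γ hy v, fun f hf => ?_⟩
  obtain ⟨M, hM, hB⟩ := (hBD n C).1 f hf.sm hf.cpt
  have hfin := C.pd _ _ hf.cpt.isCompact hf.cpt.isCompact
  set S : Finset C.Γ := hfin.toFinset.image fun γ => γ⁻¹ with hS
  have key : ∀ y ∈ C.W C.o, y ∈ tsupport f → ∀ v,
      C.N1 f y v ^ 2 ≤ (S.card : ℝ) ^ 2 * M * C.om C.o y v := by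
    intro y hy hK v
    rw [N0.N1_eq f hy, finsum_eq_sum_of_support_subset (s := S)]
    · refine sq_sum_le_card_mul_sum_sq.trans ?_
      have h1 : ∑ γ ∈ S, |dd (C.q C.o) f (γ⁻¹ • y) v| ^ 2 ≤ S.card • (M * C.om C.o y v) := by
        refine Finset.sum_le_card_nsmul _ _ _ fun γ _ => ?_
        have h2 := (hB C.o _ ((Ctx.smul_mem_W γ⁻¹).2 hy) v).1
        rw [Ctx.om_smul hy, grd] at h2
        rw [sq_abs]
        linarith [sq_nonneg (dd (C.q C.o) f (γ⁻¹ • y) (Complex.I • v))]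
      rw [nsmul_eq_mul] at h1
      calc (S.card : ℝ) * ∑ γ ∈ S, |dd (C.q C.o) f (γ⁻¹ • y) v| ^ 2
          ≤ S.card * (S.card * (M * C.om C.o y v)) :=
            mul_le_mul_of_nonneg_left h1 (Nat.cast_nonneg _)
        _ = _ := by ring
    · intro γ hγ
      rw [Function.mem_support, abs_ne_zero] at hγ
      have h3 : γ⁻¹ • y ∈ tsupport f := by
        by_contra h
        exact hγ (N0.dd_zero ((Ctx.smul_mem_W γ⁻¹).2 hy) h v)
      exact Finset.mem_coe.2 (Finset.mem_image.2 ⟨γ⁻¹, hfin.mem_toFinset.2 ⟨y, hK, h3⟩, inv_inv γ⟩)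
  refine ⟨(S.card : ℝ) ^ 2 * M, by positivity, fun y hy v => ?_⟩
  by_cases h : ∃ γ : C.Γ, γ • y ∈ tsupport f
  · obtain ⟨γ, hγ⟩ := h
    rw [← N0.N1_smul f γ hy, ← Ctx.om_smul hy γ]
    exact key _ ((Ctx.smul_mem_W γ).2 hy) hγ v
  · push Not at h
    rw [N0.N1_eq f hy, finsum_eq_zero_of_forall_eq_zero fun γ => by
      rw [N0.dd_zero ((Ctx.smul_mem_W γ⁻¹).2 hy) (h γ⁻¹) v, abs_zero]]
    have := Ctx.om_nonneg hy v
    rw [zero_pow two_ne_zero]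
    positivity

end Pool.Agent.Lib.SV
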