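import Pool.Agent.Lib.SV.Blue3
import Pool.Agent.Lib.SV.Top10

/-! The integral of the Whitney form does not depend on the partition function. -/

open scoped Classical Topology ENNReal
open Set MeasureTheory Complex Filter Metric

noncomputable section

namespace Pool.Agent.Lib.SV

namespace TOP

variable {n : ℕ} {C : Ctx n} {f f' : C.Y → ℝ}

theorem mix (hf : C.Adm f) (hf' : C.Adm f') {β : C.X → ℝ} (hβ : C.base.GSm β) :
    C.Adm fun y => f y + β (C.π y) * (f' y - f y) := by
  have hb : ∀ i, ∀ y ∈ C.W i, Sm (C.q i) 2 (β ∘ C.π) y := fun i y hy =>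
    (Ctx.sm_π hy).2 (hβ i _ hy)
  have h := (T10.A0.of_adm hf).mix (T10.A0.of_adm hf') (hb C.o)
  exact ⟨fun i y hy => (hf.sm i y hy).add ((hb i y hy).mul ((hf'.sm i y hy).sub (hf.sm i y hy))),
    h.cpt, h.sum⟩

end TOP

theorem stTOP (hTOP1 : St_TOP1) (hPOU : St_POU) : St_TOP := by
  intro n C c f f' hn hc hf hf'
  have h1 : ∀ x : C.X, ∃ O ∈ 𝓝 x, ∀ f f' : C.Y → ℝ, C.Adm f → C.Adm f' → ∀ K, IsCompact K →
      K ⊆ O → (∀ y, C.π y ∉ K → f' y = f y) → C.pr c f' = C.pr c f := fun x => by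
    have := hTOP1 n C c (C.ix (C.τ x)) (C.τ x) hn hc (Ctx.mem_ix _)
    rwa [C.πτ] at this
  choose O hO hP using h1
  obtain ⟨r, x, ρ, hρ, hs⟩ := hPOU n C O hO
  have hsm : ∀ S : Finset (Fin r), C.base.GSm fun z => ∑ k ∈ S, ρ k z := fun S i z hz =>
    Sm.sum fun k _ => (hρ k).1 i z hz
  have key : ∀ S : Finset (Fin r),
      C.pr c (fun y => f y + (∑ k ∈ S, ρ k (C.π y)) * (f' y - f y)) = C.pr c f := by
    intro S
    induction S using Finset.induction_on with
    | empty => simp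
    | insert k S hk ih =>
      rw [← ih]
      refine hP (x k) _ _ (TOP.mix hf hf' (hsm S)) (TOP.mix hf hf' (hsm (insert k S)))
        (tsupport (ρ k)) (isClosed_tsupport _).isCompact (hρ k).2.1 fun y hy => ?_
      rw [Finset.sum_insert hk, image_eq_zero_of_notMem_tsupport hy, zero_add]
  have := key Finset.univ
  simp only [hs, one_mul, add_sub_cancel] at this
  exact this

end Pool.Agent.Lib.SV
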