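import Pool.Agent.Lib.SV.Base

/-! Basic facts on Levi forms, coverings, sections and their norms. -/

open scoped Classical Topology ENNReal
open Set MeasureTheory Complex Filter

set_option linter.unusedVariables false
set_option linter.unusedSectionVars false

noncomputable section

namespace Pool.Agent.Lib.SV

section euc

variable {n : ℕ} {g g' : E n → ℝ} {z : E n}

theorem d2_add (h : ContDiffAt ℝ 2 g z) (h' : ContDiffAt ℝ 2 g' z) (v : E n) :
    d2 (fun w => g w + g' w) z v = d2 g z v + d2 g' z v := by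
  have e : (fun w => fderiv ℝ (fun w => g w + g' w) w v) =ᶠ[𝓝 z]
      fun w => fderiv ℝ g w v + fderiv ℝ g' w v := by
    filter_upwards [h.eventually (by simp), h'.eventually (by simp)] with w a b
    rw [fderiv_fun_add (a.differentiableAt (by simp)) (b.differentiableAt (by simp))]
    rfl
  have d : ∀ {f : E n → ℝ}, ContDiffAt ℝ 2 f z → DifferentiableAt ℝ (fun w => fderiv ℝ f w v) z :=
    fun hf => ((hf.fderiv_right (m := 1) (by norm_num)).differentiableAt (by norm_num)).clm_apply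
      (differentiableAt_const v)
  unfold d2
  rw [e.fderiv_eq, fderiv_fun_add (d h) (d h')]
  rfl

theorem d2_const_mul (h : ContDiffAt ℝ 2 g z) (c : ℝ) (v : E n) :
    d2 (fun w => c * g w) z v = c * d2 g z v := by
  have e : (fun w => fderiv ℝ (fun w => c * g w) w v) =ᶠ[𝓝 z] fun w => c * fderiv ℝ g w v := by
    filter_upwards [h.eventually (by simp)] with w a
    rw [fderiv_const_mul (a.differentiableAt (by simp))]
    rfl
  have d : DifferentiableAt ℝ (fun w => fderiv ℝ g w v) z :=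
    ((h.fderiv_right (m := 1) (by norm_num)).differentiableAt (by norm_num)).clm_apply
      (differentiableAt_const v)
  unfold d2
  rw [e.fderiv_eq, fderiv_const_mul d]
  rfl

theorem d2_const (c : ℝ) (v : E n) : d2 (fun _ => c) z v = 0 := by simp [d2]

/-- Second derivative of a composition with a real function. -/
theorem d2_comp (h : ContDiffAt ℝ 2 g z) {u : ℝ → ℝ} (hu : ContDiffAt ℝ 2 u (g z)) (v : E n) :
    d2 (fun w => u (g w)) z v =
      deriv u (g z) * d2 g z v + deriv (deriv u) (g z) * fderiv ℝ g z v ^ 2 := by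
  have hg := h.differentiableAt (by simp)
  have e : (fun w => fderiv ℝ (fun w => u (g w)) w v) =ᶠ[𝓝 z]
      fun w => deriv u (g w) * fderiv ℝ g w v := by
    filter_upwards [h.eventually (by simp),
      h.continuousAt.tendsto.eventually (hu.eventually (by simp))] with w a b
    have := ((b.differentiableAt (by simp)).hasDerivAt.comp_hasFDerivAt w
      (a.differentiableAt (by simp)).hasFDerivAt).fderiv
    rw [show (fun w => u (g w)) = u ∘ g from rfl, this]
    rfl
  have d : DifferentiableAt ℝ (fun w => fderiv ℝ g w v) z :=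
    ((h.fderiv_right (m := 1) (by norm_num)).differentiableAt (by norm_num)).clm_apply
      (differentiableAt_const v)
  have du : DifferentiableAt ℝ (deriv u) (g z) :=
    (hu.derivWithin (m := 1) (by norm_num)).differentiableAt (by simp)
  have d' := du.hasDerivAt.comp_hasFDerivAt z hg.hasFDerivAt
  unfold d2
  have d'' := (d'.mul d.hasFDerivAt).fderiv
  rw [e.fderiv_eq, show (fun w => deriv u (g w) * fderiv ℝ g w v) =
    deriv u ∘ g * fun w => fderiv ℝ g w v from rfl, d'']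
  simp only [add_apply, smul_apply, smul_eq_mul,
    Function.comp_apply]
  ring

end euc

section rd

variable {n : ℕ} {Y : Type} [TopologicalSpace Y] {p : Y → E n} {y : Y} {f g : Y → ℝ}

theorem lev_add (hf : Sm p 2 f y) (hg : Sm p 2 g y) (v : E n) :
    lev p (fun x => f x + g x) y v = lev p f y v + lev p g y v := by
  have := fun w => d2_add hf hg w
  unfold lev levE
  rw [show (fun x => f x + g x) ∘ lift p y = fun w => (f ∘ lift p y) w + (g ∘ lift p y) w from rfl,
    this, this]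
  ring

theorem lev_const_mul (hf : Sm p 2 f y) (c : ℝ) (v : E n) :
    lev p (fun x => c * f x) y v = c * lev p f y v := by
  have := fun w => d2_const_mul hf c w
  unfold lev levE
  rw [show (fun x => c * f x) ∘ lift p y = fun w => c * (f ∘ lift p y) w from rfl, this, this]
  ring

theorem lev_const (c : ℝ) (v : E n) : lev p (fun _ => c) y v = 0 := by
  unfold lev levE
  rw [show (fun _ => c) ∘ lift p y = fun _ => c from rfl, d2_const, d2_const, add_zero]

theorem lev_neg (hf : Sm p 2 f y) (v : E n) : lev p (fun x => -f x) y v = -lev p f y v := by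
  simpa using lev_const_mul hf (-1) v

theorem lev_sub (hf : Sm p 2 f y) (hg : Sm p 2 g y) (v : E n) :
    lev p (fun x => f x - g x) y v = lev p f y v - lev p g y v := by
  simp only [sub_eq_add_neg]
  rw [lev_add hf hg.neg, lev_neg hg]

theorem lev_comp (h : LocH p y) (hf : Sm p 2 f y) {u : ℝ → ℝ} (hu : ContDiffAt ℝ 2 u (f y))
    (v : E n) : lev p (fun x => u (f x)) y v =
      deriv u (f y) * lev p f y v + deriv (deriv u) (f y) * grd p f y v := by
  have e : (f ∘ lift p y) (p y) = f y := by rw [Function.comp_apply, h.lift_self]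
  have := fun w => d2_comp hf (u := u) (by rwa [e]) w
  unfold lev levE grd dd
  rw [show (fun x => u (f x)) ∘ lift p y = fun w => u ((f ∘ lift p y) w) from rfl, this, this, e]
  ring

theorem dd_comp (h : LocH p y) (hf : Sm p 1 f y) {u : ℝ → ℝ} (hu : DifferentiableAt ℝ u (f y))
    (v : E n) : dd p (fun x => u (f x)) y v = deriv u (f y) * dd p f y v := by
  have e : (f ∘ lift p y) (p y) = f y := by rw [Function.comp_apply, h.lift_self]
  rw [← e] at hu
  have := (hu.hasDerivAt.comp_hasFDerivAt (p y) (Sm.differentiableAt hf).hasFDerivAt).fderiv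
  rw [dd, show (fun x => u (f x)) ∘ lift p y = u ∘ (f ∘ lift p y) from rfl, this, e]
  rfl

theorem grd_nonneg (v : E n) : 0 ≤ grd p f y v := add_nonneg (sq_nonneg _) (sq_nonneg _)

theorem lev_zero : lev p f y 0 = 0 := by simp [lev, levE, d2]

theorem Psh.add (hf : Psh p f y) (hg : Psh p g y) : Psh p (fun x => f x + g x) y :=
  ⟨hf.1.add hg.1, fun v => by rw [lev_add hf.1 hg.1]; exact add_nonneg (hf.2 v) (hg.2 v)⟩

theorem Psh.const_mul (hf : Psh p f y) {c : ℝ} (hc : 0 ≤ c) : Psh p (fun x => c * f x) y :=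
  ⟨(sm_const c).mul hf.1, fun v => by rw [lev_const_mul hf.1]; exact mul_nonneg hc (hf.2 v)⟩

theorem LU.add (hf : LU p f y) (hg : LU p g y) : LU p (fun x => f x + g x) y := by
  obtain ⟨V, hV, H⟩ := hf
  obtain ⟨V', hV', H'⟩ := hg
  refine ⟨V ∩ V', inter_mem hV hV', fun δ hδ => ?_⟩
  obtain ⟨u, hu⟩ := H (δ / 2) (half_pos hδ)
  obtain ⟨u', hu'⟩ := H' (δ / 2) (half_pos hδ)
  refine ⟨fun x => u x + u' x, fun x hx => ⟨(hu x hx.1).1.add (hu' x hx.2).1, ?_⟩⟩
  have a := abs_le.1 (hu x hx.1).2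
  have b := abs_le.1 (hu' x hx.2).2
  exact abs_le.2 ⟨by linarith [a.1, b.1], by linarith [a.2, b.2]⟩

theorem LU.const_mul (hf : LU p f y) {c : ℝ} (hc : 0 ≤ c) : LU p (fun x => c * f x) y := by
  obtain ⟨V, hV, H⟩ := hf
  refine ⟨V, hV, fun δ hδ => ?_⟩
  obtain ⟨u, hu⟩ := H (δ / (c + 1)) (by positivity)
  refine ⟨fun x => c * u x, fun x hx => ⟨(hu x hx).1.const_mul hc, ?_⟩⟩
  rw [← mul_sub, abs_mul, abs_of_nonneg hc]
  calc c * |f x - u x| ≤ (c + 1) * (δ / (c + 1)) :=
        mul_le_mul (by linarith) (hu x hx).2 (abs_nonneg _) (by positivity)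
    _ = δ := by field_simp

theorem LU.continuousAt (h : LocH p y) (hf : LU p f y) : ContinuousAt f y := by
  obtain ⟨V, hV, H⟩ := hf
  refine Metric.continuousAt_iff'.2 fun ε hε => ?_
  obtain ⟨u, hu⟩ := H (ε / 3) (by positivity)
  have h0 := hu y (mem_of_mem_nhds hV)
  filter_upwards [hV, Metric.continuousAt_iff'.1 (h0.1.1.continuousAt h) (ε / 3) (by positivity)]
    with x hx h1
  rw [Real.dist_eq] at h1 ⊢
  have a := abs_le.1 (hu x hx).2
  have b := abs_le.1 h0.2
  have c := abs_lt.1 h1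
  exact abs_lt.2 ⟨by linarith [a.1, b.2, c.1], by linarith [a.2, b.1, c.2]⟩

end rd

namespace Ctx

variable {n : ℕ} (C : Ctx n) {i j : C.ι} {y : C.Y} {a b a' b' k : ℕ}
  {F : Type} [NormedAddCommGroup F] [NormedSpace ℝ F]

theorem base_q (i : C.ι) : C.base.q i = C.P.p i := rfl

theorem base_W (i : C.ι) : C.base.W i = C.P.U i := rfl

theorem isLocalHomeomorph : IsLocalHomeomorph C.π := C.cov.isCoveringMap.isLocalHomeomorph

theorem continuous_π : Continuous C.π := C.isLocalHomeomorph.continuous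

theorem π_smul (γ : C.Γ) (y : C.Y) : C.π (γ • y) = C.π y := C.cov.map_smul γ

theorem continuous_smul (γ : C.Γ) : Continuous fun y : C.Y => γ • y :=
  C.cov.continuous_const_smul γ

theorem exists_smul {y y' : C.Y} (h : C.π y = C.π y') : ∃ γ : C.Γ, γ • y' = y :=
  C.cov.apply_eq_iff_mem_orbit.1 h

theorem rd (i : C.ι) : RD (C.q i) (C.W i) :=
  ⟨(C.good.rd i).opn.preimage C.continuous_π,
    (C.good.rd i).loc.comp C.isLocalHomeomorph.isLocalHomeomorphOn fun _ h => h⟩

variable {C}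

theorem locH (hy : y ∈ C.W i) : LocH (C.q i) y := (C.rd i).locH hy

theorem locH_base (hy : y ∈ C.W i) : LocH (C.P.p i) (C.π y) := (C.good.rd i).locH hy

theorem smul_mem_W (γ : C.Γ) : γ • y ∈ C.W i ↔ y ∈ C.W i := by
  simp only [mem_preimage, C.π_smul]

theorem q_smul (γ : C.Γ) : C.q i (γ • y) = C.q i y := by
  simp only [Function.comp_apply, C.π_smul]

theorem lift_π (hy : y ∈ C.W i) :
    lift (C.P.p i) (C.π y) =ᶠ[𝓝 (C.q i y)] C.π ∘ lift (C.q i) y :=
  (locH hy).lift_map (locH_base hy) C.continuous_π.continuousAt (Eventually.of_forall fun _ => rfl)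

theorem lift_smul (hy : y ∈ C.W i) (γ : C.Γ) :
    lift (C.q i) (γ • y) =ᶠ[𝓝 (C.q i y)] (fun x => γ • x) ∘ lift (C.q i) y :=
  (locH hy).lift_map (m := fun x => γ • x) (locH ((smul_mem_W γ).2 hy))
    (C.continuous_smul γ).continuousAt (Eventually.of_forall fun _ => q_smul γ)

theorem sm_π (hy : y ∈ C.W i) {f : C.X → F} :
    Sm (C.q i) k (f ∘ C.π) y ↔ Sm (C.P.p i) k f (C.π y) :=
  ⟨fun h => ContDiffAt.congr_of_eventuallyEq h ((lift_π hy).fun_comp f),
    fun h => ContDiffAt.congr_of_eventuallyEq h ((lift_π hy).fun_comp f).symm⟩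

theorem hol_π (hy : y ∈ C.W i) {f : C.X → ℂ} :
    Hol (C.q i) (f ∘ C.π) y ↔ Hol (C.P.p i) f (C.π y) :=
  ((lift_π hy).fun_comp f).differentiableAt_iff.symm

theorem dd_π (hy : y ∈ C.W i) (f : C.X → F) :
    dd (C.q i) (f ∘ C.π) y = dd (C.P.p i) f (C.π y) :=
  ((lift_π hy).fun_comp f).fderiv_eq.symm

theorem lev_π (hy : y ∈ C.W i) (f : C.X → ℝ) (v : E n) :
    lev (C.q i) (f ∘ C.π) y v = lev (C.P.p i) f (C.π y) v :=
  (levE_congr ((lift_π hy).fun_comp f) v).symm

theorem sm_smul (hy : y ∈ C.W i) (γ : C.Γ) {f : C.Y → F} :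
    Sm (C.q i) k (fun x => f (γ • x)) y ↔ Sm (C.q i) k f (γ • y) := by
  unfold Sm
  rw [q_smul]
  exact ⟨fun h => h.congr_of_eventuallyEq ((lift_smul hy γ).fun_comp f),
    fun h => h.congr_of_eventuallyEq ((lift_smul hy γ).fun_comp f).symm⟩

theorem hol_smul (hy : y ∈ C.W i) (γ : C.Γ) {f : C.Y → ℂ} :
    Hol (C.q i) (fun x => f (γ • x)) y ↔ Hol (C.q i) f (γ • y) := by
  unfold Hol
  rw [q_smul]
  exact ((lift_smul hy γ).fun_comp f).differentiableAt_iff.symm

theorem dd_smul (hy : y ∈ C.W i) (γ : C.Γ) (f : C.Y → F) :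
    dd (C.q i) (fun x => f (γ • x)) y = dd (C.q i) f (γ • y) := by
  unfold dd
  rw [q_smul]
  exact ((lift_smul hy γ).fun_comp f).fderiv_eq.symm

theorem lev_smul (hy : y ∈ C.W i) (γ : C.Γ) (f : C.Y → ℝ) (v : E n) :
    lev (C.q i) (fun x => f (γ • x)) y v = lev (C.q i) f (γ • y) v := by
  unfold lev
  rw [q_smul]
  exact (levE_congr ((lift_smul hy γ).fun_comp f) v).symm

theorem sm_φ (hy : y ∈ C.W i) : Sm (C.q i) 2 (C.φ i) y := (sm_π hy).2 (C.good.smφ i _ hy)

theorem sm_κ (hy : y ∈ C.W i) : Sm (C.q i) 2 (C.κ i) y := (sm_π hy).2 (C.good.smκ i _ hy)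

theorem sm_wt (hy : y ∈ C.W i) : Sm (C.q i) 2 (C.wt a b i) y :=
  ((sm_const _).mul (sm_κ hy)).add ((sm_const _).mul (sm_φ hy))

theorem om_eq (hy : y ∈ C.W i) (v : E n) : C.om i y v = C.base.om i (C.π y) v := lev_π hy _ v

theorem om_pos (hy : y ∈ C.W i) {v : E n} (hv : v ≠ 0) : 0 < C.om i y v := by
  rw [om_eq hy]
  exact C.good.pos i _ hy v hv

theorem om_nonneg (hy : y ∈ C.W i) (v : E n) : 0 ≤ C.om i y v := by
  by_cases hv : v = 0
  · rw [hv, om, lev_zero]
  · exact (om_pos hy hv).le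

theorem om_smul (hy : y ∈ C.W i) (γ : C.Γ) (v : E n) : C.om i (γ • y) v = C.om i y v := by
  rw [om_eq hy, om_eq ((smul_mem_W γ).2 hy), C.π_smul]

theorem mem_ix (y : C.Y) : y ∈ C.W (C.ix y) := (C.good.cov (C.π y)).choose_spec

theorem nr_nonneg (g : C.ι → C.Y → ℂ) (y : C.Y) : 0 ≤ C.nr a b g y :=
  mul_nonneg (normSq_nonneg _) (Real.exp_pos _).le

variable {g g' : C.ι → C.Y → ℂ}

theorem mem_Sec : g ∈ C.Sec a b ↔ C.P.IsSec C.π a b g := Iff.rfl

theorem nr_eq (hg : g ∈ C.Sec a b) (hy : y ∈ C.W i) :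
    C.nr a b g y = normSq (g i y) * Real.exp (-C.wt a b i y) := by
  have hx := mem_ix y
  have h1 := normSq_pos.2 (C.good.d0 i _ _ hy hx)
  have h2 := normSq_pos.2 (C.good.ξ0 i _ _ hy hx)
  rw [nr, hg.cmp i _ y hy hx, wt, wt]
  simp only [map_mul, map_pow, Function.comp_apply]
  rw [C.good.relφ i _ _ hy hx, C.good.relκ i _ _ hy hx]
  rw [show ∀ s t u w : ℝ, -(a * (s + t) + b * (u + w)) = -(a * s + b * u) - a * t - b * w from
    fun _ _ _ _ => by ring, Real.exp_sub, Real.exp_sub, Real.exp_nat_mul, Real.exp_nat_mul,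
    Real.exp_log h1, Real.exp_log h2]
  field_simp

theorem nr_eq_zero (hg : g ∈ C.Sec a b) (hy : y ∈ C.W i) : C.nr a b g y = 0 ↔ g i y = 0 := by
  rw [nr_eq hg hy, mul_eq_zero, normSq_eq_zero, or_iff_left (Real.exp_pos _).ne']

theorem continuous_nr (hg : g ∈ C.Sec a b) : Continuous (C.nr a b g) := by
  refine continuous_iff_continuousAt.2 fun y => ?_
  have hy := mem_ix y
  refine ContinuousAt.congr (f := fun x => normSq (g (C.ix y) x) *
    Real.exp (-C.wt a b (C.ix y) x)) ?_ ?_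
  · exact (continuous_normSq.continuousAt.comp ((hg.hol _ y hy).continuousAt (locH hy))).mul
      (Real.continuous_exp.continuousAt.comp ((sm_wt hy).continuousAt (locH hy)).neg)
  · filter_upwards [(C.rd _).opn.mem_nhds hy] with x hx using (nr_eq hg hx).symm

theorem eq_zero_of_nr (hg : g ∈ C.Sec a b) (h : ∀ y, C.nr a b g y = 0) : g = 0 := by
  funext i y
  by_cases hy : y ∈ C.W i
  · exact (nr_eq_zero hg hy).1 (h y)
  · exact hg.off i y hy

theorem pb_mem {s : C.ι → C.X → ℂ} (hs : s ∈ C.base.Sec a b) : C.pb s ∈ C.Sec a b :=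
  ⟨fun i y hy => (hol_π hy).2 (hs.hol i _ hy), fun i j y hi hj => hs.cmp i j _ hi hj,
    fun i y hy => hs.off i _ hy⟩

theorem nr_pb (s : C.ι → C.X → ℂ) (y : C.Y) :
    C.nr a b (C.pb s) y = C.base.nr a b s (C.π y) := rfl

theorem tl_mem (hg : g ∈ C.Sec a b) (γ : C.Γ) : C.tl γ g ∈ C.Sec a b :=
  ⟨fun i y hy => (hol_smul hy γ).2 (hg.hol i _ ((smul_mem_W γ).2 hy)), fun i j y hi hj => by
    have := hg.cmp i j _ ((smul_mem_W γ).2 hi) ((smul_mem_W γ).2 hj)
    rwa [C.π_smul] at this,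
    fun i y hy => hg.off i _ fun h => hy ((smul_mem_W γ).1 h)⟩

theorem wt_smul (γ : C.Γ) : C.wt a b i (γ • y) = C.wt a b i y := by
  simp only [wt, Function.comp_apply, C.π_smul]

theorem nr_tl (hg : g ∈ C.Sec a b) (γ : C.Γ) (y : C.Y) :
    C.nr a b (C.tl γ g) y = C.nr a b g (γ • y) := by
  rw [nr_eq (tl_mem hg γ) (mem_ix y), nr_eq hg ((smul_mem_W γ).2 (mem_ix y)), wt_smul]
  rfl

theorem mul_mem (hg : g ∈ C.Sec a b) (hg' : g' ∈ C.Sec a' b') :
    g * g' ∈ C.Sec (a + a') (b + b') :=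
  ⟨fun i y hy => (hg.hol i y hy).mul (hg'.hol i y hy), fun i j y hi hj => by
    simp only [Pi.mul_apply, hg.cmp i j y hi hj, hg'.cmp i j y hi hj]
    ring,
    fun i y hy => by simp only [Pi.mul_apply, hg.off i y hy, zero_mul]⟩

theorem nr_mul (g g' : C.ι → C.Y → ℂ) (y : C.Y) :
    C.nr (a + a') (b + b') (g * g') y = C.nr a b g y * C.nr a' b' g' y := by
  simp only [nr, wt, Pi.mul_apply, map_mul, Nat.cast_add]
  rw [mul_mul_mul_comm, ← Real.exp_add]
  congr 2
  ring

theorem nr_smul (c : ℂ) (g : C.ι → C.Y → ℂ) (y : C.Y) :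
    C.nr a b (c • g) y = normSq c * C.nr a b g y := by
  simp only [nr, Pi.smul_apply, smul_eq_mul, map_mul, mul_assoc]

theorem pow_mem (hg : g ∈ C.Sec a b) (k : ℕ) :
    g ^ (k + 1) ∈ C.Sec ((k + 1) * a) ((k + 1) * b) := by
  induction k with
  | zero => simpa using hg
  | succ k ih =>
    have := mul_mem ih hg
    rwa [← pow_succ, ← add_one_mul, ← add_one_mul] at this

variable (C)

theorem ξ_mem (i : C.ι) : C.P.ξ i ∈ C.base.Sec 0 1 := C.good.secξ i

theorem jac_mem (i : C.ι) : C.P.jac i ∈ C.base.Sec 1 (n + 1) := C.good.secj i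

theorem l_mem : C.P.l ∈ C.base.Sec 0 1 := C.good.secl

/-- The section whose non-vanishing locus is the domain of the chart `i`. -/
theorem σ_mem (i : C.ι) : C.P.ξ i * C.P.jac i ∈ C.base.Sec 1 (n + 2) := by
  have := mul_mem (C.ξ_mem i) (C.jac_mem i)
  rwa [zero_add, show 1 + (n + 1) = n + 2 by ring] at this

theorem nz_σ (i : C.ι) : C.nz 1 (n + 2) (C.P.ξ i * C.P.jac i) = C.P.U i := by
  ext x
  constructor
  · intro h
    have hx : x ∈ C.base.W (C.base.ix x) := mem_ix (C := C.base) x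
    have := mt (nr_eq_zero (C.σ_mem i) hx).2 h
    exact C.good.mem i _ x hx (left_ne_zero_of_mul this) (right_ne_zero_of_mul this)
  · intro hx h
    have := (nr_eq_zero (C := C.base) (C.σ_mem i) hx).1 h
    simp only [Pi.mul_apply, C.good.ξ1 i x hx, C.good.j1 i x hx, mul_one, one_ne_zero] at this

theorem isOpen_nz {σ : C.ι → C.X → ℂ} (h : σ ∈ C.base.Sec a b) : IsOpen (C.nz a b σ) :=
  isOpen_ne.preimage (continuous_nr h)

end Ctx

end Pool.Agent.Lib.SV
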