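import Pool.Agent.Lib.SV.Base2

/-! Blueprint, part 1: several complex variables, Riemann domains, the theorem of Hörmander. -/

open scoped Classical Topology ENNReal
open Set MeasureTheory Complex Filter Metric

noncomputable section

namespace Pool.Agent.Lib.SV

/-! ### Several complex variables -/

/-- Complex differentiable on an open set implies smooth. -/
def St_SMO : Prop := ∀ (n : ℕ) (F : Type) [NormedAddCommGroup F] [NormedSpace ℂ F] [CompleteSpace F]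
  (U : Set (E n)) (f : E n → F), IsOpen U → DifferentiableOn ℂ f U → ∀ k : ℕ, ContDiffOn ℂ k f U

/-- Theorem of Weierstrass. -/
def St_WEI : Prop := ∀ (n : ℕ) (ι : Type) (l : Filter ι) [l.NeBot] (U : Set (E n))
  (f : ι → E n → ℂ) (g : E n → ℂ), IsOpen U → (∀ᶠ i in l, DifferentiableOn ℂ (f i) U) →
  TendstoLocallyUniformlyOn f g l U → DifferentiableOn ℂ g U

/-- Sub-mean value inequality for a power of the modulus. -/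
def St_SUB : Prop := ∀ (F : Type) [NormedAddCommGroup F] [NormedSpace ℂ F] [FiniteDimensional ℂ F]
  [MeasurableSpace F] [BorelSpace F] (μ : Measure F) [μ.IsAddHaarMeasure] (f : F → ℂ) (z : F)
  (r e : ℝ), 0 < r → 0 < e → DifferentiableOn ℂ f (ball z r) →
  ENNReal.ofReal (‖f z‖ ^ e) * μ (ball z r) ≤ ∫⁻ w in ball z r, ENNReal.ofReal (‖f w‖ ^ e) ∂μ

/-- The zero set of a non-zero holomorphic function on a ball is null. -/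
def St_ZER : Prop := ∀ (n : ℕ) (f : E n → ℂ) (z : E n) (r : ℝ), DifferentiableOn ℂ f (ball z r) →
  (∃ w ∈ ball z r, f w ≠ 0) → volume {w | w ∈ ball z r ∧ f w = 0} = 0

/-- Removable singularities for square integrable holomorphic functions. -/
def St_REM : Prop := ∀ (n : ℕ) (f j : E n → ℂ) (z : E n) (r : ℝ), 0 < r →
  DifferentiableOn ℂ j (ball z r) → (∃ w ∈ ball z r, j w ≠ 0) →
  DifferentiableOn ℂ f {w | w ∈ ball z r ∧ j w ≠ 0} →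
  ∫⁻ w in {w | w ∈ ball z r ∧ j w ≠ 0}, ENNReal.ofReal (‖f w‖ ^ 2) ≠ ∞ →
  ∃ g : E n → ℂ, DifferentiableOn ℂ g (ball z r) ∧ ∀ w ∈ ball z r, j w ≠ 0 → g w = f w

/-- Jets: `t^n` linear conditions force vanishing of order `t`. -/
def St_JET : Prop := ∀ (n t : ℕ) (z : E n), ∃ Λ : (E n → ℂ) → (Fin n → Fin t) → ℂ,
  (∀ f g, f =ᶠ[𝓝 z] g → Λ f = Λ g) ∧
  (∀ (c : ℂ) f g, (∀ᶠ w in 𝓝 z, DifferentiableAt ℂ f w) → (∀ᶠ w in 𝓝 z, DifferentiableAt ℂ g w) →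
    Λ (c • f + g) = c • Λ f + Λ g) ∧
  ∀ f (R M : ℝ), DifferentiableOn ℂ f (ball z R) → (∀ w ∈ ball z R, ‖f w‖ ≤ M) → Λ f = 0 →
    ∀ w ∈ ball z R, ‖f w‖ ≤ 2 * M * (‖w - z‖ / R) ^ t

/-- Lemma of Siegel and Serre. -/
def St_SIE : Prop := ∀ (m t : ℕ) (V J : Type) [AddCommGroup V] [Module ℂ V] [Fintype J]
  (r : J → V →ₗ[ℂ] E m → ℂ) (z : J → E m) (ρ : J → ℝ) (D : ℝ), (∀ j, 0 < ρ j) → 0 ≤ D →
  2 * D < 2 ^ t → (∀ j v, DifferentiableOn ℂ (r j v) (ball (z j) (2 * ρ j))) →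
  (∀ v (M : ℝ), 0 ≤ M → (∀ j, ∀ w ∈ ball (z j) (ρ j), ‖r j v w‖ ≤ M) →
    ∀ j, ∀ w ∈ ball (z j) (2 * ρ j), ‖r j v w‖ ≤ D * M) →
  ∃ Φ : V →ₗ[ℂ] (J × (Fin m → Fin t) → ℂ),
    ∀ v, Φ v = 0 → ∀ j, ∀ w ∈ ball (z j) (2 * ρ j), r j v w = 0

/-- The Levi form of a `C^2` function under a holomorphic map. -/
def St_LEVC : Prop := ∀ (n : ℕ) (g : E n → ℝ) (τ : E n → E n) (z v : E n),
  (∀ᶠ w in 𝓝 z, DifferentiableAt ℂ τ w) → ContDiffAt ℝ 2 g (τ z) →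
  levE (g ∘ τ) z v = levE g (τ z) (fderiv ℂ τ z v)

/-- Levi form of the logarithm of the squared norm of a holomorphic map. -/
def St_FS : Prop := ∀ (n : ℕ) (ι : Type) [Fintype ι] (F : E n → ι → ℂ) (z : E n) (δ : ℝ), 0 ≤ δ →
  (∀ᶠ w in 𝓝 z, DifferentiableAt ℂ F w) → 0 < nsq (F z) + δ →
  ContDiffAt ℝ 2 (fun w => Real.log (nsq (F w) + δ)) z ∧ ∀ v,
    levE (fun w => Real.log (nsq (F w) + δ)) z v =
      4 * ((nsq (F z) + δ) * nsq (fderiv ℂ F z v) -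
        normSq (∑ i, fderiv ℂ F z v i * (starRingEnd ℂ) (F z i))) / (nsq (F z) + δ) ^ 2 ∧
    0 ≤ levE (fun w => Real.log (nsq (F w) + δ)) z v

/-- Second derivative of a log-sum-exp. -/
def St_LSE : Prop := ∀ (n : ℕ) (ι : Type) (s : Finset ι) (w : ι → E n → ℝ) (z : E n), s.Nonempty →
  (∀ i ∈ s, ContDiffAt ℝ 2 (w i) z) →
  ContDiffAt ℝ 2 (fun x => Real.log (∑ i ∈ s, Real.exp (w i x))) z ∧ ∀ v,
    d2 (fun x => Real.log (∑ i ∈ s, Real.exp (w i x))) z v =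
      (∑ i ∈ s, Real.exp (w i z) * (d2 (w i) z v + (fderiv ℝ (w i) z v -
        fderiv ℝ (fun x => Real.log (∑ i ∈ s, Real.exp (w i x))) z v) ^ 2)) /
      ∑ i ∈ s, Real.exp (w i z)

/-- Freezing a positive Levi form. -/
def St_FRZ : Prop := ∀ (n : ℕ) (g : E n → ℝ) (z : E n), ContDiffAt ℝ 2 g z →
  (∀ v ≠ 0, 0 < levE g z v) → ∃ P : E n ≃L[ℂ] E n, ∀ᶠ w in 𝓝 z, ∀ v,
    4 * nsq (P v) ≤ levE g w v ∧ levE g w v ≤ 16 * nsq (P v)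

/-- Local bounds for first and second derivatives. -/
def St_LOCB : Prop := ∀ (n : ℕ) (g h : E n → ℝ) (z : E n), ContDiffAt ℝ 2 g z →
  ContDiffAt ℝ 2 h z → (∀ v ≠ 0, 0 < levE h z v) → ∃ M, ∀ᶠ w in 𝓝 z, ∀ v,
    fderiv ℝ g w v ^ 2 + fderiv ℝ g w (I • v) ^ 2 ≤ M * levE h w v ∧
    |levE g w v| ≤ M * levE h w v ∧ nsq v ≤ M * levE h w v ∧ levE h w v ≤ M * nsq v

/-- Logarithmic poles. -/
def St_POLE : Prop := ∀ n : ℕ, 0 < n → ∃ L : ℝ, 0 < L ∧ ∃ (ψ : ℕ → E n → ℝ) (χ : E n → ℝ),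
  (∀ k, ContDiff ℝ 2 (ψ k)) ∧ ContDiff ℝ 2 χ ∧ (∀ z, Antitone fun k => ψ k z) ∧
  (∀ k z, ψ k z ≤ L) ∧ (∀ k z, 1 ≤ nsq z → ψ k z = 0) ∧ (∀ z, 1 ≤ nsq z → χ z = 0) ∧
  (∀ z, nsq z ≤ 1 / 4 → χ z = 1) ∧ (∀ k z, 1 / 4 ≤ nsq z → -L ≤ ψ k z) ∧
  (∀ k z v, -(L * nsq v) ≤ levE (ψ k) z v) ∧
  ∀ k z, nsq z ≤ 1 / 4 → ψ k z = n * Real.log (nsq z + 1 / (k + 1))

/-- Non-integrability of the pole. -/
def St_NINT : Prop := ∀ (n : ℕ) (u : E n → ℂ) (z : E n) (O : Set (E n)) (M : ℝ≥0∞), 0 < n →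
  O ∈ 𝓝 z → ContinuousAt u z → M ≠ ∞ → (∀ k : ℕ, ∫⁻ w in O,
    ENNReal.ofReal (‖u w‖ ^ 2 / (nsq (w - z) + 1 / (k + 1)) ^ n) ≤ M) → u z = 0

/-! ### Riemann domains -/

/-- A Riemann domain with the usual topological hypotheses. -/
structure Dom (n : ℕ) where
  Y : Type
  [tY : TopologicalSpace Y]
  [hY : T2Space Y]
  [sY : SecondCountableTopology Y]
  [mY : MeasurableSpace Y]
  [bY : BorelSpace Y]
  p : Y → E n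
  W : Set Y
  rd : RD p W

attribute [instance] Dom.tY Dom.hY Dom.sY Dom.mY Dom.bY

/-- The measure of a Riemann domain. -/
abbrev Dom.μ {n : ℕ} (D : Dom n) : Measure D.Y := rm D.p D.W

/-- The Riemann domain given by an open subset of a chart domain of a covering. -/
@[reducible] def Ctx.dom {n : ℕ} (C : Ctx n) (i : C.ι) (W : Set C.Y) (ho : IsOpen W)
    (hs : W ⊆ C.W i) : Dom n where
  Y := C.Y
  p := C.q i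
  W := W
  rd := (C.rd i).mono ho hs

/-- The pull-back of Lebesgue measure. -/
def St_RM : Prop := ∀ (n : ℕ) (D : Dom n), IsRM D.p D.W D.μ ∧
  (∀ e, Cht D.p D.W e → D.μ.restrict e.source = (volume.restrict e.target).map e.symm) ∧
  (∀ e, Cht D.p D.W e → ∀ f : D.Y → ℝ≥0∞,
    ∫⁻ y in e.source, f y ∂D.μ = ∫⁻ z in e.target, f (e.symm z)) ∧
  (∀ e, Cht D.p D.W e → ∀ f : D.Y → ℂ, ∫ y in e.source, f y ∂D.μ = ∫ z in e.target, f (e.symm z)) ∧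
  (∀ e, Cht D.p D.W e → ∀ f : D.Y → ℝ, ∫ y in e.source, f y ∂D.μ = ∫ z in e.target, f (e.symm z)) ∧
  (∀ W', IsOpen W' → W' ⊆ D.W → rm D.p W' = D.μ.restrict W') ∧
  (∀ K, IsCompact K → K ⊆ D.W → D.μ K ≠ ∞) ∧
  (∀ O, IsOpen O → O ⊆ D.W → D.μ O = 0 → O = ∅) ∧ SigmaFinite D.μ

/-- Cut-off functions and finite partitions of unity. -/
def St_CUT : Prop := ∀ (n : ℕ) (D : Dom n) (K : Set D.Y) (ι : Type) [Fintype ι] (O : ι → Set D.Y),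
  IsCompact K → (∀ i, IsOpen (O i)) → (∀ i, O i ⊆ D.W) → K ⊆ ⋃ i, O i →
  ∃ χ : ι → D.Y → ℝ, (∀ i, Tst D.p (O i) 2 (χ i)) ∧ (∀ i, Tst D.p D.W 2 (χ i)) ∧
    (∀ i y, 0 ≤ χ i y) ∧ (∀ y, ∑ i, χ i y ≤ 1) ∧ ∀ᶠ y in 𝓝ˢ K, ∑ i, χ i y = 1

/-- Integration by parts. -/
def St_IBP : Prop := ∀ (n : ℕ) (D : Dom n) (f : D.Y → ℂ),
  (Tst D.p D.W 0 f → Integrable f D.μ) ∧
  (Tst D.p D.W 1 f → ∀ v, ∫ y, dd D.p f y v ∂D.μ = 0)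

/-- Theorem of Montel. -/
def St_MON : Prop := ∀ (n : ℕ) (D : Dom n) (F : ℕ → D.Y → ℂ),
  (∀ y ∈ D.W, ∃ O ∈ 𝓝 y, ∃ M : ℝ≥0∞, M ≠ ∞ ∧ ∀ᶠ k in atTop, (∀ x ∈ O, Hol D.p (F k) x) ∧
    ∫⁻ x in O, ENNReal.ofReal (‖F k x‖ ^ 2) ∂D.μ ≤ M) →
  ∃ (G : D.Y → ℂ) (s : ℕ → ℕ), StrictMono s ∧ ∀ y ∈ D.W, Hol D.p G y ∧
    Tendsto (fun k => F (s k) y) atTop (𝓝 (G y))

/-- Lemma of Weyl. -/
def St_WEYL : Prop := ∀ (n : ℕ) (D : Dom n) (f : D.Y → ℂ), LocallyIntegrableOn f D.W D.μ →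
  (∀ ψ : D.Y → ℂ, Tst D.p D.W 2 ψ → ∀ j, ∫ y, f y * dzb D.p j ψ y ∂D.μ = 0) →
  ∃ F : D.Y → ℂ, (∀ y ∈ D.W, Hol D.p F y) ∧ F =ᵐ[D.μ] f

/-- Smoothing of an LU function near a compact set. -/
def St_RICH : Prop := ∀ (n : ℕ) (D : Dom n) (u : D.Y → ℝ) (K : Set D.Y), IsCompact K → K ⊆ D.W →
  (∀ y ∈ K, LU D.p u y) → ∀ ε > 0, ∃ u' : D.Y → ℝ, ∀ y ∈ K, Sm D.p 2 u' y ∧ |u y - u' y| ≤ 1 ∧
    ∀ v, -(ε * nsq v) ≤ lev D.p u' y v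

/-- The theorem of Hörmander for a `C^2` weight. -/
def St_HOR0 : Prop := ∀ (n : ℕ) (D : Dom n) (s : D.Y → ℝ) (G : D.Y → ℂ) (φ h : D.Y → ℝ),
  Exh D.p D.W s → (∀ y ∈ D.W, Sm D.p 2 G y ∧ Psh D.p φ y ∧ 0 ≤ h y ∧
    ∀ v, ‖dbar D.p G y v‖ ^ 2 ≤ h y * lev D.p φ y v) → AEMeasurable h D.μ →
  ∫⁻ y, ENNReal.ofReal (h y * Real.exp (-φ y)) ∂D.μ ≠ ∞ →
  ∃ F : D.Y → ℂ, (∀ y ∈ D.W, Hol D.p F y) ∧
    ∫⁻ y, ENNReal.ofReal (‖G y - F y‖ ^ 2 * Real.exp (-φ y)) ∂D.μ ≤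
      10 * ∫⁻ y, ENNReal.ofReal (h y * Real.exp (-φ y)) ∂D.μ

/-- The theorem of Hörmander for a decreasing sequence of LU weights. -/
def St_HOR : Prop := ∀ (n : ℕ) (D : Dom n) (s : D.Y → ℝ) (G : D.Y → ℂ) (φ₀ h : D.Y → ℝ)
  (φ : ℕ → D.Y → ℝ) (M : ℝ≥0∞), Exh D.p D.W s →
  (∀ y ∈ D.W, Sm D.p 2 G y ∧ Psh D.p φ₀ y ∧ 0 ≤ h y ∧
    (∀ v, ‖dbar D.p G y v‖ ^ 2 ≤ h y * lev D.p φ₀ y v) ∧
    (∀ k, LU D.p (fun x => φ k x - φ₀ x) y) ∧ Antitone fun k => φ k y) →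
  AEMeasurable h D.μ → M ≠ ∞ →
  (∀ k, ∫⁻ y, ENNReal.ofReal (h y * Real.exp (-φ k y)) ∂D.μ ≤ M) →
  ∃ (F : D.Y → ℂ) (M' : ℝ≥0∞), M' ≠ ∞ ∧ (∀ y ∈ D.W, Hol D.p F y) ∧
    ∀ k, ∫⁻ y, ENNReal.ofReal (‖G y - F y‖ ^ 2 * Real.exp (-φ k y)) ∂D.μ ≤ M'

end Pool.Agent.Lib.SV
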