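import Pool.Agent.Lib.SV.Blue1

/-! Blueprint, part 2: sections, logarithmic poles, iteration, counting, descent. -/

open scoped Classical Topology ENNReal
open Set MeasureTheory Complex Filter Metric

noncomputable section

namespace Pool.Agent.Lib.SV

/-! ### Atlas and sections -/

/-- Change of chart. -/
def St_TR : Prop := ∀ (n : ℕ) (C : Ctx n) (i j : C.ι) (y : C.Y), y ∈ C.W i → y ∈ C.W j →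
  (∀ (F : Type) [NormedAddCommGroup F] [NormedSpace ℝ F] (k : ℕ) (f : C.Y → F),
    Sm (C.q i) k f y → Sm (C.q j) k f y) ∧
  (∀ f, Hol (C.q i) f y → Hol (C.q j) f y) ∧
  (∀ f : C.Y → ℝ, Sm (C.q i) 1 f y → ∀ v, dd (C.q j) f y v = dd (C.q i) f y (C.P.T i j (C.π y) v)) ∧
  (∀ f, Sm (C.q i) 2 f y → ∀ v, lev (C.q j) f y v = lev (C.q i) f y (C.P.T i j (C.π y) v)) ∧
  (∀ v, C.om j y v = C.om i y (C.P.T i j (C.π y) v)) ∧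
  (∀ v, lev (C.q j) (C.κ j) y v = lev (C.q i) (C.κ i) y (C.P.T i j (C.π y) v)) ∧
  (∀ k, y ∈ C.W k → C.P.d i k (C.π y) = C.P.d i j (C.π y) * C.P.d j k (C.π y)) ∧
  Hol (C.q j) (fun x => C.P.d i j (C.π x)) y ∧
  ((C.P.T i j (C.π y)).restrictScalars ℝ).det = normSq (C.P.d i j (C.π y))

/-- Bounds by compactness. -/
def St_BD : Prop := ∀ (n : ℕ) (C : Ctx n),
  (∀ f, C.GSm f → HasCompactSupport f → ∃ M, 0 ≤ M ∧ C.Bd f M) ∧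
  ∃ M, 0 ≤ M ∧ ∀ i, ∀ y ∈ C.W i, ∀ v, |lev (C.q i) (C.κ i) y v| ≤ M * C.om i y v

/-- The proper function on the covering. -/
def St_RHO : Prop := ∀ (n : ℕ) (C : Ctx n) (f : C.Y → ℝ), C.Adm f → (∀ y, 0 ≤ f y) → ∃ ρ, C.Rho ρ

/-- Cut-off functions with small gradient. -/
def St_CHI : Prop := ∀ (n : ℕ) (C : Ctx n) (ρ : C.Y → ℝ), C.Rho ρ → ∃ M : ℝ, ∀ R : ℝ, 1 ≤ R →
  ∃ χ : C.Y → ℝ, C.GSm χ ∧ (∀ y, 0 ≤ χ y ∧ χ y ≤ 1) ∧ (∀ y, ρ y ≤ R → χ y = 1) ∧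
    (∀ y, 2 * R ≤ ρ y → χ y = 0) ∧ ∀ i, ∀ y ∈ C.W i, ∀ v, grd (C.q i) χ y v ≤ M / R ^ 2 * C.om i y v

/-- Partitions of unity on the base. -/
def St_POU : Prop := ∀ (n : ℕ) (C : Ctx n) (O : C.X → Set C.X), (∀ x, O x ∈ 𝓝 x) →
  ∃ (r : ℕ) (x : Fin r → C.X) (ρ : Fin r → C.X → ℝ),
    (∀ k, C.base.GSm (ρ k) ∧ tsupport (ρ k) ⊆ O (x k) ∧ ∀ z, 0 ≤ ρ k z) ∧ ∀ z, ∑ k, ρ k z = 1

/-- Identity theorem. -/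
def St_ID : Prop := ∀ (n : ℕ) (C : Ctx n) (a b : ℕ) (σ : C.ι → C.X → ℂ), σ ∈ C.base.Sec a b →
  σ ≠ 0 → Dense (C.π ⁻¹' C.nz a b σ) ∧ (∀ i, C.leb i (C.π ⁻¹' C.nz a b σ)ᶜ = 0) ∧
    C.V (C.π ⁻¹' C.nz a b σ)ᶜ = 0

/-- The volume measure. -/
def St_VOL : Prop := ∀ (n : ℕ) (C : Ctx n),
  (∀ i, (C.P.U i).Nonempty →
    C.V = (C.leb i).withDensity fun y => ENNReal.ofReal (Real.exp (C.κ i y))) ∧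
  (∀ i, (C.P.U i).Nonempty → ∀ f : C.Y → ℝ≥0∞,
    ∫⁻ y, f y ∂C.V = ∫⁻ y, ENNReal.ofReal (Real.exp (C.κ i y)) * f y ∂C.leb i) ∧
  (∀ K, IsCompact K → C.V K ≠ ∞) ∧ ∀ γ : C.Γ, MeasurePreserving (fun y => γ • y) C.V C.V

/-- Sub-mean value inequality for sections. -/
def St_SUBM : Prop := ∀ (n : ℕ) (C : Ctx n) (a b : ℕ) (e : ℝ) (K : Set C.Y), 0 < e → IsCompact K →
  ∃ (K' : Set C.Y) (L : ℝ≥0∞), IsCompact K' ∧ L ≠ ∞ ∧ ∀ g ∈ C.Sec a b, ∀ y ∈ K,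
    ENNReal.ofReal (C.nr a b g y ^ (e / 2)) ≤
      L * ∫⁻ x in K', ENNReal.ofReal (C.nr a b g x ^ (e / 2)) ∂C.V

/-- Decay and summability of an `L^e` section. -/
def St_TAIL : Prop := ∀ (n : ℕ) (C : Ctx n) (a b : ℕ) (e : ℝ) (g : C.ι → C.Y → ℂ), 0 < e →
  g ∈ C.Sec a b → C.Lp a b e g →
  (∃ M, ∀ y, C.nr a b g y ≤ M) ∧ Tendsto (C.nr a b g) (cocompact C.Y) (𝓝 0) ∧
  (∀ y, Summable fun γ : C.Γ => C.nr a b g (γ • y) ^ (e / 2)) ∧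
  (∃ M, ∀ y, ∑' γ : C.Γ, C.nr a b g (γ • y) ^ (e / 2) ≤ M) ∧
  ∀ K, IsCompact K → ∀ η > 0, ∃ s : Finset C.Γ, ∀ y ∈ K, ∀ t : Finset C.Γ, Disjoint t s →
    ∑ γ ∈ t, C.nr a b g (γ • y) ^ (e / 2) ≤ η

/-- Extension of locally square integrable sections across a divisor. -/
def St_EXT : Prop := ∀ (n : ℕ) (C : Ctx n) (i : C.ι) (a b a' b' : ℕ) (σ : C.ι → C.X → ℂ)
  (g : C.Y → ℂ), σ ∈ C.base.Sec a' b' → σ ≠ 0 → C.nz a' b' σ ⊆ C.P.U i →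
  (∀ y, C.π y ∈ C.nz a' b' σ → Hol (C.q i) g y) →
  (∀ y, ∃ O ∈ 𝓝 y, ∫⁻ x in O ∩ C.π ⁻¹' C.nz a' b' σ,
    ENNReal.ofReal (normSq (g x) * Real.exp (-C.wt a b i x)) ∂C.V ≠ ∞) →
  ∃ s ∈ C.Sec a b, ∀ y, C.π y ∈ C.nz a' b' σ → s i y = g y

/-- Exhaustion of the complement of a divisor. -/
def St_EXH : Prop := ∀ (n : ℕ) (C : Ctx n) (ρ : C.Y → ℝ) (i : C.ι) (a b : ℕ) (σ : C.ι → C.X → ℂ),
  C.Rho ρ → σ ∈ C.base.Sec a b → C.nz a b σ ⊆ C.P.U i →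
  ∃ s, Exh (C.q i) (C.π ⁻¹' C.nz a b σ) s

/-- The logarithm of the norm of a section. -/
def St_W0 : Prop := ∀ (n : ℕ) (C : Ctx n) (i : C.ι) (a b : ℕ) (σ : C.ι → C.X → ℂ),
  σ ∈ C.base.Sec a b → ∃ M, 0 ≤ M ∧ (∀ x, C.base.nr a b σ x ≤ Real.exp M) ∧
    ∀ x ∈ C.nz a b σ, x ∈ C.P.U i →
      Sm (C.P.p i) 2 (fun z => Real.log (C.base.nr a b σ z)) x ∧
      ∀ v, |lev (C.P.p i) (fun z => Real.log (C.base.nr a b σ z)) x v| ≤ M * C.base.om i x v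

/-! ### Interpolation -/

/-- Disjoint univalent ellipsoids. -/
structure Poles {n : ℕ} (D : Dom n) {J : Type} (y : J → D.Y) (P : J → E n ≃L[ℂ] E n) (r : J → ℝ)
    (B : J → Set D.Y) : Prop where
  pos : ∀ j, 0 < r j
  cht : ∀ j, ∃ e, Cht D.p D.W e ∧ y j ∈ e.source ∧
    {z | nsq (P j (z - D.p (y j))) ≤ r j ^ 2} ⊆ e.target ∧
    B j = e.source ∩ {x | nsq (P j (D.p x - D.p (y j))) ≤ r j ^ 2}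
  disj : Pairwise fun i j => Disjoint (B i) (B j)

/-- Interpolation with an `L²` bound. -/
def St_INT : Prop := ∀ n : ℕ, 0 < n → ∃ L : ℝ, 0 < L ∧ ∀ (D : Dom n) (s Φ φ₀ : D.Y → ℝ) (J : Type)
  [Fintype J] (y : J → D.Y) (P : J → E n ≃L[ℂ] E n) (r : J → ℝ) (B : J → Set D.Y),
  Exh D.p D.W s → Poles D y P r B →
  (∀ x ∈ D.W, Sm D.p 2 φ₀ x ∧ (∀ v ≠ 0, 0 < lev D.p φ₀ x v) ∧ LU D.p Φ x) →
  (∀ j, ∀ x ∈ B j, LU D.p (fun z => Φ z - L / r j ^ 2 * nsq (P j (D.p z))) x) →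
  ∀ a : J → ℂ, ∃ F : D.Y → ℂ, (∀ x ∈ D.W, Hol D.p F x) ∧ (∀ j, F (y j) = a j) ∧
    ∫⁻ x, ENNReal.ofReal (‖F x‖ ^ 2 * Real.exp (-(Φ x + φ₀ x))) ∂D.μ ≠ ∞

/-- A square integrable section that does not vanish at a given point. -/
def St_PEAK0 : Prop := ∀ (n : ℕ) (C : Ctx n) (ρ : C.Y → ℝ), 0 < n → C.Rho ρ → ∀ y,
  ∃ k, ∃ s ∈ C.Sec 1 k, C.Lp 1 k 2 s ∧ C.nr 1 k s y ≠ 0

/-- The same with a uniform degree. -/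
def St_PEAK : Prop := ∀ (n : ℕ) (C : Ctx n) (ρ : C.Y → ℝ), 0 < n → C.Rho ρ → ∃ k, ∀ y,
  ∃ s ∈ C.Sec 1 k, C.Lp 1 k 2 s ∧ C.nr 1 k s y ≠ 0

/-- Sections with a zero of high order and no common zero where the cut-off varies. -/
def St_ZBD : Prop := ∀ (n : ℕ) (C : Ctx n) (ρ : C.Y → ℝ), 0 < n → C.Rho ρ → ∃ k, ∀ x ∈ C.W C.o,
  ∀ t : ℕ, ∃ (χ : C.Y → ℝ) (r : ℕ) (s : Fin r → C.ι → C.Y → ℂ),
    C.GSm χ ∧ HasCompactSupport χ ∧ (∀ y, 0 ≤ χ y ∧ χ y ≤ 1) ∧ (∀ᶠ y in 𝓝 x, χ y = 1) ∧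
    (∀ j, s j ∈ C.Sec 1 k) ∧ (∃ M, ∀ y, ∑ j, C.nr 1 k (s j) y ≤ M) ∧
    (∃ M, ∀ᶠ y in 𝓝 x, ∑ j, normSq (s j C.o y) ≤ M * nsq (C.q C.o y - C.q C.o x) ^ t) ∧
    ∃ c > 0, ∀ y, (∀ᶠ y' in 𝓝 y, χ y' = χ y) ∨ c ≤ ∑ j, C.nr 1 k (s j) y

/-- One step of the iteration. -/
def St_IT1 : Prop := ∀ (n : ℕ) (C : Ctx n) (ρ : C.Y → ℝ) (m b : ℕ) (s : C.ι → C.Y → ℂ), 0 < n →
  C.Rho ρ → 1 ≤ m → 1 ≤ b → s ∈ C.Sec m b → ∀ x ∈ C.W C.o,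
  ∃ s' ∈ C.Sec m b, s' C.o x = s C.o x ∧ ∫⁻ y, ⨆ k : ℕ, ENNReal.ofReal
    (C.nr m b s' y / (C.nr m b s y + 1 / (k + 1)) ^ (((m : ℝ) - 1) / m)) ∂C.V ≠ ∞

/-- The iteration. -/
def St_IT : Prop := ∀ (n : ℕ) (C : Ctx n) (ρ : C.Y → ℝ) (m b : ℕ) (s₀ : C.ι → C.X → ℂ), 0 < n →
  C.Rho ρ → 1 ≤ m → 1 ≤ b → s₀ ∈ C.base.Sec m b → ∀ x ∈ C.W C.o,
  ∃ s ∈ C.Sec m b, s C.o x = s₀ C.o (C.π x) ∧ C.Lp m b (4 / m) s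

/-! ### Counting sections -/

/-- Upper bound for the dimension. -/
def St_FIN : Prop := ∀ (n : ℕ) (C : Ctx n), ∃ M : ℝ, ∀ a b : ℕ,
  Module.Finite ℂ (C.base.Sec a b) ∧ (C.h0 a b : ℝ) ≤ M * (a + b + 1) ^ n

/-- Restriction to a hyperplane section. -/
def St_DESC : Prop := ∀ (m : ℕ) (C : Ctx (m + 1)), ∃ M : ℝ, ∀ a b : ℕ,
  (C.h0 a (b + 1) : ℝ) ≤ C.h0 a b + M * (a + b + 1) ^ m

/-- Lattice points. -/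
def St_CELL : Prop := ∀ n : ℕ, ∃ c : ℝ, 0 < c ∧ ∀ (P : E n ≃L[ℂ] E n) (K O : Set (E n)) (R : ℝ),
  IsCompact K → IsOpen O → K ⊆ O → 0 < R → ∀ᶠ k : ℕ in atTop, ∃ S : Finset (E n),
    (∀ y ∈ S, {z | nsq (P (z - y)) ≤ R / k} ⊆ O) ∧
    (∀ y ∈ S, ∀ y' ∈ S, y ≠ y' →
      Disjoint {z | nsq (P (z - y)) ≤ R / k} {z | nsq (P (z - y')) ≤ R / k}) ∧
    ENNReal.ofReal (c * normSq (P : E n →L[ℂ] E n).det * (k / R) ^ n) * volume K ≤ S.card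

/-- Interpolation gives sections. -/
def St_CNT1 : Prop := ∀ n : ℕ, 0 < n → ∃ L : ℝ, 0 < L ∧ ∀ (C : Ctx n) (a b a' b' : ℕ)
  (σ : C.ι → C.X → ℂ) (hσ : σ ∈ C.base.Sec a' b') (hs : C.nz a' b' σ ⊆ C.P.U C.o) (Φ : C.X → ℝ)
  (J : Type) [Fintype J] (y : J → C.X) (P : J → E n ≃L[ℂ] E n) (r : J → ℝ) (B : J → Set C.X),
  σ ≠ 0 → (∀ x ∈ C.nz a' b' σ, LU (C.P.p C.o) Φ x) →
  (∃ M, ∀ x ∈ C.nz a' b' σ, Φ x ≤ C.base.wt a b C.o x + M) →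
  Poles (C.base.dom C.o (C.nz a' b' σ) (C.isOpen_nz hσ) hs) y P r B →
  (∀ j, ∀ x ∈ B j, LU (C.P.p C.o) (fun z => Φ z - L / r j ^ 2 * nsq (P j (C.P.p C.o z))) x) →
  Fintype.card J ≤ C.h0 (1 + a) (1 + b)

/-- The mass of a positive weight is bounded by the number of sections. -/
def St_CNT : Prop := ∀ n : ℕ, 0 < n → ∃ c : ℝ, 0 < c ∧ ∀ (C : Ctx n) (a b a' b' : ℕ)
  (σ : C.ι → C.X → ℂ) (Φ ϖ : C.X → ℝ) (K A : Set C.X) (L : ℝ), σ ∈ C.base.Sec a' b' → σ ≠ 0 →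
  C.nz a' b' σ ⊆ C.P.U C.o → (∀ x ∈ C.nz a' b' σ, LU (C.P.p C.o) Φ x) →
  (∃ M, ∀ x ∈ C.nz a' b' σ, Φ x ≤ C.base.wt a b C.o x + M) →
  IsCompact K → K ⊆ C.nz a' b' σ → MeasurableSet A → A ⊆ K → 0 ≤ L →
  (∀ x ∈ K, ∃ P : E n ≃L[ℂ] E n, ∀ᶠ x' in 𝓝 x,
    LU (C.P.p C.o) (fun z => Φ z - nsq (P (C.P.p C.o z))) x' ∧
    (x' ∈ A → |ϖ x'| ≤ L * normSq (P : E n →L[ℂ] E n).det)) →
  ∀ᶠ k : ℕ in atTop, ENNReal.ofReal (c * k ^ n) * ∫⁻ x in A, ENNReal.ofReal |ϖ x| ∂C.base.leb C.o ≤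
    ENNReal.ofReal (L * C.h0 (1 + k * a) (1 + k * b))

end Pool.Agent.Lib.SV
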