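import Pool.Agent.Lib.SV.Blue2

/-! Blueprint, part 3: the Whitney form, the main estimate, the descent. -/

open scoped Classical Topology ENNReal
open Set MeasureTheory Complex Filter Metric

noncomputable section

namespace Pool.Agent.Lib.SV

/-! ### The Whitney form -/

/-- Pointwise bound for the Whitney form. -/
def St_WB : Prop := ∀ (n : ℕ) (C : Ctx n) (c : (Fin (n * 2 + 1) → C.Γ) → ℝ) (f : C.Y → ℝ)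
  (P : E n ≃L[ℂ] E n) (L : ℝ), BddCocycle (n * 2) c → C.Adm f → 0 ≤ L → ∀ y ∈ C.W C.o,
  (∀ v, C.N1 f y v ^ 2 ≤ L * nsq (P v)) →
  |C.wh c f C.o y| ≤ (n * 2).factorial * L ^ n * normSq (P : E n →L[ℂ] E n).det

/-- Invariance, change of chart, continuity, bound and locality of the Whitney form. -/
def St_WH : Prop := ∀ (n : ℕ) (C : Ctx n) (c : (Fin (n * 2 + 1) → C.Γ) → ℝ) (f : C.Y → ℝ),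
  BddCocycle (n * 2) c → C.Adm f →
  (∀ i (γ : C.Γ), ∀ y ∈ C.W i, C.wh c f i (γ • y) = C.wh c f i y) ∧
  (∀ i j y, y ∈ C.W i → y ∈ C.W j → C.wh c f j y = C.wh c f i y * normSq (C.P.d i j (C.π y))) ∧
  (∀ i, ContinuousOn (C.wh c f i) (C.W i)) ∧
  (∀ i, ContinuousOn (fun x => C.wh c f i (C.τ x)) (C.P.U i)) ∧
  (∃ M, ∀ i, ∀ y ∈ C.W i, |C.wh c f i y| ≤ M * Real.exp (C.κ i y)) ∧
  (∀ i, (C.P.U i).Nonempty → Integrable (fun x => C.wh c f i (C.τ x)) (C.base.leb i) ∧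
    C.pr c f = ∫ x, C.wh c f i (C.τ x) ∂C.base.leb i) ∧
  ∀ f' i, ∀ y ∈ C.W i, (∀ γ : C.Γ, f' =ᶠ[𝓝 (γ • y)] f) → C.wh c f' i y = C.wh c f i y

/-- A local change of the partition function does not change the integral. -/
def St_TOP1 : Prop := ∀ (n : ℕ) (C : Ctx n) (c : (Fin (n * 2 + 1) → C.Γ) → ℝ)
  (i : C.ι) (y : C.Y), 0 < n → BddCocycle (n * 2) c → y ∈ C.W i → ∃ O ∈ 𝓝 (C.π y),
    ∀ f f' : C.Y → ℝ, C.Adm f → C.Adm f' → ∀ K, IsCompact K → K ⊆ O →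
      (∀ x, C.π x ∉ K → f' x = f x) → C.pr c f' = C.pr c f

/-- The integral does not depend on the partition function. -/
def St_TOP : Prop := ∀ (n : ℕ) (C : Ctx n) (c : (Fin (n * 2 + 1) → C.Γ) → ℝ) (f f' : C.Y → ℝ),
  0 < n → BddCocycle (n * 2) c → C.Adm f → C.Adm f' → C.pr c f' = C.pr c f

/-- The `ℓ¹` derivative of an admissible function. -/
def St_N0 : Prop := ∀ (n : ℕ) (C : Ctx n),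
  (∀ (f : C.Y → ℝ) (γ : C.Γ), ∀ y ∈ C.W C.o, ∀ v, C.N1 f (γ • y) v = C.N1 f y v) ∧
  ∀ f, C.Adm f → ∃ M, 0 ≤ M ∧ ∀ y ∈ C.W C.o, ∀ v, C.N1 f y v ^ 2 ≤ M * C.om C.o y v

/-! ### The family of sections -/

namespace Ctx

variable {n : ℕ} (C : Ctx n)

/-- Sum of the squared coefficients in the base chart, to the power `2 / m`. -/
def wf (m : ℕ) {r : ℕ} (g : Fin r → C.ι → C.Y → ℂ) (y : C.Y) : ℝ :=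
  (∑ j, normSq (g j C.o y)) ^ (2 / m : ℝ)

/-- The total mass. -/
def Tt (m : ℕ) {r : ℕ} (g : Fin r → C.ι → C.Y → ℂ) (δ : ℝ) (s₀ : C.ι → C.X → ℂ) (y : C.Y) : ℝ :=
  ∑' γ : C.Γ, C.wf m g (γ • y) + δ * normSq (s₀ C.o (C.π y)) ^ (2 / m : ℝ)

/-- The logarithm of the mass of finitely many sheets. -/
def U0 (m : ℕ) {r : ℕ} (g : Fin r → C.ι → C.Y → ℂ) (S : Finset C.Γ) (y : C.Y) : ℝ :=
  Real.log (∑ γ ∈ S, C.wf m g (γ • y))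

/-- The normalised cut-off density. -/
def f1 (m : ℕ) {r : ℕ} (g : Fin r → C.ι → C.Y → ℂ) (χ : C.Y → ℝ) (y : C.Y) : ℝ :=
  χ y * C.wf m g y / ∑ᶠ γ : C.Γ, χ (γ • y) * C.wf m g (γ • y)

/-- The weight `u` on `N` and the partition function `f` over a neighbourhood `O` of `K`. -/
structure Fam (m b : ℕ) (N K : Set C.X) (ε : ℝ) (u : C.X → ℝ) (f : C.Y → ℝ) (O : Set C.X) :
    Prop where
  opn : IsOpen O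
  sub : K ⊆ O
  sub' : O ⊆ N
  lu : ∀ x ∈ N, LU (C.P.p C.o) u x
  bd : ∃ M, ∀ x ∈ N, m / 2 * u x ≤ C.base.wt m b C.o x + M
  sm : ∀ y, C.π y ∈ O → Sm (C.q C.o) 2 f y ∧ 0 ≤ f y ∧ ∑ᶠ γ : C.Γ, f (γ⁻¹ • y) = 1
  cpt : ∃ S, IsCompact S ∧ ∀ y ∉ S, f y = 0
  loc : ∀ x ∈ K, ∃ u₀ : C.X → ℝ, ∀ᶠ x' in 𝓝 x, Psh (C.P.p C.o) u₀ x' ∧
    LU (C.P.p C.o) (fun z => u z - u₀ z / 2) x' ∧
    ∀ v, C.N1 f (C.τ x') v ^ 2 ≤ 100 * (lev (C.P.p C.o) u₀ x' v + ε * C.base.om C.o x' v)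

end Ctx

/-- Choice of the family, of the cut-off and of the floor. -/
def St_FAM1 : Prop := ∀ (n : ℕ) (C : Ctx n) (ρ : C.Y → ℝ) (m b : ℕ) (s₀ : C.ι → C.X → ℂ)
  (K : Set C.X) (ε : ℝ), 0 < n → C.Rho ρ → 2 ≤ m → 1 ≤ b → s₀ ∈ C.base.Sec m b → IsCompact K →
  K ⊆ C.P.U C.o ∩ C.nz m b s₀ → 0 < ε →
  ∃ (r : ℕ) (g : Fin r → C.ι → C.Y → ℂ) (χ : C.Y → ℝ) (δ : ℝ), 0 < δ ∧
    (∀ j, g j ∈ C.Sec m b ∧ C.Lp m b (4 / m) (g j)) ∧ C.GSm χ ∧ HasCompactSupport χ ∧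
    (∀ y, 0 ≤ χ y ∧ χ y ≤ 1) ∧ (∀ y ∈ C.W C.o, ∀ v, grd (C.q C.o) χ y v ≤ ε * C.om C.o y v) ∧
    (∀ y ∈ tsupport χ, C.π y ∈ K → 0 < C.wf m g y) ∧
    ∀ y, C.π y ∈ K → C.Tt m g δ s₀ y ≤ 3 / 2 * ∑ᶠ γ : C.Γ, χ (γ • y) * C.wf m g (γ • y)

/-- The weight. -/
def St_FAMA : Prop := ∀ (n : ℕ) (C : Ctx n) (m b r : ℕ) (s₀ : C.ι → C.X → ℂ)
  (g : Fin r → C.ι → C.Y → ℂ) (δ : ℝ), 2 ≤ m → s₀ ∈ C.base.Sec m b → 0 < δ →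
  (∀ j, g j ∈ C.Sec m b ∧ C.Lp m b (4 / m) (g j)) →
  (∀ (γ : C.Γ) y, C.Tt m g δ s₀ (γ • y) = C.Tt m g δ s₀ y) ∧
  (∀ y ∈ C.W C.o, Summable fun γ : C.Γ => C.wf m g (γ • y)) ∧
  (∃ M, ∀ y ∈ C.W C.o, s₀ C.o (C.π y) ≠ 0 →
    m / 2 * Real.log (C.Tt m g δ s₀ y) ≤ C.wt m b C.o y + M) ∧
  ∀ y ∈ C.W C.o, s₀ C.o (C.π y) ≠ 0 → LU (C.q C.o) (fun x => Real.log (C.Tt m g δ s₀ x)) y ∧
    ∀ S : Finset C.Γ, (∀ᶠ x in 𝓝 y, (∀ γ ∈ S, 0 < C.wf m g (γ • x)) ∧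
      C.Tt m g δ s₀ x ≤ 3 / 2 * ∑ γ ∈ S, C.wf m g (γ • x)) →
      (∀ᶠ x in 𝓝 y, Psh (C.q C.o) (C.U0 m g S) x) ∧
      LU (C.q C.o) (fun x => Real.log (C.Tt m g δ s₀ x) - C.U0 m g S x / 2) y

/-- The partition function. -/
def St_FAMB : Prop := ∀ (n : ℕ) (C : Ctx n) (m b r : ℕ) (g : Fin r → C.ι → C.Y → ℂ)
  (χ : C.Y → ℝ) (ε : ℝ) (S : Finset C.Γ), 2 ≤ m → (∀ j, g j ∈ C.Sec m b) → C.GSm χ →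
  (∀ y, 0 ≤ χ y ∧ χ y ≤ 1) → (∀ y ∈ C.W C.o, ∀ v, grd (C.q C.o) χ y v ≤ ε * C.om C.o y v) →
  S.Nonempty → ∀ y ∈ C.W C.o, (∀ᶠ x in 𝓝 y, (∀ γ ∈ S, 0 < C.wf m g (γ • x)) ∧
    (∀ γ ∉ S, χ (γ • x) = 0) ∧
    ∑ γ ∈ S, C.wf m g (γ • x) ≤ 3 / 2 * ∑ γ ∈ S, χ (γ • x) * C.wf m g (γ • x)) →
  (∀ γ : C.Γ, Sm (C.q C.o) 2 (C.f1 m g χ) (γ • y)) ∧ ∑ᶠ γ : C.Γ, C.f1 m g χ (γ⁻¹ • y) = 1 ∧
    ∀ v, C.N1 (C.f1 m g χ) y v ^ 2 ≤ 100 * (lev (C.q C.o) (C.U0 m g S) y v + ε * C.om C.o y v)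

/-- The package. -/
def St_FAM : Prop := ∀ (n : ℕ) (C : Ctx n) (ρ : C.Y → ℝ) (m b : ℕ) (s₀ : C.ι → C.X → ℂ)
  (N K : Set C.X) (ε : ℝ), 0 < n → C.Rho ρ → 2 ≤ m → 1 ≤ b → s₀ ∈ C.base.Sec m b → IsOpen N →
  N ⊆ C.P.U C.o ∩ C.nz m b s₀ → IsCompact K → K ⊆ N → 0 < ε →
  ∃ u f O, C.Fam m b N K ε u f O

/-- Gluing with the reference partition function across a shell. -/
def St_GLUE : Prop := ∃ L : ℝ, 0 < L ∧ ∀ (n : ℕ) (C : Ctx n) (c : (Fin (n * 2 + 1) → C.Γ) → ℝ)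
  (f₀ f₁ : C.Y → ℝ) (a b m b' : ℕ) (σ : C.ι → C.X → ℂ) (K O : Set C.X) (u : C.X → ℝ) (ε s t : ℝ),
  BddCocycle (n * 2) c → C.Adm f₀ → (∀ y, 0 ≤ f₀ y) → σ ∈ C.base.Sec a b →
  C.nz a b σ ⊆ C.P.U C.o → C.Fam m b' (C.nz a b σ) K ε u f₁ O → s < t →
  {x | Real.exp s ≤ C.base.nr a b σ x} ⊆ K → ∃ f, C.Adm f ∧
    (∀ x, Real.exp t ≤ C.base.nr a b σ x → ∀ v, C.N1 f (C.τ x) v = C.N1 f₁ (C.τ x) v) ∧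
    (∀ x ∈ C.P.U C.o, C.base.nr a b σ x < Real.exp s →
      C.wh c f C.o (C.τ x) = C.wh c f₀ C.o (C.τ x)) ∧
    ∀ x, Real.exp s ≤ C.base.nr a b σ x → ∀ v, C.N1 f (C.τ x) v ^ 2 ≤
      3 * (C.N1 f₁ (C.τ x) v ^ 2 + C.N1 f₀ (C.τ x) v ^ 2 +
        L / (t - s) ^ 2 * grd (C.P.p C.o) (fun z => Real.log (C.base.nr a b σ z)) x v)

/-! ### The main estimate -/

/-- The main region. -/
def St_EST1 : Prop := ∀ n : ℕ, 0 < n → ∃ c₀ : ℝ, 0 < c₀ ∧ ∀ (C : Ctx n)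
  (c : (Fin (n * 2 + 1) → C.Γ) → ℝ) (m b a' b' : ℕ) (σ : C.ι → C.X → ℂ) (K O A : Set C.X)
  (u : C.X → ℝ) (f₁ f : C.Y → ℝ), BddCocycle (n * 2) c → 2 ≤ m → σ ∈ C.base.Sec a' b' → σ ≠ 0 →
  C.nz a' b' σ ⊆ C.P.U C.o → IsCompact K → C.Fam m b (C.nz a' b' σ) K (4 / m) u f₁ O →
  C.Adm f → MeasurableSet A → A ⊆ K → (∀ x ∈ A, ∀ v, C.N1 f (C.τ x) v = C.N1 f₁ (C.τ x) v) →
  ∀ᶠ k : ℕ in atTop, ENNReal.ofReal (c₀ * (k * m) ^ n) *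
    ∫⁻ x in A, ENNReal.ofReal |C.wh c f C.o (C.τ x)| ∂C.base.leb C.o ≤
      ENNReal.ofReal (C.h0 (1 + k * m) (1 + k * (b + 1)))

/-- The shells. -/
def St_EST2 : Prop := ∀ (n : ℕ) (C : Ctx n) (c : (Fin (n * 2 + 1) → C.Γ) → ℝ) (m b a' b' : ℕ)
  (σ : C.ι → C.X → ℂ) (L : ℝ), 0 < n → BddCocycle (n * 2) c → 2 ≤ m → σ ∈ C.base.Sec a' b' →
  σ ≠ 0 → C.nz a' b' σ ⊆ C.P.U C.o → 0 ≤ L → ∃ V₁ : ℝ≥0∞, V₁ ≠ ∞ ∧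
  ∀ (T : ℝ) (K O A : Set C.X) (u ϖ : C.X → ℝ) (f₁ : C.Y → ℝ), 1 ≤ T → IsCompact K →
    C.Fam m b (C.nz a' b' σ) K (4 / m) u f₁ O → MeasurableSet A → A ⊆ K →
    (∀ x ∈ A, -(2 * T) ≤ Real.log (C.base.nr a' b' σ x) ∧ Real.log (C.base.nr a' b' σ x) ≤ 0 ∧
      ∃ f, C.Adm f ∧ ϖ x = C.wh c f C.o (C.τ x) ∧ ∀ v, C.N1 f (C.τ x) v ^ 2 ≤
        L * (C.N1 f₁ (C.τ x) v ^ 2 + C.base.om C.o x v +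
          grd (C.P.p C.o) (fun z => Real.log (C.base.nr a' b' σ z)) x v / T)) →
    ∫⁻ x in A, ENNReal.ofReal |ϖ x| ∂C.base.leb C.o ≤ V₁

/-- The neighbourhood of the divisor. -/
def St_EST3 : Prop := ∀ (n : ℕ) (C : Ctx n) (c : (Fin (n * 2 + 1) → C.Γ) → ℝ) (f : C.Y → ℝ)
  (a b : ℕ) (σ : C.ι → C.X → ℂ) (η : ℝ), BddCocycle (n * 2) c → C.Adm f → σ ∈ C.base.Sec a b →
  σ ≠ 0 → 0 < η → ∃ s : ℝ, ∫⁻ x in {x | C.base.nr a b σ x < Real.exp s},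
    ENNReal.ofReal |C.wh c f C.o (C.τ x)| ∂C.base.leb C.o ≤ ENNReal.ofReal η

/-- The main estimate. -/
def St_EST : Prop := ∀ n : ℕ, 0 < n → ∃ c₀ : ℝ, 0 < c₀ ∧ ∀ (C : Ctx n)
  (c : (Fin (n * 2 + 1) → C.Γ) → ℝ) (f : C.Y → ℝ) (m b : ℕ) (s₀ : C.ι → C.X → ℂ),
  BddCocycle (n * 2) c → C.Adm f → (∀ y, 0 ≤ f y) → 2 ≤ m → 1 ≤ b → s₀ ∈ C.base.Sec m b →
  s₀ ≠ 0 → ∀ᶠ k : ℕ in atTop,
    c₀ * |C.pr c f| * (k * m) ^ n ≤ C.h0 (1 + k * m) (1 + k * (b + 1))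

/-- The arithmetic of the descent. -/
def St_ARI : Prop := ∀ (n q : ℕ) (h : ℕ → ℕ → ℕ) (c M : ℝ), 0 < c →
  (∀ a b, (h a (b + 1) : ℝ) ≤ h a b + M * (a + b + 1) ^ n) →
  (∀ j, 0 < j → 0 < h j (j * (q + 1))) →
  (∀ m b, 2 ≤ m → 1 ≤ b → 0 < h m b →
    ∀ᶠ k : ℕ in atTop, c * (k * m) ^ (n + 1) ≤ h (1 + k * m) (1 + k * (b + 1))) →
  ∃ᶠ a : ℕ in atTop, c / 2 ^ (n + 2) * a ^ (n + 1) ≤ h a 0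

/-- The theorem for an atlas. -/
def St_FINAL : Prop := ∀ n : ℕ, 0 < n → ∃ c₀ : ℝ, 0 < c₀ ∧ ∀ (C : Ctx n)
  (c : (Fin (n * 2 + 1) → C.Γ) → ℝ) (f : C.Y → ℝ), BddCocycle (n * 2) c → C.Adm f →
  (∀ y, 0 ≤ f y) → ∃ᶠ a : ℕ in atTop, c₀ * |C.pr c f| * a ^ n ≤ C.h0 a 0

end Pool.Agent.Lib.SV
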