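import Pool.Agent.Lib.SV.Blue2

/-! Division of a section by the hyperplane section. -/

open scoped Classical Topology ENNReal
open Set MeasureTheory Complex Filter Metric

noncomputable section

namespace Pool.Agent.Lib.SV

namespace DESC

/-- A holomorphic function that vanishes on a coordinate hyperplane is bounded by the coordinate. -/
theorem schwarz {n : ℕ} {f : E n → ℂ} {z : E n} {r : ℝ} (hr : 0 < r) (k : Fin n) (hz : z k = 0)
    (hf : DifferentiableOn ℂ f (ball z r)) (h0 : ∀ w ∈ ball z r, w k = 0 → f w = 0) :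
    ∃ M : ℝ, ∀ᶠ w in 𝓝 z, ‖f w‖ ≤ M * ‖w k‖ := by
  have hsub : closedBall z (2 * (r / 3)) ⊆ ball z r := closedBall_subset_ball (by linarith)
  obtain ⟨B, hB⟩ := (isCompact_closedBall z (2 * (r / 3))).exists_bound_of_continuousOn
    (hf.continuousOn.mono hsub)
  refine ⟨B / (r / 3), ?_⟩
  filter_upwards [ball_mem_nhds z (show 0 < r / 3 by positivity)] with w hw
  have hk : ‖w k‖ < r / 3 := by
    have := (norm_le_pi_norm (w - z) k).trans_lt (mem_ball_iff_norm.1 hw)
    rwa [Pi.sub_apply, hz, sub_zero] at this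
  have hd : dist w (Function.update w k 0) ≤ ‖w k‖ := by
    refine (dist_pi_le_iff (norm_nonneg _)).2 fun j => ?_
    by_cases hj : j = k
    · subst hj
      simp
    · simp [Function.update_of_ne hj]
  have h1 : dist (Function.update w k 0) z < r / 3 := by
    refine (dist_pi_lt_iff (by positivity)).2 fun j => ?_
    by_cases hj : j = k
    · subst hj
      simp only [Function.update_self, hz, dist_self]
      positivity
    · rw [Function.update_of_ne hj]
      exact (dist_le_pi_dist w z j).trans_lt (mem_ball.1 hw)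
  have h2 : ball (Function.update w k 0) (r / 3) ⊆ closedBall z (2 * (r / 3)) := fun u hu => by
    have := dist_triangle u (Function.update w k 0) z
    rw [mem_closedBall]
    linarith [mem_ball.1 hu]
  have h3 : f (Function.update w k 0) = 0 :=
    h0 _ (mem_ball.2 (by linarith)) (Function.update_self ..)
  have h4 := dist_le_div_mul_dist_of_mapsTo_ball (R₂ := B) (hf.mono (h2.trans hsub))
    (fun u hu => by rw [h3, mem_closedBall_zero_iff]; exact hB u (h2 hu))
    (mem_ball.2 (hd.trans_lt hk))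
  rw [h3, dist_zero_right] at h4
  have h5 : 0 ≤ B := (norm_nonneg _).trans (hB z (mem_closedBall_self (by positivity)))
  exact h4.trans (mul_le_mul_of_nonneg_left hd (by positivity))

variable {n : ℕ} (C : Ctx n)

theorem nr_succ {a b : ℕ} {s : C.ι → C.X → ℂ} (hs : s ∈ C.base.Sec a (b + 1)) {i : C.ι} {x : C.X}
    (hx : x ∈ C.P.U i) : C.base.nr a (b + 1) s x =
      normSq (s i x) * Real.exp (-C.base.wt a b i x) * Real.exp (-C.base.wt 0 1 i x) := by
  rw [Ctx.nr_eq hs (C := C.base) hx, mul_assoc, ← Real.exp_add]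
  congr 2
  simp only [Ctx.wt]
  push_cast
  ring

/-- The local bound. -/
theorem bound {a b : ℕ} {s : C.ι → C.X → ℂ} (hs : s ∈ C.base.Sec a (b + 1))
    (h0 : ∀ x, C.base.nr 0 1 C.P.l x = 0 → C.base.nr a (b + 1) s x = 0) (y : C.X) :
    ∃ M : ℝ, ∀ᶠ x in 𝓝 y, C.base.nr a (b + 1) s x ≤ M * C.base.nr 0 1 C.P.l x := by
  have cs := Ctx.continuous_nr hs
  have cl := Ctx.continuous_nr C.l_mem
  by_cases hy : C.base.nr 0 1 C.P.l y = 0
  · obtain ⟨i, hi, h⟩ | ⟨i, hi, k, h⟩ := C.good.ber y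
    · exact absurd ((Ctx.nr_eq_zero C.l_mem (C := C.base) hi).1 hy) h
    obtain ⟨e, r, hr, he, hye, -, ht⟩ := (C.good.rd i).exists_ball hi univ_mem
    have hU : ∀ w ∈ ball (C.P.p i y) r, e.symm w ∈ C.P.U i := fun w hw =>
      he.sub (e.map_target (ht ▸ hw))
    have hz : C.P.p i y k = 0 := by
      rw [← h y hi]
      exact (Ctx.nr_eq_zero C.l_mem (C := C.base) hi).1 hy
    obtain ⟨M, hM⟩ := schwarz (f := s i ∘ e.symm) hr k hz (fun w hw => by
      have h2 := (he.hol_iff (e.map_target (ht ▸ hw))).1 (hs.hol _ _ (hU w hw))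
      rw [he.p_symm (ht ▸ hw)] at h2
      exact h2.differentiableWithinAt) fun w hw hk => by
      refine (Ctx.nr_eq_zero hs (C := C.base) (hU w hw)).1 (h0 _ ?_)
      refine (Ctx.nr_eq_zero C.l_mem (C := C.base) (hU w hw)).2 ?_
      rw [h _ (hU w hw), he.p_symm (ht ▸ hw), hk]
    have lh := (C.good.rd i).locH hi
    have cw : ContinuousAt (fun x => Real.exp (-C.base.wt a b i x)) y :=
      Real.continuous_exp.continuousAt.comp
        ((Ctx.sm_wt (C := C.base) hi).continuousAt (Ctx.locH (C := C.base) hi)).neg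
    refine ⟨M ^ 2 * (Real.exp (-C.base.wt a b i y) + 1), ?_⟩
    filter_upwards [lh.continuousAt.tendsto.eventually hM, e.open_source.mem_nhds hye,
      cw.eventually_lt continuousAt_const (lt_add_one _)] with x h1 h2 h3
    have hx := he.sub h2
    rw [Function.comp_apply, he.symm_p h2, ← h x hx] at h1
    rw [nr_succ C hs hx, Ctx.nr_eq C.l_mem (C := C.base) hx, ← mul_assoc]
    refine mul_le_mul_of_nonneg_right ?_ (Real.exp_pos _).le
    have h4 : normSq (s i x) ≤ M ^ 2 * normSq (C.P.l i x) := by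
      rw [normSq_eq_norm_sq, normSq_eq_norm_sq, ← mul_pow]
      exact pow_le_pow_left₀ (norm_nonneg _) h1 2
    rw [mul_right_comm]
    exact mul_le_mul h4 h3.le (Real.exp_pos _).le (mul_nonneg (sq_nonneg _) (normSq_nonneg _))
  · have hp : 0 < C.base.nr 0 1 C.P.l y := (Ctx.nr_nonneg _ _).lt_of_ne' hy
    refine ⟨C.base.nr a (b + 1) s y / C.base.nr 0 1 C.P.l y + 1, ?_⟩
    refine (cs.continuousAt.eventually_lt (continuousAt_const.mul cl.continuousAt) ?_).mono
      fun x hx => hx.le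
    rw [Pi.mul_apply, add_mul, div_mul_cancel₀ _ hy, one_mul]
    linarith

theorem l_ne : C.P.l ≠ 0 := by
  intro h0
  obtain ⟨y, -⟩ := C.good.ne
  obtain ⟨i, -, h⟩ | ⟨i, hi, k, h⟩ := C.good.ber y
  · exact h (by rw [h0]; rfl)
  have lh := (C.good.rd i).locH hi
  have h1 : ∀ᶠ x in 𝓝 y, C.P.p i x k = 0 := by
    filter_upwards [(C.good.rd i).opn.mem_nhds hi] with x hx
    rw [← h x hx, h0]
    rfl
  have h2 : ∀ᶠ w in 𝓝 (C.P.p i y), w k = 0 := by
    rw [← lh.map_nhds]
    exact h1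
  have h3 : Tendsto (fun t : ℂ => Function.update (C.P.p i y) k t) (𝓝 (C.P.p i y k))
      (𝓝 (C.P.p i y)) := by
    have := (continuous_const.update k continuous_id (f := fun _ : ℂ => C.P.p i y)).tendsto
      (C.P.p i y k)
    simpa using this
  have h4 := h3.eventually h2
  simp only [Function.update_self] at h4
  have h5 : ({0} : Set ℂ) ∈ 𝓝 (C.P.p i y k) := h4
  have h6 := mem_of_mem_nhds h5
  rw [mem_singleton_iff.1 h6] at h5
  exact absurd ((isOpen_singleton_iff_punctured_nhds (0 : ℂ)).1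
    (isOpen_iff_mem_nhds.2 fun _ h => by rwa [mem_singleton_iff.1 h])) (NeBot.ne inferInstance)

/-- Division by the hyperplane section. -/
theorem div (hEXT : St_EXT) (hID : St_ID) (hVOL : St_VOL) {a b : ℕ} {s : C.ι → C.X → ℂ}
    (hs : s ∈ C.base.Sec a (b + 1))
    (h0 : ∀ x, C.base.nr 0 1 C.P.l x = 0 → C.base.nr a (b + 1) s x = 0) :
    ∃ t ∈ C.base.Sec a b, t * C.P.l = s := by
  have hσ := Ctx.mul_mem C.l_mem (C.σ_mem C.o)
  have hnz : ∀ x, x ∈ C.nz (0 + 1) (1 + (n + 2)) (C.P.l * (C.P.ξ C.o * C.P.jac C.o)) ↔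
      C.base.nr 0 1 C.P.l x ≠ 0 ∧ x ∈ C.P.U C.o := fun x => by
    rw [← C.nz_σ]
    show C.base.nr _ _ _ x ≠ 0 ↔ _ ∧ C.base.nr _ _ _ x ≠ 0
    rw [Ctx.nr_mul, mul_ne_zero_iff]
  have hne : C.P.l * (C.P.ξ C.o * C.P.jac C.o) ≠ 0 := by
    obtain ⟨x, h1, h2⟩ := (hID n C.base 0 1 _ C.l_mem (l_ne C)).1.inter_open_nonempty _
      (C.good.rd C.o).opn C.good.ne
    intro h
    have := (hnz x).2 ⟨h2, h1⟩
    rw [h] at this
    exact this (by simp [Ctx.nr])
  have hl : ∀ x, C.base.nr 0 1 C.P.l x ≠ 0 → x ∈ C.P.U C.o → C.P.l C.o x ≠ 0 := fun x h1 h2 =>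
    mt (Ctx.nr_eq_zero C.l_mem (C := C.base) h2).2 h1
  obtain ⟨t, ht, hts⟩ := hEXT n C.base C.o a b _ _ _ (fun x => s C.o x / C.P.l C.o x) hσ hne
    (fun x hx => ((hnz x).1 hx).2) (fun x hx => by
      obtain ⟨h1, h2⟩ := (hnz x).1 hx
      have a1 : DifferentiableAt ℂ _ _ := hs.hol _ _ h2
      have a2 : DifferentiableAt ℂ _ _ := C.l_mem.hol _ _ h2
      refine a1.mul (a2.inv ?_)
      show C.P.l C.o (lift (C.base.q C.o) x (C.base.q C.o x)) ≠ 0
      rw [(Ctx.locH (C := C.base) h2).lift_self]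
      exact hl x h1 h2) fun y => by
      obtain ⟨M, hM⟩ := bound C hs h0 y
      refine ⟨_, hM, ne_top_of_le_ne_top (b := ENNReal.ofReal M * C.base.V univ)
        (ENNReal.mul_ne_top ENNReal.ofReal_ne_top ((hVOL n C.base).2.2.1 _ isCompact_univ)) ?_⟩
      refine (setLIntegral_mono measurable_const (g := fun _ => ENNReal.ofReal M)
        fun x hx => ?_).trans ?_
      · obtain ⟨h1, h2⟩ := (hnz x).1 hx.2
        refine ENNReal.ofReal_le_ofReal ?_
        have h3 : C.base.nr a (b + 1) s x ≤ M * C.base.nr 0 1 C.P.l x := hx.1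
        rw [nr_succ C hs h2, Ctx.nr_eq C.l_mem (C := C.base) h2, ← mul_assoc] at h3
        have h4 := le_of_mul_le_mul_right h3 (Real.exp_pos _)
        rw [map_div₀, div_mul_eq_mul_div, div_le_iff₀ (normSq_pos.2 (hl x h1 h2))]
        exact h4
      · rw [setLIntegral_const]
        exact mul_le_mul_right (measure_mono (subset_univ _)) _
  have hm : t * C.P.l ∈ C.base.Sec a (b + 1) := Ctx.mul_mem ht C.l_mem
  have hd := (C.base.Sec a (b + 1)).sub_mem hm hs
  refine ⟨t, ht, sub_eq_zero.1 (Ctx.eq_zero_of_nr hd fun y => ?_)⟩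
  refine congrFun (Continuous.ext_on (hID n C.base _ _ _ hσ hne).1 (Ctx.continuous_nr hd)
    continuous_const fun x hx => ?_) y
  obtain ⟨h1, h2⟩ := (hnz x).1 hx
  refine (Ctx.nr_eq_zero hd (C := C.base) h2).2 ?_
  show t C.o x * C.P.l C.o x - s C.o x = 0
  rw [hts x hx, div_mul_cancel₀ _ (hl x h1 h2), sub_self]

/-- The dimension count. -/
theorem count (hFIN : St_FIN) (hEXT : St_EXT) (hID : St_ID) (hVOL : St_VOL) {a b : ℕ} {W : Type}
    [AddCommGroup W] [Module ℂ W] [Module.Finite ℂ W] (Φ : C.base.Sec a (b + 1) →ₗ[ℂ] W)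
    (hΦ : ∀ s, Φ s = 0 → ∀ x, C.base.nr 0 1 C.P.l x = 0 → C.base.nr a (b + 1) s.1 x = 0) :
    C.h0 a (b + 1) ≤ C.h0 a b + Module.finrank ℂ W := by
  obtain ⟨M, hM⟩ := hFIN n C
  have := (hM a b).1
  have := (hM a (b + 1)).1
  let μ : C.base.Sec a b →ₗ[ℂ] C.base.Sec a (b + 1) :=
    { toFun := fun t => ⟨t.1 * C.P.l, Ctx.mul_mem t.2 C.l_mem⟩
      map_add' := fun _ _ => Subtype.ext (add_mul _ _ _)
      map_smul' := fun _ _ => Subtype.ext (smul_mul_assoc _ _ _) }
  have h1 : LinearMap.ker Φ ≤ LinearMap.range μ := fun s hs => by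
    obtain ⟨t, ht, e⟩ := div C hEXT hID hVOL s.2 (hΦ s hs)
    exact ⟨⟨t, ht⟩, Subtype.ext e⟩
  have h2 := Φ.finrank_range_add_finrank_ker
  have h3 := Submodule.finrank_mono h1
  have h4 := μ.finrank_range_le
  have h5 := (LinearMap.range Φ).finrank_le
  unfold Ctx.h0
  omega

end DESC

end Pool.Agent.Lib.SV
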