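import Pool.Agent.Lib.SV.Blue1

/-! Blueprint of the proof of the theorem of Hörmander. -/

open scoped Classical Topology ENNReal
open Set MeasureTheory Complex Filter Metric

noncomputable section

namespace Pool.Agent.Lib.SV

section defs

variable {n : ℕ} {Y : Type} [TopologicalSpace Y] (p : Y → E n)

/-- The divergence, sum of the `∂_j α_j`. -/
def dv (α : Fin n → Y → ℂ) (y : Y) : ℂ := ∑ j, dz p j (α j) y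

/-- The coefficients of `∂-bar` of a `(0,1)` form. -/
def cu (α : Fin n → Y → ℂ) (j k : Fin n) (y : Y) : ℂ := dzb p j (α k) y - dzb p k (α j) y

/-- The integrand of the Bochner inequality; `g` stands for the divergence and `σ` for the
`∂-bar` of `α`. -/
def bq (Φ : Y → ℝ) (α : Fin n → Y → ℂ) (g : Y → ℂ) (σ : Fin n → Fin n → Y → ℂ) (y : Y) : ℝ :=
  (normSq (g y - ∑ j, dz p j (fun x => (Φ x : ℂ)) y * α j y) +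
    (1 / 2) * ∑ j, ∑ k, normSq (σ j k y) - lev p Φ y (fun j => α j y) / 4) * Real.exp (-Φ y)

end defs

/-- Square integrable data with support in `K`; `g` is the weak divergence and `σ` the weak
`∂-bar` of `α`. -/
structure Weak {n : ℕ} (D : Dom n) (K : Set D.Y) (α : Fin n → D.Y → ℂ) (g : D.Y → ℂ)
    (σ : Fin n → Fin n → D.Y → ℂ) : Prop where
  cpt : IsCompact K
  sub : K ⊆ D.W
  mα : ∀ j, MemLp (α j) 2 D.μ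
  mg : MemLp g 2 D.μ
  mσ : ∀ j k, MemLp (σ j k) 2 D.μ
  off : ∀ y ∉ K, (∀ j, α j y = 0) ∧ g y = 0 ∧ ∀ j k, σ j k y = 0
  div : ∀ θ : D.Y → ℂ, Tst D.p D.W 2 θ → ∫ y, (θ y * g y + ∑ j, dz D.p j θ y * α j y) ∂D.μ = 0
  curl : ∀ θ : D.Y → ℂ, Tst D.p D.W 2 θ → ∀ j k,
    ∫ y, (θ y * σ j k y + (dzb D.p j θ y * α k y - dzb D.p k θ y * α j y)) ∂D.μ = 0

/-- The Bochner inequality for test forms. -/
def St_BOCH : Prop := ∀ (n : ℕ) (D : Dom n) (Φ : D.Y → ℝ) (α : Fin n → D.Y → ℂ),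
  (∀ y ∈ D.W, Sm D.p 2 Φ y) → (∀ j, Tst D.p D.W 2 (α j)) →
  0 ≤ ∫ y, bq D.p Φ α (dv D.p α) (cu D.p α) y ∂D.μ

/-- Approximation of weak data by test forms. -/
def St_MOLL : Prop := ∀ (n : ℕ) (D : Dom n) (K : Set D.Y) (α : Fin n → D.Y → ℂ) (g : D.Y → ℂ)
  (σ : Fin n → Fin n → D.Y → ℂ), Weak D K α g σ →
  ∃ K', IsCompact K' ∧ K ⊆ K' ∧ K' ⊆ D.W ∧ ∃ β : ℕ → Fin n → D.Y → ℂ,
    (∀ m j, Tst D.p D.W 2 (β m j)) ∧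
    (∀ m, ∀ y ∉ K', (∀ j, β m j y = 0) ∧ dv D.p (β m) y = 0 ∧ ∀ j k, cu D.p (β m) j k y = 0) ∧
    (∀ j, Tendsto (fun m => eLpNorm (fun y => β m j y - α j y) 2 D.μ) atTop (𝓝 0)) ∧
    Tendsto (fun m => eLpNorm (fun y => dv D.p (β m) y - g y) 2 D.μ) atTop (𝓝 0) ∧
    ∀ j k, Tendsto (fun m => eLpNorm (fun y => cu D.p (β m) j k y - σ j k y) 2 D.μ) atTop (𝓝 0)

/-- The Bochner inequality for weak data. -/
def St_WAP : Prop := ∀ (n : ℕ) (D : Dom n) (Φ : D.Y → ℝ) (K : Set D.Y) (α : Fin n → D.Y → ℂ)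
  (g : D.Y → ℂ) (σ : Fin n → Fin n → D.Y → ℂ), (∀ y ∈ D.W, Sm D.p 2 Φ y) → Weak D K α g σ →
  Integrable (bq D.p Φ α g σ) D.μ ∧
  Integrable (fun y => lev D.p Φ y (fun j => α j y) * Real.exp (-Φ y)) D.μ ∧
  0 ≤ ∫ y, bq D.p Φ α g σ y ∂D.μ

/-- The estimate of Hörmander in dual form. -/
def St_CORE : Prop := ∀ (n : ℕ) (D : Dom n) (s : D.Y → ℝ) (G : D.Y → ℂ) (φ h : D.Y → ℝ) (a : ℝ)
  (α : Fin n → D.Y → ℂ), IsCompact {y | y ∈ D.W ∧ s y ≤ a} →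
  (∀ y ∈ D.W, s y ≤ a → Psh D.p s y ∧ Sm D.p 2 G y ∧ Psh D.p φ y ∧ 0 ≤ h y ∧
    ∀ v, ‖dbar D.p G y v‖ ^ 2 ≤ h y * lev D.p φ y v) → IsOpen {y | y ∈ D.W ∧ s y < a} →
  AEMeasurable h D.μ → (∀ j, Tst D.p {y | y ∈ D.W ∧ s y < a - 1} 2 (α j)) →
  ENNReal.ofReal (‖∫ y, ∑ j, (starRingEnd ℂ) (dzb D.p j G y) * α j y ∂D.μ‖ ^ 2) ≤
    4 * (∫⁻ y in {y | y ∈ D.W ∧ s y < a}, ENNReal.ofReal (h y * Real.exp (-φ y)) ∂D.μ) *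
      ∫⁻ y, ENNReal.ofReal (‖dv D.p α y‖ ^ 2 * Real.exp (φ y)) ∂D.μ

/-- From the dual estimate to a holomorphic function. -/
def St_RIE : Prop := ∀ (n : ℕ) (D : Dom n) (G : D.Y → ℂ) (φ : D.Y → ℝ) (M : ℝ≥0∞), M ≠ ∞ →
  (∀ y ∈ D.W, Sm D.p 2 G y ∧ Sm D.p 2 φ y) →
  (∀ α : Fin n → D.Y → ℂ, (∀ j, Tst D.p D.W 2 (α j)) →
    ENNReal.ofReal (‖∫ y, ∑ j, (starRingEnd ℂ) (dzb D.p j G y) * α j y ∂D.μ‖ ^ 2) ≤
      M * ∫⁻ y, ENNReal.ofReal (‖dv D.p α y‖ ^ 2 * Real.exp (φ y)) ∂D.μ) →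
  ∃ F : D.Y → ℂ, (∀ y ∈ D.W, Hol D.p F y) ∧
    ∫⁻ y, ENNReal.ofReal (‖G y - F y‖ ^ 2 * Real.exp (-φ y)) ∂D.μ ≤ M

end Pool.Agent.Lib.SV
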