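import Pool.Agent.Lib.SV.HBlue

/-! Wirtinger calculus, test functions and integration on a Riemann domain. -/

open scoped Classical Topology ENNReal ComplexConjugate
open Set MeasureTheory Complex Filter Metric

set_option linter.unusedVariables false
set_option linter.unusedSectionVars false

noncomputable section

namespace Pool.Agent.Lib.SV

section lift

variable {Y Z : Type} [TopologicalSpace Y] [TopologicalSpace Z] (p : Y → Z) (y : Y)

theorem lift_self' : lift p y (p y) = y := by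
  by_cases h : LocH p y
  · exact h.lift_self
  · unfold LocH at h
    unfold lift
    rw [dif_neg h]

theorem tendsto_lift' : Tendsto (lift p y) (𝓝 (p y)) (𝓝 y) := by
  by_cases h : LocH p y
  · exact h.tendsto_lift
  · unfold LocH at h
    unfold lift
    rw [dif_neg h]
    exact tendsto_const_nhds

end lift

section calcul

variable {n : ℕ} {Y : Type} [TopologicalSpace Y] {p : Y → E n} {W : Set Y} {y : Y}
  {F : Type} [NormedAddCommGroup F] [NormedSpace ℝ F] {k : ℕ}
  {F' : Type} [NormedAddCommGroup F'] [NormedSpace ℝ F']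

theorem dd_congr' {f g : Y → F} (e : f =ᶠ[𝓝 y] g) : dd p f y = dd p g y :=
  Filter.EventuallyEq.fderiv_eq ((tendsto_lift' p y).eventually e)

theorem Sm.congr' {f g : Y → F} (hf : Sm p k f y) (e : g =ᶠ[𝓝 y] f) : Sm p k g y :=
  ContDiffAt.congr_of_eventuallyEq hf ((tendsto_lift' p y).eventually e)

theorem Sm.comp' {f : Y → F} {g : F → F'} (hg : ContDiffAt ℝ k g (f y)) (hf : Sm p k f y) :
    Sm p k (fun x => g (f x)) y := by
  refine ContDiffAt.comp (g := g) (f := f ∘ lift p y) _ ?_ hf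
  rwa [Function.comp_apply, lift_self']

theorem Sm.clm {f : Y → F} (hf : Sm p k f y) (A : F →L[ℝ] F') : Sm p k (fun x => A (f x)) y :=
  hf.comp' A.contDiff.contDiffAt

theorem Sm.cj {f : Y → ℂ} (hf : Sm p k f y) : Sm p k (fun x => conj (f x)) y :=
  hf.clm (conjCLE : ℂ →L[ℝ] ℂ)

theorem Sm.exp {f : Y → ℝ} (hf : Sm p k f y) : Sm p k (fun x => Real.exp (f x)) y :=
  hf.comp' Real.contDiff_exp.contDiffAt

theorem Sm.one {f : Y → F} (hf : Sm p 2 f y) : Sm p 1 f y := hf.of_le (by norm_num)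

theorem Sm.zero {f : Y → F} (hf : Sm p k f y) : Sm p 0 f y := hf.of_le (Nat.zero_le _)

theorem Sm.hd {f : Y → F} (hf : Sm p 1 f y) : HasFDerivAt (f ∘ lift p y) (SV.dd p f y) (p y) :=
  (Sm.differentiableAt (k := 0) hf).hasFDerivAt

theorem dd_const (c : F) : dd p (fun _ => c) y = 0 := (hasFDerivAt_const c (p y)).fderiv

theorem dd_add {f g : Y → F} (hf : Sm p 1 f y) (hg : Sm p 1 g y) :
    dd p (fun x => f x + g x) y = dd p f y + dd p g y := (hf.hd.add hg.hd).fderiv

theorem dd_sub {f g : Y → F} (hf : Sm p 1 f y) (hg : Sm p 1 g y) :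
    dd p (fun x => f x - g x) y = dd p f y - dd p g y := (hf.hd.sub hg.hd).fderiv

theorem dd_neg {f : Y → F} (hf : Sm p 1 f y) : dd p (fun x => -f x) y = -dd p f y :=
  hf.hd.neg.fderiv

theorem dd_sum {ι : Type} {s : Finset ι} {f : ι → Y → F} (hf : ∀ i ∈ s, Sm p 1 (f i) y) :
    dd p (fun x => ∑ i ∈ s, f i x) y = ∑ i ∈ s, dd p (f i) y :=
  (HasFDerivAt.fun_sum (A := fun i => f i ∘ lift p y) fun i hi => (hf i hi).hd).fderiv

theorem dd_clm {f : Y → F} (hf : Sm p 1 f y) (A : F →L[ℝ] F') (v : E n) :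
    dd p (fun x => A (f x)) y v = A (dd p f y v) := by
  have := (A.hasFDerivAt.comp (p y) hf.hd).fderiv
  rw [dd, show (fun x => A (f x)) ∘ lift p y = A ∘ f ∘ lift p y from rfl, this]
  rfl

theorem dd_mul {A : Type} [NormedCommRing A] [NormedAlgebra ℝ A] {f g : Y → A} (hf : Sm p 1 f y)
    (hg : Sm p 1 g y) (v : E n) :
    dd p (fun x => f x * g x) y v = dd p f y v * g y + f y * dd p g y v := by
  have := (hf.hd.mul hg.hd).fderiv
  rw [dd, show (fun x => f x * g x) ∘ lift p y = f ∘ lift p y * g ∘ lift p y from rfl, this]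
  simp only [Function.comp_apply, lift_self', add_apply, smul_apply, smul_eq_mul]
  ring

theorem dd_conj {f : Y → ℂ} (hf : Sm p 1 f y) (v : E n) :
    dd p (fun x => conj (f x)) y v = conj (dd p f y v) := dd_clm hf (conjCLE : ℂ →L[ℝ] ℂ) v

theorem dd_ofReal {f : Y → ℝ} (hf : Sm p 1 f y) (v : E n) :
    dd p (fun x => (f x : ℂ)) y v = (dd p f y v : ℝ) := dd_clm hf ofRealCLM v

theorem dd_comp' {f : Y → ℝ} (hf : Sm p 1 f y) {u : ℝ → ℝ} {c : ℝ} (hu : HasDerivAt u c (f y))
    (v : E n) : dd p (fun x => u (f x)) y v = c * dd p f y v := by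
  have e : (f ∘ lift p y) (p y) = f y := by rw [Function.comp_apply, lift_self']
  rw [← e] at hu
  have := (hu.comp_hasFDerivAt (p y) hf.hd).fderiv
  rw [dd, show (fun x => u (f x)) ∘ lift p y = u ∘ (f ∘ lift p y) from rfl, this]
  rfl

theorem dd_symm (h : LocH p y) {f : Y → F} (hf : Sm p 2 f y) (v w : E n) :
    dd p (fun x => dd p f x v) y w = dd p (fun x => dd p f x w) y v := by
  have e : ∀ v w, dd p (fun x => dd p f x v) y w =
      fderiv ℝ (fderiv ℝ (f ∘ lift p y)) (p y) w v := fun v w => by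
    refine (dd_clm (hf.dd h) (ContinuousLinearMap.apply ℝ F v) w).trans ?_
    rw [dd, (dd_comp_lift h f).fderiv_eq]
    rfl
  rw [e, e]
  exact (ContDiffAt.isSymmSndFDerivAt hf (by simp)).eq w v

variable {j : Fin n} {f g : Y → ℂ}

theorem dz_congr (e : f =ᶠ[𝓝 y] g) : dz p j f y = dz p j g y := by
  simp only [dz, dd_congr' e]

theorem dzb_congr (e : f =ᶠ[𝓝 y] g) : dzb p j f y = dzb p j g y := by
  simp only [dzb, dd_congr' e]

theorem dz_const (c : ℂ) : dz p j (fun _ => c) y = 0 := by simp [dz, dd_const]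

theorem dzb_const (c : ℂ) : dzb p j (fun _ => c) y = 0 := by simp [dzb, dd_const]

theorem dz_add (hf : Sm p 1 f y) (hg : Sm p 1 g y) :
    dz p j (fun x => f x + g x) y = dz p j f y + dz p j g y := by
  simp only [dz, dd_add hf hg, add_apply]; ring

theorem dzb_add (hf : Sm p 1 f y) (hg : Sm p 1 g y) :
    dzb p j (fun x => f x + g x) y = dzb p j f y + dzb p j g y := by
  simp only [dzb, dd_add hf hg, add_apply]; ring

theorem dz_sub (hf : Sm p 1 f y) (hg : Sm p 1 g y) :
    dz p j (fun x => f x - g x) y = dz p j f y - dz p j g y := by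
  simp only [dz, dd_sub hf hg, sub_apply]; ring

theorem dzb_sub (hf : Sm p 1 f y) (hg : Sm p 1 g y) :
    dzb p j (fun x => f x - g x) y = dzb p j f y - dzb p j g y := by
  simp only [dzb, dd_sub hf hg, sub_apply]; ring

theorem dz_neg (hf : Sm p 1 f y) : dz p j (fun x => -f x) y = -dz p j f y := by
  simp only [dz, dd_neg hf, neg_apply]; ring

theorem dzb_neg (hf : Sm p 1 f y) : dzb p j (fun x => -f x) y = -dzb p j f y := by
  simp only [dzb, dd_neg hf, neg_apply]; ring

theorem dz_mul (hf : Sm p 1 f y) (hg : Sm p 1 g y) :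
    dz p j (fun x => f x * g x) y = dz p j f y * g y + f y * dz p j g y := by
  simp only [dz, dd_mul hf hg]; ring

theorem dzb_mul (hf : Sm p 1 f y) (hg : Sm p 1 g y) :
    dzb p j (fun x => f x * g x) y = dzb p j f y * g y + f y * dzb p j g y := by
  simp only [dzb, dd_mul hf hg]; ring

theorem dz_const_mul (c : ℂ) (hg : Sm p 1 g y) :
    dz p j (fun x => c * g x) y = c * dz p j g y := by
  rw [dz_mul (sm_const c) hg, dz_const, zero_mul, zero_add]

theorem dzb_const_mul (c : ℂ) (hg : Sm p 1 g y) :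
    dzb p j (fun x => c * g x) y = c * dzb p j g y := by
  rw [dzb_mul (sm_const c) hg, dzb_const, zero_mul, zero_add]

theorem dz_sum {ι : Type} {s : Finset ι} {f : ι → Y → ℂ} (hf : ∀ i ∈ s, Sm p 1 (f i) y) :
    dz p j (fun x => ∑ i ∈ s, f i x) y = ∑ i ∈ s, dz p j (f i) y := by
  simp only [dz, dd_sum hf, sum_apply, Finset.mul_sum, ← Finset.sum_div,
    Finset.sum_sub_distrib]

theorem dzb_sum {ι : Type} {s : Finset ι} {f : ι → Y → ℂ} (hf : ∀ i ∈ s, Sm p 1 (f i) y) :
    dzb p j (fun x => ∑ i ∈ s, f i x) y = ∑ i ∈ s, dzb p j (f i) y := by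
  simp only [dzb, dd_sum hf, sum_apply, Finset.mul_sum, ← Finset.sum_div,
    Finset.sum_add_distrib]

theorem dz_conj (hf : Sm p 1 f y) : dz p j (fun x => conj (f x)) y = conj (dzb p j f y) := by
  simp only [dz, dzb, dd_conj hf, map_div₀, map_add, map_mul, conj_I, map_ofNat]; ring

theorem dzb_conj (hf : Sm p 1 f y) : dzb p j (fun x => conj (f x)) y = conj (dz p j f y) := by
  simp only [dz, dzb, dd_conj hf, map_div₀, map_sub, map_mul, conj_I, map_ofNat]; ring

theorem dzb_ofReal {u : Y → ℝ} (hu : Sm p 1 u y) :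
    dzb p j (fun x => (u x : ℂ)) y = conj (dz p j (fun x => (u x : ℂ)) y) := by
  rw [← dzb_conj hu.ofReal]
  simp only [conj_ofReal]

theorem dz_comp {s : Y → ℝ} (hs : Sm p 1 s y) {u : ℝ → ℝ} {c : ℝ} (hu : HasDerivAt u c (s y))
    (hu' : Sm p 1 (fun x => u (s x)) y) :
    dz p j (fun x => (u (s x) : ℂ)) y = c * dz p j (fun x => (s x : ℂ)) y := by
  simp only [dz, dd_ofReal hs, dd_ofReal hu', dd_comp' hs hu, ofReal_mul]; ring

theorem dzb_comp {s : Y → ℝ} (hs : Sm p 1 s y) {u : ℝ → ℝ} {c : ℝ} (hu : HasDerivAt u c (s y))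
    (hu' : Sm p 1 (fun x => u (s x)) y) :
    dzb p j (fun x => (u (s x) : ℂ)) y = c * dzb p j (fun x => (s x : ℂ)) y := by
  simp only [dzb, dd_ofReal hs, dd_ofReal hu', dd_comp' hs hu, ofReal_mul]; ring

theorem dz_exp {s : Y → ℝ} (hs : Sm p 1 s y) : dz p j (fun x => (Real.exp (s x) : ℂ)) y =
    Real.exp (s y) * dz p j (fun x => (s x : ℂ)) y :=
  dz_comp hs (Real.hasDerivAt_exp _) hs.exp

theorem dzb_exp {s : Y → ℝ} (hs : Sm p 1 s y) : dzb p j (fun x => (Real.exp (s x) : ℂ)) y =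
    Real.exp (s y) * dzb p j (fun x => (s x : ℂ)) y :=
  dzb_comp hs (Real.hasDerivAt_exp _) hs.exp

theorem Sm.dz (h : LocH p y) (hf : Sm p (k + 1) f y) (j : Fin n) : Sm p k (SV.dz p j f) y :=
  ContDiffAt.div_const (𝕜' := ℂ)
    ((hf.dd_apply h (Pi.single j 1)).sub ((sm_const I).mul (hf.dd_apply h (Pi.single j I)))) 2

theorem Sm.dzb (h : LocH p y) (hf : Sm p (k + 1) f y) (j : Fin n) : Sm p k (SV.dzb p j f) y :=
  ContDiffAt.div_const (𝕜' := ℂ)
    ((hf.dd_apply h (Pi.single j 1)).add ((sm_const I).mul (hf.dd_apply h (Pi.single j I)))) 2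

theorem dd_dz (h : LocH p y) (hf : Sm p 2 f y) (j : Fin n) (v : E n) : dd p (dz p j f) y v =
    (dd p (fun x => dd p f x (Pi.single j 1)) y v -
      I * dd p (fun x => dd p f x (Pi.single j I)) y v) / 2 := by
  have a := hf.dd_apply h (Pi.single j 1)
  have b := hf.dd_apply h (Pi.single j I)
  have e : dz p j f = fun x => (dd p f x (Pi.single j 1) - I * dd p f x (Pi.single j I)) * (1 / 2) := by
    funext x; rw [dz]; ring
  rw [e, dd_mul (a.sub ((sm_const I).mul b)) (sm_const _), dd_sub a ((sm_const I).mul b), sub_apply,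
    dd_mul (sm_const I) b, dd_const, dd_const]
  simp only [zero_apply]; ring

theorem dd_dzb (h : LocH p y) (hf : Sm p 2 f y) (j : Fin n) (v : E n) : dd p (dzb p j f) y v =
    (dd p (fun x => dd p f x (Pi.single j 1)) y v +
      I * dd p (fun x => dd p f x (Pi.single j I)) y v) / 2 := by
  have a := hf.dd_apply h (Pi.single j 1)
  have b := hf.dd_apply h (Pi.single j I)
  have e : dzb p j f = fun x => (dd p f x (Pi.single j 1) + I * dd p f x (Pi.single j I)) * (1 / 2) := by
    funext x; rw [dzb]; ring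
  rw [e, dd_mul (a.add ((sm_const I).mul b)) (sm_const _), dd_add a ((sm_const I).mul b), add_apply,
    dd_mul (sm_const I) b, dd_const, dd_const]
  simp only [zero_apply]; ring

theorem dz_dzb_comm (h : LocH p y) (hf : Sm p 2 f y) (j k : Fin n) :
    dz p j (dzb p k f) y = dzb p k (dz p j f) y := by
  rw [dz, dzb, dd_dzb h hf, dd_dzb h hf, dd_dz h hf, dd_dz h hf,
    dd_symm h hf (Pi.single k 1) (Pi.single j 1), dd_symm h hf (Pi.single k I) (Pi.single j 1),
    dd_symm h hf (Pi.single k 1) (Pi.single j I), dd_symm h hf (Pi.single k I) (Pi.single j I)]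
  ring

theorem dzb_dzb_comm (h : LocH p y) (hf : Sm p 2 f y) (j k : Fin n) :
    dzb p j (dzb p k f) y = dzb p k (dzb p j f) y := by
  rw [dzb, dzb, dd_dzb h hf, dd_dzb h hf, dd_dzb h hf, dd_dzb h hf,
    dd_symm h hf (Pi.single k 1) (Pi.single j 1), dd_symm h hf (Pi.single k I) (Pi.single j 1),
    dd_symm h hf (Pi.single k 1) (Pi.single j I), dd_symm h hf (Pi.single k I) (Pi.single j I)]
  ring

/-- A real linear map in the real coordinates. -/
theorem clm_expand (A : E n →L[ℝ] F) (v : E n) :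
    A v = ∑ j, ((v j).re • A (Pi.single j 1) + (v j).im • A (Pi.single j I)) := by
  have : v = ∑ j, ((v j).re • (Pi.single j 1 : E n) + (v j).im • (Pi.single j I : E n)) := by
    funext i
    simp only [Finset.sum_apply, Pi.add_apply, Pi.smul_apply, Pi.single_apply, smul_ite, smul_zero,
      Finset.sum_add_distrib, Finset.sum_ite_eq, Finset.mem_univ, if_true, real_smul, mul_one,
      re_add_im]
  conv_lhs => rw [this]
  simp only [map_sum, map_add, map_smul]

/-- The real derivative in terms of the Wirtinger derivatives. -/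
theorem dd_eq_sum (f : Y → ℂ) (v : E n) :
    dd p f y v = ∑ j, (dz p j f y * v j + dzb p j f y * conj (v j)) := by
  rw [clm_expand]
  refine Finset.sum_congr rfl fun j _ => ?_
  have h1 : conj (v j) = (v j).re - (v j).im * I := by
    conv_lhs => rw [← re_add_im (v j)]
    simp only [map_add, map_mul, conj_ofReal, conj_I]; ring
  rw [dz, dzb, h1, real_smul, real_smul]
  conv_rhs => enter [1, 2]; rw [← re_add_im (v j)]
  linear_combination (((v j).im : ℂ) * dd p f y (Pi.single j I)) * I_mul_I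

theorem dbar_eq_sum (G : Y → ℂ) (v : E n) :
    dbar p G y v = 2 * ∑ j, dzb p j G y * conj (v j) := by
  rw [dbar, dd_eq_sum, dd_eq_sum, Finset.mul_sum, Finset.mul_sum, ← Finset.sum_add_distrib]
  refine Finset.sum_congr rfl fun j _ => ?_
  simp only [Pi.smul_apply, smul_eq_mul, map_mul, conj_I]
  linear_combination (dz p j G y * v j - dzb p j G y * conj (v j)) * I_mul_I

theorem dd_sub_eq_sum (G : Y → ℂ) (v : E n) :
    dd p G y v - I * dd p G y (I • v) = 2 * ∑ j, dz p j G y * v j := by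
  rw [dd_eq_sum, dd_eq_sum, Finset.mul_sum, Finset.mul_sum, ← Finset.sum_sub_distrib]
  refine Finset.sum_congr rfl fun j _ => ?_
  simp only [Pi.smul_apply, smul_eq_mul, map_mul, conj_I]
  linear_combination (-dz p j G y * v j + dzb p j G y * conj (v j)) * I_mul_I

theorem grd_eq {u : Y → ℝ} (hu : Sm p 1 u y) (v : E n) :
    grd p u y v = 4 * normSq (∑ j, dz p j (fun x => (u x : ℂ)) y * v j) := by
  have := congrArg normSq (dd_sub_eq_sum (p := p) (y := y) (fun x => (u x : ℂ)) v)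
  rw [map_mul, dd_ofReal hu, dd_ofReal hu] at this
  rw [grd, show (4 : ℝ) = normSq 2 by norm_num [normSq_apply], ← this]
  simp [normSq_apply]; ring

theorem lev_eq_sum' (h : LocH p y) {u : Y → ℝ} (hu : Sm p 2 u y) (v : E n) : (lev p u y v : ℂ) =
    4 * ∑ j, ∑ k, dzb p k (dz p j (fun x => (u x : ℂ))) y * v j * conj (v k) := by
  have hc := hu.ofReal
  have e1 : ∀ w : E n, ((dd p (fun x => dd p u x w) y w : ℝ) : ℂ) =
      dd p (fun x => dd p (fun x => (u x : ℂ)) x w) y w := fun w => by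
    rw [← dd_ofReal (hu.dd_apply h w)]
    refine congrArg (fun A : E n →L[ℝ] ℂ => A w) (dd_congr' ?_)
    filter_upwards [hu.eventually h] with x hx using (dd_ofReal hx.one w).symm
  have e2 : (fun x => dd p (fun x => (u x : ℂ)) x v - I * dd p (fun x => (u x : ℂ)) x (I • v)) =
      fun x => 2 * ∑ j, dz p j (fun x => (u x : ℂ)) x * v j := funext fun x => dd_sub_eq_sum _ v
  have a := hc.dd_apply h v
  have b := hc.dd_apply h (I • v)
  have hz : ∀ j ∈ Finset.univ, Sm p 1 (fun x => dz p j (fun x => (u x : ℂ)) x * v j) y :=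
    fun j _ => (hc.dz h j).mul (sm_const _)
  have e3 := congrArg (fun f => dbar p f y v) e2
  rw [dbar_eq_sum (fun x => 2 * _), dbar, dd_sub a ((sm_const I).mul b), sub_apply, sub_apply,
    dd_mul (sm_const I) b, dd_mul (sm_const I) b, dd_const, dd_symm h hc v (I • v)] at e3
  simp only [dzb_const_mul 2 (Sm.sum hz), dzb_sum hz, dzb_mul (hc.dz h _) (sm_const _), dzb_const,
    zero_apply, mul_zero, add_zero, zero_mul, zero_add] at e3
  rw [lev_eq_dd h, ofReal_add, e1, e1, Finset.sum_comm]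
  simp only [← Finset.sum_mul]
  simp only [mul_assoc (2 : ℂ), ← Finset.mul_sum] at e3
  linear_combination e3 +
    dd p (fun x => dd p (fun x => (u x : ℂ)) x (I • v)) y (I • v) * I_mul_I

theorem lev_eq_sum (h : LocH p y) {u : Y → ℝ} (hu : Sm p 2 u y) (v : E n) : lev p u y v =
    4 * (∑ j, ∑ k, dzb p k (dz p j (fun x => (u x : ℂ))) y * v j * conj (v k)).re := by
  have := congrArg re (lev_eq_sum' h hu v)
  rw [ofReal_re] at this
  rw [this]
  simp

theorem lev_smul_real (h : LocH p y) {u : Y → ℝ} (hu : Sm p 2 u y) (c : ℝ) (v : E n) :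
    lev p u y (fun j => c * v j) = c ^ 2 * lev p u y v := by
  apply ofReal_injective
  rw [ofReal_mul, lev_eq_sum' h hu, lev_eq_sum' h hu, mul_left_comm]
  simp only [Finset.mul_sum, map_mul, conj_ofReal, ofReal_pow]
  refine Finset.sum_congr rfl fun j _ => Finset.sum_congr rfl fun k _ => by ring

end calcul

section tst

variable {n : ℕ} {Y : Type} [TopologicalSpace Y] [T2Space Y] {p : Y → E n} {W : Set Y} {y : Y}
  {F : Type} [NormedAddCommGroup F] [NormedSpace ℝ F] {k k' : ℕ}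
  {F' : Type} [NormedAddCommGroup F'] [NormedSpace ℝ F']

theorem ev_zero {K : Set Y} (hK : IsCompact K) {f : Y → F} (hf : ∀ y ∉ K, f y = 0) (hy : y ∉ K) :
    f =ᶠ[𝓝 y] fun _ => 0 := by
  filter_upwards [hK.isClosed.isOpen_compl.mem_nhds hy] with x hx using hf x hx

theorem dd_off {K : Set Y} (hK : IsCompact K) {f : Y → F} (hf : ∀ y ∉ K, f y = 0) (hy : y ∉ K) :
    dd p f y = 0 := by rw [dd_congr' (ev_zero hK hf hy), dd_const]

theorem dz_off {K : Set Y} (hK : IsCompact K) {f : Y → ℂ} (hf : ∀ y ∉ K, f y = 0) (hy : y ∉ K)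
    (j : Fin n) : dz p j f y = 0 := by rw [dz_congr (ev_zero hK hf hy), dz_const]

theorem dzb_off {K : Set Y} (hK : IsCompact K) {f : Y → ℂ} (hf : ∀ y ∉ K, f y = 0) (hy : y ∉ K)
    (j : Fin n) : dzb p j f y = 0 := by rw [dzb_congr (ev_zero hK hf hy), dzb_const]

namespace Tst

variable {f g : Y → F}

theorem sm (h : Tst p W k f) (y : Y) : Sm p k f y := by
  obtain ⟨h1, K, hK, hW, h0⟩ := h
  by_cases hy : y ∈ K
  · exact h1 y (hW hy)
  · exact (sm_const (0 : F)).congr' (ev_zero hK h0 hy)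

theorem of_le (h : Tst p W k f) (hk : k' ≤ k) : Tst p W k' f :=
  ⟨fun y hy => (h.1 y hy).of_le hk, h.2⟩

theorem one (h : Tst p W 2 f) : Tst p W 1 f := h.of_le (by norm_num)

theorem zero (h : Tst p W k f) : Tst p W 0 f := h.of_le (Nat.zero_le _)

theorem mono {W' : Set Y} (h : Tst p W k f) (hs : W ⊆ W') : Tst p W' k f := by
  obtain ⟨K, hK, hW, h0⟩ := h.2
  exact ⟨fun y _ => h.sm y, K, hK, hW.trans hs, h0⟩

theorem continuous (hW : RD p W) (h : Tst p W k f) : Continuous f := by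
  refine continuous_iff_continuousAt.2 fun y => ?_
  obtain ⟨h1, K, hK, hKW, h0⟩ := h
  by_cases hy : y ∈ K
  · exact (h1 y (hKW hy)).continuousAt (hW.locH (hKW hy))
  · exact continuousAt_const.congr (ev_zero hK h0 hy).symm

theorem hasCompactSupport (h : Tst p W k f) : HasCompactSupport f := by
  obtain ⟨K, hK, -, h0⟩ := h.2
  exact HasCompactSupport.intro hK h0

theorem bound (hW : RD p W) (h : Tst p W k f) : ∃ C, ∀ y, ‖f y‖ ≤ C :=
  (h.continuous hW).bounded_above_of_compact_support h.hasCompactSupport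

theorem const_zero : Tst p W k (fun _ => (0 : F)) :=
  ⟨fun _ _ => sm_const _, ∅, isCompact_empty, empty_subset _, fun _ _ => rfl⟩

theorem add (hf : Tst p W k f) (hg : Tst p W k g) : Tst p W k (fun x => f x + g x) := by
  obtain ⟨K, hK, hW, h0⟩ := hf.2
  obtain ⟨K', hK', hW', h0'⟩ := hg.2
  refine ⟨fun y hy => (hf.1 y hy).add (hg.1 y hy), K ∪ K', hK.union hK', union_subset hW hW',
    fun y hy => ?_⟩
  simp only [h0 y fun h => hy (Or.inl h), h0' y fun h => hy (Or.inr h), add_zero]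

theorem clm (hf : Tst p W k f) (A : F →L[ℝ] F') : Tst p W k (fun x => A (f x)) := by
  obtain ⟨K, hK, hW, h0⟩ := hf.2
  exact ⟨fun y hy => (hf.1 y hy).clm A, K, hK, hW, fun y hy => by simp only [h0 y hy, map_zero]⟩

theorem neg (hf : Tst p W k f) : Tst p W k (fun x => -f x) := hf.clm (-ContinuousLinearMap.id ℝ F)

theorem sub (hf : Tst p W k f) (hg : Tst p W k g) : Tst p W k (fun x => f x - g x) := by
  simpa only [sub_eq_add_neg] using hf.add hg.neg

theorem sum {ι : Type} {s : Finset ι} {f : ι → Y → F} (hf : ∀ i ∈ s, Tst p W k (f i)) :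
    Tst p W k (fun x => ∑ i ∈ s, f i x) := by
  induction s using Finset.induction_on with
  | empty => simpa using const_zero
  | insert a s ha ih =>
    simp only [Finset.sum_insert ha]
    exact (hf a (by simp)).add (ih fun i hi => hf i (by simp [hi]))

theorem mul_left {A : Type} [NormedRing A] [NormedAlgebra ℝ A] {f g : Y → A} (hg : Tst p W k g)
    (hf : ∀ y ∈ W, Sm p k f y) : Tst p W k (fun x => f x * g x) := by
  obtain ⟨K, hK, hW, h0⟩ := hg.2
  exact ⟨fun y hy => (hf y hy).mul (hg.1 y hy), K, hK, hW,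
    fun y hy => by simp only [h0 y hy, mul_zero]⟩

theorem mul_right {A : Type} [NormedRing A] [NormedAlgebra ℝ A] {f g : Y → A} (hf : Tst p W k f)
    (hg : ∀ y ∈ W, Sm p k g y) : Tst p W k (fun x => f x * g x) := by
  obtain ⟨K, hK, hW, h0⟩ := hf.2
  exact ⟨fun y hy => (hf.1 y hy).mul (hg y hy), K, hK, hW,
    fun y hy => by simp only [h0 y hy, zero_mul]⟩

theorem cj {f : Y → ℂ} (hf : Tst p W k f) : Tst p W k (fun x => conj (f x)) :=
  hf.clm (conjCLE : ℂ →L[ℝ] ℂ)

theorem ofReal {f : Y → ℝ} (hf : Tst p W k f) : Tst p W k (fun x => (f x : ℂ)) := hf.clm ofRealCLM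

theorem dz (hW : RD p W) {f : Y → ℂ} (hf : Tst p W (k + 1) f) (j : Fin n) :
    Tst p W k (SV.dz p j f) := by
  obtain ⟨K, hK, hKW, h0⟩ := hf.2
  exact ⟨fun y hy => (hf.1 y hy).dz (hW.locH hy) j, K, hK, hKW, fun y hy => dz_off hK h0 hy j⟩

theorem dzb (hW : RD p W) {f : Y → ℂ} (hf : Tst p W (k + 1) f) (j : Fin n) :
    Tst p W k (SV.dzb p j f) := by
  obtain ⟨K, hK, hKW, h0⟩ := hf.2
  exact ⟨fun y hy => (hf.1 y hy).dzb (hW.locH hy) j, K, hK, hKW, fun y hy => dzb_off hK h0 hy j⟩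

theorem dv (hW : RD p W) {α : Fin n → Y → ℂ} (hf : ∀ j, Tst p W (k + 1) (α j)) :
    Tst p W k (SV.dv p α) := sum fun j _ => (hf j).dz hW j

theorem cu (hW : RD p W) {α : Fin n → Y → ℂ} (hf : ∀ j, Tst p W (k + 1) (α j)) (i j : Fin n) :
    Tst p W k (SV.cu p α i j) := ((hf j).dzb hW i).sub ((hf i).dzb hW j)

/-- One compact set for finitely many test functions. -/
theorem common {ι : Type} [Finite ι] {f : ι → Y → F} (hf : ∀ i, Tst p W k (f i)) :
    ∃ K, IsCompact K ∧ K ⊆ W ∧ ∀ i, ∀ y ∉ K, f i y = 0 := by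
  choose K hK hW h0 using fun i => (hf i).2
  exact ⟨⋃ i, K i, isCompact_iUnion hK, iUnion_subset hW,
    fun i y hy => h0 i y fun h => hy (mem_iUnion.2 ⟨i, h⟩)⟩

end Tst

end tst

section integ

variable {n : ℕ} (D : Dom n) {F : Type} [NormedAddCommGroup F] [NormedSpace ℝ F] {k : ℕ}

theorem ae_mem (hRM : St_RM) : ∀ᵐ y ∂D.μ, y ∈ D.W := (hRM n D).1.off

theorem restrict_W (hRM : St_RM) : D.μ.restrict D.W = D.μ :=
  Measure.restrict_eq_self_of_ae_mem (ae_mem D hRM)

theorem aesm_of_continuousOn (hRM : St_RM) {G : Type} [TopologicalSpace G]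
    [TopologicalSpace.PseudoMetrizableSpace G] {f : D.Y → G} (hf : ContinuousOn f D.W) :
    AEStronglyMeasurable f D.μ := by
  rw [← restrict_W D hRM]
  exact hf.aestronglyMeasurable D.rd.opn.measurableSet

theorem contOn_of_sm {f : D.Y → F} (hf : ∀ y ∈ D.W, Sm D.p k f y) : ContinuousOn f D.W :=
  fun y hy => ((hf y hy).continuousAt (D.rd.locH hy)).continuousWithinAt

theorem aesm_of_sm (hRM : St_RM) {f : D.Y → F} (hf : ∀ y ∈ D.W, Sm D.p k f y) :
    AEStronglyMeasurable f D.μ := aesm_of_continuousOn D hRM (contOn_of_sm D hf)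

variable {D}

theorem Tst.memLp_top (hRM : St_RM) {f : D.Y → F} (hf : Tst D.p D.W k f) : MemLp f ∞ D.μ := by
  obtain ⟨C, hC⟩ := hf.bound D.rd
  exact memLp_top_of_bound (hf.continuous D.rd).aestronglyMeasurable C (Eventually.of_forall hC)

theorem Tst.memLp (hRM : St_RM) {f : D.Y → F} (hf : Tst D.p D.W k f) (e : ℝ≥0∞) :
    MemLp f e D.μ := by
  obtain ⟨K, hK, hW, h0⟩ := hf.2
  have : f = K.indicator f := by
    funext y
    by_cases hy : y ∈ K
    · rw [indicator_of_mem hy]
    · rw [indicator_of_notMem hy, h0 y hy]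
  rw [this, memLp_indicator_iff_restrict hK.measurableSet]
  have : IsFiniteMeasure (D.μ.restrict K) :=
    ⟨by rw [Measure.restrict_apply_univ]; exact ((hRM n D).2.2.2.2.2.2.1 K hK hW).lt_top⟩
  exact ((hf.memLp_top hRM).restrict K).mono_exponent le_top

theorem Tst.integrable (hRM : St_RM) {f : D.Y → F} (hf : Tst D.p D.W k f) : Integrable f D.μ :=
  memLp_one_iff_integrable.1 (hf.memLp hRM 1)

theorem Tst.memLp_mul (hRM : St_RM) {c a : D.Y → ℂ} (hc : Tst D.p D.W k c) (ha : MemLp a 2 D.μ) :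
    MemLp (fun y => c y * a y) 2 D.μ := ha.mul' (hc.memLp_top hRM)

theorem Tst.integrable_mul (hRM : St_RM) {c a : D.Y → ℂ} (hc : Tst D.p D.W k c)
    (ha : MemLp a 2 D.μ) : Integrable (fun y => c y * a y) D.μ :=
  (hc.memLp hRM 2).integrable_mul ha

theorem int_dz (hRM : St_RM) (hI : St_IBP) {f : D.Y → ℂ} (hf : Tst D.p D.W 1 f) (j : Fin n) :
    ∫ y, dz D.p j f y ∂D.μ = 0 := by
  have h : ∀ v, Integrable (fun y => dd D.p f y v) D.μ := fun v => by
    obtain ⟨K, hK, hKW, h0⟩ := hf.2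
    exact Tst.integrable hRM (k := 0) ⟨fun y hy => (hf.1 y hy).dd_apply (D.rd.locH hy) v, K, hK,
      hKW, fun y hy => by simp only [dd_off hK h0 hy, zero_apply]⟩
  simp only [dz]
  rw [integral_div, integral_sub (h _) ((h _).const_mul I), integral_const_mul,
    (hI n D f).2 hf, (hI n D f).2 hf]
  simp

theorem int_dzb (hRM : St_RM) (hI : St_IBP) {f : D.Y → ℂ} (hf : Tst D.p D.W 1 f) (j : Fin n) :
    ∫ y, dzb D.p j f y ∂D.μ = 0 := by
  have := int_dz hRM hI hf.cj j
  simp only [dz_conj (hf.sm _)] at this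
  rw [integral_conj] at this
  simpa using this

end integ

end Pool.Agent.Lib.SV
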