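import Pool.Agent.Lib.SV.HKit

/-! The estimate of Hörmander in dual form, part 1: projection on the closed forms and the
weak data obtained by a cut-off. -/

open scoped Classical Topology ENNReal ComplexConjugate
open Set MeasureTheory Complex Filter Metric

set_option linter.unusedVariables false
set_option linter.unusedSectionVars false

noncomputable section

namespace Pool.Agent.Lib.SV.CORE

theorem proj_abs {H : Type} [NormedAddCommGroup H] [InnerProductSpace ℂ H] [CompleteSpace H]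
    (C : Set H) (a₀ : H) : ∃ a : H, (∀ c ∈ C, inner ℂ c a = 0) ∧
      ∀ b, (∀ c ∈ C, inner ℂ c b = 0) → inner ℂ b a = inner ℂ b a₀ := by
  set N := (Submodule.span ℂ C)ᗮ with hN
  have hm : ∀ b, b ∈ N ↔ ∀ c ∈ C, inner ℂ c b = 0 := fun b => by
    rw [hN, Submodule.mem_orthogonal]
    refine ⟨fun h c hc => h c (Submodule.subset_span hc), fun h c hc => ?_⟩
    induction hc using Submodule.span_induction with
    | mem x hx => exact h x hx
    | zero => simp
    | add x y _ _ hx hy => rw [inner_add_left, hx, hy, add_zero]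
    | smul t x _ hx => rw [inner_smul_left, hx, mul_zero]
  obtain ⟨a, ha, h⟩ := Submodule.HasOrthogonalProjection.exists_orthogonal (K := N) a₀
  refine ⟨a, (hm a).1 ha, fun b hb => ?_⟩
  have := (Submodule.mem_orthogonal _ _).1 h b ((hm b).2 hb)
  rw [inner_sub_right] at this
  exact (sub_eq_zero.1 this).symm

section proj

variable {Y : Type} [MeasurableSpace Y] {μ : Measure Y} {n : ℕ}

/-- A family of square integrable functions as a vector of a Hilbert space. -/
def vec (b : Fin n → Y → ℂ) (hb : ∀ i, MemLp (b i) 2 μ) : PiLp 2 fun _ : Fin n => Lp ℂ 2 μ :=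
  WithLp.toLp 2 fun i => (hb i).toLp (b i)

theorem memLp_conj {b : Y → ℂ} (hb : MemLp b 2 μ) : MemLp (fun y => conj (b y)) 2 μ :=
  (conjCLE : ℂ →L[ℝ] ℂ).comp_memLp' hb

theorem inner_vec (b c : Fin n → Y → ℂ) (hb : ∀ i, MemLp (b i) 2 μ) (hc : ∀ i, MemLp (c i) 2 μ) :
    inner ℂ (vec b hb) (vec c hc) = ∫ y, ∑ i, conj (b i y) * c i y ∂μ := by
  rw [PiLp.inner_apply, integral_finsetSum (f := fun i y => conj (b i y) * c i y) _
    fun i _ => (memLp_conj (hb i)).integrable_mul (hc i)]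
  refine Finset.sum_congr rfl fun i _ => ?_
  rw [L2.inner_def]
  refine integral_congr_ae ?_
  filter_upwards [(hb i).coeFn_toLp, (hc i).coeFn_toLp] with y h1 h2
  simp only [vec, h1, h2, RCLike.inner_apply, mul_comm]

theorem proj {T : Type} (c : T → Fin n → Y → ℂ) (hc : ∀ t i, MemLp (c t i) 2 μ)
    (a₀ : Fin n → Y → ℂ) (h₀ : ∀ i, MemLp (a₀ i) 2 μ) :
    ∃ a : Fin n → Y → ℂ, (∀ i, MemLp (a i) 2 μ) ∧ (∀ t, ∫ y, ∑ i, c t i y * a i y ∂μ = 0) ∧
      ∀ b : Fin n → Y → ℂ, (∀ i, MemLp (b i) 2 μ) → (∀ t, ∫ y, ∑ i, c t i y * b i y ∂μ = 0) →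
        ∫ y, ∑ i, conj (b i y) * a i y ∂μ = ∫ y, ∑ i, conj (b i y) * a₀ i y ∂μ := by
  obtain ⟨a, h1, h2⟩ := proj_abs
    (range fun t => vec (fun i y => conj (c t i y)) fun i => memLp_conj (hc t i)) (vec a₀ h₀)
  have hm : ∀ i, MemLp (a.ofLp i) 2 μ := fun i => Lp.memLp _
  have ha : vec (fun i => (a.ofLp i : Y → ℂ)) hm = a := by
    ext1 i
    simp only [vec, Lp.toLp_coeFn]
  refine ⟨fun i => a.ofLp i, hm, fun t => ?_, fun b hb h => ?_⟩
  · have := h1 _ ⟨t, rfl⟩
    rw [← ha, inner_vec] at this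
    simpa only [conj_conj] using this
  · have := h2 (vec b hb) (by
      rintro _ ⟨t, rfl⟩
      rw [inner_vec]
      simpa only [conj_conj] using h t)
    rw [← ha, inner_vec, inner_vec] at this
    exact this

end proj

variable {n : ℕ} {D : Dom n}

/-- The exponential as a complex number. -/
def ex {Y : Type} (u : Y → ℝ) (y : Y) : ℂ := (Real.exp (u y) : ℂ)

theorem ex_mul {Y : Type} (u : Y → ℝ) (y : Y) : ex u y * ex (fun x => -u x) y = 1 := by
  simp only [ex, ← ofReal_mul, ← Real.exp_add, add_neg_cancel, Real.exp_zero, ofReal_one]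

theorem conj_ex {Y : Type} (u : Y → ℝ) (y : Y) : conj (ex u y) = ex u y := conj_ofReal _

theorem sm_ex {u : D.Y → ℝ} {k : ℕ} {y : D.Y} (hu : Sm D.p k u y) : Sm D.p k (ex u) y :=
  hu.exp.ofReal

theorem closed (hRM : St_RM) (hI : St_IBP) {v θ : D.Y → ℂ} (hv : ∀ y ∈ D.W, Sm D.p 2 v y)
    (hθ : Tst D.p D.W 2 θ) (j k : Fin n) :
    ∫ y, (dzb D.p j θ y * dzb D.p k v y - dzb D.p k θ y * dzb D.p j v y) ∂D.μ = 0 := by
  have h : ∀ k, Tst D.p D.W 1 fun y => θ y * dzb D.p k v y := fun k =>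
    hθ.one.mul_right fun y hy => (hv y hy).dzb (D.rd.locH hy) k
  have := integral_sub (((h k).dzb D.rd j).integrable hRM) (((h j).dzb D.rd k).integrable hRM)
  rw [int_dzb hRM hI (h k), int_dzb hRM hI (h j), sub_zero] at this
  rw [← this]
  refine integral_congr_ae ?_
  filter_upwards [ae_mem D hRM] with y hy
  have hl := D.rd.locH hy
  rw [dzb_mul (hθ.sm y).one ((hv y hy).dzb hl k), dzb_mul (hθ.sm y).one ((hv y hy).dzb hl j),
    dzb_dzb_comm hl (hv y hy) j k]
  ring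

theorem int_div (hRM : St_RM) (hI : St_IBP) {α : Fin n → D.Y → ℂ} {θ : D.Y → ℂ}
    (hα : ∀ j, Tst D.p D.W 2 (α j)) (hθ : Tst D.p D.W 2 θ) :
    ∫ y, (∑ i, dz D.p i θ y * α i y + θ y * dv D.p α y) ∂D.μ = 0 := by
  have h : ∀ i, Tst D.p D.W 1 fun y => θ y * α i y := fun i =>
    hθ.one.mul_right fun y _ => ((hα i).sm y).one
  have := integral_finsetSum (μ := D.μ) Finset.univ
    fun i _ => ((h i).dz D.rd i).integrable hRM
  simp only [int_dz hRM hI (h _), Finset.sum_const_zero] at this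
  rw [← this]
  refine integral_congr_ae (Eventually.of_forall fun y => ?_)
  simp only [dz_mul (hθ.sm y).one ((hα _).sm y).one, dv, Finset.mul_sum, Finset.sum_add_distrib]

/-- The projection on the closed forms. -/
theorem exists_proj (hRM : St_RM) (hI : St_IBP) {u : D.Y → ℝ} (hu : ∀ y ∈ D.W, Sm D.p 2 u y)
    {G : D.Y → ℂ} (hG : ∀ y ∈ D.W, Sm D.p 2 G y)
    (hf : ∀ j, MemLp (fun y => ex (fun x => -u x) y * dzb D.p j G y) 2 D.μ)
    {α : Fin n → D.Y → ℂ} (hα : ∀ j, Tst D.p D.W 2 (α j)) :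
    ∃ a : Fin n → D.Y → ℂ, (∀ i, MemLp (a i) 2 D.μ) ∧
      (∀ θ, Tst D.p D.W 2 θ → ∀ j k,
        ∫ y, ex u y * (dzb D.p j θ y * a k y - dzb D.p k θ y * a j y) ∂D.μ = 0) ∧
      (∀ θ, Tst D.p D.W 2 θ →
        ∫ y, (∑ i, ex (fun x => -u x) y * dz D.p i θ y * a i y + θ y * dv D.p α y) ∂D.μ = 0) ∧
      ∫ y, ∑ i, conj (ex (fun x => -u x) y * dzb D.p i G y) * a i y ∂D.μ =
        ∫ y, ∑ i, conj (dzb D.p i G y) * α i y ∂D.μ := by
  have hp : ∀ y ∈ D.W, Sm D.p 0 (ex u) y := fun y hy => (sm_ex (hu y hy)).zero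
  have hm : ∀ y ∈ D.W, Sm D.p 0 (ex fun x => -u x) y := fun y hy => (sm_ex (hu y hy).neg).zero
  set c : {θ : D.Y → ℂ // Tst D.p D.W 2 θ} × Fin n × Fin n → Fin n → D.Y → ℂ := fun t i y =>
    ex u y * (dzb D.p t.2.1 t.1.1 y * (if i = t.2.2 then 1 else 0) -
      dzb D.p t.2.2 t.1.1 y * (if i = t.2.1 then 1 else 0)) with hc
  have hs : ∀ t (b : Fin n → D.Y → ℂ) y, ∑ i, c t i y * b i y =
      ex u y * (dzb D.p t.2.1 t.1.1 y * b t.2.2 y - dzb D.p t.2.2 t.1.1 y * b t.2.1 y) :=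
    fun t b y => by
      simp only [hc, mul_assoc, ← Finset.mul_sum, sub_mul, Finset.sum_sub_distrib, ite_mul, one_mul,
        zero_mul, Finset.sum_ite_eq', Finset.mem_univ, if_true]
  obtain ⟨a, ha, h1, h2⟩ := proj (μ := D.μ) c (fun t i =>
    (Tst.mul_left (((t.1.2.dzb D.rd _).zero.mul_right fun _ _ => sm_const _).sub
      ((t.1.2.dzb D.rd _).zero.mul_right fun _ _ => sm_const _)) hp).memLp hRM 2)
    (fun i y => ex u y * α i y) fun i => ((hα i).zero.mul_left hp).memLp hRM 2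
  have h3 : ∀ v : D.Y → ℂ, (∀ y ∈ D.W, Sm D.p 2 v y) →
      (∀ j, MemLp (fun y => ex (fun x => -u x) y * dzb D.p j v y) 2 D.μ) →
      ∫ y, ∑ i, conj (ex (fun x => -u x) y * dzb D.p i v y) * a i y ∂D.μ =
        ∫ y, ∑ i, conj (dzb D.p i v y) * α i y ∂D.μ := fun v hv hL => by
    rw [h2 _ hL fun t => ?_]
    · refine integral_congr_ae (Eventually.of_forall fun y => Finset.sum_congr rfl fun i _ => ?_)
      rw [map_mul, conj_ex]
      linear_combination conj (dzb D.p i v y) * α i y * ex_mul u y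
    · rw [← closed hRM hI hv t.1.2 t.2.1 t.2.2]
      refine integral_congr_ae (Eventually.of_forall fun y => ?_)
      refine (hs t (fun i y => ex (fun x => -u x) y * dzb D.p i v y) y).trans ?_
      linear_combination (dzb D.p t.2.1 t.1.1 y * dzb D.p t.2.2 v y -
        dzb D.p t.2.2 t.1.1 y * dzb D.p t.2.1 v y) * ex_mul u y
  refine ⟨a, ha, fun θ hθ j k => ?_, fun θ hθ => ?_, h3 G hG hf⟩
  · simpa only [hs] using h1 (⟨θ, hθ⟩, j, k)
  · have h4 := h3 _ (fun y _ => hθ.cj.sm y)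
      fun j => ((hθ.cj.dzb D.rd j).zero.mul_left hm).memLp hRM 2
    simp only [dzb_conj (hθ.sm _).one, map_mul, conj_ex, conj_conj] at h4
    have h5 := int_div hRM hI hα hθ
    have i2 : Integrable (fun y => θ y * dv D.p α y) D.μ :=
      (hθ.zero.mul_right fun y _ => ((Tst.dv D.rd hα).sm y).zero).integrable hRM
    rw [integral_add (integrable_finsetSum _ fun i _ =>
      ((hθ.dz D.rd i).zero.mul_right fun y _ => ((hα i).sm y).zero).integrable hRM) i2] at h5
    rw [integral_add (integrable_finsetSum _ fun i _ =>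
      ((hθ.dz D.rd i).zero.mul_left hm).integrable_mul hRM (ha i)) i2, h4, h5]

/-- The weak data given by a cut-off. -/
theorem weak_cut (hRM : St_RM) {u : D.Y → ℝ} (hu : ∀ y ∈ D.W, Sm D.p 2 u y)
    {a : Fin n → D.Y → ℂ} (ha : ∀ i, MemLp (a i) 2 D.μ) {δ : D.Y → ℂ} (hδ : MemLp δ 2 D.μ)
    (hc : ∀ θ, Tst D.p D.W 2 θ → ∀ j k,
      ∫ y, ex u y * (dzb D.p j θ y * a k y - dzb D.p k θ y * a j y) ∂D.μ = 0)
    (hd : ∀ θ, Tst D.p D.W 2 θ →
      ∫ y, (∑ i, ex (fun x => -u x) y * dz D.p i θ y * a i y + θ y * δ y) ∂D.μ = 0)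
    {η : D.Y → ℂ} (hη : Tst D.p D.W 2 η) :
    ∃ K, Weak D K (fun i y => η y * ex u y * a i y)
      (fun y => η y * ex u y * ex u y * δ y + ∑ i, ex (fun x => -u x) y *
        dz D.p i (fun x => η x * ex u x * ex u x) y * a i y)
      (fun j k y => ex u y * dzb D.p j η y * a k y - ex u y * dzb D.p k η y * a j y) := by
  have hp : ∀ y ∈ D.W, Sm D.p 2 (ex u) y := fun y hy => sm_ex (hu y hy)
  have hp0 : ∀ y ∈ D.W, Sm D.p 0 (ex u) y := fun y hy => (hp y hy).zero
  have hm : ∀ y ∈ D.W, Sm D.p 0 (ex fun x => -u x) y := fun y hy => (sm_ex (hu y hy).neg).zero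
  have h1 := hη.mul_right hp
  have h2 := h1.mul_right hp
  obtain ⟨K, hK, hKW, h0⟩ := hη.2
  refine ⟨K, hK, hKW, fun j => h1.memLp_mul hRM (ha j), (h2.memLp_mul hRM hδ).add
    (memLp_finsetSum _ fun i _ => ((h2.dz D.rd i).zero.mul_left hm).memLp_mul hRM (ha i)),
    fun j k => (((hη.dzb D.rd j).zero.mul_left hp0).memLp_mul hRM (ha k)).sub
      (((hη.dzb D.rd k).zero.mul_left hp0).memLp_mul hRM (ha j)), fun y hy => ?_,
    fun θ hθ => ?_, fun θ hθ j k => ?_⟩
  · have : ∀ i, dz D.p i (fun x => η x * ex u x * ex u x) y = 0 := fun i =>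
      dz_off hK (fun x hx => by simp only [h0 x hx, zero_mul]) hy i
    simp only [h0 y hy, this, dzb_off hK h0 hy, zero_mul, mul_zero, Finset.sum_const_zero,
      add_zero, sub_zero, implies_true, and_self]
  · rw [← hd _ (hθ.mul_right h2.1)]
    refine integral_congr_ae (Eventually.of_forall fun y => ?_)
    simp only [dz_mul (hθ.sm y).one (h2.sm y).one, mul_add, add_mul, Finset.mul_sum,
      Finset.sum_add_distrib]
    have e1 : ∀ i, dz D.p i θ y * (η y * ex u y * a i y) =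
        ex (fun x => -u x) y * (dz D.p i θ y * (η y * ex u y * ex u y)) * a i y := fun i => by
      linear_combination -(dz D.p i θ y * η y * ex u y * a i y) * ex_mul u y
    have e2 : ∀ i, θ y * (ex (fun x => -u x) y * dz D.p i (fun x => η x * ex u x * ex u x) y * a i y)
        = ex (fun x => -u x) y * (θ y * dz D.p i (fun x => η x * ex u x * ex u x) y) * a i y :=
      fun i => by ring
    simp only [e1, e2]
    ring
  · rw [← hc _ (hθ.mul_right hη.1) j k]
    refine integral_congr_ae (Eventually.of_forall fun y => ?_)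
    simp only [dzb_mul (hθ.sm y).one (hη.sm y).one]
    ring

end Pool.Agent.Lib.SV.CORE
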